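import Pool.Agent.LibBHN.Count
import Pool.Agent.LibNexp.Use
import Pool.Agent.LibNexp.Witness
import Pool.Agent.LibSpec4.Coding

/-!
Common definitions of the project AV75 (average-case complementation of NEXP).
-/

namespace Pool.Agent.LibAV75

open Filter Function Pool.Agent.LibNexp Pool.Agent.LibBHN

/-- The number of strings of length `m` at which `L` and `N` differ. -/
noncomputable def err (L N : Lang) (m : ℕ) : ℕ := cnt m fun z => ¬ (z ∈ L ↔ z ∈ N)

/-- Every complement of a language in NEXP is approximated by a language in NEXP; the fraction of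
errors at length `m` is at most `2 ^ (-r m)`. -/
def H (O : List Bool → Bool) (r : ℕ → ℕ) : Prop :=
  ∀ L ∈ NEXPLang O, ∃ N ∈ NEXPLang O, ∀ᶠ m in atTop, 2 ^ r m * err Lᶜ N m ≤ 2 ^ m

/-- The same, from inside. -/
def Inner (O : List Bool → Bool) (r : ℕ → ℕ) : Prop :=
  ∀ L ∈ NEXPLang O, ∃ N ∈ NEXPLang O, N ⊆ Lᶜ ∧ ∀ᶠ m in atTop, 2 ^ r m * err Lᶜ N m ≤ 2 ^ m

/-- Both versions at once: `b = False` gives `H`, `b = True` gives `Inner`. -/
def Ap (O : List Bool → Bool) (b : Prop) (r : ℕ → ℕ) : Prop :=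
  ∀ L ∈ NEXPLang O, ∃ N ∈ NEXPLang O, (b → N ⊆ Lᶜ) ∧ ∀ᶠ m in atTop, 2 ^ r m * err Lᶜ N m ≤ 2 ^ m

theorem h_iff {O : List Bool → Bool} {r : ℕ → ℕ} : H O r ↔ Ap O False r := by
  simp [H, Ap]

theorem inner_iff {O : List Bool → Bool} {r : ℕ → ℕ} : Inner O r ↔ Ap O True r := by
  simp [Inner, Ap]

/-- Every complement of a language in NEXP agrees with a language in NEXP on more than half of the
strings of each large length. -/
def More (O : List Bool → Bool) : Prop :=
  ∀ L ∈ NEXPLang O, ∃ N ∈ NEXPLang O, ∀ᶠ m in atTop, 2 * err Lᶜ N m < 2 ^ m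

end Pool.Agent.LibAV75
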