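import Pool.Agent.LibAV75.E3
import Pool.Agent.LibTrade92.Main

/-!
Row E4: approximation gives advice.
-/

namespace Pool.Agent.LibAV75

open Filter Function Pool.Agent.LibNexp Pool.Agent.LibBHN
open Pool.Agent.LibSpec30 (Enough)

variable {O : List Bool → Bool}

/-- The relation. -/
private def E4R (L N : Lang) (x w : List Bool) (z : Fin 2 → List Bool) : Prop :=
  ((z 1 = w ++ z 0 ∧ (z 1).length = 1 * x.length + 1) ∧ (z 0 = [] ∨ Ce N x.length (z 0))) ∧
    ∃ n, (z 1).length = n + 1 ∧ val (z 1) ≤ cnt n fun y => y ∈ L ∧ y ≠ x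

private theorem E4_nexp {L N : Lang} (hL : L ∈ NEXPLang O) (hN : N ∈ NEXPLang O) :
    NEXP O fun e : Fin 2 → List Bool => ∃ z, E4R L N (e 0) (e 1) z := by
  have h1 : NEXP O fun e : Fin 4 → List Bool =>
      ((e 3 = e 1 ++ e 2 ∧ (e 3).length = 1 * (e 0).length + 1) ∧
        (e 2 = [] ∨ Ce N (e 0).length (e 2))) ∧
      ∃ n, (e 3).length = n + 1 ∧ val (e 3) ≤ cnt n fun y => y ∈ L ∧ y ≠ e 0 :=
    (((nexp_append 1 2 3).and (nexp_lin 1 1 0 3)).and
      ((nexp_const [] 2).or ((ce_mem hN).reindex ![0, 2]))).and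
      ((LibDown92.nexp_p10_cnt hL).reindex ![0, 3])
  refine LibDual85.nexp_exN (k := 2) (m := 2) (R := fun e z => E4R L N (e 0) (e 1) z) h1
    (g := fun n => n + 1) PolyB.id.succ (fun a b hab => Nat.succ_le_succ hab) ?_
  rintro e z ⟨⟨⟨h2, h3⟩, -⟩, -⟩ i
  have e0 := len_le_size e 0
  have h4 : (z 1).length = (e 1).length + (z 0).length := by rw [h2, List.length_append]
  show (z i).length ≤ size e + 1
  fin_cases i
  · show (z 0).length ≤ _; omega
  · show (z 1).length ≤ _; omega

/-- Correctness at one length. -/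
private theorem E4_iff {L N : Lang} {x : List Bool} {R : ℕ} {ρ : ℕ → ℕ} (hR : R ≤ x.length + 1)
    (hρ : R = 0 ∨ (R + 2 ≤ ρ ((x.length + 2) ^ 3 + R) ∧
      2 ^ ρ ((x.length + 2) ^ 3 + R) * err (CL L)ᶜ N ((x.length + 2) ^ 3 + R) ≤
        2 ^ ((x.length + 2) ^ 3 + R))) :
    (∃ z, E4R L N x ((bits (x.length + 1) (cnt x.length fun y => y ∈ L)).take
      (x.length + 1 - R)) z) ↔ x ∉ L := by
  obtain ⟨n, hn⟩ : ∃ n, n = x.length := ⟨_, rfl⟩
  obtain ⟨c, hc⟩ : ∃ c, c = cnt x.length (fun y => y ∈ L) := ⟨_, rfl⟩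
  obtain ⟨F, hF⟩ : ∃ F, F = bits (x.length + 1) (cnt x.length fun y => y ∈ L) := ⟨_, rfl⟩
  have hclt : c < 2 ^ (n + 1) := by
    rw [hc, hn]
    exact LibDown92.p10_N L _
  have hFlen : F.length = n + 1 := by
    rw [hF, hn]
    exact length_bits _ _
  have hFval : val F = c := by
    rw [hF, ← hc, ← hn]
    exact val_bits hclt
  rw [← hF, ← hn]
  rw [← hn] at hR hρ
  have hb : (F.take (n + 1 - R)).length = n + 1 - R := by
    rw [List.length_take, hFlen]
    omega
  have ha : (F.drop (n + 1 - R)).length = R := by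
    rw [List.length_drop, hFlen]
    omega
  have hcat : F.take (n + 1 - R) ++ F.drop (n + 1 - R) = F := List.take_append_drop _ F
  have hval : ∀ y : List Bool, val (F.take (n + 1 - R) ++ y) =
      val (F.take (n + 1 - R)) + 2 ^ (n + 1 - R) * val y := by
    intro y
    rw [LibDown92.val_app, hb]
  have hcab : c = val (F.take (n + 1 - R)) + 2 ^ (n + 1 - R) * val (F.drop (n + 1 - R)) := by
    rw [← hval, hcat, hFval]
  have hblt : val (F.take (n + 1 - R)) < 2 ^ (n + 1 - R) := by
    have := val_lt (F.take (n + 1 - R))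
    rwa [hb] at this
  have hpos : 0 < 2 ^ (n + 1 - R) := by positivity
  have hc' : c = cnt x.length fun y => y ∈ L := hc
  constructor
  · rintro ⟨z, ⟨⟨h1, h2⟩, h3⟩, n', h4, h5⟩
    have hn' : n' = x.length := by omega
    have h2' : (z 1).length = n + 1 := by
      rw [h2, hn]
      ring
    have h6 : (z 0).length = R := by
      have h7 := congrArg List.length h1
      rw [List.length_append, hb, h2'] at h7
      omega
    have h8 : c ≤ val (z 1) := by
      rcases Nat.eq_zero_or_pos R with h0 | h0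
      · have h9 : z 0 = F.drop (n + 1 - R) := by
          rw [h0] at h6 ha
          rw [List.eq_nil_of_length_eq_zero h6, h0]
          exact (List.eq_nil_of_length_eq_zero ha).symm
        rw [h1, h9, hcat, hFval]
      · have h9 : Ce N x.length (z 0) := by
          rcases h3 with h3 | h3
          · rw [h3] at h6
            simp at h6
            omega
          · exact h3
        rcases hρ with hρ | ⟨hρ1, hρ2⟩
        · omega
        have h10 := (ce_iff (A := L) (n := n) hR hρ1 hρ2 h6).1 (by rw [hn]; exact h9)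
        rw [hn, ← hc', ← hn] at h10
        have h11 : val (F.drop (n + 1 - R)) ≤ val (z 0) := by
          by_contra hcon
          have h12 : 2 ^ (n + 1 - R) * (val (z 0) + 1) ≤
              2 ^ (n + 1 - R) * val (F.drop (n + 1 - R)) := Nat.mul_le_mul_left _ (not_le.1 hcon)
          have h13 : (val (z 0) + 1) * 2 ^ (n + 1 - R) = 2 ^ (n + 1 - R) * (val (z 0) + 1) :=
            mul_comm _ _
          omega
        rw [h1, hval, hcab]
        exact Nat.add_le_add_left (Nat.mul_le_mul_left _ h11) _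
    rw [hn'] at h5
    exact LibDown92.p10_mem hc' (h8.trans h5)
  · intro hx
    refine ⟨![F.drop (n + 1 - R), F], ⟨⟨hcat.symm, ?_⟩, ?_⟩, n, hFlen, ?_⟩
    · show F.length = 1 * x.length + 1
      rw [hFlen, ← hn, one_mul]
    · show F.drop (n + 1 - R) = [] ∨ Ce N x.length (F.drop (n + 1 - R))
      rcases Nat.eq_zero_or_pos R with h0 | h0
      · left
        rw [h0] at ha ⊢
        exact List.eq_nil_of_length_eq_zero ha
      · right
        rcases hρ with hρ | ⟨hρ1, hρ2⟩
        · omega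
        rw [← hn]
        refine (ce_iff (A := L) (n := n) hR hρ1 hρ2 ha).2 ?_
        rw [hn, ← hc', ← hn]
        have h13 : (val (F.drop (n + 1 - R)) + 1) * 2 ^ (n + 1 - R) =
            2 ^ (n + 1 - R) * val (F.drop (n + 1 - R)) + 2 ^ (n + 1 - R) := by ring
        omega
    · show val F ≤ cnt n fun y => y ∈ L ∧ y ≠ x
      rw [hFval, cnt_notMem (P := fun y => y ∈ L) hx, hc', hn]

/-- PLAN. For `L ∈ NEXP`: `N` from `h` for `CL L` (`cl_mem`). The relation (`rel_of_nexp`)
`C x w := |w| ≤ |x| + 1 ∧ ∃ y, |y| + |w| = |x| + 1 ∧ (y = [] ∨ Ce N |x| y) ∧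
val y * 2 ^ |w| + val w ≤ cnt |x| (fun z => z ∈ L ∧ z ≠ x)` is in NEXP (`ce_mem`, `nexp_ge`, `nexp_vMul`,
`nexp_vPow`, `nexp_vAdd`, `nexp_ne`). Advice: `f n := (bits (n + 1) c).take (n + 1 - R)`,
`c := cnt n (· ∈ L)`, `R := min (ρ n - 2) (n + 1)` for `n ≥ n₀`, `R := 0` for `n < n₀`, where `n₀` is such
that the approximation property of `N` holds at all lengths `≥ n₀` and `n + 3 ≤ a n + ρ n` for `n ≥ n₀`.
So `|f n| ≤ a n + (n₀ + 1)`. With `w := f n`: `y` = the other `R` digits of `c`:
`c = val y * 2 ^ |w| + val w`. If `C x w` holds with some `y'`: `ce_iff` (`ρ` monotone,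
`R + 2 ≤ ρ n ≤ ρ (...)`; if `R = 0` then `y' = []`) gives `c < (val y' + 1) * 2 ^ |w|`, so
`val y ≤ val y'` and `c ≤ val y' * 2 ^ |w| + val w ≤ cnt (z ∈ L, z ≠ x)`, so `x ∉ L` (`cnt_mem`); conversely
for `x ∉ L` use `y` (`cnt_notMem`). See `top_savings` in LibDown92/Top.lean for a similar proof. -/
theorem enough_of_ap {b : Prop} {ρ a : ℕ → ℕ} (hρ : Monotone ρ) (h2 : ∀ n, 2 ≤ ρ n)
    (h : Ap O b ρ) (ha : ∀ᶠ n in atTop, n + 3 ≤ a n + ρ n) : Enough O a := by
  classical
  intro L hL
  obtain ⟨N, hN, -, hap⟩ := h (CL L) (cl_mem hL)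
  obtain ⟨n₁, hn₁⟩ := eventually_atTop.1 hap
  obtain ⟨n₂, hn₂⟩ := eventually_atTop.1 ha
  obtain ⟨D, hD, hDC⟩ := rel_of_nexp (C := fun x w => ∃ z, E4R L N x w z) (E4_nexp hL hN)
  let R : ℕ → ℕ := fun n => if max n₁ n₂ ≤ n then min (ρ n - 2) (n + 1) else 0
  refine ⟨max n₁ n₂ + 1, D, hD, fun n => (bits (n + 1) (cnt n fun y => y ∈ L)).take
    (n + 1 - R n), fun n => ?_, ?_⟩
  · show ((bits (n + 1) (cnt n fun y => y ∈ L)).take (n + 1 - R n)).length ≤
      a n + (max n₁ n₂ + 1)
    rw [List.length_take, length_bits]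
    by_cases hn : max n₁ n₂ ≤ n
    · have h3 : R n = min (ρ n - 2) (n + 1) := if_pos hn
      have h4 := hn₂ n ((le_max_right _ _).trans hn)
      have h5 := h2 n
      rw [h3]
      omega
    · omega
  · ext x
    show x ∉ L ↔ pair x ((bits (x.length + 1) (cnt x.length fun y => y ∈ L)).take
      (x.length + 1 - R x.length)) ∈ D
    rw [hDC]
    refine (E4_iff (ρ := ρ) (R := R x.length) ?_ ?_).symm
    · by_cases hn : max n₁ n₂ ≤ x.length
      · have h3 : R x.length = min (ρ x.length - 2) (x.length + 1) := if_pos hn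
        rw [h3]
        exact min_le_right _ _
      · have h3 : R x.length = 0 := if_neg hn
        rw [h3]
        exact Nat.zero_le _
    · by_cases hn : max n₁ n₂ ≤ x.length
      · right
        have h3 : R x.length = min (ρ x.length - 2) (x.length + 1) := if_pos hn
        have h5 := h2 x.length
        have h6 : x.length ≤ (x.length + 2) ^ 3 + R x.length := by
          have h7 : x.length + 2 ≤ (x.length + 2) ^ 3 := Nat.le_self_pow (by norm_num) _
          omega
        refine ⟨?_, hn₁ _ (((le_max_left _ _).trans hn).trans h6)⟩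
        have h7 := hρ h6
        have h8 : R x.length ≤ ρ x.length - 2 := by
          rw [h3]
          exact min_le_left _ _
        omega
      · left
        exact if_neg hn

end Pool.Agent.LibAV75
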