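import Pool.Agent.LibAV75.B2

/-!
Row B10: numbers.
-/

namespace Pool.Agent.LibAV75

open Filter Function

private theorem B10_ev (K a b : ℕ) : ∀ᶠ n : ℕ in atTop, a * n ^ K + b < 2 ^ n := by
  have h1 := (isLittleO_pow_const_const_pow_of_one_lt (R := ℝ) K (one_lt_two)).def
    (show (0 : ℝ) < 1 / (2 * (a + 1)) by positivity)
  have h2 : ∀ᶠ n : ℕ in atTop, 2 * b < n := eventually_gt_atTop _
  filter_upwards [h1, h2] with n h3 h4
  rw [Real.norm_of_nonneg (by positivity), Real.norm_of_nonneg (by positivity)] at h3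
  have h5 : (n : ℝ) < 2 ^ n := by exact_mod_cast Nat.lt_two_pow_self
  have h6 : (2 * b : ℝ) < n := by exact_mod_cast h4
  have h7 : (a : ℝ) * (n : ℝ) ^ K ≤ 2 ^ n / 2 := by
    calc (a : ℝ) * (n : ℝ) ^ K ≤ (a + 1) * (1 / (2 * (a + 1)) * 2 ^ n) := by
          gcongr
          linarith
      _ = 2 ^ n / 2 := by
          field_simp
  have h8 : ((a * n ^ K + b : ℕ) : ℝ) < ((2 ^ n : ℕ) : ℝ) := by
    push_cast
    linarith
  exact_mod_cast h8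

private theorem B10_lay {n i : ℕ} (hn : 1 ≤ n) : n ≤ lay n (i + 3) ∧
    n ^ (i + 1) ≤ lay n (i + 3) := by
  unfold lay
  constructor
  · calc n = n ^ 1 := (pow_one n).symm
      _ ≤ n ^ 2 ^ (i + 3) := Nat.pow_le_pow_right hn Nat.one_le_two_pow
  · refine Nat.pow_le_pow_right hn ?_
    have : i + 3 < 2 ^ (i + 3) := Nat.lt_two_pow_self
    omega

/-- PLAN. With `M := lay n (i + 3) = n ^ 2 ^ (i + 3)`, `c ≤ n ≤ M`, `i + 1 ≤ 2 ^ i`...: the left side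
is at most `2 ^ (7 * M + 5 * i + 20)`, and `7 * n ^ 2 ^ (i + 3) + 5 * i + 20 < 2 ^ n` for large `n`
(`tendsto_pow_const_mul_const_pow_of_abs_lt_one` or the little-o facts on polynomials and exponentials;
`ex i n = n ^ (i + 1) + (i + 1) ≤ M + i + 1`). -/
theorem b10_size (i : ℕ) : ∀ᶠ n in atTop, ∀ c ≤ n,
    (i + 3) * fb (i + 1) c (lay n (i + 3)) + 2 ^ n * 2 ^ ex i n < 2 ^ 2 ^ n := by
  filter_upwards [B10_ev (2 ^ (i + 3)) 5 (4 * i + 8), eventually_ge_atTop 1] with n h1 hn c hc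
  obtain ⟨h2, h3⟩ := B10_lay (i := i) hn
  have hL : 5 * lay n (i + 3) + (4 * i + 8) < 2 ^ n := h1
  generalize lay n (i + 3) = L at h2 h3 hL ⊢
  have e1 : i + 1 ≤ 2 ^ (i + 1) := (Nat.lt_two_pow_self (n := i + 1)).le
  have e3 : i + 3 ≤ 2 ^ (i + 2) := by
    have : i + 2 < 2 ^ (i + 2) := Nat.lt_two_pow_self
    omega
  have a1 : (i + 1) * 2 ^ L ≤ 2 ^ (L + (i + 1)) := by
    rw [pow_add, mul_comm (2 ^ L)]
    exact Nat.mul_le_mul_right _ e1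
  have a2 : 2 ^ c * ((i + 1) * 2 ^ L * 2 ^ L) ≤ 2 ^ (5 * L + (3 * i + 4)) := by
    calc 2 ^ c * ((i + 1) * 2 ^ L * 2 ^ L) ≤ 2 ^ L * (2 ^ (L + (i + 1)) * 2 ^ L) := by
          refine Nat.mul_le_mul (Nat.pow_le_pow_right (by norm_num) (hc.trans h2)) ?_
          exact Nat.mul_le_mul_right _ a1
      _ = 2 ^ (L + (L + (i + 1) + L)) := by rw [← pow_add, ← pow_add]
      _ ≤ 2 ^ (5 * L + (3 * i + 4)) := Nat.pow_le_pow_right (by norm_num) (by omega)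
  have a3 : ((i + 1) * 2 ^ L) ^ 2 * 2 ^ L + 1 ≤ 2 ^ (3 * L + (2 * i + 3)) := by
    have b1 : ((i + 1) * 2 ^ L) ^ 2 * 2 ^ L ≤ 2 ^ (3 * L + (2 * i + 2)) := by
      calc ((i + 1) * 2 ^ L) ^ 2 * 2 ^ L ≤ (2 ^ (L + (i + 1))) ^ 2 * 2 ^ L :=
            Nat.mul_le_mul_right _ (Nat.pow_le_pow_left a1 2)
        _ = 2 ^ ((L + (i + 1)) * 2 + L) := by rw [← pow_mul, ← pow_add]
        _ ≤ 2 ^ (3 * L + (2 * i + 2)) := Nat.pow_le_pow_right (by norm_num) (by omega)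
    have b2 : 1 ≤ 2 ^ (3 * L + (2 * i + 2)) := Nat.one_le_two_pow
    calc ((i + 1) * 2 ^ L) ^ 2 * 2 ^ L + 1 ≤ 2 * 2 ^ (3 * L + (2 * i + 2)) := by omega
      _ = 2 ^ (3 * L + (2 * i + 3)) := by
          rw [← pow_succ', show 3 * L + (2 * i + 2) + 1 = 3 * L + (2 * i + 3) by omega]
  have a4 : (i + 1) * 2 ^ L * ((((i + 1) * 2 ^ L) ^ 2 * 2 ^ L + 1) * 2 ^ L) ≤
      2 ^ (5 * L + (3 * i + 4)) := by
    calc (i + 1) * 2 ^ L * ((((i + 1) * 2 ^ L) ^ 2 * 2 ^ L + 1) * 2 ^ L)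
        ≤ 2 ^ (L + (i + 1)) * (2 ^ (3 * L + (2 * i + 3)) * 2 ^ L) :=
          Nat.mul_le_mul a1 (Nat.mul_le_mul_right _ a3)
      _ = 2 ^ (L + (i + 1) + (3 * L + (2 * i + 3) + L)) := by rw [← pow_add, ← pow_add]
      _ ≤ 2 ^ (5 * L + (3 * i + 4)) := Nat.pow_le_pow_right (by norm_num) (by omega)
  have a5 : fb (i + 1) c L ≤ 2 ^ (5 * L + (3 * i + 5)) := by
    unfold fb
    calc _ ≤ 2 ^ (5 * L + (3 * i + 4)) + 2 ^ (5 * L + (3 * i + 4)) := Nat.add_le_add a2 a4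
      _ = 2 ^ (5 * L + (3 * i + 5)) := by
          rw [← two_mul, ← pow_succ', show 5 * L + (3 * i + 4) + 1 = 5 * L + (3 * i + 5) by omega]
  have a6 : (i + 3) * fb (i + 1) c L ≤ 2 ^ (5 * L + (4 * i + 7)) := by
    calc (i + 3) * fb (i + 1) c L ≤ 2 ^ (i + 2) * 2 ^ (5 * L + (3 * i + 5)) :=
          Nat.mul_le_mul e3 a5
      _ = 2 ^ (i + 2 + (5 * L + (3 * i + 5))) := by rw [← pow_add]
      _ ≤ 2 ^ (5 * L + (4 * i + 7)) := Nat.pow_le_pow_right (by norm_num) (by omega)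
  have a7 : 2 ^ n * 2 ^ ex i n ≤ 2 ^ (5 * L + (4 * i + 7)) := by
    rw [← pow_add]
    refine Nat.pow_le_pow_right (by norm_num) ?_
    unfold ex
    omega
  calc (i + 3) * fb (i + 1) c L + 2 ^ n * 2 ^ ex i n
      ≤ 2 ^ (5 * L + (4 * i + 7)) + 2 ^ (5 * L + (4 * i + 7)) := Nat.add_le_add a6 a7
    _ = 2 ^ (5 * L + (4 * i + 8)) := by
        rw [← two_mul, ← pow_succ', show 5 * L + (4 * i + 7) + 1 = 5 * L + (4 * i + 8) by omega]
    _ < 2 ^ 2 ^ n := Nat.pow_lt_pow_right (by norm_num) hL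

/-- The constant of stage `i`. -/
def CC (i : ℕ) : ℕ := (i + 3) * (2 ^ (i + 5) + i + 2) + 3

/-- PLAN. `β := 2 ^ (i + 3) * (Nat.log 2 (n + 1) + 1) + (i + 1)`:
`n ≤ 2 ^ (Nat.log 2 (n + 1) + 1)`, `i + 1 ≤ 2 ^ (i + 1)`. For the second part (`1 ≤ Nat.log 2 (n + 1)`
for `n ≥ 1`): `(i + 3) * (R + β) + 3 ≤ CC i * (R + Nat.log 2 (n + 1))`. -/
theorem b10_beta {i n : ℕ} (hn : 1 ≤ n) : ∃ β, (i + 1) * lay n (i + 3) ≤ 2 ^ β ∧
    ∀ R, (i + 3) * (R + β) + 3 ≤ CC i * (R + Nat.log 2 (n + 1)) := by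
  refine ⟨2 ^ (i + 3) * (Nat.log 2 (n + 1) + 1) + (i + 1), ?_, fun R => ?_⟩
  · have h1 : n ≤ 2 ^ (Nat.log 2 (n + 1) + 1) := by
      have := Nat.lt_pow_succ_log_self (b := 2) (by norm_num) (n + 1)
      rw [Nat.succ_eq_add_one] at this
      omega
    have h2 : i + 1 ≤ 2 ^ (i + 1) := (Nat.lt_two_pow_self (n := i + 1)).le
    unfold lay
    calc (i + 1) * n ^ 2 ^ (i + 3) ≤ 2 ^ (i + 1) * (2 ^ (Nat.log 2 (n + 1) + 1)) ^ 2 ^ (i + 3) :=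
          Nat.mul_le_mul h2 (Nat.pow_le_pow_left h1 _)
      _ = 2 ^ (2 ^ (i + 3) * (Nat.log 2 (n + 1) + 1) + (i + 1)) := by
          rw [← pow_mul, ← pow_add, mul_comm (2 ^ (i + 3)), add_comm (i + 1)]
  · have hl : 1 ≤ Nat.log 2 (n + 1) := Nat.log_pos (by norm_num) (by omega)
    unfold CC
    generalize Nat.log 2 (n + 1) = l at hl ⊢
    have h5 : 2 ^ (i + 5) = 4 * 2 ^ (i + 3) := by rw [pow_add, pow_add]; ring
    rw [h5]
    generalize 2 ^ (i + 3) = T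
    have h6 : T * (l + 1) + (i + 1) ≤ (2 * T + (i + 1)) * l := by nlinarith
    have h7 : R + (T * (l + 1) + (i + 1)) ≤ (4 * T + i + 2) * (R + l) := by nlinarith
    calc (i + 3) * (R + (T * (l + 1) + (i + 1))) + 3
        ≤ (i + 3) * ((4 * T + i + 2) * (R + l)) + 3 * (R + l) :=
          Nat.add_le_add (Nat.mul_le_mul_left _ h7) (by omega)
      _ = ((i + 3) * (4 * T + i + 2) + 3) * (R + l) := by ring

/-- Lengths: `2 ^ (ex i n + 1)` and `n + 2 ^ n` are at most `2 ^ (lay n (i + 3) + 1) ^ 2`. -/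
theorem b10_vis {i n : ℕ} (hn : 2 ≤ n) (hi : i ≤ n) :
    2 ^ (ex i n + 1) ≤ 2 ^ (lay n (i + 3) + 1) ^ 2 ∧ n + 2 ^ n < 2 ^ (lay n (i + 3) + 1) ^ 2 ∧
      lay n (i + 3) ≤ n ^ CC i := by
  obtain ⟨h2, h3⟩ := B10_lay (n := n) (i := i) (by omega)
  refine ⟨?_, ?_, ?_⟩
  · refine Nat.pow_le_pow_right (by norm_num) ?_
    unfold ex
    generalize lay n (i + 3) = L at h2 h3 ⊢
    generalize n ^ (i + 1) = a at h3 ⊢
    nlinarith
  · generalize lay n (i + 3) = L at h2 h3 ⊢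
    have h4 : n < 2 ^ n := Nat.lt_two_pow_self
    calc n + 2 ^ n < 2 ^ n + 2 ^ n := by omega
      _ = 2 ^ (n + 1) := by rw [pow_succ]; ring
      _ ≤ 2 ^ (L + 1) ^ 2 := Nat.pow_le_pow_right (by norm_num) (by nlinarith)
  · unfold lay
    refine Nat.pow_le_pow_right (by omega) ?_
    unfold CC
    have h5 : 2 ^ (i + 5) = 4 * 2 ^ (i + 3) := by rw [pow_add, pow_add]; ring
    rw [h5]
    generalize 2 ^ (i + 3) = T
    nlinarith

end Pool.Agent.LibAV75
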