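import Pool.Agent.LibAV75.A1

/-!
Row A6: the end of a stage, advice: every advice string is wrong somewhere.
-/

namespace Pool.Agent.LibAV75

variable {α ι κ : Type} [DecidableEq α] [DecidableEq ι] [DecidableEq κ]

open Classical in
/-- PLAN. By induction on `t ≤ Adv.card` construct `P`, `F₁ ⊇ F`, `F₁.card ≤ F.card + t * q`,
`P ⊆ ⋃ x ∈ Y, fib x`, `Disjoint P F`, the number of `x ∈ Y` with `fib x` meeting `P` at most `t`
(keep a set `U ⊆ Y` of used elements, `U.card ≤ t`, `P ⊆ ⋃ x ∈ U, fib x`) and a set `K ⊆ Adv` of killed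
elements: for `v ∈ K` there is `x ∈ Y` such that `fib x` meets `P` and `acc v x (Q ∪ P')` for all
`P' ⊇ P` with `Disjoint (P' \ P) F₁`; either `K.card ≥ t` or the conclusion holds. Step: if the
conclusion fails for `P`, some `v ∈ Adv` is right everywhere on `Y`, so `v ∉ K`; take `x ∈ Y \ U`
(possible as `U.card < Adv.card ≤ Y.card`); `fib x` is disjoint from `Q ∪ P` (`fib`'s are pairwise
disjoint), so `acc v x (Q ∪ P)` holds; protect its certificate `V` and add an element of
`fib x \ (F₁ ∪ V)`. After `Adv.card` steps `K = Adv` and the conclusion holds. -/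
theorem a6 (Adv : Finset κ) (Y : Finset ι) (acc : κ → ι → Finset α → Prop)
    (fib : ι → Finset α) {q : ℕ} (hc : ∀ v ∈ Adv, ∀ x ∈ Y, Cert q (acc v x)) (Q F : Finset α)
    (hQ : ∀ x ∈ Y, Disjoint (fib x) Q) (hdis : ∀ x ∈ Y, ∀ y ∈ Y, x ≠ y → Disjoint (fib x) (fib y))
    (hF : ∀ x ∈ Y, F.card + Adv.card * q < (fib x).card) (hAY : Adv.card ≤ Y.card) :
    ∃ P : Finset α, P ⊆ Y.biUnion fib ∧ Disjoint P F ∧
      ∀ v ∈ Adv, ∃ x ∈ Y, (acc v x (Q ∪ P) ↔ ∃ s ∈ fib x, s ∈ Q ∪ P) := by
  have key : ∀ t : ℕ, t ≤ Adv.card →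
      (∃ P : Finset α, P ⊆ Y.biUnion fib ∧ Disjoint P F ∧
        ∀ v ∈ Adv, ∃ x ∈ Y, (acc v x (Q ∪ P) ↔ ∃ s ∈ fib x, s ∈ Q ∪ P)) ∨
      ∃ (P F₁ : Finset α) (U : Finset ι) (K : Finset κ), U ⊆ Y ∧ U.card ≤ t ∧ P ⊆ U.biUnion fib ∧
        F ⊆ F₁ ∧ F₁.card ≤ F.card + t * q ∧ Disjoint P F ∧ K ⊆ Adv ∧ t ≤ K.card ∧
        ∀ v ∈ K, ∃ x ∈ Y, (∃ s ∈ fib x, s ∈ P) ∧
          ∀ P' : Finset α, P ⊆ P' → Disjoint (P' \ P) F₁ → acc v x (Q ∪ P') := by
    intro t
    induction t with
    | zero =>
      intro _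
      right
      refine ⟨∅, F, ∅, ∅, Finset.empty_subset _, le_rfl, Finset.empty_subset _, Finset.Subset.refl _, ?_,
        Finset.disjoint_empty_left _, Finset.empty_subset _, le_rfl, ?_⟩
      · rw [zero_mul, add_zero]
      · intro v hv
        exact absurd hv (Finset.notMem_empty _)
    | succ t ih =>
      intro ht
      rcases ih (by omega) with h | ⟨P, F₁, U, K, hUY, hU, hPU, hFF, hF₁, hPF, hK, hKt, hkill⟩
      · exact Or.inl h
      have hPY : P ⊆ Y.biUnion fib := hPU.trans (Finset.biUnion_subset_biUnion_of_subset_left _ hUY)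
      by_cases hcon : ∀ v ∈ Adv, ∃ x ∈ Y, (acc v x (Q ∪ P) ↔ ∃ s ∈ fib x, s ∈ Q ∪ P)
      · exact Or.inl ⟨P, hPY, hPF, hcon⟩
      right
      push Not at hcon
      obtain ⟨v, hv, hvx⟩ := hcon
      have hvK : v ∉ K := by
        intro h
        obtain ⟨x, hx, ⟨s, hs, hsP⟩, hacc⟩ := hkill v h
        have h1 : acc v x (Q ∪ P) := hacc P (Finset.Subset.refl _) (by
          rw [Finset.sdiff_self]
          exact Finset.disjoint_empty_left _)
        rcases hvx x hx with ⟨-, h2⟩ | ⟨h2, -⟩
        · exact h2 s hs (Finset.mem_union_right _ hsP)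
        · exact h2 h1
      obtain ⟨x, hxY, hxU⟩ := Finset.exists_mem_notMem_of_card_lt_card (show U.card < Y.card by omega)
      have hfx : ∀ s ∈ fib x, s ∉ Q ∪ P := by
        intro s hs hsQ
        rcases Finset.mem_union.1 hsQ with h | h
        · exact Finset.disjoint_left.1 (hQ x hxY) hs h
        · obtain ⟨y, hy, hsy⟩ := Finset.mem_biUnion.1 (hPU h)
          have hxy : x ≠ y := by
            rintro rfl
            exact hxU hy
          exact Finset.disjoint_left.1 (hdis x hxY y (hUY hy) hxy) hs hsy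
      have hacc : acc v x (Q ∪ P) := by
        rcases hvx x hxY with ⟨h1, -⟩ | ⟨-, s, hs, hsQ⟩
        · exact h1
        · exact absurd hsQ (hfx s hs)
      obtain ⟨V, hVq, hV⟩ := hc v hv x hxY (Q ∪ P) hacc
      have hF₂ : (F₁ ∪ V).card ≤ F.card + (t + 1) * q := by
        refine (Finset.card_union_le _ _).trans ?_
        rw [add_mul, one_mul]
        omega
      have hlt : (F₁ ∪ V).card < (fib x).card := by
        refine lt_of_le_of_lt (hF₂.trans ?_) (hF x hxY)
        exact Nat.add_le_add_left (Nat.mul_le_mul_right _ ht) _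
      obtain ⟨w, hw, hwF⟩ := Finset.exists_mem_notMem_of_card_lt_card hlt
      rw [Finset.mem_union, not_or] at hwF
      refine ⟨insert w P, F₁ ∪ V, insert x U, insert v K, ?_, ?_, ?_, ?_, hF₂, ?_, ?_, ?_, ?_⟩
      · exact Finset.insert_subset hxY hUY
      · exact (Finset.card_insert_le _ _).trans (by omega)
      · intro s hs
        rcases Finset.mem_insert.1 hs with rfl | h
        · exact Finset.mem_biUnion.2 ⟨x, Finset.mem_insert_self _ _, hw⟩
        · obtain ⟨y, hy, hsy⟩ := Finset.mem_biUnion.1 (hPU h)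
          exact Finset.mem_biUnion.2 ⟨y, Finset.mem_insert_of_mem hy, hsy⟩
      · exact hFF.trans Finset.subset_union_left
      · rw [Finset.disjoint_insert_left]
        exact ⟨fun h => hwF.1 (hFF h), hPF⟩
      · exact Finset.insert_subset hv hK
      · rw [Finset.card_insert_of_notMem hvK]
        omega
      · intro v' hv'
        rcases Finset.mem_insert.1 hv' with rfl | hv'
        · refine ⟨x, hxY, ⟨w, hw, Finset.mem_insert_self _ _⟩, fun P' hP' hdj => hV _ fun u hu => ?_⟩
          rw [Finset.mem_union, Finset.mem_union]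
          constructor
          · rintro (h | h)
            · exact Or.inl h
            · by_cases hu2 : u ∈ insert w P
              · rcases Finset.mem_insert.1 hu2 with rfl | h3
                · exact absurd hu hwF.2
                · exact Or.inr h3
              · exact absurd (Finset.mem_union_right _ hu)
                  (Finset.disjoint_left.1 hdj (Finset.mem_sdiff.2 ⟨h, hu2⟩))
          · rintro (h | h)
            · exact Or.inl h
            · exact Or.inr (hP' (Finset.mem_insert_of_mem h))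
        · obtain ⟨x', hx', ⟨s, hs, hsP⟩, h1⟩ := hkill v' hv'
          refine ⟨x', hx', ⟨s, hs, Finset.mem_insert_of_mem hsP⟩, fun P' hP' hdj => h1 P' ?_ ?_⟩
          · exact (Finset.subset_insert _ _).trans hP'
          · rw [Finset.disjoint_left]
            intro u hu huF
            rw [Finset.mem_sdiff] at hu
            by_cases hu2 : u = w
            · rw [hu2] at huF
              exact hwF.1 huF
            · refine Finset.disjoint_left.1 hdj (Finset.mem_sdiff.2 ⟨hu.1, ?_⟩) (Finset.mem_union_left _ huF)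
              intro h3
              rcases Finset.mem_insert.1 h3 with h4 | h4
              · exact hu2 h4
              · exact hu.2 h4
  rcases key Adv.card le_rfl with h | ⟨P, F₁, U, K, hUY, hU, hPU, hFF, hF₁, hPF, hK, hKt, hkill⟩
  · exact h
  have hKA : K = Adv := Finset.eq_of_subset_of_card_le hK hKt
  refine ⟨P, hPU.trans (Finset.biUnion_subset_biUnion_of_subset_left _ hUY), hPF, fun v hv => ?_⟩
  obtain ⟨x, hx, ⟨s, hs, hsP⟩, hacc⟩ := hkill v (hKA ▸ hv)
  refine ⟨x, hx, fun _ => ⟨s, hs, Finset.mem_union_right _ hsP⟩, fun _ => hacc P (Finset.Subset.refl _) ?_⟩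
  rw [Finset.sdiff_self]
  exact Finset.disjoint_empty_left _

end Pool.Agent.LibAV75
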