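import Pool.Agent.LibAV75.B5
import Pool.Agent.LibAV75.A6

/-!
Row E1: advice can be defeated.
-/

namespace Pool.Agent.LibAV75

open Filter Function Pool.Agent.LibNexp Pool.Agent.LibBHN

/-- Machine number `j` with any advice of length at most `a` fails on some string of length `n` to
recognise the complement of the language of witnesses. -/
def GE (j n a : ℕ) (A : Set (List Bool)) : Prop :=
  ∀ v : List Bool, v.length ≤ a → ∃ x : List Bool, x.length = n ∧
    (AccE (orc A) j (pair x v) ↔ x ∈ WL (orc A))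

theorem ex_mono {j m m' : ℕ} (h : m ≤ m') : ex j m ≤ ex j m' := by
  unfold ex
  exact Nat.add_le_add_right (Nat.pow_le_pow_left h _) _

private theorem E1_wl {B : Set (List Bool)} {x : List Bool} (hx : [true] <+: x) :
    x ∈ WL (orc B) ↔ ∃ s ∈ fib x, s ∈ B := by
  constructor
  · rintro ⟨-, w, hw, h⟩
    exact ⟨x ++ w, mem_fib.2 ⟨w, hw, rfl⟩, orc_iff.1 h⟩
  · rintro ⟨s, hs, hB⟩
    obtain ⟨w, hw, rfl⟩ := mem_fib.1 hs
    exact ⟨hx, w, hw, orc_iff.2 hB⟩

private theorem E1_len {n a : ℕ} {x v : List Bool} (hx : x.length = n) (hv : v.length ≤ a) :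
    (pair x v).length ≤ 2 * n + 2 + a := by
  rw [length_pair, hx]
  omega

/-- PLAN. `a6` with `Adv` = the strings of length at most `a` (fewer than `2 ^ (a + 1)`), `Y := I`,
`acc v x T := AccE (orc (A ∪ T)) j (pair x v)`, `q := 2 ^ ex j (2 * n + 2 + a)` (`length_pair`,
`accE_cert`, `ex_mono`). For `x ∈ I`:
`x ∈ WL (orc (A ∪ (Q ∪ P))) ↔ ∃ s ∈ fib x, s ∈ Q ∪ P` as no string of `fib x` is in `A` (`mem_fib`). -/
theorem ge_forced {j n a fbd : ℕ}
    (h : fbd + 2 ^ (a + 1) * 2 ^ ex j (2 * n + 2 + a) < 2 ^ 2 ^ n) :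
    Forced n (a + 1) fbd (GE j n a) := by
  classical
  intro A Q F I hI hcard hF hfree
  have hAc : ((Finset.range (a + 1)).biUnion strs).card ≤ 2 ^ (a + 1) := B2_strs_card (a + 1)
  obtain ⟨P, hP1, hP2, hP3⟩ := a6 ((Finset.range (a + 1)).biUnion strs) I
    (fun v x (T : Finset (List Bool)) => AccE (orc (A ∪ (T : Set (List Bool)))) j (pair x v)) fib
    (q := 2 ^ ex j (2 * n + 2 + a)) (fun v hv x hx => by
      obtain ⟨l, hl, hvl⟩ := Finset.mem_biUnion.1 hv
      have h1 : v.length ≤ a := by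
        rw [mem_strs.1 hvl]
        have := Finset.mem_range.1 hl
        omega
      exact B2_cert_mono (Nat.pow_le_pow_right (by norm_num)
        (ex_mono (E1_len (hI x hx).1 h1))) (accE_cert A j (pair x v))) Q F
    (fun x hx => by
      rw [Finset.disjoint_left]
      exact fun s hs => (hfree x hx s hs).2)
    (fun x hx y hy hxy => fib_disjoint (by rw [(hI x hx).1, (hI y hy).1]) hxy)
    (fun x hx => by
      rw [card_fib, (hI x hx).1]
      have h1 : ((Finset.range (a + 1)).biUnion strs).card * 2 ^ ex j (2 * n + 2 + a) ≤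
        2 ^ (a + 1) * 2 ^ ex j (2 * n + 2 + a) := Nat.mul_le_mul_right _ hAc
      omega)
    (hAc.trans hcard)
  refine ⟨P, hP1, hP2, fun v hv => ?_⟩
  obtain ⟨x, hxI, hx2⟩ := hP3 v (Finset.mem_biUnion.2
    ⟨v.length, Finset.mem_range.2 (Nat.lt_succ_of_le hv), mem_strs.2 rfl⟩)
  refine ⟨x, (hI x hxI).1, ?_⟩
  rw [E1_wl (hI x hxI).2]
  refine hx2.trans ⟨?_, ?_⟩
  · rintro ⟨s, hs, hs2⟩
    exact ⟨s, hs, Or.inr (Finset.mem_coe.2 hs2)⟩
  · rintro ⟨s, hs, hs2⟩
    rcases hs2 with hs2 | hs2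
    · exact absurd hs2 (hfree x hxI s hs).1
    · exact ⟨s, hs, Finset.mem_coe.1 hs2⟩

/-- PLAN. `accE_congr`; `x ∈ WL` depends on strings of length `n + 2 ^ n`. -/
theorem ge_local {j n a M : ℕ} (h1 : 2 ^ (ex j (2 * n + 2 + a) + 1) ≤ M) (h2 : n + 2 ^ n < M) :
    Local M (GE j n a) := by
  intro A A' hAA hG v hv
  obtain ⟨x, hx, h3⟩ := hG v hv
  refine ⟨x, hx, ?_⟩
  have e1 : AccE (orc A) j (pair x v) ↔ AccE (orc A') j (pair x v) := by
    refine accE_congr fun s hs => hAA s ?_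
    have h4 : 2 ^ (ex j (pair x v).length + 1) ≤ 2 ^ (ex j (2 * n + 2 + a) + 1) :=
      Nat.pow_le_pow_right (by norm_num) (Nat.succ_le_succ (ex_mono (E1_len hx hv)))
    exact hs.trans_le (h4.trans h1)
  have e2 : x ∈ WL (orc A) ↔ x ∈ WL (orc A') := by
    by_cases hx1 : [true] <+: x
    · rw [E1_wl hx1, E1_wl hx1]
      refine exists_congr fun s => and_congr_right fun hs => hAA s ?_
      rw [(fib_head hx1 hs).2, hx]
      exact h2
    · exact ⟨fun h => absurd h.1 hx1, fun h => absurd h.1 hx1⟩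
  rw [← e1, ← e2]
  exact h3

end Pool.Agent.LibAV75
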