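import Pool.Agent.LibAV75.B3
import Pool.Agent.LibAV75.B4

/-!
Row B5: one stage.
-/

namespace Pool.Agent.LibAV75

open Filter Function Pool.Agent.LibNexp Pool.Agent.LibBHN

/-- The property `G` can be forced at stage `n` by additions about `2 ^ y` free strings. -/
def Forced (n y fbd : ℕ) (G : Set (List Bool) → Prop) : Prop :=
  ∀ (A : Set (List Bool)) (Q F I : Finset (List Bool)),
    (∀ x ∈ I, x.length = n ∧ [true] <+: x) → 2 ^ y ≤ I.card → F.card ≤ fbd →
    (∀ x ∈ I, ∀ s ∈ fib x, s ∉ A ∧ s ∉ Q) →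
    ∃ P : Finset (List Bool), P ⊆ I.biUnion fib ∧ Disjoint P F ∧
      G (A ∪ ((Q ∪ P : Finset (List Bool)) : Set (List Bool)))

/-- The property `G` depends only on the strings shorter than `M`. -/
def Local (M : ℕ) (G : Set (List Bool) → Prop) : Prop :=
  ∀ A A' : Set (List Bool), (∀ s : List Bool, s.length < M → (s ∈ A ↔ s ∈ A')) → G A → G A'

/-- All strings of `A` were added before stage `n`. -/
def Old (n : ℕ) (A : Set (List Bool)) : Prop :=
  ∀ s ∈ A, ([true] <+: s ∧ s.length < n + 2 ^ n) ∨ ∃ e z, s = code e z ∧ ex e z.length < n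

/-- What one stage does. -/
structure Stage (n n' E R D : ℕ) (A A' : Set (List Bool)) : Prop where
  sub : A ⊆ A'
  new : ∀ s ∈ A', s ∉ A → ([true] <+: s ∧ s.length = n + 2 ^ n) ∨
    ∃ e z, s = code e z ∧ n ≤ ex e z.length ∧ ex e z.length < n'
  sound : ∀ (e : ℕ) (z : List Bool), n ≤ ex e z.length → ex e z.length < n' → code e z ∈ A' →
    ¬ AccE (orc A') e z
  exact : ∀ (e : ℕ) (z : List Bool), lay n D ≤ ex e z.length → ex e z.length < n' →
    ¬ AccE (orc A') e z → code e z ∈ A'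
  few : ∀ e < E, ∀ m, n ≤ ex e m → ex e m < lay n D →
    2 ^ R * cnt m (fun z => ¬ AccE (orc A') e z ∧ code e z ∉ A') ≤ 2 ^ m

private theorem b5_cnt_mono {m : ℕ} {P Q : List Bool → Prop}
    (h : ∀ z : List Bool, z.length = m → P z → Q z) : cnt m P ≤ cnt m Q := by
  classical
  unfold cnt
  refine Finset.card_le_card fun t ht => ?_
  rw [Finset.mem_filter] at ht ⊢
  exact ⟨ht.1, h _ (length_bits m t) ht.2⟩

private theorem b5_head {e : ℕ} {z : List Bool} (h : [true] <+: code e z) : False := by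
  obtain ⟨l, hl⟩ := code_head e z
  rw [hl] at h
  obtain ⟨t, ht⟩ := h
  simp at ht

/-- PLAN. `b3` gives `K`, `Q`, `F`, `I` (`y ≤ n - 1 - D * (R + β)`). For `x ∈ I` the strings of `fib x`
are not in `A ∪ codes K` (`Old`: those of `A` starting with `true` are shorter than
`n + 2 ^ n`, codes start with `false`) and not in `Q` (`free`). `Forced` for `A ∪ codes K` gives `P`
with `G A₁`, `A₁ := A ∪ codes K ∪ (Q ∪ P)`. `b4` with `a := lay n D`, `b := n'` gives `K₂`; put
`A' := A₁ ∪ codes K₂`.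
* `G A'`: the codes of `K₂` are longer than `2 ^ (lay n D + 1) ^ 2` (`length_code`).
* For `ex e |z| < lay n D`: `AccE (orc A') e z ↔ AccE (orc A₁) e z` (`code_far`, `accE_congr`).
* `code e z ∈ A'` with `n ≤ ex e |z|`: it is not in `A` (`Old`, `code_injective`), not in `Q ∪ P`
  (those start with `true`), so `(e, z) ∈ K` or `(e, z) ∈ K₂` (`code_injective`).
* `few`: monotonicity of `cnt`. -/
theorem b5 {n n' E R β D y : ℕ} {A : Set (List Bool)} {G : Set (List Bool) → Prop} (hn : 1 ≤ n)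
    (hold : Old n A) (hβ : E * lay n D ≤ 2 ^ β) (hy : y + D * (R + β) + 1 ≤ n)
    (hn' : lay n D ≤ n') (hG : Forced n y (D * fb E (R + β) (lay n D)) G)
    (hL : Local (2 ^ (lay n D + 1) ^ 2) G) :
    ∃ A' : Set (List Bool), Stage n n' E R D A A' ∧ G A' := by
  obtain ⟨K, Q, F, I, hS, hI, hF⟩ := b3 (R := R) A hn hβ (by omega)
  have hyI : 2 ^ y ≤ I.card :=
    (Nat.pow_le_pow_right (by norm_num) (by omega)).trans hI
  set A₀ : Set (List Bool) := A ∪ codes (K : Set (ℕ × List Bool)) with hA₀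
  have hfree : ∀ x ∈ I, ∀ s ∈ fib x, s ∉ A₀ ∧ s ∉ Q := by
    intro x hx s hs
    obtain ⟨hxn, hxt⟩ := hS.I_str x hx
    obtain ⟨hs1, hs2⟩ := fib_head hxt hs
    refine ⟨?_, fun hsQ => Finset.disjoint_left.1 (hS.free x hx) hs hsQ⟩
    rintro (hsA | ⟨e, z, -, rfl⟩)
    · rcases hold s hsA with ⟨-, h⟩ | ⟨e, z, rfl, -⟩
      · rw [hs2, hxn] at h
        exact lt_irrefl _ h
      · exact b5_head hs1
    · exact b5_head hs1
  obtain ⟨P, hP, hPF, hGP⟩ := hG A₀ Q F I hS.I_str hyI hF hfree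
  set A₁ : Set (List Bool) := A₀ ∪ ((Q ∪ P : Finset (List Bool)) : Set (List Bool)) with hA₁
  obtain ⟨K₂, hK₂, hK₂'⟩ := b4 A₁ (lay n D) n'
  have hlay : n ≤ lay n D := by
    have h1 := lay_mono hn (Nat.zero_le D)
    have h2 : lay n 0 = n := by simp [lay]
    rwa [h2] at h1
  -- strings of witnesses
  have hQP : ∀ s ∈ Q ∪ P, [true] <+: s ∧ s.length = n + 2 ^ n := by
    intro s hs
    rcases Finset.mem_union.1 hs with hs | hs
    · obtain ⟨x, hxn, hxt, hsx⟩ := hS.Q_reg s hs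
      obtain ⟨h1, h2⟩ := fib_head hxt hsx
      rw [hxn] at h2
      exact ⟨h1, h2⟩
    · obtain ⟨x, hx, hsx⟩ := Finset.mem_biUnion.1 (hP hs)
      obtain ⟨hxn, hxt⟩ := hS.I_str x hx
      obtain ⟨h1, h2⟩ := fib_head hxt hsx
      rw [hxn] at h2
      exact ⟨h1, h2⟩
  -- statements of small exponent do not see the codes of `K₂`
  have hsee : ∀ (e : ℕ) (z : List Bool), ex e z.length < lay n D →
      (AccE (orc (A₁ ∪ codes K₂)) e z ↔ AccE (orc A₁) e z) := by
    intro e z hez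
    refine accE_congr fun s hs => ?_
    constructor
    · rintro (h | ⟨e', z', hK, rfl⟩)
      · exact h
      · have h1 := code_far (e' := e') (z' := z') (e := e) (m := z.length)
          (hez.le.trans (hK₂ _ hK).1)
        exact absurd hs (not_lt.2 h1)
    · exact fun h => Or.inl h
  have hmemK : ∀ (e : ℕ) (z : List Bool), n ≤ ex e z.length → code e z ∈ A₁ ∪ codes K₂ →
      (e, z) ∈ K ∨ (e, z) ∈ K₂ := by
    intro e z hez hmem
    rcases hmem with (((h | ⟨e', z', hK, h⟩) | h) | ⟨e', z', hK, h⟩)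
    · rcases hold _ h with ⟨h1, -⟩ | ⟨e', z', h1, h2⟩
      · exact (b5_head h1).elim
      · obtain ⟨rfl, rfl⟩ := code_injective h1
        omega
    · obtain ⟨rfl, rfl⟩ := code_injective h
      exact Or.inl hK
    · exact (b5_head (hQP _ (Finset.mem_coe.1 h)).1).elim
    · obtain ⟨rfl, rfl⟩ := code_injective h
      exact Or.inr hK
  refine ⟨A₁ ∪ codes K₂, ⟨?_, ?_, ?_, ?_, ?_⟩, ?_⟩
  · exact fun s hs => Or.inl (Or.inl (Or.inl hs))
  · rintro s (((h | ⟨e, z, hK, h⟩) | h) | ⟨e, z, hK, h⟩) hsA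
    · exact absurd h hsA
    · have h1 := hS.K_lay _ (Finset.mem_coe.1 hK)
      exact Or.inr ⟨e, z, h, h1.1, h1.2.trans_le hn'⟩
    · exact Or.inl (hQP s (Finset.mem_coe.1 h))
    · have h1 := hK₂ _ hK
      exact Or.inr ⟨e, z, h, hlay.trans h1.1, h1.2⟩
  · intro e z h1 h2 hmem
    rcases hmemK e z h1 hmem with hK | hK
    · have h3 := hS.K_lay _ hK
      rw [hsee e z h3.2]
      exact hS.sound _ hK P hP hPF
    · have h3 := hK₂ _ hK
      exact (hK₂' e z h3.1 h3.2).1 hK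
  · intro e z h1 h2 hacc
    exact Or.inr ⟨e, z, (hK₂' e z h1 h2).2 hacc, rfl⟩
  · intro e he m h1 h2
    refine le_trans (Nat.mul_le_mul_left _ (b5_cnt_mono fun z hz hzz => ?_))
      (hS.few e he m h1 h2)
    obtain ⟨hz1, hz2⟩ := hzz
    refine ⟨fun hK => hz2 (Or.inl (Or.inl (Or.inr ⟨e, z, hK, rfl⟩))), fun hall => hz1 ?_⟩
    rw [hsee e z (by rw [hz]; exact h2)]
    exact hall P hP hPF
  · refine hL A₁ _ (fun s hs => ?_) hGP
    constructor
    · exact fun h => Or.inl h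
    · rintro (h | ⟨e, z, hK, rfl⟩)
      · exact h
      · have h1 := length_code e z
        have h2 : 2 ^ (lay n D + 1) ^ 2 ≤ 2 ^ (ex e z.length + 1) ^ 2 :=
          Nat.pow_le_pow_right (by norm_num)
            (Nat.pow_le_pow_left (Nat.succ_le_succ (hK₂ _ hK).1) 2)
        omega

end Pool.Agent.LibAV75
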