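import Pool.Agent.LibAV75.B1
import Pool.Agent.LibBHN.Misc
import Pool.Agent.LibSpec4.Spectrum

/-!
Row B7: the languages of the codes and of the witnesses.
-/

namespace Pool.Agent.LibAV75

open Filter Function Pool.Agent.LibNexp Pool.Agent.LibBHN

private theorem b7_code (e : ℕ) (z : List Bool) : code e z =
    Pool.Agent.LibSpec4.ask e z (List.replicate (2 ^ (ex e z.length + 1) ^ 2) true) := rfl

/-- the length of the witness -/
private def b7_wl (e n : ℕ) : ℕ := 2 ^ (ex e n + 1) ^ 2

private theorem b7_ex_mono (e : ℕ) : Monotone (ex e) := by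
  intro a b hab
  have := Nat.pow_le_pow_left hab (e + 1)
  unfold ex
  omega

private theorem b7_wl_mono (e : ℕ) : Monotone (b7_wl e) := by
  intro a b hab
  unfold b7_wl
  refine Nat.pow_le_pow_right (by norm_num) (Nat.pow_le_pow_left ?_ 2)
  have := b7_ex_mono e hab
  omega

private theorem b7_wl_ep (e : ℕ) : EP (b7_wl e) := by
  have h1 : PolyB fun n => (ex e n + 1) ^ 2 := by
    have h2 : PolyB fun n => (n ^ (e + 1) + (e + 1)) + 1 :=
      ((PolyB.id.pow (e + 1)).add (PolyB.const (e + 1))).add (PolyB.const 1)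
    exact h2.pow 2
  exact EP.pow2 h1

/-- PLAN. `code e z = ask e z (1...1)`, and by `h` the strings of `A` of the form `ask e z w` are
exactly the codes; so `code e z ∈ A ↔ ∃ w, orc A (ask e z w) = true`. Copy the proof of
`Pool.Agent.LibTrade92.code_mem` (LibTrade92/Use.lean; there `wl` is the length of the witness, here
it is `2 ^ (ex e |z| + 1) ^ 2`, monotone in `|z|` and `EP`). -/
theorem code_mem {A : Set (List Bool)}
    (h : ∀ l, false :: l ∈ A → ∃ e z, false :: l = code e z) (e : ℕ) :
    {z | code e z ∈ A} ∈ NEXPLang (orc A) := by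
  have hcodes : ∀ z w, orc A (Pool.Agent.LibSpec4.ask e z w) = true →
      w = List.replicate (2 ^ (ex e z.length + 1) ^ 2) true := by
    intro z w hw
    rw [orc_iff] at hw
    obtain ⟨e', z', h1⟩ := h _ hw
    have h2 : Pool.Agent.LibSpec4.ask e z w = Pool.Agent.LibSpec4.ask e' z'
      (List.replicate (2 ^ (ex e' z'.length + 1) ^ 2) true) := h1
    obtain ⟨rfl, rfl, h3⟩ := Pool.Agent.LibSpec4.ask_injective h2
    exact h3
  have hset : {z | code e z ∈ A} =
      {z | ∃ w, orc A (Pool.Agent.LibSpec4.ask e z w) = true} := by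
    ext z
    constructor
    · intro h1
      exact ⟨_, orc_iff.2 h1⟩
    · rintro ⟨w, hw⟩
      have h1 := hcodes z w hw
      rw [h1, orc_iff] at hw
      exact hw
  rw [hset]
  show NEXP (orc A) _
  rw [nexp_iff]
  set O := orc A with hO
  set pre : List Bool := false :: (List.replicate e true ++ [false]) with hpre
  have hask : ∀ z w, Pool.Agent.LibSpec4.ask e z w =
      pre ++ ((z.flatMap fun b => [b, b]) ++ ([true, false] ++ w)) := by
    intro z w
    simp [Pool.Agent.LibSpec4.ask, hpre, pair]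
  refine ⟨fun n => b7_wl e n + (2 + ((2 * n + 1) + ((3 * n + 1) + (pre.length + 1)))),
    (b7_wl_ep e).add
      (EP.of_poly ((PolyB.const 2).add ((((PolyB.const 2).mul PolyB.id).add (PolyB.const 1)).add
        ((((PolyB.const 3).mul PolyB.id).add (PolyB.const 1)).add (PolyB.const _))))),
    .seq (guess 1) (.seq (Pool.Agent.LibSpec4.pushW 1 [true, false]) (.seq (mv 0 2)
      (.seq (Pool.Agent.LibSpec4.dbl 2 1)
      (.seq (Pool.Agent.LibSpec4.pushW 1 pre) (.query 1 true))))), fun y => ⟨?_, ?_⟩⟩
  · rintro t σ' ⟨t3, t4, τ2, -, h3, t1, t2, τ1, -, h2, t5, t6, τ3, -, h4, t7, t8, τ4, -, h5,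
      t9, t10, τ5, -, h6, -, h7, rfl⟩
    rw [run_guess] at h3
    obtain ⟨w, -, rfl⟩ := h3
    rw [Pool.Agent.LibSpec4.pushW_sound h2] at h4
    rw [run_mv (by norm_num)] at h4
    obtain ⟨-, rfl⟩ := h4
    rw [Pool.Agent.LibSpec4.run_dbl (by norm_num)] at h5
    obtain ⟨-, rfl⟩ := h5
    rw [Pool.Agent.LibSpec4.pushW_sound h6] at h7
    refine ⟨w, ?_⟩
    rw [hask]
    have a2 : init y 2 = [] := init_ge y (r := 2) (by norm_num)
    have a1 : init y 1 = [] := init_ge y (r := 1) le_rfl
    have a0 : init y 0 = y 0 := init0 y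
    simpa [a2, a1, a0] using h7
  · rintro ⟨w, hw⟩
    have hwl : w.length ≤ b7_wl e (size y) := by
      rw [hcodes _ _ hw, List.length_replicate]
      exact b7_wl_mono e (len_le_size y 0)
    have h3 : Run O (guess 1) w.length (init y) (update (init y) 1 (w ++ init y 1)) :=
      run_guess.2 ⟨w, rfl, rfl⟩
    set τ1 := update (init y) 1 (w ++ init y 1) with hτ1
    have a0 : τ1 0 = y 0 := by rw [hτ1, update_of_ne (by norm_num), init0]
    have a1 : τ1 1 = w := by
      rw [hτ1, update_self, init_ge y (r := 1) le_rfl, List.append_nil]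
    have a2 : τ1 2 = [] := by
      rw [hτ1, update_of_ne (by norm_num), init_ge y (r := 2) (by norm_num)]
    have h4 := Pool.Agent.LibSpec4.pushW_complete (O := O) (r := 1) [true, false] τ1
    set τ2 := update τ1 1 ([true, false] ++ τ1 1) with hτ2
    have b0 : τ2 0 = y 0 := by rw [hτ2, update_of_ne (by norm_num), a0]
    have b1 : τ2 1 = [true, false] ++ w := by rw [hτ2, update_self, a1]
    have b2 : τ2 2 = [] := by rw [hτ2, update_of_ne (by norm_num), a2]
    have h5 : Run O (mv 0 2) (2 * (y 0).length + 1) τ2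
        (update (update τ2 0 []) 2 (y 0).reverse) :=
      (run_mv (by norm_num)).2 ⟨by rw [b0], by rw [b0, b2, List.append_nil]⟩
    set τ3 := update (update τ2 0 []) 2 (y 0).reverse with hτ3
    have c1 : τ3 1 = [true, false] ++ w := by
      rw [hτ3, update_of_ne (by norm_num), update_of_ne (by norm_num), b1]
    have c2 : τ3 2 = (y 0).reverse := by rw [hτ3, update_self]
    have h6 : Run O (Pool.Agent.LibSpec4.dbl 2 1) (3 * (y 0).length + 1) τ3
        (update (update τ3 2 []) 1 (((y 0).flatMap fun b => [b, b]) ++ ([true, false] ++ w))) :=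
      (Pool.Agent.LibSpec4.run_dbl (by norm_num)).2 ⟨by rw [c2, List.length_reverse], by
        rw [c2, c1, List.reverse_reverse]⟩
    set τ4 := update (update τ3 2 []) 1 (((y 0).flatMap fun b => [b, b]) ++ ([true, false] ++ w))
      with hτ4
    have d1 : τ4 1 = ((y 0).flatMap fun b => [b, b]) ++ ([true, false] ++ w) := by
      rw [hτ4, update_self]
    have h7 := Pool.Agent.LibSpec4.pushW_complete (O := O) (r := 1) pre τ4
    refine ⟨w.length + (2 + ((2 * (y 0).length + 1) + ((3 * (y 0).length + 1) +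
      (pre.length + 1)))), _, ?_, _, _, _, rfl, h3, _, _, _, rfl, h4, _, _, _, rfl, h5,
      _, _, _, rfl, h6, _, _, _, rfl, h7, rfl, ?_, rfl⟩
    · have e0 := len_le_size y 0
      refine Nat.add_le_add hwl ?_
      omega
    · rw [update_self, d1, ← hask]
      exact hw

/-- PLAN. The definition of `NEXP` gives a program `p` and `c`; every program is `prog e` for
infinitely many `e` (`prog (Nat.pair a b)` does not depend on `b`, `Nat.right_le_pair`). Take
`e ≥ max e₀ c`; time: `|z| ^ c + c ≤ |z| ^ (e + 1) + (e + 1)` (also for `|z| = 0`: `0 ^ 0 = 1 ≤ e + 1`).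
Soundness of the program gives the other direction. -/
theorem exists_machine {O : List Bool → Bool} {L : Lang} (hL : L ∈ NEXPLang O) (e₀ : ℕ) :
    ∃ e ≥ e₀, ∀ z, z ∈ L ↔ AccE O e z := by
  obtain ⟨c, p, hp⟩ := hL
  obtain ⟨a, ha⟩ := Classical.choose_spec exists_prog_enum p
  have hprog : prog (Nat.pair a (max e₀ c)) = p := by
    unfold prog
    rw [Nat.unpair_pair]
    exact ha
  have hge : max e₀ c ≤ Nat.pair a (max e₀ c) := Nat.right_le_pair _ _
  refine ⟨Nat.pair a (max e₀ c), le_trans (le_max_left _ _) hge, fun z => ?_⟩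
  have hce : c ≤ Nat.pair a (max e₀ c) := le_trans (le_max_right _ _) hge
  have h1 := hp fun _ => z
  have hs : size (fun _ : Fin 1 => z) = z.length := by simp [size]
  rw [hs] at h1
  unfold AccE Pool.Agent.LibNexp.Acc
  rw [hprog]
  generalize Nat.pair a (max e₀ c) = e at hce
  constructor
  · intro hz
    obtain ⟨t, σ', ht, hr⟩ := h1.2 hz
    refine ⟨t, σ', le_trans ht (Nat.pow_le_pow_right (by norm_num) ?_), hr⟩
    unfold ex
    rcases Nat.eq_zero_or_pos z.length with h0 | h0
    · rw [h0]
      have h2 : 0 ^ c ≤ 1 := by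
        rcases Nat.eq_zero_or_pos c with rfl | hc
        · simp
        · rw [Nat.zero_pow hc]; omega
      omega
    · have h2 : z.length ^ c ≤ z.length ^ (e + 1) := Nat.pow_le_pow_right h0 (by omega)
      omega
  · rintro ⟨t, σ', -, hr⟩
    exact h1.1 t σ' hr

/-- PLAN. `witLang_mem` (linear exponent implies polynomial exponent, `NEXP.and`, `nexp_prefix`). -/
theorem wl_mem (O : List Bool → Bool) : WL O ∈ NEXPLang O := by
  have h1 : NEXP O fun e : Fin 1 → List Bool => e 0 ∈ WitLang O := by
    obtain ⟨c, hc⟩ := witLang_mem (O := O)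
    exact nexp_iff.2 ⟨_, EP.pow2 (((PolyB.const c).mul PolyB.id).add (PolyB.const c)), hc⟩
  exact (nexp_prefix (O := O) [true] (0 : Fin 1)).and h1

end Pool.Agent.LibAV75
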