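import Pool.Agent.LibAV75.V1

/-!
Row V5: numbers.
-/

namespace Pool.Agent.LibAV75

open Filter Function

private theorem V5_ev (K a b : ℕ) : ∀ᶠ n : ℕ in atTop, a * n ^ K + b < 2 ^ n := by
  have h1 := (isLittleO_pow_const_const_pow_of_one_lt (R := ℝ) K (one_lt_two)).def
    (show (0 : ℝ) < 1 / (2 * (a + 1)) by positivity)
  have h2 : ∀ᶠ n : ℕ in atTop, 2 * b < n := eventually_gt_atTop _
  filter_upwards [h1, h2] with n h3 h4
  rw [Real.norm_of_nonneg (by positivity), Real.norm_of_nonneg (by positivity)] at h3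
  have h5 : (n : ℝ) < 2 ^ n := by exact_mod_cast Nat.lt_two_pow_self
  have h6 : (2 * b : ℝ) < n := by exact_mod_cast h4
  have h7 : (a : ℝ) * (n : ℝ) ^ K ≤ 2 ^ n / 2 := by
    calc (a : ℝ) * (n : ℝ) ^ K ≤ (a + 1) * (1 / (2 * (a + 1)) * 2 ^ n) := by
          gcongr
          linarith
      _ = 2 ^ n / 2 := by
          field_simp
  have h8 : ((a * n ^ K + b : ℕ) : ℝ) < ((2 ^ n : ℕ) : ℝ) := by
    push_cast
    linarith
  exact_mod_cast h8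

private theorem V5_pz {n i L : ℕ} (hn : n ≤ L) :
    pz n (2 ^ L) ((i + 1) * 2 ^ L) ≤ 2 ^ (6 * L + (3 * i + 5)) := by
  have e1 : i + 1 ≤ 2 ^ (i + 1) := (Nat.lt_two_pow_self (n := i + 1)).le
  have a1 : (i + 1) * 2 ^ L ≤ 2 ^ (L + (i + 1)) := by
    rw [pow_add, mul_comm (2 ^ L)]
    exact Nat.mul_le_mul_right _ e1
  generalize (i + 1) * 2 ^ L = zm at a1 ⊢
  have a2 : zm ^ 2 * 2 ^ L + 1 ≤ 2 ^ (3 * L + (2 * i + 3)) := by
    have b1 : zm ^ 2 * 2 ^ L ≤ 2 ^ (3 * L + (2 * i + 2)) := by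
      calc zm ^ 2 * 2 ^ L ≤ (2 ^ (L + (i + 1))) ^ 2 * 2 ^ L :=
            Nat.mul_le_mul_right _ (Nat.pow_le_pow_left a1 2)
        _ = 2 ^ ((L + (i + 1)) * 2 + L) := by rw [← pow_mul, ← pow_add]
        _ ≤ 2 ^ (3 * L + (2 * i + 2)) := Nat.pow_le_pow_right (by norm_num) (by omega)
    have b2 : 1 ≤ 2 ^ (3 * L + (2 * i + 2)) := Nat.one_le_two_pow
    calc zm ^ 2 * 2 ^ L + 1 ≤ 2 * 2 ^ (3 * L + (2 * i + 2)) := by omega
      _ = 2 ^ (3 * L + (2 * i + 3)) := by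
          rw [← pow_succ', show 3 * L + (2 * i + 2) + 1 = 3 * L + (2 * i + 3) by omega]
  have a3 : 2 ^ n * (zm * Mz (2 ^ L) zm) ≤ 2 ^ (6 * L + (3 * i + 4)) := by
    unfold Mz
    calc 2 ^ n * (zm * ((zm ^ 2 * 2 ^ L + 1) * 2 ^ L))
        ≤ 2 ^ L * (2 ^ (L + (i + 1)) * (2 ^ (3 * L + (2 * i + 3)) * 2 ^ L)) :=
          Nat.mul_le_mul (Nat.pow_le_pow_right (by norm_num) hn)
            (Nat.mul_le_mul a1 (Nat.mul_le_mul_right _ a2))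
      _ = 2 ^ (L + (L + (i + 1) + (3 * L + (2 * i + 3) + L))) := by
          rw [← pow_add, ← pow_add, ← pow_add]
      _ ≤ 2 ^ (6 * L + (3 * i + 4)) := Nat.pow_le_pow_right (by norm_num) (by omega)
  have a4 : zm * 2 ^ L ≤ 2 ^ (6 * L + (3 * i + 4)) := by
    calc zm * 2 ^ L ≤ 2 ^ (L + (i + 1)) * 2 ^ L := Nat.mul_le_mul_right _ a1
      _ = 2 ^ (L + (i + 1) + L) := by rw [← pow_add]
      _ ≤ 2 ^ (6 * L + (3 * i + 4)) := Nat.pow_le_pow_right (by norm_num) (by omega)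
  unfold pz
  calc _ ≤ 2 ^ (6 * L + (3 * i + 4)) + 2 ^ (6 * L + (3 * i + 4)) := Nat.add_le_add a3 a4
    _ = 2 ^ (6 * L + (3 * i + 5)) := by
        rw [← two_mul, ← pow_succ', show 6 * L + (3 * i + 4) + 1 = 6 * L + (3 * i + 5) by omega]

private theorem V5_lay {n i : ℕ} (hn : 1 ≤ n) : n ≤ lay n (i + 3) ∧
    n ^ (i + 1) ≤ lay n (i + 3) := by
  unfold lay
  constructor
  · calc n = n ^ 1 := (pow_one n).symm
      _ ≤ n ^ 2 ^ (i + 3) := Nat.pow_le_pow_right hn Nat.one_le_two_pow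
  · refine Nat.pow_le_pow_right hn ?_
    have : i + 3 < 2 ^ (i + 3) := Nat.lt_two_pow_self
    omega

/-- PLAN. With `M := lay ν (i + 3)`, `c ≤ ν ≤ M`: `pz (ν - 1) (2 ^ M) (E * 2 ^ M) ≤ 2 ^ (10 * M + 10 * i + 20)`
(generously), the left side is at most `2 ^ (12 * M + 12 * i + 40)`, and
`12 * ν ^ 2 ^ (i + 3) + 12 * i + 40 < 2 ^ ν` for large `ν` (see `b10_size` in B10.lean, proved). -/
theorem v5_size (i : ℕ) : ∀ᶠ ν in atTop, ∀ c ≤ ν,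
    ft ν (i + 1) (i + 3) c + 2 ^ ex i (ν - 1) < 2 ^ 2 ^ ν := by
  filter_upwards [V5_ev (2 ^ (i + 3)) 7 (4 * i + 9), eventually_ge_atTop 1] with ν h1 hν c hc
  obtain ⟨h2, h3⟩ := V5_lay (i := i) hν
  have hL : 7 * lay ν (i + 3) + (4 * i + 9) < 2 ^ ν := h1
  have hex : ex i (ν - 1) ≤ lay ν (i + 3) + (i + 1) := by
    unfold ex
    have h4 : (ν - 1) ^ (i + 1) ≤ ν ^ (i + 1) := Nat.pow_le_pow_left (Nat.sub_le _ _) _
    omega
  unfold ft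
  generalize lay ν (i + 3) = L at h2 h3 hL hex ⊢
  have a1 := V5_pz (n := ν - 1) (i := i) (L := L) (by omega)
  generalize pz (ν - 1) (2 ^ L) ((i + 1) * 2 ^ L) = p at a1 ⊢
  have e4 : i + 3 + 1 ≤ 2 ^ (i + 2) := by
    have : i + 1 < 2 ^ (i + 1) := Nat.lt_two_pow_self
    rw [pow_succ]
    omega
  have a2 : 2 ^ c * ((i + 3 + 1) * p) ≤ 2 ^ (7 * L + (4 * i + 7)) := by
    calc 2 ^ c * ((i + 3 + 1) * p) ≤ 2 ^ L * (2 ^ (i + 2) * 2 ^ (6 * L + (3 * i + 5))) :=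
          Nat.mul_le_mul (Nat.pow_le_pow_right (by norm_num) (hc.trans h2)) (Nat.mul_le_mul e4 a1)
      _ = 2 ^ (L + (i + 2 + (6 * L + (3 * i + 5)))) := by rw [← pow_add, ← pow_add]
      _ ≤ 2 ^ (7 * L + (4 * i + 7)) := Nat.pow_le_pow_right (by norm_num) (by omega)
  have a3 : (i + 3) * p ≤ 2 ^ (7 * L + (4 * i + 7)) := by
    calc (i + 3) * p ≤ 2 ^ (i + 2) * 2 ^ (6 * L + (3 * i + 5)) :=
          Nat.mul_le_mul (by omega) a1
      _ = 2 ^ (i + 2 + (6 * L + (3 * i + 5))) := by rw [← pow_add]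
      _ ≤ 2 ^ (7 * L + (4 * i + 7)) := Nat.pow_le_pow_right (by norm_num) (by omega)
  have a4 : 2 ^ ex i (ν - 1) ≤ 2 ^ (7 * L + (4 * i + 8)) :=
    Nat.pow_le_pow_right (by norm_num) (by omega)
  calc 2 ^ c * ((i + 3 + 1) * p) + (i + 3) * p + 2 ^ ex i (ν - 1)
      ≤ 2 ^ (7 * L + (4 * i + 7)) + 2 ^ (7 * L + (4 * i + 7)) + 2 ^ (7 * L + (4 * i + 8)) :=
        Nat.add_le_add (Nat.add_le_add a2 a3) a4
    _ = 2 ^ (7 * L + (4 * i + 9)) := by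
        rw [← two_mul, ← pow_succ', show 7 * L + (4 * i + 7) + 1 = 7 * L + (4 * i + 8) by omega,
          ← two_mul, ← pow_succ', show 7 * L + (4 * i + 8) + 1 = 7 * L + (4 * i + 9) by omega]
    _ < 2 ^ 2 ^ ν := Nat.pow_lt_pow_right (by norm_num) hL

/-- The constant of stage `i`. -/
def CI (i : ℕ) : ℕ := 8 ^ (i + 3) * (2 ^ (i + 6) + i + 6) + 5

/-- PLAN. `ν := n + 1`, `β := 2 ^ (i + 3) * (Nat.log 2 (n + 1) + 2) + (i + 1)` works: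
`n + 1 ≤ 2 ^ (Nat.log 2 (n + 1) + 1)`, `i + 1 ≤ 2 ^ (i + 1)`. Second part (`1 ≤ Nat.log 2 (n + 1)` for
`n ≥ 1`): `8 ^ (i + 3) * (R + β + 4) + 5 ≤ CI i * (R + Nat.log 2 (n + 1))`. Third part:
`n + 1 ≤ n ^ 2` for `n ≥ 2`, `2 ^ (i + 4) ≤ CI i`. The others as `b10_vis` in B10.lean. -/
theorem v5_beta {i n : ℕ} (hn : 2 ≤ n) : (∃ β, (i + 1) * lay (n + 1) (i + 3) ≤ 2 ^ β ∧
    ∀ R, 8 ^ (i + 3) * (R + β + 4) + 5 ≤ CI i * (R + Nat.log 2 (n + 1))) ∧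
    lay (n + 1) (i + 3) ≤ n ^ CI i ∧
    2 ^ (ex i n + 1) ≤ 2 ^ (lay (n + 1) (i + 3) + 1) ^ 2 ∧
    (n + 1) + 2 ^ (n + 1) < 2 ^ (lay (n + 1) (i + 3) + 1) ^ 2 := by
  have h5 : 2 ^ (i + 6) = 8 * 2 ^ (i + 3) := by rw [pow_add, pow_add]; ring
  obtain ⟨h2, h3⟩ := V5_lay (n := n + 1) (i := i) (by omega)
  refine ⟨⟨2 ^ (i + 3) * (Nat.log 2 (n + 1) + 1) + (i + 1), ?_, fun R => ?_⟩, ?_, ?_, ?_⟩
  · have h1 : n + 1 ≤ 2 ^ (Nat.log 2 (n + 1) + 1) := by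
      have := Nat.lt_pow_succ_log_self (b := 2) (by norm_num) (n + 1)
      rw [Nat.succ_eq_add_one] at this
      omega
    have h2 : i + 1 ≤ 2 ^ (i + 1) := (Nat.lt_two_pow_self (n := i + 1)).le
    unfold lay
    calc (i + 1) * (n + 1) ^ 2 ^ (i + 3)
        ≤ 2 ^ (i + 1) * (2 ^ (Nat.log 2 (n + 1) + 1)) ^ 2 ^ (i + 3) :=
          Nat.mul_le_mul h2 (Nat.pow_le_pow_left h1 _)
      _ = 2 ^ (2 ^ (i + 3) * (Nat.log 2 (n + 1) + 1) + (i + 1)) := by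
          rw [← pow_mul, ← pow_add, mul_comm (2 ^ (i + 3)), add_comm (i + 1)]
  · have hl : 1 ≤ Nat.log 2 (n + 1) := Nat.log_pos (by norm_num) (by omega)
    unfold CI
    generalize Nat.log 2 (n + 1) = l at hl ⊢
    rw [h5]
    generalize 2 ^ (i + 3) = T
    generalize 8 ^ (i + 3) = U
    have h7 : R + (T * (l + 1) + (i + 1)) + 4 ≤ (8 * T + i + 6) * (R + l) := by nlinarith
    calc U * (R + (T * (l + 1) + (i + 1)) + 4) + 5
        ≤ U * ((8 * T + i + 6) * (R + l)) + 5 * (R + l) :=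
          Nat.add_le_add (Nat.mul_le_mul_left _ h7) (by omega)
      _ = (U * (8 * T + i + 6) + 5) * (R + l) := by ring
  · unfold lay
    calc (n + 1) ^ 2 ^ (i + 3) ≤ (n ^ 2) ^ 2 ^ (i + 3) := Nat.pow_le_pow_left (by nlinarith) _
      _ = n ^ (2 * 2 ^ (i + 3)) := by rw [← pow_mul]
      _ ≤ n ^ CI i := by
          refine Nat.pow_le_pow_right (by omega) ?_
          unfold CI
          rw [h5]
          have h6 : 0 < 8 ^ (i + 3) := by positivity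
          have h7 : 8 * 2 ^ (i + 3) + i + 6 ≤ 8 ^ (i + 3) * (8 * 2 ^ (i + 3) + i + 6) :=
            Nat.le_mul_of_pos_left _ h6
          omega
  · refine Nat.pow_le_pow_right (by norm_num) ?_
    have h6 : i + 1 ≤ lay (n + 1) (i + 3) := by
      have h7 : i + 1 < (n + 1) ^ (i + 1) := Nat.lt_pow_self (by omega)
      omega
    have h8 : n ^ (i + 1) ≤ lay (n + 1) (i + 3) :=
      (Nat.pow_le_pow_left (Nat.le_succ n) _).trans h3
    unfold ex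
    generalize lay (n + 1) (i + 3) = L at h6 h8 ⊢
    generalize n ^ (i + 1) = a at h8 ⊢
    nlinarith
  · generalize lay (n + 1) (i + 3) = L at h2 h3 ⊢
    have h4 : n + 1 < 2 ^ (n + 1) := Nat.lt_two_pow_self
    calc (n + 1) + 2 ^ (n + 1) < 2 ^ (n + 1) + 2 ^ (n + 1) := by omega
      _ = 2 ^ (n + 1 + 1) := by rw [pow_succ]; ring
      _ ≤ 2 ^ (L + 1) ^ 2 := Nat.pow_le_pow_right (by norm_num) (by nlinarith)

end Pool.Agent.LibAV75
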