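import Pool.Agent.LibAV75.B7

/-!
Row V4: two-sided approximation of the complements, and the second language of witnesses.
-/

namespace Pool.Agent.LibAV75

open Filter Function Pool.Agent.LibNexp Pool.Agent.LibBHN

private theorem V4_congr {m : ℕ} {P Q : List Bool → Prop} (h : ∀ z : List Bool, z.length = m → (P z ↔ Q z)) :
    cnt m P = cnt m Q := by
  classical
  unfold cnt
  congr 1
  ext k
  simp only [Finset.mem_filter, Finset.mem_range]
  exact and_congr_right fun _ => h _ (length_bits m k)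

private theorem V4_zero {m : ℕ} {P : List Bool → Prop} (h : ∀ z : List Bool, z.length = m → ¬ P z) :
    cnt m P = 0 := by
  classical
  unfold cnt
  rw [Finset.card_eq_zero, Finset.filter_eq_empty_iff]
  exact fun k _ => h _ (length_bits m k)

/-- PLAN. As `b8` (B8.lean, proved; read it): `L` is the language of machine `e`,
`N := {z | code e z ∈ A}`. -/
theorem v4 {n E R D : ℕ → ℕ} {r : ℕ → ℕ} {A : Set (List Bool)} (hr : Monotone r)
    (hn : StrictMono n) (hE : ∀ e, ∀ᶠ i in atTop, e < E i)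
    (hR : ∀ i, r (lay (n i) (D i)) ≤ R i)
    (h1 : ∀ l, false :: l ∈ A → ∃ e z, false :: l = code e z)
    (h3 : ∀ (i e : ℕ) (z : List Bool), lay (n i) (D i) ≤ ex e z.length →
      ex e z.length < n (i + 1) → (code e z ∈ A ↔ ¬ AccE (orc A) e z))
    (h4 : ∀ i, ∀ e < E i, ∀ m, n i ≤ ex e m → ex e m < lay (n i) (D i) →
      2 ^ R i * cnt m (fun z => ¬ (code e z ∈ A ↔ ¬ AccE (orc A) e z)) ≤ 2 ^ m) :
    H (orc A) r := by
  intro L hL
  obtain ⟨e, -, he⟩ := exists_machine hL 0
  refine ⟨{z | code e z ∈ A}, code_mem h1 e, ?_⟩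
  obtain ⟨i₀, hi₀⟩ := eventually_atTop.1 (hE e)
  refine eventually_atTop.2 ⟨n i₀, fun m hm => ?_⟩
  have herr : err Lᶜ {z | code e z ∈ A} m =
      cnt m (fun z => ¬ (code e z ∈ A ↔ ¬ AccE (orc A) e z)) := by
    unfold err
    refine V4_congr fun z _ => ?_
    have h3' : z ∈ Lᶜ ↔ ¬ AccE (orc A) e z := by
      rw [Set.mem_compl_iff, he z]
    have h4' : z ∈ ({z | code e z ∈ A} : Set (List Bool)) ↔ code e z ∈ A := Iff.rfl
    rw [h3', h4']
    exact not_congr iff_comm
  rw [herr]
  have hex : m < ex e m := le_ex e m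
  have hfind : ∃ k, ex e m < n k := ⟨ex e m + 1, (Nat.lt_succ_self _).trans_le (hn.le_apply)⟩
  classical
  set k := Nat.find hfind with hk
  have hk1 : ex e m < n k := Nat.find_spec hfind
  have hk2 : i₀ < k := by
    by_contra hcon
    push Not at hcon
    have := hn.monotone hcon
    omega
  obtain ⟨i, hi⟩ : ∃ i, k = i + 1 := ⟨k - 1, by omega⟩
  have hi0 : i₀ ≤ i := by omega
  have hni : n i ≤ ex e m := by
    by_contra hcon
    push Not at hcon
    exact Nat.find_min hfind (m := i) (by omega) hcon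
  rw [hi] at hk1
  by_cases hlay : ex e m < lay (n i) (D i)
  · have h5 := h4 i e (hi₀ i hi0) m hni hlay
    have h6 : r m ≤ R i := (hr (by omega)).trans (hR i)
    exact (Nat.mul_le_mul_right _ (Nat.pow_le_pow_right two_pos h6)).trans h5
  · push Not at hlay
    rw [V4_zero fun z hz h => ?_, mul_zero]
    · exact Nat.zero_le _
    · exact h (h3 i e z (by rw [hz]; exact hlay) (by rw [hz]; exact hk1))

/-- PLAN. `∃ z, z = [true] ++ x ∧ z ∈ WitLang O` (`witLang_mem`, `nexp_subst` or `nexp_append`). -/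
theorem wlp_mem (O : List Bool → Bool) : {x | true :: x ∈ WitLang O} ∈ NEXPLang O := by
  have hw : NEXP O fun e : Fin 1 → List Bool => e 0 ∈ WitLang O := by
    obtain ⟨c, hc⟩ := (witLang_mem (O := O) : WitLang O ∈ NELang O)
    exact nexp_iff.2 ⟨_, EP.pow2 (((PolyB.const c).mul PolyB.id).add (PolyB.const c)), hc⟩
  have h1 : NEXP O fun e : Fin 2 → List Bool => e 1 = true :: e 0 ∧ e 1 ∈ WitLang O := by
    refine NEXP.and ?_ ?_
    · refine ((nexp_subst (O := O) (fun _ => []) (fun b => [b]) [true]).reindex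
        ![0, 0, 1]).congr fun e => ?_
      simp [misc_flatMap_nil]
    · refine (hw.reindex ![1]).congr fun e => ?_
      simp
  have h2 : NEXP O fun e : Fin 1 → List Bool => ∃ z, z = true :: e 0 ∧ z ∈ WitLang O := by
    refine nexp_ex (R := fun e z => z = true :: e 0 ∧ z ∈ WitLang O) h1 (g := fun n => n + 1)
      (PolyB.id.add (PolyB.const 1)) ?_
    rintro e z ⟨h, -⟩
    have := len_le_size e 0
    rw [h, List.length_cons]
    omega
  show NEXP O _
  refine h2.congr fun e => ?_
  constructor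
  · rintro ⟨z, rfl, hz⟩
    exact hz
  · intro h
    exact ⟨_, rfl, h⟩

end Pool.Agent.LibAV75
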