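import Pool.Agent.LibAV75.B5

/-!
Row B6: the limit oracle.
-/

namespace Pool.Agent.LibAV75

open Filter Function Pool.Agent.LibNexp Pool.Agent.LibBHN

private theorem b6_cnt_mono {m : ℕ} {P Q : List Bool → Prop}
    (h : ∀ z : List Bool, z.length = m → P z → Q z) : cnt m P ≤ cnt m Q := by
  classical
  unfold cnt
  refine Finset.card_le_card fun t ht => ?_
  rw [Finset.mem_filter] at ht ⊢
  exact ⟨ht.1, h _ (length_bits m t) ht.2⟩

private theorem b6_head {e : ℕ} {z : List Bool} (h : [true] <+: code e z) : False := by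
  obtain ⟨l, hl⟩ := code_head e z
  rw [hl] at h
  obtain ⟨t, ht⟩ := h
  simp at ht

private theorem b6_old {a b : ℕ} (h : a ≤ b) {A : Set (List Bool)} (hA : Old a A) : Old b A := by
  intro s hs
  rcases hA s hs with ⟨h1, h2⟩ | ⟨e, z, h1, h2⟩
  · have h3 : 2 ^ a ≤ 2 ^ b := Nat.pow_le_pow_right (by norm_num) h
    exact Or.inl ⟨h1, by omega⟩
  · exact Or.inr ⟨e, z, h1, h2.trans_le h⟩

/-- PLAN. `A₀ := ∅` is `Old (n 0)`; if `A` is `Old (n i)` and `Stage (n i) (n (i + 1)) ... A A'`, then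
`A'` is `Old (n (i + 1))` (`n i < n (i + 1)`). So `b5` gives a sequence `A i` (recursion with a subtype,
see LibTrade92/Limit.lean) with `Stage ... (A i) (A (i + 1))` and `G i (A (i + 1))`. Put
`A := ⋃ i, A i`. The strings of `A` not in `A (i + 1)` start with `true` and have length
`≥ n (i + 1) + 2 ^ n (i + 1)`, or are codes with exponent `≥ n (i + 1)`, so they have length
`≥ 2 ^ n (i + 1)`; they are invisible to all statements with exponent `< n (i + 1)`, and `G i` does not
depend on them (`2 ^ (lay (n i) (D i) + 1) ^ 2 ≤ 2 ^ n (i + 1)`). No code with exponent in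
`[n i, n (i + 1))` is added at another stage, and none with exponent `< n 0`. -/
theorem b6 {n E R D β y : ℕ → ℕ} {G : ℕ → Set (List Bool) → Prop} (hn : ∀ i, 1 ≤ n i)
    (hnn : ∀ i, (lay (n i) (D i) + 1) ^ 2 ≤ n (i + 1))
    (hβ : ∀ i, E i * lay (n i) (D i) ≤ 2 ^ β i) (hy : ∀ i, y i + D i * (R i + β i) + 1 ≤ n i)
    (hG : ∀ i, Forced (n i) (y i) (D i * fb (E i) (R i + β i) (lay (n i) (D i))) (G i))
    (hL : ∀ i, Local (2 ^ (lay (n i) (D i) + 1) ^ 2) (G i)) :
    ∃ A : Set (List Bool), (∀ l, false :: l ∈ A → ∃ e z, false :: l = code e z) ∧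
      (∀ (e : ℕ) (z : List Bool), code e z ∈ A → ¬ AccE (orc A) e z) ∧
      (∀ (i e : ℕ) (z : List Bool), lay (n i) (D i) ≤ ex e z.length →
        ex e z.length < n (i + 1) → ¬ AccE (orc A) e z → code e z ∈ A) ∧
      (∀ i, ∀ e < E i, ∀ m, n i ≤ ex e m → ex e m < lay (n i) (D i) →
        2 ^ R i * cnt m (fun z => ¬ AccE (orc A) e z ∧ code e z ∉ A) ≤ 2 ^ m) ∧
      ∀ i, G i A := by
  have hlay : ∀ i, n i ≤ lay (n i) (D i) := by
    intro i
    have h1 := lay_mono (hn i) (Nat.zero_le (D i))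
    have h2 : lay (n i) 0 = n i := by simp [lay]
    rwa [h2] at h1
  have hlay' : ∀ i, lay (n i) (D i) < n (i + 1) := by
    intro i
    have h1 := hnn i
    nlinarith
  have hlt : ∀ i, n i < n (i + 1) := fun i => (hlay i).trans_lt (hlay' i)
  have hmono : StrictMono n := strictMono_nat_of_lt_succ hlt
  -- one stage
  have hstep : ∀ (i : ℕ) (A : {A : Set (List Bool) // Old (n i) A}),
      ∃ A' : {A : Set (List Bool) // Old (n (i + 1)) A},
        Stage (n i) (n (i + 1)) (E i) (R i) (D i) A.1 A'.1 ∧ G i A'.1 := by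
    intro i A
    obtain ⟨A', h1, h2⟩ := b5 (hn i) A.2 (hβ i) (hy i) (hlay' i).le (hG i) (hL i)
    refine ⟨⟨A', fun s hs => ?_⟩, h1, h2⟩
    by_cases hsA : s ∈ A.1
    · exact b6_old (hlt i).le A.2 s hsA
    · rcases h1.new s hs hsA with ⟨h3, h4⟩ | ⟨e, z, h3, -, h5⟩
      · have h6 : 2 ^ n i ≤ 2 ^ n (i + 1) := Nat.pow_le_pow_right (by norm_num) (hlt i).le
        have h7 := hlt i
        exact Or.inl ⟨h3, by omega⟩
      · exact Or.inr ⟨e, z, h3, h5⟩
  choose st hst1 hst2 using hstep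
  have h0 : Old (n 0) (∅ : Set (List Bool)) := fun s hs => absurd hs (Set.notMem_empty s)
  set S : ∀ i, {A : Set (List Bool) // Old (n i) A} :=
    fun i => Nat.rec ⟨∅, h0⟩ (fun i prev => st i prev) i with hSdef
  have hS1 : ∀ i, S (i + 1) = st i (S i) := fun i => rfl
  have hS0 : (S 0).1 = ∅ := rfl
  have hStage : ∀ i, Stage (n i) (n (i + 1)) (E i) (R i) (D i) (S i).1 (S (i + 1)).1 := by
    intro i
    rw [hS1]
    exact hst1 i (S i)
  have hGi : ∀ i, G i (S (i + 1)).1 := by
    intro i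
    rw [hS1]
    exact hst2 i (S i)
  set A : Set (List Bool) := ⋃ i, (S i).1 with hA
  have hsub : ∀ i, (S i).1 ⊆ A := fun i => Set.subset_iUnion (fun i => (S i).1) i
  -- the strings added later
  have hlate : ∀ i d, ∀ s ∈ (S (i + d)).1, s ∉ (S i).1 →
      ([true] <+: s ∧ n i + 2 ^ n i ≤ s.length) ∨
        ∃ e z, s = code e z ∧ n i ≤ ex e z.length := by
    intro i d
    induction d with
    | zero => exact fun s hs hs' => absurd hs hs'
    | succ d ih =>
      intro s hs hs'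
      by_cases h1 : s ∈ (S (i + d)).1
      · exact ih s h1 hs'
      · have h2 : n i ≤ n (i + d) := hmono.monotone (Nat.le_add_right i d)
        rcases (hStage (i + d)).new s hs h1 with ⟨h3, h4⟩ | ⟨e, z, h3, h4, -⟩
        · have h5 : 2 ^ n i ≤ 2 ^ n (i + d) := Nat.pow_le_pow_right (by norm_num) h2
          exact Or.inl ⟨h3, by omega⟩
        · exact Or.inr ⟨e, z, h3, h2.trans h4⟩
  have hSmono : ∀ i d, (S i).1 ⊆ (S (i + d)).1 := by
    intro i d
    induction d with
    | zero => exact fun s hs => hs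
    | succ d ih => exact ih.trans (hStage (i + d)).sub
  have hlateA : ∀ i, ∀ s ∈ A, s ∉ (S i).1 →
      ([true] <+: s ∧ n i + 2 ^ n i ≤ s.length) ∨
        ∃ e z, s = code e z ∧ n i ≤ ex e z.length := by
    intro i s hs hs'
    obtain ⟨j, hj⟩ := Set.mem_iUnion.1 hs
    rcases Nat.le_total i j with h | h
    · obtain ⟨d, rfl⟩ := Nat.exists_eq_add_of_le h
      exact hlate i d s hj hs'
    · obtain ⟨d, rfl⟩ := Nat.exists_eq_add_of_le h
      exact absurd (hSmono j d hj) hs'
  -- visibility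
  have hsee : ∀ (i e : ℕ) (z : List Bool), ex e z.length < n i →
      (AccE (orc A) e z ↔ AccE (orc (S i).1) e z) := by
    intro i e z hez
    refine accE_congr fun s hs => ⟨fun h => ?_, fun h => hsub i h⟩
    by_contra h1
    rcases hlateA i s h h1 with ⟨-, h2⟩ | ⟨e', z', rfl, h2⟩
    · have h3 : 2 ^ (ex e z.length + 1) ≤ 2 ^ n i := Nat.pow_le_pow_right (by norm_num) hez
      omega
    · have h3 := code_far (e' := e') (z' := z') (e := e) (m := z.length) (hez.le.trans h2)
      omega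
  have hcode : ∀ (i e : ℕ) (z : List Bool), ex e z.length < n i → code e z ∈ A →
      code e z ∈ (S i).1 := by
    intro i e z hez h
    by_contra h1
    rcases hlateA i _ h h1 with ⟨h2, -⟩ | ⟨e', z', h2, h3⟩
    · exact b6_head h2
    · obtain ⟨rfl, rfl⟩ := code_injective h2
      omega
  refine ⟨A, ?_, ?_, ?_, ?_, ?_⟩
  · intro l hl
    obtain ⟨j, hj⟩ := Set.mem_iUnion.1 hl
    rcases (S j).2 _ hj with ⟨⟨t, ht⟩, -⟩ | ⟨e, z, h1, -⟩
    · simp at ht
    · exact ⟨e, z, h1⟩
  · intro e z hmem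
    have hex : ∃ j, ex e z.length < n j :=
      ⟨ex e z.length + 1, (Nat.lt_succ_self _).trans_le (hmono.id_le _)⟩
    classical
    obtain ⟨j, hj, hjmin⟩ : ∃ j, ex e z.length < n j ∧ ∀ i < j, ¬ ex e z.length < n i :=
      ⟨Nat.find hex, Nat.find_spec hex, fun i hi => Nat.find_min hex hi⟩
    have h1 := hcode j e z hj hmem
    cases j with
    | zero =>
      rw [hS0] at h1
      exact absurd h1 (Set.notMem_empty _)
    | succ i =>
      have h2 := not_lt.1 (hjmin i (Nat.lt_succ_self i))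
      rw [hsee (i + 1) e z hj]
      exact (hStage i).sound e z h2 hj h1
  · intro i e z h1 h2 h3
    rw [hsee (i + 1) e z h2] at h3
    exact hsub (i + 1) ((hStage i).exact e z h1 h2 h3)
  · intro i e he m h1 h2
    refine le_trans (Nat.mul_le_mul_left _ (b6_cnt_mono fun z hz hzz => ?_))
      ((hStage i).few e he m h1 h2)
    have h3 : ex e z.length < n (i + 1) := by
      rw [hz]
      exact h2.trans (hlay' i)
    rw [hsee (i + 1) e z h3] at hzz
    exact ⟨hzz.1, fun h => hzz.2 (hsub (i + 1) h)⟩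
  · intro i
    refine hL i (S (i + 1)).1 A (fun s hs => ⟨fun h => hsub (i + 1) h, fun h => ?_⟩) (hGi i)
    by_contra h1
    have h4 : 2 ^ (lay (n i) (D i) + 1) ^ 2 ≤ 2 ^ n (i + 1) :=
      Nat.pow_le_pow_right (by norm_num) (hnn i)
    rcases hlateA (i + 1) s h h1 with ⟨-, h2⟩ | ⟨e, z, rfl, h2⟩
    · omega
    · have h3 := length_code e z
      have h5 : 2 ^ n (i + 1) ≤ 2 ^ (ex e z.length + 1) ^ 2 :=
        Nat.pow_le_pow_right (by norm_num) (by nlinarith)
      omega

end Pool.Agent.LibAV75
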