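import Pool.Agent.LibAV75.B10
import Pool.Agent.LibAV75.B6
import Pool.Agent.LibAV75.B8
import Pool.Agent.LibAV75.E1
import Pool.Agent.LibTrade92.Main

/-!
Row E2: the oracle for advice. `Enough O a` (LibSpec30): every `L ∈ NEXP` has its complement in NEXP with
at most `a n + c` bits of advice.
-/

namespace Pool.Agent.LibAV75

open Filter Function Pool.Agent.LibNexp Pool.Agent.LibBHN
open Pool.Agent.LibSpec30 (Enough)

private theorem E2_ev (K a b : ℕ) : ∀ᶠ n : ℕ in atTop, a * n ^ K + b < 2 ^ n := by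
  have h1 := (isLittleO_pow_const_const_pow_of_one_lt (R := ℝ) K (one_lt_two)).def
    (show (0 : ℝ) < 1 / (2 * (a + 1)) by positivity)
  have h2 : ∀ᶠ n : ℕ in atTop, 2 * b < n := eventually_gt_atTop _
  filter_upwards [h1, h2] with n h3 h4
  rw [Real.norm_of_nonneg (by positivity), Real.norm_of_nonneg (by positivity)] at h3
  have h5 : (n : ℝ) < 2 ^ n := by exact_mod_cast Nat.lt_two_pow_self
  have h6 : (2 * b : ℝ) < n := by exact_mod_cast h4
  have h7 : (a : ℝ) * (n : ℝ) ^ K ≤ 2 ^ n / 2 := by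
    calc (a : ℝ) * (n : ℝ) ^ K ≤ (a + 1) * (1 / (2 * (a + 1)) * 2 ^ n) := by
          gcongr
          linarith
      _ = 2 ^ n / 2 := by
          field_simp
  have h8 : ((a * n ^ K + b : ℕ) : ℝ) < ((2 ^ n : ℕ) : ℝ) := by
    push_cast
    linarith
  exact_mod_cast h8

private theorem E2_fb {i c L : ℕ} (hc : c ≤ L) :
    (i + 3) * fb (i + 1) c L ≤ 2 ^ (5 * L + (4 * i + 7)) := by
  have e1 : i + 1 ≤ 2 ^ (i + 1) := (Nat.lt_two_pow_self (n := i + 1)).le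
  have e3 : i + 3 ≤ 2 ^ (i + 2) := by
    have : i + 2 < 2 ^ (i + 2) := Nat.lt_two_pow_self
    omega
  have a1 : (i + 1) * 2 ^ L ≤ 2 ^ (L + (i + 1)) := by
    rw [pow_add, mul_comm (2 ^ L)]
    exact Nat.mul_le_mul_right _ e1
  have a2 : 2 ^ c * ((i + 1) * 2 ^ L * 2 ^ L) ≤ 2 ^ (5 * L + (3 * i + 4)) := by
    calc 2 ^ c * ((i + 1) * 2 ^ L * 2 ^ L) ≤ 2 ^ L * (2 ^ (L + (i + 1)) * 2 ^ L) := by
          refine Nat.mul_le_mul (Nat.pow_le_pow_right (by norm_num) hc) ?_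
          exact Nat.mul_le_mul_right _ a1
      _ = 2 ^ (L + (L + (i + 1) + L)) := by rw [← pow_add, ← pow_add]
      _ ≤ 2 ^ (5 * L + (3 * i + 4)) := Nat.pow_le_pow_right (by norm_num) (by omega)
  have a3 : ((i + 1) * 2 ^ L) ^ 2 * 2 ^ L + 1 ≤ 2 ^ (3 * L + (2 * i + 3)) := by
    have b1 : ((i + 1) * 2 ^ L) ^ 2 * 2 ^ L ≤ 2 ^ (3 * L + (2 * i + 2)) := by
      calc ((i + 1) * 2 ^ L) ^ 2 * 2 ^ L ≤ (2 ^ (L + (i + 1))) ^ 2 * 2 ^ L :=
            Nat.mul_le_mul_right _ (Nat.pow_le_pow_left a1 2)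
        _ = 2 ^ ((L + (i + 1)) * 2 + L) := by rw [← pow_mul, ← pow_add]
        _ ≤ 2 ^ (3 * L + (2 * i + 2)) := Nat.pow_le_pow_right (by norm_num) (by omega)
    have b2 : 1 ≤ 2 ^ (3 * L + (2 * i + 2)) := Nat.one_le_two_pow
    calc ((i + 1) * 2 ^ L) ^ 2 * 2 ^ L + 1 ≤ 2 * 2 ^ (3 * L + (2 * i + 2)) := by omega
      _ = 2 ^ (3 * L + (2 * i + 3)) := by
          rw [← pow_succ', show 3 * L + (2 * i + 2) + 1 = 3 * L + (2 * i + 3) by omega]
  have a4 : (i + 1) * 2 ^ L * ((((i + 1) * 2 ^ L) ^ 2 * 2 ^ L + 1) * 2 ^ L) ≤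
      2 ^ (5 * L + (3 * i + 4)) := by
    calc (i + 1) * 2 ^ L * ((((i + 1) * 2 ^ L) ^ 2 * 2 ^ L + 1) * 2 ^ L)
        ≤ 2 ^ (L + (i + 1)) * (2 ^ (3 * L + (2 * i + 3)) * 2 ^ L) :=
          Nat.mul_le_mul a1 (Nat.mul_le_mul_right _ a3)
      _ = 2 ^ (L + (i + 1) + (3 * L + (2 * i + 3) + L)) := by rw [← pow_add, ← pow_add]
      _ ≤ 2 ^ (5 * L + (3 * i + 4)) := Nat.pow_le_pow_right (by norm_num) (by omega)
  have a5 : fb (i + 1) c L ≤ 2 ^ (5 * L + (3 * i + 5)) := by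
    unfold fb
    calc _ ≤ 2 ^ (5 * L + (3 * i + 4)) + 2 ^ (5 * L + (3 * i + 4)) := Nat.add_le_add a2 a4
      _ = 2 ^ (5 * L + (3 * i + 5)) := by
          rw [← two_mul, ← pow_succ', show 5 * L + (3 * i + 4) + 1 = 5 * L + (3 * i + 5) by omega]
  calc (i + 3) * fb (i + 1) c L ≤ 2 ^ (i + 2) * 2 ^ (5 * L + (3 * i + 5)) :=
        Nat.mul_le_mul e3 a5
    _ = 2 ^ (i + 2 + (5 * L + (3 * i + 5))) := by rw [← pow_add]
    _ ≤ 2 ^ (5 * L + (4 * i + 7)) := Nat.pow_le_pow_right (by norm_num) (by omega)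

/-- PLAN. Numbers, as `b10_size`. -/
theorem e2_size (i : ℕ) : ∀ᶠ n in atTop, ∀ c ≤ n, ∀ a ≤ n,
    (i + 3) * fb (i + 1) c (lay n (i + 3)) + 2 ^ (a + 1) * 2 ^ ex i (2 * n + 2 + a) < 2 ^ 2 ^ n ∧
      2 ^ (ex i (2 * n + 2 + a) + 1) ≤ 2 ^ (lay n (i + 3) + 1) ^ 2 := by
  filter_upwards [E2_ev (2 ^ (i + 3)) 5 (4 * i + 8), eventually_ge_atTop (5 ^ (i + 1))]
    with n h1 hn c hc a ha
  have hi : i + 1 < 5 ^ (i + 1) := Nat.lt_pow_self (by norm_num)
  have hn1 : 1 ≤ n := by omega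
  have h2 : n ≤ lay n (i + 3) := by
    unfold lay
    calc n = n ^ 1 := (pow_one n).symm
      _ ≤ n ^ 2 ^ (i + 3) := Nat.pow_le_pow_right hn1 Nat.one_le_two_pow
  have h3 : (2 * n + 2 + a) ^ (i + 1) ≤ lay n (i + 3) := by
    calc (2 * n + 2 + a) ^ (i + 1) ≤ (5 * n) ^ (i + 1) :=
          Nat.pow_le_pow_left (by omega) _
      _ = 5 ^ (i + 1) * n ^ (i + 1) := mul_pow _ _ _
      _ ≤ n * n ^ (i + 1) := Nat.mul_le_mul_right _ hn
      _ = n ^ (i + 2) := by rw [← pow_succ']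
      _ ≤ lay n (i + 3) := by
          unfold lay
          refine Nat.pow_le_pow_right hn1 ?_
          have : i + 3 < 2 ^ (i + 3) := Nat.lt_two_pow_self
          omega
  have hL : 5 * lay n (i + 3) + (4 * i + 8) < 2 ^ n := h1
  have hex : ex i (2 * n + 2 + a) ≤ lay n (i + 3) + (i + 1) := by
    unfold ex
    omega
  generalize lay n (i + 3) = L at h2 h3 hL hex ⊢
  constructor
  · have a6 := E2_fb (i := i) (hc.trans h2)
    have a7 : 2 ^ (a + 1) * 2 ^ ex i (2 * n + 2 + a) ≤ 2 ^ (5 * L + (4 * i + 7)) := by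
      rw [← pow_add]
      refine Nat.pow_le_pow_right (by norm_num) ?_
      omega
    calc (i + 3) * fb (i + 1) c L + 2 ^ (a + 1) * 2 ^ ex i (2 * n + 2 + a)
        ≤ 2 ^ (5 * L + (4 * i + 7)) + 2 ^ (5 * L + (4 * i + 7)) := Nat.add_le_add a6 a7
      _ = 2 ^ (5 * L + (4 * i + 8)) := by
          rw [← two_mul, ← pow_succ', show 5 * L + (4 * i + 7) + 1 = 5 * L + (4 * i + 8) by omega]
      _ < 2 ^ 2 ^ n := Nat.pow_lt_pow_right (by norm_num) hL
  · refine Nat.pow_le_pow_right (by norm_num) ?_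
    nlinarith

/-- PLAN. As `negH` in B11.lean (copy its proof, it is in the tar), with `y i := a (n i) + i + 1`,
`G i := GE i (n i) (a (n i) + i)`, and the condition
`a (n i) + CC' * (r (n i ^ CC') + Nat.log 2 (n i + 1)) < n i`, `CC' := CC i + i + 2` (so that
`y i + (i + 3) * (R i + β i) + 1 ≤ n i`: `b10_beta` and `i + 1 ≤ (i + 1) * Nat.log 2 (n + 1)`). If
`Enough (orc A) a`: apply it to `WL (orc A)`: `c`, `B ∈ NEXPLang`, `f` with `|f n| ≤ a n + c`,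
`(WL)ᶜ = {x | pair x (f |x|) ∈ B}`; `exists_machine` for `B` with `i ≥ c`: the advice `f (n i)` has length
`≤ a (n i) + i`, so `GE` gives `x` of length `n i` with
`pair x (f (n i)) ∈ B ↔ x ∈ WL`, contradiction. -/
theorem negE {r a : ℕ → ℕ} (hr : Monotone r)
    (ha : ∀ C : ℕ, ∃ᶠ n in atTop, a n + C * (r (n ^ C) + Nat.log 2 (n + 1)) < n) :
    ∃ O, Inner O r ∧ ¬ Enough O a := by
  have hgood : ∀ i b : ℕ, ∃ n ≥ b,
      a n + (CC i + i + 2) * (r (n ^ (CC i + i + 2)) + Nat.log 2 (n + 1)) < n ∧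
      (∀ c ≤ n, ∀ a ≤ n,
        (i + 3) * fb (i + 1) c (lay n (i + 3)) + 2 ^ (a + 1) * 2 ^ ex i (2 * n + 2 + a) < 2 ^ 2 ^ n ∧
          2 ^ (ex i (2 * n + 2 + a) + 1) ≤ 2 ^ (lay n (i + 3) + 1) ^ 2) := by
    intro i b
    exact Filter.frequently_atTop.1 ((ha (CC i + i + 2)).and_eventually (e2_size i)) b
  choose f hf1 hf2 hf3 using hgood
  obtain ⟨n, hn0, hnS⟩ : ∃ n : ℕ → ℕ, n 0 = f 0 2 ∧
      ∀ i, n (i + 1) = f (i + 1) (max (i + 3) ((lay (n i) (i + 3) + 1) ^ 2)) :=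
    ⟨fun i => Nat.rec (f 0 2) (fun i m => f (i + 1) (max (i + 3) ((lay m (i + 3) + 1) ^ 2))) i,
      rfl, fun _ => rfl⟩
  have hni : ∀ i, i + 2 ≤ n i := by
    intro i
    cases i with
    | zero => rw [hn0]; exact hf1 0 2
    | succ i =>
      rw [hnS]
      exact le_trans (le_max_left _ _) (hf1 (i + 1) _)
  have hnn : ∀ i, (lay (n i) (i + 3) + 1) ^ 2 ≤ n (i + 1) := by
    intro i
    rw [hnS]
    exact le_trans (le_max_right _ _) (hf1 (i + 1) _)
  have h2 : ∀ i, a (n i) + (CC i + i + 2) * (r (n i ^ (CC i + i + 2)) + Nat.log 2 (n i + 1)) <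
      n i := by
    intro i
    cases i with
    | zero => rw [hn0]; exact hf2 0 2
    | succ i => rw [hnS]; exact hf2 (i + 1) _
  have h3 : ∀ i, ∀ c ≤ n i, ∀ a ≤ n i,
      (i + 3) * fb (i + 1) c (lay (n i) (i + 3)) +
        2 ^ (a + 1) * 2 ^ ex i (2 * n i + 2 + a) < 2 ^ 2 ^ n i ∧
        2 ^ (ex i (2 * n i + 2 + a) + 1) ≤ 2 ^ (lay (n i) (i + 3) + 1) ^ 2 := by
    intro i
    cases i with
    | zero => rw [hn0]; exact hf3 0 2
    | succ i => rw [hnS]; exact hf3 (i + 1) _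
  have hsm : StrictMono n := by
    refine strictMono_nat_of_lt_succ fun i => ?_
    refine lt_of_lt_of_le ?_ (hnn i)
    have h4 : n i ≤ lay (n i) (i + 3) := by
      unfold lay
      exact Nat.le_self_pow (by positivity) _
    nlinarith
  have hb : ∀ i, ∃ β, (i + 1) * lay (n i) (i + 3) ≤ 2 ^ β ∧
      ∀ R, (i + 3) * (R + β) + 3 ≤ CC i * (R + Nat.log 2 (n i + 1)) :=
    fun i => b10_beta (by have := hni i; omega)
  choose β hβ1 hβ2 using hb
  have hvis : ∀ i, _ := fun i => b10_vis (i := i) (n := n i) (by have := hni i; omega)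
    (by have := hni i; omega)
  have hkey : ∀ i, a (n i) + i + 1 + (i + 3) * (r (lay (n i) (i + 3)) + β i) + 1 ≤ n i := by
    intro i
    have hl : 1 ≤ Nat.log 2 (n i + 1) := Nat.log_pos (by norm_num) (by have := hni i; omega)
    have h5 : r (lay (n i) (i + 3)) ≤ r (n i ^ (CC i + i + 2)) := by
      refine hr ((hvis i).2.2.trans (Nat.pow_le_pow_right (by have := hni i; omega) (by omega)))
    have h6 : (i + 3) * (r (lay (n i) (i + 3)) + β i) + 3 ≤
        CC i * (r (n i ^ (CC i + i + 2)) + Nat.log 2 (n i + 1)) :=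
      le_trans (by gcongr) (hβ2 i _)
    have h7 : i + 2 ≤ (i + 2) * (r (n i ^ (CC i + i + 2)) + Nat.log 2 (n i + 1)) :=
      Nat.le_mul_of_pos_right _ (by omega)
    have h8 := h2 i
    have h9 : (CC i + i + 2) * (r (n i ^ (CC i + i + 2)) + Nat.log 2 (n i + 1)) =
        CC i * (r (n i ^ (CC i + i + 2)) + Nat.log 2 (n i + 1)) +
        (i + 2) * (r (n i ^ (CC i + i + 2)) + Nat.log 2 (n i + 1)) := by ring
    rw [h9] at h8
    omega
  obtain ⟨A, hA1, hA2, hA3, hA4, hA5⟩ := b6 (n := n) (E := fun i => i + 1)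
    (R := fun i => r (lay (n i) (i + 3))) (D := fun i => i + 3) (β := β)
    (y := fun i => a (n i) + i + 1)
    (G := fun i => GE i (n i) (a (n i) + i))
    (fun i => by have := hni i; omega) hnn hβ1
    (fun i => by
      have h6 := hkey i
      omega)
    (fun i => by
      have h6 := hkey i
      have h7 : r (lay (n i) (i + 3)) + β i ≤ (i + 3) * (r (lay (n i) (i + 3)) + β i) :=
        Nat.le_mul_of_pos_left _ (by omega)
      exact ge_forced (h3 i _ (by omega) _ (by omega)).1)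
    (fun i => ge_local (h3 i 0 (Nat.zero_le _) _ (by have h6 := hkey i; omega)).2 (hvis i).2.1)
  refine ⟨orc A, b8 hr hsm (fun e => ?_) (fun i => le_rfl) hA1 hA2 hA3 hA4, ?_⟩
  · filter_upwards [eventually_ge_atTop e] with i hi
    omega
  · intro hE
    obtain ⟨c, B, hB, g, hg, heq⟩ := hE (WL (orc A)) (wl_mem _)
    obtain ⟨i, hi, hiB⟩ := exists_machine hB c
    have h9 : GE i (n i) (a (n i) + i) A := hA5 i
    have h10 : (g (n i)).length ≤ a (n i) + i := (hg (n i)).trans (by omega)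
    obtain ⟨x, hx, hx2⟩ := h9 (g (n i)) h10
    have h11 : x ∈ (WL (orc A))ᶜ ↔ pair x (g x.length) ∈ B := by
      rw [heq]
      rfl
    rw [hx, hiB, hx2, Set.mem_compl_iff] at h11
    tauto

end Pool.Agent.LibAV75
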