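import Pool.Agent.LibAV75.V3
import Pool.Agent.LibAV75.V4
import Pool.Agent.LibAV75.V5

/-!
Row V6: the oracle.
-/

namespace Pool.Agent.LibAV75

open Filter Function Pool.Agent.LibNexp Pool.Agent.LibBHN

private theorem V6_cnt_mono {n : ℕ} {P Q : List Bool → Prop} (h : ∀ x, P x → Q x) :
    cnt n P ≤ cnt n Q := by
  unfold cnt
  refine Finset.card_le_card fun m hm => ?_
  simp only [Finset.mem_filter] at hm ⊢
  exact ⟨hm.1, h _ hm.2⟩

/-- PLAN. As `negH` (B11.lean, proved; copy it). Stage `i`: a number `m i` with `s (m i) ≠ 0`,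
`CI i * (r (m i ^ CI i) + Nat.log 2 (m i + 1)) < m i` (frequently, `hs`), and everything which holds
eventually (`v5_size` at `m i + 1`, `2 ≤ m i`, `i ≤ m i`, the growth condition). `n i := m i + 1`,
`E i := i + 1`, `D i := i + 3`, `R i := r (lay (n i) (i + 3))`, `β i` from `v5_beta`, `j i := i`. `v3`
and `v4` give `A` with `H (orc A) r`. If `Inner (orc A) s`: apply it to `{x | true :: x ∈ WitLang}`
(`wlp_mem`): `N` inside the complement, `2 ^ s m * err ≤ 2 ^ m` for large `m`; `exists_machine` gives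
`i` large with `N` = language of machine `i`; `GI i (m i) A`: the first alternative contradicts
`N ⊆ complement`, the second gives `2 ^ m < 2 * err ≤ 2 ^ s m * err`. -/
theorem negI {r s : ℕ → ℕ} (hr : Monotone r)
    (hs : ∀ C : ℕ, ∃ᶠ n in atTop, s n ≠ 0 ∧ C * (r (n ^ C) + Nat.log 2 (n + 1)) < n) :
    ∃ O, H O r ∧ ¬ Inner O s := by
  have hgood : ∀ i b : ℕ, ∃ m ≥ b,
      (s m ≠ 0 ∧ CI i * (r (m ^ CI i) + Nat.log 2 (m + 1)) < m) ∧
      (∀ c ≤ m + 1, ft (m + 1) (i + 1) (i + 3) c + 2 ^ ex i (m + 1 - 1) < 2 ^ 2 ^ (m + 1)) := by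
    intro i b
    exact Filter.frequently_atTop.1 ((hs (CI i)).and_eventually
      ((tendsto_add_atTop_nat 1).eventually (v5_size i))) b
  choose f hf1 hf2 hf3 using hgood
  obtain ⟨m, hm0, hmS⟩ : ∃ m : ℕ → ℕ, m 0 = f 0 2 ∧
      ∀ i, m (i + 1) = f (i + 1) (max (i + 3) ((lay (m i + 1) (i + 3) + 1) ^ 2)) :=
    ⟨fun i => Nat.rec (f 0 2)
      (fun i m => f (i + 1) (max (i + 3) ((lay (m + 1) (i + 3) + 1) ^ 2))) i,
      rfl, fun _ => rfl⟩
  have hmi : ∀ i, i + 2 ≤ m i := by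
    intro i
    cases i with
    | zero => rw [hm0]; exact hf1 0 2
    | succ i =>
      rw [hmS]
      exact le_trans (le_max_left _ _) (hf1 (i + 1) _)
  have hmm : ∀ i, (lay (m i + 1) (i + 3) + 1) ^ 2 ≤ m (i + 1) := by
    intro i
    rw [hmS]
    exact le_trans (le_max_right _ _) (hf1 (i + 1) _)
  have h2 : ∀ i, s (m i) ≠ 0 ∧ CI i * (r (m i ^ CI i) + Nat.log 2 (m i + 1)) < m i := by
    intro i
    cases i with
    | zero => rw [hm0]; exact hf2 0 2
    | succ i => rw [hmS]; exact hf2 (i + 1) _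
  have h3 : ∀ i, ∀ c ≤ m i + 1,
      ft (m i + 1) (i + 1) (i + 3) c + 2 ^ ex i (m i + 1 - 1) < 2 ^ 2 ^ (m i + 1) := by
    intro i
    cases i with
    | zero => rw [hm0]; exact hf3 0 2
    | succ i => rw [hmS]; exact hf3 (i + 1) _
  have hsm : StrictMono fun i => m i + 1 := by
    refine strictMono_nat_of_lt_succ fun i => ?_
    have h5 := hmm i
    have h4 : m i + 1 ≤ lay (m i + 1) (i + 3) := by
      unfold lay
      exact Nat.le_self_pow (by positivity) _
    show m i + 1 < m (i + 1) + 1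
    nlinarith
  have hb : ∀ i, _ := fun i => v5_beta (i := i) (n := m i) (by have := hmi i; omega)
  choose β hβ1 hβ2 using fun i => (hb i).1
  have hkey : ∀ i, 8 ^ (i + 3) * (r (lay (m i + 1) (i + 3)) + β i + 4) + 5 < m i := by
    intro i
    have h5 : r (lay (m i + 1) (i + 3)) ≤ r (m i ^ CI i) := hr (hb i).2.1
    calc 8 ^ (i + 3) * (r (lay (m i + 1) (i + 3)) + β i + 4) + 5
        ≤ 8 ^ (i + 3) * (r (m i ^ CI i) + β i + 4) + 5 := by gcongr
      _ ≤ CI i * (r (m i ^ CI i) + Nat.log 2 (m i + 1)) := hβ2 i _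
      _ < m i := (h2 i).2
  obtain ⟨A, hA1, hA3, hA4, hA5⟩ := v3 (n := fun i => m i + 1) (E := fun i => i + 1)
    (R := fun i => r (lay (m i + 1) (i + 3))) (D := fun i => i + 3) (β := β) (j := fun i => i)
    (fun i => by omega) (fun i => (hmm i).trans (Nat.le_succ _)) hβ1
    (fun i => by
      have h6 := hkey i
      omega)
    (fun i => h3 i _ (by have h6 := hkey i; omega))
    (fun i => (hb i).2.2.1) (fun i => (hb i).2.2.2)
  refine ⟨orc A, v4 hr hsm (fun e => ?_) (fun i => le_rfl) hA1 hA3 hA4, ?_⟩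
  · filter_upwards [eventually_ge_atTop e] with i hi
    omega
  · intro hI
    obtain ⟨N, hN, hsub, hev⟩ := hI {x | true :: x ∈ WitLang (orc A)} (wlp_mem _)
    obtain ⟨m₀, hm₀⟩ := Filter.eventually_atTop.1 hev
    obtain ⟨i, hi, hiN⟩ := exists_machine hN m₀
    have h8 := hm₀ (m i) (by have := hmi i; omega)
    have h9 : GI i (m i) A := hA5 i
    rcases h9 with ⟨x, hx, hx1, hx2⟩ | h9
    · exact hsub ((hiN x).2 hx1) hx2
    · have h10 : cnt (m i) (fun x => ¬ AccE (orc A) i x ∧ true :: x ∉ WitLang (orc A)) ≤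
          err {x | true :: x ∈ WitLang (orc A)}ᶜ N (m i) := by
        refine V6_cnt_mono fun x hx h => ?_
        have h11 : x ∈ N := h.1 hx.2
        exact hx.1 ((hiN x).1 h11)
      have h12 : 2 ≤ 2 ^ s (m i) := by
        calc 2 = 2 ^ 1 := rfl
          _ ≤ 2 ^ s (m i) := Nat.pow_le_pow_right (by norm_num)
            (Nat.one_le_iff_ne_zero.2 (h2 i).1)
      have h13 : 2 * err {x | true :: x ∈ WitLang (orc A)}ᶜ N (m i) ≤
          2 ^ s (m i) * err {x | true :: x ∈ WitLang (orc A)}ᶜ N (m i) :=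
        Nat.mul_le_mul_right _ h12
      omega

end Pool.Agent.LibAV75
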