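import Pool.Agent.LibAV75.F2

/-!
Row V7: one-sided approximation where the two-sided one is exact; numbers.
-/

namespace Pool.Agent.LibAV75

open Filter Function Pool.Agent.LibNexp Pool.Agent.LibBHN

variable {O : List Bool → Bool}

theorem V7_cnt_zero {n : ℕ} {P : List Bool → Prop} (h : cnt n P = 0) {x : List Bool}
    (hx : x.length = n) : ¬ P x := by
  subst hx
  intro hP
  have := cnt_mem hP
  omega

theorem V7_cnt_none {n : ℕ} {P : List Bool → Prop} (h : ∀ x : List Bool, x.length = n → ¬ P x) :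
    cnt n P = 0 := by
  classical
  unfold cnt
  rw [Finset.filter_false_of_mem fun m _ => h _ (length_bits n m), Finset.card_empty]

/-- PLAN. Let `ρ n := (C + 1) * 2 * (r (n ^ (2 * (C + 1))) + log)` or similar (`ap_mul` with a larger
constant `C'`, `n < C' * (r (n ^ C') + Nat.log 2 (n + 1))` whenever `n ≤ C * (r (n ^ C) + Nat.log 2 (n + 1))`
and `n ≥ 1`): `Ap O False ρ`. For `A ∈ NEXP`: `N₀` with `2 ^ ρ * err ≤ 2 ^ n` (large `n`).
`N := {x | U |x| ∧ x ∈ N₀}`, `U n := cnt n (fun x => x ∈ A ∧ x ∈ N₀) = 0`, which is in NEXP by `p0`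
(`¬ U`: `∃ x` of this length in `A ∩ N₀`). `N ⊆ Aᶜ` always. For large `n`: if `s n = 0` nothing to
prove; otherwise `ρ n > n`, `err Aᶜ N₀ n = 0`, so `U n` and `N` has no error. -/
theorem inner_of_h {r s : ℕ → ℕ} (hr : Monotone r) (h8 : ∀ n, 8 ≤ r n) (h : H O r)
    (hs : ∃ C : ℕ, ∀ n ≥ C, s n = 0 ∨ n ≤ C * (r (n ^ C) + Nat.log 2 (n + 1))) : Inner O s := by
  obtain ⟨C, hC⟩ := hs
  have h1 : Ap O False r := h_iff.1 h
  have hM : More O := more_of_ap (fun m => le_trans (by norm_num) (h8 m)) h1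
  intro A hA
  obtain ⟨N₀, hN₀, -, hev⟩ := ap_mul hr h8 h1 (C + 1) A hA
  have hU : NEXP O fun e : Fin 2 → List Bool =>
      ∀ x : List Bool, x.length = (e 0).length → ¬ (x ∈ A ∧ x ∈ N₀) := by
    refine p0 hM (U := fun a _ => ∀ x : List Bool, x.length = a → ¬ (x ∈ A ∧ x ∈ N₀)) ?_
    have h2 : NEXP O fun e : Fin 2 → List Bool => ∃ x : List Bool,
        x.length = 1 * (e 0).length + 0 ∧ (x ∈ A ∧ x ∈ N₀) := by
      refine nexp_ex (R := fun e x => x.length = 1 * (e 0).length + 0 ∧ (x ∈ A ∧ x ∈ N₀))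
        (g := fun n => n) ?_ PolyB.id ?_
      · exact (nexp_lin 1 0 _ _).and ((nexp_mem hA _).and (nexp_mem hN₀ _))
      · rintro e x ⟨h3, -⟩
        have h4 := len_le_size e 0
        show x.length ≤ size e
        omega
    refine NEXP.congr h2 fun e => ?_
    constructor
    · rintro ⟨x, h3, h4⟩ h5
      exact h5 x (by omega) h4
    · intro h3
      push Not at h3
      obtain ⟨x, h4, h5, h6⟩ := h3
      exact ⟨x, by omega, h5, h6⟩
  refine ⟨{x | (∀ y : List Bool, y.length = x.length → ¬ (y ∈ A ∧ y ∈ N₀)) ∧ x ∈ N₀}, ?_, ?_, ?_⟩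
  · refine NEXP.congr ((NEXP.reindex hU ![(0 : Fin 1), 0]).and (nexp_mem hN₀ 0)) fun e => ?_
    exact Iff.rfl
  · rintro x ⟨h2, h3⟩ h4
    exact h2 x rfl ⟨h4, h3⟩
  · filter_upwards [hev, eventually_ge_atTop (C + 1)] with n hn hCn
    rcases hC n (by omega) with h2 | h2
    · rw [h2, pow_zero, one_mul]
      exact cnt_le _ _
    · have h3 : n < (C + 1) * (r (n ^ (C + 1)) + Nat.log 2 (n + 1)) := by
        have h4 : n ^ C ≤ n ^ (C + 1) := Nat.pow_le_pow_right (by omega) (by omega)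
        have h5 := hr h4
        have h6 : C * (r (n ^ C) + Nat.log 2 (n + 1)) ≤
            C * (r (n ^ (C + 1)) + Nat.log 2 (n + 1)) := Nat.mul_le_mul_left _ (by omega)
        have h7 := h8 (n ^ (C + 1))
        rw [Nat.succ_mul]
        omega
      have h4 : err Aᶜ N₀ n = 0 := by
        by_contra h5
        have h6 : (2 : ℕ) ^ n < 2 ^ ((C + 1) * (r (n ^ (C + 1)) + Nat.log 2 (n + 1))) :=
          Nat.pow_lt_pow_right (by norm_num) h3
        have h7 := Nat.le_mul_of_pos_right (2 ^ ((C + 1) * (r (n ^ (C + 1)) + Nat.log 2 (n + 1))))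
          (Nat.pos_of_ne_zero h5)
        omega
      have h5 : ∀ z : List Bool, z.length = n → (z ∈ Aᶜ ↔ z ∈ N₀) := by
        intro z hz
        by_contra h6
        exact V7_cnt_zero h4 hz h6
      have h6 : err Aᶜ {x | (∀ y : List Bool, y.length = x.length → ¬ (y ∈ A ∧ y ∈ N₀)) ∧ x ∈ N₀}
          n = 0 := by
        refine V7_cnt_none fun z hz h7 => h7 ?_
        rw [h5 z hz]
        constructor
        · intro h8'
          refine ⟨fun y hy h9 => ?_, h8'⟩
          exact (h5 y (hy.trans hz)).2 h9.2 h9.1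
        · intro h8'
          exact h8'.2
      rw [h6, mul_zero]
      exact Nat.zero_le _

/-- PLAN. As `freq_of_not` (F3.lean). -/
theorem freq_of_not' {r s : ℕ → ℕ} (hr : Monotone r)
    (h : ¬ ∃ C : ℕ, ∀ n ≥ C, s n = 0 ∨ n ≤ C * (r (n ^ C) + Nat.log 2 (n + 1))) (C : ℕ) :
    ∃ᶠ n in atTop, s n ≠ 0 ∧ C * (r (n ^ C) + Nat.log 2 (n + 1)) < n := by
  rw [Filter.frequently_atTop]
  intro N
  by_contra hcon
  refine h ⟨max C N + 1, fun n hn => ?_⟩
  by_contra h1
  rw [not_or, not_le] at h1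
  refine hcon ⟨n, by omega, h1.1, lt_of_le_of_lt ?_ h1.2⟩
  have hn1 : 1 ≤ n := by omega
  have h2 : n ^ C ≤ n ^ (max C N + 1) := Nat.pow_le_pow_right hn1 (by omega)
  have h3 := hr h2
  exact Nat.mul_le_mul (by omega) (by omega)

/-- PLAN. As `freq_of_not` (F3.lean). -/
theorem freq_of_notE {r a : ℕ → ℕ} (hr : Monotone r)
    (h : ¬ ∃ C : ℕ, ∀ n ≥ C, n ≤ a n + C * (r (n ^ C) + Nat.log 2 (n + 1))) (C : ℕ) :
    ∃ᶠ n in atTop, a n + C * (r (n ^ C) + Nat.log 2 (n + 1)) < n := by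
  rw [Filter.frequently_atTop]
  intro N
  by_contra hcon
  refine h ⟨max C N + 1, fun n hn => ?_⟩
  by_contra h1
  rw [not_le] at h1
  refine hcon ⟨n, by omega, lt_of_le_of_lt (Nat.add_le_add_left ?_ _) h1⟩
  have hn1 : 1 ≤ n := by omega
  have h2 : n ^ C ≤ n ^ (max C N + 1) := Nat.pow_le_pow_right hn1 (by omega)
  have h3 := hr h2
  exact Nat.mul_le_mul (by omega) (by omega)

end Pool.Agent.LibAV75
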