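import Pool.Agent.LibAV75.Main
import Pool.Agent.LibAV75.E2
import Pool.Agent.LibAV75.E4
import Pool.Agent.LibAV75.V6
import Pool.Agent.LibAV75.V7

/-!
Advice, and one-sided from two-sided approximation.
-/

namespace Pool.Agent.LibAV75

open Filter Function Pool.Agent.LibNexp Pool.Agent.LibBHN
open Pool.Agent.LibSpec30 (Enough)

theorem main3 {r a : ℕ → ℕ} (hr : Monotone r) (h8 : ∀ n, 8 ≤ r n) : List.TFAE [
    ∀ O, H O r → Enough O a,
    ∀ O, Inner O r → Enough O a,
    ∃ C : ℕ, ∀ n ≥ C, n ≤ a n + C * (r (n ^ C) + Nat.log 2 (n + 1))] := by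
  tfae_have 1 → 2 := fun h O h1 => h O <| by
    intro L hL
    obtain ⟨N, hN, -, h2⟩ := h1 L hL
    exact ⟨N, hN, h2⟩
  tfae_have 3 → 1 := by
    rintro ⟨C, hC⟩ O h
    have hmono : Monotone fun n => (C + 3) * (r (n ^ (C + 3)) + Nat.log 2 (n + 1)) := by
      intro m n hmn
      exact Nat.mul_le_mul_left _ (Nat.add_le_add (hr (Nat.pow_le_pow_left hmn _))
        (Nat.log_mono_right (by omega)))
    refine enough_of_ap hmono (fun n => ?_) (ap_mul hr h8 (h_iff.1 h) (C + 3)) ?_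
    · have h1 := h8 (n ^ (C + 3))
      nlinarith
    · filter_upwards [eventually_ge_atTop C, eventually_ge_atTop 1] with n hn hn1
      have h1 := hC n hn
      have h2 : r (n ^ C) ≤ r (n ^ (C + 3)) := hr (Nat.pow_le_pow_right hn1 (by omega))
      have h3 := h8 (n ^ (C + 3))
      have h4 : C * (r (n ^ C) + Nat.log 2 (n + 1)) ≤
          C * (r (n ^ (C + 3)) + Nat.log 2 (n + 1)) := Nat.mul_le_mul_left _ (by omega)
      have h5 : (C + 3) * (r (n ^ (C + 3)) + Nat.log 2 (n + 1)) =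
          C * (r (n ^ (C + 3)) + Nat.log 2 (n + 1)) +
            3 * (r (n ^ (C + 3)) + Nat.log 2 (n + 1)) := by ring
      omega
  tfae_have 2 → 3 := by
    intro h
    by_contra hcon
    obtain ⟨O, h1, h2⟩ := negE hr (freq_of_notE hr hcon)
    exact h2 (h O h1)
  tfae_finish

theorem main5 {r s : ℕ → ℕ} (hr : Monotone r) (h8 : ∀ n, 8 ≤ r n) :
    (∀ O, H O r → Inner O s) ↔
      ∃ C : ℕ, ∀ n ≥ C, s n = 0 ∨ n ≤ C * (r (n ^ C) + Nat.log 2 (n + 1)) := by
  constructor
  · intro h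
    by_contra hcon
    obtain ⟨O, h1, h2⟩ := negI hr (freq_of_not' hr hcon)
    exact h2 (h O h1)
  · exact fun h O h1 => inner_of_h hr h8 h1 h

end Pool.Agent.LibAV75
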