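import Pool.Agent.LibAV75.A3

/-!
Row A4: one layer: the good block.
-/

namespace Pool.Agent.LibAV75

variable {α ι γ : Type} [DecidableEq α] [DecidableEq ι] [DecidableEq γ]

open Classical in
/-- PLAN. Go through the blocks `b = 0, 1, 2, ...`. State before block `b`: `(Qb, Fb, Doneb)` with
`Q ⊆ Qb ⊆ Q ∪ ⋃ b' < b, Reg b'`, `Disjoint (Qb \ Q) F`, `F ⊆ Fb`, `Fb.card ≤ F.card + b * (Z.card * q)`,
`Doneb ⊆ Z`, and every `z ∈ Doneb` satisfies: `acc z Q''` for all `Q'' ⊇ Qb` with
`Disjoint (Q'' \ Qb) Fb`. Let `Zb := {z ∈ Z \ Doneb : ¬ Dead (acc z) Qb Fb (Reg b) (K * q)}`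
(`K := Z.card ^ 2 * q + 1`). If `2 ^ R * #{z ∈ Zb : gr z = g} ≤ N g` for all `g ∈ Γ`: stop with this
`b`; `Q' := Qb`, `D := Z \ Doneb \ Zb`, `F' := Fb ∪ ⋃ z ∈ D, G_z` (`G_z` from `Dead`, at most `K * q`
elements). Otherwise apply `a3` to `Zb` and continue with `Doneb ∪ Zb`.
If no block stops: the sets `Zb` are disjoint, and each `b < B` has some `g ∈ Γ` with
`N g + 1 ≤ 2 ^ R * #(Zb ∩ g)`; for fixed `g`, `∑ b, #(Zb ∩ g) ≤ N g`, so the number of such `b` is
`< 2 ^ R`; total `B < 2 ^ R * Γ.card` or `Γ = ∅` and `B = 0`: contradiction.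
Suggestion: first prove a lemma `for every `b`, either some block `< b` is good or there is a state
before block `b` with in addition: a family `Zf : ℕ → Finset ι` of pairwise disjoint subsets of `Z`,
`Zf b'` violating the inequality for every `b' < b`, `Doneb = ⋃ b' < b, Zf b'``, by induction on `b`. -/
theorem a4 (Z : Finset ι) (acc : ι → Finset α → Prop) {q : ℕ} (hc : ∀ z ∈ Z, Cert q (acc z))
    (Q F : Finset α) (Reg : ℕ → Finset α) (gr : ι → γ) (Γ : Finset γ) (hgr : ∀ z ∈ Z, gr z ∈ Γ)
    (N : γ → ℕ) (hN : ∀ g ∈ Γ, (Z.filter fun z => gr z = g).card ≤ N g) {R B : ℕ} (hB0 : 0 < B)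
    (hB : 2 ^ R * Γ.card ≤ B) (hdis : ∀ b < B, ∀ b' < b, Disjoint (Reg b) (Reg b')) :
    ∃ b < B, ∃ Q' F' D : Finset _, Q ⊆ Q' ∧ Q' ⊆ Q ∪ (Finset.range b).biUnion Reg ∧
      Disjoint (Q' \ Q) F ∧ F ⊆ F' ∧
      F'.card ≤ F.card + B * (Z.card * q) + Z.card * ((Z.card ^ 2 * q + 1) * q) ∧ D ⊆ Z ∧
      (∀ z ∈ D, ∀ P : Finset α, P ⊆ Reg b → Disjoint P F' → ¬ acc z (Q' ∪ P)) ∧
      ∀ g ∈ Γ, 2 ^ R * (Z.filter fun z => gr z = g ∧ z ∉ D ∧
        ¬ ∀ P : Finset α, P ⊆ Reg b → Disjoint P F' → acc z (Q' ∪ P)).card ≤ N g := by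
  by_contra hgood
  have hmain : ∀ b ≤ B, ∃ (Qb Fb : Finset α) (Done : Finset ι) (c : γ → ℕ),
      Q ⊆ Qb ∧ Qb ⊆ Q ∪ (Finset.range b).biUnion Reg ∧ Disjoint (Qb \ Q) F ∧ F ⊆ Fb ∧
      Fb.card ≤ F.card + b * (Z.card * q) ∧ Done ⊆ Z ∧
      (∀ z ∈ Done, ∀ Q'' : Finset α, Qb ⊆ Q'' → Disjoint (Q'' \ Qb) Fb → acc z Q'') ∧
      ∑ g ∈ Γ, c g = b ∧
      ∀ g ∈ Γ, c g * (N g + 1) ≤ 2 ^ R * (Done.filter fun z => gr z = g).card := by
    intro b
    induction b with
    | zero =>
      intro _
      exact ⟨Q, F, ∅, fun _ => 0, Finset.Subset.refl _, Finset.subset_union_left, by simp,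
        Finset.Subset.refl _, by simp, Finset.empty_subset _, by simp, by simp, by simp⟩
    | succ b ih =>
      intro hb
      obtain ⟨Qb, Fb, Done, c, h1, h2, h3, h4, h5, h6, h7, h8, h9⟩ := ih (by omega)
      obtain ⟨Zb, hZb⟩ : ∃ Zb, Zb = (Z \ Done).filter fun z =>
          ¬ Dead (acc z) Qb Fb (Reg b) ((Z.card ^ 2 * q + 1) * q) := ⟨_, rfl⟩
      have hZbZ : Zb ⊆ Z := by
        rw [hZb]
        exact (Finset.filter_subset _ _).trans Finset.sdiff_subset
      by_cases hstop : ∀ g ∈ Γ, 2 ^ R * (Zb.filter fun z => gr z = g).card ≤ N g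
      · -- the block is good
        exfalso
        apply hgood
        have hdead : ∀ z ∈ (Z \ Done) \ Zb, ∃ G : Finset α,
            G.card ≤ (Z.card ^ 2 * q + 1) * q ∧
            ∀ P : Finset α, P ⊆ Reg b → Disjoint P (Fb ∪ G) → ¬ acc z (Qb ∪ P) := by
          intro z hz
          rw [Finset.mem_sdiff, hZb, Finset.mem_filter, not_and, not_not] at hz
          exact hz.2 hz.1
        choose! G hG1 hG2 using hdead
        refine ⟨b, by omega, Qb, Fb ∪ ((Z \ Done) \ Zb).biUnion G, (Z \ Done) \ Zb, h1, h2, h3,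
          h4.trans Finset.subset_union_left, ?_, Finset.sdiff_subset.trans Finset.sdiff_subset,
          ?_, ?_⟩
        · have h10 : (((Z \ Done) \ Zb).biUnion G).card ≤
              Z.card * ((Z.card ^ 2 * q + 1) * q) := by
            refine (Finset.card_biUnion_le_card_mul _ _ _ hG1).trans ?_
            exact Nat.mul_le_mul_right _ (Finset.card_le_card
              (Finset.sdiff_subset.trans Finset.sdiff_subset))
          have h11 : b * (Z.card * q) ≤ B * (Z.card * q) := Nat.mul_le_mul_right _ (by omega)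
          have h12 := Finset.card_union_le Fb (((Z \ Done) \ Zb).biUnion G)
          omega
        · intro z hz P hP hPd
          refine hG2 z hz P hP (hPd.mono_right ?_)
          exact Finset.union_subset_union_right (Finset.subset_biUnion_of_mem G hz)
        · intro g hg
          refine le_trans (Nat.mul_le_mul_left _ (Finset.card_le_card ?_)) (hstop g hg)
          intro z hz
          rw [Finset.mem_filter] at hz ⊢
          obtain ⟨hz1, hz2, hz3, hz4⟩ := hz
          refine ⟨?_, hz2⟩
          by_contra hcon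
          by_cases hd : z ∈ Done
          · apply hz4
            intro P _ hPd
            refine h7 z hd (Qb ∪ P) Finset.subset_union_left ?_
            have h13 : (Qb ∪ P) \ Qb ⊆ P := by
              intro x hx
              rw [Finset.mem_sdiff, Finset.mem_union] at hx
              exact hx.1.resolve_left hx.2
            exact (hPd.mono_right Finset.subset_union_left).mono_left h13
          · exact hz3 (Finset.mem_sdiff.2 ⟨Finset.mem_sdiff.2 ⟨hz1, hd⟩, hcon⟩)
      · -- the block is not good: go on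
        push Not at hstop
        obtain ⟨g₀, hg₀, hlt⟩ := hstop
        have hK : Zb.card ^ 2 * q < Z.card ^ 2 * q + 1 :=
          Nat.lt_succ_of_le (Nat.mul_le_mul_right _
            (Nat.pow_le_pow_left (Finset.card_le_card hZbZ) 2))
        obtain ⟨Q', F', k1, k2, k3, k4, k5, k6⟩ := a3 Zb acc (fun z hz => hc z (hZbZ hz)) Qb Fb
          (Reg b) hK (fun z hz => by
            rw [hZb, Finset.mem_filter] at hz
            exact hz.2)
        have hdisj : Disjoint Done Zb := by
          rw [Finset.disjoint_right]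
          intro z hz
          rw [hZb, Finset.mem_filter, Finset.mem_sdiff] at hz
          exact hz.1.2
        refine ⟨Q', F', Done ∪ Zb, Function.update c g₀ (c g₀ + 1), h1.trans k1, ?_, ?_,
          h4.trans k4, ?_, Finset.union_subset h6 hZbZ, ?_, ?_, ?_⟩
        · refine k2.trans (Finset.union_subset (h2.trans ?_) ?_)
          · refine Finset.union_subset_union_right ?_
            exact Finset.biUnion_subset_biUnion_of_subset_left _
              (Finset.range_subset_range.2 (Nat.le_succ b))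
          · exact (Finset.subset_biUnion_of_mem Reg (Finset.mem_range.2 (Nat.lt_succ_self b))).trans
              Finset.subset_union_right
        · rw [Finset.disjoint_left]
          intro x hx hxF
          rw [Finset.mem_sdiff] at hx
          by_cases hxb : x ∈ Qb
          · exact Finset.disjoint_left.1 h3 (Finset.mem_sdiff.2 ⟨hxb, hx.2⟩) hxF
          · exact Finset.disjoint_left.1 k3 (Finset.mem_sdiff.2 ⟨hx.1, hxb⟩) (h4 hxF)
        · have h10 : Zb.card * q ≤ Z.card * q := Nat.mul_le_mul_right _ (Finset.card_le_card hZbZ)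
          calc F'.card ≤ Fb.card + Zb.card * q := k5
            _ ≤ (F.card + b * (Z.card * q)) + Z.card * q := Nat.add_le_add h5 h10
            _ = F.card + (b + 1) * (Z.card * q) := by ring
        · intro z hz Q'' hQ hQd
          rcases Finset.mem_union.1 hz with hz | hz
          · refine h7 z hz Q'' (k1.trans hQ) ?_
            rw [Finset.disjoint_left]
            intro x hx hxF
            rw [Finset.mem_sdiff] at hx
            by_cases hxb : x ∈ Q'
            · exact Finset.disjoint_left.1 k3 (Finset.mem_sdiff.2 ⟨hxb, hx.2⟩) hxF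
            · exact Finset.disjoint_left.1 hQd (Finset.mem_sdiff.2 ⟨hx.1, hxb⟩) (k4 hxF)
          · exact k6 z hz Q'' hQ hQd
        · rw [Finset.sum_update_of_mem hg₀]
          have h10 := Finset.add_sum_erase Γ c hg₀
          rw [← Finset.sdiff_singleton_eq_erase] at h10
          omega
        · intro g hg
          have h10 : ((Done ∪ Zb).filter fun z => gr z = g).card =
              (Done.filter fun z => gr z = g).card + (Zb.filter fun z => gr z = g).card := by
            rw [Finset.filter_union, Finset.card_union_of_disjoint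
              (Finset.disjoint_filter_filter hdisj)]
          rw [h10, Nat.mul_add (2 ^ R)]
          by_cases hgg : g = g₀
          · rw [hgg, Function.update_self]
            have h11 := h9 g₀ hg₀
            calc (c g₀ + 1) * (N g₀ + 1) = c g₀ * (N g₀ + 1) + (N g₀ + 1) := by ring
              _ ≤ _ := Nat.add_le_add h11 hlt
          · rw [Function.update_of_ne hgg]
            exact (h9 g hg).trans (Nat.le_add_right _ _)
  obtain ⟨Qb, Fb, Done, c, -, -, -, -, -, h6, -, h8, h9⟩ := hmain B le_rfl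
  have hlt : ∀ g ∈ Γ, c g < 2 ^ R := by
    intro g hg
    have h1 : (Done.filter fun z => gr z = g).card ≤ N g :=
      (Finset.card_le_card (Finset.filter_subset_filter _ h6)).trans (hN g hg)
    have h2 : c g * (N g + 1) ≤ 2 ^ R * N g := (h9 g hg).trans (Nat.mul_le_mul_left _ h1)
    by_contra hcon
    have h3 : 2 ^ R * (N g + 1) ≤ c g * (N g + 1) := Nat.mul_le_mul_right _ (not_lt.1 hcon)
    have h4 : 0 < 2 ^ R := by positivity
    have h5 : 2 ^ R * (N g + 1) = 2 ^ R * N g + 2 ^ R := by ring
    omega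
  rcases Finset.eq_empty_or_nonempty Γ with h0 | h0
  · rw [h0, Finset.sum_empty] at h8
    omega
  · have h1 : ∑ g ∈ Γ, c g < ∑ _g ∈ Γ, 2 ^ R := Finset.sum_lt_sum_of_nonempty h0 hlt
    rw [h8, Finset.sum_const, smul_eq_mul, mul_comm] at h1
    omega

end Pool.Agent.LibAV75
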