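import Pool.Agent.LibAV75.B1
import Pool.Agent.LibAV75.A4

/-!
Row B2: one layer.
-/

namespace Pool.Agent.LibAV75

open Filter Function Pool.Agent.LibNexp Pool.Agent.LibBHN

/-- The state of stage `n` after `l` layers: `K` the coded statements, `Q` the strings of witnesses
which have been added, `F` the protected strings, `I` the free strings `x`. The machines with number
`< E` are handled. -/
structure LState (n E R : ℕ) (A : Set (List Bool)) (l : ℕ) (K : Finset (ℕ × List Bool))
    (Q F I : Finset (List Bool)) : Prop where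
  K_lay : ∀ p ∈ K, n ≤ ex p.1 p.2.length ∧ ex p.1 p.2.length < lay n l
  Q_reg : ∀ s ∈ Q, ∃ x : List Bool, x.length = n ∧ [true] <+: x ∧ s ∈ fib x
  I_str : ∀ x ∈ I, x.length = n ∧ [true] <+: x
  free : ∀ x ∈ I, Disjoint (fib x) Q
  sound : ∀ p ∈ K, ∀ P : Finset (List Bool), P ⊆ I.biUnion fib → Disjoint P F →
    ¬ AccE (orc (A ∪ codes (K : Set (ℕ × List Bool)) ∪ ((Q ∪ P : Finset (List Bool)) :
      Set (List Bool)))) p.1 p.2
  few : ∀ e < E, ∀ m, n ≤ ex e m → ex e m < lay n l →
    2 ^ R * cnt m (fun z => (e, z) ∉ K ∧ ¬ ∀ P : Finset (List Bool), P ⊆ I.biUnion fib →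
      Disjoint P F → AccE (orc (A ∪ codes (K : Set (ℕ × List Bool)) ∪
        ((Q ∪ P : Finset (List Bool)) : Set (List Bool)))) e z) ≤ 2 ^ m

/-- The growth of the protected set in one layer. -/
def fb (E c L : ℕ) : ℕ :=
  2 ^ c * (E * 2 ^ L * 2 ^ L) + E * 2 ^ L * (((E * 2 ^ L) ^ 2 * 2 ^ L + 1) * 2 ^ L)

theorem B2_length_bits (m i : ℕ) : (bits m i).length = m := by
  exact length_bits m i

theorem B2_cnt_le {β : Type} {m : ℕ} {P : List Bool → Prop} (t : Finset β) (f : List Bool → β)
    (hf : Injective f) (h : ∀ z : List Bool, z.length = m → P z → f z ∈ t) : cnt m P ≤ t.card := by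
  classical
  unfold cnt
  refine Finset.card_le_card_of_injOn (fun i => f (bits m i)) ?_ ?_
  · intro i hi
    have hi' := Finset.mem_filter.1 (Finset.mem_coe.1 hi)
    exact h _ (B2_length_bits m i) hi'.2
  · intro i hi j hj hij
    have hi' := Finset.mem_range.1 (Finset.mem_filter.1 (Finset.mem_coe.1 hi)).1
    have hj' := Finset.mem_range.1 (Finset.mem_filter.1 (Finset.mem_coe.1 hj)).1
    rw [← val_bits hi', ← val_bits hj', hf hij]

theorem B2_cnt_mono {m : ℕ} {P P' : List Bool → Prop}
    (h : ∀ z : List Bool, z.length = m → P z → P' z) : cnt m P ≤ cnt m P' := by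
  classical
  unfold cnt
  refine Finset.card_le_card fun i hi => ?_
  rw [Finset.mem_filter] at hi ⊢
  exact ⟨hi.1, h _ (B2_length_bits m i) hi.2⟩

theorem B2_blocks {α : Type} [DecidableEq α] (c : ℕ) : ∀ (B : ℕ) (I : Finset α), B * c ≤ I.card →
    ∃ Y : ℕ → Finset α, (∀ b < B, Y b ⊆ I ∧ (Y b).card = c) ∧
      ∀ b < B, ∀ b' < b, Disjoint (Y b) (Y b') := by
  intro B
  induction B with
  | zero =>
    intro I _
    exact ⟨fun _ => ∅, by simp, by simp⟩
  | succ B ih =>
    intro I hI
    obtain ⟨Y0, hY0, hc0⟩ := Finset.exists_subset_card_eq (s := I) (n := c) (by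
      rw [Nat.succ_mul] at hI
      omega)
    have h1 : B * c ≤ (I \ Y0).card := by
      rw [Finset.card_sdiff_of_subset hY0, hc0]
      rw [Nat.succ_mul] at hI
      omega
    obtain ⟨Y, hY, hd⟩ := ih (I \ Y0) h1
    refine ⟨fun b => if b = B then Y0 else Y b, ?_, ?_⟩
    · intro b hb
      by_cases hbB : b = B
      · simp only [hbB, if_true]
        exact ⟨hY0, hc0⟩
      · simp only [hbB, if_false]
        obtain ⟨h2, h3⟩ := hY b (by omega)
        exact ⟨h2.trans Finset.sdiff_subset, h3⟩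
    · intro b hb b' hb'
      have hb'B : b' ≠ B := by omega
      by_cases hbB : b = B
      · simp only [hbB, if_true, hb'B, if_false]
        have h2 := (hY b' (by omega)).1
        exact (Finset.disjoint_sdiff (s := Y0) (t := I)).mono_right h2
      · simp only [hbB, hb'B, if_false]
        exact hd b (by omega) b' hb'

theorem B2_cert_mono {α : Type} [DecidableEq α] {q q' : ℕ} (hq : q ≤ q') {acc : Finset α → Prop}
    (h : Cert q acc) : Cert q' acc := by
  intro P hP
  obtain ⟨V, hV, h2⟩ := h P hP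
  exact ⟨V, hV.trans hq, h2⟩

theorem B2_strs_card (L : ℕ) : ((Finset.range L).biUnion strs).card ≤ 2 ^ L := by
  refine Finset.card_biUnion_le.trans ?_
  simp only [card_strs]
  have := Nat.geomSum_eq (m := 2) le_rfl L
  rw [this]
  simp

/-- PLAN. Put `L := lay n (l + 1)`, `B := 2 ^ (R + β)`.
* The items: `Z := {(e, z) : e < E, |z| < L, lay n l ≤ ex e |z| < L}` (a finset: product of
  `Finset.range E` and `(Finset.range L).biUnion strs`, filtered); `Z.card ≤ E * 2 ^ L`
  (`∑ m < L, 2 ^ m < 2 ^ L`, `card_strs`). `acc (e, z) T := AccE (orc (A ∪ codes K ∪ T)) e z` has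
  certificates of size `q := 2 ^ L` (`accE_cert`, monotone in `q`).
* The groups: `gr (e, z) := (e, |z|)`, `Γ := Finset.range E ×ˢ Finset.range L`, `Γ.card ≤ 2 ^ β`,
  `N (e, m) := 2 ^ m`.
* The blocks: pairwise disjoint subsets `Y b ⊆ I`, `b < B`, of cardinality exactly `2 ^ y`
  (possible as `2 ^ (y + (R + β)) ≤ I.card`; e.g. from an injection `Fin (B * 2 ^ y) → I`, i.e. a list
  of the elements of `I`, `Y b` = the elements number `b * 2 ^ y, ..., (b + 1) * 2 ^ y - 1`);
  `Reg b := (Y b).biUnion fib`; disjoint by `fib_disjoint`.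
* Apply `a4`: `b`, `Q'`, `F'`, `D`. Put `K' := K ∪ D`, `I' := Y b`. The strings of `Q' \ Q` lie in
  `Reg b'` with `b' < b`, so `fib x` is disjoint from `Q'` for `x ∈ Y b` (`free` and `fib_disjoint`).
* `sound` for `p ∈ D`: `a4`, and the codes of `D` are invisible to `p` (`code_far`: for `p' ∈ D`
  `(ex p' + 1) ^ 2 > lay n l ^ 2 = L > ex p`; use `length_code` and `accE_congr`). For `p ∈ K` (only if
  `n ≤ ex p < lay n l`): `sound` of the old state for the addition `P₁ := (Q' \ Q) ∪ P ⊆ I.biUnion fib`,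
  disjoint from `F`, and again the codes of `D` are invisible to `p` (`code_far`).
* `few` for `ex e m < lay n l`: the old `few`, the set gets smaller: if `AccE` for all old additions,
  then for all new ones (same `P₁`, codes of `D` invisible); `few` for `lay n l ≤ ex e m < L`: from `a4`
  (note `m < ex e m < L` by `le_ex`); turn the cardinality of the filter of `Z` into `cnt m` (injection
  `z ↦ (e, z)`; `cnt` counts the strings of length `m`, see LibBHN.CountA; a general lemma
  ``cnt m P ≤ t.card` if every string of length `m` with `P` is mapped injectively into `t`` is useful).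
* `Z.card ≤ E * 2 ^ L` gives the bound for `F'.card`. -/
theorem b2 {n E R β y l : ℕ} (hn : 1 ≤ n) {A : Set (List Bool)} {K : Finset (ℕ × List Bool)}
    {Q F I : Finset (List Bool)} (h : LState n E R A l K Q F I)
    (hβ : E * lay n (l + 1) ≤ 2 ^ β) (hI : 2 ^ (y + (R + β)) ≤ I.card) :
    ∃ (K' : Finset (ℕ × List Bool)) (Q' F' I' : Finset (List Bool)),
      LState n E R A (l + 1) K' Q' F' I' ∧ 2 ^ y ≤ I'.card ∧
      F'.card ≤ F.card + fb E (R + β) (lay n (l + 1)) := by
  classical
  set L : ℕ := lay n (l + 1) with hL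
  set L0 : ℕ := lay n l with hL0
  have hLL0 : L = L0 ^ 2 := lay_sq n l
  have hL0L : L0 ≤ L := lay_mono hn (Nat.le_succ l)
  have hnL0 : n ≤ L0 := by
    have h1 := lay_mono hn (Nat.zero_le l)
    have h2 : lay n 0 = n := by simp [lay]
    rw [h2] at h1
    exact h1
  set B : ℕ := 2 ^ (R + β) with hB
  set q : ℕ := 2 ^ L with hq
  set Z : Finset (ℕ × List Bool) := (Finset.range E ×ˢ (Finset.range L).biUnion strs).filter
    fun p => L0 ≤ ex p.1 p.2.length ∧ ex p.1 p.2.length < L with hZ
  have hZmem : ∀ p : ℕ × List Bool, p ∈ Z ↔ p.1 < E ∧ L0 ≤ ex p.1 p.2.length ∧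
      ex p.1 p.2.length < L := by
    intro p
    rw [hZ, Finset.mem_filter, Finset.mem_product, Finset.mem_range, Finset.mem_biUnion]
    constructor
    · rintro ⟨⟨h1, -⟩, h2⟩
      exact ⟨h1, h2⟩
    · rintro ⟨h1, h2⟩
      refine ⟨⟨h1, p.2.length, ?_, mem_strs.2 rfl⟩, h2⟩
      rw [Finset.mem_range]
      exact (le_ex p.1 p.2.length).trans h2.2
  have hZcard : Z.card ≤ E * 2 ^ L := by
    refine (Finset.card_filter_le _ _).trans ?_
    rw [Finset.card_product, Finset.card_range]
    exact Nat.mul_le_mul_left _ (B2_strs_card L)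
  set acc : ℕ × List Bool → Finset (List Bool) → Prop := fun p T =>
    AccE (orc (A ∪ codes (K : Set (ℕ × List Bool)) ∪ (T : Set (List Bool)))) p.1 p.2 with hacc
  have hcert : ∀ z ∈ Z, Cert q (acc z) := by
    intro z hz
    have h1 := ((hZmem z).1 hz).2.2
    exact B2_cert_mono (Nat.pow_le_pow_right (by norm_num) h1.le)
      (accE_cert (A ∪ codes (K : Set (ℕ × List Bool))) z.1 z.2)
  set gr : ℕ × List Bool → ℕ × ℕ := fun p => (p.1, p.2.length) with hgr
  set Γ : Finset (ℕ × ℕ) := Finset.range E ×ˢ Finset.range L with hΓ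
  have hgrΓ : ∀ z ∈ Z, gr z ∈ Γ := by
    intro z hz
    obtain ⟨h1, h2, h3⟩ := (hZmem z).1 hz
    rw [hΓ, hgr, Finset.mem_product, Finset.mem_range, Finset.mem_range]
    exact ⟨h1, (le_ex z.1 z.2.length).trans h3⟩
  have hN : ∀ g ∈ Γ, (Z.filter fun z => gr z = g).card ≤ (fun g : ℕ × ℕ => 2 ^ g.2) g := by
    intro g _
    show (Z.filter fun z => gr z = g).card ≤ 2 ^ g.2
    rw [← card_strs g.2]
    refine Finset.card_le_card_of_injOn (fun z => z.2) ?_ ?_
    · intro z hz
      have hz' := (Finset.mem_filter.1 (Finset.mem_coe.1 hz)).2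
      rw [Finset.mem_coe, mem_strs, ← hz']
    · intro z hz z' hz' hzz
      have h1 := (Finset.mem_filter.1 (Finset.mem_coe.1 hz)).2
      have h2 := (Finset.mem_filter.1 (Finset.mem_coe.1 hz')).2
      refine Prod.ext ?_ hzz
      have h3 : (gr z).1 = (gr z').1 := by rw [h1, h2]
      exact h3
  have hΓB : 2 ^ R * Γ.card ≤ B := by
    rw [hΓ, Finset.card_product, Finset.card_range, Finset.card_range, hB, pow_add]
    exact Nat.mul_le_mul_left _ hβ
  obtain ⟨Y, hY, hYd⟩ := B2_blocks (2 ^ y) B I (by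
    rw [hB, ← pow_add, Nat.add_comm]
    exact hI)
  set Reg : ℕ → Finset (List Bool) := fun b => (Y b).biUnion fib with hReg
  have hfd : ∀ x ∈ I, ∀ x' ∈ I, x ≠ x' → Disjoint (fib x) (fib x') := by
    intro x hx x' hx' hne
    exact fib_disjoint (by rw [(h.I_str x hx).1, (h.I_str x' hx').1]) hne
  have hdis : ∀ b < B, ∀ b' < b, Disjoint (Reg b) (Reg b') := by
    intro b hb b' hb'
    rw [Finset.disjoint_left]
    intro s hs hs'
    obtain ⟨x, hx, hxs⟩ := Finset.mem_biUnion.1 hs
    obtain ⟨x', hx', hxs'⟩ := Finset.mem_biUnion.1 hs'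
    have hne : x ≠ x' := by
      rintro rfl
      exact Finset.disjoint_left.1 (hYd b hb b' hb') hx hx'
    exact Finset.disjoint_left.1 (hfd x ((hY b hb).1 hx) x' ((hY b' (hb'.trans hb)).1 hx') hne)
      hxs hxs'
  obtain ⟨b, hb, Q', F', D, hQQ, hQreg, hQF, hFF, hFcard, hDZ, hD, hfew⟩ :=
    a4 Z acc hcert Q F Reg gr Γ hgrΓ (fun g : ℕ × ℕ => 2 ^ g.2) hN (R := R) (B := B)
      (by rw [hB]; positivity) hΓB hdis
  have hYI : Y b ⊆ I := (hY b hb).1
  have hRegI : ∀ b' < B, Reg b' ⊆ I.biUnion fib := by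
    intro b' hb' s hs
    rw [hReg] at hs
    obtain ⟨x, hx, hxs⟩ := Finset.mem_biUnion.1 hs
    exact Finset.mem_biUnion.2 ⟨x, (hY b' hb').1 hx, hxs⟩
  -- invisible codes
  have hinv : ∀ (e : ℕ) (z : List Bool) (T : Set (List Bool)), ex e z.length < L →
      (AccE (orc (A ∪ codes ((K ∪ D : Finset (ℕ × List Bool)) : Set (ℕ × List Bool)) ∪ T)) e z ↔
        AccE (orc (A ∪ codes (K : Set (ℕ × List Bool)) ∪ T)) e z) := by
    intro e z T hez
    refine accE_congr fun s hs => ?_
    constructor
    · rintro ((h1 | ⟨e', z', h1, rfl⟩) | h1)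
      · exact Or.inl (Or.inl h1)
      · rw [Finset.coe_union] at h1
        rcases h1 with h1 | h1
        · exact Or.inl (Or.inr ⟨e', z', h1, rfl⟩)
        · exfalso
          have h2 := ((hZmem _).1 (hDZ (Finset.mem_coe.1 h1))).2.1
          have h3 := length_code e' z'
          have h4 : 2 ^ (ex e z.length + 1) ≤ 2 ^ (ex e' z'.length + 1) ^ 2 := by
            apply Nat.pow_le_pow_right (by norm_num)
            have h5 : (L0 + 1) ^ 2 ≤ (ex e' z'.length + 1) ^ 2 :=
              Nat.pow_le_pow_left (by simpa using h2) 2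
            have h6 : L ≤ (L0 + 1) ^ 2 := by
              rw [hLL0]
              exact Nat.pow_le_pow_left (Nat.le_succ _) 2
            omega
          omega
      · exact Or.inr h1
    · rintro ((h1 | ⟨e', z', h1, rfl⟩) | h1)
      · exact Or.inl (Or.inl h1)
      · refine Or.inl (Or.inr ⟨e', z', ?_, rfl⟩)
        rw [Finset.coe_union]
        exact Or.inl h1
      · exact Or.inr h1
  -- old additions
  have hold : ∀ P : Finset (List Bool), P ⊆ Reg b → Disjoint P F' →
      (Q' \ Q) ∪ P ⊆ I.biUnion fib ∧ Disjoint ((Q' \ Q) ∪ P) F ∧ Q ∪ ((Q' \ Q) ∪ P) = Q' ∪ P := by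
    intro P hP hPF
    refine ⟨?_, ?_, ?_⟩
    · apply Finset.union_subset
      · intro s hs
        obtain ⟨hs1, hs2⟩ := Finset.mem_sdiff.1 hs
        rcases Finset.mem_union.1 (hQreg hs1) with h1 | h1
        · exact absurd h1 hs2
        · obtain ⟨b', hb', h2⟩ := Finset.mem_biUnion.1 h1
          exact hRegI b' ((Finset.mem_range.1 hb').trans hb) h2
      · exact hP.trans (hRegI b hb)
    · rw [Finset.disjoint_union_left]
      exact ⟨hQF, hPF.mono_right hFF⟩
    · rw [← Finset.union_assoc, Finset.union_sdiff_of_subset hQQ]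
  refine ⟨K ∪ D, Q', F', Y b, ?_, (hY b hb).2.ge, ?_⟩
  · refine ⟨?_, ?_, ?_, ?_, ?_, ?_⟩
    · intro p hp
      rcases Finset.mem_union.1 hp with h1 | h1
      · obtain ⟨h2, h3⟩ := h.K_lay p h1
        exact ⟨h2, h3.trans_le hL0L⟩
      · obtain ⟨-, h2, h3⟩ := (hZmem p).1 (hDZ h1)
        exact ⟨hnL0.trans h2, h3⟩
    · intro s hs
      rcases Finset.mem_union.1 (hQreg hs) with h1 | h1
      · exact h.Q_reg s h1
      · obtain ⟨b', hb', h2⟩ := Finset.mem_biUnion.1 h1
        obtain ⟨x, hx, hxs⟩ := Finset.mem_biUnion.1 (hRegI b' ((Finset.mem_range.1 hb').trans hb) h2)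
        exact ⟨x, (h.I_str x hx).1, (h.I_str x hx).2, hxs⟩
    · intro x hx
      exact h.I_str x (hYI hx)
    · intro x hx
      rw [Finset.disjoint_left]
      intro s hs hsQ
      rcases Finset.mem_union.1 (hQreg hsQ) with h1 | h1
      · exact Finset.disjoint_left.1 (h.free x (hYI hx)) hs h1
      · obtain ⟨b', hb', h2⟩ := Finset.mem_biUnion.1 h1
        have h3 := hdis b hb b' (Finset.mem_range.1 hb')
        refine Finset.disjoint_left.1 h3 ?_ h2
        exact Finset.mem_biUnion.2 ⟨x, hx, hs⟩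
    · intro p hp P hP hPF
      have hpL : ex p.1 p.2.length < L := by
        rcases Finset.mem_union.1 hp with h1 | h1
        · exact (h.K_lay p h1).2.trans_le hL0L
        · exact ((hZmem p).1 (hDZ h1)).2.2
      rw [hinv p.1 p.2 _ hpL]
      rcases Finset.mem_union.1 hp with h1 | h1
      · obtain ⟨h2, h3, h4⟩ := hold P hP hPF
        have h5 := h.sound p h1 _ h2 h3
        rw [h4] at h5
        exact h5
      · exact hD p h1 P hP hPF
    · intro e he m hm1 hm2
      by_cases hcase : ex e m < L0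
      · refine le_trans (Nat.mul_le_mul_left _ ?_) (h.few e he m hm1 hcase)
        apply B2_cnt_mono
        rintro z hz ⟨h1, h2⟩
        refine ⟨fun h3 => h1 (Finset.mem_union_left _ h3), fun h3 => h2 ?_⟩
        intro P hP hPF
        rw [hinv e z _ (by rw [hz]; exact hm2)]
        obtain ⟨h4, h5, h6⟩ := hold P hP hPF
        have h7 := h3 _ h4 h5
        rw [h6] at h7
        exact h7
      · push Not at hcase
        have hmL : m < L := (le_ex e m).trans hm2
        have h1 := hfew (e, m) (by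
          rw [hΓ, Finset.mem_product, Finset.mem_range, Finset.mem_range]
          exact ⟨he, hmL⟩)
        refine le_trans (Nat.mul_le_mul_left _ ?_) h1
        refine B2_cnt_le _ (fun z => (e, z)) (fun a b hab => (Prod.mk.injEq _ _ _ _ ▸ hab).2) ?_
        rintro z hz ⟨h2, h3⟩
        rw [Finset.mem_filter]
        refine ⟨(hZmem _).2 ⟨he, ?_, ?_⟩, ?_, ?_, ?_⟩
        · show L0 ≤ ex e z.length
          rw [hz]; exact hcase
        · show ex e z.length < L
          rw [hz]; exact hm2
        · show (e, z.length) = (e, m)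
          rw [hz]
        · exact fun h4 => h2 (Finset.mem_union_right _ h4)
        · intro h4
          apply h3
          intro P hP hPF
          rw [hinv e z _ (by rw [hz]; exact hm2)]
          exact h4 P hP hPF
  · refine hFcard.trans ?_
    rw [Nat.add_assoc]
    apply Nat.add_le_add_left
    unfold fb
    rw [hB]
    gcongr

end Pool.Agent.LibAV75
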