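import Pool.Agent.LibAV75.W6
import Pool.Agent.LibAV75.B2

/-!
Row V1: the layers of a stage of the two-sided construction.
-/

namespace Pool.Agent.LibAV75

open Filter Function Pool.Agent.LibNexp Pool.Agent.LibBHN

/-- The strings of length `ν` starting with `true`. -/
def Xs (ν : ℕ) : Finset (List Bool) := (strs (ν - 1)).image fun x => true :: x

theorem mem_Xs {ν : ℕ} (hν : 1 ≤ ν) {x : List Bool} : x ∈ Xs ν ↔ x.length = ν ∧ [true] <+: x := by
  unfold Xs
  rw [Finset.mem_image]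
  constructor
  · rintro ⟨y, hy, rfl⟩
    rw [mem_strs] at hy
    refine ⟨?_, y, rfl⟩
    rw [List.length_cons, hy]
    omega
  · rintro ⟨h1, y, rfl⟩
    refine ⟨y, ?_, rfl⟩
    rw [mem_strs]
    rw [List.length_append, List.length_singleton] at h1
    omega

theorem card_Xs (ν : ℕ) : (Xs ν).card = 2 ^ (ν - 1) := by
  unfold Xs
  rw [Finset.card_image_of_injective _ (fun a b hab => List.tail_eq_of_cons_eq hab), card_strs]

/-- The state of stage `ν` after all layers: `K` the coded statements, `Q` the strings of witnesses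
which have been added, `F` the protected strings, `Φ` the forbidden `x`. -/
structure TState (ν E R D : ℕ) (A : Set (List Bool)) (K : Finset (ℕ × List Bool))
    (Q F Φ : Finset (List Bool)) : Prop where
  K_lay : ∀ p ∈ K, ν ≤ ex p.1 p.2.length ∧ ex p.1 p.2.length < lay ν D
  Q_reg : Q ⊆ (Xs ν).biUnion fib
  used : ((Xs ν).filter fun x => ¬ Disjoint (fib x) Q).card * 2 ^ 4 ≤ 2 ^ (ν - 1)
  forb : Φ.card * 2 ^ 4 ≤ 2 ^ (ν - 1)
  appr : ∀ P : Finset (List Bool), Mv (Xs ν) fib Q Φ P → Disjoint P F →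
    ∀ e < E, ∀ m, ν ≤ ex e m → ex e m < lay ν D →
      2 ^ R * cnt m (fun z => ¬ ((e, z) ∈ K ↔ ¬ AccE (orc (A ∪ codes (K : Set (ℕ × List Bool)) ∪
        ((Q ∪ P : Finset (List Bool)) : Set (List Bool)))) e z)) ≤ 2 ^ m

/-- The bound for the protected strings. -/
def ft (ν E D c : ℕ) : ℕ := 2 ^ c * ((D + 1) * pz (ν - 1) (2 ^ lay ν D) (E * 2 ^ lay ν D)) +
  D * pz (ν - 1) (2 ^ lay ν D) (E * 2 ^ lay ν D)

/-- The items of layer `l`. -/
def V1_Z (ν E D l : ℕ) : Finset (ℕ × List Bool) :=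
  (Finset.range E ×ˢ (Finset.range (lay ν D)).biUnion strs).filter
    fun p => l < D ∧ lay ν l ≤ ex p.1 p.2.length ∧ ex p.1 p.2.length < lay ν (l + 1)

theorem V1_mem {ν E D l : ℕ} (hν : 1 ≤ ν) {p : ℕ × List Bool} : p ∈ V1_Z ν E D l ↔
    p.1 < E ∧ l < D ∧ lay ν l ≤ ex p.1 p.2.length ∧ ex p.1 p.2.length < lay ν (l + 1) := by
  unfold V1_Z
  rw [Finset.mem_filter, Finset.mem_product, Finset.mem_range, Finset.mem_biUnion]
  constructor
  · rintro ⟨⟨h1, -⟩, h2⟩
    exact ⟨h1, h2⟩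
  · rintro ⟨h1, h2⟩
    refine ⟨⟨h1, p.2.length, ?_, mem_strs.2 rfl⟩, h2⟩
    rw [Finset.mem_range]
    have h3 : lay ν (l + 1) ≤ lay ν D := lay_mono hν h2.1
    have h4 := le_ex p.1 p.2.length
    omega

/-- The codes of the items of `K` which are in some layer. -/
def V1_K (ν E D : ℕ) (K : Finset (ℕ × List Bool)) : Set (ℕ × List Bool) :=
  {p | p ∈ K ∧ ∃ l, p ∈ V1_Z ν E D l}

/-- The game of a stage. -/
noncomputable def V1_G (ν E D : ℕ) (A : Set (List Bool)) :
    Game (List Bool) (List Bool) (ℕ × List Bool) (ℕ × ℕ) where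
  X := Xs ν
  fib := fib
  Z := V1_Z ν E D
  gr := fun p => (p.1, p.2.length)
  Gr := fun _ => Finset.range E ×ˢ Finset.range (lay ν D)
  N := fun c => 2 ^ c.2
  acc := fun K p T => AccE (orc (A ∪ codes (V1_K ν E D K) ∪ (T : Set (List Bool)))) p.1 p.2

theorem V1_lay0 (ν : ℕ) : lay ν 0 = ν := by simp [lay]

theorem V1_ok {ν E β D : ℕ} (A : Set (List Bool)) (hν : 1 ≤ ν) (hβ : E * lay ν D ≤ 2 ^ β) :
    (V1_G ν E D A).Ok (ν - 1) (2 ^ lay ν D) (E * 2 ^ lay ν D) β where
  cardX := card_Xs ν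
  dis := by
    intro x hx y hy hne
    have h1 := ((mem_Xs hν).1 hx).1
    have h2 := ((mem_Xs hν).1 hy).1
    exact fib_disjoint (h1.trans h2.symm) hne
  cert := by
    intro l z hz K
    obtain ⟨-, h1, -, h2⟩ := (V1_mem hν).1 hz
    have h3 : lay ν (l + 1) ≤ lay ν D := lay_mono hν h1
    exact B2_cert_mono (Nat.pow_le_pow_right (by norm_num) (h2.le.trans h3))
      (accE_cert (A ∪ codes (V1_K ν E D K)) z.1 z.2)
  sees := by
    have key : ∀ l, ∀ z ∈ V1_Z ν E D l, ∀ K K' : Finset (ℕ × List Bool),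
        (∀ l' < l, ∀ p ∈ V1_Z ν E D l', (p ∈ K ↔ p ∈ K')) → ∀ (T : Set (List Bool))
        (s : List Bool), s.length < 2 ^ (ex z.1 z.2.length + 1) →
        s ∈ A ∪ codes (V1_K ν E D K) ∪ T → s ∈ A ∪ codes (V1_K ν E D K') ∪ T := by
      rintro l z hz K K' hKK T s hs ((h1 | ⟨e', z', ⟨h1, l', h2⟩, rfl⟩) | h1)
      · exact Or.inl (Or.inl h1)
      · rcases Nat.lt_or_ge l' l with h3 | h3
        · exact Or.inl (Or.inr ⟨e', z', ⟨(hKK l' h3 _ h2).1 h1, l', h2⟩, rfl⟩)
        · exfalso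
          obtain ⟨-, -, -, h4⟩ := (V1_mem hν).1 hz
          obtain ⟨-, -, h5, -⟩ := (V1_mem hν).1 h2
          have h6 : lay ν l ≤ lay ν l' := lay_mono hν h3
          have h7 := length_code e' z'
          have h8 : 2 ^ (ex z.1 z.2.length + 1) ≤ 2 ^ (ex e' z'.length + 1) ^ 2 := by
            apply Nat.pow_le_pow_right (by norm_num)
            have h9 : (lay ν l + 1) ^ 2 ≤ (ex e' z'.length + 1) ^ 2 := by
              apply Nat.pow_le_pow_left
              have h10 : lay ν l' ≤ ex e' z'.length := h5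
              omega
            have h11 : lay ν (l + 1) ≤ (lay ν l + 1) ^ 2 := by
              rw [lay_sq]
              exact Nat.pow_le_pow_left (Nat.le_succ _) 2
            omega
          omega
      · exact Or.inr h1
    intro l z hz K K' hKK T
    exact accE_congr fun s hs => ⟨key l z hz K K' hKK _ s hs,
      key l z hz K' K (fun l' hl' p hp => (hKK l' hl' p hp).symm) _ s hs⟩
  disZ := by
    have key : ∀ l l', l < l' → Disjoint (V1_Z ν E D l) (V1_Z ν E D l') := by
      intro l l' hl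
      rw [Finset.disjoint_left]
      intro p hp hp'
      obtain ⟨-, -, -, h1⟩ := (V1_mem hν).1 hp
      obtain ⟨-, -, h2, -⟩ := (V1_mem hν).1 hp'
      have h3 : lay ν (l + 1) ≤ lay ν l' := lay_mono hν hl
      omega
    intro l l' hne
    rcases Nat.lt_or_gt_of_ne hne with h | h
    · exact key l l' h
    · exact (key l' l h).symm
  cardZ := by
    intro l
    refine (Finset.card_filter_le _ _).trans ?_
    rw [Finset.card_product, Finset.card_range]
    exact Nat.mul_le_mul_left _ (B2_strs_card _)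
  grZ := by
    intro l z hz
    obtain ⟨h0, h1, -, h2⟩ := (V1_mem hν).1 hz
    have h3 : lay ν (l + 1) ≤ lay ν D := lay_mono hν h1
    have h4 := le_ex z.1 z.2.length
    show (z.1, z.2.length) ∈ Finset.range E ×ˢ Finset.range (lay ν D)
    rw [Finset.mem_product, Finset.mem_range, Finset.mem_range]
    exact ⟨h0, by omega⟩
  cardG := by
    intro l
    show (Finset.range E ×ˢ Finset.range (lay ν D)).card ≤ 2 ^ β
    rw [Finset.card_product, Finset.card_range, Finset.card_range]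
    exact hβ
  posN := fun c => by
    show 0 < 2 ^ c.2
    positivity
  cardN := by
    intro l c _
    show ((V1_Z ν E D l).filter fun z => (z.1, z.2.length) = c).card ≤ 2 ^ c.2
    rw [← card_strs c.2]
    refine Finset.card_le_card_of_injOn (fun z => z.2) ?_ ?_
    · intro z hz
      have hz' := (Finset.mem_filter.1 (Finset.mem_coe.1 hz)).2
      rw [Finset.mem_coe, mem_strs, ← hz']
    · intro z hz z' hz' hzz
      have h1 := (Finset.mem_filter.1 (Finset.mem_coe.1 hz)).2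
      have h2 := (Finset.mem_filter.1 (Finset.mem_coe.1 hz')).2
      refine Prod.ext ?_ hzz
      have h3 : (z.1, z.2.length).1 = (z'.1, z'.2.length).1 := by rw [h1, h2]
      exact h3

theorem V1_layer {ν D k : ℕ} (hk : ν ≤ k) (hkD : k < lay ν D) :
    ∃ l < D, lay ν l ≤ k ∧ k < lay ν (l + 1) := by
  induction D with
  | zero =>
    rw [V1_lay0] at hkD
    omega
  | succ D ih =>
    rcases Nat.lt_or_ge k (lay ν D) with h | h
    · obtain ⟨l, hl, h1⟩ := ih h
      exact ⟨l, by omega, h1⟩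
    · exact ⟨D, by omega, h, hkD⟩

/-- PLAN. Apply `w6` to the game: `X := Xs ν`, `fib`, `Z l := {(e, z) | e < E,
lay ν l ≤ ex e |z| < lay ν (l + 1)}` for `l < D` and `∅` for `l ≥ D` (see the proof of `b2` in B2.lean for
these finsets, for the bound `E * 2 ^ lay ν D` of their cardinality and for the counting of groups),
`gr (e, z) := (e, |z|)`, `Gr l := Finset.range E ×ˢ Finset.range (lay ν D)`, `N (e, m) := 2 ^ m`,
`acc K (e, z) T := AccE (orc (A ∪ codes {p ∈ K | p in some layer} ∪ T)) e z`.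
`Game.Ok` with `n := ν - 1`, `q := 2 ^ lay ν D`, `zm := E * 2 ^ lay ν D`: `card_Xs`, `fib_disjoint`,
`accE_cert`; `sees`: the codes of `p` in the layers `≥ l` are invisible to the statements of layer `l`
(`(ex p + 1) ^ 2 > lay ν l ^ 2 = lay ν (l + 1)`, `length_code`, `accE_congr`), the others are the
same in `K` and `K'`. `K₀ := ∅`, so `K` consists of items of the layers. Every pair `(e, m)` with
`ν ≤ ex e m < lay ν D` lies in exactly one layer `l` (`lay ν 0 = ν`). -/
theorem v1 {ν E R β D : ℕ} (A : Set (List Bool)) (hν : 1 ≤ ν) (hβ : E * lay ν D ≤ 2 ^ β)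
    (hy : 8 ^ D * (R + β + 4) + 5 ≤ ν) :
    ∃ (K : Finset (ℕ × List Bool)) (Q F Φ : Finset (List Bool)),
      TState ν E R D A K Q F Φ ∧ F.card ≤ ft ν E D (8 ^ D * (R + β + 4)) := by
  obtain ⟨K, Q, F, Φ, hK, hQ, hused, hF, hΦ, happ⟩ := w6 (R := R) (D := D) (V1_ok A hν hβ) ∅
  have hKlay : ∀ p ∈ K, ∃ l, p ∈ V1_Z ν E D l := by
    intro p hp
    by_contra hcon
    push Not at hcon
    exact absurd ((hK p hcon).1 hp) (Finset.notMem_empty p)
  have hKK : V1_K ν E D K = (K : Set (ℕ × List Bool)) := by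
    ext p
    constructor
    · rintro ⟨h1, -⟩
      exact h1
    · intro h1
      exact ⟨h1, hKlay p h1⟩
  refine ⟨K, Q, F, Φ, ⟨?_, hQ, ?_, hΦ, ?_⟩, hF⟩
  · intro p hp
    obtain ⟨l, hl⟩ := hKlay p hp
    obtain ⟨-, h1, h2, h3⟩ := (V1_mem hν).1 hl
    have h4 : lay ν 0 ≤ lay ν l := lay_mono hν (Nat.zero_le l)
    have h5 : lay ν (l + 1) ≤ lay ν D := lay_mono hν h1
    rw [V1_lay0] at h4
    exact ⟨h4.trans h2, h3.trans_le h5⟩
  · have h1 : ((Xs ν).filter fun x => ¬ Disjoint (fib x) Q).card ≤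
        2 ^ (8 ^ D * (R + β + 4)) := by
      refine le_trans (le_of_eq ?_) hused
      congr
    calc ((Xs ν).filter fun x => ¬ Disjoint (fib x) Q).card * 2 ^ 4 ≤
        2 ^ (8 ^ D * (R + β + 4)) * 2 ^ 4 := Nat.mul_le_mul_right _ h1
      _ = 2 ^ (8 ^ D * (R + β + 4) + 4) := by rw [pow_add]
      _ ≤ 2 ^ (ν - 1) := Nat.pow_le_pow_right (by norm_num) (by omega)
  · intro P hP hPF e he m hm hmD
    obtain ⟨l, hl, h1, h2⟩ := V1_layer hm hmD
    have hmL : m < lay ν D := (le_ex e m).trans hmD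
    have h3 := happ P hP hPF l hl (e, m) (by
      show (e, m) ∈ Finset.range E ×ˢ Finset.range (lay ν D)
      rw [Finset.mem_product, Finset.mem_range, Finset.mem_range]
      exact ⟨he, hmL⟩)
    refine le_trans (Nat.mul_le_mul_left _ ?_) h3
    refine B2_cnt_le _ (fun z => (e, z)) (fun a b hab => (Prod.mk.injEq _ _ _ _ ▸ hab).2) ?_
    intro z hz h4
    simp only [Finset.mem_filter]
    refine ⟨(V1_mem hν).2 ⟨he, hl, ?_, ?_⟩, ?_, ?_⟩
    · show lay ν l ≤ ex e z.length
      rw [hz]; exact h1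
    · show ex e z.length < lay ν (l + 1)
      rw [hz]; exact h2
    · show (e, z.length) = (e, m)
      rw [hz]
    · show ¬ ((e, z) ∈ K ↔ ¬ AccE (orc (A ∪ codes (V1_K ν E D K) ∪
        ((Q ∪ P : Finset (List Bool)) : Set (List Bool)))) e z)
      rw [hKK]
      exact h4

end Pool.Agent.LibAV75
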