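import Pool.Agent.LibAV75.W1

/-!
Row W7: the end of a stage, one-sided approximation.
-/

namespace Pool.Agent.LibAV75

open Classical

variable {α ι : Type} [DecidableEq α] [DecidableEq ι]

/-- PLAN. If some free `x ∉ Φ` has `acc x Q`: let `V` be a certificate, `s ∈ fib x` not in `F ∪ V`,
`P := {s}`: the first alternative. Otherwise `P := ∅`: all free `x ∉ Φ` reject, and at most
`2 ^ n / 16 + 2 ^ n / 16` of the `x ∈ X` are not free or in `Φ`: the second alternative. -/
theorem w7 {X : Finset ι} {fib : ι → Finset α} {acc : ι → Finset α → Prop} {n q : ℕ}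
    (hX : X.card = 2 ^ n) (hc : ∀ x ∈ X, Cert q (acc x)) {Q F : Finset α} {Φ : Finset ι}
    (hF : ∀ x ∈ X, F.card + q < (fib x).card)
    (hu : (X.filter fun x => ¬ Disjoint (fib x) Q).card * 2 ^ 4 ≤ 2 ^ n)
    (hΦ : Φ.card * 2 ^ 4 ≤ 2 ^ n) :
    ∃ P : Finset α, Mv X fib Q Φ P ∧ Disjoint P F ∧
      ((∃ x ∈ X, acc x (Q ∪ P) ∧ ∃ s ∈ fib x, s ∈ Q ∪ P) ∨
        2 ^ n < 2 * (X.filter fun x => ¬ acc x (Q ∪ P) ∧ Disjoint (fib x) (Q ∪ P)).card) := by
  by_cases h : ∃ x ∈ X, Disjoint (fib x) Q ∧ x ∉ Φ ∧ acc x Q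
  · obtain ⟨x, hx, hd, hxΦ, hacc⟩ := h
    obtain ⟨V, hVq, hV⟩ := hc x hx Q hacc
    have hcard : (F ∪ V).card < (fib x).card := by
      have h1 := Finset.card_union_le F V
      have h2 := hF x hx
      omega
    obtain ⟨s, hs, hsn⟩ := Finset.exists_mem_notMem_of_card_lt_card hcard
    rw [Finset.mem_union, not_or] at hsn
    refine ⟨{s}, Or.inr ⟨x, ?_, hxΦ, ?_⟩, ?_, Or.inl ⟨x, hx, ?_, s, hs, ?_⟩⟩
    · unfold fr
      rw [Finset.mem_filter]
      exact ⟨hx, hd⟩
    · rw [Finset.singleton_subset_iff]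
      exact hs
    · rw [Finset.disjoint_singleton_left]
      exact hsn.1
    · refine hV _ fun v hv => ?_
      rw [Finset.mem_union, Finset.mem_singleton]
      constructor
      · rintro (h | h)
        · exact h
        · exact absurd (h ▸ hv) hsn.2
      · exact Or.inl
    · rw [Finset.mem_union, Finset.mem_singleton]
      exact Or.inr rfl
  · refine ⟨∅, Or.inl rfl, Finset.disjoint_empty_left F, Or.inr ?_⟩
    rw [Finset.union_empty]
    have hsub : X ⊆ (X.filter fun x => ¬ acc x Q ∧ Disjoint (fib x) Q) ∪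
        ((X.filter fun x => ¬ Disjoint (fib x) Q) ∪ Φ) := by
      intro x hx
      rw [Finset.mem_union, Finset.mem_union, Finset.mem_filter, Finset.mem_filter]
      by_cases h1 : Disjoint (fib x) Q
      · by_cases h2 : x ∈ Φ
        · exact Or.inr (Or.inr h2)
        · exact Or.inl ⟨hx, fun h3 => h ⟨x, hx, h1, h2, h3⟩, h1⟩
      · exact Or.inr (Or.inl ⟨hx, h1⟩)
    have h1 := Finset.card_le_card hsub
    have h2 := Finset.card_union_le (X.filter fun x => ¬ acc x Q ∧ Disjoint (fib x) Q)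
      ((X.filter fun x => ¬ Disjoint (fib x) Q) ∪ Φ)
    have h3 := Finset.card_union_le (X.filter fun x => ¬ Disjoint (fib x) Q) Φ
    rw [hX] at h1
    have h4 : 0 < 2 ^ n := Nat.pow_pos (by norm_num)
    omega

end Pool.Agent.LibAV75
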