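import Pool.Agent.LibAV75.V1
import Pool.Agent.LibAV75.W7
import Pool.Agent.LibAV75.B5

/-!
Row V2: one stage of the two-sided construction.
-/

namespace Pool.Agent.LibAV75

open Filter Function Pool.Agent.LibNexp Pool.Agent.LibBHN

/-- What one stage does. -/
structure StageT (n n' E R D : ℕ) (A A' : Set (List Bool)) : Prop where
  sub : A ⊆ A'
  new : ∀ s ∈ A', s ∉ A → ([true] <+: s ∧ s.length = n + 2 ^ n) ∨
    ∃ e z, s = code e z ∧ n ≤ ex e z.length ∧ ex e z.length < n'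
  exact : ∀ (e : ℕ) (z : List Bool), lay n D ≤ ex e z.length → ex e z.length < n' →
    (code e z ∈ A' ↔ ¬ AccE (orc A') e z)
  appr : ∀ e < E, ∀ m, n ≤ ex e m → ex e m < lay n D →
    2 ^ R * cnt m (fun z => ¬ (code e z ∈ A' ↔ ¬ AccE (orc A') e z)) ≤ 2 ^ m

/-- Machine number `j` accepts a string of length `n` in the language of the `x` with
`true :: x` in `WitLang`, or it rejects more than half of the strings although they are not in the
language. -/
def GI (j n : ℕ) (A : Set (List Bool)) : Prop :=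
  (∃ x : List Bool, x.length = n ∧ AccE (orc A) j x ∧ true :: x ∈ WitLang (orc A)) ∨
    2 ^ n < 2 * cnt n fun x => ¬ AccE (orc A) j x ∧ true :: x ∉ WitLang (orc A)

theorem V2_accLoc {A A' : Set (List Bool)} {M j : ℕ} {x : List Bool} (h1 : 2 ^ (ex j x.length + 1) ≤ M)
    (h : ∀ s : List Bool, s.length < M → (s ∈ A ↔ s ∈ A')) :
    AccE (orc A) j x ↔ AccE (orc A') j x :=
  accE_congr fun s hs => h s (lt_of_lt_of_le hs h1)

theorem V2_witLoc {A A' : Set (List Bool)} {M n : ℕ} {x : List Bool} (hx : x.length = n)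
    (h2 : n + 1 + 2 ^ (n + 1) < M) (h : ∀ s : List Bool, s.length < M → (s ∈ A ↔ s ∈ A')) :
    true :: x ∈ WitLang (orc A) ↔ true :: x ∈ WitLang (orc A') := by
  constructor
  · rintro ⟨w, hw, ho⟩
    refine ⟨w, hw, ?_⟩
    rw [orc_iff] at ho ⊢
    refine (h _ ?_).1 ho
    rw [List.length_append, hw, List.length_cons, hx]
    exact h2
  · rintro ⟨w, hw, ho⟩
    refine ⟨w, hw, ?_⟩
    rw [orc_iff] at ho ⊢
    refine (h _ ?_).2 ho
    rw [List.length_append, hw, List.length_cons, hx]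
    exact h2

theorem V2_cnt_congr {n : ℕ} {P Q : List Bool → Prop}
    (h : ∀ x : List Bool, x.length = n → (P x ↔ Q x)) : cnt n P = cnt n Q := by
  classical
  unfold cnt
  congr 1
  ext m
  constructor
  · intro hm
    have h1 := Finset.mem_filter.1 hm
    exact Finset.mem_filter.2 ⟨h1.1, (h _ (length_bits n m)).1 h1.2⟩
  · intro hm
    have h1 := Finset.mem_filter.1 hm
    exact Finset.mem_filter.2 ⟨h1.1, (h _ (length_bits n m)).2 h1.2⟩

theorem V2_cnt_mono {m : ℕ} {P Q : List Bool → Prop}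
    (h : ∀ z : List Bool, z.length = m → P z → Q z) : cnt m P ≤ cnt m Q := by
  classical
  unfold cnt
  refine Finset.card_le_card fun t ht => ?_
  rw [Finset.mem_filter] at ht ⊢
  exact ⟨ht.1, h _ (length_bits m t) ht.2⟩

/-- an injection into the strings of length `n` gives a lower bound for `cnt` -/
theorem V2_cnt_ge {n : ℕ} {P : List Bool → Prop} (T : Finset (List Bool))
    (h : ∀ x ∈ T, ∃ y : List Bool, x = true :: y ∧ y.length = n ∧ P y) : T.card ≤ cnt n P := by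
  classical
  unfold cnt
  refine Finset.card_le_card_of_injOn (fun x => val x.tail) ?_ ?_
  · intro x hx
    obtain ⟨y, rfl, hy, hP⟩ := h x (Finset.mem_coe.1 hx)
    subst hy
    refine Finset.mem_coe.2 (Finset.mem_filter.2 ⟨Finset.mem_range.2 (cnt_val_lt y), ?_⟩)
    show P (bits y.length (val y))
    rw [bits_val]
    exact hP
  · intro x hx x' hx' hxx
    obtain ⟨y, rfl, hy, -⟩ := h x (Finset.mem_coe.1 hx)
    obtain ⟨y', rfl, hy', -⟩ := h x' (Finset.mem_coe.1 hx')
    have h1 : val y = val y' := hxx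
    rw [val_inj (hy.trans hy'.symm) h1]

theorem V2_head {e : ℕ} {z : List Bool} (h : [true] <+: code e z) : False := by
  obtain ⟨l, hl⟩ := code_head e z
  rw [hl] at h
  obtain ⟨t, ht⟩ := h
  simp at ht

/-- PLAN. `accE_congr`; `WitLang` at length `n + 1` depends on strings of length
`n + 1 + 2 ^ (n + 1)`. -/
theorem gi_local {j n M : ℕ} (h1 : 2 ^ (ex j n + 1) ≤ M) (h2 : n + 1 + 2 ^ (n + 1) < M) :
    Local M (GI j n) := by
  intro A A' h hG
  rcases hG with ⟨x, hx, hacc, hw⟩ | hc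
  · left
    refine ⟨x, hx, ?_, ?_⟩
    · exact (V2_accLoc (by rw [hx]; exact h1) h).1 hacc
    · exact (V2_witLoc hx h2 h).1 hw
  · right
    have e1 : cnt n (fun x => ¬ AccE (orc A) j x ∧ true :: x ∉ WitLang (orc A)) =
        cnt n (fun x => ¬ AccE (orc A') j x ∧ true :: x ∉ WitLang (orc A')) := by
      refine V2_cnt_congr fun x hx => ?_
      rw [V2_accLoc (by rw [hx]; exact h1) h, V2_witLoc hx h2 h]
    rwa [e1] at hc

/-- PLAN. As `b5` (B5.lean, proved). `v1` gives `K`, `Q`, `F`, `Φ`. `w7` with `X := Xs ν`, `n := ν - 1`,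
`acc x T := AccE (orc (A ∪ codes K ∪ T)) j x.tail`, `q := 2 ^ ex j (ν - 1)` gives `P`;
`A₁ := A ∪ codes K ∪ (Q ∪ P)`; `GI j (ν - 1) A₁` (for `x' = true :: x ∈ Xs ν`:
`x' ∈ WitLang (orc A₁) ↔ ∃ s ∈ fib x', s ∈ Q ∪ P`, as no string of `fib x'` is in `A` or a code: `Old`,
`fib_head`). Then `b4` with `a := lay ν D`, `b := ν'` gives `K₂`, `A' := A₁ ∪ codes K₂`; `gi_local`
(`length_code`); `appr` from `TState.appr` (for `ex e |z| < lay ν D`: `code e z ∈ A' ↔ (e, z) ∈ K` as in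
`b5`, and `AccE (orc A') e z ↔ AccE (orc A₁) e z`). -/
theorem v2 {ν ν' E R β D j : ℕ} {A : Set (List Bool)} (hν : 1 ≤ ν) (hold : Old ν A)
    (hβ : E * lay ν D ≤ 2 ^ β) (hy : 8 ^ D * (R + β + 4) + 5 ≤ ν) (hν' : lay ν D ≤ ν')
    (hsize : ft ν E D (8 ^ D * (R + β + 4)) + 2 ^ ex j (ν - 1) < 2 ^ 2 ^ ν)
    (h1 : 2 ^ (ex j (ν - 1) + 1) ≤ 2 ^ (lay ν D + 1) ^ 2) (h2 : ν + 2 ^ ν < 2 ^ (lay ν D + 1) ^ 2) :
    ∃ A' : Set (List Bool), StageT ν ν' E R D A A' ∧ GI j (ν - 1) A' := by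
  classical
  obtain ⟨K, Q, F, Φ, hS, hF⟩ := v1 (R := R) A hν hβ hy
  set A₀ : Set (List Bool) := A ∪ codes (K : Set (ℕ × List Bool)) with hA₀
  have hX : ∀ x ∈ Xs ν, x.length = ν ∧ ∃ y, x = true :: y ∧ y.length = ν - 1 := by
    intro x hx
    obtain ⟨h3, h4⟩ := (mem_Xs hν).1 hx
    obtain ⟨y, rfl⟩ := h4
    refine ⟨h3, y, rfl, ?_⟩
    simp only [List.cons_append, List.nil_append, List.length_cons] at h3
    omega
  have hfree : ∀ x ∈ Xs ν, ∀ s ∈ fib x, s ∉ A₀ := by
    intro x hx s hs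
    obtain ⟨hxn, hxt⟩ := (mem_Xs hν).1 hx
    obtain ⟨hs1, hs2⟩ := fib_head hxt hs
    rintro (hsA | ⟨e, z, -, rfl⟩)
    · rcases hold s hsA with ⟨-, h⟩ | ⟨e, z, rfl, -⟩
      · rw [hs2, hxn] at h
        exact lt_irrefl _ h
      · exact V2_head hs1
    · exact V2_head hs1
  obtain ⟨P, hMv, hPF, hor⟩ := w7 (X := Xs ν) (fib := fib)
    (acc := fun x T => AccE (orc (A₀ ∪ ((T : Finset (List Bool)) : Set (List Bool)))) j x.tail)
    (n := ν - 1) (q := 2 ^ ex j (ν - 1)) (Q := Q) (F := F) (Φ := Φ) (card_Xs ν)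
    (fun x hx => by
      obtain ⟨-, y, rfl, hyn⟩ := hX x hx
      rw [← hyn]
      exact accE_cert A₀ j y)
    (fun x hx => by
      rw [card_fib, (hX x hx).1]
      exact lt_of_le_of_lt (Nat.add_le_add_right hF _) hsize)
    hS.used hS.forb
  set A₁ : Set (List Bool) := A₀ ∪ ((Q ∪ P : Finset (List Bool)) : Set (List Bool)) with hA₁
  -- membership in the language of witnesses
  have hwit : ∀ y : List Bool, true :: y ∈ Xs ν →
      (true :: y ∈ WitLang (orc A₁) ↔ ∃ s ∈ fib (true :: y), s ∈ Q ∪ P) := by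
    intro y hyX
    constructor
    · rintro ⟨w, hw, ho⟩
      rw [orc_iff] at ho
      have hs : (true :: y) ++ w ∈ fib (true :: y) := mem_fib.2 ⟨w, hw, rfl⟩
      refine ⟨_, hs, ?_⟩
      rcases ho with ho | ho
      · exact absurd ho (hfree _ hyX _ hs)
      · exact Finset.mem_coe.1 ho
    · rintro ⟨s, hs, hsQ⟩
      obtain ⟨w, hw, rfl⟩ := mem_fib.1 hs
      refine ⟨w, hw, ?_⟩
      rw [orc_iff]
      exact Or.inr (Finset.mem_coe.2 hsQ)
  have hGI : GI j (ν - 1) A₁ := by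
    rcases hor with ⟨x, hx, hacc, hs⟩ | hc
    · left
      obtain ⟨-, y, rfl, hyn⟩ := hX x hx
      exact ⟨y, hyn, hacc, (hwit y hx).2 hs⟩
    · right
      refine lt_of_lt_of_le hc (Nat.mul_le_mul_left 2 (V2_cnt_ge _ fun x hx => ?_))
      rw [Finset.mem_filter] at hx
      obtain ⟨-, y, rfl, hyn⟩ := hX x hx.1
      refine ⟨y, rfl, hyn, hx.2.1, ?_⟩
      rw [hwit y hx.1]
      rintro ⟨s, hs1, hs2⟩
      exact Finset.disjoint_left.1 hx.2.2 hs1 hs2
  obtain ⟨K₂, hK₂, hK₂'⟩ := b4 A₁ (lay ν D) ν'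
  have hlay : ν ≤ lay ν D := by
    have h1 := lay_mono hν (Nat.zero_le D)
    have h2 : lay ν 0 = ν := by simp [lay]
    rwa [h2] at h1
  -- strings of witnesses
  have hQP : ∀ s ∈ Q ∪ P, [true] <+: s ∧ s.length = ν + 2 ^ ν := by
    have hreg : ∀ x ∈ Xs ν, ∀ s ∈ fib x, [true] <+: s ∧ s.length = ν + 2 ^ ν := by
      intro x hx s hs
      obtain ⟨hxn, hxt⟩ := (mem_Xs hν).1 hx
      obtain ⟨h3, h4⟩ := fib_head hxt hs
      rw [hxn] at h4
      exact ⟨h3, h4⟩
    intro s hs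
    rcases Finset.mem_union.1 hs with hs | hs
    · obtain ⟨x, hx, hsx⟩ := Finset.mem_biUnion.1 (hS.Q_reg hs)
      exact hreg x hx s hsx
    · rcases hMv with rfl | ⟨x, hx, -, hPx⟩
      · exact absurd hs (Finset.notMem_empty _)
      · exact hreg x (Finset.mem_filter.1 hx).1 s (hPx hs)
  -- statements of small exponent do not see the codes of `K₂`
  have hsee : ∀ (e : ℕ) (z : List Bool), ex e z.length < lay ν D →
      (AccE (orc (A₁ ∪ codes K₂)) e z ↔ AccE (orc A₁) e z) := by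
    intro e z hez
    refine accE_congr fun s hs => ?_
    constructor
    · rintro (h | ⟨e', z', hK, rfl⟩)
      · exact h
      · have h1 := code_far (e' := e') (z' := z') (e := e) (m := z.length)
          (hez.le.trans (hK₂ _ hK).1)
        exact absurd hs (not_lt.2 h1)
    · exact fun h => Or.inl h
  have hmemK : ∀ (e : ℕ) (z : List Bool), ν ≤ ex e z.length → code e z ∈ A₁ ∪ codes K₂ →
      (e, z) ∈ K ∨ (e, z) ∈ K₂ := by
    intro e z hez hmem
    rcases hmem with (((h | ⟨e', z', hK, h⟩) | h) | ⟨e', z', hK, h⟩)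
    · rcases hold _ h with ⟨h1, -⟩ | ⟨e', z', h1, h2⟩
      · exact (V2_head h1).elim
      · obtain ⟨rfl, rfl⟩ := code_injective h1
        omega
    · obtain ⟨rfl, rfl⟩ := code_injective h
      exact Or.inl hK
    · exact (V2_head (hQP _ (Finset.mem_coe.1 h)).1).elim
    · obtain ⟨rfl, rfl⟩ := code_injective h
      exact Or.inr hK
  refine ⟨A₁ ∪ codes K₂, ⟨?_, ?_, ?_, ?_⟩, ?_⟩
  · exact fun s hs => Or.inl (Or.inl (Or.inl hs))
  · rintro s (((h | ⟨e, z, hK, h⟩) | h) | ⟨e, z, hK, h⟩) hsA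
    · exact absurd h hsA
    · have h1 := hS.K_lay _ (Finset.mem_coe.1 hK)
      exact Or.inr ⟨e, z, h, h1.1, h1.2.trans_le hν'⟩
    · exact Or.inl (hQP s (Finset.mem_coe.1 h))
    · have h1 := hK₂ _ hK
      exact Or.inr ⟨e, z, h, hlay.trans h1.1, h1.2⟩
  · intro e z h1 h2
    constructor
    · intro hmem
      rcases hmemK e z (hlay.trans h1) hmem with hK | hK
      · have h3 := hS.K_lay _ hK
        simp only at h3
        omega
      · exact (hK₂' e z h1 h2).1 hK
    · intro hacc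
      exact Or.inr ⟨e, z, (hK₂' e z h1 h2).2 hacc, rfl⟩
  · intro e he m h1 h2
    have hle : cnt m (fun z => ¬ (code e z ∈ A₁ ∪ codes K₂ ↔ ¬ AccE (orc (A₁ ∪ codes K₂)) e z)) ≤
        cnt m (fun z => ¬ ((e, z) ∈ K ↔ ¬ AccE (orc (A ∪ codes (K : Set (ℕ × List Bool)) ∪
          ((Q ∪ P : Finset (List Bool)) : Set (List Bool)))) e z)) := by
      refine V2_cnt_mono fun z hz hzz hK => hzz ?_
      have h3 : code e z ∈ A₁ ∪ codes K₂ ↔ (e, z) ∈ K := by
        constructor
        · intro hmem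
          rcases hmemK e z (by rw [hz]; exact h1) hmem with hK | hK
          · exact hK
          · have h4 := (hK₂ _ hK).1
            simp only at h4
            rw [hz] at h4
            omega
        · intro hK
          exact Or.inl (Or.inl (Or.inr ⟨e, z, hK, rfl⟩))
      rw [h3, hsee e z (by rw [hz]; exact h2)]
      exact hK
    exact le_trans (Nat.mul_le_mul_left _ hle) (hS.appr P hMv hPF e he m h1 h2)
  · refine gi_local (M := 2 ^ (lay ν D + 1) ^ 2) h1 ?_ A₁ _ (fun s hs => ?_) hGI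
    · rw [Nat.sub_add_cancel hν]
      exact h2
    · constructor
      · exact fun h => Or.inl h
      · rintro (h | ⟨e, z, hK, rfl⟩)
        · exact h
        · have h3 := length_code e z
          have h4 : 2 ^ (lay ν D + 1) ^ 2 ≤ 2 ^ (ex e z.length + 1) ^ 2 :=
            Nat.pow_le_pow_right (by norm_num)
              (Nat.pow_le_pow_left (Nat.succ_le_succ (hK₂ _ hK).1) 2)
          omega

end Pool.Agent.LibAV75
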