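import Mathlib

/-!
Row A1: an acceptance predicate which is not dead has many certificates.

`acc : Finset α → Prop` is an arbitrary predicate of a finite set of strings; `Cert q acc` says that
acceptance always depends on at most `q` strings.
-/

namespace Pool.Agent.LibAV75

variable {α : Type} [DecidableEq α]

/-- Every acceptance depends on at most `q` elements. -/
def Cert (q : ℕ) (acc : Finset α → Prop) : Prop :=
  ∀ P : Finset α, acc P → ∃ V : Finset α, V.card ≤ q ∧
    ∀ P' : Finset α, (∀ v ∈ V, (v ∈ P' ↔ v ∈ P)) → acc P'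

/-- `acc` stays false for all additions to `Q` in `Reg` avoiding `F` and some set `G` with at most
`M` elements. -/
def Dead (acc : Finset α → Prop) (Q F Reg : Finset α) (M : ℕ) : Prop :=
  ∃ G : Finset α, G.card ≤ M ∧ ∀ P : Finset α, P ⊆ Reg → Disjoint P (F ∪ G) → ¬ acc (Q ∪ P)

/-- PLAN. Construct `(P k, V k)` by strong recursion on `k` (for `k < K`; anything for `k ≥ K`):
with `G := ⋃ k' < k, V k'` one has `G.card ≤ k * q ≤ K * q`, so not-`Dead` gives `P ⊆ Reg`, disjoint
from `F ∪ G`, with `acc (Q ∪ P)`; `Cert` gives `V`, and put `P k := P ∩ V`, `V k := V`.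
A clean way: prove by induction on `K` the existence of a list / function with the required properties
below `K` (use `Function.update`), or use `Nat.strongRec` with a choice function; the induction on `K`
with the hypothesis `¬ Dead acc Q F Reg (K * q)` replaced by `∀ j < K, ¬ Dead acc Q F Reg (j * q)` is
the simplest (`Dead` is monotone in the number). -/
theorem a1 {acc : Finset α → Prop} {Q F Reg : Finset α} {q K : ℕ} (hc : Cert q acc)
    (hd : ¬ Dead acc Q F Reg (K * q)) :
    ∃ P V : ℕ → Finset α,
      (∀ k < K, P k ⊆ Reg ∧ Disjoint (P k) F ∧ (V k).card ≤ q ∧ P k ⊆ V k ∧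
        ∀ Q' : Finset α, (∀ v ∈ V k, (v ∈ Q' ↔ v ∈ Q ∪ P k)) → acc Q') ∧
      ∀ k < K, ∀ k' < k, Disjoint (P k) (V k') := by
  have main : ∀ n : ℕ, n ≤ K → ∃ P V : ℕ → Finset α,
      (∀ k < n, P k ⊆ Reg ∧ Disjoint (P k) F ∧ (V k).card ≤ q ∧ P k ⊆ V k ∧
        ∀ Q' : Finset α, (∀ v ∈ V k, (v ∈ Q' ↔ v ∈ Q ∪ P k)) → acc Q') ∧
      ∀ k < n, ∀ k' < k, Disjoint (P k) (V k') := by
    intro n
    induction n with
    | zero =>
      intro _
      exact ⟨fun _ => ∅, fun _ => ∅, fun k hk => absurd hk (Nat.not_lt_zero _),
        fun k hk => absurd hk (Nat.not_lt_zero _)⟩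
    | succ n ih =>
      intro hn
      obtain ⟨P, V, h1, h2⟩ := ih (by omega)
      have hG : ((Finset.range n).biUnion V).card ≤ K * q := by
        calc ((Finset.range n).biUnion V).card ≤ (Finset.range n).card * q :=
              Finset.card_biUnion_le_card_mul _ _ _ fun k hk => (h1 k (Finset.mem_range.1 hk)).2.2.1
          _ = n * q := by rw [Finset.card_range]
          _ ≤ K * q := Nat.mul_le_mul_right _ (by omega)
      have h3 : ∃ P₀ : Finset α, P₀ ⊆ Reg ∧ Disjoint P₀ (F ∪ (Finset.range n).biUnion V) ∧
          acc (Q ∪ P₀) := by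
        by_contra hcon
        refine hd ⟨_, hG, fun P₀ hP hdis hacc => hcon ⟨P₀, hP, hdis, hacc⟩⟩
      obtain ⟨P₀, hP₀, hdis, hacc⟩ := h3
      obtain ⟨V₀, hV₀, hcert⟩ := hc _ hacc
      rw [Finset.disjoint_union_right] at hdis
      refine ⟨Function.update P n (P₀ ∩ V₀), Function.update V n V₀, ?_, ?_⟩
      · intro k hk
        rcases Nat.lt_succ_iff_lt_or_eq.1 hk with hk | rfl
        · rw [Function.update_of_ne (by omega), Function.update_of_ne (by omega)]
          exact h1 k hk
        · rw [Function.update_self, Function.update_self]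
          refine ⟨Finset.inter_subset_left.trans hP₀,
            Finset.disjoint_of_subset_left Finset.inter_subset_left hdis.1, hV₀,
            Finset.inter_subset_right, fun Q' hQ' => hcert Q' fun v hv => ?_⟩
          rw [hQ' v hv, Finset.mem_union, Finset.mem_union, Finset.mem_inter]
          tauto
      · intro k hk k' hk'
        rw [Function.update_of_ne (show k' ≠ n by omega)]
        rcases Nat.lt_succ_iff_lt_or_eq.1 hk with hk | rfl
        · rw [Function.update_of_ne (by omega)]
          exact h2 k hk k' hk'
        · rw [Function.update_self]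
          refine Finset.disjoint_of_subset_left Finset.inter_subset_left
            (Finset.disjoint_of_subset_right ?_ hdis.2)
          exact Finset.subset_biUnion_of_mem V (Finset.mem_range.2 hk')
  exact main K le_rfl

end Pool.Agent.LibAV75
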