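import Mathlib

/-!
Row A2: simultaneous choice without conflicts.
-/

namespace Pool.Agent.LibAV75

variable {α ι : Type} [DecidableEq α] [DecidableEq ι]

open Finset in
theorem a2_key {Z : Type} [Fintype Z] [DecidableEq Z] {K : ℕ} (z : Z) (B : Finset (Z → Fin K))
    (q : ℕ) (h : ∀ κ : Z → Fin K, #(univ.filter fun i => Function.update κ z i ∈ B) ≤ q) :
    #B * K ≤ q * K ^ Fintype.card Z := by
  classical
  have e1 : #B * K = #((univ ×ˢ univ : Finset ((Z → Fin K) × Fin K)).filter
      fun x => x.1 ∈ B) := by
    have : (univ ×ˢ univ : Finset ((Z → Fin K) × Fin K)).filter (fun x => x.1 ∈ B) =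
        B ×ˢ (univ : Finset (Fin K)) := by
      ext x
      simp
    rw [this, card_product, card_univ, Fintype.card_fin]
  have e2 : #((univ ×ˢ univ : Finset ((Z → Fin K) × Fin K)).filter fun x => x.1 ∈ B) =
      #((univ ×ˢ univ : Finset ((Z → Fin K) × Fin K)).filter
        fun x => Function.update x.1 z x.2 ∈ B) := by
    refine Finset.card_nbij' (fun x => (Function.update x.1 z x.2, x.1 z))
      (fun x => (Function.update x.1 z x.2, x.1 z)) ?_ ?_ ?_ ?_
    · intro x hx
      simpa using hx
    · intro x hx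
      simpa using hx
    · intro x _
      simp
    · intro x _
      simp
  rw [e1, e2, card_filter, sum_product]
  calc ∑ x : Z → Fin K, ∑ y : Fin K, (if Function.update (x, y).1 z (x, y).2 ∈ B then 1 else 0)
      ≤ ∑ _x : Z → Fin K, q := by
        refine sum_le_sum fun κ _ => ?_
        rw [← card_filter]
        exact h κ
    _ = q * K ^ Fintype.card Z := by
        rw [sum_const, card_univ, Fintype.card_fun, Fintype.card_fin, smul_eq_mul, mul_comm]

/-- PLAN. Count the functions `κ : Z → Fin K` (`Fintype.card = K ^ Z.card`). For an ordered pair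
`z ≠ z'` of elements of `Z`, the functions with `¬ Disjoint (P z (κ z)) (V z' (κ z'))` are at most
`q * K ^ (Z.card - 1)`: fix all values except `κ z`; the set `V z' (κ z')` has at most `q` elements and
each element lies in at most one `P z k` (pairwise disjoint), so at most `q` values of `κ z` are bad.
The union over at most `Z.card ^ 2` pairs has fewer than `K ^ Z.card` elements as
`Z.card ^ 2 * q < K`, hence a good function exists (the cases `Z = ∅`, trivial, apart).
Instead of counting functions one may prove the statement by the following averaging: the average over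
all functions; or use `Finset.prod` / `Fintype.piFinset`: the bad set for `(z, z')` is contained in the
union over `v : V z' k'`... of product sets. -/
theorem a2 (Z : Finset ι) (P V : ι → ℕ → Finset α) {q K : ℕ} (hK : Z.card ^ 2 * q < K)
    (hV : ∀ z ∈ Z, ∀ k < K, (V z k).card ≤ q)
    (hP : ∀ z ∈ Z, ∀ k < K, ∀ k' < k, Disjoint (P z k) (P z k')) :
    ∃ κ : ι → ℕ, (∀ z ∈ Z, κ z < K) ∧
      ∀ z ∈ Z, ∀ z' ∈ Z, z ≠ z' → Disjoint (P z (κ z)) (V z' (κ z')) := by
  classical
  have hK0 : 0 < K := by omega
  let B : Z × Z → Finset (Z → Fin K) := fun p =>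
    Finset.univ.filter fun κ => ¬ Disjoint (P p.1 (κ p.1)) (V p.2 (κ p.2))
  have hB : ∀ p : Z × Z, p.1 ≠ p.2 → (B p).card * K ≤ q * K ^ Z.card := by
    rintro ⟨z, z'⟩ hne
    have h1 := a2_key z (B (z, z')) q ?_
    · rwa [Fintype.card_coe] at h1
    intro κ
    refine le_trans ?_ (hV z'.1 z'.2 (κ z') (κ z').2)
    have hz' : ∀ i : Fin K, Function.update κ z i z' = κ z' := fun i =>
      Function.update_of_ne (Ne.symm hne) _ _
    have hmem : ∀ i ∈ (Finset.univ.filter fun i => Function.update κ z i ∈ B (z, z')),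
        ∃ v, v ∈ P z i ∧ v ∈ V z' (κ z') := by
      intro i hi
      simp only [B, Finset.mem_filter, Finset.mem_univ, true_and, hz', Function.update_self,
        Finset.not_disjoint_iff] at hi
      exact hi
    rcases isEmpty_or_nonempty α with hα | hα
    · rw [Finset.card_eq_zero.2 (Finset.eq_empty_of_forall_notMem fun i hi => by
        obtain ⟨v, -⟩ := hmem i hi
        exact hα.false v)]
      exact Nat.zero_le _
    choose! f hf using hmem
    refine Finset.card_le_card_of_injOn f (fun i hi => (hf i hi).2) ?_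
    intro i hi j hj hij
    have hi' := (hf i hi).1
    have hj' := (hf j hj).1
    rw [hij] at hi'
    by_contra hne'
    rcases lt_or_gt_of_ne (fun h => hne' (Fin.ext h) : (i : ℕ) ≠ j) with h | h
    · exact Finset.disjoint_left.1 (hP z.1 z.2 j j.2 i h) hj' hi'
    · exact Finset.disjoint_left.1 (hP z.1 z.2 i i.2 j h) hi' hj'
  have hex : ∃ κ : Z → Fin K, ∀ p ∈ (Finset.univ : Finset Z).offDiag, κ ∉ B p := by
    by_contra hcon
    push Not at hcon
    have hsub : (Finset.univ : Finset (Z → Fin K)) ⊆ (Finset.univ : Finset Z).offDiag.biUnion B := by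
      intro κ _
      obtain ⟨p, hp, hκ⟩ := hcon κ
      exact Finset.mem_biUnion.2 ⟨p, hp, hκ⟩
    have h2 : K ^ Z.card ≤ ∑ p ∈ (Finset.univ : Finset Z).offDiag, (B p).card := by
      have := (Finset.card_le_card hsub).trans Finset.card_biUnion_le
      rwa [Finset.card_univ, Fintype.card_fun, Fintype.card_fin, Fintype.card_coe] at this
    have h3 : K ^ Z.card * K ≤ Z.card ^ 2 * (q * K ^ Z.card) := by
      calc K ^ Z.card * K ≤ (∑ p ∈ (Finset.univ : Finset Z).offDiag, (B p).card) * K :=
            Nat.mul_le_mul_right _ h2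
        _ = ∑ p ∈ (Finset.univ : Finset Z).offDiag, (B p).card * K := Finset.sum_mul _ _ _
        _ ≤ ∑ _p ∈ (Finset.univ : Finset Z).offDiag, q * K ^ Z.card :=
            Finset.sum_le_sum fun p hp => hB p (Finset.mem_offDiag.1 hp).2.2
        _ = (Finset.univ : Finset Z).offDiag.card * (q * K ^ Z.card) := by
            rw [Finset.sum_const, smul_eq_mul]
        _ ≤ Z.card ^ 2 * (q * K ^ Z.card) := by
            refine Nat.mul_le_mul_right _ ?_
            rw [Finset.offDiag_card, Finset.card_univ, Fintype.card_coe, sq]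
            exact Nat.sub_le _ _
    have hpos : 0 < K ^ Z.card := pow_pos hK0 _
    have h4 : K ^ Z.card * K ≤ K ^ Z.card * (Z.card ^ 2 * q) := by
      calc K ^ Z.card * K ≤ Z.card ^ 2 * (q * K ^ Z.card) := h3
        _ = K ^ Z.card * (Z.card ^ 2 * q) := by ring
    have h5 := Nat.le_of_mul_le_mul_left h4 hpos
    omega
  obtain ⟨κ, hκ⟩ := hex
  refine ⟨fun z => if h : z ∈ Z then κ ⟨z, h⟩ else 0, ?_, ?_⟩
  · intro z hz
    simp only [hz, dif_pos]
    exact (κ ⟨z, hz⟩).2
  · intro z hz z' hz' hne
    have h1 := hκ (⟨z, hz⟩, ⟨z', hz'⟩) (Finset.mem_offDiag.2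
      ⟨Finset.mem_univ _, Finset.mem_univ _, fun h => hne (by simpa using h)⟩)
    simp only [B, Finset.mem_filter, Finset.mem_univ, true_and, not_not] at h1
    simp only [hz, hz', dif_pos]
    exact h1

end Pool.Agent.LibAV75
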