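import Pool.Agent.LibAV75.A1
import Pool.Agent.LibAV75.A2

/-!
Row A3: one block: all items which are not dead are made accepting at once.
-/

namespace Pool.Agent.LibAV75

variable {α ι : Type} [DecidableEq α] [DecidableEq ι]

/-- PLAN. `a1` for every `z ∈ Z` gives `P z`, `V z` (choose); they satisfy the hypotheses of `a2`
(`P z k' ⊆ V z k'`, so `P z k` and `P z k'` are disjoint for `k' < k`). With `κ` from `a2` put
`Q' := Q ∪ ⋃ z ∈ Z, P z (κ z)`, `F' := F ∪ ⋃ z ∈ Z, V z (κ z)`. For `z ∈ Z` and `Q''` as in the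
statement, `Q''` agrees with `Q ∪ P z (κ z)` on `V z (κ z)`: the elements of `Q'' \ Q'` avoid `F'`, and
the elements of `P z' (κ z')`, `z' ≠ z`, avoid `V z (κ z)`. -/
theorem a3 (Z : Finset ι) (acc : ι → Finset α → Prop) {q K : ℕ} (hc : ∀ z ∈ Z, Cert q (acc z))
    (Q F Reg : Finset α) (hK : Z.card ^ 2 * q < K)
    (hd : ∀ z ∈ Z, ¬ Dead (acc z) Q F Reg (K * q)) :
    ∃ Q' F' : Finset α, Q ⊆ Q' ∧ Q' ⊆ Q ∪ Reg ∧ Disjoint (Q' \ Q) F ∧ F ⊆ F' ∧
      F'.card ≤ F.card + Z.card * q ∧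
      ∀ z ∈ Z, ∀ Q'' : Finset α, Q' ⊆ Q'' → Disjoint (Q'' \ Q') F' → acc z Q'' := by
  classical
  have h1 : ∀ z : ι, ∃ P V : ℕ → Finset α, z ∈ Z →
      (∀ k < K, P k ⊆ Reg ∧ Disjoint (P k) F ∧ (V k).card ≤ q ∧ P k ⊆ V k ∧
        ∀ Q' : Finset α, (∀ v ∈ V k, (v ∈ Q' ↔ v ∈ Q ∪ P k)) → acc z Q') ∧
      ∀ k < K, ∀ k' < k, Disjoint (P k) (V k') := by
    intro z
    by_cases hz : z ∈ Z
    · obtain ⟨P, V, h2⟩ := a1 (hc z hz) (hd z hz)
      exact ⟨P, V, fun _ => h2⟩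
    · exact ⟨fun _ => ∅, fun _ => ∅, fun h => absurd h hz⟩
  choose P V h2 using h1
  obtain ⟨κ, hκ, hdis⟩ := a2 Z P V hK
    (fun z hz k hk => ((h2 z hz).1 k hk).2.2.1)
    (fun z hz k hk k' hk' => ((h2 z hz).2 k hk k' hk').mono_right
      ((h2 z hz).1 k' (hk'.trans hk)).2.2.2.1)
  refine ⟨Q ∪ Z.biUnion fun z => P z (κ z), F ∪ Z.biUnion fun z => V z (κ z),
    Finset.subset_union_left, ?_, ?_, Finset.subset_union_left, ?_, ?_⟩
  · refine Finset.union_subset_union_right ?_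
    exact Finset.biUnion_subset.2 fun z hz => ((h2 z hz).1 (κ z) (hκ z hz)).1
  · rw [Finset.disjoint_left]
    intro x hx hxF
    rw [Finset.mem_sdiff, Finset.mem_union] at hx
    obtain ⟨hx1, hx2⟩ := hx
    rcases hx1 with hx1 | hx1
    · exact hx2 hx1
    · obtain ⟨z, hz, hxz⟩ := Finset.mem_biUnion.1 hx1
      exact Finset.disjoint_left.1 ((h2 z hz).1 (κ z) (hκ z hz)).2.1 hxz hxF
  · refine (Finset.card_union_le _ _).trans (Nat.add_le_add_left ?_ _)
    refine Finset.card_biUnion_le_card_mul _ _ _ fun z hz => ?_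
    exact ((h2 z hz).1 (κ z) (hκ z hz)).2.2.1
  · intro z hz Q'' hQ hdj
    refine ((h2 z hz).1 (κ z) (hκ z hz)).2.2.2.2 Q'' fun v hv => ⟨fun hvQ => ?_, fun hvQ => ?_⟩
    · have hvF : v ∈ F ∪ Z.biUnion fun z => V z (κ z) :=
        Finset.mem_union_right _ (Finset.mem_biUnion.2 ⟨z, hz, hv⟩)
      have hvQ' : v ∈ Q ∪ Z.biUnion fun z => P z (κ z) := by
        by_contra hn
        exact Finset.disjoint_left.1 hdj (Finset.mem_sdiff.2 ⟨hvQ, hn⟩) hvF
      rcases Finset.mem_union.1 hvQ' with h3 | h3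
      · exact Finset.mem_union_left _ h3
      · obtain ⟨z', hz', hvz'⟩ := Finset.mem_biUnion.1 h3
        by_cases hzz : z' = z
        · rw [hzz] at hvz'
          exact Finset.mem_union_right _ hvz'
        · exact absurd hv (Finset.disjoint_left.1 (hdis z' hz' z hz hzz) hvz')
    · refine hQ ?_
      rcases Finset.mem_union.1 hvQ with h3 | h3
      · exact Finset.mem_union_left _ h3
      · exact Finset.mem_union_right _ (Finset.mem_biUnion.2 ⟨z, hz, h3⟩)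

end Pool.Agent.LibAV75
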