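import Pool.Agent.LibAV75.A1

/-!
Row A5: the end of a stage, approximation: many errors.
-/

namespace Pool.Agent.LibAV75

variable {α ι : Type} [DecidableEq α] [DecidableEq ι]

open Classical in
/-- PLAN. If at least half of the `x ∈ Y` have `¬ acc x Q`: take `P = ∅`; for these `x` both sides of
the equivalence are false (`fib x` is disjoint from `Q`). Otherwise let `Y₁` be the set of the
`x ∈ Y` with `acc x Q`, `V x` the certificates (`Cert`), `F₁ := F ∪ ⋃ x ∈ Y₁, V x`,
`F₁.card ≤ F.card + Y.card * q < (fib x).card`; choose `w x ∈ fib x \ F₁` and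
`P := {w x : x ∈ Y₁}`; then `acc x (Q ∪ P)` for `x ∈ Y₁` (`P` avoids `V x`) and `fib x` meets `Q ∪ P`. -/
theorem a5 (Y : Finset ι) (acc : ι → Finset α → Prop) (fib : ι → Finset α) {q : ℕ}
    (hc : ∀ x ∈ Y, Cert q (acc x)) (Q F : Finset α) (hQ : ∀ x ∈ Y, Disjoint (fib x) Q)
    (hF : ∀ x ∈ Y, F.card + Y.card * q < (fib x).card) :
    ∃ P : Finset α, P ⊆ Y.biUnion fib ∧ Disjoint P F ∧
      Y.card ≤ 2 * (Y.filter fun x => (acc x (Q ∪ P) ↔ ∃ s ∈ fib x, s ∈ Q ∪ P)).card := by
  have hsum := Finset.card_filter_add_card_filter_not (s := Y) (fun x => acc x Q)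
  by_cases hcase : Y.card ≤ 2 * (Y.filter fun x => ¬ acc x Q).card
  · refine ⟨∅, Finset.empty_subset _, Finset.disjoint_empty_left _, hcase.trans ?_⟩
    apply Nat.mul_le_mul_left
    apply Finset.card_le_card
    intro x hx
    rw [Finset.mem_filter] at hx ⊢
    refine ⟨hx.1, ?_⟩
    rw [Finset.union_empty]
    constructor
    · intro h
      exact absurd h hx.2
    · rintro ⟨s, hs, hs'⟩
      exact absurd hs' (Finset.disjoint_left.1 (hQ x hx.1) hs)
  · have hY1 : Y.card ≤ 2 * (Y.filter fun x => acc x Q).card := by omega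
    have hV : ∀ x, ∃ V : Finset α, x ∈ Y → acc x Q → V.card ≤ q ∧
        ∀ P' : Finset α, (∀ v ∈ V, (v ∈ P' ↔ v ∈ Q)) → acc x P' := by
      intro x
      by_cases h : x ∈ Y ∧ acc x Q
      · obtain ⟨V, h1, h2⟩ := hc x h.1 Q h.2
        exact ⟨V, fun _ _ => ⟨h1, h2⟩⟩
      · exact ⟨∅, fun h1 h2 => absurd ⟨h1, h2⟩ h⟩
    choose V hV using hV
    set Y1 := Y.filter fun x => acc x Q with hY1def
    set F1 := F ∪ Y1.biUnion V with hF1
    have hcard : F1.card ≤ F.card + Y.card * q := by
      refine (Finset.card_union_le _ _).trans (Nat.add_le_add_left ?_ _)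
      refine (Finset.card_biUnion_le_card_mul Y1 V q fun x hx => ?_).trans
        (Nat.mul_le_mul_right _ (Finset.card_filter_le _ _))
      rw [hY1def, Finset.mem_filter] at hx
      exact (hV x hx.1 hx.2).1
    have hw : ∀ x, ∃ w : α, x ∈ Y1 → w ∈ fib x ∧ w ∉ F1 := by
      intro x
      by_cases h : x ∈ Y1
      · have hxY : x ∈ Y := (Finset.mem_filter.1 h).1
        obtain ⟨w, h1, h2⟩ := Finset.exists_mem_notMem_of_card_lt_card
          (lt_of_le_of_lt hcard (hF x hxY))
        exact ⟨w, fun _ => ⟨h1, h2⟩⟩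
      · by_cases hne : Nonempty α
        · exact ⟨hne.some, fun h1 => absurd h1 h⟩
        · exfalso
          have hY0 : 0 < Y1.card ∨ Y1.card = 0 := by omega
          rcases hY0 with h0 | h0
          · obtain ⟨y, hy⟩ := Finset.card_pos.1 h0
            have hyY : y ∈ Y := (Finset.mem_filter.1 hy).1
            have h3 : 0 < (fib y).card := lt_of_le_of_lt (Nat.zero_le _) (hF y hyY)
            obtain ⟨a, -⟩ := Finset.card_pos.1 h3
            exact hne ⟨a⟩
          · have h4 : Y.card = 0 := by omega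
            exact hcase (by omega)
    choose w hw using hw
    refine ⟨Y1.image w, ?_, ?_, hY1.trans (Nat.mul_le_mul_left _ (Finset.card_le_card ?_))⟩
    · intro a ha
      obtain ⟨x, hx, rfl⟩ := Finset.mem_image.1 ha
      exact Finset.mem_biUnion.2 ⟨x, (Finset.mem_filter.1 hx).1, (hw x hx).1⟩
    · rw [Finset.disjoint_left]
      intro a ha haF
      obtain ⟨x, hx, rfl⟩ := Finset.mem_image.1 ha
      exact (hw x hx).2 (Finset.mem_union_left _ haF)
    · intro x hx
      have hx' := Finset.mem_filter.1 hx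
      rw [Finset.mem_filter]
      refine ⟨hx'.1, ?_⟩
      have hacc : acc x (Q ∪ Y1.image w) := by
        apply (hV x hx'.1 hx'.2).2
        intro v hv
        rw [Finset.mem_union]
        constructor
        · rintro (h | h)
          · exact h
          · obtain ⟨y, hy, rfl⟩ := Finset.mem_image.1 h
            exact absurd (Finset.mem_union_right _ (Finset.mem_biUnion.2 ⟨x, hx, hv⟩)) (hw y hy).2
        · exact Or.inl
      refine ⟨fun _ => ⟨w x, (hw x hx).1, ?_⟩, fun _ => hacc⟩
      exact Finset.mem_union_right _ (Finset.mem_image_of_mem w hx)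

end Pool.Agent.LibAV75
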