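import Pool.Agent.LibAV75.Defs

/-!
Definitions for the oracle construction.
-/

namespace Pool.Agent.LibAV75

open Filter Function Pool.Agent.LibNexp


theorem exists_prog_enum : ∃ f : ℕ → Prog, Surjective f := by
  have : Nonempty Prog := ⟨.empty 0⟩
  exact exists_surjective_nat Prog

/-- An enumeration of the programs in which every program occurs infinitely often. -/
noncomputable def prog (e : ℕ) : Prog := Classical.choose exists_prog_enum (Nat.unpair e).1

/-- The exponent of machine number `e` on inputs of length `m`. -/
def ex (e m : ℕ) : ℕ := m ^ (e + 1) + (e + 1)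

/-- Machine number `e` accepts `z` (in time `2 ^ ex e |z|`). -/
def AccE (O : List Bool → Bool) (e : ℕ) (z : List Bool) : Prop :=
  Acc O (prog e) (2 ^ ex e z.length) z

/-- The code of the statement `machine number `e` rejects `z``. -/
def code (e : ℕ) (z : List Bool) : List Bool :=
  LibSpec4.ask e z (List.replicate (2 ^ (ex e z.length + 1) ^ 2) true)

open Classical in
/-- The oracle of a set of strings. -/
noncomputable def orc (A : Set (List Bool)) : List Bool → Bool := fun s => decide (s ∈ A)

/-- The code strings of a set of pairs. -/
def codes (K : Set (ℕ × List Bool)) : Set (List Bool) := {s | ∃ e z, (e, z) ∈ K ∧ s = code e z}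

/-- The strings about `x`: all `xw` with `w` of length `2 ^ |x|`. -/
def fib (x : List Bool) : Finset (List Bool) := (strs (2 ^ x.length)).image fun w => x ++ w

/-- The language of witnesses. -/
def WL (O : List Bool → Bool) : Lang := {x | [true] <+: x ∧ x ∈ WitLang O}

/-- The exponents of layer `l` at stage `n` are those in `[lay n l, lay n (l + 1))`. -/
def lay (n l : ℕ) : ℕ := n ^ 2 ^ l

theorem orc_iff {A : Set (List Bool)} {s : List Bool} : orc A s = true ↔ s ∈ A := by
  classical
  simp [orc]

end Pool.Agent.LibAV75
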