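import Pool.Agent.LibAV75.B0
import Pool.Agent.LibAV75.A1

/-!
Row B1: codes and visibility.
-/

namespace Pool.Agent.LibAV75

open Filter Function Pool.Agent.LibNexp
open Pool.Agent.LibSpec4 (ask ask_injective length_ask)

theorem le_ex (e m : ℕ) : m < ex e m := by
  have h : m ≤ m ^ (e + 1) := Nat.le_self_pow (Nat.succ_ne_zero e) m
  unfold ex
  omega

/-- PLAN. `ask_injective`. -/
theorem code_injective {e e' : ℕ} {z z' : List Bool} (h : code e z = code e' z') :
    e = e' ∧ z = z' := by
  unfold code at h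
  have h1 := ask_injective h
  exact ⟨h1.1, h1.2.1⟩

theorem code_head (e : ℕ) (z : List Bool) : ∃ l, code e z = false :: l := ⟨_, rfl⟩

theorem length_code (e : ℕ) (z : List Bool) :
    2 ^ (ex e z.length + 1) ^ 2 < (code e z).length := by
  unfold code
  rw [length_ask, List.length_replicate]
  omega

/-- The code of a statement is invisible to all statements with at most the same exponent. -/
theorem code_far {e m e' : ℕ} {z' : List Bool} (h : ex e m ≤ ex e' z'.length) :
    2 ^ (ex e m + 1) ≤ (code e' z').length := by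
  have h1 := length_code e' z'
  have h2 : 2 ^ (ex e m + 1) ≤ 2 ^ (ex e' z'.length + 1) ^ 2 := by
    apply Nat.pow_le_pow_right (by norm_num)
    calc ex e m + 1 ≤ ex e' z'.length + 1 := by omega
      _ ≤ (ex e' z'.length + 1) ^ 2 := Nat.le_self_pow (by norm_num) _
  omega

/-- PLAN. `acc_agree`; the strings asked have length at most `|z| + 2 ^ ex e |z| < 2 ^ (ex e |z| + 1)`
as `|z| < ex e |z| < 2 ^ ex e |z|`. -/
theorem accE_congr {A A' : Set (List Bool)} {e : ℕ} {z : List Bool}
    (h : ∀ s : List Bool, s.length < 2 ^ (ex e z.length + 1) → (s ∈ A ↔ s ∈ A')) :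
    AccE (orc A) e z ↔ AccE (orc A') e z := by
  have h1 := le_ex e z.length
  have h2 : ex e z.length < 2 ^ ex e z.length := Nat.lt_two_pow_self
  have h3 : ∀ s : List Bool, s.length ≤ z.length + 2 ^ ex e z.length → orc A s = orc A' s := by
    intro s hs
    have h4 : s.length < 2 ^ (ex e z.length + 1) := by
      rw [pow_succ]
      omega
    rw [Bool.eq_iff_iff, orc_iff, orc_iff]
    exact h s h4
  unfold AccE
  exact ⟨acc_agree h3, acc_agree fun s hs => (h3 s hs).symm⟩

/-- PLAN. `acc_use`. -/
theorem accE_cert (A : Set (List Bool)) (e : ℕ) (z : List Bool) :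
    Cert (2 ^ ex e z.length) fun T : Finset (List Bool) =>
      AccE (orc (A ∪ (T : Set (List Bool)))) e z := by
  intro P hP
  obtain ⟨V, hV, h1⟩ := acc_use hP
  refine ⟨V, hV, fun P' hP' => h1 _ fun s hs => ?_⟩
  rw [Bool.eq_iff_iff, orc_iff, orc_iff, Set.mem_union, Set.mem_union, Finset.mem_coe,
    Finset.mem_coe, hP' s hs]

theorem card_fib (x : List Bool) : (fib x).card = 2 ^ 2 ^ x.length := by
  unfold fib
  rw [Finset.card_image_of_injective _ (fun a b hab => List.append_cancel_left hab), card_strs]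

theorem mem_fib {x s : List Bool} : s ∈ fib x ↔ ∃ w : List Bool, w.length = 2 ^ x.length ∧
    s = x ++ w := by
  unfold fib
  rw [Finset.mem_image]
  constructor
  · rintro ⟨w, hw, rfl⟩
    exact ⟨w, mem_strs.1 hw, rfl⟩
  · rintro ⟨w, hw, rfl⟩
    exact ⟨w, mem_strs.2 hw, rfl⟩

theorem fib_disjoint {x y : List Bool} (hl : x.length = y.length) (h : x ≠ y) :
    Disjoint (fib x) (fib y) := by
  rw [Finset.disjoint_left]
  intro s hs hs'
  obtain ⟨w, -, rfl⟩ := mem_fib.1 hs
  obtain ⟨w', -, h1⟩ := mem_fib.1 hs'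
  exact h (List.append_inj_left h1 hl)

/-- Strings of `fib x` with `x` starting with `true` start with `true`; their length. -/
theorem fib_head {x s : List Bool} (hx : [true] <+: x) (hs : s ∈ fib x) :
    [true] <+: s ∧ s.length = x.length + 2 ^ x.length := by
  obtain ⟨w, hw, rfl⟩ := mem_fib.1 hs
  refine ⟨hx.trans (List.prefix_append x w), ?_⟩
  rw [List.length_append, hw]

theorem lay_sq (n l : ℕ) : lay n (l + 1) = lay n l ^ 2 := by
  unfold lay
  rw [pow_succ, pow_mul]

theorem lay_mono {n : ℕ} (hn : 1 ≤ n) {l l' : ℕ} (h : l ≤ l') : lay n l ≤ lay n l' :=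
  Nat.pow_le_pow_right hn (Nat.pow_le_pow_right (by norm_num) h)

end Pool.Agent.LibAV75
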