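import Pool.Agent.LibAV75.B5
import Pool.Agent.LibAV75.A5

/-!
Row B9: many errors can be forced.
-/

namespace Pool.Agent.LibAV75

open Filter Function Pool.Agent.LibNexp Pool.Agent.LibBHN

/-- Machine number `j` makes at least `2 ^ t / 2` errors on the strings of length `n` as an
approximation of the complement of the language of witnesses. -/
def GH (j n t : ℕ) (A : Set (List Bool)) : Prop :=
  2 ^ t ≤ 2 * cnt n fun x => [true] <+: x ∧ (AccE (orc A) j x ↔ x ∈ WL (orc A))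

private theorem B9_congr {m : ℕ} {P Q : List Bool → Prop} (h : ∀ z : List Bool, z.length = m → (P z ↔ Q z)) :
    cnt m P = cnt m Q := by
  classical
  unfold cnt
  congr 1
  ext k
  simp only [Finset.mem_filter, Finset.mem_range]
  exact and_congr_right fun _ => h _ (length_bits m k)

private theorem B9_card_le {n : ℕ} {P : List Bool → Prop} (S : Finset (List Bool))
    (hS : ∀ x ∈ S, x.length = n ∧ P x) : S.card ≤ cnt n P := by
  classical
  unfold cnt
  refine Finset.card_le_card_of_injOn val (fun x hx => ?_) (fun x hx y hy hxy => ?_)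
  · obtain ⟨h1, h2⟩ := hS x hx
    rw [Finset.mem_coe, Finset.mem_filter, Finset.mem_range]
    subst h1
    refine ⟨cnt_val_lt x, ?_⟩
    rw [bits_val]
    exact h2
  · have h1 := (hS x hx).1
    have h2 := (hS y hy).1
    rw [← bits_val x, ← bits_val y, h1, h2, hxy]

private theorem B9_wl {B : Set (List Bool)} {x : List Bool} (hx : [true] <+: x) :
    x ∈ WL (orc B) ↔ ∃ s ∈ fib x, s ∈ B := by
  constructor
  · rintro ⟨-, w, hw, h⟩
    exact ⟨x ++ w, mem_fib.2 ⟨w, hw, rfl⟩, orc_iff.1 h⟩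
  · rintro ⟨s, hs, hB⟩
    obtain ⟨w, hw, rfl⟩ := mem_fib.1 hs
    exact ⟨hx, w, hw, orc_iff.2 hB⟩

/-- PLAN. `a5` with `Y := I`, `acc x T := AccE (orc (A ∪ T)) j x`, `q := 2 ^ ex j n` (`accE_cert`),
`(fib x).card = 2 ^ 2 ^ n`, `I.card ≤ 2 ^ n`. For `x ∈ I`:
`x ∈ WL (orc (A ∪ (Q ∪ P))) ↔ ∃ s ∈ fib x, s ∈ Q ∪ P` as no string of `fib x` is in `A` (`mem_fib`). -/
theorem gh_forced {j n t fbd : ℕ} (h : fbd + 2 ^ n * 2 ^ ex j n < 2 ^ 2 ^ n) :
    Forced n t fbd (GH j n t) := by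
  classical
  intro A Q F I hI hcard hF hfree
  have hIn : I.card ≤ 2 ^ n := by
    rw [← card_strs n]
    exact Finset.card_le_card fun x hx => mem_strs.2 (hI x hx).1
  obtain ⟨P, hP1, hP2, hP3⟩ := a5 I
    (fun x (T : Finset (List Bool)) => AccE (orc (A ∪ (T : Set (List Bool)))) j x) fib
    (q := 2 ^ ex j n) (fun x hx => by
      have := accE_cert A j x
      rw [(hI x hx).1] at this
      exact this) Q F
    (fun x hx => by
      rw [Finset.disjoint_left]
      exact fun s hs => (hfree x hx s hs).2)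
    (fun x hx => by
      rw [card_fib, (hI x hx).1]
      have h1 : I.card * 2 ^ ex j n ≤ 2 ^ n * 2 ^ ex j n := Nat.mul_le_mul_right _ hIn
      omega)
  refine ⟨P, hP1, hP2, ?_⟩
  show 2 ^ t ≤ 2 * cnt n fun x => [true] <+: x ∧
    (AccE (orc (A ∪ ((Q ∪ P : Finset (List Bool)) : Set (List Bool)))) j x ↔
      x ∈ WL (orc (A ∪ ((Q ∪ P : Finset (List Bool)) : Set (List Bool)))))
  refine hcard.trans (hP3.trans (Nat.mul_le_mul_left 2 ?_))
  refine B9_card_le _ fun x hx => ?_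
  rw [Finset.mem_filter] at hx
  obtain ⟨hxI, hx2⟩ := hx
  refine ⟨(hI x hxI).1, (hI x hxI).2, ?_⟩
  rw [B9_wl (hI x hxI).2]
  refine hx2.trans ⟨?_, ?_⟩
  · rintro ⟨s, hs, hs2⟩
    exact ⟨s, hs, Or.inr (Finset.mem_coe.2 hs2)⟩
  · rintro ⟨s, hs, hs2⟩
    rcases hs2 with hs2 | hs2
    · exact absurd hs2 (hfree x hxI s hs).1
    · exact ⟨s, hs, Finset.mem_coe.1 hs2⟩

/-- PLAN. `accE_congr`; `x ∈ WL` depends on strings of length `n + 2 ^ n`. -/
theorem gh_local {j n t M : ℕ} (h1 : 2 ^ (ex j n + 1) ≤ M) (h2 : n + 2 ^ n < M) :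
    Local M (GH j n t) := by
  intro A A' hAA hG
  show 2 ^ t ≤ 2 * cnt n fun x => [true] <+: x ∧ (AccE (orc A') j x ↔ x ∈ WL (orc A'))
  have hG' : 2 ^ t ≤ 2 * cnt n fun x => [true] <+: x ∧ (AccE (orc A) j x ↔ x ∈ WL (orc A)) := hG
  rw [← B9_congr (P := fun x => [true] <+: x ∧ (AccE (orc A) j x ↔ x ∈ WL (orc A)))]
  · exact hG'
  intro x hx
  refine and_congr_right fun hx1 => ?_
  have e1 : AccE (orc A) j x ↔ AccE (orc A') j x := by
    refine accE_congr fun s hs => hAA s ?_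
    rw [hx] at hs
    exact hs.trans_le h1
  have e2 : x ∈ WL (orc A) ↔ x ∈ WL (orc A') := by
    rw [B9_wl hx1, B9_wl hx1]
    refine exists_congr fun s => and_congr_right fun hs => hAA s ?_
    rw [(fib_head hx1 hs).2, hx]
    exact h2
  rw [e1, e2]

end Pool.Agent.LibAV75
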