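import Pool.Agent.LibAV75.B6
import Pool.Agent.LibAV75.B8
import Pool.Agent.LibAV75.B9
import Pool.Agent.LibAV75.B10

/-!
Row B11: the oracle.
-/

namespace Pool.Agent.LibAV75

open Filter Function Pool.Agent.LibNexp Pool.Agent.LibBHN

private theorem b11_cnt_mono {n : ℕ} {P Q : List Bool → Prop} (h : ∀ x, P x → Q x) :
    cnt n P ≤ cnt n Q := by
  unfold cnt
  refine Finset.card_le_card fun m hm => ?_
  simp only [Finset.mem_filter] at hm ⊢
  exact ⟨hm.1, h _ hm.2⟩

/-- PLAN. Stage `i` uses `E i = i + 1`, `D i = i + 3`, `R i = r (lay (n i) (i + 3))`, `β i` from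
`b10_beta`, `y i = n i + 2 - min (s (n i)) (n i + 1)`, `G i = GH i (n i) (y i)`.
* Choice of `n`: recursively `n i` is any number `≥` everything needed with
  `CC i * (r (n i ^ CC i) + Nat.log 2 (n i + 1)) < min (s (n i)) (n i + 1)` (hypothesis `hs` with
  `C := CC i`: frequently) and `b10_size`, `2 ≤ n i`, `i ≤ n i`,
  `(lay (n (i-1)) (D (i-1)) + 1) ^ 2 ≤ n i` (eventually). (`n` as a function of `i` and of the lower
  bound; `Nat.rec`; see LibTrade92/Num.lean for a similar recursion.)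
* `hy` of `b6`: `b10_beta` with `R := R i`, and `r` monotone, `lay (n i) (i + 3) ≤ n i ^ CC i`:
  `(i + 3) * (R + β) + 3 ≤ min (s (n i)) (n i + 1)`; in particular `R + β ≤ n i`, so `b10_size` gives
  `gh_forced`.
* `b6`, `b8` give `A` with `Inner (orc A) r` and `GH i (n i) (y i) A` for all `i`.
* If `H (orc A) s`: apply it to `WL (orc A)` (`wl_mem`): `N ∈ NEXPLang`, `2 ^ s m * err ≤ 2 ^ m` for
  `m ≥ m₀`. `exists_machine` gives `i ≥ m₀` with `N` = language of machine `i`; `n i ≥ i`. The strings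
  counted in `GH` are errors: `2 ^ y i ≤ 2 * err (WL)ᶜ N (n i)`, so
  `2 ^ (s (n i) + y i) ≤ 2 ^ (n i + 1)`, but `s (n i) + y i ≥ n i + 2`. -/
theorem negH {r s : ℕ → ℕ} (hr : Monotone r)
    (hs : ∀ C : ℕ, ∃ᶠ n in atTop, C * (r (n ^ C) + Nat.log 2 (n + 1)) < min (s n) (n + 1)) :
    ∃ O, Inner O r ∧ ¬ H O s := by
  have hgood : ∀ i b : ℕ, ∃ n ≥ b,
      CC i * (r (n ^ CC i) + Nat.log 2 (n + 1)) < min (s n) (n + 1) ∧
      (∀ c ≤ n, (i + 3) * fb (i + 1) c (lay n (i + 3)) + 2 ^ n * 2 ^ ex i n < 2 ^ 2 ^ n) := by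
    intro i b
    exact Filter.frequently_atTop.1 ((hs (CC i)).and_eventually (b10_size i)) b
  choose f hf1 hf2 hf3 using hgood
  obtain ⟨n, hn0, hnS⟩ : ∃ n : ℕ → ℕ, n 0 = f 0 2 ∧
      ∀ i, n (i + 1) = f (i + 1) (max (i + 3) ((lay (n i) (i + 3) + 1) ^ 2)) :=
    ⟨fun i => Nat.rec (f 0 2) (fun i m => f (i + 1) (max (i + 3) ((lay m (i + 3) + 1) ^ 2))) i,
      rfl, fun _ => rfl⟩
  have hni : ∀ i, i + 2 ≤ n i := by
    intro i
    cases i with
    | zero => rw [hn0]; exact hf1 0 2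
    | succ i =>
      rw [hnS]
      exact le_trans (le_max_left _ _) (hf1 (i + 1) _)
  have hnn : ∀ i, (lay (n i) (i + 3) + 1) ^ 2 ≤ n (i + 1) := by
    intro i
    rw [hnS]
    exact le_trans (le_max_right _ _) (hf1 (i + 1) _)
  have h2 : ∀ i, CC i * (r (n i ^ CC i) + Nat.log 2 (n i + 1)) < min (s (n i)) (n i + 1) := by
    intro i
    cases i with
    | zero => rw [hn0]; exact hf2 0 2
    | succ i => rw [hnS]; exact hf2 (i + 1) _
  have h3 : ∀ i, ∀ c ≤ n i,
      (i + 3) * fb (i + 1) c (lay (n i) (i + 3)) + 2 ^ n i * 2 ^ ex i (n i) < 2 ^ 2 ^ n i := by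
    intro i
    cases i with
    | zero => rw [hn0]; exact hf3 0 2
    | succ i => rw [hnS]; exact hf3 (i + 1) _
  have hsm : StrictMono n := by
    refine strictMono_nat_of_lt_succ fun i => ?_
    refine lt_of_lt_of_le ?_ (hnn i)
    have h4 : n i ≤ lay (n i) (i + 3) := by
      unfold lay
      exact Nat.le_self_pow (by positivity) _
    nlinarith
  have hb : ∀ i, ∃ β, (i + 1) * lay (n i) (i + 3) ≤ 2 ^ β ∧
      ∀ R, (i + 3) * (R + β) + 3 ≤ CC i * (R + Nat.log 2 (n i + 1)) :=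
    fun i => b10_beta (by have := hni i; omega)
  choose β hβ1 hβ2 using hb
  have hvis : ∀ i, _ := fun i => b10_vis (i := i) (n := n i) (by have := hni i; omega)
    (by have := hni i; omega)
  have hkey : ∀ i, (i + 3) * (r (lay (n i) (i + 3)) + β i) + 3 < min (s (n i)) (n i + 1) := by
    intro i
    have h5 : r (lay (n i) (i + 3)) ≤ r (n i ^ CC i) := hr (hvis i).2.2
    calc (i + 3) * (r (lay (n i) (i + 3)) + β i) + 3
        ≤ (i + 3) * (r (n i ^ CC i) + β i) + 3 := by gcongr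
      _ ≤ CC i * (r (n i ^ CC i) + Nat.log 2 (n i + 1)) := hβ2 i _
      _ < _ := h2 i
  obtain ⟨A, hA1, hA2, hA3, hA4, hA5⟩ := b6 (n := n) (E := fun i => i + 1)
    (R := fun i => r (lay (n i) (i + 3))) (D := fun i => i + 3) (β := β)
    (y := fun i => n i + 2 - min (s (n i)) (n i + 1))
    (G := fun i => GH i (n i) (n i + 2 - min (s (n i)) (n i + 1)))
    (fun i => by have := hni i; omega) hnn hβ1
    (fun i => by
      have h6 := hkey i
      omega)
    (fun i => by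
      refine gh_forced (h3 i _ ?_)
      have h6 := hkey i
      have h7 : r (lay (n i) (i + 3)) + β i ≤ (i + 3) * (r (lay (n i) (i + 3)) + β i) :=
        Nat.le_mul_of_pos_left _ (by omega)
      omega)
    (fun i => gh_local (hvis i).1 (hvis i).2.1)
  refine ⟨orc A, b8 hr hsm (fun e => ?_) (fun i => le_rfl) hA1 hA2 hA3 hA4, ?_⟩
  · filter_upwards [eventually_ge_atTop e] with i hi
    omega
  · intro hH
    obtain ⟨N, hN, hev⟩ := hH (WL (orc A)) (wl_mem _)
    obtain ⟨m₀, hm₀⟩ := Filter.eventually_atTop.1 hev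
    obtain ⟨i, hi, hiN⟩ := exists_machine hN m₀
    have h8 := hm₀ (n i) (by have := hni i; omega)
    have h9 : GH i (n i) (n i + 2 - min (s (n i)) (n i + 1)) A := hA5 i
    unfold GH at h9
    have h10 : cnt (n i) (fun x => [true] <+: x ∧ (AccE (orc A) i x ↔ x ∈ WL (orc A))) ≤
        err (WL (orc A))ᶜ N (n i) := by
      refine b11_cnt_mono fun x hx => ?_
      rw [hiN, Set.mem_compl_iff, ← hx.2]
      tauto
    have h11 : 2 ^ (s (n i) + (n i + 2 - min (s (n i)) (n i + 1))) ≤ 2 ^ (n i + 1) := by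
      calc 2 ^ (s (n i) + (n i + 2 - min (s (n i)) (n i + 1)))
          = 2 ^ s (n i) * 2 ^ (n i + 2 - min (s (n i)) (n i + 1)) := pow_add _ _ _
        _ ≤ 2 ^ s (n i) * (2 * err (WL (orc A))ᶜ N (n i)) :=
            Nat.mul_le_mul_left _ (h9.trans (Nat.mul_le_mul_left _ h10))
        _ = 2 * (2 ^ s (n i) * err (WL (orc A))ᶜ N (n i)) := by ring
        _ ≤ 2 * 2 ^ n i := Nat.mul_le_mul_left _ h8
        _ = 2 ^ (n i + 1) := by ring
    have h12 := (Nat.pow_le_pow_iff_right (by norm_num)).1 h11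
    omega

end Pool.Agent.LibAV75
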