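import Pool.Agent.LibAV75.B2

/-!
Row B3: all layers of a stage.
-/

namespace Pool.Agent.LibAV75

open Filter Function Pool.Agent.LibNexp Pool.Agent.LibBHN

theorem B3_fb_mono {E c L L' : ℕ} (h : L ≤ L') : fb E c L ≤ fb E c L' := by
  have h1 : 2 ^ L ≤ 2 ^ L' := Nat.pow_le_pow_right (by norm_num) h
  unfold fb
  gcongr

/-- PLAN. Induction on the number `d ≤ D` of layers: a state `LState n E R A d K Q F I` with
`2 ^ (n - 1 - d * (R + β)) ≤ I.card` and `F.card ≤ d * fb E (R + β) (lay n D)`. Start: `K = Q = F = ∅`,
`I` = all strings of length `n` starting with `true` (`2 ^ (n - 1)` strings: the image of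
`strs (n - 1)` under `true :: ·`); `few` is empty as `lay n 0 = n`. Step: `b2` with
`y := n - 1 - (d + 1) * (R + β)`; `lay n (d + 1) ≤ lay n D` (`lay_mono`) and `fb` is monotone in its
last argument. -/
theorem b3 {n E R β D : ℕ} (A : Set (List Bool)) (hn : 1 ≤ n) (hβ : E * lay n D ≤ 2 ^ β)
    (hD : D * (R + β) + 1 ≤ n) :
    ∃ (K : Finset (ℕ × List Bool)) (Q F I : Finset (List Bool)), LState n E R A D K Q F I ∧
      2 ^ (n - 1 - D * (R + β)) ≤ I.card ∧ F.card ≤ D * fb E (R + β) (lay n D) := by
  have key : ∀ d, d ≤ D → ∃ (K : Finset (ℕ × List Bool)) (Q F I : Finset (List Bool)),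
      LState n E R A d K Q F I ∧
      2 ^ (n - 1 - d * (R + β)) ≤ I.card ∧ F.card ≤ d * fb E (R + β) (lay n D) := by
    intro d
    induction d with
    | zero =>
      intro _
      refine ⟨∅, ∅, ∅, (strs (n - 1)).image fun z => true :: z, ?_, ?_, ?_⟩
      · refine ⟨?_, ?_, ?_, ?_, ?_, ?_⟩
        · intro p hp
          simp at hp
        · intro s hs
          simp at hs
        · intro x hx
          rw [Finset.mem_image] at hx
          obtain ⟨z, hz, rfl⟩ := hx
          rw [mem_strs] at hz
          refine ⟨?_, ?_⟩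
          · rw [List.length_cons, hz]
            omega
          · exact ⟨z, rfl⟩
        · intro x _
          exact Finset.disjoint_empty_right _
        · intro p hp
          simp at hp
        · intro e _ m h1 h2
          have h3 : lay n 0 = n := by simp [lay]
          omega
      · rw [Finset.card_image_of_injective _ (List.cons_injective), card_strs]
        simp
      · simp
    | succ d ih =>
      intro hd
      obtain ⟨K, Q, F, I, h1, h2, h3⟩ := ih (by omega)
      have h4 : (d + 1) * (R + β) ≤ D * (R + β) := Nat.mul_le_mul_right _ hd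
      have h5 : (d + 1) * (R + β) = d * (R + β) + (R + β) := by ring
      have h6 : n - 1 - (d + 1) * (R + β) + (R + β) = n - 1 - d * (R + β) := by omega
      have hl : lay n (d + 1) ≤ lay n D := lay_mono hn hd
      obtain ⟨K', Q', F', I', g1, g2, g3⟩ := b2 (β := β) (y := n - 1 - (d + 1) * (R + β)) hn h1
        ((Nat.mul_le_mul_left E hl).trans hβ) (by rw [h6]; exact h2)
      refine ⟨K', Q', F', I', g1, g2, ?_⟩
      have h7 : fb E (R + β) (lay n (d + 1)) ≤ fb E (R + β) (lay n D) := B3_fb_mono hl
      calc F'.card ≤ F.card + fb E (R + β) (lay n (d + 1)) := g3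
        _ ≤ d * fb E (R + β) (lay n D) + fb E (R + β) (lay n D) := Nat.add_le_add h3 h7
        _ = _ := by ring
  exact key D le_rfl

end Pool.Agent.LibAV75
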