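import Pool.Agent.LibAV75.Defs
import Pool.Agent.LibBHN.All
import Pool.Agent.LibBHN.Univ
import Pool.Agent.LibDual85.Log
import Pool.Agent.LibDual85.Rev

/-!
Row C0: arithmetic of the numbers coded by strings (`val`, least significant bit first).
-/

namespace Pool.Agent.LibAV75

open Filter Function Pool.Agent.LibNexp Pool.Agent.LibBHN

variable {O : List Bool → Bool}

private theorem C0_val_append (x z : List Bool) :
    val (x ++ z.flatMap fun _ => [false]) = val x := by
  induction x with
  | nil => simpa [val] using val_flat_false z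
  | cons b x ih => rw [List.cons_append, val, ih, val]

private theorem C0_flat_false (x : List Bool) :
    x.flatMap (fun _ => [false]) = List.replicate x.length false := by
  induction x with
  | nil => rfl
  | cons b x ih => rw [List.flatMap_cons, ih]; rfl

private theorem C0_flat_sing (x : List Bool) : x.flatMap (fun b => [b]) = x := by
  induction x with
  | nil => rfl
  | cons b x ih => rw [List.flatMap_cons, ih]; rfl

private theorem C0_flat_nil (x : List Bool) : x.flatMap (fun _ => ([] : List Bool)) = [] := by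
  induction x with
  | nil => rfl
  | cons b x ih => rw [List.flatMap_cons, ih]; rfl

private theorem C0_flat_ff (x : List Bool) :
    x.flatMap (fun _ => [false, false]) = (List.replicate x.length false).flatMap fun b => [b, b] := by
  induction x with
  | nil => rfl
  | cons b x ih => rw [List.flatMap_cons, ih, List.length_cons, List.replicate_succ, List.flatMap_cons]

/-- Padding of two strings to the same length. -/
private theorem C0_pad {R : List Bool → List Bool → List Bool → Prop}
    (h : NEXP O fun e : Fin 3 → List Bool => R (e 0) (e 1) (e 2)) {k : ℕ} (i j l : Fin k) :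
    NEXP O fun e : Fin k → List Bool => R (e i) (e j ++ (e l).flatMap fun _ => [false])
      (e l ++ (e j).flatMap fun _ => [false]) := by
  have h0 : ∀ {m : ℕ} (a b c : Fin m), NEXP O fun e : Fin m → List Bool =>
      e c = e a ++ (e b).flatMap fun _ => [false] := by
    intro m a b c
    refine ((nexp_subst (O := O) (fun b => [b]) (fun _ => [false]) []).reindex ![a, b, c]).congr
      fun e => ?_
    simp [C0_flat_sing]
  have h1 : NEXP O fun e : Fin 5 → List Bool =>
      (e 3 = e 1 ++ ((e 2).flatMap fun _ => [false]) ∧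
        e 4 = e 2 ++ ((e 1).flatMap fun _ => [false])) ∧ R (e 0) (e 3) (e 4) :=
    ((h0 1 2 3).and (h0 2 1 4)).and ((h.reindex ![0, 3, 4]).congr fun e => by simp)
  have h2 : NEXP O fun e : Fin 3 → List Bool => ∃ a b,
      (a = e 1 ++ ((e 2).flatMap fun _ => [false]) ∧
        b = e 2 ++ ((e 1).flatMap fun _ => [false])) ∧ R (e 0) a b := by
    refine nexp_ex2 (R := fun (e : Fin 3 → List Bool) a b =>
      (a = e 1 ++ ((e 2).flatMap fun _ => [false]) ∧
        b = e 2 ++ ((e 1).flatMap fun _ => [false])) ∧ R (e 0) a b) h1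
      (g := fun n => 2 * n) ((PolyB.const 2).mul PolyB.id) ?_ ?_
    · intro a b hab
      show 2 * a ≤ 2 * b
      omega
    · rintro e a b ⟨⟨rfl, rfl⟩, -⟩
      have h5 := len_le_size e 1
      have h6 := len_le_size e 2
      simp only [C0_flat_false, List.length_append, List.length_replicate]
      constructor <;> omega
  refine (h2.reindex ![i, j, l]).congr fun e => ?_
  simp only [Matrix.cons_val_zero, Matrix.cons_val_one, Matrix.cons_val]
  constructor
  · rintro ⟨a, b, ⟨rfl, rfl⟩, h3⟩
    exact h3
  · intro h3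
    exact ⟨_, _, ⟨rfl, rfl⟩, h3⟩

private theorem C0_len (x y : List Bool) : (x ++ y.flatMap fun _ => [false]).length =
    x.length + y.length := by
  rw [C0_flat_false, List.length_append, List.length_replicate]

/-- PLAN. As `nexp_valLe` in LibBHN/Str2.lean; for different lengths: there are strings `u`, `v` of
length `|e i| + |e j|`, `u = e i ++ 0...0`, `v = e j ++ 0...0` (`val_append_false`), `val u ≤ val v`. -/
theorem nexp_vLe {k : ℕ} (i j : Fin k) :
    NEXP O fun e : Fin k → List Bool => val (e i) ≤ val (e j) := by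
  refine (C0_pad (R := fun _ u v => u.length = v.length ∧ val u ≤ val v)
    (nexp_valLe (O := O) (k := 3) 1 2) i i j).congr fun e => ?_
  rw [C0_val_append, C0_val_append, C0_len, C0_len]
  exact ⟨fun h => h.2, fun h => ⟨Nat.add_comm _ _, h⟩⟩

theorem nexp_vLt {k : ℕ} (i j : Fin k) :
    NEXP O fun e : Fin k → List Bool => val (e i) < val (e j) := by
  refine (C0_pad (R := fun _ u v => u.length = v.length ∧ val u < val v)
    (nexp_valLt (O := O) (k := 3) 1 2) i i j).congr fun e => ?_
  rw [C0_val_append, C0_val_append, C0_len, C0_len]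
  exact ⟨fun h => h.2, fun h => ⟨Nat.add_comm _ _, h⟩⟩

/-- Reachability through pairs. -/
private theorem C0_reach
    {S : List Bool → List Bool → List Bool → List Bool → List Bool → List Bool → List Bool → Prop}
    (hS : NEXP O fun e : Fin 9 → List Bool => S (e 0) (e 1) (e 2) (e 5) (e 6) (e 7) (e 8))
    (hb : ∀ x y z t u t' u', S x y z t u t' u' → t'.length ≤ x.length ∧ u'.length ≤ y.length) :
    NEXP O fun e : Fin 5 → List Bool => Relation.ReflTransGen (fun a b => ∃ t u t' u',
      (a = pair t u ∧ b = pair t' u') ∧ S (e 0) (e 1) (e 2) t u t' u') (e 3) (e 4) := by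
  have h1 : NEXP O fun e : Fin 9 → List Bool =>
      (e 3 = pair (e 5) (e 6) ∧ e 4 = pair (e 7) (e 8)) ∧
        S (e 0) (e 1) (e 2) (e 5) (e 6) (e 7) (e 8) :=
    ((nexp_pair3 5 6 3).and (nexp_pair3 7 8 4)).and hS
  have h2 : NEXP O fun e : Fin 7 → List Bool => ∃ t' u',
      (e 3 = pair (e 5) (e 6) ∧ e 4 = pair t' u') ∧ S (e 0) (e 1) (e 2) (e 5) (e 6) t' u' := by
    refine nexp_ex2 (R := fun (e : Fin 7 → List Bool) t' u' =>
      (e 3 = pair (e 5) (e 6) ∧ e 4 = pair t' u') ∧ S (e 0) (e 1) (e 2) (e 5) (e 6) t' u') h1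
      (g := fun n => n) PolyB.id monotone_id ?_
    rintro e a b ⟨⟨-, h⟩, -⟩
    have := len_le_size e 4
    rw [h, length_pair] at this
    constructor <;> omega
  have h3 : NEXP O fun e : Fin 5 → List Bool => ∃ t u t' u',
      (e 3 = pair t u ∧ e 4 = pair t' u') ∧ S (e 0) (e 1) (e 2) t u t' u' := by
    refine nexp_ex2 (R := fun (e : Fin 5 → List Bool) t u => ∃ t' u',
      (e 3 = pair t u ∧ e 4 = pair t' u') ∧ S (e 0) (e 1) (e 2) t u t' u') h2
      (g := fun n => n) PolyB.id monotone_id ?_
    rintro e a b ⟨t', u', ⟨h, -⟩, -⟩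
    have := len_le_size e 3
    rw [h, length_pair] at this
    constructor <;> omega
  refine nexp_reach (k := 3) (S := fun e a b => ∃ t u t' u',
      (a = pair t u ∧ b = pair t' u') ∧ S (e 0) (e 1) (e 2) t u t' u') h3
    (g := fun n => 3 * n + 2) (((PolyB.const 3).mul PolyB.id).add (PolyB.const 2)) ?_ ?_
  · intro a b hab
    show 3 * a + 2 ≤ 3 * b + 2
    omega
  · rintro e a b ⟨t, u, t', u', ⟨-, rfl⟩, h⟩
    have h4 := hb _ _ _ _ _ _ _ h
    have h5 := len_le_size e 0
    have h6 := len_le_size e 1
    rw [length_pair]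
    omega

private def C0A (x y z t u t' u' : List Bool) : Prop :=
  (Suc t t' ∧ Suc u u') ∧ t'.length ≤ x.length ∧ u'.length ≤ y.length

private theorem C0_rep (n : ℕ) : val (List.replicate n false) = 0 := by
  have h1 := val_false n []
  rw [List.append_nil] at h1
  rw [h1]
  simp [val]

private theorem C0_bits0 (n : ℕ) : bits n 0 = List.replicate n false := by
  refine val_inj (by simp) ?_
  rw [C0_rep, val_bits (by positivity)]

private theorem C0_add_iff (x y z : List Bool) : Relation.ReflTransGen (fun a b => ∃ t u t' u',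
      (a = pair t u ∧ b = pair t' u') ∧ C0A x y z t u t' u')
      (pair (List.replicate x.length false) z) (pair x y) ↔
      y.length = z.length ∧ val y = val z + val x := by
  constructor
  · intro h
    have key : ∀ b, Relation.ReflTransGen (fun a b => ∃ t u t' u',
      (a = pair t u ∧ b = pair t' u') ∧ C0A x y z t u t' u')
      (pair (List.replicate x.length false) z) b →
      ∃ t u, b = pair t u ∧ u.length = z.length ∧ val u = val z + val t := by
      intro b hb
      induction hb with
      | refl => exact ⟨_, _, rfl, rfl, by rw [C0_rep, add_zero]⟩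
      | tail _ hs ih =>
        obtain ⟨t, u, t', u', ⟨rfl, rfl⟩, hs⟩ := hs
        obtain ⟨t0, u0, h0, h1, h2⟩ := ih
        obtain ⟨rfl, rfl⟩ := pair_injective h0
        refine ⟨_, _, rfl, ?_, ?_⟩
        · rw [hs.1.2.1, h1]
        · rw [hs.1.2.2, hs.1.1.2, h2]
          ring
    obtain ⟨t, u, h1, h2⟩ := key _ h
    obtain ⟨rfl, rfl⟩ := pair_injective h1
    exact h2
  · rintro ⟨hl, h⟩
    have hy := val_lt y
    have hx := val_lt x
    have key : ∀ i ≤ val x, Relation.ReflTransGen (fun a b => ∃ t u t' u',
      (a = pair t u ∧ b = pair t' u') ∧ C0A x y z t u t' u')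
      (pair (List.replicate x.length false) z) (pair (bits x.length i) (bits y.length (val z + i))) := by
      intro i
      induction i with
      | zero =>
        intro _
        rw [C0_bits0, add_zero, hl, bits_val]
      | succ i ih =>
        intro hi
        refine (ih (by omega)).tail ⟨_, _, _, _, ⟨rfl, rfl⟩, ⟨⟨?_, ?_⟩, ⟨?_, ?_⟩⟩, ?_, ?_⟩
        · simp
        · rw [val_bits (by omega), val_bits (by omega)]
        · simp
        · rw [val_bits (by omega), val_bits (by omega)]
          ring
        · simp
        · simp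
    have h1 := key (val x) le_rfl
    rw [← h, bits_val, bits_val] at h1
    exact h1

private theorem C0_add {k : ℕ} (i j l : Fin k) : NEXP O fun e : Fin k → List Bool =>
    (e l).length = (e j).length ∧ val (e l) = val (e j) + val (e i) := by
  have h1 : NEXP O fun e : Fin 9 → List Bool =>
      C0A (e 0) (e 1) (e 2) (e 5) (e 6) (e 7) (e 8) :=
    ((nexp_suc 5 7).and (nexp_suc 6 8)).and ((nexp_lenLe 7 0).and (nexp_lenLe 8 1))
  have h2 := C0_reach h1 (fun x y z t u t' u' h => ⟨h.2.1, h.2.2⟩)
  have h3 : NEXP O fun e : Fin 5 → List Bool =>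
      e 3 = (e 0).flatMap (fun _ => [false, false]) ++ [true, false] ++ (e 2).flatMap (fun b => [b]) := by
    refine ((nexp_subst (O := O) (fun _ => [false, false]) (fun b => [b]) [true, false]).reindex
      ![0, 2, 3]).congr fun e => ?_
    simp
  have h4 : NEXP O fun e : Fin 3 → List Bool => ∃ s f : List Bool,
      (s = (e 0).flatMap (fun _ => [false, false]) ++ [true, false] ++ (e 2).flatMap (fun b => [b]) ∧
        f = pair (e 0) (e 1)) ∧ Relation.ReflTransGen (fun a b => ∃ t u t' u',
      (a = pair t u ∧ b = pair t' u') ∧ C0A (e 0) (e 1) (e 2) t u t' u') s f := by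
    refine nexp_ex2 (R := fun (e : Fin 3 → List Bool) s f =>
      (s = (e 0).flatMap (fun _ => [false, false]) ++ [true, false] ++ (e 2).flatMap (fun b => [b]) ∧
        f = pair (e 0) (e 1)) ∧ Relation.ReflTransGen (fun a b => ∃ t u t' u',
      (a = pair t u ∧ b = pair t' u') ∧ C0A (e 0) (e 1) (e 2) t u t' u') s f)
      ((h3.and (nexp_pair3 0 1 4)).and h2)
      (g := fun n => 3 * n + 2) (((PolyB.const 3).mul PolyB.id).add (PolyB.const 2)) ?_ ?_
    · intro a b hab
      show 3 * a + 2 ≤ 3 * b + 2
      omega
    · rintro e a b ⟨⟨rfl, rfl⟩, -⟩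
      have h5 := len_le_size e 0
      have h6 := len_le_size e 1
      have h7 := len_le_size e 2
      rw [length_pair, C0_flat_sing, C0_flat_ff]
      simp
      constructor <;> omega
  refine (h4.reindex ![i, l, j]).congr fun e => ?_
  simp only [Matrix.cons_val_zero, Matrix.cons_val_one, Matrix.cons_val]
  rw [← C0_add_iff (e i) (e l) (e j)]
  have h6 : ∀ x z : List Bool, x.flatMap (fun _ => [false, false]) ++ [true, false] ++
      z.flatMap (fun b => [b]) = pair (List.replicate x.length false) z := by
    intro x z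
    rw [C0_flat_ff, C0_flat_sing]
    rfl
  constructor
  · rintro ⟨s, f, ⟨rfl, rfl⟩, h⟩
    rw [h6] at h
    exact h
  · intro h
    refine ⟨_, _, ⟨rfl, rfl⟩, ?_⟩
    rw [h6]
    exact h

/-- PLAN. Reachability (`nexp_reach`): from `pair a c` to `pair a' c'` with `Suc a a'`, `Suc c c'`
(lengths stay fixed), starting at `(0...0, e j)` padded to length `|e i| + |e j| + |e l| + 1`, ending at
`(e i, e l)` padded. -/
theorem nexp_vAdd {k : ℕ} (i j l : Fin k) :
    NEXP O fun e : Fin k → List Bool => val (e l) = val (e i) + val (e j) := by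
  refine (C0_pad (R := fun x u v => v.length = u.length ∧ val v = val u + val x)
    (C0_add (O := O) (k := 3) 0 1 2) i j l).congr fun e => ?_
  rw [C0_val_append, C0_val_append, C0_len, C0_len]
  constructor
  · rintro ⟨-, h⟩
    rw [h, add_comm]
  · intro h
    exact ⟨Nat.add_comm _ _, by rw [h, add_comm]⟩

private def C0M (x y z t u t' u' : List Bool) : Prop :=
  (Suc t t' ∧ (u'.length = u.length ∧ val u' = val u + val z)) ∧
    t'.length ≤ x.length ∧ u'.length ≤ y.length

private theorem C0_mul_iff (x y z : List Bool) : Relation.ReflTransGen (fun a b => ∃ t u t' u',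
      (a = pair t u ∧ b = pair t' u') ∧ C0M x y z t u t' u')
      (pair (List.replicate x.length false) (List.replicate y.length false)) (pair x y) ↔
      val y = val x * val z := by
  constructor
  · intro h
    have key : ∀ b, Relation.ReflTransGen (fun a b => ∃ t u t' u',
      (a = pair t u ∧ b = pair t' u') ∧ C0M x y z t u t' u')
      (pair (List.replicate x.length false) (List.replicate y.length false)) b →
      ∃ t u, b = pair t u ∧ val u = val t * val z := by
      intro b hb
      induction hb with
      | refl => exact ⟨_, _, rfl, by rw [C0_rep, C0_rep, zero_mul]⟩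
      | tail _ hs ih =>
        obtain ⟨t, u, t', u', ⟨rfl, rfl⟩, hs⟩ := hs
        obtain ⟨t0, u0, h0, h1⟩ := ih
        obtain ⟨rfl, rfl⟩ := pair_injective h0
        refine ⟨_, _, rfl, ?_⟩
        rw [hs.1.2.2, hs.1.1.2, h1]
        ring
    obtain ⟨t, u, h1, h2⟩ := key _ h
    obtain ⟨rfl, rfl⟩ := pair_injective h1
    exact h2
  · intro h
    have hy := val_lt y
    have hx := val_lt x
    have key : ∀ i ≤ val x, Relation.ReflTransGen (fun a b => ∃ t u t' u',
      (a = pair t u ∧ b = pair t' u') ∧ C0M x y z t u t' u')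
      (pair (List.replicate x.length false) (List.replicate y.length false))
      (pair (bits x.length i) (bits y.length (i * val z))) := by
      intro i
      induction i with
      | zero =>
        intro _
        rw [C0_bits0, zero_mul, C0_bits0]
      | succ i ih =>
        intro hi
        have h2 : i * val z ≤ val x * val z := Nat.mul_le_mul_right _ (by omega)
        have h3 : (i + 1) * val z ≤ val x * val z := Nat.mul_le_mul_right _ hi
        refine (ih (by omega)).tail ⟨_, _, _, _, ⟨rfl, rfl⟩, ⟨⟨?_, ?_⟩, ⟨?_, ?_⟩⟩, ?_, ?_⟩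
        · simp
        · rw [val_bits (by omega), val_bits (by omega)]
        · simp
        · rw [val_bits (by omega), val_bits (by omega)]
          ring
        · simp
        · simp
    have h1 := key (val x) le_rfl
    rw [← h, bits_val, bits_val] at h1
    exact h1

/-- PLAN. Reachability: from `pair a c` to `pair a' c'` with `Suc a a'`, `val c' = val c + val (e j)`
(`nexp_vAdd`), lengths bounded by a padding string. -/
theorem nexp_vMul {k : ℕ} (i j l : Fin k) :
    NEXP O fun e : Fin k → List Bool => val (e l) = val (e i) * val (e j) := by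
  have h1 : NEXP O fun e : Fin 9 → List Bool =>
      C0M (e 0) (e 1) (e 2) (e 5) (e 6) (e 7) (e 8) :=
    ((nexp_suc 5 7).and (C0_add 2 6 8)).and ((nexp_lenLe 7 0).and (nexp_lenLe 8 1))
  have h2 := C0_reach h1 (fun x y z t u t' u' h => ⟨h.2.1, h.2.2⟩)
  have h3 : NEXP O fun e : Fin 5 → List Bool =>
      e 3 = (e 0).flatMap (fun _ => [false, false]) ++ [true, false] ++
        (e 1).flatMap (fun _ => [false]) := by
    refine ((nexp_subst (O := O) (fun _ => [false, false]) (fun _ => [false]) [true, false]).reindex
      ![0, 1, 3]).congr fun e => ?_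
    simp
  have h4 : NEXP O fun e : Fin 3 → List Bool => ∃ s f : List Bool,
      (s = (e 0).flatMap (fun _ => [false, false]) ++ [true, false] ++
          (e 1).flatMap (fun _ => [false]) ∧
        f = pair (e 0) (e 1)) ∧ Relation.ReflTransGen (fun a b => ∃ t u t' u',
      (a = pair t u ∧ b = pair t' u') ∧ C0M (e 0) (e 1) (e 2) t u t' u') s f := by
    refine nexp_ex2 (R := fun (e : Fin 3 → List Bool) s f =>
      (s = (e 0).flatMap (fun _ => [false, false]) ++ [true, false] ++
          (e 1).flatMap (fun _ => [false]) ∧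
        f = pair (e 0) (e 1)) ∧ Relation.ReflTransGen (fun a b => ∃ t u t' u',
      (a = pair t u ∧ b = pair t' u') ∧ C0M (e 0) (e 1) (e 2) t u t' u') s f)
      ((h3.and (nexp_pair3 0 1 4)).and h2)
      (g := fun n => 3 * n + 2) (((PolyB.const 3).mul PolyB.id).add (PolyB.const 2)) ?_ ?_
    · intro a b hab
      show 3 * a + 2 ≤ 3 * b + 2
      omega
    · rintro e a b ⟨⟨rfl, rfl⟩, -⟩
      have h5 := len_le_size e 0
      have h6 := len_le_size e 1
      have h7 := len_le_size e 2
      rw [length_pair, C0_flat_false, C0_flat_ff]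
      simp
      constructor <;> omega
  refine (h4.reindex ![i, l, j]).congr fun e => ?_
  simp only [Matrix.cons_val_zero, Matrix.cons_val_one, Matrix.cons_val]
  rw [← C0_mul_iff (e i) (e l) (e j)]
  have h6 : ∀ x z : List Bool, x.flatMap (fun _ => [false, false]) ++ [true, false] ++
      z.flatMap (fun _ => [false]) = pair (List.replicate x.length false)
        (List.replicate z.length false) := by
    intro x z
    rw [C0_flat_ff, C0_flat_false]
    rfl
  constructor
  · rintro ⟨s, f, ⟨rfl, rfl⟩, h⟩
    rw [h6] at h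
    exact h
  · intro h
    refine ⟨_, _, ⟨rfl, rfl⟩, ?_⟩
    rw [h6]
    exact h

/-- PLAN. There is `u` of length `|e i|` consisting of ones (`val u + 1 = 2 ^ |e i|`; e.g. `e i`
mapped by `fun _ => [true]`, `nexp_subst`, `val_flat_true`). -/
theorem nexp_vPow {k : ℕ} (i j : Fin k) :
    NEXP O fun e : Fin k → List Bool => val (e j) = 2 ^ (e i).length := by
  have h0 : NEXP O fun e : Fin 4 → List Bool => e 2 = (e 0).flatMap fun _ => [true] := by
    refine ((nexp_subst (O := O) (fun _ => [true]) (fun _ => []) []).reindex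
      ![0, 0, 2]).congr fun e => ?_
    simp [C0_flat_nil]
  have h1 : NEXP O fun e : Fin 4 → List Bool => ((e 2 = (e 0).flatMap fun _ => [true]) ∧
      e 3 = [true]) ∧ val (e 1) = val (e 2) + val (e 3) :=
    (h0.and (nexp_const [true] 3)).and (nexp_vAdd 2 3 1)
  have h2 : NEXP O fun e : Fin 2 → List Bool => ∃ a b, ((a = (e 0).flatMap fun _ => [true]) ∧
      b = [true]) ∧ val (e 1) = val a + val b := by
    refine nexp_ex2 (R := fun (e : Fin 2 → List Bool) a b => ((a = (e 0).flatMap fun _ => [true]) ∧
      b = [true]) ∧ val (e 1) = val a + val b) h1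
      (g := fun n => n + 1) (PolyB.id.add (PolyB.const 1)) ?_ ?_
    · intro a b hab
      show a + 1 ≤ b + 1
      omega
    · rintro e a b ⟨⟨rfl, rfl⟩, -⟩
      have h5 := len_le_size e 0
      simp
      omega
  refine (h2.reindex ![i, j]).congr fun e => ?_
  simp only [Matrix.cons_val_zero, Matrix.cons_val_one]
  have h3 := val_flat_true (e i)
  have h4 : val [true] = 1 := rfl
  constructor
  · rintro ⟨a, b, ⟨rfl, rfl⟩, h⟩
    rw [h, h4, h3]
  · intro h
    refine ⟨_, _, ⟨rfl, rfl⟩, ?_⟩
    rw [h, h4, h3]

theorem nexp_vConst (c : ℕ) {k : ℕ} (i : Fin k) :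
    NEXP O fun e : Fin k → List Bool => val (e i) = c := by
  have hc : val (bits c c) = c := val_bits Nat.lt_two_pow_self
  have h1 : NEXP O fun e : Fin 2 → List Bool => e 1 = bits c c ∧
      (val (e 0) ≤ val (e 1) ∧ val (e 1) ≤ val (e 0)) :=
    (nexp_const (bits c c) 1).and ((nexp_vLe 0 1).and (nexp_vLe 1 0))
  have h2 : NEXP O fun e : Fin 1 → List Bool => ∃ z, z = bits c c ∧
      (val (e 0) ≤ val z ∧ val z ≤ val (e 0)) := by
    refine nexp_ex (R := fun (e : Fin 1 → List Bool) z => z = bits c c ∧
      (val (e 0) ≤ val z ∧ val z ≤ val (e 0))) h1 (g := fun _ => c) (PolyB.const c) ?_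
    rintro e z ⟨rfl, -⟩
    rw [length_bits]
  refine (h2.reindex ![i]).congr fun e => ?_
  simp only [Matrix.cons_val_zero]
  constructor
  · rintro ⟨z, rfl, h3, h4⟩
    omega
  · intro h
    exact ⟨_, rfl, by omega, by omega⟩

end Pool.Agent.LibAV75
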