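import Pool.Agent.LibAV75.C0

/-!
Row C1: lower bounds for numbers of strings.
-/

namespace Pool.Agent.LibAV75

open Filter Function Pool.Agent.LibNexp Pool.Agent.LibBHN

variable {O : List Bool → Bool}

/-- thresholds in general: a monotone condition on the number of strings -/
theorem C1_thr {k : ℕ} {R : (Fin k → List Bool) → List Bool → Prop}
    (h : NEXP O fun e : Fin (k + 1) → List Bool =>
      R (low (Nat.le_add_right k 1) e) (e (Fin.last k))) (j : Fin k)
    {T : (Fin k → List Bool) → ℕ → Prop}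
    (hT : NEXP O fun e : Fin (k + 1) → List Bool =>
      T (low (Nat.le_add_right k 1) e) (val (e (Fin.last k))))
    (mono : ∀ e a b, a ≤ b → T e a → T e b) :
    NEXP O fun e : Fin k → List Bool => T e (cnt (e j).length (R e)) := by
  have hlen : NEXP O fun e : Fin (k + 1) → List Bool => ∃ l, (e (Fin.last k)).length = 1 * l + 1 ∧
      (e (Fin.castLE (Nat.le_add_right k 1) j)).length = 1 * l + 0 := by
    refine ((nexp_len (O := O) 1 1 1 0).reindex
      ![Fin.last k, Fin.castLE (Nat.le_add_right k 1) j]).congr fun e => ?_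
    simp
  have h1 : NEXP O fun e : Fin (k + 1) → List Bool =>
      (∃ n, (e (Fin.last k)).length = n + 1 ∧
        val (e (Fin.last k)) ≤ cnt n (R (low (Nat.le_add_right k 1) e))) ∧
      (∃ l, (e (Fin.last k)).length = 1 * l + 1 ∧
        (e (Fin.castLE (Nat.le_add_right k 1) j)).length = 1 * l + 0) ∧
      T (low (Nat.le_add_right k 1) e) (val (e (Fin.last k))) :=
    (nexp_count h).and (hlen.and hT)
  have h2 : NEXP O fun e : Fin k → List Bool => ∃ u,
      (∃ n, u.length = n + 1 ∧ val u ≤ cnt n (R e)) ∧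
      (∃ l, u.length = 1 * l + 1 ∧ (e j).length = 1 * l + 0) ∧ T e (val u) := by
    refine nexp_ex (R := fun (e : Fin k → List Bool) u =>
      (∃ n, u.length = n + 1 ∧ val u ≤ cnt n (R e)) ∧
      (∃ l, u.length = 1 * l + 1 ∧ (e j).length = 1 * l + 0) ∧ T e (val u))
      (h1.congr fun e => Iff.rfl) (g := fun n => n + 1) PolyB.id.succ ?_
    rintro e z ⟨-, ⟨l, hl1, hl2⟩, -⟩
    have := len_le_size e j
    show z.length ≤ size e + 1
    omega
  refine h2.congr fun e => ?_
  constructor
  · rintro ⟨u, ⟨n, hn, hc⟩, ⟨l, hl1, hl2⟩, ht⟩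
    have h3 : (e j).length = n := by omega
    rw [h3]
    exact mono _ _ _ hc ht
  · intro ht
    have h3 : cnt (e j).length (R e) < 2 ^ ((e j).length + 1) := by
      have := cnt_le (e j).length (R e)
      have h4 : 0 < 2 ^ (e j).length := Nat.two_pow_pos _
      rw [pow_succ]
      omega
    refine ⟨bits ((e j).length + 1) (cnt (e j).length (R e)), ⟨(e j).length, by simp, ?_⟩,
      ⟨(e j).length, by simp, by simp⟩, ?_⟩
    · rw [val_bits h3]
    · rw [val_bits h3]
      exact ht

theorem C1_pow (b : Bool) : NEXP O fun e : Fin 2 → List Bool =>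
    if b then 2 ^ (e 0).length ≤ 2 * val (e 1) else 2 ^ (e 0).length < 2 * val (e 1) := by
  have hl1 : NEXP O fun e : Fin 4 → List Bool => ∃ l, (e 3).length = 1 * l + 1 ∧
      (e 0).length = 1 * l + 0 := by
    refine ((nexp_len (O := O) 1 1 1 0).reindex ![(3 : Fin 4), 0]).congr fun e => ?_
    simp
  have hl2 : NEXP O fun e : Fin 4 → List Bool => ∃ l, (e 2).length = 1 * l + 1 ∧
      (e 1).length = 1 * l + 0 := by
    refine ((nexp_len (O := O) 1 1 1 0).reindex ![(2 : Fin 4), 1]).congr fun e => ?_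
    simp
  have hcmp : NEXP O fun e : Fin 4 → List Bool =>
      if b then val (e 3) ≤ val (e 2) else val (e 3) < val (e 2) := by
    cases b
    · simpa using nexp_vLt (O := O) (3 : Fin 4) 2
    · simpa using nexp_vLe (O := O) (3 : Fin 4) 2
  have h1 : NEXP O fun e : Fin 4 → List Bool => val (e 3) = 2 ^ (e 0).length ∧
      val (e 2) = val (e 1) + val (e 1) ∧
      (if b then val (e 3) ≤ val (e 2) else val (e 3) < val (e 2)) ∧
      (∃ l, (e 3).length = 1 * l + 1 ∧ (e 0).length = 1 * l + 0) ∧
      (∃ l, (e 2).length = 1 * l + 1 ∧ (e 1).length = 1 * l + 0) :=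
    (nexp_vPow 0 3).and ((nexp_vAdd 1 1 2).and (hcmp.and (hl1.and hl2)))
  have h2 : NEXP O fun e : Fin 3 → List Bool => ∃ w, val w = 2 ^ (e 0).length ∧
      val (e 2) = val (e 1) + val (e 1) ∧
      (if b then val w ≤ val (e 2) else val w < val (e 2)) ∧
      (∃ l, w.length = 1 * l + 1 ∧ (e 0).length = 1 * l + 0) ∧
      (∃ l, (e 2).length = 1 * l + 1 ∧ (e 1).length = 1 * l + 0) := by
    refine nexp_ex (R := fun (e : Fin 3 → List Bool) w => val w = 2 ^ (e 0).length ∧
      val (e 2) = val (e 1) + val (e 1) ∧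
      (if b then val w ≤ val (e 2) else val w < val (e 2)) ∧
      (∃ l, w.length = 1 * l + 1 ∧ (e 0).length = 1 * l + 0) ∧
      (∃ l, (e 2).length = 1 * l + 1 ∧ (e 1).length = 1 * l + 0))
      (h1.congr fun e => Iff.rfl) (g := fun n => n + 1) PolyB.id.succ ?_
    rintro e z ⟨-, -, -, ⟨l, h3, h4⟩, -⟩
    have := len_le_size e 0
    show z.length ≤ size e + 1
    omega
  have h3 : NEXP O fun e : Fin 2 → List Bool => ∃ t w, val w = 2 ^ (e 0).length ∧
      val t = val (e 1) + val (e 1) ∧
      (if b then val w ≤ val t else val w < val t) ∧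
      (∃ l, w.length = 1 * l + 1 ∧ (e 0).length = 1 * l + 0) ∧
      (∃ l, t.length = 1 * l + 1 ∧ (e 1).length = 1 * l + 0) := by
    refine nexp_ex (R := fun (e : Fin 2 → List Bool) t => ∃ w, val w = 2 ^ (e 0).length ∧
      val t = val (e 1) + val (e 1) ∧
      (if b then val w ≤ val t else val w < val t) ∧
      (∃ l, w.length = 1 * l + 1 ∧ (e 0).length = 1 * l + 0) ∧
      (∃ l, t.length = 1 * l + 1 ∧ (e 1).length = 1 * l + 0))
      (h2.congr fun e => Iff.rfl) (g := fun n => n + 1) PolyB.id.succ ?_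
    rintro e z ⟨w, -, -, -, -, ⟨l, h3, h4⟩⟩
    have := len_le_size e 1
    show z.length ≤ size e + 1
    omega
  refine h3.congr fun e => ?_
  constructor
  · rintro ⟨t, w, hw, ht, hc, -, -⟩
    cases b
    · simp only [Bool.false_eq_true, if_false] at hc ⊢
      omega
    · simp only [if_true] at hc ⊢
      omega
  · intro hc
    have hp : 2 ^ (e 0).length < 2 ^ ((e 0).length + 1) := by
      have h4 : 0 < 2 ^ (e 0).length := Nat.two_pow_pos _
      rw [pow_succ]
      omega
    have hv : val (e 1) + val (e 1) < 2 ^ ((e 1).length + 1) := by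
      have := cnt_val_lt (e 1)
      rw [pow_succ]
      omega
    refine ⟨bits ((e 1).length + 1) (val (e 1) + val (e 1)),
      bits ((e 0).length + 1) (2 ^ (e 0).length), val_bits hp, val_bits hv, ?_,
      ⟨(e 0).length, by simp, by simp⟩, ⟨(e 1).length, by simp, by simp⟩⟩
    rw [val_bits hp, val_bits hv]
    cases b
    · simp only [Bool.false_eq_true, if_false] at hc ⊢
      omega
    · simp only [if_true] at hc ⊢
      omega

/-- PLAN. `nexp_count`: there is `u` with `|u| = |e j| + 1` and `val u = val (e i)`; if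
`val (e i) ≥ 2 ^ (|e j| + 1)` both sides are false (`cnt_le`). -/
theorem nexp_ge {k : ℕ} {R : (Fin k → List Bool) → List Bool → Prop}
    (h : NEXP O fun e : Fin (k + 1) → List Bool =>
      R (low (Nat.le_add_right k 1) e) (e (Fin.last k))) (i j : Fin k) :
    NEXP O fun e : Fin k → List Bool => val (e i) ≤ cnt (e j).length (R e) := by
  refine C1_thr h j (T := fun e a => val (e i) ≤ a) ?_ fun e a b hab ha => ha.trans hab
  exact (nexp_vLe (O := O) (Fin.castLE (Nat.le_add_right k 1) i) (Fin.last k)).congr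
    fun e => Iff.rfl

/-- At least half. PLAN. There is a string `u` of length `|e j| + 1` with `2 ^ |e j| ≤ 2 * val u` and
`val u ≤ cnt` (`nexp_ge` with one more variable, `nexp_vPow`, `nexp_vAdd`, `nexp_vLe`). -/
theorem nexp_half {k : ℕ} {R : (Fin k → List Bool) → List Bool → Prop}
    (h : NEXP O fun e : Fin (k + 1) → List Bool =>
      R (low (Nat.le_add_right k 1) e) (e (Fin.last k))) (j : Fin k) :
    NEXP O fun e : Fin k → List Bool => 2 ^ (e j).length ≤ 2 * cnt (e j).length (R e) := by
  refine C1_thr h j (T := fun e a => 2 ^ (e j).length ≤ 2 * a) ?_ fun e a b hab ha =>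
    ha.trans (Nat.mul_le_mul_left 2 hab)
  refine ((C1_pow (O := O) true).reindex
    ![Fin.castLE (Nat.le_add_right k 1) j, Fin.last k]).congr fun e => ?_
  simp [low]

/-- More than half. -/
theorem nexp_more {k : ℕ} {R : (Fin k → List Bool) → List Bool → Prop}
    (h : NEXP O fun e : Fin (k + 1) → List Bool =>
      R (low (Nat.le_add_right k 1) e) (e (Fin.last k))) (j : Fin k) :
    NEXP O fun e : Fin k → List Bool => 2 ^ (e j).length < 2 * cnt (e j).length (R e) := by
  refine C1_thr h j (T := fun e a => 2 ^ (e j).length < 2 * a) ?_ fun e a b hab ha =>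
    ha.trans_le (Nat.mul_le_mul_left 2 hab)
  refine ((C1_pow (O := O) false).reindex
    ![Fin.castLE (Nat.le_add_right k 1) j, Fin.last k]).congr fun e => ?_
  simp [low]

end Pool.Agent.LibAV75
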