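import Pool.Agent.LibAV75.Defs
import Pool.Agent.LibBHN.All
import Pool.Agent.LibBHN.Univ

/-!
Row C2: derivations of polynomial depth. `encL` codes lists of strings (LibBHN/Univ.lean):
`encL (t :: l) = pair t (encL l)`, `encL [] = []`.
-/

namespace Pool.Agent.LibAV75

open Filter Function Pool.Agent.LibNexp Pool.Agent.LibBHN

variable {O : List Bool → Bool}

/-- The goals which can be derived: `Rule x G` says that the goal `x` follows from the goals in the
list coded by `G`. -/
inductive Der (Rule : List Bool → List Bool → Prop) : List Bool → Prop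
  | mk (x : List Bool) (l : List (List Bool)) : Rule x (encL l) → (∀ y ∈ l, Der Rule y) →
    Der Rule x

/-- concatenation of all the variables -/
private def C2_cat : (k : ℕ) → (Fin k → List Bool) → List Bool
  | 0, _ => []
  | k + 1, e => C2_cat k (low (Nat.le_add_right k 1) e) ++ e (Fin.last k)

private theorem C2_cat_length : ∀ (k : ℕ) (e : Fin k → List Bool), (C2_cat k e).length = size e
  | 0, e => by simp [C2_cat, size]
  | k + 1, e => by
    rw [C2_cat, List.length_append, C2_cat_length k, size, size, Fin.sum_univ_castSucc]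
    rfl

private def C2_ix {k m : ℕ} (h : k ≤ m) (a b : Fin m) : Fin (k + 2) → Fin m := fun j =>
  if hj : j.val < k then ⟨j.val, lt_of_lt_of_le hj h⟩ else if j.val = k then a else b

private theorem C2_ri {k m : ℕ} {R : (Fin k → List Bool) → List Bool → List Bool → Prop}
    (h : NEXP O fun e : Fin (k + 2) → List Bool =>
      R (low (Nat.le_add_right k 2) e) (e (Fin.castSucc (Fin.last k))) (e (Fin.last (k + 1))))
    (hk : k ≤ m) (a b : Fin m) :
    NEXP O fun e : Fin m → List Bool => R (low hk e) (e a) (e b) := by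
  refine (h.reindex (C2_ix hk a b)).congr fun e => ?_
  have h1 : low (Nat.le_add_right k 2) (fun j => e (C2_ix hk a b j)) = low hk e := by
    funext j
    have := j.2
    simp only [low, C2_ix, Fin.val_castLE, this, dif_pos]
    rfl
  have h2 : C2_ix hk a b (Fin.castSucc (Fin.last k)) = a := by
    simp [C2_ix]
  have h3 : C2_ix hk a b (Fin.last (k + 1)) = b := by
    simp [C2_ix]
  rw [h1]
  simp only [h2, h3]

private def C2_ix1 {k m : ℕ} (h : k ≤ m) (a : Fin m) : Fin (k + 1) → Fin m := fun j =>
  if hj : j.val < k then ⟨j.val, lt_of_lt_of_le hj h⟩ else a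

private theorem C2_ri1 {k m : ℕ} {R : (Fin k → List Bool) → List Bool → Prop}
    (h : NEXP O fun e : Fin (k + 1) → List Bool =>
      R (low (Nat.le_add_right k 1) e) (e (Fin.last k)))
    (hk : k ≤ m) (a : Fin m) :
    NEXP O fun e : Fin m → List Bool => R (low hk e) (e a) := by
  refine (h.reindex (C2_ix1 hk a)).congr fun e => ?_
  have h1 : low (Nat.le_add_right k 1) (fun j => e (C2_ix1 hk a j)) = low hk e := by
    funext j
    have := j.2
    simp only [low, C2_ix1, Fin.val_castLE, this, dif_pos]
    rfl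
  have h2 : C2_ix1 hk a (Fin.last k) = a := by
    simp [C2_ix1]
  rw [h1]
  simp only [h2]

private def C2_ix3 {k m : ℕ} (h : k ≤ m) (a b c : Fin m) : Fin (k + 3) → Fin m := fun j =>
  if hj : j.val < k then ⟨j.val, lt_of_lt_of_le hj h⟩ else if j.val = k then a else
    if j.val = k + 1 then b else c

private theorem C2_ri3 {k m : ℕ}
    {R : (Fin k → List Bool) → List Bool → List Bool → List Bool → Prop}
    (h : NEXP O fun e : Fin (k + 1 + 2) → List Bool =>
      R (low (Nat.le_add_right k 3) e) (e ⟨k, by omega⟩) (e ⟨k + 1, by omega⟩)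
        (e ⟨k + 2, by omega⟩))
    (hk : k ≤ m) (a b c : Fin m) :
    NEXP O fun e : Fin m → List Bool => R (low hk e) (e a) (e b) (e c) := by
  refine (h.reindex (C2_ix3 hk a b c)).congr fun e => ?_
  have h1 : low (Nat.le_add_right k 3) (fun j => e (C2_ix3 hk a b c j)) = low hk e := by
    funext j
    have := j.2
    simp only [low, C2_ix3, Fin.val_castLE, this, dif_pos]
    rfl
  have h2 : C2_ix3 hk a b c ⟨k, by omega⟩ = a := by
    simp [C2_ix3]
  have h3 : C2_ix3 hk a b c ⟨k + 1, by omega⟩ = b := by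
    simp [C2_ix3]
  have h4 : C2_ix3 hk a b c ⟨k + 2, by omega⟩ = c := by
    simp [C2_ix3]
  rw [h1]
  simp only [h2, h3, h4]

private theorem C2_nexp_cat : ∀ k : ℕ, NEXP O fun e : Fin (k + 1) → List Bool =>
    e (Fin.last k) = C2_cat k (low (Nat.le_add_right k 1) e)
  | 0 => (nexp_const [] (k := 1) (Fin.last 0)).congr fun e => by simp [C2_cat]
  | k + 1 => by
    have h1 : NEXP O fun e : Fin (k + 3) → List Bool =>
        e ⟨k + 2, by omega⟩ = C2_cat k (low (Nat.le_add_right k 3) e) ∧
          e ⟨k + 1, by omega⟩ = e ⟨k + 2, by omega⟩ ++ e ⟨k, by omega⟩ :=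
      (C2_ri1 (R := fun e z => z = C2_cat k e) (C2_nexp_cat k) (Nat.le_add_right k 3)
        ⟨k + 2, by omega⟩).and (nexp_append _ _ _)
    refine (nexp_ex (R := fun (e : Fin (k + 2) → List Bool) z =>
      z = C2_cat k (low (Nat.le_add_right k 2) e) ∧
          e ⟨k + 1, by omega⟩ = z ++ e ⟨k, by omega⟩) h1 (g := fun n => n) PolyB.id ?_).congr
      fun e => ?_
    · rintro e z ⟨-, h2⟩
      have h3 := len_le_size e ⟨k + 1, by omega⟩
      rw [h2, List.length_append] at h3
      omega
    · constructor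
      · rintro ⟨z, rfl, h⟩
        exact h
      · intro h
        exact ⟨_, rfl, h⟩

/-- one step of the search -/
private def C2_S {k : ℕ} (Rule : (Fin k → List Bool) → List Bool → List Bool → Prop)
    (e : Fin k → List Bool) (u a b : List Bool) : Prop :=
  b.length ≤ u.length ∧ ∃ x rest G, a = pair x rest ∧ Rule e x G ∧ b = G ++ rest

private theorem C2_nexp_S {k : ℕ} {Rule : (Fin k → List Bool) → List Bool → List Bool → Prop}
    (hR : NEXP O fun e : Fin (k + 2) → List Bool => Rule (low (Nat.le_add_right k 2) e)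
      (e (Fin.castSucc (Fin.last k))) (e (Fin.last (k + 1)))) :
    NEXP O fun e : Fin (k + 3) → List Bool => C2_S Rule (low (Nat.le_add_right k 3) e)
      (e ⟨k, by omega⟩) (e ⟨k + 1, by omega⟩) (e ⟨k + 2, by omega⟩) := by
  have h1 : NEXP O fun e : Fin (k + 6) → List Bool =>
      e ⟨k + 1, by omega⟩ = pair (e ⟨k + 3, by omega⟩) (e ⟨k + 4, by omega⟩) ∧
      Rule (low (Nat.le_add_right k 6) e) (e ⟨k + 3, by omega⟩) (e ⟨k + 5, by omega⟩) ∧
      e ⟨k + 2, by omega⟩ = e ⟨k + 5, by omega⟩ ++ e ⟨k + 4, by omega⟩ :=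
    (CountAux.nexp_pairR _ _ _).and ((C2_ri hR (Nat.le_add_right k 6) _ _).and (nexp_append _ _ _))
  have h2 : NEXP O fun e : Fin (k + 5) → List Bool => ∃ G,
      e ⟨k + 1, by omega⟩ = pair (e ⟨k + 3, by omega⟩) (e ⟨k + 4, by omega⟩) ∧
      Rule (low (Nat.le_add_right k 5) e) (e ⟨k + 3, by omega⟩) G ∧
      e ⟨k + 2, by omega⟩ = G ++ e ⟨k + 4, by omega⟩ := by
    refine nexp_ex (R := fun (e : Fin (k + 5) → List Bool) G =>
      e ⟨k + 1, by omega⟩ = pair (e ⟨k + 3, by omega⟩) (e ⟨k + 4, by omega⟩) ∧
      Rule (low (Nat.le_add_right k 5) e) (e ⟨k + 3, by omega⟩) G ∧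
      e ⟨k + 2, by omega⟩ = G ++ e ⟨k + 4, by omega⟩) h1 (g := fun n => n) PolyB.id ?_
    rintro e z ⟨-, -, h⟩
    have h3 := len_le_size e ⟨k + 2, by omega⟩
    rw [h, List.length_append] at h3
    omega
  have h3 : NEXP O fun e : Fin (k + 3) → List Bool => ∃ x rest G,
      e ⟨k + 1, by omega⟩ = pair x rest ∧
      Rule (low (Nat.le_add_right k 3) e) x G ∧ e ⟨k + 2, by omega⟩ = G ++ rest := by
    refine nexp_ex2 (R := fun (e : Fin (k + 3) → List Bool) x rest => ∃ G,
      e ⟨k + 1, by omega⟩ = pair x rest ∧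
      Rule (low (Nat.le_add_right k 3) e) x G ∧ e ⟨k + 2, by omega⟩ = G ++ rest) h2
      (g := fun n => n) PolyB.id monotone_id ?_
    rintro e x rest ⟨G, h, -, -⟩
    have h3 := len_le_size e ⟨k + 1, by omega⟩
    rw [h, length_pair] at h3
    omega
  exact (nexp_lenLe _ _).and h3

private theorem C2_encL_append (l m : List (List Bool)) : encL (l ++ m) = encL l ++ encL m := by
  induction l with
  | nil => rfl
  | cons t l ih =>
    rw [List.cons_append, encL, encL, ih]
    simp [pair, List.append_assoc]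

private theorem C2_split : ∀ (l l' : List (List Bool)) (rest : List Bool),
    encL l' = encL l ++ rest → ∃ l'', l' = l ++ l'' ∧ rest = encL l''
  | [], l', rest, h => ⟨l', rfl, by rw [h]; rfl⟩
  | t :: l, l', rest, h => by
    have h1 : encL (t :: l) ++ rest = pair t (encL l ++ rest) := by
      simp [encL, pair, List.append_assoc]
    rw [h1] at h
    cases l' with
    | nil => exact absurd h.symm (pair_ne_nil _ _)
    | cons t' l' =>
      obtain ⟨h2, h3⟩ := pair_injective h
      obtain ⟨l'', h4, h5⟩ := C2_split l l' rest h3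
      exact ⟨l'', by rw [h2, h4]; rfl, h5⟩

private theorem C2_inj {l l' : List (List Bool)} (h : encL l' = encL l) : l' = l := by
  obtain ⟨l'', h1, h2⟩ := C2_split l l' [] (by rw [h, List.append_nil])
  cases l'' with
  | nil => rw [h1, List.append_nil]
  | cons t l'' => exact absurd h2.symm (pair_ne_nil _ _)

private theorem C2_sound {k : ℕ} {Rule : (Fin k → List Bool) → List Bool → List Bool → Prop}
    {e : Fin k → List Bool} (hG : ∀ x G, Rule e x G → ∃ l, G = encL l) {u a : List Bool}
    (h : Relation.ReflTransGen (C2_S Rule e u) a []) :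
    ∃ l, a = encL l ∧ ∀ y ∈ l, Der (Rule e) y := by
  induction h using Relation.ReflTransGen.head_induction_on with
  | refl => exact ⟨[], rfl, fun y hy => absurd hy List.not_mem_nil⟩
  | head h1 _ ih =>
    obtain ⟨-, x, rest, G, rfl, h2, rfl⟩ := h1
    obtain ⟨l', h3, h4⟩ := ih
    obtain ⟨l, rfl⟩ := hG x G h2
    obtain ⟨l'', rfl, rfl⟩ := C2_split l l' rest h3.symm
    refine ⟨x :: l'', rfl, fun y hy => ?_⟩
    rcases List.mem_cons.1 hy with rfl | hy
    · exact Der.mk y l h2 fun z hz => h4 z (List.mem_append_left _ hz)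
    · exact h4 y (List.mem_append_right _ hy)

private theorem C2_complete {k : ℕ} {Rule : (Fin k → List Bool) → List Bool → List Bool → Prop}
    {e : Fin k → List Bool} {B : ℕ} {rk : List Bool → ℕ}
    (hG : ∀ x l, Rule e x (encL l) → (encL l).length ≤ B ∧ ∀ y ∈ l, rk y < rk x)
    {u x : List Bool} (h : Der (Rule e) x) : ∀ rest : List Bool,
      rest.length + (rk x + 1) * B ≤ u.length →
        Relation.ReflTransGen (C2_S Rule e u) (pair x rest) rest := by
  induction h with
  | mk x l hx _ ih =>
    intro rest hrest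
    obtain ⟨h1, h2⟩ := hG x l hx
    have h3 : ∀ m : List (List Bool), (∀ y ∈ m, y ∈ l) → (encL m).length ≤ B →
        Relation.ReflTransGen (C2_S Rule e u) (encL m ++ rest) rest := by
      intro m
      induction m with
      | nil => intro _ _; exact Relation.ReflTransGen.refl
      | cons y m ihm =>
        intro hm hmB
        have e1 : encL (y :: m) ++ rest = pair y (encL m ++ rest) := by
          simp [encL, pair, List.append_assoc]
        have e2 : (encL m).length ≤ B := by
          rw [encL, length_pair] at hmB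
          omega
        rw [e1]
        refine (ih y (hm y List.mem_cons_self) (encL m ++ rest) ?_).trans
          (ihm (fun z hz => hm z (List.mem_cons_of_mem _ hz)) e2)
        have e3 : rk y + 1 ≤ rk x := h2 y (hm y List.mem_cons_self)
        have e4 := Nat.mul_le_mul_right B e3
        rw [List.length_append]
        rw [Nat.succ_mul] at hrest
        omega
    refine Relation.ReflTransGen.head ?_ (h3 l (fun y hy => hy) h1)
    refine ⟨?_, x, rest, encL l, rfl, hx, rfl⟩
    rw [List.length_append]
    rw [Nat.succ_mul] at hrest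
    omega

private theorem C2_iff {k : ℕ} {Rule : (Fin k → List Bool) → List Bool → List Bool → Prop}
    {g : ℕ → ℕ} (rk : (Fin k → List Bool) → List Bool → ℕ)
    (hrk : ∀ e x G, Rule e x G → ∃ l, G = encL l ∧ G.length ≤ g (size e) ∧ rk e x ≤ g (size e) ∧
      ∀ y ∈ l, rk e y < rk e x) (e : Fin k → List Bool) (x u : List Bool)
    (hu : (g (size e) + 1) * g (size e) ≤ u.length) :
    Relation.ReflTransGen (C2_S Rule e u) (pair x []) [] ↔ Der (Rule e) x := by
  constructor
  · intro h
    obtain ⟨l, h1, h2⟩ := C2_sound (fun x G h => by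
      obtain ⟨l, h1, -⟩ := hrk e x G h
      exact ⟨l, h1⟩) h
    have h3 : l = [x] := C2_inj (l := [x]) h1.symm
    exact h2 x (by rw [h3]; exact List.mem_singleton_self x)
  · intro h
    have h1 : ∀ x l, Rule e x (encL l) → (encL l).length ≤ g (size e) ∧
        ∀ y ∈ l, rk e y < rk e x := by
      intro x l hx
      obtain ⟨l', h1, h2, -, h4⟩ := hrk e x _ hx
      rw [C2_inj h1]
      rw [C2_inj h1] at h2
      exact ⟨h2, h4⟩
    have h2 : rk e x ≤ g (size e) := by
      cases h with
      | mk _ l hx _ =>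
        obtain ⟨l', -, -, h3, -⟩ := hrk e x _ hx
        exact h3
    refine C2_complete h1 h [] ?_
    refine le_trans ?_ hu
    rw [List.length_nil, Nat.zero_add]
    exact Nat.mul_le_mul_right _ (Nat.succ_le_succ h2)

/-- PLAN. Depth first search with a stack of pending goals. `encL (l ++ m) = encL l ++ encL m`, `encL`
is injective. Step relation with a bounding string `u` (one more variable):
`S (e, u) a b := b.length ≤ u.length ∧ ∃ x rest G, a = pair x rest ∧ Rule e x G ∧ b = G ++ rest`
(in NEXP by `nexp_ex`, `nexp_pairRel`, `nexp_append`, `nexp_lenLe`). Then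
`Der (Rule e) x ↔ ∃ u, |u| = B ∧ ReflTransGen (S (e, u)) (pair x []) []` (`nexp_reach`), where
`B = 2 * |x| + 2 + (g + 1) * g`, `g = g (size e)` (any polynomial bound, `∃ u, |u| ≤ poly`, will do).
* Soundness: by induction on the path (`ReflTransGen.head_induction_on`), if `encL st` reaches `[]`,
  all goals in `st` are derivable.
* Completeness: for a derivable `x` and every string `rest`, `pair x rest` reaches `rest` through
  strings of length at most `|rest| + (rk x + 1) * g` (after the start), by induction on `Der`: the first step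
  leads to `encL l ++ rest`, then the goals of `l` are removed one by one; for `y ∈ l`,
  `pair y (encL l' ++ rest)` reaches `encL l' ++ rest` within
  `|encL l' ++ rest| + (rk y + 1) * g ≤ |rest| + g + rk x * g`. -/
theorem nexp_der {k : ℕ} {Rule : (Fin k → List Bool) → List Bool → List Bool → Prop}
    (hR : NEXP O fun e : Fin (k + 2) → List Bool => Rule (low (Nat.le_add_right k 2) e)
      (e (Fin.castSucc (Fin.last k))) (e (Fin.last (k + 1))))
    {g : ℕ → ℕ} (hg : PolyB g) (hgm : Monotone g)
    (rk : (Fin k → List Bool) → List Bool → ℕ)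
    (hrk : ∀ e x G, Rule e x G → ∃ l, G = encL l ∧ G.length ≤ g (size e) ∧ rk e x ≤ g (size e) ∧
      ∀ y ∈ l, rk e y < rk e x) :
    NEXP O fun e : Fin (k + 1) → List Bool =>
      Der (Rule (low (Nat.le_add_right k 1) e)) (e (Fin.last k)) := by
  obtain ⟨c, hc⟩ := hg.succ.mul hg
  have h1 : NEXP O fun e : Fin (k + 1 + 2) → List Bool =>
      Relation.ReflTransGen (C2_S Rule (low (Nat.le_add_right k 3) e) (e ⟨k, by omega⟩))
        (e ⟨k + 1, by omega⟩) (e ⟨k + 2, by omega⟩) :=
    nexp_reach (k := k + 1) (S := fun (E : Fin (k + 1) → List Bool) a b =>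
      C2_S Rule (low (Nat.le_add_right k 1) E) (E ⟨k, by omega⟩) a b) (C2_nexp_S hR)
      (g := fun n => n) PolyB.id monotone_id
      (fun e a b h => h.1.trans (len_le_size e _))
  -- variables: e', x, w, u, s, t
  have h2 : NEXP O fun e : Fin (k + 5) → List Bool =>
      (e ⟨k + 3, by omega⟩ = pair (e ⟨k, by omega⟩) (e ⟨k + 4, by omega⟩) ∧
        e ⟨k + 4, by omega⟩ = []) ∧
      Relation.ReflTransGen (C2_S Rule (low (Nat.le_add_right k 5) e) (e ⟨k + 2, by omega⟩))
        (e ⟨k + 3, by omega⟩) (e ⟨k + 4, by omega⟩) :=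
    ((CountAux.nexp_pairR _ _ _).and (nexp_const [] _)).and
      (C2_ri3 (R := fun e u s t => Relation.ReflTransGen (C2_S Rule e u) s t) h1
        (Nat.le_add_right k 5) _ _ _)
  have h3 : NEXP O fun e : Fin (k + 3) → List Bool => ∃ s t,
      (s = pair (e ⟨k, by omega⟩) t ∧ t = []) ∧
      Relation.ReflTransGen (C2_S Rule (low (Nat.le_add_right k 3) e) (e ⟨k + 2, by omega⟩))
        s t := by
    refine nexp_ex2 (R := fun (e : Fin (k + 3) → List Bool) s t =>
      (s = pair (e ⟨k, by omega⟩) t ∧ t = []) ∧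
      Relation.ReflTransGen (C2_S Rule (low (Nat.le_add_right k 3) e) (e ⟨k + 2, by omega⟩))
        s t) h2 (g := fun n => 2 * n + 2) (((PolyB.const 2).mul PolyB.id).add (PolyB.const 2))
      (fun a b hab => by dsimp only; omega) ?_
    rintro e s t ⟨⟨rfl, rfl⟩, -⟩
    have h4 := len_le_size e ⟨k, by omega⟩
    rw [length_pair, List.length_nil]
    omega
  have h4 : NEXP O fun e : Fin (k + 3) → List Bool =>
      (e ⟨k + 1, by omega⟩ = C2_cat (k + 1) (low (Nat.le_add_right (k + 1) 2) e) ∧
        (e ⟨k + 2, by omega⟩).length = (e ⟨k + 1, by omega⟩).length ^ c + c) ∧ ∃ s t,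
      (s = pair (e ⟨k, by omega⟩) t ∧ t = []) ∧
      Relation.ReflTransGen (C2_S Rule (low (Nat.le_add_right k 3) e) (e ⟨k + 2, by omega⟩))
        s t :=
    ((C2_ri1 (R := fun e z => z = C2_cat (k + 1) e) (C2_nexp_cat (k + 1))
      (Nat.le_add_right (k + 1) 2) _).and (nexp_powAdd c c _ _)).and h3
  have h5 := nexp_ex2 (R := fun (e : Fin (k + 1) → List Bool) w u =>
      (w = C2_cat (k + 1) e ∧ u.length = w.length ^ c + c) ∧ ∃ s t,
      (s = pair (e ⟨k, by omega⟩) t ∧ t = []) ∧
      Relation.ReflTransGen (C2_S Rule (low (Nat.le_add_right k 1) e) u) s t) h4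
      (g := fun n => n + (n ^ c + c)) (PolyB.id.add (PolyB.id.comp_pow c))
      (fun a b hab => Nat.add_le_add hab (Nat.add_le_add_right (Nat.pow_le_pow_left hab c) c)) (by
        rintro e w u ⟨⟨rfl, h6⟩, -⟩
        rw [C2_cat_length] at h6 ⊢
        rw [h6]
        omega)
  refine h5.congr fun e => ?_
  have h6 : ∀ u : List Bool, u.length = size e ^ c + c →
      (g (size (low (Nat.le_add_right k 1) e)) + 1) * g (size (low (Nat.le_add_right k 1) e)) ≤
        u.length := by
    intro u hu
    rw [hu]
    refine le_trans ?_ (hc (size e))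
    have h7 : size (low (Nat.le_add_right k 1) e) ≤ size e := by
      rw [← C2_cat_length, ← C2_cat_length, C2_cat, List.length_append]
      omega
    have h8 := hgm h7
    exact Nat.mul_le_mul (Nat.succ_le_succ h8) h8
  constructor
  · rintro ⟨w, u, ⟨rfl, h7⟩, s, t, ⟨rfl, rfl⟩, h8⟩
    rw [C2_cat_length] at h7
    exact (C2_iff rk hrk _ _ u (h6 u h7)).1 h8
  · intro h
    refine ⟨_, List.replicate (size e ^ c + c) false, ⟨rfl, ?_⟩, _, _, ⟨rfl, rfl⟩, ?_⟩
    · rw [C2_cat_length, List.length_replicate]
    · exact (C2_iff rk hrk _ _ _ (h6 _ List.length_replicate)).2 h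

end Pool.Agent.LibAV75
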