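import Pool.Agent.LibAV75.C0
import Pool.Agent.LibAV75.C2

/-!
Row C3: recursive counting.
-/

namespace Pool.Agent.LibAV75

open Filter Function Pool.Agent.LibNexp Pool.Agent.LibBHN

variable {O : List Bool → Bool}

/-- Recursive counting: at level `0` the predicate `Leaf`; at level `j + 1` it holds at `X` if for some
strings `t`, `u` with `Par X t u` at least `val t` strings `w` of length `|u|` have a `Y` with
`Phi X w Y` for which level `j` holds. -/
def Rc (Leaf : List Bool → Prop) (Par Phi : List Bool → List Bool → List Bool → Prop) :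
    ℕ → List Bool → Prop
  | 0, X => Leaf X
  | j + 1, X => ∃ t u : List Bool, Par X t u ∧
      val t ≤ cnt u.length fun w => ∃ Y, Phi X w Y ∧ Rc Leaf Par Phi j Y

/-! ### Tools -/

private theorem c3_size_castAdd {k n : ℕ} (e : Fin (k + n) → List Bool) :
    size (fun i => e (Fin.castAdd n i)) ≤ size e := by
  unfold size
  rw [Fin.sum_univ_add]
  exact Nat.le_add_right _ _

private theorem c3_exN {k : ℕ} (n : ℕ) {R : (Fin k → List Bool) → (Fin n → List Bool) → Prop}
    (h : NEXP O fun e : Fin (k + n) → List Bool =>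
      R (fun i => e (Fin.castAdd n i)) (fun j => e (Fin.natAdd k j)))
    {g : ℕ → ℕ} (hg : PolyB g) (hgm : Monotone g)
    (hb : ∀ e f, R e f → ∀ j, (f j).length ≤ g (size e)) :
    NEXP O fun e : Fin k → List Bool => ∃ f : Fin n → List Bool, R e f := by
  induction n with
  | zero =>
    refine NEXP.congr (k := k) h fun e => ?_
    constructor
    · exact fun h' => ⟨_, h'⟩
    · rintro ⟨f, hf⟩
      have key : ∀ f' : Fin 0 → List Bool, R e f' := fun f' => by
        rw [Subsingleton.elim f' f]
        exact hf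
      exact key _
  | succ n ih =>
    have h1 := ih (R := fun e f => ∃ z, R e (Fin.snoc (α := fun _ => List Bool) f z)) ?_ ?_
    · refine h1.congr fun e => ⟨fun ⟨f, z, hz⟩ => ⟨_, hz⟩, fun ⟨f, hf⟩ => ?_⟩
      refine ⟨Fin.init f, f (Fin.last n), ?_⟩
      rw [Fin.snoc_init_self]
      exact hf
    · refine nexp_ex (R := fun (e : Fin (k + n) → List Bool) z =>
        R (fun i => e (Fin.castAdd n i))
          (Fin.snoc (α := fun _ => List Bool) (fun j => e (Fin.natAdd k j)) z)) ?_ hg ?_
      · refine h.congr fun e => ?_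
        have h2 : (fun j : Fin (n + 1) => e (Fin.natAdd k j)) =
            Fin.snoc (α := fun _ => List Bool)
              (fun j => low (Nat.le_add_right (k + n) 1) e (Fin.natAdd k j))
              (e (Fin.last (k + n))) := by
          funext j
          refine Fin.lastCases ?_ (fun j => ?_) j
          · rw [Fin.snoc_last]
            rfl
          · rw [Fin.snoc_castSucc]
            rfl
        rw [← h2]
        rfl
      · intro e z hz
        have h2 := hb _ _ hz (Fin.last n)
        rw [Fin.snoc_last] at h2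
        exact h2.trans (hgm (c3_size_castAdd e))
    · rintro e f ⟨z, hz⟩ j
      have h2 := hb _ _ hz (Fin.castSucc j)
      rw [Fin.snoc_castSucc] at h2
      exact h2

private theorem c3_sub1 {k : ℕ} {L : (Fin k → List Bool) → List Bool → Prop}
    (h : NEXP O fun e : Fin (k + 1) → List Bool =>
      L (low (Nat.le_add_right k 1) e) (e (Fin.last k))) {m : ℕ} (ι : Fin k → Fin m) (a : Fin m) :
    NEXP O fun e : Fin m → List Bool => L (fun j => e (ι j)) (e a) := by
  refine (h.reindex (Fin.snoc (α := fun _ => Fin m) ι a)).congr fun e => ?_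
  have h1 : low (Nat.le_add_right k 1) (fun j => e (Fin.snoc (α := fun _ => Fin m) ι a j)) =
      fun j => e (ι j) := by
    funext j
    change e (Fin.snoc (α := fun _ => Fin m) ι a (Fin.castSucc j)) = _
    rw [Fin.snoc_castSucc]
  rw [h1]
  beta_reduce
  rw [Fin.snoc_last]

private theorem c3_sub3 {k : ℕ}
    {P : (Fin k → List Bool) → List Bool → List Bool → List Bool → Prop}
    (h : NEXP O fun e : Fin (k + 3) → List Bool => P (low (Nat.le_add_right k 3) e)
      (e (Fin.castSucc (Fin.castSucc (Fin.last k)))) (e (Fin.castSucc (Fin.last (k + 1))))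
      (e (Fin.last (k + 2)))) {m : ℕ} (ι : Fin k → Fin m) (a b c : Fin m) :
    NEXP O fun e : Fin m → List Bool => P (fun j => e (ι j)) (e a) (e b) (e c) := by
  let F : Fin (k + 3) → Fin m := Fin.snoc (α := fun _ => Fin m) (Fin.snoc (α := fun _ => Fin m)
    (Fin.snoc (α := fun _ => Fin m) ι a) b) c
  refine (h.reindex F).congr fun e => ?_
  have h1 : low (Nat.le_add_right k 3) (fun j => e (F j)) = fun j => e (ι j) := by
    funext j
    change e (F (Fin.castSucc (Fin.castSucc (Fin.castSucc j)))) = _
    simp only [F, Fin.snoc_castSucc]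
  have h2 : F (Fin.castSucc (Fin.castSucc (Fin.last k))) = a := by
    simp only [F, Fin.snoc_castSucc, Fin.snoc_last]
  have h3 : F (Fin.castSucc (Fin.last (k + 1))) = b := by
    simp only [F, Fin.snoc_castSucc, Fin.snoc_last]
  have h4 : F (Fin.last (k + 2)) = c := by
    simp only [F, Fin.snoc_last]
  rw [h1]
  beta_reduce
  rw [h2, h3, h4]

private theorem c3_cons (b : Bool) {k : ℕ} (i j : Fin k) :
    NEXP O fun e : Fin k → List Bool => e j = b :: e i := by
  refine ((nexp_subst (O := O) (fun _ => []) (fun b => [b]) [b]).reindex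
    ![i, i, j]).congr fun e => ?_
  simp [misc_flatMap_nil]

private def gA (c X : List Bool) : List Bool := false :: pair c X

private def gB (q p u t : List Bool) : List Bool := true :: pair q (pair p (pair u t))

private theorem length_gA (c X : List Bool) : (gA c X).length = 2 * c.length + X.length + 3 := by
  unfold gA
  rw [List.length_cons, length_pair]

private theorem length_gB (q p u t : List Bool) : (gB q p u t).length =
    2 * q.length + 2 * p.length + 2 * u.length + t.length + 7 := by
  unfold gB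
  rw [List.length_cons, length_pair, length_pair, length_pair]
  ring

private theorem gA_inj {c X c' X' : List Bool} (h : gA c X = gA c' X') : c = c' ∧ X = X' := by
  unfold gA at h
  exact pair_injective (List.cons.inj h).2

private theorem gB_inj {q p u t q' p' u' t' : List Bool} (h : gB q p u t = gB q' p' u' t') :
    q = q' ∧ p = p' ∧ u = u' ∧ t = t' := by
  unfold gB at h
  obtain ⟨h1, h2⟩ := pair_injective (List.cons.inj h).2
  obtain ⟨h3, h4⟩ := pair_injective h2
  obtain ⟨h5, h6⟩ := pair_injective h4
  exact ⟨h1, h3, h5, h6⟩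

private theorem gA_ne_gB {c X q p u t : List Bool} : gA c X ≠ gB q p u t := by
  unfold gA gB
  simp

private theorem c3_encL_inj : ∀ {l l' : List (List Bool)}, encL l = encL l' → l = l'
  | [], [], _ => rfl
  | [], a :: l', h => absurd h.symm (pair_ne_nil _ _)
  | a :: l, [], h => absurd h (pair_ne_nil _ _)
  | a :: l, a' :: l', h => by
    obtain ⟨h1, h2⟩ := pair_injective h
    rw [h1, c3_encL_inj h2]

private theorem nexp_gA {k : ℕ} (a b l : Fin k) :
    NEXP O fun e : Fin k → List Bool => e l = gA (e a) (e b) := by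
  refine (c3_exN 1 (R := fun (e : Fin k → List Bool) (f : Fin 1 → List Bool) =>
    f 0 = pair (e a) (e b) ∧ e l = false :: f 0) ?_ PolyB.id monotone_id ?_).congr fun e => ?_
  · exact (CountAux.nexp_pairR _ _ _).and (c3_cons _ _ _)
  · rintro e f ⟨h1, h2⟩ j
    have h3 := len_le_size e l
    rw [h2] at h3
    rw [Subsingleton.elim j 0]
    simp only [List.length_cons] at h3
    omega
  · constructor
    · rintro ⟨f, h1, h2⟩
      rw [h2, h1]
      rfl
    · intro h
      exact ⟨fun _ => pair (e a) (e b), rfl, h⟩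

private theorem nexp_gB {k : ℕ} (a b c d l : Fin k) :
    NEXP O fun e : Fin k → List Bool => e l = gB (e a) (e b) (e c) (e d) := by
  refine (c3_exN 3 (R := fun (e : Fin k → List Bool) (f : Fin 3 → List Bool) =>
    f 0 = pair (e c) (e d) ∧ f 1 = pair (e b) (f 0) ∧ f 2 = pair (e a) (f 1) ∧
    e l = true :: f 2) ?_ PolyB.id monotone_id ?_).congr fun e => ?_
  · exact (CountAux.nexp_pairR _ _ _).and ((CountAux.nexp_pairR _ _ _).and
      ((CountAux.nexp_pairR _ _ _).and (c3_cons _ _ _)))
  · rintro e f ⟨h0, h1, h2, h3⟩ j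
    have h4 := len_le_size e l
    have e1 := congrArg List.length h1
    have e2 := congrArg List.length h2
    have e3 := congrArg List.length h3
    rw [length_pair] at e1 e2
    rw [List.length_cons] at e3
    fin_cases j <;> simp only [Fin.zero_eta, Fin.mk_one, Fin.reduceFinMk] <;> omega
  · constructor
    · rintro ⟨f, h0, h1, h2, h3⟩
      rw [h3, h2, h1, h0]
      rfl
    · intro h
      exact ⟨![pair (e c) (e d), pair (e b) (pair (e c) (e d)),
        pair (e a) (pair (e b) (pair (e c) (e d)))], rfl, rfl, rfl, h⟩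

private theorem c3_bits_succ {n m : ℕ} :
    bits (n + 1) (2 * m) = false :: bits n m ∧ bits (n + 1) (2 * m + 1) = true :: bits n m := by
  constructor
  · simp only [bits]
    have h1 : 2 * m % 2 = 0 := by omega
    have h2 : 2 * m / 2 = m := by omega
    rw [h1, h2]
    rfl
  · simp only [bits]
    have h1 : (2 * m + 1) % 2 = 1 := by omega
    have h2 : (2 * m + 1) / 2 = m := by omega
    rw [h1, h2]
    rfl

private theorem c3_sum_two (f : ℕ → ℕ) (N : ℕ) :
    ∑ m ∈ Finset.range (2 * N), f m = ∑ m ∈ Finset.range N, f (2 * m) +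
      ∑ m ∈ Finset.range N, f (2 * m + 1) := by
  induction N with
  | zero => simp
  | succ N ih =>
    rw [Finset.sum_range_succ, Finset.sum_range_succ, show 2 * (N + 1) = 2 * N + 1 + 1 by ring,
      Finset.sum_range_succ, Finset.sum_range_succ, ih]
    ring

private theorem c3_cnt_succ (n : ℕ) (P : List Bool → Prop) :
    cnt (n + 1) P = cnt n (fun v => P (false :: v)) + cnt n fun v => P (true :: v) := by
  classical
  unfold cnt
  simp only [Finset.card_filter]
  rw [pow_succ, mul_comm, c3_sum_two]
  simp only [c3_bits_succ.1, c3_bits_succ.2]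

private theorem c3_cnt_zero (P : List Bool → Prop) (h : P []) : cnt 0 P = 1 := by
  classical
  unfold cnt
  simp [bits, h]

private theorem c3_cnt_zero' (P : List Bool → Prop) (h : 1 ≤ cnt 0 P) : P [] := by
  classical
  unfold cnt at h
  by_contra hn
  simp [bits, hn] at h

/-! ### The rules -/

private def r0b (Lf : List Bool → Prop) (x G : List Bool) (f : Fin 2 → List Bool) : Prop :=
  f 1 = [] ∧ x = gA (f 1) (f 0) ∧ G = f 1 ∧ Lf (f 0)

private def r1b (Pr : List Bool → List Bool → List Bool → Prop) (x G : List Bool)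
    (f : Fin 8 → List Bool) : Prop :=
  (f 4 = false :: f 0 ∨ f 4 = true :: f 0) ∧ x = gA (f 4) (f 1) ∧ f 5 = pair (f 0) (f 1) ∧
    f 6 = [] ∧ f 7 = gB (f 5) (f 6) (f 3) (f 2) ∧ G = pair (f 7) (f 6) ∧ Pr (f 1) (f 2) (f 3)

private def r2b (x G : List Bool) (f : Fin 13 → List Bool) : Prop :=
  (f 6 = false :: f 2 ∨ f 6 = true :: f 2) ∧ x = gB (f 0) (f 1) (f 6) (f 3) ∧
    f 7 = f 1 ++ [false] ∧ f 8 = f 1 ++ [true] ∧ f 9 = gB (f 0) (f 7) (f 2) (f 4) ∧
    f 10 = gB (f 0) (f 8) (f 2) (f 5) ∧ f 11 = [] ∧ f 12 = pair (f 10) (f 11) ∧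
    G = pair (f 9) (f 12) ∧ val (f 3) = val (f 4) + val (f 5)

private def r3b (x G : List Bool) (f : Fin 4 → List Bool) : Prop :=
  x = gB (f 0) (f 1) (f 3) (f 2) ∧ f 3 = [] ∧ G = f 3 ∧ val (f 2) = 0

private def r4b (Ph : List Bool → List Bool → List Bool → Prop) (x G : List Bool)
    (f : Fin 8 → List Bool) : Prop :=
  x = gB (f 5) (f 2) (f 6) (f 3) ∧ f 5 = pair (f 0) (f 1) ∧ f 6 = [] ∧ f 7 = gA (f 0) (f 4) ∧
    G = pair (f 7) (f 6) ∧ val (f 3) = 1 ∧ Ph (f 1) (f 2) (f 4)

/-- The rules of the calculus; `W` bounds the lengths. -/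
private def rule (Lf : List Bool → Prop) (Pr Ph : List Bool → List Bool → List Bool → Prop)
    (W : ℕ) (x G : List Bool) : Prop :=
  (x.length ≤ W ∧ G.length ≤ W) ∧ ((∃ f, r0b Lf x G f) ∨ (∃ f, r1b Pr x G f) ∨ (∃ f, r2b x G f) ∨
    (∃ f, r3b x G f) ∨ ∃ f, r4b Ph x G f)

private theorem nexp_r0 {k m : ℕ} {Leaf : (Fin k → List Bool) → List Bool → Prop}
    (hL : NEXP O fun e : Fin (k + 1) → List Bool =>
      Leaf (low (Nat.le_add_right k 1) e) (e (Fin.last k))) (ι : Fin k → Fin m) (a b : Fin m) :
    NEXP O fun e : Fin m → List Bool => ∃ f, r0b (Leaf fun j => e (ι j)) (e a) (e b) f := by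
  refine c3_exN 2 (R := fun (e : Fin m → List Bool) f => r0b (Leaf fun j => e (ι j)) (e a) (e b) f)
    ?_ PolyB.id monotone_id ?_
  · unfold r0b
    exact (nexp_const [] _).and ((nexp_gA _ _ _).and ((nexp_eq _ _).and
      (c3_sub1 hL (fun j => Fin.castAdd 2 (ι j)) _)))
  · rintro e f ⟨h1, h2, -, -⟩ j
    have h4 := len_le_size e a
    rw [h2, length_gA] at h4
    fin_cases j <;> simp only [Fin.zero_eta, Fin.mk_one, Fin.reduceFinMk] <;> omega

private theorem nexp_r1 {k m : ℕ}
    {Par : (Fin k → List Bool) → List Bool → List Bool → List Bool → Prop}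
    (hP : NEXP O fun e : Fin (k + 3) → List Bool => Par (low (Nat.le_add_right k 3) e)
      (e (Fin.castSucc (Fin.castSucc (Fin.last k)))) (e (Fin.castSucc (Fin.last (k + 1))))
      (e (Fin.last (k + 2)))) (ι : Fin k → Fin m) (a b : Fin m) :
    NEXP O fun e : Fin m → List Bool => ∃ f, r1b (Par fun j => e (ι j)) (e a) (e b) f := by
  refine c3_exN 8 (R := fun (e : Fin m → List Bool) f => r1b (Par fun j => e (ι j)) (e a) (e b) f)
    ?_ (PolyB.id.add PolyB.id) (monotone_id.add monotone_id) ?_
  · unfold r1b
    exact ((c3_cons _ _ _).or (c3_cons _ _ _)).and ((nexp_gA _ _ _).and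
      ((CountAux.nexp_pairR _ _ _).and ((nexp_const [] _).and ((nexp_gB _ _ _ _ _).and
      ((CountAux.nexp_pairR _ _ _).and (c3_sub3 hP (fun j => Fin.castAdd 8 (ι j)) _ _ _))))))
  · rintro e f ⟨h0, h1, h2, h3, h4, h5, -⟩ j
    have h6 := len_le_size e a
    have h7 := len_le_size e b
    rw [h1, length_gA] at h6
    rw [h5, length_pair] at h7
    have h8 := congrArg List.length h4
    rw [length_gB] at h8
    have h9 : (f 4).length = (f 0).length + 1 := by
      rcases h0 with h0 | h0 <;> rw [h0] <;> rfl
    fin_cases j <;> simp only [Fin.zero_eta, Fin.mk_one, Fin.reduceFinMk, id] <;> omega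

private theorem nexp_r2 {m : ℕ} (a b : Fin m) :
    NEXP O fun e : Fin m → List Bool => ∃ f, r2b (e a) (e b) f := by
  refine c3_exN 13 (R := fun (e : Fin m → List Bool) f => r2b (e a) (e b) f)
    ?_ (PolyB.id.add PolyB.id) (monotone_id.add monotone_id) ?_
  · unfold r2b
    exact ((c3_cons _ _ _).or (c3_cons _ _ _)).and ((nexp_gB _ _ _ _ _).and
      ((nexp_snoc _ _ _).and ((nexp_snoc _ _ _).and ((nexp_gB _ _ _ _ _).and
      ((nexp_gB _ _ _ _ _).and ((nexp_const [] _).and ((CountAux.nexp_pairR _ _ _).and
      ((CountAux.nexp_pairR _ _ _).and (nexp_vAdd _ _ _)))))))))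
  · rintro e f ⟨h0, h1, h2, h3, h4, h5, h6, h7, h8, -⟩ j
    have h9 := len_le_size e a
    have h10 := len_le_size e b
    rw [h1, length_gB] at h9
    rw [h8, length_pair] at h10
    have h11 := congrArg List.length h4
    have h12 := congrArg List.length h5
    have h13 := congrArg List.length h7
    rw [length_gB] at h11 h12
    rw [length_pair] at h13
    have h14 : (f 6).length = (f 2).length + 1 := by
      rcases h0 with h0 | h0 <;> rw [h0] <;> rfl
    fin_cases j <;> simp only [Fin.zero_eta, Fin.mk_one, Fin.reduceFinMk, id] <;> omega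

private theorem nexp_r3 {m : ℕ} (a b : Fin m) :
    NEXP O fun e : Fin m → List Bool => ∃ f, r3b (e a) (e b) f := by
  refine c3_exN 4 (R := fun (e : Fin m → List Bool) f => r3b (e a) (e b) f)
    ?_ (PolyB.id.add PolyB.id) (monotone_id.add monotone_id) ?_
  · unfold r3b
    exact (nexp_gB _ _ _ _ _).and ((nexp_const [] _).and ((nexp_eq _ _).and (nexp_vConst 0 _)))
  · rintro e f ⟨h1, h2, -, -⟩ j
    have h9 := len_le_size e a
    rw [h1, length_gB] at h9
    fin_cases j <;> simp only [Fin.zero_eta, Fin.mk_one, Fin.reduceFinMk, id] <;> omega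

private theorem nexp_r4 {k m : ℕ}
    {Phi : (Fin k → List Bool) → List Bool → List Bool → List Bool → Prop}
    (hF : NEXP O fun e : Fin (k + 3) → List Bool => Phi (low (Nat.le_add_right k 3) e)
      (e (Fin.castSucc (Fin.castSucc (Fin.last k)))) (e (Fin.castSucc (Fin.last (k + 1))))
      (e (Fin.last (k + 2)))) (ι : Fin k → Fin m) (a b : Fin m) :
    NEXP O fun e : Fin m → List Bool => ∃ f, r4b (Phi fun j => e (ι j)) (e a) (e b) f := by
  refine c3_exN 8 (R := fun (e : Fin m → List Bool) f => r4b (Phi fun j => e (ι j)) (e a) (e b) f)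
    ?_ (PolyB.id.add PolyB.id) (monotone_id.add monotone_id) ?_
  · unfold r4b
    exact (nexp_gB _ _ _ _ _).and ((CountAux.nexp_pairR _ _ _).and ((nexp_const [] _).and
      ((nexp_gA _ _ _).and ((CountAux.nexp_pairR _ _ _).and ((nexp_vConst 1 _).and
      (c3_sub3 hF (fun j => Fin.castAdd 8 (ι j)) _ _ _))))))
  · rintro e f ⟨h0, h1, h2, h3, h4, -, -⟩ j
    have h6 := len_le_size e a
    have h7 := len_le_size e b
    rw [h0, length_gB] at h6
    rw [h4, length_pair] at h7
    have h8 := congrArg List.length h1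
    have h9 := congrArg List.length h3
    rw [length_pair] at h8
    rw [length_gA] at h9
    fin_cases j <;> simp only [Fin.zero_eta, Fin.mk_one, Fin.reduceFinMk, id] <;> omega

private theorem nexp_rule {k m : ℕ} {Leaf : (Fin k → List Bool) → List Bool → Prop}
    {Par Phi : (Fin k → List Bool) → List Bool → List Bool → List Bool → Prop}
    (hL : NEXP O fun e : Fin (k + 1) → List Bool =>
      Leaf (low (Nat.le_add_right k 1) e) (e (Fin.last k)))
    (hP : NEXP O fun e : Fin (k + 3) → List Bool => Par (low (Nat.le_add_right k 3) e)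
      (e (Fin.castSucc (Fin.castSucc (Fin.last k)))) (e (Fin.castSucc (Fin.last (k + 1))))
      (e (Fin.last (k + 2))))
    (hF : NEXP O fun e : Fin (k + 3) → List Bool => Phi (low (Nat.le_add_right k 3) e)
      (e (Fin.castSucc (Fin.castSucc (Fin.last k)))) (e (Fin.castSucc (Fin.last (k + 1))))
      (e (Fin.last (k + 2)))) (ι : Fin k → Fin m) (w a b : Fin m) :
    NEXP O fun e : Fin m → List Bool => rule (Leaf fun j => e (ι j)) (Par fun j => e (ι j))
      (Phi fun j => e (ι j)) (e w).length (e a) (e b) := by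
  unfold rule
  exact ((nexp_lenLe _ _).and (nexp_lenLe _ _)).and ((nexp_r0 hL ι a b).or ((nexp_r1 hP ι a b).or
    ((nexp_r2 a b).or ((nexp_r3 a b).or (nexp_r4 hF ι a b)))))

private theorem r0_iff {Lf : List Bool → Prop} {x G : List Bool} :
    (∃ f, r0b Lf x G f) ↔ ∃ X, x = gA [] X ∧ G = encL [] ∧ Lf X := by
  constructor
  · rintro ⟨f, h1, h2, h3, h4⟩
    rw [h1] at h2 h3
    exact ⟨f 0, h2, h3, h4⟩
  · rintro ⟨X, h1, h2, h3⟩
    exact ⟨![X, []], rfl, h1, h2, h3⟩

private theorem r1_iff {Pr : List Bool → List Bool → List Bool → Prop} {x G : List Bool} :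
    (∃ f, r1b Pr x G f) ↔ ∃ b c X t u, x = gA (b :: c) X ∧ G = encL [gB (pair c X) [] u t] ∧
      Pr X t u := by
  constructor
  · rintro ⟨f, h0, h1, h2, h3, h4, h5, h6⟩
    rw [h4, h3, h2] at h5
    rcases h0 with h0 | h0
    · rw [h0] at h1
      exact ⟨false, f 0, f 1, f 2, f 3, h1, h5, h6⟩
    · rw [h0] at h1
      exact ⟨true, f 0, f 1, f 2, f 3, h1, h5, h6⟩
  · rintro ⟨b, c, X, t, u, h1, h2, h3⟩
    refine ⟨![c, X, t, u, b :: c, pair c X, [], gB (pair c X) [] u t], ?_, h1, rfl, rfl, rfl,
      h2, h3⟩
    cases b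
    · exact Or.inl rfl
    · exact Or.inr rfl

private theorem r2_iff {x G : List Bool} :
    (∃ f, r2b x G f) ↔ ∃ b q p u t t₀ t₁, x = gB q p (b :: u) t ∧
      G = encL [gB q (p ++ [false]) u t₀, gB q (p ++ [true]) u t₁] ∧ val t = val t₀ + val t₁ := by
  constructor
  · rintro ⟨f, h0, h1, h2, h3, h4, h5, h6, h7, h8, h9⟩
    rw [h7, h6, h5, h4, h3, h2] at h8
    rcases h0 with h0 | h0
    · rw [h0] at h1
      exact ⟨false, f 0, f 1, f 2, f 3, f 4, f 5, h1, h8, h9⟩
    · rw [h0] at h1
      exact ⟨true, f 0, f 1, f 2, f 3, f 4, f 5, h1, h8, h9⟩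
  · rintro ⟨b, q, p, u, t, t₀, t₁, h1, h2, h3⟩
    refine ⟨![q, p, u, t, t₀, t₁, b :: u, p ++ [false], p ++ [true],
      gB q (p ++ [false]) u t₀, gB q (p ++ [true]) u t₁, [],
      pair (gB q (p ++ [true]) u t₁) []], ?_, h1, rfl, rfl, rfl, rfl, rfl, rfl, h2, h3⟩
    cases b
    · exact Or.inl rfl
    · exact Or.inr rfl

private theorem r3_iff {x G : List Bool} :
    (∃ f, r3b x G f) ↔ ∃ q p t, x = gB q p [] t ∧ G = encL [] ∧ val t = 0 := by
  constructor
  · rintro ⟨f, h1, h2, h3, h4⟩
    rw [h2] at h1 h3
    exact ⟨f 0, f 1, f 2, h1, h3, h4⟩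
  · rintro ⟨q, p, t, h1, h2, h3⟩
    exact ⟨![q, p, t, []], h1, rfl, h2, h3⟩

private theorem r4_iff {Ph : List Bool → List Bool → List Bool → Prop} {x G : List Bool} :
    (∃ f, r4b Ph x G f) ↔ ∃ c X p t Y, x = gB (pair c X) p [] t ∧ G = encL [gA c Y] ∧
      val t = 1 ∧ Ph X p Y := by
  constructor
  · rintro ⟨f, h0, h1, h2, h3, h4, h5, h6⟩
    rw [h1, h2] at h0
    rw [h3, h2] at h4
    exact ⟨f 0, f 1, f 2, f 3, f 4, h0, h4, h5, h6⟩
  · rintro ⟨c, X, p, t, Y, h1, h2, h3, h4⟩
    exact ⟨![c, X, p, t, Y, pair c X, [], gA c Y], h1, rfl, rfl, rfl, h2, h3, h4⟩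

/-! ### Ranks -/

open Classical in
private noncomputable def pfst (s : List Bool) : List Bool :=
  if h : ∃ a b, s = pair a b then h.choose else []

open Classical in
private noncomputable def psnd (s : List Bool) : List Bool :=
  if h : ∃ b a, s = pair a b then h.choose else []

private theorem pfst_pair (a b : List Bool) : pfst (pair a b) = a := by
  have h : ∃ a' b', pair a b = pair a' b' := ⟨a, b, rfl⟩
  unfold pfst
  rw [dif_pos h]
  obtain ⟨b', hb'⟩ := h.choose_spec
  exact (pair_injective hb').1.symm

private theorem psnd_pair (a b : List Bool) : psnd (pair a b) = b := by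
  have h : ∃ b' a', pair a b = pair a' b' := ⟨b, a, rfl⟩
  unfold psnd
  rw [dif_pos h]
  obtain ⟨a', ha'⟩ := h.choose_spec
  exact (pair_injective ha').2.symm

private theorem length_pfst (s : List Bool) : (pfst s).length ≤ s.length := by
  by_cases h : ∃ a b, s = pair a b
  · obtain ⟨a, b, rfl⟩ := h
    rw [pfst_pair, length_pair]
    omega
  · unfold pfst
    rw [dif_neg h]
    exact Nat.zero_le _

private noncomputable def rkf (W : ℕ) : List Bool → ℕ
  | [] => 0
  | false :: s => (pfst s).length * (W + 3) + 1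
  | true :: s => (pfst (pfst s)).length * (W + 3) + 2 + (pfst (psnd (psnd s))).length

private theorem rkf_gA (W : ℕ) (c X : List Bool) : rkf W (gA c X) = c.length * (W + 3) + 1 := by
  change (pfst (pair c X)).length * (W + 3) + 1 = _
  rw [pfst_pair]

private theorem rkf_gB (W : ℕ) (q p u t : List Bool) :
    rkf W (gB q p u t) = (pfst q).length * (W + 3) + 2 + u.length := by
  change (pfst (pfst (pair q (pair p (pair u t))))).length * (W + 3) + 2 +
    (pfst (psnd (psnd (pair q (pair p (pair u t)))))).length = _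
  rw [pfst_pair, psnd_pair, psnd_pair, pfst_pair]

private theorem rule_rank {Lf : List Bool → Prop} {Pr Ph : List Bool → List Bool → List Bool → Prop}
    {W : ℕ} {x G : List Bool} (h : rule Lf Pr Ph W x G) :
    ∃ l, G = encL l ∧ G.length ≤ W ∧ rkf W x ≤ W * (W + 3) + 2 + W ∧
      ∀ y ∈ l, rkf W y < rkf W x := by
  obtain ⟨⟨hx, hG⟩, h⟩ := h
  rw [r0_iff, r1_iff, r2_iff, r3_iff, r4_iff] at h
  rcases h with h | h | h | h | h
  · obtain ⟨X, rfl, rfl, -⟩ := h
    refine ⟨[], rfl, hG, ?_, by simp⟩
    rw [rkf_gA, List.length_nil]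
    omega
  · obtain ⟨b, c, X, t, u, rfl, rfl, -⟩ := h
    refine ⟨_, rfl, hG, ?_, ?_⟩
    · rw [rkf_gA]
      rw [length_gA] at hx
      have : (b :: c).length * (W + 3) ≤ W * (W + 3) := Nat.mul_le_mul_right _ (by omega)
      omega
    · intro y hy
      rw [List.mem_singleton] at hy
      rw [hy, rkf_gA, rkf_gB, pfst_pair, List.length_cons]
      have h1 : u.length ≤ W := by
        change (pair _ _).length ≤ W at hG
        rw [length_pair, length_gB] at hG
        omega
      nlinarith
  · obtain ⟨b, q, p, u, t, t₀, t₁, rfl, rfl, -⟩ := h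
    refine ⟨_, rfl, hG, ?_, ?_⟩
    · rw [rkf_gB]
      rw [length_gB] at hx
      have h1 := length_pfst q
      have : (pfst q).length * (W + 3) ≤ W * (W + 3) := Nat.mul_le_mul_right _ (by omega)
      omega
    · intro y hy
      rw [List.mem_cons, List.mem_singleton] at hy
      rcases hy with rfl | rfl <;> rw [rkf_gB, rkf_gB, List.length_cons] <;> omega
  · obtain ⟨q, p, t, rfl, rfl, -⟩ := h
    refine ⟨[], rfl, hG, ?_, by simp⟩
    rw [rkf_gB, List.length_nil]
    rw [length_gB] at hx
    have h1 := length_pfst q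
    have : (pfst q).length * (W + 3) ≤ W * (W + 3) := Nat.mul_le_mul_right _ (by omega)
    omega
  · obtain ⟨c, X, p, t, Y, rfl, rfl, -, -⟩ := h
    refine ⟨_, rfl, hG, ?_, ?_⟩
    · rw [rkf_gB, List.length_nil]
      rw [length_gB] at hx
      have h1 := length_pfst (pair c X)
      have : (pfst (pair c X)).length * (W + 3) ≤ W * (W + 3) :=
        Nat.mul_le_mul_right _ (by omega)
      omega
    · intro y hy
      rw [List.mem_singleton] at hy
      rw [hy, rkf_gA, rkf_gB, pfst_pair]
      omega

/-! ### Soundness and completeness -/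

private theorem c3_sound {Lf : List Bool → Prop}
    {Pr Ph : List Bool → List Bool → List Bool → Prop} {W : ℕ} {x : List Bool}
    (h : Der (rule Lf Pr Ph W) x) :
    (∀ c X, x = gA c X → Rc Lf Pr Ph c.length X) ∧
    ∀ c X p u t, x = gB (pair c X) p u t →
      val t ≤ cnt u.length fun v => ∃ Y, Ph X (p ++ v) Y ∧ Rc Lf Pr Ph c.length Y := by
  induction h with
  | mk x l hr _ ih =>
    obtain ⟨-, h⟩ := hr
    rw [r0_iff, r1_iff, r2_iff, r3_iff, r4_iff] at h
    rcases h with h | h | h | h | h
    · obtain ⟨X, rfl, -, h1⟩ := h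
      refine ⟨fun c' X' he => ?_, fun c' X' p u t he => absurd he gA_ne_gB⟩
      obtain ⟨rfl, rfl⟩ := gA_inj he
      exact h1
    · obtain ⟨b, c, X, t, u, rfl, hl, h1⟩ := h
      have hl' := c3_encL_inj hl
      subst hl'
      refine ⟨fun c' X' he => ?_, fun c' X' p u t he => absurd he gA_ne_gB⟩
      obtain ⟨rfl, rfl⟩ := gA_inj he
      have h2 := (ih _ (List.mem_singleton_self _)).2 c X [] u t rfl
      exact ⟨t, u, h1, h2⟩
    · obtain ⟨b, q, p, u, t, t₀, t₁, rfl, hl, h1⟩ := h
      have hl' := c3_encL_inj hl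
      subst hl'
      refine ⟨fun c' X' he => absurd he.symm gA_ne_gB, fun c' X' p' u' t' he => ?_⟩
      obtain ⟨rfl, rfl, rfl, rfl⟩ := gB_inj he
      have h2 := (ih _ (List.mem_cons_self ..)).2 c' X' _ u t₀ rfl
      have h3 := (ih _ (List.mem_cons_of_mem _ (List.mem_singleton_self _))).2 c' X' _ u t₁ rfl
      rw [List.length_cons, c3_cnt_succ, h1]
      simp only [List.append_assoc, List.cons_append, List.nil_append] at h2 h3
      exact Nat.add_le_add h2 h3
    · obtain ⟨q, p, t, rfl, -, h1⟩ := h
      refine ⟨fun c' X' he => absurd he.symm gA_ne_gB, fun c' X' p' u' t' he => ?_⟩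
      obtain ⟨rfl, rfl, rfl, rfl⟩ := gB_inj he
      rw [h1]
      exact Nat.zero_le _
    · obtain ⟨c, X, p, t, Y, rfl, hl, h1, h2⟩ := h
      have hl' := c3_encL_inj hl
      subst hl'
      refine ⟨fun c' X' he => absurd he.symm gA_ne_gB, fun c' X' p' u' t' he => ?_⟩
      obtain ⟨h3, rfl, rfl, rfl⟩ := gB_inj he
      obtain ⟨rfl, rfl⟩ := pair_injective h3
      have h4 := (ih _ (List.mem_singleton_self _)).1 c Y rfl
      rw [h1, List.length_nil, c3_cnt_zero]
      refine ⟨Y, ?_, h4⟩
      rw [List.append_nil]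
      exact h2

private theorem c3_complete {Lf : List Bool → Prop}
    {Pr Ph : List Bool → List Bool → List Bool → Prop} {W M : ℕ}
    (hPr : ∀ X t u, Pr X t u → t.length ≤ M ∧ u.length ≤ M)
    (hPh : ∀ X w Y, Ph X w Y → Y.length ≤ M) (hW : 60 * (M + 1) ≤ W) :
    ∀ c X : List Bool, c.length ≤ M → X.length ≤ M → Rc Lf Pr Ph c.length X →
      Der (rule Lf Pr Ph W) (gA c X) := by
  intro c
  induction c with
  | nil =>
    intro X _ hX h
    refine Der.mk _ [] ⟨⟨?_, ?_⟩, Or.inl (r0_iff.2 ⟨X, rfl, rfl, h⟩)⟩ (by simp)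
    · rw [length_gA, List.length_nil]
      omega
    · exact Nat.zero_le _
  | cons b c ih =>
    intro X hc hX h
    rw [List.length_cons] at hc
    obtain ⟨t, u, h1, h2⟩ := h
    obtain ⟨h3, h4⟩ := hPr _ _ _ h1
    have hin : ∀ u p t : List Bool, p.length + u.length ≤ M → t.length ≤ M →
        (val t ≤ cnt u.length fun v => ∃ Y, Ph X (p ++ v) Y ∧ Rc Lf Pr Ph c.length Y) →
        Der (rule Lf Pr Ph W) (gB (pair c X) p u t) := by
      intro u
      induction u with
      | nil =>
        intro p t hp ht hv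
        rcases Nat.eq_zero_or_pos (val t) with h0 | h0
        · refine Der.mk _ [] ⟨⟨?_, ?_⟩, Or.inr (Or.inr (Or.inr (Or.inl
            (r3_iff.2 ⟨_, _, _, rfl, rfl, h0⟩))))⟩ (by simp)
          · rw [length_gB, length_pair, List.length_nil]
            rw [List.length_nil] at hp
            omega
          · exact Nat.zero_le _
        · have h5 := c3_cnt_zero' _ (h0.trans_le hv)
          obtain ⟨Y, hY1, hY2⟩ := h5
          rw [List.append_nil] at hY1
          have h6 : val t = 1 := by
            have h7 := cnt_le ([] : List Bool).length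
              (fun v => ∃ Y, Ph X (p ++ v) Y ∧ Rc Lf Pr Ph c.length Y)
            rw [List.length_nil, pow_zero] at h7
            rw [List.length_nil] at hv
            omega
          have h8 := hPh _ _ _ hY1
          refine Der.mk _ [gA c Y] ⟨⟨?_, ?_⟩, Or.inr (Or.inr (Or.inr (Or.inr
            (r4_iff.2 ⟨_, _, _, _, _, rfl, rfl, h6, hY1⟩))))⟩ ?_
          · rw [length_gB, length_pair, List.length_nil]
            rw [List.length_nil] at hp
            omega
          · change (pair _ _).length ≤ W
            rw [length_pair, length_gA]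
            change _ + ([] : List Bool).length + 2 ≤ W
            rw [List.length_nil]
            omega
          · intro y hy
            rw [List.mem_singleton] at hy
            rw [hy]
            exact ih Y (by omega) h8 hY2
      | cons b' u ihu =>
        intro p t hp ht hv
        rw [List.length_cons] at hp hv
        rw [c3_cnt_succ] at hv
        obtain ⟨v₀, v₁, hv0, hv1, hv2⟩ : ∃ v₀ v₁ : ℕ, v₀ + v₁ = val t ∧
            (v₀ ≤ cnt u.length fun v => ∃ Y, Ph X (p ++ (false :: v)) Y ∧
              Rc Lf Pr Ph c.length Y) ∧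
            (v₁ ≤ cnt u.length fun v => ∃ Y, Ph X (p ++ (true :: v)) Y ∧
              Rc Lf Pr Ph c.length Y) := by
          refine ⟨min (val t) (cnt u.length fun v => ∃ Y, Ph X (p ++ (false :: v)) Y ∧
              Rc Lf Pr Ph c.length Y), val t - min (val t) (cnt u.length fun v =>
              ∃ Y, Ph X (p ++ (false :: v)) Y ∧ Rc Lf Pr Ph c.length Y), ?_, ?_, ?_⟩
          · omega
          · exact min_le_right _ _
          · omega
        have hvt := val_lt t
        have hb0 : val (bits t.length v₀) = v₀ := val_bits (by omega)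
        have hb1 : val (bits t.length v₁) = v₁ := val_bits (by omega)
        have hl : ∀ n m, (bits n m).length = n := by
          intro n
          induction n with
          | zero => intro m; rfl
          | succ n ih => intro m; simp [bits, ih]
        refine Der.mk _ [gB (pair c X) (p ++ [false]) u (bits t.length v₀),
          gB (pair c X) (p ++ [true]) u (bits t.length v₁)] ⟨⟨?_, ?_⟩, Or.inr (Or.inr (Or.inl
            (r2_iff.2 ⟨b', _, _, _, _, _, _, rfl, rfl, ?_⟩)))⟩ ?_
        · rw [length_gB, length_pair, List.length_cons]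
          omega
        · change (pair _ (pair _ [])).length ≤ W
          rw [length_pair, length_pair, length_gB, length_gB, length_pair, List.length_nil,
            List.length_append, List.length_append, hl, hl, List.length_singleton,
            List.length_singleton]
          omega
        · rw [hb0, hb1, hv0]
        · intro y hy
          rw [List.mem_cons, List.mem_singleton] at hy
          rcases hy with rfl | rfl
          · refine ihu _ _ ?_ ?_ ?_
            · rw [List.length_append, List.length_singleton]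
              omega
            · rw [hl]
              exact ht
            · rw [hb0]
              simp only [List.append_assoc, List.cons_append, List.nil_append]
              exact hv1
          · refine ihu _ _ ?_ ?_ ?_
            · rw [List.length_append, List.length_singleton]
              omega
            · rw [hl]
              exact ht
            · rw [hb1]
              simp only [List.append_assoc, List.cons_append, List.nil_append]
              exact hv2
    refine Der.mk _ [gB (pair c X) [] u t] ⟨⟨?_, ?_⟩, Or.inr (Or.inl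
      (r1_iff.2 ⟨b, _, _, _, _, rfl, rfl, h1⟩))⟩ ?_
    · rw [length_gA, List.length_cons]
      omega
    · change (pair _ []).length ≤ W
      rw [length_pair, length_gB, length_pair, List.length_nil]
      omega
    · intro y hy
      rw [List.mem_singleton] at hy
      rw [hy]
      refine hin u [] t ?_ h3 ?_
      · rw [List.length_nil]
        omega
      · simp only [List.nil_append]
        exact h2

/-! ### The theorem -/

private theorem c3_len {k : ℕ} (d c : ℕ) (j : Fin k) (S : Finset (Fin k)) :
    NEXP O fun e : Fin k → List Bool => ∃ i ∈ S, (e j).length ≤ (d * (e i).length) ^ c + c := by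
  refine NEXP.finite_exists S fun i _ => ?_
  refine (c3_exN 2 (R := fun (e : Fin k → List Bool) (f : Fin 2 → List Bool) =>
    (f 0).length = d * (e i).length + 0 ∧ (f 1).length = (f 0).length ^ c + c ∧
      (e j).length ≤ (f 1).length) ?_ (g := fun n => (d * n) + ((d * n) ^ c + c))
    (((PolyB.const d).mul PolyB.id).add (((PolyB.const d).mul PolyB.id).comp_pow c)) ?_ ?_).congr
      fun e => ?_
  · exact (nexp_lin d 0 _ _).and ((nexp_powAdd c c _ _).and (nexp_lenLe _ _))
  · intro a b hab
    dsimp only
    have : d * a ≤ d * b := Nat.mul_le_mul_left _ hab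
    have := Nat.pow_le_pow_left this c
    omega
  · rintro e f ⟨h1, h2, -⟩ j'
    have h3 : (f 0).length ≤ d * size e := by
      rw [h1, Nat.add_zero]
      exact Nat.mul_le_mul_left _ (len_le_size e i)
    have h4 := Nat.pow_le_pow_left h3 c
    fin_cases j' <;> simp only [Fin.zero_eta, Fin.mk_one] <;> omega
  · constructor
    · rintro ⟨f, h1, h2, h3⟩
      rw [h2, h1, Nat.add_zero] at h3
      exact h3
    · intro h
      refine ⟨![List.replicate (d * (e i).length) true,
        List.replicate ((d * (e i).length) ^ c + c) true], ?_, ?_, ?_⟩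
      · simp
      · simp
      · simpa using h

/-- PLAN. An instance of `nexp_der`. Two kinds of goals:
`A c X` = `level `|c|` holds at `X`` and `B c X p u t` = `at least `val t` strings `w` of length
`|p| + |u|` with prefix `p` have a `Y` with `Phi X w Y` and level `|c|` at `Y``. The last variable
bounds the lengths. -/
theorem nexp_rc {k : ℕ} {Leaf : (Fin k → List Bool) → List Bool → Prop}
    {Par Phi : (Fin k → List Bool) → List Bool → List Bool → List Bool → Prop}
    (hL : NEXP O fun e : Fin (k + 1) → List Bool =>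
      Leaf (low (Nat.le_add_right k 1) e) (e (Fin.last k)))
    (hP : NEXP O fun e : Fin (k + 3) → List Bool => Par (low (Nat.le_add_right k 3) e)
      (e (Fin.castSucc (Fin.castSucc (Fin.last k)))) (e (Fin.castSucc (Fin.last (k + 1))))
      (e (Fin.last (k + 2))))
    (hF : NEXP O fun e : Fin (k + 3) → List Bool => Phi (low (Nat.le_add_right k 3) e)
      (e (Fin.castSucc (Fin.castSucc (Fin.last k)))) (e (Fin.castSucc (Fin.last (k + 1))))
      (e (Fin.last (k + 2))))
    {g : ℕ → ℕ} (hg : PolyB g) (hgm : Monotone g)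
    (hb : ∀ e X t u, Par e X t u → t.length ≤ g (size e) ∧ u.length ≤ g (size e))
    (hb' : ∀ e X w Y, Phi e X w Y → X.length ≤ g (size e) ∧ Y.length ≤ g (size e)) (i j : Fin k) :
    NEXP O fun e : Fin k → List Bool => Rc (Leaf e) (Par e) (Phi e) (e i).length (e j) := by
  -- derivability
  have h1 : NEXP O fun e : Fin (k + 1 + 1) → List Bool =>
      Der ((fun (e' : Fin (k + 1) → List Bool) => rule (Leaf fun j => e' (Fin.castSucc j))
        (Par fun j => e' (Fin.castSucc j)) (Phi fun j => e' (Fin.castSucc j))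
        (e' (Fin.last k)).length) (low (Nat.le_add_right (k + 1) 1) e)) (e (Fin.last (k + 1))) := by
    refine nexp_der (Rule := fun (e' : Fin (k + 1) → List Bool) =>
      rule (Leaf fun j => e' (Fin.castSucc j))
        (Par fun j => e' (Fin.castSucc j)) (Phi fun j => e' (Fin.castSucc j))
        (e' (Fin.last k)).length) ?_ (g := fun n => n * (n + 3) + 2 + n) ?_ ?_
      (fun e' => rkf (e' (Fin.last k)).length) ?_
    · exact nexp_rule hL hP hF (fun j => Fin.castLE (Nat.le_add_right (k + 1) 2)
        (Fin.castSucc j)) (Fin.castLE (Nat.le_add_right (k + 1) 2) (Fin.last k)) _ _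
    · exact ((PolyB.id.mul (PolyB.id.add (PolyB.const 3))).add (PolyB.const 2)).add PolyB.id
    · intro a b hab
      dsimp only
      have : a * (a + 3) ≤ b * (b + 3) := Nat.mul_le_mul hab (by omega)
      omega
    · intro e' x G hr
      obtain ⟨l, h2, h3, h4, h5⟩ := rule_rank hr
      have h6 := len_le_size e' (Fin.last k)
      refine ⟨l, h2, h3.trans (h6.trans (Nat.le_add_left _ _)), h4.trans ?_, h5⟩
      have : (e' (Fin.last k)).length * ((e' (Fin.last k)).length + 3) ≤
          size e' * (size e' + 3) := Nat.mul_le_mul h6 (by omega)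
      omega
  -- the bound of the lengths
  obtain ⟨c, hc⟩ : PolyB fun n => 60 * (n + g n + 1) :=
    (PolyB.const 60).mul ((PolyB.id.add hg).add (PolyB.const 1))
  have hbd : ∀ e : Fin k → List Bool,
      ∃ i ∈ (Finset.univ : Finset (Fin k)),
        60 * (size e + g (size e) + 1) ≤ ((k + 1) * (e i).length) ^ c + c := by
    intro e
    obtain ⟨i', -, hi'⟩ := Finset.exists_max_image (Finset.univ : Finset (Fin k))
      (fun i => (e i).length) ⟨i, Finset.mem_univ _⟩
    refine ⟨i', Finset.mem_univ _, (hc (size e)).trans ?_⟩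
    have h2 : size e ≤ (k + 1) * (e i').length := by
      unfold size
      refine (Finset.sum_le_card_nsmul _ _ (e i').length fun i _ => hi' i (Finset.mem_univ _)).trans ?_
      rw [Finset.card_univ, Fintype.card_fin, smul_eq_mul]
      exact Nat.mul_le_mul_right _ (Nat.le_succ _)
    exact Nat.add_le_add_right (Nat.pow_le_pow_left h2 c) c
  refine (c3_exN 2 (R := fun (e : Fin k → List Bool) (f : Fin 2 → List Bool) =>
    (∃ i ∈ (Finset.univ : Finset (Fin k)), (f 0).length ≤ ((k + 1) * (e i).length) ^ c + c) ∧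
    f 1 = gA (e i) (e j) ∧
    Der (rule (Leaf e) (Par e) (Phi e) (f 0).length) (f 1)) ?_
    (g := fun n => (((k + 1) * n) ^ c + c) + (n + n + n + 3)) ?_ ?_ ?_).congr fun e => ?_
  · refine NEXP.and ?_ (NEXP.and (nexp_gA _ _ _) ?_)
    · refine ((c3_len (k + 1) c (Fin.natAdd k 0) (Finset.univ.map
        ⟨Fin.castAdd 2, Fin.castAdd_injective k 2⟩)).congr fun e => ?_)
      simp
    · refine (h1.congr fun e => ?_)
      exact Iff.rfl
  · exact (((PolyB.const (k + 1)).mul PolyB.id).comp_pow c).add
      (((PolyB.id.add PolyB.id).add PolyB.id).add (PolyB.const 3))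
  · intro a b hab
    dsimp only
    have h2 : (k + 1) * a ≤ (k + 1) * b := Nat.mul_le_mul_left _ hab
    have := Nat.pow_le_pow_left h2 c
    omega
  · rintro e f ⟨⟨i', -, h2⟩, h3, -⟩ j'
    have h4 : (k + 1) * (e i').length ≤ (k + 1) * size e :=
      Nat.mul_le_mul_left _ (len_le_size e i')
    have h5 := Nat.pow_le_pow_left h4 c
    have h6 := congrArg List.length h3
    rw [length_gA] at h6
    have h7 := len_le_size e i
    have h8 := len_le_size e j
    fin_cases j' <;> simp only [Fin.zero_eta, Fin.mk_one] <;> omega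
  · constructor
    · rintro ⟨f, -, h2, h3⟩
      exact (c3_sound h3).1 _ _ h2
    · intro h
      obtain ⟨i', hi', h2⟩ := hbd e
      refine ⟨![List.replicate (60 * (size e + g (size e) + 1)) true, gA (e i) (e j)],
        ⟨i', hi', ?_⟩, rfl, ?_⟩
      · simpa using h2
      · refine c3_complete (M := size e + g (size e))
          (fun X t u hp => ?_) (fun X w Y hp => ?_) ?_ _ _ ?_ ?_ h
        · have := hb _ _ _ _ hp
          omega
        · have := hb' _ _ _ _ hp
          omega
        · simp
        · exact (len_le_size e i).trans (Nat.le_add_right _ _)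
        · exact (len_le_size e j).trans (Nat.le_add_right _ _)

end Pool.Agent.LibAV75
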