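import Pool.Agent.LibAV75.C3

/-!
Row C4: iterated majorities of 15 parts.
-/

namespace Pool.Agent.LibAV75

open Filter Function Pool.Agent.LibNexp Pool.Agent.LibBHN

variable {O : List Bool → Bool}

/-- Part number `i` of length `ℓ` of the string `z`. -/
def part (ℓ i : ℕ) (z : List Bool) : List Bool := (z.drop (i * ℓ)).take ℓ

open Classical in
/-- At least 8 of the 15 parts of length `ℓ` of `z` satisfy `P`. -/
def maj (ℓ : ℕ) (P : List Bool → Prop) (z : List Bool) : Prop :=
  8 ≤ ((Finset.range 15).filter fun i => P (part ℓ i z)).card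

/-- Iterated majority, for strings of length `15 ^ h * l`. -/
def tree (P : List Bool → Prop) (l : ℕ) : ℕ → List Bool → Prop
  | 0 => P
  | h + 1 => maj (15 ^ h * l) (tree P l h)

theorem maj_not {ℓ : ℕ} {P : List Bool → Prop} {z : List Bool} :
    maj ℓ (fun x => ¬ P x) z ↔ ¬ maj ℓ P z := by
  classical
  unfold maj
  have h := Finset.card_filter_add_card_filter_not (s := Finset.range 15)
    (fun i => P (part ℓ i z))
  rw [Finset.card_range] at h
  have h2 : ∀ a b : ℕ, a + b = 15 → (8 ≤ b ↔ ¬ 8 ≤ a) := fun a b hab => by omega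
  refine Iff.trans ?_ (h2 _ _ h)
  constructor <;> intro h' <;> convert h'

theorem tree_not {P : List Bool → Prop} {l : ℕ} : ∀ {h : ℕ} {z : List Bool},
    tree (fun x => ¬ P x) l h z ↔ ¬ tree P l h z := by
  intro h
  induction h with
  | zero => intro z; exact Iff.rfl
  | succ h ih =>
    intro z
    have h1 : tree (fun x => ¬ P x) l h = fun x => ¬ tree P l h x :=
      funext fun x => propext ih
    show maj (15 ^ h * l) (tree (fun x => ¬ P x) l h) z ↔ ¬ maj (15 ^ h * l) (tree P l h) z
    rw [h1]
    exact maj_not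

/-- one step of the counter -/
private def C4S (b : ℕ) (x y a c : List Bool) : Prop := ∃ t u t' u' : List Bool,
  (a = pair t u ∧ c = pair t' u') ∧ (t'.length = 1 * t.length + 1 ∧ u'.length = b * u.length + 0) ∧
    (t'.length ≤ x.length ∧ u'.length ≤ y.length)

private theorem C4_step (b : ℕ) : NEXP O fun e : Fin 4 → List Bool =>
    C4S b (e 0) (e 1) (e 2) (e 3) := by
  have h1 : NEXP O fun e : Fin 8 → List Bool =>
      (e 2 = pair (e 4) (e 5) ∧ e 3 = pair (e 6) (e 7)) ∧
        ((e 6).length = 1 * (e 4).length + 1 ∧ (e 7).length = b * (e 5).length + 0) ∧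
        ((e 6).length ≤ (e 0).length ∧ (e 7).length ≤ (e 1).length) :=
    ((nexp_pair3 4 5 2).and (nexp_pair3 6 7 3)).and
      (((nexp_lin 1 1 4 6).and (nexp_lin b 0 5 7)).and ((nexp_lenLe 6 0).and (nexp_lenLe 7 1)))
  have h2 : NEXP O fun e : Fin 6 → List Bool => ∃ t' u' : List Bool,
      (e 2 = pair (e 4) (e 5) ∧ e 3 = pair t' u') ∧
        (t'.length = 1 * (e 4).length + 1 ∧ u'.length = b * (e 5).length + 0) ∧
        (t'.length ≤ (e 0).length ∧ u'.length ≤ (e 1).length) := by
    refine nexp_ex2 (R := fun (e : Fin 6 → List Bool) t' u' =>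
      (e 2 = pair (e 4) (e 5) ∧ e 3 = pair t' u') ∧
        (t'.length = 1 * (e 4).length + 1 ∧ u'.length = b * (e 5).length + 0) ∧
        (t'.length ≤ (e 0).length ∧ u'.length ≤ (e 1).length)) h1
      (g := fun n => n) PolyB.id monotone_id ?_
    rintro e a c ⟨-, -, h5, h6⟩
    exact ⟨h5.trans (len_le_size e 0), h6.trans (len_le_size e 1)⟩
  have h3 : NEXP O fun e : Fin 4 → List Bool => ∃ t u t' u' : List Bool,
      (e 2 = pair t u ∧ e 3 = pair t' u') ∧
        (t'.length = 1 * t.length + 1 ∧ u'.length = b * u.length + 0) ∧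
        (t'.length ≤ (e 0).length ∧ u'.length ≤ (e 1).length) := by
    refine nexp_ex2 (R := fun (e : Fin 4 → List Bool) t u => ∃ t' u' : List Bool,
      (e 2 = pair t u ∧ e 3 = pair t' u') ∧
        (t'.length = 1 * t.length + 1 ∧ u'.length = b * u.length + 0) ∧
        (t'.length ≤ (e 0).length ∧ u'.length ≤ (e 1).length)) h2
      (g := fun n => n) PolyB.id monotone_id ?_
    rintro e a c ⟨t', u', ⟨h, -⟩, -⟩
    have := len_le_size e 2
    rw [h, length_pair] at this
    constructor <;> omega
  exact h3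

private theorem C4_reach (b : ℕ) : NEXP O fun e : Fin 4 → List Bool =>
    Relation.ReflTransGen (C4S b (e 0) (e 1)) (e 2) (e 3) := by
  refine nexp_reach (k := 2) (S := fun e a c => C4S b (e 0) (e 1) a c) (C4_step b)
    (g := fun n => 3 * n + 2) (((PolyB.const 3).mul PolyB.id).add (PolyB.const 2)) ?_ ?_
  · intro a c hac
    show 3 * a + 2 ≤ 3 * c + 2
    omega
  · rintro e a c ⟨t, u, t', u', ⟨-, rfl⟩, -, h4, h5⟩
    have h6 := len_le_size e 0
    have h7 := len_le_size e 1
    rw [length_pair]
    omega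

private theorem C4_iff (b : ℕ) (x y l : List Bool) :
    y.length = b ^ x.length * l.length ↔ ∃ u : List Bool, u.length = 1 * y.length + 0 ∧
      Relation.ReflTransGen (C4S b x y) (pair [] l) (pair x u) := by
  constructor
  · intro h
    have key : ∀ n ≤ x.length, ∀ t : List Bool, t.length = n → ∃ u : List Bool,
        u.length = b ^ n * l.length ∧
          Relation.ReflTransGen (C4S b x y) (pair [] l) (pair t u) := by
      intro n
      induction n with
      | zero =>
        intro _ t ht
        rw [List.length_eq_zero_iff.1 ht]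
        exact ⟨l, by simp, .refl⟩
      | succ n ih =>
        intro hn t ht
        obtain ⟨u, hu, hr⟩ := ih (by omega) t.tail (by simp [ht])
        have h1 : b * u.length = b ^ (n + 1) * l.length := by
          rw [hu, pow_succ]
          ring
        refine ⟨List.replicate (b * u.length) true, ?_, hr.tail ⟨_, _, _, _, ⟨rfl, rfl⟩,
          ⟨?_, ?_⟩, ?_, ?_⟩⟩
        · rw [List.length_replicate, h1]
        · rw [List.length_tail]
          omega
        · rw [List.length_replicate, add_zero]
        · omega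
        · rw [List.length_replicate, h1, h]
          apply Nat.mul_le_mul_right
          rcases Nat.eq_zero_or_pos b with rfl | hb
          · rw [zero_pow (by omega)]
            exact Nat.zero_le _
          · exact Nat.pow_le_pow_right hb hn
    obtain ⟨u, hu, hr⟩ := key _ le_rfl x rfl
    exact ⟨u, by rw [hu, h]; ring, hr⟩
  · rintro ⟨u, hu, hr⟩
    have key : ∀ c, Relation.ReflTransGen (C4S b x y) (pair [] l) c →
        ∃ t u : List Bool, c = pair t u ∧ u.length = b ^ t.length * l.length := by
      intro c hc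
      induction hc with
      | refl => exact ⟨_, _, rfl, by simp⟩
      | tail _ hs ih =>
        obtain ⟨t, u, t', u', ⟨h1, h2⟩, ⟨h3, h4⟩, -⟩ := hs
        obtain ⟨t0, u0, h5, h6⟩ := ih
        rw [h5] at h1
        obtain ⟨rfl, rfl⟩ := pair_injective h1
        refine ⟨_, _, h2, ?_⟩
        rw [h4, h3, h6, one_mul, pow_succ]
        ring
    obtain ⟨t, u1, h1, h2⟩ := key _ hr
    obtain ⟨rfl, rfl⟩ := pair_injective h1
    rw [← h2, hu]
    ring

/-- Lengths. PLAN. Reachability from `pair (e l) []` to `pair y (e i)`-like states: a counter string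
grows by one letter and the other string becomes `b` times as long; all lengths are bounded by those of
`e i` and `e j`. (If `|e l| = 0` then `|e j| = 0`.) -/
theorem nexp_powLen (b : ℕ) {k : ℕ} (i j l : Fin k) : NEXP O fun e : Fin k → List Bool =>
    (e j).length = b ^ (e i).length * (e l).length := by
  have h1 : NEXP O fun e : Fin 7 → List Bool =>
      ((e 3).length = 1 * (e 1).length + 0 ∧ e 4 = []) ∧
        (e 5 = pair (e 4) (e 2) ∧ e 6 = pair (e 0) (e 3)) ∧
          Relation.ReflTransGen (C4S b (e 0) (e 1)) (e 5) (e 6) :=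
    ((nexp_lin 1 0 1 3).and (nexp_const _ 4)).and
      (((nexp_pair3 4 2 5).and (nexp_pair3 0 3 6)).and
        (((C4_reach b).reindex ![0, 1, 5, 6]).congr fun e => by simp))
  have h2 : NEXP O fun e : Fin 5 → List Bool => ∃ p q : List Bool,
      ((e 3).length = 1 * (e 1).length + 0 ∧ e 4 = []) ∧
        (p = pair (e 4) (e 2) ∧ q = pair (e 0) (e 3)) ∧
          Relation.ReflTransGen (C4S b (e 0) (e 1)) p q := by
    refine nexp_ex2 (R := fun (e : Fin 5 → List Bool) p q =>
      ((e 3).length = 1 * (e 1).length + 0 ∧ e 4 = []) ∧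
        (p = pair (e 4) (e 2) ∧ q = pair (e 0) (e 3)) ∧
          Relation.ReflTransGen (C4S b (e 0) (e 1)) p q) h1
      (g := fun n => 3 * n + 2) (((PolyB.const 3).mul PolyB.id).add (PolyB.const 2)) ?_ ?_
    · intro a c hac
      show 3 * a + 2 ≤ 3 * c + 2
      omega
    · rintro e a c ⟨-, ⟨rfl, rfl⟩, -⟩
      have h4 := len_le_size e 0
      have h5 := len_le_size e 2
      have h6 := len_le_size e 3
      have h7 := len_le_size e 4
      rw [length_pair, length_pair]
      constructor <;> omega
  have h3 : NEXP O fun e : Fin 3 → List Bool => ∃ u s p q : List Bool,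
      (u.length = 1 * (e 1).length + 0 ∧ s = []) ∧
        (p = pair s (e 2) ∧ q = pair (e 0) u) ∧
          Relation.ReflTransGen (C4S b (e 0) (e 1)) p q := by
    refine nexp_ex2 (R := fun (e : Fin 3 → List Bool) u s => ∃ p q : List Bool,
      (u.length = 1 * (e 1).length + 0 ∧ s = []) ∧
        (p = pair s (e 2) ∧ q = pair (e 0) u) ∧
          Relation.ReflTransGen (C4S b (e 0) (e 1)) p q) h2
      (g := fun n => n) PolyB.id monotone_id ?_
    rintro e u s ⟨p, q, ⟨h4, rfl⟩, -⟩
    have h5 := len_le_size e 1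
    constructor
    · rw [h4]; omega
    · exact Nat.zero_le _
  refine (h3.reindex ![i, j, l]).congr fun e => ?_
  simp only [Matrix.cons_val_zero, Matrix.cons_val_one, Matrix.cons_val]
  rw [C4_iff]
  constructor
  · rintro ⟨u, s, p, q, ⟨h4, rfl⟩, ⟨rfl, rfl⟩, h⟩
    exact ⟨u, h4, h⟩
  · rintro ⟨u, h4, h⟩
    exact ⟨u, [], _, _, ⟨h4, rfl⟩, ⟨rfl, rfl⟩, h⟩

private theorem C4_part (i : ℕ) : NEXP O fun e : Fin 2 → List Bool => ∃ a c b : List Bool,
    (e 0 = a ++ c ∧ c = e 1 ++ b) ∧ a.length = i * (e 1).length + 0 := by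
  have h1 : NEXP O fun e : Fin 5 → List Bool =>
      (e 0 = e 2 ++ e 3 ∧ e 3 = e 1 ++ e 4) ∧ (e 2).length = i * (e 1).length + 0 :=
    ((nexp_append 2 3 0).and (nexp_append 1 4 3)).and (nexp_lin i 0 1 2)
  have h2 : NEXP O fun e : Fin 4 → List Bool => ∃ b : List Bool,
      (e 0 = e 2 ++ e 3 ∧ e 3 = e 1 ++ b) ∧ (e 2).length = i * (e 1).length + 0 := by
    refine nexp_ex (R := fun (e : Fin 4 → List Bool) b =>
      (e 0 = e 2 ++ e 3 ∧ e 3 = e 1 ++ b) ∧ (e 2).length = i * (e 1).length + 0) h1
      (g := fun n => n) PolyB.id ?_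
    rintro e z ⟨⟨-, h⟩, -⟩
    have := len_le_size e 3
    rw [h, List.length_append] at this
    omega
  refine nexp_ex2 (R := fun (e : Fin 2 → List Bool) a c => ∃ b : List Bool,
      (e 0 = a ++ c ∧ c = e 1 ++ b) ∧ a.length = i * (e 1).length + 0) h2
      (g := fun n => n) PolyB.id monotone_id ?_
  rintro e a c ⟨b, ⟨h, -⟩, -⟩
  have := len_le_size e 0
  rw [h, List.length_append] at this
  constructor <;> omega

private theorem C4_part_iff {i : ℕ} (hi : i < 15) (X Y : List Bool)
    (hX : X.length = 15 * Y.length + 0) :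
    (∃ a c b : List Bool, (X = a ++ c ∧ c = Y ++ b) ∧ a.length = i * Y.length + 0) ↔
      Y = part Y.length i X := by
  unfold part
  constructor
  · rintro ⟨a, c, b, ⟨rfl, rfl⟩, ha⟩
    rw [add_zero] at ha
    rw [← ha, List.drop_left, List.take_left]
  · intro h
    refine ⟨X.take (i * Y.length), X.drop (i * Y.length), (X.drop (i * Y.length)).drop Y.length,
      ⟨(List.take_append_drop _ _).symm, ?_⟩, ?_⟩
    · conv_lhs => rw [← List.take_append_drop Y.length (X.drop (i * Y.length))]
      rw [← h]
    · rw [List.length_take, hX]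
      have : i * Y.length ≤ 15 * Y.length := Nat.mul_le_mul_right _ hi.le
      omega

private theorem C4_len {i ℓ : ℕ} (hi : i < 15) (X : List Bool) (hX : X.length = 15 * ℓ) :
    (part ℓ i X).length = ℓ := by
  unfold part
  rw [List.length_take, List.length_drop, hX]
  have h1 : (i + 1) * ℓ ≤ 15 * ℓ := Nat.mul_le_mul_right _ hi
  have h2 : (i + 1) * ℓ = i * ℓ + ℓ := by ring
  omega

private theorem C4_rc {P : List Bool → Prop} {l M : ℕ} : ∀ (j : ℕ) (X : List Bool),
    X.length = 15 ^ j * l → X.length ≤ M →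
    (Rc P (fun _ t u => u.length = 4 ∧ (val t = 8 ∧ t.length = 4))
      (fun X w Y => (w.length = 4 ∧ X.length ≤ M) ∧ ∃ i ∈ Finset.range 15,
        val w = i ∧ (X.length = 15 * Y.length + 0 ∧ Y = part Y.length i X)) j X ↔
      tree P l j X) := by
  classical
  intro j
  induction j with
  | zero => intro X _ _; exact Iff.rfl
  | succ j ih =>
    intro X hX hM
    have hX' : X.length = 15 * (15 ^ j * l) := by rw [hX, pow_succ]; ring
    have key : ∀ w : List Bool, w.length = 4 →
        ((∃ Y, ((w.length = 4 ∧ X.length ≤ M) ∧ ∃ i ∈ Finset.range 15,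
          val w = i ∧ (X.length = 15 * Y.length + 0 ∧ Y = part Y.length i X)) ∧
          Rc P (fun _ t u => u.length = 4 ∧ (val t = 8 ∧ t.length = 4))
            (fun X w Y => (w.length = 4 ∧ X.length ≤ M) ∧ ∃ i ∈ Finset.range 15,
              val w = i ∧ (X.length = 15 * Y.length + 0 ∧ Y = part Y.length i X)) j Y) ↔
          (val w < 15 ∧ tree P l j (part (15 ^ j * l) (val w) X))) := by
      intro w hw
      constructor
      · rintro ⟨Y, ⟨-, i, hi, hv, hl, hY⟩, hR⟩
        have hYl : Y.length = 15 ^ j * l := by omega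
        rw [ih Y hYl (by omega)] at hR
        rw [hv]
        refine ⟨Finset.mem_range.1 hi, ?_⟩
        rw [← hYl, ← hY]
        exact hR
      · rintro ⟨hv, hT⟩
        have hYl := C4_len hv X hX'
        refine ⟨part (15 ^ j * l) (val w) X, ⟨⟨hw, hM⟩, val w, Finset.mem_range.2 hv, rfl, ?_, ?_⟩,
          ?_⟩
        · rw [hYl, hX', add_zero]
        · rw [hYl]
        · rw [ih _ hYl (by rw [hYl]; omega)]
          exact hT
    have hcnt : cnt 4 (fun w => ∃ Y, ((w.length = 4 ∧ X.length ≤ M) ∧ ∃ i ∈ Finset.range 15,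
          val w = i ∧ (X.length = 15 * Y.length + 0 ∧ Y = part Y.length i X)) ∧
          Rc P (fun _ t u => u.length = 4 ∧ (val t = 8 ∧ t.length = 4))
            (fun X w Y => (w.length = 4 ∧ X.length ≤ M) ∧ ∃ i ∈ Finset.range 15,
              val w = i ∧ (X.length = 15 * Y.length + 0 ∧ Y = part Y.length i X)) j Y) =
        ((Finset.range 15).filter fun i => tree P l j (part (15 ^ j * l) i X)).card := by
      unfold cnt
      refine congrArg Finset.card ?_
      ext m
      rw [Finset.mem_filter, Finset.mem_filter, Finset.mem_range, Finset.mem_range]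
      constructor
      · rintro ⟨h1, h2⟩
        have h3 := (key _ (length_bits 4 m)).1 h2
        rw [val_bits h1] at h3
        exact h3
      · rintro ⟨h1, h2⟩
        have h3 : m < 2 ^ 4 := by omega
        refine ⟨h3, (key _ (length_bits 4 m)).2 ?_⟩
        rw [val_bits h3]
        exact ⟨h1, h2⟩
    show (∃ t u : List Bool, (u.length = 4 ∧ (val t = 8 ∧ t.length = 4)) ∧
      val t ≤ cnt u.length _) ↔ 8 ≤ _
    constructor
    · rintro ⟨t, u, ⟨hu, ht, -⟩, h⟩
      rw [hu, ht, hcnt] at h
      exact h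
    · intro h
      refine ⟨bits 4 8, bits 4 0, ⟨length_bits _ _, val_bits (by norm_num), length_bits _ _⟩, ?_⟩
      rw [length_bits, val_bits (by norm_num), hcnt]
      exact h

/-- PLAN. An instance of `nexp_rc`: `Leaf := R e`;
`Par e X t u := |u| = 4 ∧ val t = 8 ∧ |t| = 4`;
`Phi e X w Y := |w| = 4 ∧ |X| ≤ |e z| ∧ ∃ i < 15, val w = i ∧ |X| = 15 * |Y| ∧ Y = part |Y| i X`
(`X = a ++ Y ++ b` with `|a| = i * |Y|`; a finite union over `i`). For `|X| = 15 ^ (j + 1) * l` the
number of `w` of length 4 is the number of good parts. -/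
theorem nexp_tree {k : ℕ} {R : (Fin k → List Bool) → List Bool → Prop}
    (hR : NEXP O fun e : Fin (k + 1) → List Bool =>
      R (low (Nat.le_add_right k 1) e) (e (Fin.last k))) (il ih iz : Fin k) :
    NEXP O fun e : Fin k → List Bool => (e iz).length = 15 ^ (e ih).length * (e il).length ∧
      tree (R e) (e il).length (e ih).length (e iz) := by
  have hP : NEXP O fun e : Fin (k + 3) → List Bool =>
      (e (Fin.last (k + 2))).length = 4 ∧ (val (e (Fin.castSucc (Fin.last (k + 1)))) = 8 ∧
        (e (Fin.castSucc (Fin.last (k + 1)))).length = 4) := by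
    refine ((nexp_lin 0 4 (Fin.last (k + 2)) (Fin.last (k + 2))).and
      ((nexp_vConst 8 (Fin.castSucc (Fin.last (k + 1)))).and
      (nexp_lin 0 4 (Fin.last (k + 2)) (Fin.castSucc (Fin.last (k + 1)))))).congr fun e => ?_
    rw [zero_mul, zero_add]
  have hF : NEXP O fun e : Fin (k + 3) → List Bool =>
      ((e (Fin.castSucc (Fin.last (k + 1)))).length = 4 ∧
        (e (Fin.castSucc (Fin.castSucc (Fin.last k)))).length ≤
          (e (Fin.castLE (Nat.le_add_right k 3) iz)).length) ∧
      ∃ i ∈ Finset.range 15, val (e (Fin.castSucc (Fin.last (k + 1)))) = i ∧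
        ((e (Fin.castSucc (Fin.castSucc (Fin.last k)))).length =
          15 * (e (Fin.last (k + 2))).length + 0 ∧
        e (Fin.last (k + 2)) = part (e (Fin.last (k + 2))).length i
          (e (Fin.castSucc (Fin.castSucc (Fin.last k))))) := by
    refine NEXP.and ?_ (NEXP.finite_exists _ fun i hi => (nexp_vConst i _).and ?_)
    · refine NEXP.and ?_ (nexp_lenLe _ _)
      refine (nexp_lin 0 4 (Fin.last (k + 2)) (Fin.castSucc (Fin.last (k + 1)))).congr fun e => ?_
      rw [zero_mul, zero_add]
    · refine ((nexp_lin 15 0 (Fin.last (k + 2)) (Fin.castSucc (Fin.castSucc (Fin.last k)))).and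
        ((C4_part i).reindex ![Fin.castSucc (Fin.castSucc (Fin.last k)),
          Fin.last (k + 2)])).congr fun e => ?_
      simp only [Matrix.cons_val_zero, Matrix.cons_val_one]
      constructor
      · rintro ⟨h1, h2⟩
        exact ⟨h1, (C4_part_iff (Finset.mem_range.1 hi) _ _ h1).1 h2⟩
      · rintro ⟨h1, h2⟩
        exact ⟨h1, (C4_part_iff (Finset.mem_range.1 hi) _ _ h1).2 h2⟩
  have h := nexp_rc (k := k) (Leaf := R)
    (Par := fun _ _ t u => u.length = 4 ∧ (val t = 8 ∧ t.length = 4))
    (Phi := fun e X w Y => (w.length = 4 ∧ X.length ≤ (e iz).length) ∧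
      ∃ i ∈ Finset.range 15, val w = i ∧
        (X.length = 15 * Y.length + 0 ∧ Y = part Y.length i X))
    hR hP hF (g := fun n => n + 4) (PolyB.id.add (PolyB.const 4))
    (fun a b hab => Nat.add_le_add_right hab 4)
    (fun e X t u h => by
      obtain ⟨h1, -, h2⟩ := h
      constructor <;> omega)
    (fun e X w Y h => by
      obtain ⟨⟨-, h1⟩, i, -, -, h2, -⟩ := h
      have := len_le_size e iz
      constructor <;> omega) ih iz
  refine ((nexp_powLen 15 ih iz il).and h).congr fun e => ?_
  exact and_congr_right fun h1 => C4_rc _ _ h1 le_rfl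

end Pool.Agent.LibAV75
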