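import Pool.Agent.LibAV75.C4

/-!
Row C5: the decoding of iterated majorities.
-/

namespace Pool.Agent.LibAV75

open Filter Function Pool.Agent.LibNexp Pool.Agent.LibBHN

variable {O : List Bool → Bool}

/-- The string `X` of length `ℓ` is accepted if at least half of the pairs `(i, z)`, `i < 15`, `z` of
length `15 * ℓ` with part number `i` equal to `X`, satisfy `M z` (there are `15 * 2 ^ (14 * ℓ)` pairs). -/
def dec (ℓ : ℕ) (M : List Bool → Prop) (X : List Bool) : Prop :=
  15 * 2 ^ (14 * ℓ) ≤ 2 * ∑ i ∈ Finset.range 15, cnt (15 * ℓ) fun z => part ℓ i z = X ∧ M z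

/-- Iterated decoding: `dt M l h j` is the predicate for strings of length `15 ^ (h - j) * l`
obtained from the predicate `M` for strings of length `15 ^ h * l` by `j` decodings. -/
def dt (M : List Bool → Prop) (l h : ℕ) : ℕ → List Bool → Prop
  | 0 => M
  | j + 1 => dec (15 ^ (h - (j + 1)) * l) (dt M l h j)

private theorem C5_nil (l : List Bool) : l.flatMap (fun _ => ([] : List Bool)) = [] := by
  induction l with
  | nil => rfl
  | cons b l ih => rw [List.flatMap_cons, ih]; rfl

private theorem C5_cons (w : List Bool) {k : ℕ} (i j : Fin k) :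
    NEXP O fun e : Fin k → List Bool => e j = w ++ e i := by
  refine ((nexp_subst (O := O) (fun _ => []) (fun b => [b]) w).reindex ![i, i, j]).congr
    fun e => ?_
  simp only [Matrix.cons_val_zero, Matrix.cons_val_one, Matrix.cons_val, C5_nil, List.nil_append,
    List.flatMap_singleton']

/-- A threshold string: its value is `15 * 2 ^ (14 * |X|)`. -/
private def C5thr (X : List Bool) : List Bool :=
  X.flatMap (fun _ => List.replicate 14 false) ++ [true, true, true, true] ++
    X.flatMap (fun _ => ([] : List Bool))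

private theorem C5_flat (X : List Bool) :
    X.flatMap (fun _ => List.replicate 14 false) = List.replicate (14 * X.length) false := by
  induction X with
  | nil => rfl
  | cons b X ih =>
    rw [List.flatMap_cons, ih, List.length_cons, ← List.replicate_add]
    congr 1
    ring

private theorem C5_val_rep (n : ℕ) (x : List Bool) :
    val (List.replicate n false ++ x) = 2 ^ n * val x := by
  induction n with
  | zero => simp
  | succ n ih =>
    rw [List.replicate_succ, List.cons_append, val, ih, pow_succ]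
    simp
    ring

private theorem C5_thr_val (X : List Bool) : val (C5thr X) = 15 * 2 ^ (14 * X.length) := by
  unfold C5thr
  rw [C5_nil, List.append_nil, C5_flat, C5_val_rep]
  simp [val]
  ring

private theorem C5_thr_len (X : List Bool) : (C5thr X).length = 14 * X.length + 4 := by
  unfold C5thr
  rw [C5_nil, List.append_nil, C5_flat]
  simp

private theorem C5_thr {k : ℕ} (i j : Fin k) :
    NEXP O fun e : Fin k → List Bool => e j = C5thr (e i) := by
  refine ((nexp_subst (O := O) (fun _ => List.replicate 14 false) (fun _ => [])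
    [true, true, true, true]).reindex ![i, i, j]).congr fun e => ?_
  simp only [Matrix.cons_val_zero, Matrix.cons_val_one, Matrix.cons_val]
  rfl

/-- The parameters. -/
private def C5Par (Z X t u : List Bool) : Prop :=
  (u.length = 15 * X.length + 4 ∧ t.length = 1 * u.length + 1) ∧ X.length ≤ Z.length ∧
    ∃ s f, (s = C5thr X ∧ f = [false] ++ t) ∧ val s ≤ val f

private theorem C5_Par_iff {Z X t u : List Bool} : C5Par Z X t u ↔
    (u.length = 15 * X.length + 4 ∧ t.length = u.length + 1) ∧ X.length ≤ Z.length ∧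
      15 * 2 ^ (14 * X.length) ≤ 2 * val t := by
  unfold C5Par
  rw [one_mul]
  refine and_congr_right fun _ => and_congr_right fun _ => ?_
  have h1 : val ([false] ++ t) = 2 * val t := by simp [val]
  constructor
  · rintro ⟨s, f, ⟨rfl, rfl⟩, h⟩
    rw [C5_thr_val, h1] at h
    exact h
  · intro h
    refine ⟨_, _, ⟨rfl, rfl⟩, ?_⟩
    rw [C5_thr_val, h1]
    exact h

private theorem C5_Par : NEXP O fun e : Fin 6 → List Bool => C5Par (e 2) (e 3) (e 4) (e 5) := by
  refine ((nexp_lin 15 4 3 5).and (nexp_lin 1 1 5 4)).and ((nexp_lenLe 3 2).and ?_)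
  refine nexp_ex2 (R := fun (e : Fin 6 → List Bool) s f =>
    (s = C5thr (e 3) ∧ f = [false] ++ e 4) ∧ val s ≤ val f)
    (((C5_thr 3 6).and (C5_cons [false] 4 7)).and (nexp_vLe 6 7))
    (g := fun n => 14 * n + 4) (((PolyB.const 14).mul PolyB.id).add (PolyB.const 4)) ?_ ?_
  · intro a b hab
    show 14 * a + 4 ≤ 14 * b + 4
    omega
  · rintro e s f ⟨⟨rfl, rfl⟩, -⟩
    have h3 := len_le_size e 3
    have h4 := len_le_size e 4
    rw [C5_thr_len, List.length_append, List.length_singleton]
    constructor <;> omega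

/-- The parts. -/
private theorem C5_part {ℓ i : ℕ} {X Y : List Bool} (hX : X.length = ℓ) (hi : i < 15)
    (hY : Y.length = 15 * ℓ) :
    part ℓ i Y = X ↔ ∃ a m, (a.length = i * X.length ∧ m = a ++ X) ∧ ∃ b, Y = m ++ b := by
  unfold part
  constructor
  · intro h
    refine ⟨Y.take (i * ℓ), _, ⟨?_, rfl⟩, (Y.drop (i * ℓ)).drop ℓ, ?_⟩
    · rw [List.length_take, hX, hY, min_eq_left]
      exact Nat.mul_le_mul_right _ hi.le
    · rw [← h, List.append_assoc, List.take_append_drop, List.take_append_drop]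
  · rintro ⟨a, m, ⟨h1, rfl⟩, b, rfl⟩
    rw [List.append_assoc, List.drop_left' (by rw [h1, hX]), List.take_left' hX]

private def C5Phi (Z X w Y : List Bool) : Prop :=
  ∃ i ∈ Finset.range 15, (w = bits 4 i ++ Y ∧ Y.length = 15 * X.length + 0) ∧
    Y.length ≤ Z.length ∧ ∃ a m, (a.length = i * X.length + 0 ∧ m = a ++ X) ∧ ∃ b, Y = m ++ b

private theorem C5_Phi_iff {Z X w Y : List Bool} : C5Phi Z X w Y ↔
    ∃ i ∈ Finset.range 15, (w = bits 4 i ++ Y ∧ Y.length = 15 * X.length) ∧
    Y.length ≤ Z.length ∧ part X.length i Y = X := by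
  unfold C5Phi
  refine exists_congr fun i => and_congr_right fun hi => ?_
  rw [Finset.mem_range] at hi
  rw [add_zero, add_zero]
  refine and_congr_right fun h => and_congr_right fun _ => ?_
  exact (C5_part rfl hi h.2).symm

private theorem C5_Phi : NEXP O fun e : Fin 6 → List Bool => C5Phi (e 2) (e 3) (e 4) (e 5) := by
  refine NEXP.finite_exists _ fun i _ => ((C5_cons (bits 4 i) 5 4).and (nexp_lin 15 0 3 5)).and
    ((nexp_lenLe 5 2).and ?_)
  have h1 : NEXP O fun e : Fin 8 → List Bool => ∃ b, e 5 = e 7 ++ b := by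
    refine nexp_ex (R := fun (e : Fin 8 → List Bool) b => e 5 = e 7 ++ b)
      (nexp_append 7 8 5) (g := fun n => n) PolyB.id ?_
    intro e b h
    have h5 := len_le_size e 5
    rw [h, List.length_append] at h5
    show _ ≤ size e
    omega
  refine nexp_ex2 (R := fun (e : Fin 6 → List Bool) a m =>
    (a.length = i * (e 3).length + 0 ∧ m = a ++ e 3) ∧ ∃ b, e 5 = m ++ b)
    (((nexp_lin i 0 3 6).and (nexp_append 6 3 7)).and h1) (g := fun n => n) PolyB.id
    monotone_id ?_
  rintro e a m ⟨⟨-, rfl⟩, b, h⟩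
  have h5 := len_le_size e 5
  rw [h, List.length_append, List.length_append] at h5
  rw [List.length_append]
  constructor <;> omega

/-! Counting. -/

private theorem C5_cnt_congr {n : ℕ} {P Q : List Bool → Prop}
    (h : ∀ z : List Bool, z.length = n → (P z ↔ Q z)) : cnt n P = cnt n Q := by
  classical
  unfold cnt
  congr 1
  apply Finset.filter_congr
  intro m _
  exact h _ (by simp)

private theorem C5_cnt_false (n : ℕ) : cnt n (fun _ => False) = 0 := by
  classical
  unfold cnt
  simp

private theorem C5_cnt_card (n : ℕ) (P : List Bool → Prop) [DecidablePred fun m => P (bits n m)] :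
    cnt n P = ∑ m ∈ Finset.range (2 ^ n), if P (bits n m) then 1 else 0 := by
  classical
  unfold cnt
  rw [Finset.card_filter]
  apply Finset.sum_congr rfl
  intro m _
  congr

private theorem C5_sum_two (F : ℕ → ℕ) (N : ℕ) :
    ∑ m ∈ Finset.range (2 * N), F m = ∑ m ∈ Finset.range N, (F (2 * m) + F (2 * m + 1)) := by
  induction N with
  | zero => rfl
  | succ N ih =>
    rw [Nat.mul_succ, Finset.sum_range_succ, Finset.sum_range_succ, ih, Finset.sum_range_succ]
    ring

private theorem C5_cnt_succ (n : ℕ) (P : List Bool → Prop) :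
    cnt (n + 1) P = cnt n (fun z => P (false :: z)) + cnt n (fun z => P (true :: z)) := by
  classical
  rw [C5_cnt_card, C5_cnt_card, C5_cnt_card, pow_succ, mul_comm, C5_sum_two,
    ← Finset.sum_add_distrib]
  apply Finset.sum_congr rfl
  intro m _
  have h1 : bits (n + 1) (2 * m) = false :: bits n m := by
    rw [bits]
    have h2 : 2 * m % 2 = 0 := by omega
    have h3 : 2 * m / 2 = m := by omega
    rw [h2, h3]
    simp
  have h2 : bits (n + 1) (2 * m + 1) = true :: bits n m := by
    rw [bits]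
    have h2 : (2 * m + 1) % 2 = 1 := by omega
    have h3 : (2 * m + 1) / 2 = m := by omega
    rw [h2, h3]
    simp
  rw [h1, h2]

private theorem C5_cnt_add (n a : ℕ) : ∀ P : List Bool → Prop,
    cnt (n + a) P = ∑ i ∈ Finset.range (2 ^ a), cnt n fun z => P (bits a i ++ z) := by
  induction a with
  | zero =>
    intro P
    simp [bits]
  | succ a ih =>
    intro P
    rw [← add_assoc, C5_cnt_succ, ih, ih, pow_succ, mul_comm (2 ^ a) 2, C5_sum_two,
      ← Finset.sum_add_distrib]
    apply Finset.sum_congr rfl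
    intro m _
    have h1 : bits (a + 1) (2 * m) = false :: bits a m := by
      rw [bits]
      have h2 : 2 * m % 2 = 0 := by omega
      have h3 : 2 * m / 2 = m := by omega
      rw [h2, h3]
      simp
    have h2 : bits (a + 1) (2 * m + 1) = true :: bits a m := by
      rw [bits]
      have h2 : (2 * m + 1) % 2 = 1 := by omega
      have h3 : (2 * m + 1) / 2 = m := by omega
      rw [h2, h3]
      simp
    rw [h1, h2]
    rfl

private theorem C5_count {ℓ : ℕ} {Z X : List Bool} (hX : X.length = ℓ)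
    (hZ : 15 * ℓ ≤ Z.length) (Q : List Bool → Prop) :
    (cnt (15 * ℓ + 4) fun w => ∃ Y, C5Phi Z X w Y ∧ Q Y) =
      ∑ i ∈ Finset.range 15, cnt (15 * ℓ) fun z => part ℓ i z = X ∧ Q z := by
  have hb : ∀ i < 16, ∀ i' < 16, ∀ z z' : List Bool, bits 4 i ++ z = bits 4 i' ++ z' →
      i = i' ∧ z = z' := by
    intro i hi i' hi' z z' h
    have h1 : (bits 4 i).length = (bits 4 i').length := by simp
    obtain ⟨h2, h3⟩ := List.append_inj h h1
    refine ⟨?_, h3⟩
    have h4 := congrArg val h2
    rwa [val_bits (by omega), val_bits (by omega)] at h4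
  rw [C5_cnt_add, show 2 ^ 4 = 15 + 1 from rfl, Finset.sum_range_succ]
  have hlast : (cnt (15 * ℓ) fun z => ∃ Y, C5Phi Z X (bits 4 15 ++ z) Y ∧ Q Y) = 0 := by
    rw [← C5_cnt_false (15 * ℓ)]
    apply C5_cnt_congr
    intro z _
    rw [iff_false]
    rintro ⟨Y, h1, -⟩
    rw [C5_Phi_iff] at h1
    obtain ⟨i, hi, ⟨h2, -⟩, -⟩ := h1
    rw [Finset.mem_range] at hi
    have h3 := (hb 15 (by omega) i (by omega) _ _ h2).1
    omega
  rw [hlast, add_zero]
  apply Finset.sum_congr rfl
  intro i hi
  rw [Finset.mem_range] at hi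
  apply C5_cnt_congr
  intro z hz
  constructor
  · rintro ⟨Y, h1, h2⟩
    rw [C5_Phi_iff] at h1
    obtain ⟨i', hi', ⟨h3, -⟩, -, h4⟩ := h1
    rw [Finset.mem_range] at hi'
    obtain ⟨rfl, rfl⟩ := hb i (by omega) i' (by omega) _ _ h3
    rw [hX] at h4
    exact ⟨h4, h2⟩
  · rintro ⟨h1, h2⟩
    refine ⟨z, ?_, h2⟩
    rw [C5_Phi_iff]
    refine ⟨i, Finset.mem_range.2 hi, ⟨rfl, by rw [hz, hX]⟩, by rw [hz]; exact hZ, ?_⟩
    rw [hX]
    exact h1

private theorem C5_rc {N : Lang} {e : Fin 3 → List Bool}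
    (he : (e 2).length = 15 ^ (e 1).length * (e 0).length) (j : ℕ) :
    ∀ X : List Bool, j ≤ (e 1).length → X.length = 15 ^ ((e 1).length - j) * (e 0).length →
      (Rc (fun z => z ∈ N) (C5Par (e 2)) (C5Phi (e 2)) j X ↔
        dt (fun z => z ∈ N) (e 0).length (e 1).length j X) := by
  induction j with
  | zero => intro X _ _; exact Iff.rfl
  | succ j ih =>
    intro X hj hX
    set ℓ := 15 ^ ((e 1).length - (j + 1)) * (e 0).length with hℓ
    have h1 : 15 * ℓ = 15 ^ ((e 1).length - j) * (e 0).length := by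
      rw [hℓ, ← mul_assoc, ← pow_succ']
      congr 2
      omega
    have h2 : 15 * ℓ ≤ (e 2).length := by
      rw [h1, he]
      apply Nat.mul_le_mul_right
      exact Nat.pow_le_pow_right (by norm_num) (Nat.sub_le _ _)
    have hcount : (cnt (15 * ℓ + 4) fun w => ∃ Y, C5Phi (e 2) X w Y ∧
        Rc (fun z => z ∈ N) (C5Par (e 2)) (C5Phi (e 2)) j Y) =
        ∑ i ∈ Finset.range 15, cnt (15 * ℓ) fun z => part ℓ i z = X ∧
          dt (fun z => z ∈ N) (e 0).length (e 1).length j z := by
      rw [C5_count hX h2]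
      apply Finset.sum_congr rfl
      intro i _
      apply C5_cnt_congr
      intro z hz
      rw [ih z (by omega) (by rw [hz, h1])]
    show (∃ t u : List Bool, C5Par (e 2) X t u ∧
      val t ≤ cnt u.length fun w => ∃ Y, C5Phi (e 2) X w Y ∧
        Rc (fun z => z ∈ N) (C5Par (e 2)) (C5Phi (e 2)) j Y) ↔
      15 * 2 ^ (14 * ℓ) ≤ 2 * ∑ i ∈ Finset.range 15, cnt (15 * ℓ) fun z => part ℓ i z = X ∧
          dt (fun z => z ∈ N) (e 0).length (e 1).length j z
    rw [← hcount]
    constructor
    · rintro ⟨t, u, h3, h4⟩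
      rw [C5_Par_iff, hX] at h3
      obtain ⟨⟨h5, h6⟩, h7, h8⟩ := h3
      rw [h5] at h4
      omega
    · intro h3
      set c := cnt (15 * ℓ + 4) fun w => ∃ Y, C5Phi (e 2) X w Y ∧
        Rc (fun z => z ∈ N) (C5Par (e 2)) (C5Phi (e 2)) j Y with hc
      have hc1 : c ≤ 2 ^ (15 * ℓ + 4) := cnt_le _ _
      have hc2 : c < 2 ^ (15 * ℓ + 4 + 1) := by
        have : 0 < 2 ^ (15 * ℓ + 4) := by positivity
        rw [pow_succ]
        omega
      refine ⟨bits (15 * ℓ + 4 + 1) c, bits (15 * ℓ + 4) 0, ?_, ?_⟩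
      · rw [C5_Par_iff, hX, val_bits hc2]
        refine ⟨⟨by simp, by simp⟩, by omega, h3⟩
      · rw [val_bits hc2]
        simp only [length_bits]
        exact hc.le

/-- PLAN. An instance of `nexp_rc` with levels `j = 0, ..., h`: `Leaf := (· ∈ N)`,
`Par e X t u := |u| = 15 * |X| + 4 ∧ |t| = |u| + 1 ∧ |X| ≤ |e 2| ∧ 15 * 2 ^ (14 * |X|) ≤ 2 * val t`
(`nexp_vPow`, `nexp_vMul`, ...), `Phi e X w Y := ∃ i < 15, ∃ v, |v| = 4 ∧ val v = i ∧ w = v ++ Y ∧
|Y| = 15 * |X| ∧ part |X| i Y = X ∧ |Y| ≤ |e 2|`. The number of such `w` is the sum over `i < 15`. By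
induction on `j ≤ h`, for `|X| = 15 ^ (h - j) * |e 0|` and `|e 2| = 15 ^ h * |e 0|`:
`Rc ... j X ↔ dt (· ∈ N) |e 0| h j X`. -/
theorem nexp_dt {N : Lang} (hN : N ∈ NEXPLang O) : NEXP O fun e : Fin 3 → List Bool =>
    (e 2).length = 15 ^ (e 1).length * (e 0).length ∧
      dt (fun z => z ∈ N) (e 0).length (e 1).length (e 1).length (e 0) := by
  have hleaf : NEXP O fun e : Fin 4 → List Bool => e 3 ∈ N :=
    (hN.reindex ![(3 : Fin 4)]).congr fun e => Iff.rfl
  have h1 := nexp_rc (O := O) (k := 3) (Leaf := fun _ z => z ∈ N)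
    (Par := fun e => C5Par (e 2)) (Phi := fun e => C5Phi (e 2)) hleaf C5_Par C5_Phi
    (g := fun n => 15 * n + 5) (((PolyB.const 15).mul PolyB.id).add (PolyB.const 5)) (by
      intro a b hab
      show 15 * a + 5 ≤ 15 * b + 5
      omega) (by
      intro e X t u h
      rw [C5_Par_iff] at h
      have h2 := len_le_size e 2
      constructor <;> omega) (by
      intro e X w Y h
      rw [C5_Phi_iff] at h
      obtain ⟨i, -, ⟨-, h3⟩, h4, -⟩ := h
      have h2 := len_le_size e 2
      constructor <;> omega) 1 0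
  refine ((nexp_powLen 15 1 2 0).and h1).congr fun e => ?_
  refine and_congr_right fun he => ?_
  exact C5_rc he (e 1).length (e 0) le_rfl (by simp)

end Pool.Agent.LibAV75
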