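import Pool.Agent.LibAV75.C0

/-!
Row C6: linear hashing.
-/

namespace Pool.Agent.LibAV75

open Filter Function Pool.Agent.LibNexp Pool.Agent.LibBHN

variable {O : List Bool → Bool}

/-- The scalar product modulo 2. -/
def dot : List Bool → List Bool → Bool
  | a :: s, b :: x => xor (a && b) (dot s x)
  | _, _ => false

/-- The `b` scalar products of `x` with the first `b` parts of length `|x|` of the seed `s`. -/
def hsh : ℕ → List Bool → List Bool → List Bool
  | 0, _, _ => []
  | b + 1, s, x => dot (s.take x.length) x :: hsh b (s.drop x.length) x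

theorem length_hsh (b : ℕ) (s x : List Bool) : (hsh b s x).length = b := by
  induction b generalizing s with
  | zero => rfl
  | succ b ih => rw [hsh, List.length_cons, ih]

private theorem C6_nil (l : List Bool) : l.flatMap (fun _ => ([] : List Bool)) = [] := by
  induction l with
  | nil => rfl
  | cons b l ih => rw [List.flatMap_cons, ih]; rfl

private theorem C6_cons (w : List Bool) {k : ℕ} (i j : Fin k) :
    NEXP O fun e : Fin k → List Bool => e j = w ++ e i := by
  refine ((nexp_subst (O := O) (fun _ => []) (fun b => [b]) w).reindex ![i, i, j]).congr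
    fun e => ?_
  simp only [Matrix.cons_val_zero, Matrix.cons_val_one, Matrix.cons_val, C6_nil, List.nil_append,
    List.flatMap_singleton']

/-- Reachability through pairs, three parameters. -/
private theorem C6_reach {S : List Bool → List Bool → List Bool → List Bool → List Bool →
      List Bool → List Bool → Prop}
    (hS : NEXP O fun e : Fin 9 → List Bool => S (e 0) (e 1) (e 2) (e 5) (e 6) (e 7) (e 8))
    (hb : ∀ x y z t u t' u', S x y z t u t' u' → t'.length ≤ x.length ∧ u'.length ≤ y.length) :
    NEXP O fun e : Fin 5 → List Bool => Relation.ReflTransGen (fun a b => ∃ t u t' u',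
      (a = pair t u ∧ b = pair t' u') ∧ S (e 0) (e 1) (e 2) t u t' u') (e 3) (e 4) := by
  have h1 : NEXP O fun e : Fin 9 → List Bool =>
      (e 3 = pair (e 5) (e 6) ∧ e 4 = pair (e 7) (e 8)) ∧
        S (e 0) (e 1) (e 2) (e 5) (e 6) (e 7) (e 8) :=
    ((nexp_pair3 5 6 3).and (nexp_pair3 7 8 4)).and hS
  have h2 : NEXP O fun e : Fin 7 → List Bool => ∃ t' u',
      (e 3 = pair (e 5) (e 6) ∧ e 4 = pair t' u') ∧ S (e 0) (e 1) (e 2) (e 5) (e 6) t' u' := by
    refine nexp_ex2 (R := fun (e : Fin 7 → List Bool) t' u' =>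
      (e 3 = pair (e 5) (e 6) ∧ e 4 = pair t' u') ∧ S (e 0) (e 1) (e 2) (e 5) (e 6) t' u') h1
      (g := fun n => n) PolyB.id monotone_id ?_
    rintro e a b ⟨⟨-, h⟩, -⟩
    have := len_le_size e 4
    rw [h, length_pair] at this
    constructor <;> omega
  have h3 : NEXP O fun e : Fin 5 → List Bool => ∃ t u t' u',
      (e 3 = pair t u ∧ e 4 = pair t' u') ∧ S (e 0) (e 1) (e 2) t u t' u' := by
    refine nexp_ex2 (R := fun (e : Fin 5 → List Bool) t u => ∃ t' u',
      (e 3 = pair t u ∧ e 4 = pair t' u') ∧ S (e 0) (e 1) (e 2) t u t' u') h2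
      (g := fun n => n) PolyB.id monotone_id ?_
    rintro e a b ⟨t', u', ⟨h, -⟩, -⟩
    have := len_le_size e 3
    rw [h, length_pair] at this
    constructor <;> omega
  refine nexp_reach (k := 3) (S := fun e a b => ∃ t u t' u',
      (a = pair t u ∧ b = pair t' u') ∧ S (e 0) (e 1) (e 2) t u t' u') h3
    (g := fun n => 3 * n + 2) (((PolyB.const 3).mul PolyB.id).add (PolyB.const 2)) ?_ ?_
  · intro a b hab
    show 3 * a + 2 ≤ 3 * b + 2
    omega
  · rintro e a b ⟨t, u, t', u', ⟨-, rfl⟩, h⟩
    have h4 := hb _ _ _ _ _ _ _ h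
    have h5 := len_le_size e 0
    have h6 := len_le_size e 1
    rw [length_pair]
    omega

/-- Paths of pairs. -/
private def C6P (S : List Bool → List Bool → List Bool → List Bool → List Bool →
      List Bool → List Bool → Prop) (x y z : List Bool) (p q : List Bool × List Bool) : Prop :=
  Relation.ReflTransGen (fun p q : List Bool × List Bool => S x y z p.1 p.2 q.1 q.2) p q

private theorem C6_path {S : List Bool → List Bool → List Bool → List Bool → List Bool →
      List Bool → List Bool → Prop} {x y z : List Bool} {p q : List Bool × List Bool} :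
    Relation.ReflTransGen (fun a b => ∃ t u t' u',
      (a = pair t u ∧ b = pair t' u') ∧ S x y z t u t' u') (pair p.1 p.2) (pair q.1 q.2) ↔
    C6P S x y z p q := by
  constructor
  · intro h
    have key : ∀ b, Relation.ReflTransGen (fun a b => ∃ t u t' u',
        (a = pair t u ∧ b = pair t' u') ∧ S x y z t u t' u') (pair p.1 p.2) b →
        ∃ r : List Bool × List Bool, b = pair r.1 r.2 ∧ C6P S x y z p r := by
      intro b hb
      induction hb with
      | refl => exact ⟨p, rfl, .refl⟩
      | tail _ hs ih =>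
        obtain ⟨t, u, t', u', ⟨rfl, rfl⟩, hs⟩ := hs
        obtain ⟨r, h0, h1⟩ := ih
        obtain ⟨h2, h3⟩ := pair_injective h0
        refine ⟨(t', u'), rfl, h1.tail ?_⟩
        show S x y z r.1 r.2 t' u'
        rw [← h2, ← h3]
        exact hs
    obtain ⟨r, h0, h1⟩ := key _ h
    obtain ⟨h2, h3⟩ := pair_injective h0
    have h4 : q = r := Prod.ext h2 h3
    rw [h4]
    exact h1
  · intro h
    unfold C6P at h
    induction h with
    | refl => exact .refl
    | tail _ hs ih => exact ih.tail ⟨_, _, _, _, ⟨rfl, rfl⟩, hs⟩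

private theorem C6_run {S : List Bool → List Bool → List Bool → List Bool → List Bool →
      List Bool → List Bool → Prop}
    (hS : NEXP O fun e : Fin 9 → List Bool => S (e 0) (e 1) (e 2) (e 5) (e 6) (e 7) (e 8))
    (hb : ∀ x y z t u t' u', S x y z t u t' u' → t'.length ≤ x.length ∧ u'.length ≤ y.length)
    {k : ℕ} (ix iy iz it iu it' iu' : Fin k) :
    NEXP O fun e : Fin k → List Bool =>
      C6P S (e ix) (e iy) (e iz) (e it, e iu) (e it', e iu') := by
  have h1 := C6_reach hS hb
  have h2 : NEXP O fun e : Fin 9 → List Bool =>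
      (e 7 = pair (e 3) (e 4) ∧ e 8 = pair (e 5) (e 6)) ∧
      Relation.ReflTransGen (fun a b => ∃ t u t' u',
      (a = pair t u ∧ b = pair t' u') ∧ S (e 0) (e 1) (e 2) t u t' u') (e 7) (e 8) :=
    ((nexp_pair3 3 4 7).and (nexp_pair3 5 6 8)).and
      ((h1.reindex ![0, 1, 2, 7, 8]).congr fun e => Iff.rfl)
  have h3 : NEXP O fun e : Fin 7 → List Bool => ∃ a b,
      (a = pair (e 3) (e 4) ∧ b = pair (e 5) (e 6)) ∧
      Relation.ReflTransGen (fun a b => ∃ t u t' u',
      (a = pair t u ∧ b = pair t' u') ∧ S (e 0) (e 1) (e 2) t u t' u') a b := by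
    refine nexp_ex2 (R := fun (e : Fin 7 → List Bool) a b =>
      (a = pair (e 3) (e 4) ∧ b = pair (e 5) (e 6)) ∧
      Relation.ReflTransGen (fun a b => ∃ t u t' u',
      (a = pair t u ∧ b = pair t' u') ∧ S (e 0) (e 1) (e 2) t u t' u') a b) h2
      (g := fun n => 3 * n + 2) (((PolyB.const 3).mul PolyB.id).add (PolyB.const 2)) ?_ ?_
    · intro a b hab
      show 3 * a + 2 ≤ 3 * b + 2
      omega
    · rintro e a b ⟨⟨rfl, rfl⟩, -⟩
      have h3 := len_le_size e 3
      have h4 := len_le_size e 4
      have h5 := len_le_size e 5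
      have h6 := len_le_size e 6
      rw [length_pair, length_pair]
      constructor <;> omega
  refine (h3.reindex ![ix, iy, iz, it, iu, it', iu']).congr fun e => ?_
  show (∃ a b, (a = pair (e it) (e iu) ∧ b = pair (e it') (e iu')) ∧
      Relation.ReflTransGen (fun a b => ∃ t u t' u',
      (a = pair t u ∧ b = pair t' u') ∧ S (e ix) (e iy) (e iz) t u t' u') a b) ↔ _
  rw [← C6_path]
  constructor
  · rintro ⟨a, b, ⟨rfl, rfl⟩, h⟩
    exact h
  · intro h
    exact ⟨_, _, ⟨rfl, rfl⟩, h⟩

/-- The step of the computation of the scalar product. -/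
private def C6D (x y _z t u t' u' : List Bool) : Prop :=
  (∃ p ∈ (Finset.univ : Finset (Bool × Bool × Bool)), t = [p.1] ++ t' ∧
    ∃ w, u = [p.2.2, p.2.1] ++ w ∧ u' = [xor p.2.2 (p.1 && p.2.1)] ++ w) ∧
  t'.length ≤ x.length ∧ u'.length ≤ y.length

private theorem C6_D : NEXP O fun e : Fin 9 → List Bool =>
    C6D (e 0) (e 1) (e 2) (e 5) (e 6) (e 7) (e 8) := by
  refine (NEXP.finite_exists _ fun p _ => ?_).and ((nexp_lenLe 7 0).and (nexp_lenLe 8 1))
  refine (C6_cons [p.1] 7 5).and ?_
  refine nexp_ex (R := fun (e : Fin 9 → List Bool) w =>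
    e 6 = [p.2.2, p.2.1] ++ w ∧ e 8 = [xor p.2.2 (p.1 && p.2.1)] ++ w)
    ((C6_cons [p.2.2, p.2.1] 9 6).and (C6_cons [xor p.2.2 (p.1 && p.2.1)] 9 8))
    (g := fun n => n) PolyB.id ?_
  rintro e w ⟨h, -⟩
  have h1 := len_le_size e 6
  rw [h, List.length_append] at h1
  show _ ≤ size e
  omega

private theorem C6_D_iff {X Y z a x : List Bool} {b c : Bool} (hX : a.length ≤ X.length)
    (hY : x.length + 1 ≤ Y.length) :
    C6P C6D X Y z (a, c :: x) ([], [b]) ↔ a.length = x.length ∧ xor c (dot a x) = b := by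
  constructor
  · intro h
    have key : ∀ p : List Bool × List Bool, C6P C6D X Y z p ([], [b]) →
        ∃ c x, p.2 = c :: x ∧ p.1.length = x.length ∧ xor c (dot p.1 x) = b := by
      intro p hp
      induction hp using Relation.ReflTransGen.head_induction_on with
      | refl => exact ⟨b, [], rfl, rfl, by simp [dot]⟩
      | @head p q hs _ ih =>
        obtain ⟨t, u⟩ := p
        obtain ⟨t', u'⟩ := q
        obtain ⟨⟨⟨p1, q1, c1⟩, -, h1, w, h2, h3⟩, -, -⟩ := hs
        obtain ⟨c', x', h4, h5, h6⟩ := ih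
        simp only [List.cons_append, List.nil_append] at h1 h2 h3 h4 h5 h6 ⊢
        subst h1 h2
        rw [h3] at h4
        obtain ⟨h7, h8⟩ := List.cons.inj h4
        subst h8
        refine ⟨c1, q1 :: w, rfl, by simp [h5], ?_⟩
        rw [← h6, ← h7, dot]
        cases c1 <;> cases p1 <;> cases q1 <;> simp
    obtain ⟨c', x', h1, h2, h3⟩ := key _ h
    obtain ⟨h4, h5⟩ := List.cons.inj h1
    subst h4 h5
    exact ⟨h2, h3⟩
  · rintro ⟨h1, h2⟩
    induction a generalizing x c with
    | nil =>
      have hx : x = [] := List.eq_nil_of_length_eq_zero h1.symm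
      subst hx
      simp only [dot, Bool.xor_false] at h2
      rw [h2]
      exact .refl
    | cons p a ih =>
      cases x with
      | nil => simp at h1
      | cons q x =>
        simp only [List.length_cons] at h1 hX hY
        rw [dot] at h2
        refine Relation.ReflTransGen.head (b := (a, (xor c (p && q)) :: x)) ?_ ?_
        · refine ⟨⟨(p, q, c), Finset.mem_univ _, rfl, x, rfl, rfl⟩, ?_, ?_⟩
          · show a.length ≤ X.length
            omega
          · show (xor c (p && q) :: x).length ≤ Y.length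
            rw [List.length_cons]
            omega
        · apply ih (by omega) (by omega) (by omega)
          rw [← h2]
          cases c <;> cases p <;> cases q <;> simp

/-- The scalar product. -/
private theorem C6_dot (b : Bool) {k : ℕ} (i j : Fin k) :
    NEXP O fun e : Fin k → List Bool => (e i).length = (e j).length ∧ dot (e i) (e j) = b := by
  have h1 := C6_run (O := O) C6_D (fun x y z t u t' u' h => h.2)
    (k := 5) 0 2 0 0 2 3 4
  have h2 : NEXP O fun e : Fin 5 → List Bool => (e 3 = [] ∧ e 4 = [b]) ∧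
      C6P C6D (e 0) (e 2) (e 0) (e 0, e 2) (e 3, e 4) :=
    ((nexp_const [] 3).and (nexp_const [b] 4)).and h1
  have h3 : NEXP O fun e : Fin 3 → List Bool => ∃ n v, (n = [] ∧ v = [b]) ∧
      C6P C6D (e 0) (e 2) (e 0) (e 0, e 2) (n, v) := by
    refine nexp_ex2 (R := fun (e : Fin 3 → List Bool) n v => (n = [] ∧ v = [b]) ∧
      C6P C6D (e 0) (e 2) (e 0) (e 0, e 2) (n, v)) h2 (g := fun _ => 1) (PolyB.const 1)
      monotone_const ?_
    rintro e n v ⟨⟨rfl, rfl⟩, -⟩
    simp
  have h4 : NEXP O fun e : Fin 3 → List Bool => e 2 = [false] ++ e 1 ∧ ∃ n v, (n = [] ∧ v = [b]) ∧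
      C6P C6D (e 0) (e 2) (e 0) (e 0, e 2) (n, v) := (C6_cons [false] 1 2).and h3
  have h5 : NEXP O fun e : Fin 2 → List Bool => ∃ y, y = [false] ++ e 1 ∧
      ∃ n v, (n = [] ∧ v = [b]) ∧ C6P C6D (e 0) y (e 0) (e 0, y) (n, v) := by
    refine nexp_ex (R := fun (e : Fin 2 → List Bool) y => y = [false] ++ e 1 ∧
      ∃ n v, (n = [] ∧ v = [b]) ∧ C6P C6D (e 0) y (e 0) (e 0, y) (n, v)) h4
      (g := fun n => n + 1) PolyB.id.succ ?_
    rintro e y ⟨rfl, -⟩
    have h6 := len_le_size e 1
    simp only [List.cons_append, List.nil_append, List.length_cons]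
    omega
  refine (h5.reindex ![i, j]).congr fun e => ?_
  show (∃ y, y = [false] ++ e j ∧
      ∃ n v, (n = [] ∧ v = [b]) ∧ C6P C6D (e i) y (e i) (e i, y) (n, v)) ↔ _
  have h6 := C6_D_iff (X := e i) (Y := [false] ++ e j) (z := e i) (a := e i) (x := e j) (b := b)
    (c := false) le_rfl (by simp)
  rw [Bool.false_xor] at h6
  rw [← h6]
  constructor
  · rintro ⟨y, rfl, n, v, ⟨rfl, rfl⟩, h⟩
    exact h
  · intro h
    exact ⟨_, rfl, _, _, ⟨rfl, rfl⟩, h⟩

/-- The step of the computation of the hash values. -/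
private def C6H (x y z t u t' u' : List Bool) : Prop :=
  (∃ a, t = a ++ t' ∧ ∃ c ∈ (Finset.univ : Finset Bool), u = [c] ++ u' ∧
    a.length = z.length ∧ dot a z = c) ∧ t'.length ≤ x.length ∧ u'.length ≤ y.length

private theorem C6_H : NEXP O fun e : Fin 9 → List Bool =>
    C6H (e 0) (e 1) (e 2) (e 5) (e 6) (e 7) (e 8) := by
  refine NEXP.and ?_ ((nexp_lenLe 7 0).and (nexp_lenLe 8 1))
  refine nexp_ex (R := fun (e : Fin 9 → List Bool) a => e 5 = a ++ e 7 ∧
    ∃ c ∈ (Finset.univ : Finset Bool), e 6 = [c] ++ e 8 ∧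
    a.length = (e 2).length ∧ dot a (e 2) = c)
    ((nexp_append 9 7 5).and (NEXP.finite_exists _ fun c _ => (C6_cons [c] 8 6).and
      (C6_dot c 9 2))) (g := fun n => n) PolyB.id ?_
  rintro e a ⟨h, -⟩
  have h1 := len_le_size e 5
  rw [h, List.length_append] at h1
  show _ ≤ size e
  omega

private theorem C6_H_iff {X Y s v x : List Bool} (hX : s.length ≤ X.length)
    (hY : v.length ≤ Y.length) :
    (∃ s', C6P C6H X Y x (s, v) (s', [])) ↔ v.length * x.length ≤ s.length ∧
      v = hsh v.length s x := by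
  constructor
  · rintro ⟨s', h⟩
    have key : ∀ p : List Bool × List Bool, C6P C6H X Y x p (s', []) →
        p.2.length * x.length ≤ p.1.length ∧ p.2 = hsh p.2.length p.1 x := by
      intro p hp
      induction hp using Relation.ReflTransGen.head_induction_on with
      | refl => exact ⟨by simp, rfl⟩
      | @head p q hs _ ih =>
        obtain ⟨t, u⟩ := p
        obtain ⟨t', u'⟩ := q
        obtain ⟨⟨a, h1, c, -, h2, h3, h4⟩, -, -⟩ := hs
        simp only [List.cons_append, List.nil_append] at h1 h2 h3 h4 ih ⊢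
        subst h1 h2
        obtain ⟨h5, h6⟩ := ih
        constructor
        · rw [List.length_cons, List.length_append, h3]
          linarith
        · rw [List.length_cons, hsh, ← h3, List.take_left, List.drop_left, h4, ← h6]
    exact key _ h
  · rintro ⟨h1, h2⟩
    induction v generalizing s with
    | nil => exact ⟨s, .refl⟩
    | cons c v ih =>
      rw [List.length_cons] at h1 h2 hY
      rw [hsh] at h2
      obtain ⟨h3, h4⟩ := List.cons.inj h2
      have h5 : x.length ≤ s.length := by nlinarith
      have h6 : (s.drop x.length).length = s.length - x.length := List.length_drop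
      have h7 : v.length * x.length ≤ (s.drop x.length).length := by
        rw [h6]
        have : (v.length + 1) * x.length = v.length * x.length + x.length := by ring
        omega
      obtain ⟨s', h8⟩ := ih (s := s.drop x.length) (by omega) (by omega) h7 h4
      refine ⟨s', Relation.ReflTransGen.head ⟨⟨s.take x.length, ?_, c, Finset.mem_univ _, rfl,
        ?_, h3.symm⟩, ?_, ?_⟩ h8⟩
      · exact (List.take_append_drop _ _).symm
      · rw [List.length_take]
        omega
      · show (s.drop x.length).length ≤ X.length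
        omega
      · show v.length ≤ Y.length
        omega

/-- PLAN. The scalar product is computed by reachability on triples (rest of `s`, rest of `x`, bit), or
by a small program. `hsh`: reachability from `pair s v` to `pair s' v'` where `s = a ++ s'`,
`|a| = |x|`, `v = dot a x :: v'` (one more variable: `x`), ending at `v' = []`; the case
`s` shorter than `|x|` (then `take` and `drop` are shorter): restrict to `|v| * |x| ≤ |s|`. -/
theorem nexp_hsh : NEXP O fun e : Fin 3 → List Bool =>
    (e 2).length * (e 1).length ≤ (e 0).length ∧ e 2 = hsh (e 2).length (e 0) (e 1) := by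
  have h1 := C6_run (O := O) C6_H (fun x y z t u t' u' h => h.2)
    (k := 5) 0 2 1 0 2 3 4
  have h2 : NEXP O fun e : Fin 5 → List Bool => e 4 = [] ∧
      C6P C6H (e 0) (e 2) (e 1) (e 0, e 2) (e 3, e 4) := (nexp_const [] 4).and h1
  have h3 : NEXP O fun e : Fin 3 → List Bool => ∃ s' n, n = [] ∧
      C6P C6H (e 0) (e 2) (e 1) (e 0, e 2) (s', n) := by
    refine nexp_ex2 (R := fun (e : Fin 3 → List Bool) s' n => n = [] ∧
      C6P C6H (e 0) (e 2) (e 1) (e 0, e 2) (s', n)) h2 (g := fun n => n) PolyB.id
      monotone_id ?_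
    rintro e s' n ⟨rfl, h⟩
    have h4 := len_le_size e 0
    refine ⟨?_, Nat.zero_le _⟩
    rcases Relation.ReflTransGen.cases_tail h with h5 | ⟨c, -, h5⟩
    · have h6 : s' = e 0 := congrArg Prod.fst h5
      rw [h6]
      exact h4
    · exact h5.2.1.trans h4
  refine h3.congr fun e => ?_
  rw [← C6_H_iff (X := e 0) (Y := e 2) le_rfl le_rfl]
  constructor
  · rintro ⟨s', n, rfl, h⟩
    exact ⟨s', h⟩
  · rintro ⟨s', h⟩
    exact ⟨s', [], rfl, h⟩

end Pool.Agent.LibAV75
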