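import Pool.Agent.LibAV75.C1

/-!
Row C7: facts about two lengths are certified by a majority.
-/

namespace Pool.Agent.LibAV75

open Filter Function Pool.Agent.LibNexp Pool.Agent.LibBHN

variable {O : List Bool → Bool}

private theorem C7_cnt_congr {m : ℕ} {P Q : List Bool → Prop}
    (h : ∀ z : List Bool, z.length = m → (P z ↔ Q z)) : cnt m P = cnt m Q := by
  classical
  unfold cnt
  congr 1
  ext x
  simp only [Finset.mem_filter, Finset.mem_range]
  constructor
  · rintro ⟨h1, h2⟩
    exact ⟨h1, (h _ (length_bits m x)).1 h2⟩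
  · rintro ⟨h1, h2⟩
    exact ⟨h1, (h _ (length_bits m x)).2 h2⟩

private theorem C7_cnt_not (m : ℕ) (P : List Bool → Prop) :
    cnt m P + cnt m (fun z => ¬ P z) = 2 ^ m := by
  classical
  unfold cnt
  have h := Finset.card_filter_add_card_filter_not (s := Finset.range (2 ^ m)) (fun x => P (bits m x))
  rw [Finset.card_range] at h
  refine Eq.trans ?_ h
  congr 1
  congr 1
  ext x
  simp only [Finset.mem_filter]

private theorem C7_lam_inj {a b a' b' : ℕ} (h : (a + b) ^ 2 + a = (a' + b') ^ 2 + a') : a = a' ∧ b = b' := by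
  have key : ∀ {a b a' b' : ℕ}, (a + b) ^ 2 + a = (a' + b') ^ 2 + a' → a + b ≤ a' + b' := by
    intro a b a' b' h
    by_contra hcon
    push Not at hcon
    have h1 : (a' + b' + 1) ^ 2 ≤ (a + b) ^ 2 := Nat.pow_le_pow_left hcon 2
    nlinarith
  have h1 : a + b = a' + b' := le_antisymm (key h) (key h.symm)
  rw [h1] at h
  omega

private theorem C7_lam {k : ℕ} (i j l : Fin k) : NEXP O fun e : Fin k → List Bool =>
    (e l).length = ((e i).length + (e j).length) ^ 2 + (e i).length := by
  have h1 : NEXP O fun e : Fin 6 → List Bool => e 3 = e 0 ++ e 1 ∧ (e 4).length = (e 3).length ^ 2 + 0 ∧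
      e 5 = e 4 ++ e 0 ∧ (e 2).length = 1 * (e 5).length + 0 :=
    (nexp_append 0 1 3).and ((nexp_powAdd 2 0 3 4).and ((nexp_append 4 0 5).and (nexp_lin 1 0 5 2)))
  have h2 : NEXP O fun e : Fin 5 → List Bool => ∃ u : List Bool, e 3 = e 0 ++ e 1 ∧
      (e 4).length = (e 3).length ^ 2 + 0 ∧ u = e 4 ++ e 0 ∧ (e 2).length = 1 * u.length + 0 := by
    refine nexp_ex (R := fun e u => e 3 = e 0 ++ e 1 ∧
      (e 4).length = (e 3).length ^ 2 + 0 ∧ u = e 4 ++ e 0 ∧ (e 2).length = 1 * u.length + 0) h1
      (g := fun n => n) PolyB.id ?_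
    rintro e z ⟨-, -, -, h⟩
    have := len_le_size e 2
    omega
  have h3 : NEXP O fun e : Fin 4 → List Bool => ∃ v u : List Bool, e 3 = e 0 ++ e 1 ∧
      v.length = (e 3).length ^ 2 + 0 ∧ u = v ++ e 0 ∧ (e 2).length = 1 * u.length + 0 := by
    refine nexp_ex (R := fun e v => ∃ u : List Bool, e 3 = e 0 ++ e 1 ∧
      v.length = (e 3).length ^ 2 + 0 ∧ u = v ++ e 0 ∧ (e 2).length = 1 * u.length + 0) h2
      (g := fun n => n) PolyB.id ?_
    rintro e z ⟨u, -, -, h1, h2⟩
    have := len_le_size e 2
    rw [h1, List.length_append] at h2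
    omega
  have h4 : NEXP O fun e : Fin 3 → List Bool => ∃ w v u : List Bool, w = e 0 ++ e 1 ∧
      v.length = w.length ^ 2 + 0 ∧ u = v ++ e 0 ∧ (e 2).length = 1 * u.length + 0 := by
    refine nexp_ex (R := fun e w => ∃ v u : List Bool, w = e 0 ++ e 1 ∧
      v.length = w.length ^ 2 + 0 ∧ u = v ++ e 0 ∧ (e 2).length = 1 * u.length + 0) h3
      (g := fun n => 2 * n) ((PolyB.const 2).mul PolyB.id) ?_
    rintro e z ⟨v, u, h, -⟩
    have e0 := len_le_size e 0
    have e1 := len_le_size e 1
    rw [h, List.length_append]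
    show _ ≤ 2 * size e
    omega
  refine (h4.reindex ![i, j, l]).congr fun e => ?_
  constructor
  · rintro ⟨w, v, u, h1, h2, h3, h4⟩
    have h5 : w = e i ++ e j := h1
    have h6 : u = v ++ e i := h3
    have h7 : (e l).length = 1 * u.length + 0 := h4
    rw [h7, h6, List.length_append, h2, h5, List.length_append]
    ring
  · intro h
    refine ⟨e i ++ e j, List.replicate (((e i).length + (e j).length) ^ 2) true,
      List.replicate (((e i).length + (e j).length) ^ 2) true ++ e i, rfl, ?_, rfl, ?_⟩
    · rw [List.length_replicate, List.length_append]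
      rfl
    · show (e l).length = 1 * (List.replicate (((e i).length + (e j).length) ^ 2) true ++ e i).length + 0
      rw [List.length_append, List.length_replicate, h]
      ring

private theorem C7_ge (m₀ : ℕ) {k : ℕ} (i : Fin k) : NEXP O fun e : Fin k → List Bool => m₀ ≤ (e i).length := by
  refine ((nexp_len (O := O) 1 1 m₀ m₀).reindex ![i, i]).congr fun e => ?_
  simp only [Matrix.cons_val_zero, Matrix.cons_val_one]
  constructor
  · rintro ⟨k, h, -⟩
    omega
  · intro h
    exact ⟨(e i).length - m₀, by omega, by omega⟩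

private theorem C7_eq (a : ℕ) {k : ℕ} (i : Fin k) : NEXP O fun e : Fin k → List Bool => (e i).length = a := by
  refine ((nexp_len (O := O) 0 0 a a).reindex ![i, i]).congr fun e => ?_
  simp

/-- PLAN. `lam a b := (a + b) ^ 2 + a` is injective (`a ≤ 2 * (a + b)`). Let
`L := {z | ∃ a b, |z| = lam a b ∧ ¬ U a b}`, in NEXP by `hU`; `N` from `hM` for `L`. For
`m = lam a b` large: if `U a b` then no string of length `m` is in `L`, so `N` contains more than half of
the strings of length `m`; if `¬ U a b` then all strings of length `m` are in `L`, so `N` contains fewer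
than half. So for all `(a, b)` outside a finite set,
`U a b ↔ ∃ z, |z| = lam a b ∧ 2 ^ |z| < 2 * cnt |z| (· ∈ N)` (`nexp_more`, and the relation
`|z| = (|e 0| + |e 1|) ^ 2 + |e 0|` from `nexp_append`, `nexp_powAdd`...). The finitely many exceptions
are corrected by `NEXP.or`, `NEXP.and` with finite unions of `|e 0| = a ∧ |e 1| = b`. -/
theorem p0 (hM : More O) {U : ℕ → ℕ → Prop}
    (hU : NEXP O fun e : Fin 2 → List Bool => ¬ U (e 0).length (e 1).length) :
    NEXP O fun e : Fin 2 → List Bool => U (e 0).length (e 1).length := by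
  classical
  obtain ⟨L, hL⟩ : ∃ L : Lang, L = {z | ∃ x y : List Bool,
    z.length = (x.length + y.length) ^ 2 + x.length ∧ ¬ U x.length y.length} := ⟨_, rfl⟩
  have hLmem : L ∈ NEXPLang O := by
    have h1 : NEXP O fun e : Fin 3 → List Bool =>
        (e 0).length = ((e 1).length + (e 2).length) ^ 2 + (e 1).length ∧
          ¬ U (e 1).length (e 2).length :=
      (C7_lam 1 2 0).and ((hU.reindex ![1, 2]).congr fun e => Iff.rfl)
    have h2 : NEXP O fun e : Fin 2 → List Bool => ∃ y : List Bool,
        (e 0).length = ((e 1).length + y.length) ^ 2 + (e 1).length ∧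
          ¬ U (e 1).length y.length := by
      refine nexp_ex (R := fun e y => (e 0).length = ((e 1).length + y.length) ^ 2 + (e 1).length ∧
          ¬ U (e 1).length y.length) h1 (g := fun n => n) PolyB.id ?_
      rintro e z ⟨h, -⟩
      have e0 := len_le_size e 0
      show z.length ≤ size e
      nlinarith
    have h3 : NEXP O fun e : Fin 1 → List Bool => ∃ x y : List Bool,
        (e 0).length = (x.length + y.length) ^ 2 + x.length ∧ ¬ U x.length y.length := by
      refine nexp_ex (R := fun e x => ∃ y : List Bool,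
        (e 0).length = (x.length + y.length) ^ 2 + x.length ∧ ¬ U x.length y.length) h2
        (g := fun n => n) PolyB.id ?_
      rintro e z ⟨y, h, -⟩
      have e0 := len_le_size e 0
      show z.length ≤ size e
      nlinarith
    rw [hL]
    exact h3
  obtain ⟨N, hN, hev⟩ := hM L hLmem
  obtain ⟨m₀, hm₀⟩ := eventually_atTop.1 hev
  have key : ∀ a b : ℕ, m₀ ≤ (a + b) ^ 2 + a →
      (U a b ↔ 2 ^ ((a + b) ^ 2 + a) < 2 * cnt ((a + b) ^ 2 + a) (fun z => z ∈ N)) := by
    intro a b hab
    have h1 := hm₀ _ hab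
    have h2 := C7_cnt_not ((a + b) ^ 2 + a) (fun z => z ∈ N)
    by_cases hUab : U a b
    · have h3 : err Lᶜ N ((a + b) ^ 2 + a) = cnt ((a + b) ^ 2 + a) (fun z => ¬ z ∈ N) := by
        unfold err
        refine C7_cnt_congr fun z hz => ?_
        have hzL : z ∉ L := by
          rw [hL]
          rintro ⟨x, y, h4, h5⟩
          obtain ⟨h6, h7⟩ := C7_lam_inj (hz.symm.trans h4)
          rw [← h6, ← h7] at h5
          exact h5 hUab
        have h8 : z ∈ Lᶜ := hzL
        constructor
        · intro h9 h10
          exact h9 ⟨fun _ => h10, fun _ => h8⟩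
        · intro h9 h10
          exact h9 (h10.1 h8)
      rw [h3] at h1
      refine ⟨fun _ => ?_, fun _ => hUab⟩
      omega
    · have h3 : err Lᶜ N ((a + b) ^ 2 + a) = cnt ((a + b) ^ 2 + a) (fun z => z ∈ N) := by
        unfold err
        refine C7_cnt_congr fun z hz => ?_
        have hzL : z ∈ L := by
          rw [hL]
          refine ⟨List.replicate a true, List.replicate b true, ?_, ?_⟩
          · rw [List.length_replicate, List.length_replicate]
            exact hz
          · rw [List.length_replicate, List.length_replicate]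
            exact hUab
        have h8 : z ∉ Lᶜ := fun h => h hzL
        constructor
        · intro h9
          by_contra h10
          exact h9 ⟨fun h => absurd h h8, fun h => absurd h h10⟩
        · intro h9 h10
          exact h8 (h10.2 h9)
      rw [h3] at h1
      refine ⟨fun h => absurd h hUab, fun h => ?_⟩
      omega
  have hV3 : NEXP O fun e : Fin 3 → List Bool =>
      (e 2).length = ((e 0).length + (e 1).length) ^ 2 + (e 0).length ∧ m₀ ≤ (e 2).length ∧
        2 ^ (e 2).length < 2 * cnt (e 2).length (fun z => z ∈ N) :=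
    (C7_lam 0 1 2).and ((C7_ge m₀ 2).and
      (nexp_more (R := fun _ z => z ∈ N) (nexp_mem hN (Fin.last 3)) 2))
  have hV : NEXP O fun e : Fin 2 → List Bool => ∃ z : List Bool,
      z.length = ((e 0).length + (e 1).length) ^ 2 + (e 0).length ∧ m₀ ≤ z.length ∧
        2 ^ z.length < 2 * cnt z.length (fun z => z ∈ N) := by
    refine nexp_ex (R := fun e z => z.length = ((e 0).length + (e 1).length) ^ 2 + (e 0).length ∧
        m₀ ≤ z.length ∧ 2 ^ z.length < 2 * cnt z.length (fun z => z ∈ N)) hV3
      (g := fun n => (2 * n) ^ 2 + n) ((((PolyB.const 2).mul PolyB.id).pow 2).add PolyB.id) ?_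
    rintro e z ⟨h, -⟩
    have e0 := len_le_size e 0
    have e1 := len_le_size e 1
    rw [h]
    show _ ≤ (2 * size e) ^ 2 + size e
    exact Nat.add_le_add (Nat.pow_le_pow_left (by omega) 2) e0
  have hfin : NEXP O fun e : Fin 2 → List Bool => ∃ p ∈ (Finset.range m₀ ×ˢ Finset.range m₀).filter
      (fun p : ℕ × ℕ => U p.1 p.2), (e 0).length = p.1 ∧ (e 1).length = p.2 :=
    NEXP.finite_exists _ (R := fun (p : ℕ × ℕ) e => (e 0).length = p.1 ∧ (e 1).length = p.2)
      fun p _ => (C7_eq p.1 0).and (C7_eq p.2 1)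
  refine (hV.or hfin).congr fun e => ?_
  constructor
  · rintro (⟨z, h1, h2, h3⟩ | ⟨p, hp, h1, h2⟩)
    · rw [h1] at h2 h3
      exact (key _ _ h2).2 h3
    · rw [h1, h2]
      exact (Finset.mem_filter.1 hp).2
  · intro h
    by_cases hm : m₀ ≤ ((e 0).length + (e 1).length) ^ 2 + (e 0).length
    · refine Or.inl ⟨List.replicate (((e 0).length + (e 1).length) ^ 2 + (e 0).length) true, ?_, ?_, ?_⟩
      · rw [List.length_replicate]
      · rw [List.length_replicate]
        exact hm
      · rw [List.length_replicate]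
        exact (key _ _ hm).1 h
    · push Not at hm
      refine Or.inr ⟨((e 0).length, (e 1).length), ?_, rfl, rfl⟩
      rw [Finset.mem_filter, Finset.mem_product, Finset.mem_range, Finset.mem_range]
      refine ⟨⟨?_, ?_⟩, h⟩
      · show (e 0).length < m₀
        omega
      · show (e 1).length < m₀
        nlinarith

/-- PLAN. `4 * err ≤ 2 ^ r m * err ≤ 2 ^ m` gives `2 * err < 2 ^ m`. -/
theorem more_of_ap {r : ℕ → ℕ} {b : Prop} (hr : ∀ m, 2 ≤ r m) (h : Ap O b r) : More O := by
  intro L hL
  obtain ⟨N, hN, -, hev⟩ := h L hL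
  refine ⟨N, hN, hev.mono fun m hm => ?_⟩
  have h1 : 2 ^ 2 * err Lᶜ N m ≤ 2 ^ m :=
    (Nat.mul_le_mul_right _ (Nat.pow_le_pow_right (by norm_num) (hr m))).trans hm
  have h2 : 0 < 2 ^ m := by positivity
  omega

end Pool.Agent.LibAV75
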