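import Pool.Agent.LibAV75.C7

/-!
Row F1: monotonicity and the end points.
-/

namespace Pool.Agent.LibAV75

open Filter Function Pool.Agent.LibNexp Pool.Agent.LibBHN

variable {O : List Bool → Bool}

/-- PLAN. If `s m ≤ m + 1`: `2 ^ s * err ≤ 2 ^ ρ * err`. If `s m > m + 1`, then `ρ m ≥ m + 1` and
`err = 0`. -/
theorem ap_mono {b : Prop} {ρ s : ℕ → ℕ} (h : Ap O b ρ)
    (hs : ∀ᶠ n in atTop, min (s n) (n + 1) ≤ ρ n) : Ap O b s := by
  intro L hL
  obtain ⟨N, hN, hb, hev⟩ := h L hL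
  refine ⟨N, hN, hb, ?_⟩
  filter_upwards [hs, hev] with m h1 h2
  by_cases h3 : s m ≤ m + 1
  · rw [min_eq_left h3] at h1
    exact (Nat.mul_le_mul_right _ (Nat.pow_le_pow_right (by norm_num) h1)).trans h2
  · push Not at h3
    rw [min_eq_right h3.le] at h1
    have h4 : 2 ^ (m + 1) * err Lᶜ N m ≤ 2 ^ m :=
      (Nat.mul_le_mul_right _ (Nat.pow_le_pow_right (by norm_num) h1)).trans h2
    have h5 : err Lᶜ N m = 0 := by
      by_contra h6
      have h7 : 1 ≤ err Lᶜ N m := Nat.one_le_iff_ne_zero.2 h6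
      have h8 : 2 ^ (m + 1) * 1 ≤ 2 ^ (m + 1) * err Lᶜ N m := Nat.mul_le_mul_left _ h7
      have h9 : 0 < 2 ^ m := by positivity
      rw [pow_succ] at h8 h4
      omega
    rw [h5]
    simp

theorem ap_zero {b : Prop} : Ap O b fun _ => 0 := by
  intro L _
  refine ⟨∅, ?_, fun _ => Set.empty_subset _, Eventually.of_forall fun m => ?_⟩
  · show NEXP O fun e : Fin 1 → List Bool => e 0 ∈ (∅ : Set (List Bool))
    exact nexp_false.congr fun e => by simp
  · rw [pow_zero, one_mul]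
    exact cnt_le m _

private theorem F1_zero {m : ℕ} {P : List Bool → Prop} (h : cnt m P = 0) (z : List Bool)
    (hz : z.length = m) : ¬ P z := by
  subst hz
  intro hP
  have := cnt_mem hP
  omega

/-- PLAN. `err = 0` for large `m`, so `N` and `Lᶜ` differ in finitely many strings only
(`cnt_val_lt`, `bits_val`); finite corrections (`NEXP.finite_exists`, `nexp_const`, `nexp_ne`). -/
theorem q1_of_ap {b : Prop} {ρ : ℕ → ℕ} (h : Ap O b ρ) (hρ : ∀ᶠ n in atTop, n < ρ n) :
    ∀ L ∈ NEXPLang O, Lᶜ ∈ NEXPLang O := by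
  classical
  intro L hL
  obtain ⟨N, hN, -, hev⟩ := h L hL
  obtain ⟨m0, hm0⟩ := eventually_atTop.1 (hρ.and hev)
  have hlarge : ∀ z : List Bool, m0 ≤ z.length → (z ∈ Lᶜ ↔ z ∈ N) := by
    intro z hz
    obtain ⟨h1, h2⟩ := hm0 z.length hz
    have h4 : 2 ^ (z.length + 1) * err Lᶜ N z.length ≤ 2 ^ z.length :=
      (Nat.mul_le_mul_right _ (Nat.pow_le_pow_right (by norm_num) h1)).trans h2
    have h5 : err Lᶜ N z.length = 0 := by
      by_contra h6
      have h7 : 1 ≤ err Lᶜ N z.length := Nat.one_le_iff_ne_zero.2 h6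
      have h8 : 2 ^ (z.length + 1) * 1 ≤ 2 ^ (z.length + 1) * err Lᶜ N z.length :=
        Nat.mul_le_mul_left _ h7
      have h9 : 0 < 2 ^ z.length := by positivity
      rw [pow_succ] at h8 h4
      omega
    have h6 := F1_zero h5 z rfl
    exact not_not.1 h6
  set S1 : Finset (List Bool) := ((Finset.range m0).biUnion strs).filter (fun z => z ∉ L) with hS1
  have h1 : NEXP O fun e : Fin 1 → List Bool => e 0 ∈ N ∧ ∃ w ∈ strs m0, w <+: e 0 :=
    (nexp_mem hN 0).and (NEXP.finite_exists (strs m0) fun w _ => nexp_prefix w 0)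
  have h2 : NEXP O fun e : Fin 1 → List Bool => ∃ s ∈ S1, e 0 = s :=
    NEXP.finite_exists S1 fun s _ => nexp_const s 0
  refine (h1.or h2).congr fun e => ?_
  have hpre : ∀ z : List Bool, (∃ w ∈ strs m0, w <+: z) ↔ m0 ≤ z.length := by
    intro z
    constructor
    · rintro ⟨w, hw, hwz⟩
      rw [← mem_strs.1 hw]
      exact hwz.length_le
    · intro hz
      exact ⟨z.take m0, mem_strs.2 (by rw [List.length_take]; omega), List.take_prefix m0 z⟩
  rw [hpre]
  constructor
  · rintro (⟨h3, h4⟩ | ⟨s, hs, h3⟩)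
    · exact (hlarge _ h4).2 h3
    · rw [h3]
      exact (Finset.mem_filter.1 hs).2
  · intro h3
    by_cases h4 : m0 ≤ (e 0).length
    · exact Or.inl ⟨(hlarge _ h4).1 h3, h4⟩
    · push Not at h4
      refine Or.inr ⟨e 0, ?_, rfl⟩
      rw [hS1, Finset.mem_filter, Finset.mem_biUnion]
      exact ⟨⟨(e 0).length, Finset.mem_range.2 h4, mem_strs.2 rfl⟩, h3⟩

theorem ap_of_q1 {b : Prop} (h : ∀ L ∈ NEXPLang O, Lᶜ ∈ NEXPLang O) (s : ℕ → ℕ) : Ap O b s := by
  intro L hL
  refine ⟨Lᶜ, h L hL, fun _ => subset_rfl, Eventually.of_forall fun m => ?_⟩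
  have h1 : err Lᶜ Lᶜ m = 0 := by
    unfold err cnt
    simp
  rw [h1]
  simp

open Classical in
private theorem F1_card (P : List Bool → Prop) (m : ℕ) :
    cnt m P = Nat.card {z : List Bool // z.length = m ∧ P z} := by
  rw [Nat.subtype_card ((strs m).filter P) (fun z => by
    rw [Finset.mem_filter, mem_strs])]
  unfold cnt
  refine Finset.card_bij' (fun i _ => bits m i) (fun z _ => val z) ?_ ?_ ?_ ?_
  · intro i hi
    rw [Finset.mem_filter] at hi ⊢
    exact ⟨mem_strs.2 (length_bits m i), hi.2⟩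
  · intro z hz
    rw [Finset.mem_filter] at hz ⊢
    have hl := mem_strs.1 hz.1
    subst hl
    refine ⟨Finset.mem_range.2 (cnt_val_lt z), ?_⟩
    rw [bits_val]
    exact hz.2
  · intro i hi
    exact val_bits (Finset.mem_range.1 (Finset.mem_filter.1 hi).1)
  · intro z hz
    have hl := mem_strs.1 (Finset.mem_filter.1 hz).1
    subst hl
    exact bits_val z

/-- The number of errors as a cardinality. -/
theorem err_eq (L N : Lang) (m : ℕ) :
    err L N m = Nat.card {z : List Bool // z.length = m ∧ ¬ (z ∈ L ↔ z ∈ N)} :=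
  F1_card (fun z => ¬ (z ∈ L ↔ z ∈ N)) m

end Pool.Agent.LibAV75
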