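import Pool.Agent.LibAV75.C1
import Pool.Agent.LibAV75.F1

/-!
Row E3: the leading digits of the census are certified.
-/

namespace Pool.Agent.LibAV75

open Filter Function Pool.Agent.LibNexp Pool.Agent.LibBHN

variable {O : List Bool → Bool}

/-- The complement of the language of the true upper bounds: `z = y ++ p`, `y` consists of `R` digits
(least significant first) and `(val y + 1) * 2 ^ (n + 1 - R)` is at most the census of `A`. -/
def CL (A : Lang) : Lang := {z | ∃ (n R : ℕ) (y p : List Bool), R ≤ n + 1 ∧ z = y ++ p ∧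
  y.length = R ∧ z.length = (n + 2) ^ 3 + R ∧
  (val y + 1) * 2 ^ (n + 1 - R) ≤ cnt n fun x => x ∈ A}

/-- The certificate: more than half of the paddings. -/
def Ce (N : Lang) (n : ℕ) (y : List Bool) : Prop :=
  2 ^ (n + 2) ^ 3 < 2 * cnt ((n + 2) ^ 3) fun p => y ++ p ∈ N

/-- existential quantifiers over several strings -/
private theorem E3_exN : ∀ (m : ℕ) {k : ℕ} {R : (Fin k → List Bool) → (Fin m → List Bool) → Prop},
    NEXP O (fun e : Fin (k + m) → List Bool =>
      R (fun i => e (Fin.castAdd m i)) (fun j => e (Fin.natAdd k j))) →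
    ∀ {g : ℕ → ℕ}, PolyB g → Monotone g →
    (∀ e z, R e z → ∀ j, (z j).length ≤ g (size e)) →
    NEXP O fun e : Fin k → List Bool => ∃ z, R e z := by
  intro m
  induction m with
  | zero =>
    intro k R h g _ _ _
    refine NEXP.congr h fun e => ⟨fun h => ⟨_, h⟩, ?_⟩
    rintro ⟨z, hz⟩
    have h1 : z = fun j : Fin 0 => e (Fin.natAdd k j) := Subsingleton.elim _ _
    rw [h1] at hz
    exact hz
  | succ m ih =>
    intro k R h g hg hgm hb
    have hsz : ∀ e : Fin (k + m) → List Bool, size (fun i => e (Fin.castAdd m i)) ≤ size e := by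
      intro e
      unfold size
      rw [Fin.sum_univ_add]
      exact Nat.le_add_right _ _
    have h1 : NEXP O fun e : Fin (k + m) → List Bool => ∃ w,
        R (fun i => e (Fin.castAdd m i))
          (Fin.snoc (α := fun _ => List Bool) (fun j => e (Fin.natAdd k j)) w) := by
      refine nexp_ex (R := fun (e : Fin (k + m) → List Bool) w =>
        R (fun i => e (Fin.castAdd m i))
          (Fin.snoc (α := fun _ => List Bool) (fun j => e (Fin.natAdd k j)) w)) ?_ hg ?_
      · refine NEXP.congr h fun e => ?_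
        have h2 : (fun j : Fin (m + 1) => e (Fin.natAdd k j)) =
            Fin.snoc (α := fun _ => List Bool)
              (fun j => low (Nat.le_add_right (k + m) 1) e (Fin.natAdd k j))
              (e (Fin.last (k + m))) := by
          funext j
          refine Fin.lastCases ?_ (fun j => ?_) j
          · rw [Fin.snoc_last]
            rfl
          · rw [Fin.snoc_castSucc]
            rfl
        rw [h2]
        exact Iff.rfl
      · intro e w hw
        have h2 := hb _ _ hw (Fin.last m)
        rw [Fin.snoc_last] at h2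
        exact h2.trans (hgm (hsz e))
    have h3 := ih (R := fun e z => ∃ w, R e (Fin.snoc (α := fun _ => List Bool) z w)) h1 hg hgm (by
      rintro e z ⟨w, hw⟩ j
      have h2 := hb _ _ hw (Fin.castSucc j)
      rw [Fin.snoc_castSucc] at h2
      exact h2)
    refine NEXP.congr h3 fun e => ⟨?_, ?_⟩
    · rintro ⟨z, w, h⟩
      exact ⟨_, h⟩
    · rintro ⟨z, hz⟩
      refine ⟨Fin.init z, z (Fin.last m), ?_⟩
      rw [Fin.snoc_init_self]
      exact hz

private theorem E3_sing (x : List Bool) : x.flatMap (fun b => [b]) = x := by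
  induction x with
  | nil => rfl
  | cons b x ih => rw [List.flatMap_cons, ih]; rfl

private theorem E3_flat (x : List Bool) :
    x.flatMap (fun _ => [false]) = List.replicate x.length false := by
  induction x with
  | nil => rfl
  | cons b x ih => rw [List.flatMap_cons, ih]; rfl

private theorem E3_sub {k : ℕ} (i j l : Fin k) : NEXP O fun e : Fin k → List Bool =>
    e l = List.replicate (e i).length false ++ e j := by
  refine ((nexp_subst (O := O) (fun _ => [false]) (fun b => [b]) []).reindex ![i, j, l]).congr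
    fun e => ?_
  simp only [Matrix.cons_val_zero, Matrix.cons_val_one, Matrix.cons_val, E3_sing, E3_flat,
    List.append_nil]

private theorem E3_vaf (x : List Bool) : val (x ++ [false]) = val x := by
  induction x with
  | nil => rfl
  | cons b x ih => rw [List.cons_append, val, ih, val]

private theorem E3_ge {A : Lang} (hA : A ∈ NEXPLang O) {k : ℕ} (i j : Fin k) :
    NEXP O fun e : Fin k → List Bool => val (e i) ≤ cnt (e j).length fun x => x ∈ A :=
  nexp_ge (R := fun _ x => x ∈ A) (nexp_mem hA (Fin.last k)) i j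

/-- PLAN. `nexp_ge` with `nexp_vMul`, `nexp_vPow`; lengths: `nexp_powAdd`, `nexp_lin`, appending. -/
theorem cl_mem {A : Lang} (hA : A ∈ NEXPLang O) : CL A ∈ NEXPLang O := by
  -- z 0 = y, z 1 = p, z 2 = a, z 3 = b, z 4 = c, z 5 = x, z 6 = y', z 7 = v, z 8 = u
  have h1 : NEXP O fun e : Fin 1 → List Bool => ∃ z : Fin 9 → List Bool,
      ((e 0 = z 0 ++ z 1 ∧ (z 3).length = 1 * (z 2).length + 2) ∧
        ((z 1).length = (z 3).length ^ 3 + 0 ∧ z 5 = z 0 ++ z 4)) ∧
      (((z 5).length = 1 * (z 2).length + 1 ∧ z 6 = z 0 ++ [false]) ∧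
        ((Suc (z 6) (z 7) ∧ z 8 = List.replicate (z 4).length false ++ z 7) ∧
          val (z 8) ≤ cnt (z 2).length fun x => x ∈ A)) := by
    refine E3_exN 9 (g := fun n => n + 1) (R := fun e z =>
      ((e 0 = z 0 ++ z 1 ∧ (z 3).length = 1 * (z 2).length + 2) ∧
        ((z 1).length = (z 3).length ^ 3 + 0 ∧ z 5 = z 0 ++ z 4)) ∧
      (((z 5).length = 1 * (z 2).length + 1 ∧ z 6 = z 0 ++ [false]) ∧
        ((Suc (z 6) (z 7) ∧ z 8 = List.replicate (z 4).length false ++ z 7) ∧
          val (z 8) ≤ cnt (z 2).length fun x => x ∈ A))) ?_ PolyB.id.succ ?_ ?_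
    · exact (((nexp_append _ _ _).and (nexp_lin 1 2 _ _)).and
        ((nexp_powAdd 3 0 _ _).and (nexp_append _ _ _))).and
        (((nexp_lin 1 1 _ _).and (nexp_snoc false _ _)).and
          (((nexp_suc _ _).and (E3_sub _ _ _)).and (E3_ge hA _ _)))
    · intro a b hab
      show a + 1 ≤ b + 1
      omega
    · rintro e z ⟨⟨⟨h0, h1⟩, h2, h3⟩, ⟨h4, h5⟩, ⟨⟨h6, -⟩, h7⟩, -⟩ j
      have e0 := congrArg List.length h0
      have e3 := congrArg List.length h3
      have e5 := congrArg List.length h5
      have e7 := congrArg List.length h7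
      rw [List.length_append] at e0 e3 e5 e7
      rw [List.length_replicate] at e7
      rw [List.length_singleton] at e5
      have h11 : (z 3).length ≤ (z 3).length ^ 3 := Nat.le_self_pow (by norm_num) _
      have h12 := len_le_size e 0
      generalize (z 3).length ^ 3 = q at *
      show (z j).length ≤ size e + 1
      fin_cases j <;> simp only [Fin.mk_zero, Fin.mk_one, Fin.reduceFinMk] <;> omega
  refine NEXP.congr h1 fun e => ?_
  constructor
  · rintro ⟨z, ⟨⟨h0, h1⟩, h2, h3⟩, ⟨h4, h5⟩, ⟨⟨h6, h6'⟩, h7⟩, h8⟩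
    have e0 := congrArg List.length h0
    have e3 := congrArg List.length h3
    rw [List.length_append] at e0 e3
    have h9 : (z 3).length = (z 2).length + 2 := by omega
    rw [h9] at h2
    refine ⟨(z 2).length, (z 0).length, z 0, z 1, by omega, h0, rfl, ?_, ?_⟩
    · generalize ((z 2).length + 2) ^ 3 = q at *
      omega
    · have h10 : (z 2).length + 1 - (z 0).length = (z 4).length := by omega
      rw [h10]
      rw [h7, val_false, h6', h5, E3_vaf] at h8
      rw [mul_comm]
      exact h8
  · rintro ⟨n, R, y, p, hR, h1, h2, h3, h4⟩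
    have h7 := congrArg List.length h1
    rw [List.length_append] at h7
    have hy := val_lt y
    have hv : val (bits (R + 1) (val y + 1)) = val y + 1 := by
      refine val_bits ?_
      rw [h2] at hy
      rw [pow_succ]
      omega
    refine ⟨![y, p, List.replicate n true, List.replicate (n + 2) true,
      List.replicate (n + 1 - R) true, y ++ List.replicate (n + 1 - R) true, y ++ [false],
      bits (R + 1) (val y + 1), List.replicate (n + 1 - R) false ++ bits (R + 1) (val y + 1)], ?_⟩
    simp only [Matrix.cons_val_zero, Matrix.cons_val_one, Matrix.cons_val,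
      List.length_replicate, List.length_append, h2]
    refine ⟨⟨⟨h1, ?_⟩, ?_, trivial⟩, ⟨?_, trivial⟩, ⟨⟨?_, ?_⟩, trivial⟩, ?_⟩
    · omega
    · generalize (n + 2) ^ 3 = q at *
      omega
    · omega
    · rw [length_bits, List.length_append, h2]
      rfl
    · rw [hv, E3_vaf]
    · rw [val_false, hv, mul_comm]
      exact h4

/-- PLAN. `nexp_more` over `p` of length `(|e 0| + 2) ^ 3`. -/
theorem ce_mem {N : Lang} (hN : N ∈ NEXPLang O) :
    NEXP O fun e : Fin 2 → List Bool => Ce N (e 0).length (e 1) := by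
  have h0 : NEXP O fun e : Fin 5 → List Bool => e 1 ++ e 4 ∈ N := by
    have h1 : NEXP O fun e : Fin 6 → List Bool => e 5 = e 1 ++ e 4 ∧ e 5 ∈ N :=
      (nexp_append _ _ _).and (nexp_mem hN _)
    refine (nexp_ex (R := fun (e : Fin 5 → List Bool) w => w = e 1 ++ e 4 ∧ w ∈ N) h1
      (g := fun n => 2 * n) ((PolyB.const 2).mul PolyB.id) ?_).congr fun e => ?_
    · rintro e z ⟨rfl, -⟩
      have h2 := len_le_size e 1
      have h3 := len_le_size e 4
      rw [List.length_append]
      omega
    · simp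
  have h1 : NEXP O fun e : Fin 4 → List Bool =>
      2 ^ (e 3).length < 2 * cnt (e 3).length fun p => e 1 ++ p ∈ N :=
    nexp_more (R := fun (e : Fin 4 → List Bool) p => e 1 ++ p ∈ N) h0 3
  have h2 : NEXP O fun e : Fin 2 → List Bool => ∃ z : Fin 2 → List Bool,
      ((z 0).length = 1 * (e 0).length + 2 ∧ (z 1).length = (z 0).length ^ 3 + 0) ∧
        2 ^ (z 1).length < 2 * cnt (z 1).length fun p => e 1 ++ p ∈ N := by
    refine E3_exN 2 (g := fun n => (n + 2) ^ 3) (R := fun e z =>
      ((z 0).length = 1 * (e 0).length + 2 ∧ (z 1).length = (z 0).length ^ 3 + 0) ∧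
        2 ^ (z 1).length < 2 * cnt (z 1).length fun p => e 1 ++ p ∈ N) ?_
      ((PolyB.id.add (PolyB.const 2)).pow 3) ?_ ?_
    · exact ((nexp_lin 1 2 _ _).and (nexp_powAdd 3 0 _ _)).and h1
    · intro a b hab
      exact Nat.pow_le_pow_left (by omega) 3
    · rintro e z ⟨⟨h3, h4⟩, -⟩ j
      have h5 := len_le_size e 0
      have h6 : (z 0).length ≤ size e + 2 := by omega
      have h7 : (z 0).length ^ 3 ≤ (size e + 2) ^ 3 := Nat.pow_le_pow_left h6 3
      have h8 : size e + 2 ≤ (size e + 2) ^ 3 := Nat.le_self_pow (by norm_num) _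
      show (z j).length ≤ (size e + 2) ^ 3
      fin_cases j <;> simp only [Fin.mk_zero, Fin.mk_one] <;> omega
  refine NEXP.congr h2 fun e => ?_
  constructor
  · rintro ⟨z, ⟨h3, h4⟩, h5⟩
    have h6 : (z 0).length = (e 0).length + 2 := by omega
    have h7 : (z 1).length = ((e 0).length + 2) ^ 3 := by rw [h4, h6, add_zero]
    rw [h7] at h5
    exact h5
  · intro h
    refine ⟨![List.replicate ((e 0).length + 2) true, List.replicate (((e 0).length + 2) ^ 3) true], ?_⟩
    simp only [Matrix.cons_val_zero, Matrix.cons_val_one, List.length_replicate]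
    exact ⟨⟨by omega, rfl⟩, h⟩

open Classical in
private theorem E3_cnt_le {M m : ℕ} {P Q : List Bool → Prop} {y : List Bool} {R : ℕ} (hy : y.length = R)
    (hm : m = M + R) (h : ∀ p : List Bool, p.length = M → P p → Q (y ++ p)) :
    cnt M P ≤ cnt m Q := by
  have hval : ∀ l t : List Bool, val (l ++ t) = val l + 2 ^ l.length * val t := by
    intro l t
    induction l with
    | nil => simp [val]
    | cons b l ih => simp only [List.cons_append, val, ih, List.length_cons, pow_succ]; ring
  unfold cnt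
  refine Finset.card_le_card_of_injOn (fun i => val (y ++ bits M i)) ?_ ?_
  · intro i hi
    rw [Finset.mem_coe, Finset.mem_filter] at hi
    rw [Finset.mem_coe, Finset.mem_filter, Finset.mem_range]
    have h1 : (y ++ bits M i).length = m := by
      rw [List.length_append, length_bits, hy, hm, add_comm]
    refine ⟨?_, ?_⟩
    · have h2 := val_lt (y ++ bits M i)
      rw [h1] at h2
      exact h2
    · have h3 : bits m (val (y ++ bits M i)) = y ++ bits M i := by
        rw [← h1]
        exact bits_val _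
      show Q (bits m (val (y ++ bits M i)))
      rw [h3]
      exact h _ (length_bits _ _) hi.2
  · intro i hi j hj hij
    rw [Finset.mem_coe, Finset.mem_filter, Finset.mem_range] at hi hj
    simp only [hval, val_bits hi.1, val_bits hj.1] at hij
    have h1 : 2 ^ y.length * i = 2 ^ y.length * j := by omega
    exact Nat.eq_of_mul_eq_mul_left (by positivity) h1

private theorem E3_not (m : ℕ) (P : List Bool → Prop) :
    cnt m P + cnt m (fun z => ¬ P z) = 2 ^ m := by
  classical
  unfold cnt
  have h := Finset.card_filter_add_card_filter_not (s := Finset.range (2 ^ m)) (fun x => P (bits m x))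
  rw [Finset.card_range] at h
  refine Eq.trans ?_ h
  congr 1
  congr 1
  ext x
  simp only [Finset.mem_filter]

private theorem E3_uniq {n n' R R' : ℕ} (hR : R ≤ n + 1) (hR' : R' ≤ n' + 1)
    (h : (n' + 2) ^ 3 + R' = (n + 2) ^ 3 + R) : n' = n ∧ R' = R := by
  have key : ∀ {a b r s : ℕ}, r ≤ a + 1 → (b + 2) ^ 3 + s = (a + 2) ^ 3 + r → b ≤ a := by
    intro a b r s hr h
    by_contra hcon
    have h1 : (a + 3) ^ 3 ≤ (b + 2) ^ 3 := Nat.pow_le_pow_left (by omega) 3
    nlinarith
  have h1 : n' = n := le_antisymm (key hR h) (key hR' h.symm)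
  subst h1
  exact ⟨rfl, by omega⟩

/-- PLAN. `m := (n + 2) ^ 3 + R`; `z = y ++ p` with `|y| = R` determines `n`, `R` (`R ≤ n + 1`). All `y ++ p`
with fixed `y` are in `CL A` or none; the number of errors among them is at most
`err ≤ 2 ^ (m - ρ m) ≤ 2 ^ (m - R - 2)`, a quarter of the number `2 ^ (m - R)` of the `p`. -/
theorem ce_iff {A N : Lang} {n R : ℕ} {ρ : ℕ → ℕ} (hR : R ≤ n + 1)
    (hρ : R + 2 ≤ ρ ((n + 2) ^ 3 + R))
    (h : 2 ^ ρ ((n + 2) ^ 3 + R) * err (CL A)ᶜ N ((n + 2) ^ 3 + R) ≤ 2 ^ ((n + 2) ^ 3 + R))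
    {y : List Bool} (hy : y.length = R) :
    Ce N n y ↔ (cnt n fun x => x ∈ A) < (val y + 1) * 2 ^ (n + 1 - R) := by
  have hcl : ∀ p : List Bool, p.length = (n + 2) ^ 3 → (y ++ p ∈ CL A ↔
      (val y + 1) * 2 ^ (n + 1 - R) ≤ cnt n fun x => x ∈ A) := by
    intro p hp
    constructor
    · rintro ⟨n', R', y', p', h1, h2, h3, h4, h5⟩
      rw [List.length_append, hy, hp, add_comm] at h4
      obtain ⟨rfl, rfl⟩ := E3_uniq hR h1 h4.symm
      have h6 : y = y' := (List.append_inj h2 (hy.trans h3.symm)).1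
      rw [h6]
      exact h5
    · intro h1
      exact ⟨n, R, y, p, hR, rfl, hy, by rw [List.length_append, hy, hp, add_comm], h1⟩
  have herr : 4 * err (CL A)ᶜ N ((n + 2) ^ 3 + R) ≤ 2 ^ (n + 2) ^ 3 := by
    have h1 : 2 ^ (R + 2) * err (CL A)ᶜ N ((n + 2) ^ 3 + R) ≤ 2 ^ ((n + 2) ^ 3 + R) :=
      (Nat.mul_le_mul_right _ (Nat.pow_le_pow_right (by norm_num) hρ)).trans h
    rw [pow_add 2 ((n + 2) ^ 3) R, pow_add 2 R 2] at h1
    have h2 : 2 ^ R * (4 * err (CL A)ᶜ N ((n + 2) ^ 3 + R)) ≤ 2 ^ R * 2 ^ (n + 2) ^ 3 := by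
      linarith
    exact Nat.le_of_mul_le_mul_left h2 (by positivity)
  have hpos : 0 < 2 ^ (n + 2) ^ 3 := by positivity
  by_cases hc : (val y + 1) * 2 ^ (n + 1 - R) ≤ cnt n fun x => x ∈ A
  · have h1 : cnt ((n + 2) ^ 3) (fun p => y ++ p ∈ N) ≤ err (CL A)ᶜ N ((n + 2) ^ 3 + R) := by
      refine E3_cnt_le hy rfl fun p hp hN => ?_
      rintro ⟨-, h3⟩
      exact h3 hN ((hcl p hp).2 hc)
    unfold Ce
    constructor
    · intro h2
      omega
    · intro h2
      omega
  · have h1 : cnt ((n + 2) ^ 3) (fun p => ¬ (y ++ p ∈ N)) ≤ err (CL A)ᶜ N ((n + 2) ^ 3 + R) := by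
      refine E3_cnt_le hy rfl fun p hp hN => ?_
      rintro ⟨h3, -⟩
      exact hN (h3 fun h4 => hc ((hcl p hp).1 h4))
    have h2 := E3_not ((n + 2) ^ 3) (fun p => y ++ p ∈ N)
    unfold Ce
    constructor
    · intro _
      omega
    · intro _
      omega

end Pool.Agent.LibAV75
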