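import Pool.Agent.LibAV75.C6
import Pool.Agent.LibAV75.C7

/-!
Row Z2: the languages of hashed strings and the decoder.
-/

namespace Pool.Agent.LibAV75

open Filter Function Pool.Agent.LibNexp Pool.Agent.LibBHN

variable {O : List Bool → Bool}

/-- The number of hash bits. -/
def hb (n g : ℕ) : ℕ := n + 2 - g

/-- The length of the seed. The total length is `hT n g + hb n g = (n + 2) ^ 3 + g`. -/
def hT (n g : ℕ) : ℕ := (n + 2) ^ 3 + g - hb n g

theorem ht_len {n g : ℕ} (hg : g ≤ n) : hT n g + hb n g = (n + 2) ^ 3 + g ∧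
    hb n g * n ≤ hT n g ∧ 2 ≤ hb n g := by
  have h1 : hb n g = n + 2 - g := rfl
  have h2 : hT n g = (n + 2) ^ 3 + g - hb n g := rfl
  have h3 : hb n g ≤ n + 2 := by omega
  have h4 : hb n g * n ≤ (n + 2) * n := Nat.mul_le_mul_right n h3
  have h5 : (n + 2) * n + (n + 2) ≤ (n + 2) ^ 3 := by
    have : (n + 2) ^ 3 = (n + 2) * n + (n + 2) + (n + 2) * (n ^ 2 + 3 * n + 3) := by ring
    omega
  generalize hq : (n + 2) ^ 3 = q at *
  generalize hr : (n + 2) * n = r at *
  generalize hs : hb n g * n = s at *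
  refine ⟨?_, ?_, ?_⟩ <;> omega

theorem ht_inj {n g n' g' : ℕ} (hg : g ≤ n) (hg' : g' ≤ n')
    (h : hT n g + hb n g = hT n' g' + hb n' g') : n = n' ∧ g = g' := by
  rw [(ht_len hg).1, (ht_len hg').1] at h
  have key : ∀ a b : ℕ, a < b → (a + 2) ^ 3 + a < (b + 2) ^ 3 := by
    intro a b hab
    have h1 : (a + 3) ^ 3 ≤ (b + 2) ^ 3 := Nat.pow_le_pow_left (by omega) 3
    have h2 : (a + 3) ^ 3 = (a + 2) ^ 3 + (3 * (a + 2) ^ 2 + 3 * (a + 2) + 1) := by ring
    have h3 : 0 ≤ 3 * (a + 2) ^ 2 := Nat.zero_le _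
    omega
  rcases lt_trichotomy n n' with h1 | h1 | h1
  · have := key _ _ h1
    omega
  · subst h1
    exact ⟨rfl, by omega⟩
  · have := key _ _ h1
    omega

/-- existential quantifiers over several strings -/
theorem Z2_exN : ∀ (m : ℕ) {k : ℕ} {R : (Fin k → List Bool) → (Fin m → List Bool) → Prop},
    NEXP O (fun e : Fin (k + m) → List Bool =>
      R (fun i => e (Fin.castAdd m i)) (fun j => e (Fin.natAdd k j))) →
    ∀ {g : ℕ → ℕ}, PolyB g → Monotone g →
    (∀ e z, R e z → ∀ j, (z j).length ≤ g (size e)) →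
    NEXP O fun e : Fin k → List Bool => ∃ z, R e z := by
  intro m
  induction m with
  | zero =>
    intro k R h g _ _ _
    refine NEXP.congr h fun e => ⟨fun h => ⟨_, h⟩, ?_⟩
    rintro ⟨z, hz⟩
    have h1 : z = fun j : Fin 0 => e (Fin.natAdd k j) := Subsingleton.elim _ _
    rw [h1] at hz
    exact hz
  | succ m ih =>
    intro k R h g hg hgm hb
    have hsz : ∀ e : Fin (k + m) → List Bool, size (fun i => e (Fin.castAdd m i)) ≤ size e := by
      intro e
      unfold size
      rw [Fin.sum_univ_add]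
      exact Nat.le_add_right _ _
    have h1 : NEXP O fun e : Fin (k + m) → List Bool => ∃ w,
        R (fun i => e (Fin.castAdd m i))
          (Fin.snoc (α := fun _ => List Bool) (fun j => e (Fin.natAdd k j)) w) := by
      refine nexp_ex (R := fun (e : Fin (k + m) → List Bool) w =>
        R (fun i => e (Fin.castAdd m i))
          (Fin.snoc (α := fun _ => List Bool) (fun j => e (Fin.natAdd k j)) w)) ?_ hg ?_
      · refine NEXP.congr h fun e => ?_
        have h2 : (fun j : Fin (m + 1) => e (Fin.natAdd k j)) =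
            Fin.snoc (α := fun _ => List Bool)
              (fun j => low (Nat.le_add_right (k + m) 1) e (Fin.natAdd k j))
              (e (Fin.last (k + m))) := by
          funext j
          refine Fin.lastCases ?_ (fun j => ?_) j
          · rw [Fin.snoc_last]
            rfl
          · rw [Fin.snoc_castSucc]
            rfl
        rw [h2]
        exact Iff.rfl
      · intro e w hw
        have h2 := hb _ _ hw (Fin.last m)
        rw [Fin.snoc_last] at h2
        exact h2.trans (hgm (hsz e))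
    have h3 := ih (R := fun e z => ∃ w, R e (Fin.snoc (α := fun _ => List Bool) z w)) h1 hg hgm (by
      rintro e z ⟨w, hw⟩ j
      have h2 := hb _ _ hw (Fin.castSucc j)
      rw [Fin.snoc_castSucc] at h2
      exact h2)
    refine NEXP.congr h3 fun e => ⟨?_, ?_⟩
    · rintro ⟨z, w, h⟩
      exact ⟨_, h⟩
    · rintro ⟨z, hz⟩
      refine ⟨Fin.init z, z (Fin.last m), ?_⟩
      rw [Fin.snoc_init_self]
      exact hz

theorem Z2_size1 (e : Fin 1 → List Bool) : size e = (e 0).length := by
  simp [size]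

theorem Z2_hsh {k : ℕ} (i j l : Fin k) : NEXP O fun e : Fin k → List Bool =>
    (e l).length * (e j).length ≤ (e i).length ∧ e l = hsh (e l).length (e i) (e j) :=
  NEXP.congr (NEXP.reindex (nexp_hsh (O := O)) ![i, j, l]) fun e => by
    simp only [Matrix.cons_val_zero, Matrix.cons_val_one, Matrix.cons_val]

/-- Some element of `A` is hashed to `v`. -/
def VV (A : Lang) : Lang := {z | ∃ (n g : ℕ) (s v x : List Bool), g ≤ n ∧ z = s ++ v ∧
  s.length = hT n g ∧ v.length = hb n g ∧ x.length = n ∧ x ∈ A ∧ hsh (hb n g) s x = v}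

/-- All strings hashed to `v` are in `A`. -/
def VW (A : Lang) : Lang := {z | ∃ (n g : ℕ) (s v : List Bool), g ≤ n ∧ z = s ++ v ∧
  s.length = hT n g ∧ v.length = hb n g ∧
  ∀ x : List Bool, x.length = n → hsh (hb n g) s x = v → x ∈ A}

/-- The decoder: at least half of the seeds. -/
def Dc (N : Lang) (n g : ℕ) (x : List Bool) : Prop :=
  2 ^ hT n g ≤ 2 * cnt (hT n g) fun s => s ++ hsh (hb n g) s x ∈ N

/-- PLAN. `nexp_hsh`; the length relations with `nexp_powAdd`, `nexp_lin`, appending; all strings are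
polynomially bounded in `|z|`. -/
theorem vv_mem {A : Lang} (hA : A ∈ NEXPLang O) : VV A ∈ NEXPLang O := by
  -- z 0 = G, z 1 = s, z 2 = v, z 3 = x, z 4 = y, z 5 = w, z 6 = t, z 7 = u
  have h1 : NEXP O fun e : Fin 1 → List Bool => ∃ z : Fin 8 → List Bool,
      (((z 0).length ≤ (z 3).length ∧ e 0 = z 1 ++ z 2) ∧ (z 3 ∈ A ∧
        ((z 2).length * (z 3).length ≤ (z 1).length ∧ z 2 = hsh (z 2).length (z 1) (z 3)))) ∧
      (((z 4).length = 1 * (z 3).length + 2 ∧ (z 5).length = (z 4).length ^ 3 + 0) ∧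
        ((z 6 = z 5 ++ z 0 ∧ (z 6).length = 1 * (e 0).length + 0) ∧
          (z 7 = z 0 ++ z 2 ∧ (z 7).length = 1 * (z 3).length + 2))) := by
    refine Z2_exN 8 (g := fun n => n) (R := fun e z =>
      (((z 0).length ≤ (z 3).length ∧ e 0 = z 1 ++ z 2) ∧ (z 3 ∈ A ∧
        ((z 2).length * (z 3).length ≤ (z 1).length ∧ z 2 = hsh (z 2).length (z 1) (z 3)))) ∧
      (((z 4).length = 1 * (z 3).length + 2 ∧ (z 5).length = (z 4).length ^ 3 + 0) ∧
        ((z 6 = z 5 ++ z 0 ∧ (z 6).length = 1 * (e 0).length + 0) ∧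
          (z 7 = z 0 ++ z 2 ∧ (z 7).length = 1 * (z 3).length + 2)))) ?_ PolyB.id monotone_id ?_
    · exact (((nexp_lenLe _ _).and (nexp_append _ _ _)).and ((nexp_mem hA _).and
        (Z2_hsh _ _ _))).and (((nexp_lin 1 2 _ _).and (nexp_powAdd 3 0 _ _)).and
        (((nexp_append _ _ _).and (nexp_lin 1 0 _ _)).and
          ((nexp_append _ _ _).and (nexp_lin 1 2 _ _))))
    · rintro e z ⟨⟨⟨h0, h1⟩, h2, h3, h4⟩, ⟨h5, h6⟩, ⟨h7, h8⟩, h9, h10⟩ j
      have e1 := congrArg List.length h1
      have e7 := congrArg List.length h7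
      have e9 := congrArg List.length h9
      rw [List.length_append] at e1 e7 e9
      have h11 : (z 4).length ≤ (z 4).length ^ 3 := Nat.le_self_pow (by norm_num) _
      rw [Z2_size1]
      have h12 : (z 5).length = (z 4).length ^ 3 := by omega
      generalize (z 4).length ^ 3 = q at *
      fin_cases j <;> simp only [Fin.mk_zero, Fin.mk_one, Fin.reduceFinMk] <;> omega
  refine NEXP.congr h1 fun e => ?_
  constructor
  · rintro ⟨z, ⟨⟨h0, h1⟩, h2, h3, h4⟩, ⟨h5, h6⟩, ⟨h7, h8⟩, h9, h10⟩
    have e1 := congrArg List.length h1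
    have e7 := congrArg List.length h7
    have e9 := congrArg List.length h9
    rw [List.length_append] at e1 e7 e9
    have h11 := (ht_len h0).1
    have h12 : (z 2).length = hb (z 3).length (z 0).length := by
      unfold hb
      omega
    have h13 : (z 4).length = (z 3).length + 2 := by omega
    rw [h13] at h6
    refine ⟨(z 3).length, (z 0).length, z 1, z 2, z 3, h0, h1, ?_, h12, rfl, h2, ?_⟩
    · generalize ((z 3).length + 2) ^ 3 = q at *
      omega
    · rw [← h12]
      exact h4.symm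
  · rintro ⟨n, g, s, v, x, hg, h1, h2, h3, h4, h5, h6⟩
    have h11 := ht_len hg
    refine ⟨![List.replicate g true, s, v, x, List.replicate (n + 2) true,
      List.replicate ((n + 2) ^ 3) true, List.replicate ((n + 2) ^ 3) true ++
        List.replicate g true, List.replicate g true ++ v], ?_⟩
    have h7 := congrArg List.length h1
    rw [List.length_append] at h7
    simp only [Matrix.cons_val_zero, Matrix.cons_val_one, Matrix.cons_val,
      List.length_replicate, List.length_append, true_and, h4, h3, h2, h5, h7]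
    refine ⟨⟨⟨hg, h1⟩, h11.2.1, h6.symm⟩, ⟨?_, ?_⟩, ?_, ?_⟩
    · omega
    · omega
    · generalize (n + 2) ^ 3 = q at *
      omega
    · unfold hb
      omega

/-- PLAN. `NEXP.forall` over `x`; inside: `∃ v', v' = hsh s x ∧ (v' ≠ v ∨ x ∈ A)` (`nexp_ne`). -/
theorem vw_mem {A : Lang} (hA : A ∈ NEXPLang O) : VW A ∈ NEXPLang O := by
  -- the condition on `(s, v)` for one `x`
  have h0 : NEXP O fun e : Fin 3 → List Bool => ∃ z : Fin 1 → List Bool,
      (((z 0).length * (e 2).length ≤ (e 0).length ∧ z 0 = hsh (z 0).length (e 0) (e 2)) ∧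
        (z 0).length = 1 * (e 1).length + 0) ∧ (z 0 ≠ e 1 ∨ e 2 ∈ A) := by
    refine Z2_exN 1 (g := fun n => n) (R := fun e z =>
      (((z 0).length * (e 2).length ≤ (e 0).length ∧ z 0 = hsh (z 0).length (e 0) (e 2)) ∧
        (z 0).length = 1 * (e 1).length + 0) ∧ (z 0 ≠ e 1 ∨ e 2 ∈ A)) ?_ PolyB.id monotone_id ?_
    · exact ((Z2_hsh _ _ _).and (nexp_lin 1 0 _ _)).and ((nexp_ne _ _).or (nexp_mem hA _))
    · rintro e z ⟨⟨-, h1⟩, -⟩ j
      have h2 := len_le_size e 1
      rw [Subsingleton.elim j 0]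
      show (z 0).length ≤ size e
      omega
  -- z 0 = G, z 1 = s, z 2 = v, z 3 = X, z 4 = y, z 5 = w, z 6 = t, z 7 = u
  have h1 : NEXP O fun e : Fin 1 → List Bool => ∃ z : Fin 8 → List Bool,
      (((z 0).length ≤ (z 3).length ∧ e 0 = z 1 ++ z 2) ∧
        ∀ x : List Bool, x.length = (z 3).length → ∃ y : Fin 1 → List Bool,
          (((y 0).length * x.length ≤ (z 1).length ∧ y 0 = hsh (y 0).length (z 1) x) ∧
            (y 0).length = 1 * (z 2).length + 0) ∧ (y 0 ≠ z 2 ∨ x ∈ A)) ∧
      (((z 4).length = 1 * (z 3).length + 2 ∧ (z 5).length = (z 4).length ^ 3 + 0) ∧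
        ((z 6 = z 5 ++ z 0 ∧ (z 6).length = 1 * (e 0).length + 0) ∧
          (z 7 = z 0 ++ z 2 ∧ (z 7).length = 1 * (z 3).length + 2))) := by
    refine Z2_exN 8 (g := fun n => n) (R := fun e z =>
      (((z 0).length ≤ (z 3).length ∧ e 0 = z 1 ++ z 2) ∧
        ∀ x : List Bool, x.length = (z 3).length → ∃ y : Fin 1 → List Bool,
          (((y 0).length * x.length ≤ (z 1).length ∧ y 0 = hsh (y 0).length (z 1) x) ∧
            (y 0).length = 1 * (z 2).length + 0) ∧ (y 0 ≠ z 2 ∨ x ∈ A)) ∧
      (((z 4).length = 1 * (z 3).length + 2 ∧ (z 5).length = (z 4).length ^ 3 + 0) ∧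
        ((z 6 = z 5 ++ z 0 ∧ (z 6).length = 1 * (e 0).length + 0) ∧
          (z 7 = z 0 ++ z 2 ∧ (z 7).length = 1 * (z 3).length + 2)))) ?_ PolyB.id monotone_id ?_
    · refine (((nexp_lenLe _ _).and (nexp_append _ _ _)).and ?_).and
        (((nexp_lin 1 2 _ _).and (nexp_powAdd 3 0 _ _)).and
        (((nexp_append _ _ _).and (nexp_lin 1 0 _ _)).and
          ((nexp_append _ _ _).and (nexp_lin 1 2 _ _))))
      refine nexp_all (R := fun (e : Fin (1 + 8) → List Bool) x => ∃ y : Fin 1 → List Bool,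
          (((y 0).length * x.length ≤ (e (Fin.natAdd 1 1)).length ∧
            y 0 = hsh (y 0).length (e (Fin.natAdd 1 1)) x) ∧
            (y 0).length = 1 * (e (Fin.natAdd 1 2)).length + 0) ∧
            (y 0 ≠ e (Fin.natAdd 1 2) ∨ x ∈ A)) ?_ (Fin.natAdd 1 3)
      refine NEXP.congr (NEXP.reindex h0 ![Fin.castLE (by norm_num) (Fin.natAdd 1 (1 : Fin 8)),
        Fin.castLE (by norm_num) (Fin.natAdd 1 (2 : Fin 8)), Fin.last 9]) fun e => ?_
      exact Iff.rfl
    · rintro e z ⟨⟨⟨h0, h1⟩, -⟩, ⟨h5, h6⟩, ⟨h7, h8⟩, h9, h10⟩ j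
      have e1 := congrArg List.length h1
      have e7 := congrArg List.length h7
      have e9 := congrArg List.length h9
      rw [List.length_append] at e1 e7 e9
      have h11 : (z 4).length ≤ (z 4).length ^ 3 := Nat.le_self_pow (by norm_num) _
      rw [Z2_size1]
      have h12 : (z 5).length = (z 4).length ^ 3 := by omega
      generalize (z 4).length ^ 3 = q at *
      fin_cases j <;> simp only [Fin.mk_zero, Fin.mk_one, Fin.reduceFinMk] <;> omega
  refine NEXP.congr h1 fun e => ?_
  constructor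
  · rintro ⟨z, ⟨⟨h0, h1⟩, h2⟩, ⟨h5, h6⟩, ⟨h7, h8⟩, h9, h10⟩
    have e1 := congrArg List.length h1
    have e7 := congrArg List.length h7
    have e9 := congrArg List.length h9
    rw [List.length_append] at e1 e7 e9
    have h11 := (ht_len h0).1
    have h12 : (z 2).length = hb (z 3).length (z 0).length := by
      unfold hb
      omega
    have h13 : (z 4).length = (z 3).length + 2 := by omega
    rw [h13] at h6
    refine ⟨(z 3).length, (z 0).length, z 1, z 2, h0, h1, ?_, h12, fun x hx hv => ?_⟩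
    · generalize ((z 3).length + 2) ^ 3 = q at *
      omega
    · obtain ⟨y, ⟨⟨-, h14⟩, h15⟩, h16⟩ := h2 x hx
      refine h16.resolve_left fun h17 => h17 ?_
      rw [h14, h15, one_mul, add_zero, h12, hv]
  · rintro ⟨n, g, s, v, hg, h1, h2, h3, h4⟩
    have h11 := ht_len hg
    refine ⟨![List.replicate g true, s, v, List.replicate n true, List.replicate (n + 2) true,
      List.replicate ((n + 2) ^ 3) true, List.replicate ((n + 2) ^ 3) true ++
        List.replicate g true, List.replicate g true ++ v], ?_⟩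
    have h7 := congrArg List.length h1
    rw [List.length_append] at h7
    simp only [Matrix.cons_val_zero, Matrix.cons_val_one, Matrix.cons_val,
      List.length_replicate, List.length_append, true_and, h3, h2, h7]
    refine ⟨⟨⟨hg, h1⟩, fun x hx => ⟨fun _ => hsh (hb n g) s x, ?_⟩⟩, ⟨?_, ?_⟩, ?_, ?_⟩
    · rw [length_hsh, hx]
      refine ⟨⟨⟨h11.2.1, rfl⟩, by omega⟩, ?_⟩
      by_cases h8 : hsh (hb n g) s x = v
      · exact Or.inr (h4 x hx h8)
      · exact Or.inl h8
    · omega
    · omega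
    · generalize (n + 2) ^ 3 = q at *
      omega
    · unfold hb
      omega

theorem Z2_cnt_congr {n : ℕ} {P Q : List Bool → Prop}
    (h : ∀ x : List Bool, x.length = n → (P x ↔ Q x)) : cnt n P = cnt n Q := by
  classical
  unfold cnt
  congr 1
  refine Finset.filter_congr fun m _ => ?_
  exact h _ (length_bits n m)

/-- PLAN. `nexp_half` over the seeds `s`; inside `∃ v z, v = hsh s x ∧ z = s ++ v ∧ z ∈ N`. -/
theorem dc_mem {N : Lang} (hN : N ∈ NEXPLang O) : NEXP O fun e : Fin 2 → List Bool =>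
    (e 1).length ≤ (e 0).length ∧ Dc N (e 0).length (e 1).length (e 0) := by
  -- the condition on the seed: variables x, V, s
  have h0 : NEXP O fun e : Fin 3 → List Bool => ∃ z : Fin 2 → List Bool,
      (((z 0).length * (e 0).length ≤ (e 2).length ∧ z 0 = hsh (z 0).length (e 2) (e 0)) ∧
        (z 0).length = 1 * (e 1).length + 0) ∧ (z 1 = e 2 ++ z 0 ∧ z 1 ∈ N) := by
    refine Z2_exN 2 (g := fun n => n) (R := fun e z =>
      (((z 0).length * (e 0).length ≤ (e 2).length ∧ z 0 = hsh (z 0).length (e 2) (e 0)) ∧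
        (z 0).length = 1 * (e 1).length + 0) ∧ (z 1 = e 2 ++ z 0 ∧ z 1 ∈ N)) ?_ PolyB.id
        monotone_id ?_
    · exact ((Z2_hsh _ _ _).and (nexp_lin 1 0 _ _)).and ((nexp_append _ _ _).and (nexp_mem hN _))
    · rintro e z ⟨⟨-, h1⟩, h2, -⟩ j
      have e2 := congrArg List.length h2
      rw [List.length_append] at e2
      have h3 : size e = (e 0).length + (e 1).length + (e 2).length := by
        simp [size, Fin.sum_univ_succ, add_assoc]
      show (z j).length ≤ size e
      rw [h3]
      fin_cases j <;> simp only [Fin.mk_zero, Fin.mk_one] <;> omega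
  -- z 0 = V, z 1 = S, z 2 = y, z 3 = w, z 4 = w ++ G, z 5 = G ++ V, z 6 = S ++ V
  have h1 : NEXP O fun e : Fin 2 → List Bool => ∃ z : Fin 7 → List Bool,
      ((e 1).length ≤ (e 0).length ∧ 2 ^ (z 1).length ≤ 2 * cnt (z 1).length fun s =>
        ∃ y : Fin 2 → List Bool,
          (((y 0).length * (e 0).length ≤ s.length ∧ y 0 = hsh (y 0).length s (e 0)) ∧
          (y 0).length = 1 * (z 0).length + 0) ∧ (y 1 = s ++ y 0 ∧ y 1 ∈ N)) ∧
      (((z 2).length = 1 * (e 0).length + 2 ∧ (z 3).length = (z 2).length ^ 3 + 0) ∧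
        ((z 4 = z 3 ++ e 1 ∧ (z 4).length = 1 * (z 6).length + 0) ∧
          (z 5 = e 1 ++ z 0 ∧ ((z 5).length = 1 * (e 0).length + 2 ∧ z 6 = z 1 ++ z 0)))) := by
    refine Z2_exN 7 (g := fun n => (n + 2) ^ 3 + n) (R := fun e z =>
      ((e 1).length ≤ (e 0).length ∧ 2 ^ (z 1).length ≤ 2 * cnt (z 1).length fun s =>
        ∃ y : Fin 2 → List Bool,
          (((y 0).length * (e 0).length ≤ s.length ∧ y 0 = hsh (y 0).length s (e 0)) ∧
          (y 0).length = 1 * (z 0).length + 0) ∧ (y 1 = s ++ y 0 ∧ y 1 ∈ N)) ∧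
      (((z 2).length = 1 * (e 0).length + 2 ∧ (z 3).length = (z 2).length ^ 3 + 0) ∧
        ((z 4 = z 3 ++ e 1 ∧ (z 4).length = 1 * (z 6).length + 0) ∧
          (z 5 = e 1 ++ z 0 ∧ ((z 5).length = 1 * (e 0).length + 2 ∧ z 6 = z 1 ++ z 0))))) ?_
      (((PolyB.id.add (PolyB.const 2)).pow 3).add PolyB.id) ?_ ?_
    · refine ((nexp_lenLe _ _).and ?_).and
        (((nexp_lin 1 2 _ _).and (nexp_powAdd 3 0 _ _)).and
        (((nexp_append _ _ _).and (nexp_lin 1 0 _ _)).and
          ((nexp_append _ _ _).and ((nexp_lin 1 2 _ _).and (nexp_append _ _ _)))))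
      refine nexp_half (R := fun (e : Fin (2 + 7) → List Bool) s => ∃ y : Fin 2 → List Bool,
          (((y 0).length * (e (Fin.castAdd 7 0)).length ≤ s.length ∧
            y 0 = hsh (y 0).length s (e (Fin.castAdd 7 0))) ∧
          (y 0).length = 1 * (e (Fin.natAdd 2 0)).length + 0) ∧ (y 1 = s ++ y 0 ∧ y 1 ∈ N)) ?_
          (Fin.natAdd 2 1)
      refine NEXP.congr (NEXP.reindex h0 ![Fin.castLE (by norm_num) (Fin.castAdd 7 (0 : Fin 2)),
        Fin.castLE (by norm_num) (Fin.natAdd 2 (0 : Fin 7)), Fin.last 9]) fun e => ?_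
      exact Iff.rfl
    · intro a b hab
      show (a + 2) ^ 3 + a ≤ (b + 2) ^ 3 + b
      exact Nat.add_le_add (Nat.pow_le_pow_left (by omega) 3) hab
    · rintro e z ⟨⟨h0, -⟩, ⟨h5, h6⟩, ⟨h7, h8⟩, h9, h10, h12⟩ j
      have e7 := congrArg List.length h7
      have e9 := congrArg List.length h9
      have e12 := congrArg List.length h12
      rw [List.length_append] at e7 e9 e12
      have h13 : size e = (e 0).length + (e 1).length := by
        simp [size, Fin.sum_univ_succ]
      have h14 : (z 2).length ^ 3 ≤ (size e + 2) ^ 3 := Nat.pow_le_pow_left (by omega) 3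
      have h15 : size e + 2 ≤ (size e + 2) ^ 3 := Nat.le_self_pow (by norm_num) _
      show (z j).length ≤ (size e + 2) ^ 3 + size e
      have h16 : (z 3).length = (z 2).length ^ 3 := by omega
      generalize (z 2).length ^ 3 = q at *
      generalize (size e + 2) ^ 3 = r at *
      fin_cases j <;> simp only [Fin.mk_zero, Fin.mk_one, Fin.reduceFinMk] <;> omega
  refine NEXP.congr h1 fun e => ?_
  have key : ∀ (T : ℕ) (V : List Bool), (e 1).length ≤ (e 0).length →
      T = hT (e 0).length (e 1).length → V.length = hb (e 0).length (e 1).length →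
      (cnt T fun s => ∃ y : Fin 2 → List Bool,
          (((y 0).length * (e 0).length ≤ s.length ∧ y 0 = hsh (y 0).length s (e 0)) ∧
          (y 0).length = 1 * V.length + 0) ∧ (y 1 = s ++ y 0 ∧ y 1 ∈ N)) =
        cnt (hT (e 0).length (e 1).length) fun s =>
          s ++ hsh (hb (e 0).length (e 1).length) s (e 0) ∈ N := by
    intro T V hle hT' hV
    rw [hT']
    refine Z2_cnt_congr fun s hs => ?_
    constructor
    · rintro ⟨y, ⟨⟨-, h2⟩, h3⟩, h4, h5⟩
      rw [h4, h2, h3, one_mul, add_zero, hV] at h5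
      exact h5
    · intro h2
      refine ⟨![hsh (hb (e 0).length (e 1).length) s (e 0),
        s ++ hsh (hb (e 0).length (e 1).length) s (e 0)], ?_⟩
      simp only [Matrix.cons_val_zero, Matrix.cons_val_one, length_hsh, hV, true_and, and_true]
      refine ⟨⟨?_, by omega⟩, h2⟩
      rw [hs]
      exact (ht_len hle).2.1
  constructor
  · rintro ⟨z, ⟨h0, h2⟩, ⟨h5, h6⟩, ⟨h7, h8⟩, h9, h10, h12⟩
    have e7 := congrArg List.length h7
    have e9 := congrArg List.length h9
    have e12 := congrArg List.length h12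
    rw [List.length_append] at e7 e9 e12
    have h11 := (ht_len h0).1
    have h13 : (z 0).length = hb (e 0).length (e 1).length := by
      unfold hb
      omega
    have h14 : (z 2).length = (e 0).length + 2 := by omega
    rw [h14] at h6
    have h15 : (z 1).length = hT (e 0).length (e 1).length := by
      generalize ((e 0).length + 2) ^ 3 = q at *
      omega
    refine ⟨h0, ?_⟩
    unfold Dc
    rw [key _ _ h0 h15 h13, h15] at h2
    exact h2
  · rintro ⟨h0, h2⟩
    have h11 := (ht_len h0).1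
    unfold Dc at h2
    set n := (e 0).length with hn
    set g := (e 1).length with hg
    refine ⟨![List.replicate (hb n g) true, List.replicate (hT n g) true,
      List.replicate (n + 2) true, List.replicate ((n + 2) ^ 3) true,
      List.replicate ((n + 2) ^ 3) true ++ e 1, e 1 ++ List.replicate (hb n g) true,
      List.replicate (hT n g) true ++ List.replicate (hb n g) true], ?_⟩
    have h3 := key (hT n g) (List.replicate (hb n g) true) h0 rfl (List.length_replicate ..)
    simp only [Matrix.cons_val_zero, Matrix.cons_val_one, Matrix.cons_val,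
      List.length_replicate, List.length_append, true_and, and_true] at h3 ⊢
    refine ⟨⟨h0, ?_⟩, ⟨?_, ?_⟩, ?_, ?_⟩
    · rw [h3]
      exact h2
    · omega
    · omega
    · rw [← hg]
      generalize (n + 2) ^ 3 = q at *
      omega
    · rw [← hg]
      unfold hb
      omega

end Pool.Agent.LibAV75
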