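import Pool.Agent.LibAV75.Z1
import Pool.Agent.LibAV75.Z2

/-!
Row Z4: approximation of complements which have few elements.
-/

namespace Pool.Agent.LibAV75

open Filter Function Pool.Agent.LibNexp Pool.Agent.LibBHN

variable {O : List Bool → Bool}

theorem z4_mono {n : ℕ} {P Q : List Bool → Prop} (h : ∀ x : List Bool, x.length = n → P x → Q x) :
    cnt n P ≤ cnt n Q := by
  classical
  unfold cnt
  apply Finset.card_le_card
  intro m hm
  rw [Finset.mem_filter] at hm ⊢
  exact ⟨hm.1, h _ (length_bits n m) hm.2⟩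

theorem z4_or {n : ℕ} {P Q R : List Bool → Prop}
    (h : ∀ x : List Bool, x.length = n → P x → Q x ∨ R x) : cnt n P ≤ cnt n Q + cnt n R := by
  classical
  unfold cnt
  refine (Finset.card_le_card ?_).trans (Finset.card_union_le _ _)
  intro m hm
  rw [Finset.mem_filter] at hm
  rw [Finset.mem_union, Finset.mem_filter, Finset.mem_filter]
  rcases h _ (length_bits n m) hm.2 with h | h
  · exact Or.inl ⟨hm.1, h⟩
  · exact Or.inr ⟨hm.1, h⟩

theorem z4_not (n : ℕ) (P : List Bool → Prop) : cnt n P + cnt n (fun x => ¬ P x) = 2 ^ n := by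
  classical
  unfold cnt
  have h := Finset.card_filter_add_card_filter_not (s := Finset.range (2 ^ n))
    (fun m => P (bits n m))
  rw [Finset.card_range] at h
  convert h using 3
  ext m
  simp only [Finset.mem_filter]

theorem z4_flat (l : List Bool) (b : Bool) : (l.flatMap fun _ => [b]).length = l.length := by
  induction l with
  | nil => rfl
  | cons a l ih => simp

theorem z4_val_app (l t : List Bool) : val (l ++ t) = val l + 2 ^ l.length * val t := by
  induction l with
  | nil => simp [val]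
  | cons b l ih =>
    simp only [List.cons_append, val, ih, List.length_cons, pow_succ]
    ring

/-- few strings outside `A`: a fact in NEXP -/
theorem z4_T {A : Lang} (hA : A ∈ NEXPLang O) : NEXP O fun e : Fin 2 → List Bool =>
    2 ^ (e 1).length * cnt (e 0).length (fun x => x ∉ A) ≤ 2 ^ (e 0).length := by
  have h0 : NEXP O fun e : Fin 3 → List Bool =>
      val (e 2) ≤ cnt (e 0).length (fun x => x ∈ A) := by
    have hA' : NEXP O fun e : Fin 1 → List Bool => e 0 ∈ A := hA
    exact nexp_ge (R := fun _ x => x ∈ A) (hA'.reindex ![Fin.last 3]) 2 0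
  have h1 : NEXP O fun e : Fin 4 → List Bool => e 2 = (e 3).flatMap (fun _ => [false]) ++ [] ++
      (e 1).flatMap (fun _ => [true]) := by
    refine ((nexp_subst (O := O) (fun _ => [false]) (fun _ => [true]) []).reindex
      ![3, 1, 2]).congr fun e => ?_
    simp
  have h2 : NEXP O fun e : Fin 3 → List Bool => ∃ a : List Bool,
      e 2 = a.flatMap (fun _ => [false]) ++ [] ++ (e 1).flatMap (fun _ => [true]) := by
    refine nexp_ex (R := fun e a => e 2 = a.flatMap (fun _ => [false]) ++ [] ++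
      (e 1).flatMap (fun _ => [true])) h1 (g := fun n => n) PolyB.id ?_
    intro e a h
    have h3 := len_le_size e 2
    rw [h, List.length_append, List.length_append, z4_flat] at h3
    omega
  have h3 : NEXP O fun e : Fin 3 → List Bool => e 2 = (e 0).flatMap (fun _ => [false]) ++ [true] ++
      (e 0).flatMap (fun _ => []) := by
    refine ((nexp_subst (O := O) (fun _ => [false]) (fun _ => []) [true]).reindex
      ![0, 0, 2]).congr fun e => ?_
    simp
  have h4 := ((h2.and (nexp_lin (O := O) 1 0 0 2)).or h3).and h0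
  have h5 : NEXP O fun e : Fin 2 → List Bool => ∃ u : List Bool,
      (((∃ a : List Bool, u = a.flatMap (fun _ => [false]) ++ [] ++
          (e 1).flatMap (fun _ => [true])) ∧ u.length = 1 * (e 0).length + 0) ∨
        u = (e 0).flatMap (fun _ => [false]) ++ [true] ++ (e 0).flatMap (fun _ => [])) ∧
      val u ≤ cnt (e 0).length (fun x => x ∈ A) := by
    refine nexp_ex (R := fun (e : Fin 2 → List Bool) u =>
      (((∃ a : List Bool, u = a.flatMap (fun _ => [false]) ++ [] ++
          (e 1).flatMap (fun _ => [true])) ∧ u.length = 1 * (e 0).length + 0) ∨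
        u = (e 0).flatMap (fun _ => [false]) ++ [true] ++ (e 0).flatMap (fun _ => [])) ∧
      val u ≤ cnt (e 0).length (fun x => x ∈ A)) h4 (g := fun n => n + 1) PolyB.id.succ ?_
    rintro e u ⟨⟨-, h⟩ | h, -⟩
    · have := len_le_size e 0
      omega
    · have h6 := len_le_size e 0
      rw [h, List.length_append, List.length_append, z4_flat, misc_flatMap_nil]
      simp only [List.length_cons, List.length_nil]
      omega
  refine h5.congr fun e => ?_
  have hnot := z4_not (e 0).length (fun x => x ∈ A)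
  set n := (e 0).length with hn
  set g := (e 1).length with hg
  set c := cnt n (fun x => x ∉ A) with hc
  set d := cnt n (fun x => x ∈ A) with hd
  have hv1 : ∀ a : List Bool, val (a.flatMap (fun _ => [false]) ++ [] ++
      (e 1).flatMap (fun _ => [true])) + 2 ^ a.length = 2 ^ (a.length + g) := by
    intro a
    rw [List.append_nil, z4_val_app, val_flat_false, z4_flat, zero_add, pow_add]
    have := val_flat_true (e 1)
    rw [hg, ← this]
    ring
  have hv2 : val ((e 0).flatMap (fun _ => [false]) ++ [true] ++ (e 0).flatMap (fun _ => [])) = 2 ^ n := by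
    rw [misc_flatMap_nil, List.append_nil, z4_val_app, val_flat_false, z4_flat]
    simp [val, hn]
  constructor
  · rintro ⟨u, ⟨⟨a, ha⟩, hl⟩ | h, hu⟩
    · have h6 := hv1 a
      rw [← ha] at h6
      have h7 : a.length + g = n := by
        rw [ha, List.length_append, List.length_append, z4_flat, z4_flat, List.length_nil] at hl
        omega
      rw [h7] at h6
      have h8 : c ≤ 2 ^ a.length := by omega
      calc 2 ^ g * c ≤ 2 ^ g * 2 ^ a.length := Nat.mul_le_mul_left _ h8
        _ = 2 ^ n := by rw [← pow_add, ← h7, add_comm]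
    · rw [h, hv2] at hu
      have h8 : c = 0 := by omega
      rw [h8, mul_zero]
      exact Nat.zero_le _
  · intro h
    rcases Nat.eq_zero_or_pos c with h0 | h0
    · exact ⟨_, Or.inr rfl, by rw [hv2]; omega⟩
    · have hgn : g ≤ n := by
        have h6 : 2 ^ g ≤ 2 ^ n := le_trans (Nat.le_mul_of_pos_right _ h0) h
        exact (Nat.pow_le_pow_iff_right (by norm_num)).1 h6
      have h7 : c ≤ 2 ^ (n - g) := by
        have h8 : 2 ^ g * c ≤ 2 ^ g * 2 ^ (n - g) := by
          rw [← pow_add, Nat.add_sub_cancel' hgn]; exact h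
        exact Nat.le_of_mul_le_mul_left h8 (by positivity)
      have h8 := hv1 (List.replicate (n - g) false)
      rw [List.length_replicate, Nat.sub_add_cancel hgn] at h8
      refine ⟨_, Or.inl ⟨⟨List.replicate (n - g) false, rfl⟩, ?_⟩, by omega⟩
      rw [List.length_append, List.length_append, z4_flat, z4_flat, List.length_nil,
        List.length_replicate]
      omega

theorem z4_T1 {A : Lang} (hA : A ∈ NEXPLang O) : NEXP O fun e : Fin 2 → List Bool =>
    2 ^ ((e 1).length + 1) * cnt (e 0).length (fun x => x ∉ A) ≤ 2 ^ (e 0).length := by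
  have h1 : NEXP O fun e : Fin 3 → List Bool => e 2 = e 1 ++ [true] ∧
      2 ^ (e 2).length * cnt (e 0).length (fun x => x ∉ A) ≤ 2 ^ (e 0).length :=
    (nexp_snoc true 1 2).and ((z4_T hA).reindex ![0, 2])
  have h2 : NEXP O fun e : Fin 2 → List Bool => ∃ y : List Bool, y = e 1 ++ [true] ∧
      2 ^ y.length * cnt (e 0).length (fun x => x ∉ A) ≤ 2 ^ (e 0).length := by
    refine nexp_ex (R := fun (e : Fin 2 → List Bool) y => y = e 1 ++ [true] ∧
      2 ^ y.length * cnt (e 0).length (fun x => x ∉ A) ≤ 2 ^ (e 0).length) h1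
      (g := fun n => n + 1) PolyB.id.succ ?_
    rintro e y ⟨h, -⟩
    have := len_le_size e 1
    rw [h, List.length_append, List.length_singleton]
    omega
  refine h2.congr fun e => ?_
  constructor
  · rintro ⟨y, rfl, h⟩
    simpa using h
  · intro h
    exact ⟨_, rfl, by simpa using h⟩

theorem z4_VW {A : Lang} {n g : ℕ} {s v : List Bool} (hg : g ≤ n) (hs : s.length = hT n g)
    (hv : v.length = hb n g) :
    s ++ v ∈ VW A ↔ ∀ y : List Bool, y.length = n → hsh (hb n g) s y = v → y ∈ A := by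
  constructor
  · rintro ⟨n', g', s', v', hg', heq, hs', hv', h⟩
    have h1 : hT n g + hb n g = hT n' g' + hb n' g' := by
      rw [← hs, ← hv, ← hs', ← hv', ← List.length_append, ← List.length_append, heq]
    obtain ⟨rfl, rfl⟩ := ht_inj hg hg' h1
    obtain ⟨rfl, rfl⟩ := List.append_inj heq (hs.trans hs'.symm)
    exact h
  · intro h
    exact ⟨n, g, s, v, hg, rfl, hs, hv, h⟩

/-- for `x ∈ A` at most a quarter of the seeds is outside -/
theorem z4_in {A : Lang} {n g : ℕ} (hg : g ≤ n) (hc : 2 ^ g * cnt n (fun x => x ∉ A) ≤ 2 ^ n)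
    {x : List Bool} (hx : x.length = n) (hxA : x ∈ A) :
    4 * cnt (hT n g) (fun s => s ++ hsh (hb n g) s x ∉ VW A) ≤ 2 ^ hT n g := by
  obtain ⟨-, h1, -⟩ := ht_len hg
  have h2 : 4 * cnt n (fun x => x ∉ A) ≤ 2 ^ hb n g := by
    have h3 : 2 ^ g * (4 * cnt n (fun x => x ∉ A)) ≤ 2 ^ g * 2 ^ hb n g := by
      rw [← pow_add, show g + hb n g = n + 2 by unfold hb; omega, pow_add]
      calc 2 ^ g * (4 * cnt n (fun x => x ∉ A)) = (2 ^ g * cnt n (fun x => x ∉ A)) * 4 := by ring
        _ ≤ 2 ^ n * 2 ^ 2 := Nat.mul_le_mul_right _ hc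
    exact Nat.le_of_mul_le_mul_left h3 (by positivity)
  have h3 := hash_few h1 (fun x => x ∉ A) h2 hx (by simpa using hxA)
  refine le_trans (Nat.mul_le_mul_left 4 (z4_mono ?_)) h3
  intro s hs h4
  rw [z4_VW hg hs (length_hsh _ _ _)] at h4
  push Not at h4
  obtain ⟨y, hy1, hy2, hy3⟩ := h4
  exact ⟨y, hy1, hy3, hy2⟩

/-- for `x ∉ A` all seeds are outside -/
theorem z4_out {A : Lang} {n g : ℕ} (hg : g ≤ n) {x s : List Bool} (hx : x.length = n)
    (hxA : x ∉ A) (hs : s.length = hT n g) : s ++ hsh (hb n g) s x ∉ VW A := by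
  rw [z4_VW hg hs (length_hsh _ _ _)]
  intro h
  exact hxA (h x hx rfl)

theorem z4_err {A N' : Lang} {n g : ℕ} (hg : g ≤ n)
    (hc : 2 ^ g * cnt n (fun x => x ∉ A) ≤ 2 ^ n) {x : List Bool} (hx : x.length = n)
    (hB : ¬ (x ∈ Aᶜ ↔ Dc N' n g x)) :
    2 ^ hT n g ≤ 4 * cnt (hT n g) fun s =>
      ¬ (s ++ hsh (hb n g) s x ∈ (VW A)ᶜ ↔ s ++ hsh (hb n g) s x ∈ N') := by
  have hnot := z4_not (hT n g) (fun s => s ++ hsh (hb n g) s x ∈ N')
  by_cases hxA : x ∈ A
  · have hD : Dc N' n g x := by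
      by_contra h
      exact hB ⟨fun h' => absurd hxA h', fun h' => absurd h' h⟩
    unfold Dc at hD
    have h1 := z4_in hg hc hx hxA
    have h2 : cnt (hT n g) (fun s => s ++ hsh (hb n g) s x ∈ N') ≤
        cnt (hT n g) (fun s => s ++ hsh (hb n g) s x ∉ VW A) +
        cnt (hT n g) (fun s => ¬ (s ++ hsh (hb n g) s x ∈ (VW A)ᶜ ↔ s ++ hsh (hb n g) s x ∈ N')) := by
      refine z4_or fun s _ h => ?_
      by_cases h3 : s ++ hsh (hb n g) s x ∈ VW A
      · exact Or.inr fun h4 => (h4.2 h) h3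
      · exact Or.inl h3
    omega
  · have hD : ¬ Dc N' n g x := fun h => hB ⟨fun _ => h, fun _ => hxA⟩
    unfold Dc at hD
    have h2 : cnt (hT n g) (fun s => s ++ hsh (hb n g) s x ∉ N') ≤
        cnt (hT n g) (fun s => ¬ (s ++ hsh (hb n g) s x ∈ (VW A)ᶜ ↔ s ++ hsh (hb n g) s x ∈ N')) := by
      refine z4_mono fun s hs h => ?_
      intro h4
      exact h (h4.1 (z4_out hg hx hxA hs))
    omega

theorem z4_exists {c n : ℕ} (hc : 0 < c) (hcn : c ≤ 2 ^ n) :
    ∃ g ≤ n, 2 ^ g * c ≤ 2 ^ n ∧ ¬ 2 ^ (g + 1) * c ≤ 2 ^ n := by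
  classical
  have hex : ∃ g, ¬ 2 ^ (g + 1) * c ≤ 2 ^ n := ⟨n, by
    rw [not_le]
    calc 2 ^ n < 2 ^ (n + 1) := Nat.pow_lt_pow_right (by norm_num) (by omega)
      _ ≤ 2 ^ (n + 1) * c := Nat.le_mul_of_pos_right _ hc⟩
  refine ⟨Nat.find hex, ?_, ?_, Nat.find_spec hex⟩
  · apply Nat.find_min' hex
    rw [not_le]
    calc 2 ^ n < 2 ^ (n + 1) := Nat.pow_lt_pow_right (by norm_num) (by omega)
      _ ≤ 2 ^ (n + 1) * c := Nat.le_mul_of_pos_right _ hc
  · rcases h : Nat.find hex with _ | g
    · simpa using hcn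
    · have := Nat.find_min hex (m := g) (by omega)
      push Not at this
      exact this

theorem z4_lt {c n ρ g : ℕ} (h1 : 2 ^ ρ * c ≤ 2 ^ n) (h2 : ¬ 2 ^ (g + 1) * c ≤ 2 ^ n) : ρ ≤ g := by
  rw [not_le] at h2
  have h3 : 2 ^ ρ * c < 2 ^ (g + 1) * c := lt_of_le_of_lt h1 h2
  have h4 : 2 ^ ρ < 2 ^ (g + 1) := lt_of_mul_lt_mul_right h3 (Nat.zero_le _)
  have h5 := (Nat.pow_lt_pow_iff_right (by norm_num)).1 h4
  omega

/-- PLAN. As `cosparse` (row Z3, read its plan), with `N'` from `h` for `VW A` (`vw_mem`),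
`c := cnt n (· ∉ A) = 2 ^ n - cnt n (· ∈ A)` and
`N := {x | ∃ g ≤ n, 2 ^ n < 2 ^ (g + 1) * c ∧ 2 ^ g * c ≤ 2 ^ n ∧ Dc N' n g x}`. Now `2 ^ g * c ≤ 2 ^ n` is
a lower bound for `cnt n (· ∈ A)`, directly in NEXP, and `U n g := 2 ^ n < 2 ^ (g + 1) * c` has its
negation in NEXP, so `p0`. If `c = 0` then `N` has no element of length `n` and there is no error.
For `z = s ++ v` of the right lengths: `z ∉ VW A` iff some `x ∉ A` of length `n` has
`hsh b s x = v`. For `x ∉ A` all `s ++ hsh b s x` are outside `VW A`; for `x ∈ A` at most a quarter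
(`hash_few` with `S x := x ∉ A`). `b`: if `N' ⊆ (VW A)ᶜ` and `x ∈ N` then `Dc` gives at least half of the
seeds with `s ++ hsh b s x ∉ VW A`, so `x ∉ A` by `hash_few` (for every `n`). -/
theorem sparse {b : Prop} {r : ℕ → ℕ} (hr : Monotone r) (h8 : ∀ n, 8 ≤ r n) (h : Ap O b r)
    {A : Lang} (hA : A ∈ NEXPLang O) : ∃ N ∈ NEXPLang O, (b → N ⊆ Aᶜ) ∧
      ∀ᶠ n in atTop, ∀ ρ : ℕ, 2 ^ ρ * cnt n (fun x => x ∉ A) ≤ 2 ^ n →
        2 ^ (ρ + r n) * err Aᶜ N n ≤ 2 ^ (n + 5) := by
  obtain ⟨N', hN', hb', hE⟩ := h (VW A) (vw_mem hA)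
  have hM : More O := more_of_ap (fun m => le_trans (by norm_num) (h8 m)) h
  have hU : NEXP O fun e : Fin 2 → List Bool =>
      ¬ 2 ^ ((e 1).length + 1) * cnt (e 0).length (fun x => x ∉ A) ≤ 2 ^ (e 0).length :=
    p0 hM (U := fun n g => ¬ 2 ^ (g + 1) * cnt n (fun x => x ∉ A) ≤ 2 ^ n)
      ((z4_T1 hA).congr fun e => by rw [not_not])
  set N : Lang := {x | ∃ y : List Bool, (y.length ≤ x.length ∧ Dc N' x.length y.length x) ∧
    ¬ 2 ^ (y.length + 1) * cnt x.length (fun x => x ∉ A) ≤ 2 ^ x.length ∧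
    2 ^ y.length * cnt x.length (fun x => x ∉ A) ≤ 2 ^ x.length} with hN
  have hNm : N ∈ NEXPLang O := by
    have h1 := (dc_mem hN').and (hU.and (z4_T hA))
    refine nexp_ex (R := fun (e : Fin 1 → List Bool) y =>
      (y.length ≤ (e 0).length ∧ Dc N' (e 0).length y.length (e 0)) ∧
      ¬ 2 ^ (y.length + 1) * cnt (e 0).length (fun x => x ∉ A) ≤ 2 ^ (e 0).length ∧
      2 ^ y.length * cnt (e 0).length (fun x => x ∉ A) ≤ 2 ^ (e 0).length) h1
      (g := fun n => n) PolyB.id ?_
    rintro e y ⟨⟨h2, -⟩, -⟩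
    exact h2.trans (len_le_size e 0)
  refine ⟨N, hNm, ?_, ?_⟩
  · rintro hbb x ⟨y, ⟨hy, hD⟩, -, hc⟩ hxA
    have hsub := hb' hbb
    have h1 := z4_in hy hc rfl hxA
    unfold Dc at hD
    have h2 : cnt (hT x.length y.length) (fun s => s ++ hsh (hb x.length y.length) s x ∈ N') ≤
        cnt (hT x.length y.length) (fun s => s ++ hsh (hb x.length y.length) s x ∉ VW A) :=
      z4_mono fun s _ h => hsub h
    have h3 : 0 < 2 ^ hT x.length y.length := by positivity
    omega
  · obtain ⟨M0, hM0⟩ := eventually_atTop.1 hE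
    filter_upwards [eventually_ge_atTop M0] with n hn ρ hρ
    rcases Nat.eq_zero_or_pos (cnt n fun x => x ∉ A) with h0 | h0
    · have h1 : err Aᶜ N n = 0 := by
        have h2 : err Aᶜ N n ≤ cnt n fun x => x ∉ A := by
          refine z4_mono fun x hx h3 => ?_
          intro hxA
          apply h3
          refine ⟨fun h4 => absurd hxA h4, ?_⟩
          rintro ⟨y, -, h5, -⟩
          rw [hx, h0, mul_zero] at h5
          exact absurd (Nat.zero_le _) h5
        omega
      rw [h1, mul_zero]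
      exact Nat.zero_le _
    · obtain ⟨g, hg, hg1, hg2⟩ := z4_exists h0 (cnt_le n _)
      obtain ⟨e1, e2, e3⟩ := ht_len hg
      have hρg : ρ ≤ g := z4_lt hρ hg2
      have hmem : ∀ x : List Bool, x.length = n → (x ∈ N ↔ Dc N' n g x) := by
        intro x hx
        constructor
        · rintro ⟨y, ⟨hy, hD⟩, h5, h6⟩
          rw [hx] at hy hD h5 h6
          have h7 : y.length = g := le_antisymm (z4_lt h6 hg2) (z4_lt hg1 h5)
          rwa [h7] at hD
        · intro hD
          refine ⟨List.replicate g false, ?_⟩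
          rw [List.length_replicate, hx]
          exact ⟨⟨hg, hD⟩, hg2, hg1⟩
      have hm : M0 ≤ hT n g + hb n g := by
        rw [e1]
        have : n ≤ (n + 2) ^ 3 := le_trans (by omega) (Nat.le_self_pow (by norm_num) (n + 2))
        omega
      have hE' := hM0 _ hm
      have hnm : n ≤ hT n g + hb n g := by
        rw [e1]
        have : n ≤ (n + 2) ^ 3 := le_trans (by omega) (Nat.le_self_pow (by norm_num) (n + 2))
        omega
      have key := hash_err (r := r (hT n g + hb n g)) e2 (le_trans (by norm_num) (h8 _)) e3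
        (fun z => ¬ (z ∈ (VW A)ᶜ ↔ z ∈ N')) hE' (fun z => ¬ (z ∈ Aᶜ ↔ z ∈ N))
        (fun x hx hB => z4_err hg hg1 hx (by rwa [hmem x hx] at hB))
      have hr1 : r n ≤ r (hT n g + hb n g) := hr hnm
      calc 2 ^ (ρ + r n) * err Aᶜ N n ≤ 2 ^ (g + r (hT n g + hb n g)) * err Aᶜ N n :=
            Nat.mul_le_mul_right _ (Nat.pow_le_pow_right (by norm_num) (by omega))
        _ = 2 ^ g * (2 ^ r (hT n g + hb n g) * err Aᶜ N n) := by rw [pow_add]; ring
        _ ≤ 2 ^ g * 2 ^ (hb n g + 3) := Nat.mul_le_mul_left _ key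
        _ = 2 ^ (n + 5) := by
            rw [← pow_add]
            congr 1
            unfold hb
            omega

end Pool.Agent.LibAV75
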