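import Pool.Agent.LibAV75.Z3
import Pool.Agent.LibAV75.Z4

/-!
Row Z5: the zoom step.
-/

namespace Pool.Agent.LibAV75

open Filter Function Pool.Agent.LibNexp Pool.Agent.LibBHN

variable {O : List Bool → Bool}

theorem z5_inter {A B : Lang} (hA : A ∈ NEXPLang O) (hB : B ∈ NEXPLang O) : A ∩ B ∈ NEXPLang O := by
  have hA' : NEXP O fun e : Fin 1 → List Bool => e 0 ∈ A := hA
  exact hA'.and hB

theorem z5_union {A B : Lang} (hA : A ∈ NEXPLang O) (hB : B ∈ NEXPLang O) : A ∪ B ∈ NEXPLang O := by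
  have hA' : NEXP O fun e : Fin 1 → List Bool => e 0 ∈ A := hA
  exact hA'.or hB

theorem z5_mono {n : ℕ} {P Q : List Bool → Prop} (h : ∀ x : List Bool, P x → Q x) :
    cnt n P ≤ cnt n Q := by
  classical
  unfold cnt
  apply Finset.card_le_card
  intro m hm
  rw [Finset.mem_filter] at hm ⊢
  exact ⟨hm.1, h _ hm.2⟩

theorem z5_or {n : ℕ} {P Q R : List Bool → Prop} (h : ∀ x : List Bool, P x → Q x ∨ R x) :
    cnt n P ≤ cnt n Q + cnt n R := by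
  classical
  unfold cnt
  refine (Finset.card_le_card ?_).trans (Finset.card_union_le _ _)
  intro m hm
  rw [Finset.mem_filter] at hm
  rw [Finset.mem_union, Finset.mem_filter, Finset.mem_filter]
  rcases h _ hm.2 with h | h
  · exact Or.inl ⟨hm.1, h⟩
  · exact Or.inr ⟨hm.1, h⟩

/-- PLAN. For `A ∈ NEXP`, `L := Aᶜ`: `N₀` from `h1`; `A₁ := A ∩ N₀`, `2 ^ ρ * cnt n A₁ ≤ 2 ^ n` (large
`n`); `N₁` from `cosparse` for `A₁`: `2 ^ (ρ + r) * err₁ ≤ 2 ^ (n + 5)`; `N₀' := N₀ ∩ N₁`;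
`A₂ := A ∪ N₀'` (in NEXP); the strings not in `A₂` are those of `L \ N₀` and those of
`L ∩ N₀ \ N₁ ⊆` errors of `N₁`: `cnt n (· ∉ A₂) ≤ err Aᶜ N₀ n + err₁ ≤ 2 ^ (n - (ρ - 1))` in the form
`2 ^ (ρ - 1) * cnt n (· ∉ A₂) ≤ 2 ^ n` (`r n ≥ 8`; trivial for `ρ n = 0`); `N₂` from `sparse` for `A₂`;
`N := N₀' ∪ N₂`. Errors of `N` against `L`: an `x ∈ A ∩ N` is in `A₁ ∩ N₁` (an error of `N₁`) or in
`A₂ ∩ N₂` (an error of `N₂`); an `x ∈ L \ N` is not in `A₂ ∪ N₂`, an error of `N₂`. So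
`err ≤ err₁ + err₂`, `2 ^ (ρ + r) * err₂ ≤ 2 ^ (n + 6)`. `b`: `N₀ ⊆ L`, `N₂ ⊆ A₂ᶜ ⊆ L`. -/
theorem zoom {b : Prop} {ρ r : ℕ → ℕ} (hr : Monotone r) (h8 : ∀ n, 8 ≤ r n) (h1 : Ap O b ρ)
    (h2 : Ap O b r) : Ap O b fun n => ρ n + r n - 8 := by
  intro A hA
  obtain ⟨N0, hN0, hb0, hE0⟩ := h1 A hA
  obtain ⟨N1, hN1, hE1⟩ := cosparse hr h8 h2 (z5_inter hA hN0)
  have hN01 := z5_inter hN0 hN1
  obtain ⟨N2, hN2, hb2, hE2⟩ := sparse hr h8 h2 (z5_union hA hN01)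
  refine ⟨(N0 ∩ N1) ∪ N2, z5_union hN01 hN2, ?_, ?_⟩
  · rintro hb x (hx | hx) hxA
    · exact hb0 hb hx.1 hxA
    · exact hb2 hb hx (Or.inl hxA)
  · filter_upwards [hE0, hE1, hE2] with n a0 a1 a2
    have c1 : cnt n (fun x => x ∈ A ∩ N0) ≤ err Aᶜ N0 n :=
      z5_mono fun x hx h => (h.2 hx.2) hx.1
    have b1 := a1 (ρ n) (le_trans (Nat.mul_le_mul_left _ c1) a0)
    have c2 : cnt n (fun x => x ∉ A ∪ N0 ∩ N1) ≤ err Aᶜ N0 n + err (A ∩ N0)ᶜ N1 n := by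
      refine z5_or fun x hx => ?_
      have hxA : x ∉ A := fun h => hx (Or.inl h)
      by_cases hx0 : x ∈ N0
      · right
        intro h
        have h3 : x ∈ N1 := h.1 fun h4 => hxA h4.1
        exact hx (Or.inr ⟨hx0, h3⟩)
      · left
        intro h
        exact hx0 (h.1 hxA)
    have c3 : err Aᶜ (N0 ∩ N1 ∪ N2) n ≤ err (A ∩ N0)ᶜ N1 n + err (A ∪ N0 ∩ N1)ᶜ N2 n := by
      refine z5_or fun x hx => ?_
      by_cases hxA : x ∈ A
      · have hxN : x ∈ N0 ∩ N1 ∪ N2 := by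
          by_contra h
          exact hx ⟨fun h' => absurd hxA h', fun h' => absurd h' h⟩
        rcases hxN with h | h
        · left
          intro h'
          exact (h'.2 h.2) ⟨hxA, h.1⟩
        · right
          intro h'
          exact (h'.2 h) (Or.inl hxA)
      · have hxN : x ∉ N0 ∩ N1 ∪ N2 := fun h => hx ⟨fun _ => h, fun _ => hxA⟩
        right
        intro h'
        exact hxN (Or.inr (h'.1 fun h => h.elim hxA fun h3 => hxN (Or.inl h3)))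
    set E0 := err Aᶜ N0 n
    set E1 := err (A ∩ N0)ᶜ N1 n
    set E2 := err (A ∪ N0 ∩ N1)ᶜ N2 n
    set C := cnt n (fun x => x ∉ A ∪ N0 ∩ N1) with hC
    have h8n := h8 n
    -- the first error is small
    have d1 : 2 ^ ρ n * E1 * 8 ≤ 2 ^ n := by
      have e1 : 2 ^ ρ n * E1 * 8 * 2 ^ 5 ≤ 2 ^ n * 2 ^ 5 := by
        calc 2 ^ ρ n * E1 * 8 * 2 ^ 5 = 2 ^ ρ n * 2 ^ 8 * E1 := by ring
          _ ≤ 2 ^ ρ n * 2 ^ r n * E1 :=
            Nat.mul_le_mul_right _ (Nat.mul_le_mul_left _ (Nat.pow_le_pow_right (by norm_num) h8n))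
          _ = 2 ^ (ρ n + r n) * E1 := by rw [pow_add]
          _ ≤ 2 ^ (n + 5) := b1
          _ = 2 ^ n * 2 ^ 5 := pow_add _ _ _
      exact Nat.le_of_mul_le_mul_right e1 (by norm_num)
    have d2 : 2 ^ (ρ n - 1) * C ≤ 2 ^ n := by
      rcases Nat.eq_zero_or_pos (ρ n) with h0 | h0
      · rw [h0]
        simpa using cnt_le n _
      · have e1 : 2 * (2 ^ (ρ n - 1) * C) = 2 ^ ρ n * C := by
          rw [← mul_assoc, ← pow_succ', Nat.sub_add_cancel h0]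
        have e2 : 2 ^ ρ n * C ≤ 2 ^ ρ n * E0 + 2 ^ ρ n * E1 := by
          rw [← mul_add]; exact Nat.mul_le_mul_left _ c2
        omega
    have b2 := a2 (ρ n - 1) d2
    have d3 : 2 ^ (ρ n + r n) * E2 ≤ 2 * 2 ^ (n + 5) := by
      calc 2 ^ (ρ n + r n) * E2 ≤ 2 ^ (ρ n - 1 + r n + 1) * E2 :=
            Nat.mul_le_mul_right _ (Nat.pow_le_pow_right (by norm_num) (by omega))
        _ = 2 * (2 ^ (ρ n - 1 + r n) * E2) := by rw [pow_succ]; ring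
        _ ≤ 2 * 2 ^ (n + 5) := Nat.mul_le_mul_left _ b2
    have d4 : 2 ^ (ρ n + r n) * (E1 + E2) ≤ 2 ^ 8 * 2 ^ n := by
      rw [mul_add]
      have e1 : (2 : ℕ) ^ (n + 5) = 32 * 2 ^ n := by rw [pow_add]; ring
      omega
    have d5 : 2 ^ 8 * (2 ^ (ρ n + r n - 8) * (E1 + E2)) ≤ 2 ^ 8 * 2 ^ n := by
      rw [← mul_assoc, ← pow_add, show 8 + (ρ n + r n - 8) = ρ n + r n by omega]
      exact d4
    exact le_trans (Nat.mul_le_mul_left _ c3) (Nat.le_of_mul_le_mul_left d5 (by norm_num))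

end Pool.Agent.LibAV75
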