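import Pool.Agent.LibAV75.P3
import Pool.Agent.LibAV75.Z5
import Pool.Agent.LibAV75.F1

/-!
Row F2: iteration.
-/

namespace Pool.Agent.LibAV75

open Filter Function Pool.Agent.LibNexp Pool.Agent.LibBHN

variable {O : List Bool → Bool}

/-- PLAN. `ρ₁ n := r (n ^ C) + 9 * Nat.log 2 (n + 1)`: `Ap O b ρ₁` by `amp` (`K := C`), monotone, at
least 8. By induction on `t`, `Ap O b (fun n => t * (ρ₁ n - 8))`: `ap_zero`, and `zoom`:
`t * (ρ₁ n - 8) + ρ₁ n - 8 = (t + 1) * (ρ₁ n - 8)`. Take `t = C` and `ap_mono`: for `n ≥ 1`,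
`Nat.log 2 (n + 1) ≥ 1`, `r (n ^ C) + Nat.log 2 (n + 1) ≤ ρ₁ n - 8`. -/
theorem ap_mul {b : Prop} {r : ℕ → ℕ} (hr : Monotone r) (h8 : ∀ n, 8 ≤ r n) (h : Ap O b r)
    (C : ℕ) : Ap O b fun n => C * (r (n ^ C) + Nat.log 2 (n + 1)) := by
  obtain ⟨ρ, hρ⟩ : ∃ ρ : ℕ → ℕ, ρ = fun n => r (n ^ C) + 9 * Nat.log 2 (n + 1) := ⟨_, rfl⟩
  have h1 : Ap O b ρ := by
    rw [hρ]
    exact amp hr h8 h C 9
  have hm : Monotone ρ := by
    intro m n hmn
    rw [hρ]
    have h2 : r (m ^ C) ≤ r (n ^ C) := hr (Nat.pow_le_pow_left hmn C)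
    have h3 : Nat.log 2 (m + 1) ≤ Nat.log 2 (n + 1) := Nat.log_mono_right (by omega)
    show r (m ^ C) + 9 * Nat.log 2 (m + 1) ≤ r (n ^ C) + 9 * Nat.log 2 (n + 1)
    omega
  have h8' : ∀ n, 8 ≤ ρ n := by
    intro n
    rw [hρ]
    exact (h8 _).trans (Nat.le_add_right _ _)
  have ht : ∀ t : ℕ, Ap O b fun n => t * (ρ n - 8) := by
    intro t
    induction t with
    | zero =>
      have h2 : (fun n => 0 * (ρ n - 8)) = fun _ : ℕ => 0 := by
        funext n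
        exact Nat.zero_mul _
      rw [h2]
      exact ap_zero
    | succ t ih =>
      have h2 := zoom hm h8' ih h1
      have h3 : (fun n => (t + 1) * (ρ n - 8)) = fun n => t * (ρ n - 8) + ρ n - 8 := by
        funext n
        rw [Nat.add_sub_assoc (h8' n), Nat.succ_mul]
      rw [h3]
      exact h2
  refine ap_mono (ht C) ?_
  filter_upwards [eventually_ge_atTop 1] with n hn
  refine (min_le_left _ _).trans (Nat.mul_le_mul_left _ ?_)
  have h2 : 1 ≤ Nat.log 2 (n + 1) := Nat.log_pos (by norm_num) (by omega)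
  rw [hρ]
  show r (n ^ C) + Nat.log 2 (n + 1) ≤ r (n ^ C) + 9 * Nat.log 2 (n + 1) - 8
  omega

end Pool.Agent.LibAV75
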