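import Mathlib

/-!
Row F3: numbers.
-/

namespace Pool.Agent.LibAV75

open Filter

/-- PLAN. Given `C` and `N`, use the negation for `C' := max C N + 1`: some `n ≥ C'` with
`C' * (r (n ^ C') + log) < min`, and `n ^ C ≤ n ^ C'`. -/
theorem freq_of_not {r s : ℕ → ℕ} (hr : Monotone r)
    (h : ¬ ∃ C : ℕ, ∀ n ≥ C, min (s n) (n + 1) ≤ C * (r (n ^ C) + Nat.log 2 (n + 1))) (C : ℕ) :
    ∃ᶠ n in atTop, C * (r (n ^ C) + Nat.log 2 (n + 1)) < min (s n) (n + 1) := by
  rw [Filter.frequently_atTop]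
  intro N
  by_contra hcon
  refine h ⟨max C N + 1, fun n hn => ?_⟩
  by_contra h1
  rw [not_le] at h1
  refine hcon ⟨n, by omega, lt_of_le_of_lt ?_ h1⟩
  have hn1 : 1 ≤ n := by omega
  have h2 : n ^ C ≤ n ^ (max C N + 1) := Nat.pow_le_pow_right hn1 (by omega)
  have h3 := hr h2
  exact Nat.mul_le_mul (by omega) (by omega)

private theorem f3_sq (l : ℕ) (hl : 4 ≤ l) : l * l ≤ 2 ^ l := by
  induction l, hl using Nat.le_induction with
  | base => norm_num
  | succ l hl ih =>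
    rw [pow_succ]
    nlinarith

private theorem f3_log (C n : ℕ) (hn : 2 * C * (2 * C + 4) ≤ n) :
    2 * C * Nat.log 2 (n + 1) ≤ n + 1 := by
  rcases Nat.lt_or_ge (Nat.log 2 (n + 1)) (2 * C + 4) with h | h
  · have h1 : 2 * C * Nat.log 2 (n + 1) ≤ 2 * C * (2 * C + 4) :=
      Nat.mul_le_mul_left _ h.le
    omega
  · have h1 := f3_sq (Nat.log 2 (n + 1)) (by omega)
    have h2 : 2 ^ Nat.log 2 (n + 1) ≤ n + 1 := Nat.pow_log_le_self 2 (by omega)
    have h3 : 2 * C * Nat.log 2 (n + 1) ≤ Nat.log 2 (n + 1) * Nat.log 2 (n + 1) :=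
      Nat.mul_le_mul_right _ (by omega)
    omega

/-- PLAN. `→`: `C' := max C 2`. `←`: for large `n`, `C * Nat.log 2 (n + 1) ≤ n / 2`, so
`n ≤ 2 * C * r (n ^ C)`; for `N ≥ 2 * C` (large) use `n := 2 * C * N`:
`N ≤ r ((2 * C * N) ^ C) ≤ r (N ^ (2 * C))`. -/
theorem worst_iff {r : ℕ → ℕ} (hr : Monotone r) :
    (∃ C : ℕ, ∀ n ≥ C, n + 1 ≤ C * (r (n ^ C) + Nat.log 2 (n + 1))) ↔
      ∃ C : ℕ, ∀ n ≥ C, n ≤ r (n ^ C) := by
  constructor
  · rintro ⟨C, hC⟩
    have hC1 : 1 ≤ C := by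
      by_contra h
      have h0 : C = 0 := by omega
      have h1 := hC 0 (by omega)
      rw [h0] at h1
      simp at h1
    refine ⟨2 * C * (2 * C + 4), fun N hN => ?_⟩
    have hN1 : 2 * C ≤ N := by nlinarith
    have hN2 : 1 ≤ N := by omega
    set n := 2 * C * N with hn
    have hnN : N ≤ n := by nlinarith
    have h1 := hC n (by omega)
    have h2 := f3_log C n (by omega)
    have h3 : 2 * C * N < 2 * C * r (n ^ C) := by
      have h4 : C * (r (n ^ C) + Nat.log 2 (n + 1)) =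
          C * r (n ^ C) + C * Nat.log 2 (n + 1) := Nat.mul_add _ _ _
      have h5 : 2 * C * Nat.log 2 (n + 1) = 2 * (C * Nat.log 2 (n + 1)) := by ring
      have h6 : 2 * C * r (n ^ C) = 2 * (C * r (n ^ C)) := by ring
      omega
    have h4 : N < r (n ^ C) := Nat.lt_of_mul_lt_mul_left h3
    have h5 : n ^ C ≤ N ^ (2 * C * (2 * C + 4)) := by
      calc n ^ C ≤ (N * N) ^ C := Nat.pow_le_pow_left (Nat.mul_le_mul_right N hN1) C
        _ = N ^ (2 * C) := by rw [← pow_two, ← pow_mul]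
        _ ≤ N ^ (2 * C * (2 * C + 4)) :=
          Nat.pow_le_pow_right hN2 (Nat.le_mul_of_pos_right _ (by omega))
    exact h4.le.trans (hr h5)
  · rintro ⟨C, hC⟩
    refine ⟨max C 2, fun n hn => ?_⟩
    have hn1 : 1 ≤ n := by omega
    have h1 := hC n (by omega)
    have h2 : n ^ C ≤ n ^ (max C 2) := Nat.pow_le_pow_right hn1 (le_max_left _ _)
    have h3 := hr h2
    calc n + 1 ≤ 2 * (r (n ^ max C 2) + Nat.log 2 (n + 1)) := by omega
      _ ≤ max C 2 * (r (n ^ max C 2) + Nat.log 2 (n + 1)) :=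
        Nat.mul_le_mul_right _ (le_max_right _ _)

end Pool.Agent.LibAV75
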