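import Pool.Agent.LibAV75.C7
import Pool.Agent.LibTrade92.Main

/-!
Row F4: agreement on more than half of the strings and doubly exponential time.
`Closed O h` is `Pool.Agent.LibDown92.Closed O h`: the union over `c` of nondeterministic time
`2 ^ (h(n) ^ c + c)` is closed under complement.
-/

namespace Pool.Agent.LibAV75

open Filter Function Pool.Agent.LibNexp Pool.Agent.LibBHN
open Pool.Agent.LibDown92 (NH Closed Graph)
open Pool.Agent.LibDown92 (nexp_and_nh nh_of_exists)
open Pool.Agent.LibDual85 (nexp_valLen nexp_exN)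

variable {O : List Bool → Bool}

private theorem f4_code (x : List Bool) : val (x ++ [true]) = code x := by
  induction x with
  | nil => rfl
  | cons b x ih => simp only [List.cons_append, val, code, ih]

private theorem f4_two (x : List Bool) : 2 ^ x.length ≤ code x := by
  induction x with
  | nil => simp [code]
  | cons b x ih =>
    simp only [code, List.length_cons]
    rw [pow_succ]
    omega

private theorem f4_surj (N : ℕ) : 1 ≤ N → ∃ w, code w = N := by
  induction N using Nat.strong_induction_on with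
  | _ N ih =>
    intro hN
    rcases Nat.lt_or_ge N 2 with h | h
    · exact ⟨[], by simp only [code]; omega⟩
    · obtain ⟨w, hw⟩ := ih (N / 2) (by omega) (by omega)
      refine ⟨decide (N % 2 = 1) :: w, ?_⟩
      simp only [code, hw]
      rcases Nat.mod_two_eq_zero_or_one N with h1 | h1
      · simp only [h1]
        simp
        omega
      · simp only [h1]
        simp
        omega

private theorem f4_codeRel : NEXP O fun e : Fin 2 → List Bool => code (e 0) = (e 1).length := by
  have h1 : NEXP O fun e : Fin 3 → List Bool => e 2 = e 0 ++ [true] ∧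
      val (e 2) = (e 1).length := (nexp_snoc true 0 2).and (nexp_valLen 2 1)
  refine (nexp_ex (R := fun (e : Fin 2 → List Bool) z => z = e 0 ++ [true] ∧
    val z = (e 1).length) h1 (g := fun n => n + 1) PolyB.id.succ ?_).congr fun e => ?_
  · rintro e z ⟨rfl, -⟩
    have h2 := len_le_size e 0
    rw [List.length_append, List.length_singleton]
    omega
  · constructor
    · rintro ⟨z, rfl, h⟩
      rwa [f4_code] at h
    · exact fun h => ⟨_, rfl, by rwa [f4_code]⟩

/-- The number of a pair of numbers. -/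
private def f4_lam (a b : ℕ) : ℕ := (a + b) ^ 2 + a + 1

private theorem f4_lam_inj {a b a' b' : ℕ} (h : f4_lam a b = f4_lam a' b') : a = a' ∧ b = b' := by
  unfold f4_lam at h
  have h1 : a + b = a' + b' := by
    rcases Nat.lt_trichotomy (a + b) (a' + b') with h2 | h2 | h2
    · have h3 : (a + b + 1) ^ 2 ≤ (a' + b') ^ 2 := Nat.pow_le_pow_left h2 2
      nlinarith
    · exact h2
    · have h3 : (a' + b' + 1) ^ 2 ≤ (a + b) ^ 2 := Nat.pow_le_pow_left h2 2
      nlinarith
  rw [h1] at h
  omega

private theorem f4_lamRel : NEXP O fun e : Fin 3 → List Bool =>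
    code (e 0) = f4_lam (e 1).length (e 2).length := by
  have h1 : NEXP O fun e : Fin 6 → List Bool =>
      (e 3 = e 1 ++ e 2 ∧ (e 4).length = (e 3).length ^ 2 + 1) ∧
        (e 5 = e 4 ++ e 1 ∧ code (e 0) = (e 5).length) :=
    ((nexp_append 1 2 3).and (nexp_powAdd 2 1 3 4)).and
      ((nexp_append 4 1 5).and (f4_codeRel.reindex ![0, 5]))
  refine (nexp_exN (k := 3) (m := 3) (R := fun e z =>
    (z 0 = e 1 ++ e 2 ∧ (z 1).length = (z 0).length ^ 2 + 1) ∧
      (z 2 = z 1 ++ e 1 ∧ code (e 0) = (z 2).length)) h1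
    (g := fun n => n ^ 2 + (n + 1)) ((PolyB.id.pow 2).add PolyB.id.succ)
    (fun a b hab => Nat.add_le_add (Nat.pow_le_pow_left hab 2) (by omega)) ?_).congr fun e => ?_
  · rintro e z ⟨⟨h2, h3⟩, h4, -⟩ i
    have h5 : (e 1).length + (e 2).length ≤ size e := by
      unfold size
      rw [Fin.sum_univ_three]
      omega
    have h6 : (z 0).length ≤ size e := by
      rw [h2, List.length_append]
      exact h5
    have h7 : (z 0).length ^ 2 ≤ size e ^ 2 := Nat.pow_le_pow_left h6 2
    have h8 : (z 2).length = (z 1).length + (e 1).length := by rw [h4, List.length_append]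
    have h9 : size e ≤ size e ^ 2 + (size e + 1) := by omega
    show (z i).length ≤ size e ^ 2 + (size e + 1)
    fin_cases i
    · show (z 0).length ≤ _; omega
    · show (z 1).length ≤ _; omega
    · show (z 2).length ≤ _; omega
  · constructor
    · rintro ⟨z, ⟨h2, h3⟩, h4, h5⟩
      rw [h5, h4, List.length_append, h3, h2, List.length_append]
      unfold f4_lam
      ring
    · intro h
      refine ⟨![e 1 ++ e 2, List.replicate ((e 1 ++ e 2).length ^ 2 + 1) true,
        List.replicate ((e 1 ++ e 2).length ^ 2 + 1) true ++ e 1], ⟨rfl, ?_⟩, rfl, ?_⟩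
      · show (List.replicate ((e 1 ++ e 2).length ^ 2 + 1) true).length = _
        rw [List.length_replicate]
        rfl
      · show code (e 0) = (List.replicate ((e 1 ++ e 2).length ^ 2 + 1) true ++ e 1).length
        rw [List.length_append, List.length_replicate, List.length_append, h]
        unfold f4_lam
        ring

private theorem f4_cnt_not (m : ℕ) (P : List Bool → Prop) :
    cnt m (fun x => ¬ P x) + cnt m P = 2 ^ m := by
  classical
  unfold cnt
  have h := Finset.card_filter_add_card_filter_not (s := Finset.range (2 ^ m))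
    (fun t => P (bits m t))
  rw [Finset.card_range] at h
  rw [add_comm]
  convert h

private theorem f4_cnt_congr {m : ℕ} {P Q : List Bool → Prop}
    (h : ∀ x : List Bool, x.length = m → (P x ↔ Q x)) : cnt m P = cnt m Q := by
  classical
  unfold cnt
  congr 1
  refine Finset.filter_congr fun t _ => ?_
  exact h _ (length_bits m t)

/-- PLAN. Let `num x` be the number `2 ^ |x| + val x` of the string `x` (`code` in LibBHN/Reach.lean:
`code_injective`, `code_lt`). For `L ∈ NH O (2 ^ n)` put
`U a b := ¬ ∃ x, num x = a ∧ x ∈ L`. `¬ U |e 0| |e 1|` is in NEXP: guess `x` with `|e 0| = num x`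
(`nexp_valLen` with a last letter `true`), time for `x ∈ L` is `2 ^ ((2 ^ |x|) ^ c + c)`, `2 ^ |x| ≤ |e 0|`
(`nexp_and_nh` in LibDown92/Big.lean). By `hc`, `U` is in NEXP, and
`x ∉ L ↔ ∃ y, |y| = num x ∧ U |y| 0`: in `NH O (2 ^ n)` by `nh_of_exists` (LibDown92/Big.lean). -/
theorem closed_of_cert (hc : ∀ U : ℕ → ℕ → Prop,
      NEXP O (fun e : Fin 2 → List Bool => ¬ U (e 0).length (e 1).length) →
      NEXP O fun e : Fin 2 → List Bool => U (e 0).length (e 1).length) :
    Closed O fun n => 2 ^ n := by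
  intro L hL
  have h1 : NEXP O fun e : Fin 3 → List Bool => code (e 2) = (e 0).length ∧ e 2 ∈ L := by
    refine nexp_and_nh hL (k := 3) (P := fun e => code (e 2) = (e 0).length)
      (f4_codeRel.reindex ![2, 0]) 2 (G := fun n => n) PolyB.id ?_
    intro e he
    have h2 := f4_two (e 2)
    have h3 := len_le_size e 0
    rw [he] at h2
    exact h2.trans h3
  have h2 : NEXP O fun e : Fin 2 → List Bool => ∃ x, code x = (e 0).length ∧ x ∈ L := by
    refine nexp_ex (R := fun (e : Fin 2 → List Bool) x => code x = (e 0).length ∧ x ∈ L) h1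
      (g := fun n => n) PolyB.id ?_
    rintro e z ⟨h, -⟩
    have h3 := f4_two z
    have h4 : z.length < 2 ^ z.length := Nat.lt_two_pow_self
    have h5 := len_le_size e 0
    omega
  have h3 : NEXP O fun e : Fin 2 → List Bool => ¬ ∃ x, code x = (e 0).length ∧ x ∈ L :=
    hc (fun a _ => ¬ ∃ x, code x = a ∧ x ∈ L) (h2.congr fun e => not_not.symm)
  have h4 : NEXP O fun e : Fin 2 → List Bool => code (e 0) = (e 1).length ∧
      ¬ ∃ x, code x = (e 1).length ∧ x ∈ L := f4_codeRel.and (h3.reindex ![1, 1])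
  have h5 := nh_of_exists (h := fun n => 2 ^ n) (fun n => Nat.lt_two_pow_self.le)
    (R := fun u y => code u = y.length ∧ ¬ ∃ x, code x = y.length ∧ x ∈ L) h4 (a := 2) (by
      rintro u y ⟨h, -⟩
      have h6 := code_lt u
      rw [pow_succ] at h6
      show y.length ≤ 2 * 2 ^ u.length + 2
      omega)
  have h6 : {u | ∃ y : List Bool, code u = y.length ∧ ¬ ∃ x, code x = y.length ∧ x ∈ L} =
      Lᶜ := by
    ext u
    constructor
    · rintro ⟨y, h7, h8⟩ hu
      exact h8 ⟨u, h7, hu⟩
    · intro hu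
      refine ⟨List.replicate (code u) true, (List.length_replicate ..).symm, ?_⟩
      rintro ⟨x, hx, hxL⟩
      rw [List.length_replicate] at hx
      rw [code_injective hx] at hxL
      exact hu hxL
  rw [h6] at h5
  exact h5

/-- PLAN. Conversely: `W := {w | ∃ a b, num w = (a + b) ^ 2 + a ∧ ¬ U a b}` is in `NH O (2 ^ n)`
(`nh_of_exists`: there are strings `y`, `z` of lengths `a`, `b < 2 ^ (|w| + 1)`), so its complement, and
`U a b ↔ ∃ w, num w = (a + b) ^ 2 + a ∧ w ∉ W`, in NEXP by `nexp_and_nh` (`2 ^ |w| ≤ num w`,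
polynomial in `a + b`). See also `nexp_P10R1` in LibDown92/Top.lean. -/
theorem cert_of_closed (hC : Closed O fun n => 2 ^ n) (U : ℕ → ℕ → Prop)
    (hU : NEXP O fun e : Fin 2 → List Bool => ¬ U (e 0).length (e 1).length) :
    NEXP O fun e : Fin 2 → List Bool => U (e 0).length (e 1).length := by
  set W : Lang := {w | ∃ a b : ℕ, code w = f4_lam a b ∧ ¬ U a b} with hW
  have h1 : NEXP O fun e : Fin 4 → List Bool => e 1 = pair (e 2) (e 3) ∧
      (code (e 0) = f4_lam (e 2).length (e 3).length ∧ ¬ U (e 2).length (e 3).length) :=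
    (((nexp_pairRel (O := O)).reindex ![2, 3, 1]).congr fun e => by simp).and
      ((f4_lamRel.reindex ![0, 2, 3]).and (hU.reindex ![2, 3]))
  have h2 : NEXP O fun e : Fin 2 → List Bool => ∃ a b : List Bool, e 1 = pair a b ∧
      (code (e 0) = f4_lam a.length b.length ∧ ¬ U a.length b.length) := by
    refine nexp_ex2 (R := fun (e : Fin 2 → List Bool) a b => e 1 = pair a b ∧
      (code (e 0) = f4_lam a.length b.length ∧ ¬ U a.length b.length)) h1
      (g := fun n => n) PolyB.id (fun a b hab => hab) ?_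
    rintro e a b ⟨h, -⟩
    have h3 := len_le_size e 1
    rw [h, length_pair] at h3
    constructor <;> omega
  have h3 := nh_of_exists (h := fun n => 2 ^ n) (fun n => Nat.lt_two_pow_self.le)
    (R := fun u y => ∃ a b : List Bool, y = pair a b ∧
      (code u = f4_lam a.length b.length ∧ ¬ U a.length b.length)) h2 (a := 8) (by
      rintro u y ⟨a, b, rfl, h, -⟩
      have h6 := code_lt u
      rw [pow_succ] at h6
      rw [length_pair]
      show 2 * a.length + b.length + 2 ≤ 8 * 2 ^ u.length + 8
      unfold f4_lam at h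
      have h7 : a.length + b.length ≤ (a.length + b.length) ^ 2 :=
        Nat.le_self_pow (by norm_num) _
      omega)
  have h4 : {u | ∃ y : List Bool, ∃ a b : List Bool, y = pair a b ∧
      (code u = f4_lam a.length b.length ∧ ¬ U a.length b.length)} = W := by
    ext u
    constructor
    · rintro ⟨y, a, b, -, h5, h6⟩
      exact ⟨a.length, b.length, h5, h6⟩
    · rintro ⟨a, b, h5, h6⟩
      refine ⟨_, List.replicate a true, List.replicate b true, rfl, ?_⟩
      rw [List.length_replicate, List.length_replicate]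
      exact ⟨h5, h6⟩
  rw [h4] at h3
  have h5 := hC W h3
  have h6 : NEXP O fun e : Fin 3 → List Bool =>
      code (e 2) = f4_lam (e 0).length (e 1).length ∧ e 2 ∈ Wᶜ := by
    refine nexp_and_nh h5 (k := 3) (P := fun e => code (e 2) = f4_lam (e 0).length (e 1).length)
      (f4_lamRel.reindex ![2, 0, 1]) 2 (G := fun n => n ^ 2 + (n + 1))
      ((PolyB.id.pow 2).add PolyB.id.succ) ?_
    intro e he
    have h7 := f4_two (e 2)
    rw [he] at h7
    refine h7.trans ?_
    have h8 : (e 0).length + (e 1).length ≤ size e := by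
      unfold size
      rw [Fin.sum_univ_three]
      omega
    have h9 : ((e 0).length + (e 1).length) ^ 2 ≤ size e ^ 2 := Nat.pow_le_pow_left h8 2
    unfold f4_lam
    omega
  refine (nexp_ex (R := fun (e : Fin 2 → List Bool) w =>
    code w = f4_lam (e 0).length (e 1).length ∧ w ∈ Wᶜ) h6 (g := fun n => n ^ 2 + (n + 1))
    ((PolyB.id.pow 2).add PolyB.id.succ) ?_).congr fun e => ?_
  · rintro e z ⟨h, -⟩
    have h7 := f4_two z
    rw [h] at h7
    have h8 : (e 0).length + (e 1).length ≤ size e := by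
      unfold size
      rw [Fin.sum_univ_two]
    have h9 : ((e 0).length + (e 1).length) ^ 2 ≤ size e ^ 2 := Nat.pow_le_pow_left h8 2
    have h10 : z.length < 2 ^ z.length := Nat.lt_two_pow_self
    unfold f4_lam at h7
    show z.length ≤ size e ^ 2 + (size e + 1)
    omega
  · constructor
    · rintro ⟨w, h7, h8⟩
      by_contra h9
      exact h8 ⟨_, _, h7, h9⟩
    · intro h7
      obtain ⟨w, hw⟩ := f4_surj (f4_lam (e 0).length (e 1).length) (by unfold f4_lam; omega)
      refine ⟨w, hw, ?_⟩
      rintro ⟨a, b, h8, h9⟩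
      rw [hw] at h8
      obtain ⟨rfl, rfl⟩ := f4_lam_inj h8
      exact h9 h7

/-- PLAN. For `L ∈ NEXP` let `c := cnt m (· ∈ L)`. Certified facts (`hc`): `U₁ m := 2 * c < 2 ^ m`,
`U₂ m := 2 * c ≤ 2 ^ m` (negations in NEXP: `nexp_half`, `nexp_more`).
`N := {x | U₁ |x|} ∪ {x | U₂ |x| ∧ 2 ^ |x| ≤ 2 * cnt |x| (fun y => y ∈ L ∧ y ≠ x)}`.
If `2 * c < 2 ^ m`: `N` is everything, errors `c`. If `2 * c > 2 ^ m`: `N` is empty, errors
`2 ^ m - c`. If `2 * c = 2 ^ m`: `x ∈ N ↔ x ∉ L` (`cnt_mem`, `cnt_notMem`), no errors. -/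
theorem more_of_cert (hc : ∀ U : ℕ → ℕ → Prop,
      NEXP O (fun e : Fin 2 → List Bool => ¬ U (e 0).length (e 1).length) →
      NEXP O fun e : Fin 2 → List Bool => U (e 0).length (e 1).length) : More O := by
  intro L hL
  have hm : NEXP O fun e : Fin (2 + 1) → List Bool => e (Fin.last 2) ∈ L := nexp_mem hL _
  have hhalf : NEXP O fun e : Fin 2 → List Bool =>
      2 ^ (e 0).length ≤ 2 * cnt (e 0).length fun y => y ∈ L :=
    nexp_half (R := fun (_ : Fin 2 → List Bool) y => y ∈ L) hm 0
  have hmore : NEXP O fun e : Fin 2 → List Bool =>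
      2 ^ (e 0).length < 2 * cnt (e 0).length fun y => y ∈ L :=
    nexp_more (R := fun (_ : Fin 2 → List Bool) y => y ∈ L) hm 0
  have h1 := hc (fun a _ => 2 * cnt a (fun y => y ∈ L) < 2 ^ a)
    (hhalf.congr fun e => not_lt.symm)
  have h2 := hc (fun a _ => 2 * cnt a (fun y => y ∈ L) ≤ 2 ^ a)
    (hmore.congr fun e => not_le.symm)
  have h3 : NEXP O fun e : Fin 1 → List Bool =>
      2 ^ (e 0).length ≤ 2 * cnt (e 0).length fun y => y ∈ L ∧ y ≠ e 0 :=
    nexp_half (k := 1) (R := fun e y => y ∈ L ∧ y ≠ e 0) ((nexp_mem hL 1).and (nexp_ne 1 0)) 0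
  refine ⟨{x | 2 * cnt x.length (fun y => y ∈ L) < 2 ^ x.length ∨
    (2 * cnt x.length (fun y => y ∈ L) ≤ 2 ^ x.length ∧
      2 ^ x.length ≤ 2 * cnt x.length fun y => y ∈ L ∧ y ≠ x)},
    (h1.reindex ![0, 0]).or ((h2.reindex ![0, 0]).and h3), Eventually.of_forall fun m => ?_⟩
  have hpos : 0 < 2 ^ m := by positivity
  rcases Nat.lt_trichotomy (2 * cnt m fun y => y ∈ L) (2 ^ m) with h | h | h
  · have h4 : err Lᶜ {x | 2 * cnt x.length (fun y => y ∈ L) < 2 ^ x.length ∨
        (2 * cnt x.length (fun y => y ∈ L) ≤ 2 ^ x.length ∧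
          2 ^ x.length ≤ 2 * cnt x.length fun y => y ∈ L ∧ y ≠ x)} m =
        cnt m fun y => y ∈ L := by
      refine f4_cnt_congr fun x hx => ?_
      simp only [Set.mem_compl_iff, Set.mem_ofPred_eq, hx]
      tauto
    rw [h4]
    exact h
  · have h4 : err Lᶜ {x | 2 * cnt x.length (fun y => y ∈ L) < 2 ^ x.length ∨
        (2 * cnt x.length (fun y => y ∈ L) ≤ 2 ^ x.length ∧
          2 ^ x.length ≤ 2 * cnt x.length fun y => y ∈ L ∧ y ≠ x)} m =
        cnt m fun _ => False := by
      refine f4_cnt_congr fun x hx => ?_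
      simp only [Set.mem_compl_iff, Set.mem_ofPred_eq, hx]
      subst hx
      by_cases hxL : x ∈ L
      · have h5 := cnt_mem (P := fun y => y ∈ L) hxL
        have h6 : ¬ (2 * cnt x.length (fun y => y ∈ L) < 2 ^ x.length) := by omega
        have h7 : ¬ (2 ^ x.length ≤ 2 * cnt x.length fun y => y ∈ L ∧ y ≠ x) := by omega
        tauto
      · have h5 := cnt_notMem (P := fun y => y ∈ L) (n := x.length) hxL
        simp only [hxL, not_false_eq_true, true_iff, not_not, iff_false]
        exact Or.inr ⟨h.le, by rw [h5]; exact h.ge⟩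
    have h5 : (cnt m fun _ => False) = 0 := by
      unfold cnt
      simp
    rw [h4, h5]
    exact hpos
  · have h4 : err Lᶜ {x | 2 * cnt x.length (fun y => y ∈ L) < 2 ^ x.length ∨
        (2 * cnt x.length (fun y => y ∈ L) ≤ 2 ^ x.length ∧
          2 ^ x.length ≤ 2 * cnt x.length fun y => y ∈ L ∧ y ≠ x)} m =
        cnt m fun y => ¬ y ∈ L := by
      refine f4_cnt_congr fun x hx => ?_
      simp only [Set.mem_compl_iff, Set.mem_ofPred_eq, hx]
      have h6 : ¬ (2 * cnt m (fun y => y ∈ L) < 2 ^ m) := by omega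
      have h7 : ¬ (2 * cnt m (fun y => y ∈ L) ≤ 2 ^ m) := by omega
      tauto
    have h5 := f4_cnt_not m fun y => y ∈ L
    rw [h4]
    omega

end Pool.Agent.LibAV75
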