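import Mathlib

/-!
Row M1: patterns of 14 and 15 independent elements. Pure counting.
-/

namespace Pool.Agent.LibAV75

open Finset Classical

variable {Ω : Type} [Fintype Ω]

private theorem M1_subsets :
    9908 ≤ (univ.filter fun s : Finset (Fin 14) => 7 ≤ s.card).card := by
  have h1 : (Finset.Icc 7 14).biUnion (fun k => powersetCard k (univ : Finset (Fin 14))) ⊆
      univ.filter fun s : Finset (Fin 14) => 7 ≤ s.card := by
    intro s hs
    rw [Finset.mem_biUnion] at hs
    obtain ⟨k, hk, hs⟩ := hs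
    rw [Finset.mem_powersetCard] at hs
    rw [Finset.mem_filter]
    refine ⟨Finset.mem_univ _, ?_⟩
    rw [hs.2]
    exact (Finset.mem_Icc.1 hk).1
  refine le_trans ?_ (Finset.card_le_card h1)
  rw [Finset.card_biUnion]
  · simp only [Finset.card_powersetCard, Finset.card_univ, Fintype.card_fin]
    decide
  · intro a _ b _ hab
    exact Finset.pairwise_disjoint_powersetCard _ hab

/-- PLAN. Sum over the patterns `s ⊆ Fin 14` with at least 7 elements (there are
`∑ i ∈ {7, ..., 14}, C(14, i) = 9908`): the `Y` with `{i | f (Y i)} = s` are at least `μ ^ 14` (a product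
of 14 factors, each the number of elements of `Ω` with `f` or without `f`;
`Fintype.card_piFinset`). -/
theorem m1_pat (f : Ω → Prop) {μ : ℕ} (h1 : μ ≤ (univ.filter fun x => f x).card)
    (h2 : μ ≤ (univ.filter fun x => ¬ f x).card) :
    9908 * μ ^ 14 ≤ (univ.filter fun Y : Fin 14 → Ω =>
      7 ≤ (univ.filter fun i => f (Y i)).card).card := by
  obtain ⟨S, hS⟩ : ∃ S, S = univ.filter fun s : Finset (Fin 14) => 7 ≤ s.card := ⟨_, rfl⟩
  have h3 : S.biUnion (fun s => Fintype.piFinset fun i : Fin 14 =>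
      if i ∈ s then univ.filter fun x => f x else univ.filter fun x => ¬ f x) ⊆
      univ.filter fun Y : Fin 14 → Ω => 7 ≤ (univ.filter fun i => f (Y i)).card := by
    intro Y hY
    rw [Finset.mem_biUnion] at hY
    obtain ⟨s, hs, hY⟩ := hY
    rw [Fintype.mem_piFinset] at hY
    rw [Finset.mem_filter]
    refine ⟨Finset.mem_univ _, ?_⟩
    rw [hS, Finset.mem_filter] at hs
    refine hs.2.trans (Finset.card_le_card fun i hi => ?_)
    have h4 := hY i
    rw [if_pos hi, Finset.mem_filter] at h4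
    rw [Finset.mem_filter]
    exact ⟨Finset.mem_univ _, h4.2⟩
  refine le_trans ?_ (Finset.card_le_card h3)
  rw [Finset.card_biUnion]
  · have h4 : ∀ s ∈ S, μ ^ 14 ≤ (Fintype.piFinset fun i : Fin 14 =>
        if i ∈ s then univ.filter fun x => f x else univ.filter fun x => ¬ f x).card := by
      intro s _
      rw [Fintype.card_piFinset]
      calc μ ^ 14 = ∏ _i : Fin 14, μ := by simp
        _ ≤ _ := Finset.prod_le_prod' fun i _ => by
            split_ifs
            · exact h1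
            · exact h2
    calc 9908 * μ ^ 14 ≤ S.card * μ ^ 14 := by
          rw [hS]
          exact Nat.mul_le_mul_right _ M1_subsets
      _ = ∑ _s ∈ S, μ ^ 14 := by rw [Finset.sum_const, smul_eq_mul]
      _ ≤ _ := Finset.sum_le_sum h4
  · intro s _ t _ hst
    refine Finset.disjoint_left.2 ?_
    intro Y hY hY'
    rw [Fintype.mem_piFinset] at hY hY'
    apply hst
    have key : ∀ (u : Finset (Fin 14)), (∀ i, Y i ∈ (if i ∈ u then univ.filter fun x => f x
        else univ.filter fun x => ¬ f x)) → ∀ i, i ∈ u ↔ f (Y i) := by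
      intro u hu i
      have h4 := hu i
      by_cases hi : i ∈ u
      · rw [if_pos hi, Finset.mem_filter] at h4
        exact ⟨fun _ => h4.2, fun _ => hi⟩
      · rw [if_neg hi, Finset.mem_filter] at h4
        exact ⟨fun h => absurd h hi, fun h => absurd h h4.2⟩
    ext i
    rw [key s hY i, key t hY' i]

/-- PLAN. `Fin.insertNthEquiv`: the `Z : Fin 15 → Ω` with `Z i = X` correspond to
`Y : Fin 14 → Ω`. -/
theorem m1_pos (f : Ω → Prop) {μ : ℕ} (h1 : μ ≤ (univ.filter fun x => f x).card)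
    (h2 : μ ≤ (univ.filter fun x => ¬ f x).card) (i : Fin 15) {X : Ω} (hX : f X) :
    9908 * μ ^ 14 ≤ (univ.filter fun Z : Fin 15 → Ω => Z i = X ∧
      8 ≤ (univ.filter fun j => f (Z j)).card).card := by
  refine (m1_pat f h1 h2).trans ?_
  refine Finset.card_le_card_of_injOn (fun Y : Fin 14 → Ω => (i.insertNth X Y : Fin 15 → Ω))
    ?_ ?_
  · intro Y hY
    rw [Finset.mem_coe, Finset.mem_filter] at hY ⊢
    refine ⟨Finset.mem_univ _, Fin.insertNth_apply_same _ _ _, ?_⟩
    have h3 : (univ.filter fun j => f ((i.insertNth X Y : Fin 15 → Ω) j)).card =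
        1 + (univ.filter fun j => f (Y j)).card := by
      rw [Finset.card_filter, Fin.sum_univ_succAbove _ i, Fin.insertNth_apply_same, if_pos hX,
        Finset.card_filter]
      congr 1
      exact Finset.sum_congr rfl fun j _ => by rw [Fin.insertNth_apply_succAbove]
    rw [h3]
    have := hY.2
    omega
  · intro Y _ Y' _ h
    funext j
    have h3 := congrFun h (i.succAbove j)
    simpa only [Fin.insertNth_apply_succAbove] using h3

/-- PLAN. `m1_pos` for `¬ f`: `¬ 8 ≤ #{j | f (Z j)}` iff `8 ≤ #{j | ¬ f (Z j)}`. -/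
theorem m1_neg (f : Ω → Prop) {μ : ℕ} (h1 : μ ≤ (univ.filter fun x => f x).card)
    (h2 : μ ≤ (univ.filter fun x => ¬ f x).card) (i : Fin 15) {X : Ω} (hX : ¬ f X) :
    9908 * μ ^ 14 ≤ (univ.filter fun Z : Fin 15 → Ω => Z i = X ∧
      ¬ 8 ≤ (univ.filter fun j => f (Z j)).card).card := by
  have h3 := m1_pos (fun x => ¬ f x) (μ := μ) (by convert h2)
    (by simpa only [not_not] using h1) i hX
  refine h3.trans (Finset.card_le_card fun Z hZ => ?_)
  rw [Finset.mem_filter] at hZ ⊢
  refine ⟨Finset.mem_univ _, hZ.2.1, ?_⟩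
  have h4 : 8 ≤ (univ.filter fun j => ¬ f (Z j)).card := by convert hZ.2.2
  have h5 : (univ.filter fun j => f (Z j)).card + (univ.filter fun j => ¬ f (Z j)).card = 15 := by
    have h6 := Finset.card_filter_add_card_filter_not (s := (univ : Finset (Fin 15)))
      (fun j => f (Z j))
    rw [Finset.card_univ, Fintype.card_fin] at h6
    convert h6
  omega

/-- PLAN. `(2 ^ 11 - 1) ^ 14 * 9908 * 5 ≥ 3 * 2 ^ (12 * 14)` (`norm_num`), so
`9908 * μ ^ 14 ≥ (3 / 5) * N ^ 14` if `2 ^ 12 * μ ≥ (2 ^ 11 - 1) * N`. -/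
theorem m1_num {N μ : ℕ} (h : (2 ^ 11 - 1) * N ≤ 2 ^ 12 * μ) :
    3 * N ^ 14 ≤ 5 * (9908 * μ ^ 14) := by
  have h1 : ((2 ^ 11 - 1) * N) ^ 14 ≤ (2 ^ 12 * μ) ^ 14 := Nat.pow_le_pow_left h 14
  rw [mul_pow, mul_pow] at h1
  have h2 : 3 * (2 ^ 12) ^ 14 ≤ 5 * 9908 * (2 ^ 11 - 1) ^ 14 := by norm_num
  have h3 : (2 ^ 12) ^ 14 * (3 * N ^ 14) ≤ (2 ^ 12) ^ 14 * (5 * (9908 * μ ^ 14)) := by
    calc (2 ^ 12) ^ 14 * (3 * N ^ 14) = 3 * (2 ^ 12) ^ 14 * N ^ 14 := by ring
      _ ≤ 5 * 9908 * (2 ^ 11 - 1) ^ 14 * N ^ 14 := Nat.mul_le_mul_right _ h2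
      _ = 5 * 9908 * ((2 ^ 11 - 1) ^ 14 * N ^ 14) := by rw [mul_assoc]
      _ ≤ 5 * 9908 * ((2 ^ 12) ^ 14 * μ ^ 14) := Nat.mul_le_mul_left _ h1
      _ = (2 ^ 12) ^ 14 * (5 * (9908 * μ ^ 14)) := by ring
  exact Nat.le_of_mul_le_mul_left h3 (by positivity)

private theorem M1_pair (B : Finset Ω) {i j : Fin 15} (hij : i < j) :
    (univ.filter fun Z : Fin 15 → Ω => Z i ∈ B ∧ Z j ∈ B).card =
      B.card ^ 2 * Fintype.card Ω ^ 13 := by
  have h1 : (univ.filter fun Z : Fin 15 → Ω => Z i ∈ B ∧ Z j ∈ B) =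
      Fintype.piFinset fun l : Fin 15 => if l ∈ ({i, j} : Finset (Fin 15)) then B else univ := by
    ext Z
    rw [Finset.mem_filter, Fintype.mem_piFinset]
    constructor
    · rintro ⟨-, h2, h3⟩ l
      split_ifs with hl
      · rcases Finset.mem_insert.1 hl with rfl | hl
        · exact h2
        · rw [Finset.mem_singleton.1 hl]
          exact h3
      · exact Finset.mem_univ _
    · intro h
      refine ⟨Finset.mem_univ _, ?_, ?_⟩
      · have := h i
        rwa [if_pos (Finset.mem_insert_self _ _)] at this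
      · have := h j
        rwa [if_pos (Finset.mem_insert_of_mem (Finset.mem_singleton_self _))] at this
  have h2 : ({i, j} : Finset (Fin 15)).card = 2 := Finset.card_pair hij.ne
  have h3 : (univ \ ({i, j} : Finset (Fin 15))).card = 13 := by
    rw [Finset.card_sdiff_of_subset (Finset.subset_univ _), h2, Finset.card_univ,
      Fintype.card_fin]
  rw [h1, Fintype.card_piFinset, ← Finset.prod_sdiff (Finset.subset_univ ({i, j} : Finset _))]
  rw [Finset.prod_congr rfl (g := fun _ => Fintype.card Ω) (fun l hl => by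
      rw [if_neg (Finset.mem_sdiff.1 hl).2, Finset.card_univ]),
    Finset.prod_congr (s₁ := ({i, j} : Finset _)) rfl (g := fun _ => B.card) (fun l hl => by
      rw [if_pos hl]), Finset.prod_const, Finset.prod_const, h2, h3, mul_comm]

/-- PLAN. For `Z ∈ E`, the number `t` of `i` with `Z i ∈ B` satisfies `t ≤ 1 + t * (t - 1) / 2`, and
`∑ over all Z` of the number of pairs `i < j` with `Z i, Z j ∈ B` is `105 * B.card ^ 2 * N ^ 13`. -/
theorem m1_double (E : Finset (Fin 15 → Ω)) (B : Finset Ω) :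
    ∑ i : Fin 15, (E.filter fun Z => Z i ∈ B).card ≤
      E.card + 105 * B.card ^ 2 * Fintype.card Ω ^ 13 := by
  obtain ⟨P, hP⟩ : ∃ P, P = univ.filter fun p : Fin 15 × Fin 15 => p.1 < p.2 := ⟨_, rfl⟩
  have hPc : P.card = 105 := by
    rw [hP]
    decide
  have h1 : ∀ Z : Fin 15 → Ω, (univ.filter fun i => Z i ∈ B).card ≤
      1 + (P.filter fun p => Z p.1 ∈ B ∧ Z p.2 ∈ B).card := by
    intro Z
    obtain ⟨T, hT⟩ : ∃ T, T = univ.filter fun i => Z i ∈ B := ⟨_, rfl⟩
    rw [← hT]
    rcases T.eq_empty_or_nonempty with h0 | h0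
    · rw [h0]
      simp
    · have hm := T.min'_mem h0
      have hTB : ∀ i ∈ T, Z i ∈ B := by
        intro i hi
        rw [hT, Finset.mem_filter] at hi
        exact hi.2
      have h2 : (T.erase (T.min' h0)).card ≤
          (P.filter fun p => Z p.1 ∈ B ∧ Z p.2 ∈ B).card := by
        refine Finset.card_le_card_of_injOn (fun j => (T.min' h0, j)) ?_ ?_
        · intro j hj
          rw [Finset.mem_coe, Finset.mem_erase] at hj
          rw [Finset.mem_coe, Finset.mem_filter, hP, Finset.mem_filter]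
          have h3 := T.min'_le j hj.2
          exact ⟨⟨Finset.mem_univ _, lt_of_le_of_ne h3 (Ne.symm hj.1)⟩, hTB _ hm, hTB _ hj.2⟩
        · intro a _ b _ hab
          exact (Prod.ext_iff.1 hab).2
      rw [Finset.card_erase_of_mem hm] at h2
      omega
  have h2 : ∑ i : Fin 15, (E.filter fun Z => Z i ∈ B).card =
      ∑ Z ∈ E, (univ.filter fun i => Z i ∈ B).card := by
    simp only [Finset.card_filter]
    exact Finset.sum_comm
  have h3 : ∑ Z ∈ E, (P.filter fun p => Z p.1 ∈ B ∧ Z p.2 ∈ B).card ≤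
      105 * B.card ^ 2 * Fintype.card Ω ^ 13 := by
    calc ∑ Z ∈ E, (P.filter fun p => Z p.1 ∈ B ∧ Z p.2 ∈ B).card
        ≤ ∑ Z : Fin 15 → Ω, (P.filter fun p => Z p.1 ∈ B ∧ Z p.2 ∈ B).card :=
          Finset.sum_le_univ_sum_of_nonneg fun _ => Nat.zero_le _
      _ = ∑ p ∈ P, (univ.filter fun Z : Fin 15 → Ω => Z p.1 ∈ B ∧ Z p.2 ∈ B).card := by
          simp only [Finset.card_filter]
          exact Finset.sum_comm
      _ = ∑ _p ∈ P, B.card ^ 2 * Fintype.card Ω ^ 13 := by
          refine Finset.sum_congr rfl fun p hp => ?_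
          rw [hP, Finset.mem_filter] at hp
          exact M1_pair B hp.2
      _ = 105 * B.card ^ 2 * Fintype.card Ω ^ 13 := by
          rw [Finset.sum_const, hPc, smul_eq_mul, mul_assoc]
  calc ∑ i : Fin 15, (E.filter fun Z => Z i ∈ B).card
      = ∑ Z ∈ E, (univ.filter fun i => Z i ∈ B).card := h2
    _ ≤ ∑ Z ∈ E, (1 + (P.filter fun p => Z p.1 ∈ B ∧ Z p.2 ∈ B).card) :=
        Finset.sum_le_sum fun Z _ => h1 Z
    _ = E.card + ∑ Z ∈ E, (P.filter fun p => Z p.1 ∈ B ∧ Z p.2 ∈ B).card := by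
        rw [Finset.sum_add_distrib, Finset.sum_const, smul_eq_mul, mul_one]
    _ ≤ _ := Nat.add_le_add_left h3 _

end Pool.Agent.LibAV75
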