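import Pool.Agent.LibAV75.M1

/-!
Row M2: decoding one majority of 15, abstract form.
-/

namespace Pool.Agent.LibAV75

open Finset Classical

variable {Ω : Type} [Fintype Ω]

private theorem m2_fix (i : Fin 15) (X : Ω) :
    (univ.filter fun Z : Fin 15 → Ω => Z i = X).card = Fintype.card Ω ^ 14 := by
  have h : (univ : Finset (Fin 14 → Ω)).card = Fintype.card Ω ^ 14 := by
    rw [Finset.card_univ, Fintype.card_fun, Fintype.card_fin]
  rw [← h]
  refine Finset.card_nbij' (fun Z => i.removeNth Z) (fun Y => i.insertNth X Y) ?_ ?_ ?_ ?_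
  · intro Z _
    simp
  · intro Y _
    simp
  · intro Z hZ
    have hZ' : Z i = X := by simpa using hZ
    simp only
    rw [← hZ', Fin.insertNth_self_removeNth]
  · intro Y _
    simp

private theorem m2_compl (P : (Fin 15 → Ω) → Prop) [DecidablePred P] (i : Fin 15) (X : Ω) :
    (univ.filter fun Z : Fin 15 → Ω => Z i = X ∧ P Z).card +
      (univ.filter fun Z : Fin 15 → Ω => Z i = X ∧ ¬ P Z).card = Fintype.card Ω ^ 14 := by
  rw [← m2_fix i X, ← Finset.card_filter_add_card_filter_not (s := univ.filter fun Z : Fin 15 → Ω => Z i = X) P,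
    Finset.filter_filter, Finset.filter_filter]

private theorem m2_split {Ω : Type} [Fintype Ω] (f : Ω → Prop) :
    (univ.filter fun x => f x).card + (univ.filter fun x => ¬ f x).card = Fintype.card Ω := by
  have h := Finset.card_filter_add_card_filter_not (s := (univ : Finset Ω)) (fun x => f x)
  rw [Finset.card_univ] at h
  rw [← h]

private theorem m2_mu (f : Ω → Prop)
    (h1 : (2 ^ 11 - 1) * Fintype.card Ω ≤ 2 ^ 12 * (univ.filter fun x => f x).card)
    (h2 : 2 ^ 12 * (univ.filter fun x => f x).card ≤ (2 ^ 11 + 1) * Fintype.card Ω) :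
    ∃ μ : ℕ, μ ≤ (univ.filter fun x => f x).card ∧ μ ≤ (univ.filter fun x => ¬ f x).card ∧
      3 * Fintype.card Ω ^ 14 ≤ 5 * (9908 * μ ^ 14) := by
  have h := m2_split f
  refine ⟨min (univ.filter fun x => f x).card (univ.filter fun x => ¬ f x).card, min_le_left _ _,
    min_le_right _ _, m1_num ?_⟩
  rcases le_total (univ.filter fun x => f x).card (univ.filter fun x => ¬ f x).card with h3 | h3
  · rw [min_eq_left h3]
    exact h1
  · rw [min_eq_right h3]
    omega

/-- PLAN. Let `N` be the cardinality of `Ω`, `F Z := 8 ≤ #{i | f (Z i)}`, `E` the set of `Z` with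
`¬ (F Z ↔ M Z)`, `B` the set of misclassified `X`. For `X ∈ B`: if `f X` then
`2 * ∑ i, #{Z | Z i = X ∧ M Z} < 15 * N ^ 14` and `∑ i, #{Z | Z i = X ∧ F Z} ≥ (3 / 5) * 15 * N ^ 14`
(`m1_pos`, `m1_num`), so `∑ i, #{Z ∈ E | Z i = X} ≥ (1 / 10) * 15 * N ^ 14`; the same for `¬ f X` (`m1_neg`;
`∑ i #{Z | Z i = X} = 15 * N ^ 14`). Hence for every `B' ⊆ B` (`m1_double`):
`(3 / 2) * N ^ 14 * B'.card ≤ E.card + 105 * B'.card ^ 2 * N ^ 13`. If `256 * B.card ≥ N` take `B'` with
`B'.card = N / 256`: `(3 / 2) / 256 ≤ 1 / 256 + 105 / 65536`, false (`N > 0`). So `256 * B.card < N` and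
`(3 / 2 - 105 / 256) * N ^ 14 * B.card ≤ E.card`, and `3 / 2 - 105 / 256 > 13 / 12`. -/
theorem m2 (f : Ω → Prop) (M : (Fin 15 → Ω) → Prop) (hd : 256 ∣ Fintype.card Ω)
    (h1 : (2 ^ 11 - 1) * Fintype.card Ω ≤ 2 ^ 12 * (univ.filter fun x => f x).card)
    (h2 : 2 ^ 12 * (univ.filter fun x => f x).card ≤ (2 ^ 11 + 1) * Fintype.card Ω)
    (h3 : 2 ^ 8 * (univ.filter fun Z : Fin 15 → Ω =>
      ¬ (8 ≤ (univ.filter fun i => f (Z i)).card ↔ M Z)).card ≤ Fintype.card Ω ^ 15) :
    13 * (Fintype.card Ω ^ 14 * (univ.filter fun X : Ω => ¬ (f X ↔ 15 * Fintype.card Ω ^ 14 ≤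
      2 * ∑ i : Fin 15, (univ.filter fun Z : Fin 15 → Ω => Z i = X ∧ M Z).card)).card) ≤
    12 * (univ.filter fun Z : Fin 15 → Ω =>
      ¬ (8 ≤ (univ.filter fun i => f (Z i)).card ↔ M Z)).card := by
  set N := Fintype.card Ω with hN
  set E := univ.filter fun Z : Fin 15 → Ω => ¬ (8 ≤ (univ.filter fun i => f (Z i)).card ↔ M Z) with hE
  set B := univ.filter fun X : Ω => ¬ (f X ↔ 15 * N ^ 14 ≤
      2 * ∑ i : Fin 15, (univ.filter fun Z : Fin 15 → Ω => Z i = X ∧ M Z).card) with hB
  obtain ⟨μ, hm1, hm2, hm3⟩ := m2_mu f h1 h2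
  rw [← hN] at hm3
  -- one element of `B`
  have hone : ∀ X ∈ B, 3 * N ^ 14 ≤ 2 * ∑ i : Fin 15, (E.filter fun Z => Z i = X).card := by
    intro X hX
    rw [hB, Finset.mem_filter] at hX
    have hX2 := hX.2
    by_cases hf : f X
    · have h4 : 2 * ∑ i : Fin 15, (univ.filter fun Z : Fin 15 → Ω => Z i = X ∧ M Z).card < 15 * N ^ 14 := by
        by_contra hc
        exact hX2 ⟨fun _ => not_lt.1 hc, fun _ => hf⟩
      have h5 : ∀ i : Fin 15, 9908 * μ ^ 14 ≤ (univ.filter fun Z : Fin 15 → Ω => Z i = X ∧ M Z).card +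
          (E.filter fun Z => Z i = X).card := by
        intro i
        refine (m1_pos f hm1 hm2 i hf).trans ((Finset.card_le_card ?_).trans (Finset.card_union_le _ _))
        intro Z hZ
        rw [Finset.mem_filter] at hZ
        rw [Finset.mem_union, Finset.mem_filter, Finset.mem_filter, hE, Finset.mem_filter]
        by_cases hM : M Z
        · exact Or.inl ⟨Finset.mem_univ _, hZ.2.1, hM⟩
        · exact Or.inr ⟨⟨Finset.mem_univ _, fun h => hM (h.1 hZ.2.2)⟩, hZ.2.1⟩
      have h6 := Finset.sum_le_sum fun i (_ : i ∈ (univ : Finset (Fin 15))) => h5 i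
      rw [Finset.sum_add_distrib, Finset.sum_const, Finset.card_univ, Fintype.card_fin, smul_eq_mul] at h6
      omega
    · have h4 : 15 * N ^ 14 ≤ 2 * ∑ i : Fin 15, (univ.filter fun Z : Fin 15 → Ω => Z i = X ∧ M Z).card := by
        by_contra hc
        exact hX2 ⟨fun h => absurd h hf, fun h => absurd h hc⟩
      have h5 : ∀ i : Fin 15, (univ.filter fun Z : Fin 15 → Ω => Z i = X ∧ M Z).card + 9908 * μ ^ 14 ≤ N ^ 14 +
          (E.filter fun Z => Z i = X).card := by
        intro i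
        have h6 := m1_neg f hm1 hm2 i hf
        have h7 := m2_compl (fun Z : Fin 15 → Ω => 8 ≤ (univ.filter fun j => f (Z j)).card) i X
        rw [← hN] at h7
        have h8 : (univ.filter fun Z : Fin 15 → Ω => Z i = X ∧ M Z).card ≤
            (univ.filter fun Z : Fin 15 → Ω => Z i = X ∧ 8 ≤ (univ.filter fun j => f (Z j)).card).card +
            (E.filter fun Z => Z i = X).card := by
          refine (Finset.card_le_card ?_).trans (Finset.card_union_le _ _)
          intro Z hZ
          rw [Finset.mem_filter] at hZ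
          rw [Finset.mem_union, Finset.mem_filter, Finset.mem_filter, hE, Finset.mem_filter]
          by_cases hM : 8 ≤ (univ.filter fun j => f (Z j)).card
          · exact Or.inl ⟨Finset.mem_univ _, hZ.2.1, hM⟩
          · exact Or.inr ⟨⟨Finset.mem_univ _, fun h => hM (h.2 hZ.2.2)⟩, hZ.2.1⟩
        omega
      have h6 := Finset.sum_le_sum fun i (_ : i ∈ (univ : Finset (Fin 15))) => h5 i
      rw [Finset.sum_add_distrib, Finset.sum_add_distrib, Finset.sum_const, Finset.sum_const, Finset.card_univ,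
        Fintype.card_fin, smul_eq_mul, smul_eq_mul] at h6
      omega
  -- all subsets of `B`
  have hsub : ∀ B' ⊆ B, 3 * N ^ 14 * B'.card ≤ 2 * E.card + 210 * B'.card ^ 2 * N ^ 13 := by
    intro B' hB'
    have h4 := m1_double E B'
    have h5 : ∀ i : Fin 15, (E.filter fun Z => Z i ∈ B').card = ∑ X ∈ B', (E.filter fun Z => Z i = X).card := by
      intro i
      rw [← Finset.card_biUnion]
      · congr 1
        ext Z
        simp only [Finset.mem_filter, Finset.mem_biUnion]
        constructor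
        · rintro ⟨h6, h7⟩
          exact ⟨Z i, h7, h6, rfl⟩
        · rintro ⟨X, h6, h7, h8⟩
          exact ⟨h7, h8 ▸ h6⟩
      · intro X _ Y _ hXY
        rw [Function.onFun, Finset.disjoint_left]
        intro Z hZ1 hZ2
        rw [Finset.mem_filter] at hZ1 hZ2
        exact hXY (hZ1.2.symm.trans hZ2.2)
    rw [Finset.sum_congr rfl fun i _ => h5 i, Finset.sum_comm] at h4
    have h6 : ∑ X ∈ B', 3 * N ^ 14 ≤ ∑ X ∈ B', 2 * ∑ i : Fin 15, (E.filter fun Z => Z i = X).card :=
      Finset.sum_le_sum fun X hX => hone X (hB' hX)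
    rw [Finset.sum_const, smul_eq_mul, ← Finset.mul_sum] at h6
    rw [← hN] at h4
    nlinarith [h4, h6]
  rcases Nat.eq_zero_or_pos N with hN0 | hNpos
  · rw [hN0]
    simp
  obtain ⟨n, hn⟩ := hd
  have hsmall : 256 * B.card < N := by
    by_contra hc
    rw [not_lt] at hc
    have hnB : n ≤ B.card := by omega
    obtain ⟨B', hB', hB'c⟩ := Finset.exists_subset_card_eq hnB
    have h4 := hsub B' hB'
    rw [hB'c] at h4
    have hnpos : 0 < n := by omega
    have h5 : N ^ 15 = 256 * (N ^ 14 * n) := by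
      calc N ^ 15 = N ^ 14 * N := by ring
        _ = N ^ 14 * (256 * n) := by rw [← hn]
        _ = _ := by ring
    have h6 : 256 * (210 * n ^ 2 * N ^ 13) = 210 * (N ^ 14 * n) := by
      calc 256 * (210 * n ^ 2 * N ^ 13) = 210 * n * (256 * n) * N ^ 13 := by ring
        _ = 210 * n * N * N ^ 13 := by rw [← hn]
        _ = _ := by ring
    have h7 : 0 < N ^ 14 * n := by positivity
    have h8 : 3 * N ^ 14 * n = 3 * (N ^ 14 * n) := by ring
    rw [h5] at h3
    omega
  have h4 := hsub B (Finset.Subset.refl _)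
  have h5 : 256 * (B.card ^ 2 * N ^ 13) ≤ N ^ 14 * B.card := by
    calc 256 * (B.card ^ 2 * N ^ 13) = (256 * B.card) * (B.card * N ^ 13) := by ring
      _ ≤ N * (B.card * N ^ 13) := Nat.mul_le_mul_right _ hsmall.le
      _ = _ := by ring
  have h6 : 3 * N ^ 14 * B.card = 3 * (N ^ 14 * B.card) := by ring
  have h7 : 210 * B.card ^ 2 * N ^ 13 = 210 * (B.card ^ 2 * N ^ 13) := by ring
  omega

/-- One-sided. PLAN. If `¬ f X` then `∑ i, #{Z | Z i = X ∧ M Z} ≤ ∑ i, #{Z | Z i = X ∧ F Z} ≤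
(2 / 5) * 15 * N ^ 14 < 15 * N ^ 14 / 2` (`m1_neg`, `m1_num`; `N > 0` as `X` exists). -/
theorem m2_sub (f : Ω → Prop) (M : (Fin 15 → Ω) → Prop)
    (h1 : (2 ^ 11 - 1) * Fintype.card Ω ≤ 2 ^ 12 * (univ.filter fun x => f x).card)
    (h2 : 2 ^ 12 * (univ.filter fun x => f x).card ≤ (2 ^ 11 + 1) * Fintype.card Ω)
    (h3 : ∀ Z, M Z → 8 ≤ (univ.filter fun i => f (Z i)).card) {X : Ω}
    (hX : 15 * Fintype.card Ω ^ 14 ≤
      2 * ∑ i : Fin 15, (univ.filter fun Z : Fin 15 → Ω => Z i = X ∧ M Z).card) : f X := by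
  by_contra hf
  obtain ⟨μ, hm1, hm2, hm3⟩ := m2_mu f h1 h2
  have h5 : ∀ i : Fin 15, (univ.filter fun Z : Fin 15 → Ω => Z i = X ∧ M Z).card + 9908 * μ ^ 14 ≤
      Fintype.card Ω ^ 14 := by
    intro i
    have h6 := m1_neg f hm1 hm2 i hf
    have h7 := m2_compl (fun Z : Fin 15 → Ω => 8 ≤ (univ.filter fun j => f (Z j)).card) i X
    have h8 : (univ.filter fun Z : Fin 15 → Ω => Z i = X ∧ M Z).card ≤
        (univ.filter fun Z : Fin 15 → Ω => Z i = X ∧ 8 ≤ (univ.filter fun j => f (Z j)).card).card := by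
      refine Finset.card_le_card ?_
      intro Z hZ
      rw [Finset.mem_filter] at hZ ⊢
      exact ⟨hZ.1, hZ.2.1, h3 Z hZ.2.2⟩
    omega
  have h6 := Finset.sum_le_sum fun i (_ : i ∈ (univ : Finset (Fin 15))) => h5 i
  rw [Finset.sum_add_distrib, Finset.sum_const, Finset.sum_const, Finset.card_univ,
    Fintype.card_fin, smul_eq_mul, smul_eq_mul] at h6
  have h7 : 0 < Fintype.card Ω ^ 14 := pow_pos (Fintype.card_pos_iff.2 ⟨X⟩) _
  omega

private noncomputable def m2c {α : Type} [Fintype α] (f : α → Prop) : ℕ := (univ.filter fun x => f x).card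

private theorem m2c_eq {α : Type} [Fintype α] (f : α → Prop) [DecidablePred f] :
    (univ.filter f).card = m2c f := by
  unfold m2c
  congr

private theorem m2c_congr {α : Type} [Fintype α] {f g : α → Prop} (h : ∀ x, f x ↔ g x) : m2c f = m2c g := by
  have : f = g := funext fun x => propext (h x)
  rw [this]

private theorem m2c_mono {α : Type} [Fintype α] {f g : α → Prop} (h : ∀ x, f x → g x) : m2c f ≤ m2c g := by
  refine Finset.card_le_card fun x hx => ?_
  rw [Finset.mem_filter] at hx ⊢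
  exact ⟨hx.1, h _ hx.2⟩

private theorem m2c_add {α : Type} [Fintype α] (f : α → Prop) :
    m2c f + m2c (fun x => ¬ f x) = Fintype.card α := by
  rw [← m2_split f, m2c_eq, m2c_eq]

/-- the number of `Z` with at least 8 values in `f` -/
private noncomputable def m2S (f : Ω → Prop) : ℕ :=
  m2c fun Z : Fin 15 → Ω => 8 ≤ m2c fun i => f (Z i)

private theorem m2S_add (f : Ω → Prop) : m2S f + m2S (fun x => ¬ f x) = Fintype.card Ω ^ 15 := by
  have h1 : Fintype.card (Fin 15 → Ω) = Fintype.card Ω ^ 15 := by rw [Fintype.card_fun, Fintype.card_fin]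
  rw [← h1, ← m2c_add (fun Z : Fin 15 → Ω => 8 ≤ m2c fun i => f (Z i))]
  unfold m2S
  congr 1
  refine m2c_congr fun Z => ?_
  have h2 := m2c_add (fun i : Fin 15 => f (Z i))
  rw [Fintype.card_fin] at h2
  beta_reduce
  omega

private theorem m2S_congr (f g : Ω → Prop) (h : m2c f = m2c g) : m2S f = m2S g := by
  have h1 : Fintype.card {x // f x} = Fintype.card {x // g x} := by
    rw [Fintype.card_subtype, Fintype.card_subtype, m2c_eq, m2c_eq]
    exact h
  let e : {x // f x} ≃ {x // g x} := Fintype.equivOfCardEq h1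
  let σ : Equiv.Perm Ω := e.extendSubtype
  have hσ : ∀ x, g (σ x) ↔ f x := by
    intro x
    constructor
    · intro hg
      by_contra hf
      exact e.extendSubtype_not_mem x hf hg
    · intro hf
      exact e.extendSubtype_mem x hf
  unfold m2S
  have h3 : ∀ Z : Fin 15 → Ω, m2c (fun i => g (σ (Z i))) = m2c fun i => f (Z i) := fun Z =>
    m2c_congr fun i => hσ _
  unfold m2c at h3 ⊢
  refine Finset.card_nbij' (fun Z i => σ (Z i)) (fun Z i => σ.symm (Z i)) ?_ ?_ ?_ ?_
  · intro Z hZ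
    simp only [Finset.coe_filter, Finset.mem_univ, true_and, Set.mem_ofPred_eq] at hZ ⊢
    rw [h3]
    exact hZ
  · intro Z hZ
    simp only [Finset.coe_filter, Finset.mem_univ, true_and, Set.mem_ofPred_eq] at hZ ⊢
    rw [← h3]
    simp only [Equiv.apply_symm_apply]
    exact hZ
  · intro Z _
    simp
  · intro Z _
    simp

private theorem m2S_sub (f g : Ω → Prop) (h : ∀ x, g x → f x) :
    m2S g ≤ m2S f ∧ m2S f ≤ m2S g + 15 * (m2c f - m2c g) * Fintype.card Ω ^ 14 := by
  constructor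
  · exact m2c_mono fun Z hZ => hZ.trans (m2c_mono fun i hi => h _ hi)
  · set D := (univ.filter fun x => f x) \ (univ.filter fun x => g x) with hD
    have hDc : D.card = m2c f - m2c g := by
      rw [hD, Finset.card_sdiff_of_subset, m2c_eq, m2c_eq]
      intro x hx
      rw [Finset.mem_filter] at hx ⊢
      exact ⟨hx.1, h _ hx.2⟩
    have h1 : ∀ i : Fin 15, (univ.filter fun Z : Fin 15 → Ω => Z i ∈ D).card = D.card * Fintype.card Ω ^ 14 := by
      intro i
      have h2 : (univ.filter fun Z : Fin 15 → Ω => Z i ∈ D) =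
          D.biUnion fun X => univ.filter fun Z : Fin 15 → Ω => Z i = X := by
        ext Z
        simp only [Finset.mem_filter, Finset.mem_univ, true_and, Finset.mem_biUnion]
        constructor
        · intro h3
          exact ⟨Z i, h3, rfl⟩
        · rintro ⟨X, h3, h4⟩
          exact h4 ▸ h3
      rw [h2, Finset.card_biUnion]
      · rw [Finset.sum_congr rfl fun X _ => m2_fix i X, Finset.sum_const, smul_eq_mul]
      · intro X _ Y _ hXY
        rw [Function.onFun, Finset.disjoint_left]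
        intro Z hZ1 hZ2
        rw [Finset.mem_filter] at hZ1 hZ2
        exact hXY (hZ1.2.symm.trans hZ2.2)
    have h2 : (univ.filter fun Z : Fin 15 → Ω => 8 ≤ m2c fun i => f (Z i)) ⊆
        (univ.filter fun Z : Fin 15 → Ω => 8 ≤ m2c fun i => g (Z i)) ∪
        (univ : Finset (Fin 15)).biUnion fun i => univ.filter fun Z : Fin 15 → Ω => Z i ∈ D := by
      intro Z hZ
      rw [Finset.mem_union, Finset.mem_biUnion]
      by_cases hc : ∃ i, Z i ∈ D
      · obtain ⟨i, hi⟩ := hc
        exact Or.inr ⟨i, Finset.mem_univ _, by rw [Finset.mem_filter]; exact ⟨Finset.mem_univ _, hi⟩⟩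
      · left
        rw [Finset.mem_filter] at hZ ⊢
        refine ⟨Finset.mem_univ _, hZ.2.trans (Finset.card_le_card fun i hi => ?_)⟩
        rw [Finset.mem_filter] at hi ⊢
        refine ⟨hi.1, ?_⟩
        by_contra hg
        refine hc ⟨i, ?_⟩
        rw [hD, Finset.mem_sdiff, Finset.mem_filter, Finset.mem_filter]
        exact ⟨⟨Finset.mem_univ _, hi.2⟩, fun h3 => hg h3.2⟩
    have h3 := (Finset.card_le_card h2).trans ((Finset.card_union_le _ _).trans
      (Nat.add_le_add_left Finset.card_biUnion_le _))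
    rw [Finset.sum_congr rfl fun i _ => h1 i, Finset.sum_const, Finset.card_univ, Fintype.card_fin, smul_eq_mul,
      hDc, m2c_eq, m2c_eq] at h3
    rw [mul_assoc]
    exact h3

private theorem m2_half (f : Ω → Prop) (h : m2c (fun x => ¬ f x) ≤ m2c f) :
    m2S (fun x => ¬ f x) ≤ m2S f ∧ m2S f ≤ m2S (fun x => ¬ f x) +
      15 * (m2c f - m2c (fun x => ¬ f x)) * Fintype.card Ω ^ 14 := by
  obtain ⟨T, hT, hTc⟩ := Finset.exists_subset_card_eq h
  have h1 : m2c (fun x => x ∈ T) = m2c (fun x => ¬ f x) := by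
    rw [← hTc]
    unfold m2c
    congr 1
    ext x
    simp
  have h2 := m2S_congr (fun x => ¬ f x) (fun x => x ∈ T) h1.symm
  have h3 := m2S_sub f (fun x => x ∈ T) (fun x hx => by
    have := hT hx
    rw [Finset.mem_filter] at this
    exact this.2)
  rw [h2, ← h1]
  exact h3

/-- Balance. PLAN. Let `a` be the number of `x` with `f x`, `N` even. There is a set `g` with `N / 2`
elements which differs from `f` in `|a - N / 2|` elements. The `Z` with at least 8 values in `g` are
exactly half of all (a bijection of `Ω` exchanging `g` and its complement). The numbers for `f` and `g`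
differ by at most the number of `Z` with some `Z i` in the symmetric difference,
`≤ 15 * |a - N / 2| * N ^ 14`. -/
theorem m2_bal (f : Ω → Prop) (hd : 2 ∣ Fintype.card Ω) :
    |2 * ((univ.filter fun Z : Fin 15 → Ω => 8 ≤ (univ.filter fun i => f (Z i)).card).card : ℤ) -
      (Fintype.card Ω : ℤ) ^ 15| ≤
    15 * |2 * ((univ.filter fun x => f x).card : ℤ) - Fintype.card Ω| * (Fintype.card Ω : ℤ) ^ 14 := by
  have hS := m2S_add f
  have hs := m2c_add f
  have e0 : (univ.filter fun Z : Fin 15 → Ω => 8 ≤ (univ.filter fun i => f (Z i)).card).card = m2S f := by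
    rw [m2c_eq]
    exact m2c_congr fun Z => by rw [m2c_eq]
  rw [e0, m2c_eq]
  have hS' : (m2S f : ℤ) + (m2S (fun x => ¬ f x) : ℤ) = (Fintype.card Ω : ℤ) ^ 15 := by exact_mod_cast hS
  have hs' : (m2c f : ℤ) + (m2c (fun x => ¬ f x) : ℤ) = (Fintype.card Ω : ℤ) := by exact_mod_cast hs
  have hN : (0 : ℤ) ≤ (Fintype.card Ω : ℤ) ^ 14 := by positivity
  rcases le_total (m2c fun x => ¬ f x) (m2c f) with h | h
  · obtain ⟨h1, h2⟩ := m2_half f h
    have h2' : (m2S f : ℤ) ≤ m2S (fun x => ¬ f x) +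
        15 * ((m2c f : ℤ) - (m2c (fun x => ¬ f x) : ℤ)) * (Fintype.card Ω : ℤ) ^ 14 := by
      rw [← Nat.cast_sub h]
      exact_mod_cast h2
    have h1' : (m2S (fun x => ¬ f x) : ℤ) ≤ m2S f := by exact_mod_cast h1
    have hh : (m2c (fun x => ¬ f x) : ℤ) ≤ (m2c f : ℤ) := by exact_mod_cast h
    have e1 : 2 * (m2S f : ℤ) - (Fintype.card Ω : ℤ) ^ 15 = m2S f - m2S (fun x => ¬ f x) := by linarith
    have e2 : 2 * (m2c f : ℤ) - (Fintype.card Ω : ℤ) = m2c f - m2c (fun x => ¬ f x) := by linarith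
    rw [e1, e2, abs_of_nonneg (by linarith), abs_of_nonneg (by linarith)]
    linarith
  · have e1 : m2c (fun x => ¬ (fun y => ¬ f y) x) = m2c f := m2c_congr fun x => by simp
    have e2 : m2S (fun x => ¬ (fun y => ¬ f y) x) = m2S f := m2S_congr _ _ e1
    obtain ⟨h1, h2⟩ := m2_half (fun x => ¬ f x) (e1.le.trans h)
    replace h1 : m2S f ≤ m2S (fun x => ¬ f x) := e2 ▸ h1
    replace h2 : m2S (fun x => ¬ f x) ≤ m2S f +
        15 * (m2c (fun x => ¬ f x) - m2c f) * Fintype.card Ω ^ 14 := by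
      rw [← e1, ← e2]
      rw [e2] at h2 ⊢
      exact h2
    have h2' : (m2S (fun x => ¬ f x) : ℤ) ≤ m2S f +
        15 * ((m2c (fun x => ¬ f x) : ℤ) - (m2c f : ℤ)) * (Fintype.card Ω : ℤ) ^ 14 := by
      rw [← Nat.cast_sub h]
      exact_mod_cast h2
    have h1' : (m2S f : ℤ) ≤ m2S (fun x => ¬ f x) := by exact_mod_cast h1
    have hh : (m2c f : ℤ) ≤ (m2c (fun x => ¬ f x) : ℤ) := by exact_mod_cast h
    have e3 : 2 * (m2S f : ℤ) - (Fintype.card Ω : ℤ) ^ 15 = m2S f - m2S (fun x => ¬ f x) := by linarith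
    have e4 : 2 * (m2c f : ℤ) - (Fintype.card Ω : ℤ) = m2c f - m2c (fun x => ¬ f x) := by linarith
    rw [e3, e4, abs_of_nonpos (by linarith), abs_of_nonpos (by linarith)]
    linarith

end Pool.Agent.LibAV75
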