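import Pool.Agent.LibAV75.M2
import Pool.Agent.LibAV75.C5

/-!
Row M3: decoding one majority of 15, for strings.
-/

namespace Pool.Agent.LibAV75

open Filter Function Pool.Agent.LibNexp Pool.Agent.LibBHN

private theorem M3_cnt1 (l : ℕ) (P : List Bool → Prop)
    {dec : DecidablePred fun x : List.Vector Bool l => P x.1} :
    (@Finset.filter _ (fun x : List.Vector Bool l => P x.1) dec Finset.univ).card = cnt l P := by
  classical
  unfold cnt
  refine Finset.card_bij (fun x _ => val x.1) ?_ ?_ ?_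
  · intro x hx
    rw [Finset.mem_filter] at hx ⊢
    have h1 := cnt_val_lt x.1
    have h2 := bits_val x.1
    have hl : x.1.length = l := x.2
    rw [hl] at h1 h2
    refine ⟨Finset.mem_range.2 h1, ?_⟩
    rw [h2]
    exact hx.2
  · intro x _ y _ hxy
    have h2 := bits_val x.1
    have h3 := bits_val y.1
    have hl : x.1.length = l := x.2
    have hl' : y.1.length = l := y.2
    have hxy' : val x.1 = val y.1 := hxy
    rw [hl, hxy'] at h2
    rw [hl', h2] at h3
    exact Subtype.ext h3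
  · intro m hm
    rw [Finset.mem_filter, Finset.mem_range] at hm
    refine ⟨⟨bits l m, length_bits l m⟩, ?_, val_bits hm.1⟩
    rw [Finset.mem_filter]
    exact ⟨Finset.mem_univ _, hm.2⟩

private theorem M3_cnt2 (l : ℕ) (P : List Bool → Prop) (q : List.Vector Bool l → Prop)
    (h : ∀ X, q X ↔ P X.1) {dec : DecidablePred q} :
    (@Finset.filter _ q dec Finset.univ).card = cnt l P := by
  classical
  rw [← M3_cnt1 l P (dec := fun _ => Classical.propDecidable _)]
  refine congrArg Finset.card ?_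
  ext X
  rw [Finset.mem_filter, Finset.mem_filter, h X]

private theorem M3_len {l i : ℕ} (hi : i < 15) {z : List Bool} (hz : z.length = 15 * l) :
    (part l i z).length = l := by
  unfold part
  rw [List.length_take, List.length_drop, hz]
  have h1 : i * l + l ≤ 15 * l := by
    have h2 : (i + 1) * l ≤ 15 * l := Nat.mul_le_mul_right l (by omega)
    linarith
  omega

/-- the parts -/
private def M3_phi (l : ℕ) (z : List.Vector Bool (15 * l)) : Fin 15 → List.Vector Bool l :=
  fun i => ⟨part l i z.1, M3_len i.2 z.2⟩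

private theorem M3_bij (l : ℕ) : Bijective (M3_phi l) := by
  rw [Fintype.bijective_iff_injective_and_card]
  constructor
  · intro z y h
    apply Subtype.ext
    have hz : z.1.length = 15 * l := z.2
    have hy : y.1.length = 15 * l := y.2
    refine List.ext_getElem (by rw [hz, hy]) fun t h1 h2 => ?_
    have hl : 0 < l := by
      rcases Nat.eq_zero_or_pos l with rfl | h0
      · rw [hz] at h1
        omega
      · exact h0
    have hi : t / l < 15 := by
      rw [Nat.div_lt_iff_lt_mul hl]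
      omega
    have h3 : part l (t / l) z.1 = part l (t / l) y.1 :=
      congrArg Subtype.val (congrFun h ⟨t / l, hi⟩)
    have h4 : t / l * l + t % l = t := by
      rw [mul_comm]
      exact Nat.div_add_mod t l
    have hr : t % l < l := Nat.mod_lt _ hl
    have h5 : (part l (t / l) z.1)[t % l]? = (part l (t / l) y.1)[t % l]? := by rw [h3]
    unfold part at h5
    rw [List.getElem?_take_of_lt hr, List.getElem?_take_of_lt hr, List.getElem?_drop,
      List.getElem?_drop, h4, List.getElem?_eq_getElem h1, List.getElem?_eq_getElem h2] at h5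
    exact Option.some.inj h5
  · rw [Fintype.card_fun, card_vector, card_vector, Fintype.card_bool, Fintype.card_fin, ← pow_mul,
      mul_comm]

private theorem M3_cnt15 (l : ℕ) (P : List Bool → Prop) (Q : (Fin 15 → List.Vector Bool l) → Prop)
    (h : ∀ z : List.Vector Bool (15 * l), P z.1 ↔ Q (M3_phi l z)) {dec : DecidablePred Q} :
    (@Finset.filter _ Q dec Finset.univ).card = cnt (15 * l) P := by
  classical
  rw [← M3_cnt1 (15 * l) P (dec := fun x => Classical.propDecidable _)]
  symm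
  refine Finset.card_bij (fun z _ => M3_phi l z) ?_ ?_ ?_
  · intro z hz
    rw [Finset.mem_filter] at hz ⊢
    exact ⟨Finset.mem_univ _, (h z).1 hz.2⟩
  · intro z _ y _ hzy
    exact (M3_bij l).1 hzy
  · intro Z hZ
    obtain ⟨z, rfl⟩ := (M3_bij l).2 Z
    rw [Finset.mem_filter] at hZ
    refine ⟨z, ?_, rfl⟩
    rw [Finset.mem_filter]
    exact ⟨Finset.mem_univ _, (h z).2 hZ.2⟩

private theorem M3_maj (l : ℕ) (f : List Bool → Prop) (z : List.Vector Bool (15 * l))
    {dec : DecidablePred fun i : Fin 15 => f (M3_phi l z i).1} :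
    maj l f z.1 ↔ 8 ≤ (@Finset.filter _ (fun i : Fin 15 => f (M3_phi l z i).1) dec
      Finset.univ).card := by
  classical
  unfold maj
  have h1 : ((Finset.range 15).filter fun i => f (part l i z.1)).card =
      (@Finset.filter _ (fun i : Fin 15 => f (M3_phi l z i).1) dec Finset.univ).card := by
    symm
    refine Finset.card_bij (fun i _ => (i : ℕ)) ?_ ?_ ?_
    · intro i hi
      rw [Finset.mem_filter] at hi ⊢
      exact ⟨Finset.mem_range.2 i.2, hi.2⟩
    · intro i _ j _ hij
      exact Fin.ext hij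
    · intro i hi
      rw [Finset.mem_filter, Finset.mem_range] at hi
      refine ⟨⟨i, hi.1⟩, ?_, rfl⟩
      rw [Finset.mem_filter]
      exact ⟨Finset.mem_univ _, hi.2⟩
  rw [← h1]

/-- `M` on the functions -/
private def M3_M (l : ℕ) (M : List Bool → Prop) (Z : Fin 15 → List.Vector Bool l) : Prop :=
  ∃ z : List.Vector Bool (15 * l), M3_phi l z = Z ∧ M z.1

private theorem M3_Miff (l : ℕ) (M : List Bool → Prop) (z : List.Vector Bool (15 * l)) :
    M3_M l M (M3_phi l z) ↔ M z.1 := by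
  constructor
  · rintro ⟨y, hy, h⟩
    rwa [(M3_bij l).1 hy] at h
  · intro h
    exact ⟨z, rfl, h⟩

private theorem M3_card (l : ℕ) : Fintype.card (List.Vector Bool l) = 2 ^ l := by
  rw [card_vector, Fintype.card_bool]

private theorem M3_pow (l k : ℕ) : (2 ^ l) ^ k = 2 ^ (k * l) := by
  rw [← pow_mul, mul_comm]

private theorem M3_dec (l : ℕ) (M : List Bool → Prop) (X : List.Vector Bool l)
    {dec' : ∀ i : Fin 15, DecidablePred fun Z : Fin 15 → List.Vector Bool l =>
      Z i = X ∧ M3_M l M Z} :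
    dec l M X.1 ↔ 15 * Fintype.card (List.Vector Bool l) ^ 14 ≤ 2 * ∑ i : Fin 15,
      (@Finset.filter _ (fun Z : Fin 15 → List.Vector Bool l => Z i = X ∧ M3_M l M Z) (dec' i)
        Finset.univ).card := by
  unfold dec
  rw [M3_card, M3_pow, Finset.sum_range]
  have h1 : ∀ i : Fin 15, (@Finset.filter _ (fun Z : Fin 15 → List.Vector Bool l =>
      Z i = X ∧ M3_M l M Z) (dec' i) Finset.univ).card =
      cnt (15 * l) fun z => part l i z = X.1 ∧ M z := by
    intro i
    refine M3_cnt15 l _ _ fun z => ?_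
    rw [M3_Miff]
    refine and_congr_left fun _ => ?_
    constructor
    · intro h
      exact Subtype.ext h
    · intro h
      exact congrArg Subtype.val h
  simp only [h1]

/-- PLAN. All from `m2`, `m2_sub`, `m2_bal` with `Ω := {x : List Bool // x.length = ℓ}` (finite with
`2 ^ ℓ` elements) and the bijection between the strings `z` of length `15 * ℓ` and the functions
`Fin 15 → Ω`, `z ↦ (i ↦ part ℓ i z)` (inverse: concatenation). General lemma:
`cnt m P` = cardinality of the `P`-part of any finite type in bijection with the strings of length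
`m` (`bits`, `bits_val`, `val_bits`, see LibBHN/CountA.lean). -/
theorem dec_step {ℓ : ℕ} (hℓ : 8 ≤ ℓ) (f M : List Bool → Prop)
    (h1 : (2 ^ 11 - 1) * 2 ^ ℓ ≤ 2 ^ 12 * cnt ℓ f) (h2 : 2 ^ 12 * cnt ℓ f ≤ (2 ^ 11 + 1) * 2 ^ ℓ)
    (h3 : 2 ^ 8 * cnt (15 * ℓ) (fun z => ¬ (maj ℓ f z ↔ M z)) ≤ 2 ^ (15 * ℓ)) :
    13 * (2 ^ (14 * ℓ) * cnt ℓ fun X => ¬ (f X ↔ dec ℓ M X)) ≤
      12 * cnt (15 * ℓ) fun z => ¬ (maj ℓ f z ↔ M z) := by
  classical
  have hd : 256 ∣ Fintype.card (List.Vector Bool ℓ) := by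
    rw [M3_card]
    exact pow_dvd_pow 2 hℓ
  have key := m2 (fun x : List.Vector Bool ℓ => f x.1) (M3_M ℓ M) hd
    (by rw [M3_cnt1, M3_card]; exact h1) (by rw [M3_cnt1, M3_card]; exact h2)
    (by
      rw [M3_cnt15 ℓ (fun z => ¬ (maj ℓ f z ↔ M z)) _ fun z => by
        rw [M3_Miff, M3_maj], M3_card, M3_pow]
      exact h3)
  rw [M3_cnt15 ℓ (fun z => ¬ (maj ℓ f z ↔ M z)) _ fun z => by
        rw [M3_Miff, M3_maj]] at key
  rw [M3_cnt2 ℓ (fun X => ¬ (f X ↔ dec ℓ M X)) _ fun X => by
      exact not_congr (iff_congr Iff.rfl (M3_dec ℓ M X).symm), M3_card,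
    M3_pow] at key
  exact key

theorem dec_sub {ℓ : ℕ} (f M : List Bool → Prop)
    (h1 : (2 ^ 11 - 1) * 2 ^ ℓ ≤ 2 ^ 12 * cnt ℓ f) (h2 : 2 ^ 12 * cnt ℓ f ≤ (2 ^ 11 + 1) * 2 ^ ℓ)
    (h3 : ∀ z : List Bool, z.length = 15 * ℓ → M z → maj ℓ f z) {X : List Bool}
    (hX : X.length = ℓ) (h : dec ℓ M X) : f X := by
  classical
  have key := m2_sub (fun x : List.Vector Bool ℓ => f x.1) (M3_M ℓ M)
    (by rw [M3_cnt1, M3_card]; exact h1) (by rw [M3_cnt1, M3_card]; exact h2)
    (by
      intro Z hZ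
      obtain ⟨z, rfl⟩ := (M3_bij ℓ).2 Z
      rw [M3_Miff] at hZ
      have h4 := h3 z.1 z.2 hZ
      rwa [M3_maj] at h4) (X := ⟨X, hX⟩)
    ((M3_dec ℓ M ⟨X, hX⟩).1 h)
  exact key

theorem maj_bal {ℓ : ℕ} (hℓ : 1 ≤ ℓ) (f : List Bool → Prop) :
    |2 * (cnt (15 * ℓ) (maj ℓ f) : ℤ) - 2 ^ (15 * ℓ)| ≤
      15 * |2 * (cnt ℓ f : ℤ) - 2 ^ ℓ| * 2 ^ (14 * ℓ) := by
  classical
  have hd : 2 ∣ Fintype.card (List.Vector Bool ℓ) := by
    rw [M3_card]
    exact dvd_pow_self 2 (by omega)
  have key := m2_bal (fun x : List.Vector Bool ℓ => f x.1) hd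
  rw [M3_cnt1, M3_cnt15 ℓ (maj ℓ f) _ fun z => M3_maj ℓ f z, M3_card] at key
  push_cast at key
  rw [← pow_mul, ← pow_mul, mul_comm ℓ 15, mul_comm ℓ 14] at key
  exact key

end Pool.Agent.LibAV75
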