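import Pool.Agent.LibAV75.M3

/-!
Row M4: decoding iterated majorities.
-/

namespace Pool.Agent.LibAV75

open Filter Function Pool.Agent.LibNexp Pool.Agent.LibBHN

/-- PLAN. Induction on `j` with `maj_bal` (`15 ^ (j + 1) * l = 15 * (15 ^ j * l)`; `cnt` only sees
strings of the given length). -/
theorem tree_bal {f : List Bool → Prop} {l : ℕ} (hl : 1 ≤ l) (j : ℕ) :
    |2 * (cnt (15 ^ j * l) (tree f l j) : ℤ) - 2 ^ (15 ^ j * l)| * 2 ^ l ≤
      15 ^ j * |2 * (cnt l f : ℤ) - 2 ^ l| * 2 ^ (15 ^ j * l) := by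
  induction j with
  | zero => simp [tree, mul_comm]
  | succ j ih =>
    have hpos : 1 ≤ 15 ^ j * l := Nat.mul_pos (by positivity) hl
    have h1 := maj_bal hpos (tree f l j)
    have h2 : 15 ^ (j + 1) * l = 15 * (15 ^ j * l) := by rw [pow_succ]; ring
    rw [h2]
    change |2 * (cnt (15 * (15 ^ j * l)) (maj (15 ^ j * l) (tree f l j)) : ℤ) -
      2 ^ (15 * (15 ^ j * l))| * 2 ^ l ≤ _
    generalize 15 ^ j * l = m at *
    have h3 : (0 : ℤ) < 2 ^ l := by positivity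
    have h4 : (0 : ℤ) < 2 ^ (14 * m) := by positivity
    have h5 : (2 : ℤ) ^ (15 * m) = 2 ^ m * 2 ^ (14 * m) := by rw [← pow_add]; congr 1; ring
    have h6 := mul_le_mul_of_nonneg_right h1 h3.le
    have h7 := mul_le_mul_of_nonneg_right ih h4.le
    rw [h5] at h6 ⊢
    calc _ ≤ _ := h6
      _ = 15 * (|2 * (cnt m (tree f l j) : ℤ) - 2 ^ m| * 2 ^ l * 2 ^ (14 * m)) := by ring
      _ ≤ 15 * (15 ^ j * |2 * (cnt l f : ℤ) - 2 ^ l| * 2 ^ m * 2 ^ (14 * m)) := by linarith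
      _ = _ := by rw [pow_succ]; ring

private theorem M4_bal {f : List Bool → Prop} {l h i : ℕ} (hl : 8 ≤ l) (hi : i ≤ h)
    (hb : 2 ^ 12 * 15 ^ h * |2 * (cnt l f : ℤ) - 2 ^ l| ≤ 2 ^ l) :
    (2 ^ 11 - 1) * 2 ^ (15 ^ i * l) ≤ 2 ^ 12 * cnt (15 ^ i * l) (tree f l i) ∧
    2 ^ 12 * cnt (15 ^ i * l) (tree f l i) ≤ (2 ^ 11 + 1) * 2 ^ (15 ^ i * l) := by
  have h1 := tree_bal (f := f) (l := l) (by omega) i
  have h2 : (15 : ℤ) ^ i ≤ 15 ^ h := pow_le_pow_right₀ (by norm_num) hi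
  generalize 15 ^ i * l = m at *
  have h3 : (0 : ℤ) < 2 ^ l := by positivity
  have h4 : (0 : ℤ) < 2 ^ m := by positivity
  have h0 : 0 ≤ |2 * (cnt l f : ℤ) - 2 ^ l| := abs_nonneg _
  have h5 : 2 ^ 12 * |2 * (cnt m (tree f l i) : ℤ) - 2 ^ m| * 2 ^ l ≤ 2 ^ m * 2 ^ l := by
    calc 2 ^ 12 * |2 * (cnt m (tree f l i) : ℤ) - 2 ^ m| * 2 ^ l =
          2 ^ 12 * (|2 * (cnt m (tree f l i) : ℤ) - 2 ^ m| * 2 ^ l) := by ring
      _ ≤ 2 ^ 12 * (15 ^ i * |2 * (cnt l f : ℤ) - 2 ^ l| * 2 ^ m) := by linarith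
      _ ≤ 2 ^ 12 * (15 ^ h * |2 * (cnt l f : ℤ) - 2 ^ l| * 2 ^ m) := by
          have := mul_le_mul_of_nonneg_right (mul_le_mul_of_nonneg_right h2 h0) h4.le
          linarith
      _ = (2 ^ 12 * 15 ^ h * |2 * (cnt l f : ℤ) - 2 ^ l|) * 2 ^ m := by ring
      _ ≤ 2 ^ l * 2 ^ m := mul_le_mul_of_nonneg_right hb h4.le
      _ = 2 ^ m * 2 ^ l := by ring
  have h6 : 2 ^ 12 * |2 * (cnt m (tree f l i) : ℤ) - 2 ^ m| ≤ 2 ^ m := le_of_mul_le_mul_right h5 h3
  have h7 := le_abs_self (2 * (cnt m (tree f l i) : ℤ) - 2 ^ m)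
  have h8 := neg_abs_le (2 * (cnt m (tree f l i) : ℤ) - 2 ^ m)
  constructor
  · zify
    push_cast
    linarith
  · zify
    linarith

private theorem M4_chain {f M : List Bool → Prop} {l h : ℕ} (hl : 8 ≤ l)
    (hb : 2 ^ 12 * 15 ^ h * |2 * (cnt l f : ℤ) - 2 ^ l| ≤ 2 ^ l)
    (hε : 2 ^ 8 * cnt (15 ^ h * l) (fun z => ¬ (tree f l h z ↔ M z)) ≤ 2 ^ (15 ^ h * l)) (j : ℕ) :
    ∀ i, i + j = h →
    13 ^ j * (2 ^ (15 ^ h * l - 15 ^ i * l) *
      cnt (15 ^ i * l) fun X => ¬ (tree f l i X ↔ dt M l h j X)) ≤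
      12 ^ j * cnt (15 ^ h * l) fun z => ¬ (tree f l h z ↔ M z) := by
  induction j with
  | zero =>
    intro i hi
    obtain rfl : i = h := by omega
    simp [dt]
  | succ j ih =>
    intro i hi
    have ih' := ih (i + 1) (by omega)
    have hpos : 8 ≤ 15 ^ i * l := by
      have : 1 * l ≤ 15 ^ i * l := Nat.mul_le_mul_right l (Nat.one_le_pow _ _ (by norm_num))
      omega
    obtain ⟨b1, b2⟩ := M4_bal (f := f) (i := i) hl (by omega) hb
    have hA : 15 ^ (i + 1) * l ≤ 15 ^ h * l :=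
      Nat.mul_le_mul_right l (Nat.pow_le_pow_right (by norm_num) (by omega))
    have h2 : 15 ^ (i + 1) * l = 15 * (15 ^ i * l) := by rw [pow_succ]; ring
    have hdt : dt M l h (j + 1) = dec (15 ^ i * l) (dt M l h j) := by
      change dec (15 ^ (h - (j + 1)) * l) (dt M l h j) = _
      have h3 : h - (j + 1) = i := by omega
      rw [h3]
    have htr : tree f l (i + 1) = maj (15 ^ i * l) (tree f l i) := rfl
    rw [hdt]
    rw [htr, h2] at ih'
    rw [h2] at hA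
    generalize 15 ^ i * l = m at *
    generalize cnt (15 ^ h * l) (fun z => ¬ (tree f l h z ↔ M z)) = D at *
    generalize 15 ^ h * l = A at *
    have e3 : 2 ^ 8 * cnt (15 * m) (fun z => ¬ (maj m (tree f l i) z ↔ dt M l h j z)) ≤
        2 ^ (15 * m) := by
      generalize cnt (15 * m) (fun z => ¬ (maj m (tree f l i) z ↔ dt M l h j z)) = d at *
      have hAe : 2 ^ A = 2 ^ (A - 15 * m) * 2 ^ (15 * m) := by
        rw [← pow_add]
        congr 1
        omega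
      have h12 : (12 : ℕ) ^ j ≤ 13 ^ j := Nat.pow_le_pow_left (by norm_num) j
      have hc : (12 ^ j * 2 ^ (A - 15 * m)) * (2 ^ 8 * d) ≤
          (12 ^ j * 2 ^ (A - 15 * m)) * 2 ^ (15 * m) := by
        calc (12 ^ j * 2 ^ (A - 15 * m)) * (2 ^ 8 * d) =
              12 ^ j * (2 ^ 8 * (2 ^ (A - 15 * m) * d)) := by ring
          _ ≤ 13 ^ j * (2 ^ 8 * (2 ^ (A - 15 * m) * d)) := Nat.mul_le_mul_right _ h12
          _ = 2 ^ 8 * (13 ^ j * (2 ^ (A - 15 * m) * d)) := by ring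
          _ ≤ 2 ^ 8 * (12 ^ j * D) := Nat.mul_le_mul_left _ ih'
          _ = 12 ^ j * (2 ^ 8 * D) := by ring
          _ ≤ 12 ^ j * 2 ^ A := Nat.mul_le_mul_left _ hε
          _ = _ := by rw [hAe]; ring
      exact Nat.le_of_mul_le_mul_left hc (by positivity)
    have key := dec_step hpos (tree f l i) (dt M l h j) b1 b2 e3
    generalize cnt (15 * m) (fun z => ¬ (maj m (tree f l i) z ↔ dt M l h j z)) = d at *
    generalize cnt m (fun X => ¬ (tree f l i X ↔ dec m (dt M l h j) X)) = d' at *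
    have hAe : 2 ^ (A - m) = 2 ^ (A - 15 * m) * 2 ^ (14 * m) := by
      rw [← pow_add]
      congr 1
      omega
    calc 13 ^ (j + 1) * (2 ^ (A - m) * d') =
          13 ^ j * (2 ^ (A - 15 * m) * (13 * (2 ^ (14 * m) * d'))) := by
          rw [hAe, pow_succ]
          ring
      _ ≤ 13 ^ j * (2 ^ (A - 15 * m) * (12 * d)) :=
          Nat.mul_le_mul_left _ (Nat.mul_le_mul_left _ key)
      _ = 12 * (13 ^ j * (2 ^ (A - 15 * m) * d)) := by ring
      _ ≤ 12 * (12 ^ j * D) := Nat.mul_le_mul_left _ ih'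
      _ = 12 ^ (j + 1) * D := by rw [pow_succ]; ring

private theorem M4_sub {f M : List Bool → Prop} {l h : ℕ} (hl : 8 ≤ l)
    (hb : 2 ^ 12 * 15 ^ h * |2 * (cnt l f : ℤ) - 2 ^ l| ≤ 2 ^ l)
    (hM : ∀ z : List Bool, z.length = 15 ^ h * l → M z → tree f l h z) (j : ℕ) :
    ∀ i, i + j = h → ∀ z : List Bool, z.length = 15 ^ i * l → dt M l h j z → tree f l i z := by
  induction j with
  | zero =>
    intro i hi
    obtain rfl : i = h := by omega
    exact hM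
  | succ j ih =>
    intro i hi z hz hdz
    have ih' := ih (i + 1) (by omega)
    obtain ⟨b1, b2⟩ := M4_bal (f := f) (i := i) hl (by omega) hb
    have h2 : 15 ^ (i + 1) * l = 15 * (15 ^ i * l) := by rw [pow_succ]; ring
    have hdt : dt M l h (j + 1) = dec (15 ^ i * l) (dt M l h j) := by
      change dec (15 ^ (h - (j + 1)) * l) (dt M l h j) = _
      have h3 : h - (j + 1) = i := by omega
      rw [h3]
    rw [hdt] at hdz
    rw [h2] at ih'
    exact dec_sub (tree f l i) (dt M l h j) b1 b2 (fun y hy hdy => ih' y hy hdy) hz hdz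

/-- PLAN. For `j ≤ h` let `δ j := cnt (15 ^ (h - j) * l) fun z => ¬ (tree f l (h - j) z ↔ dt M l h j z)`.
By induction on `j`: `13 ^ j * (2 ^ (15 ^ h * l - 15 ^ (h - j) * l) * δ j) ≤ 12 ^ j * δ 0`; this contains
`2 ^ 8 * δ j ≤ 2 ^ (15 ^ (h - j) * l)`, so `dec_step` applies at level `ℓ = 15 ^ (h - (j + 1)) * l`, whose
balance hypotheses follow from `tree_bal` and `hb`
(`|2 * cnt ℓ (tree f l i) - 2 ^ ℓ| ≤ 15 ^ i * |...| * 2 ^ (ℓ - l) ≤ 2 ^ ℓ / 2 ^ 12` for `i < h`). -/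
theorem chain_err {f M : List Bool → Prop} {l h : ℕ} (hl : 8 ≤ l)
    (hb : 2 ^ 12 * 15 ^ h * |2 * (cnt l f : ℤ) - 2 ^ l| ≤ 2 ^ l)
    (hε : 2 ^ 8 * cnt (15 ^ h * l) (fun z => ¬ (tree f l h z ↔ M z)) ≤ 2 ^ (15 ^ h * l)) :
    13 ^ h * (2 ^ (15 ^ h * l - l) * cnt l fun X => ¬ (f X ↔ dt M l h h X)) ≤
      12 ^ h * cnt (15 ^ h * l) fun z => ¬ (tree f l h z ↔ M z) := by
  have key := M4_chain (f := f) (M := M) hl hb hε h 0 (by omega)
  rw [pow_zero, one_mul] at key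
  exact key

/-- One-sided. PLAN. Induction on `j ≤ h` with `dec_sub`: for `z` of length `15 ^ (h - j) * l`,
`dt M l h j z → tree f l (h - j) z`. -/
theorem chain_sub {f M : List Bool → Prop} {l h : ℕ} (hl : 8 ≤ l)
    (hb : 2 ^ 12 * 15 ^ h * |2 * (cnt l f : ℤ) - 2 ^ l| ≤ 2 ^ l)
    (hM : ∀ z : List Bool, z.length = 15 ^ h * l → M z → tree f l h z) {X : List Bool}
    (hX : X.length = l) (h' : dt M l h h X) : f X := by
  have key := M4_sub (f := f) (M := M) hl hb hM h 0 (by omega) X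
  rw [pow_zero, one_mul] at key
  exact key hX h'

end Pool.Agent.LibAV75
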