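import Pool.Agent.LibAV75.C5

/-!
Row M5: the balanced function.
-/

namespace Pool.Agent.LibAV75

open Filter Function Pool.Agent.LibNexp Pool.Agent.LibBHN

/-- The balanced function: the first letter chooses between `the first `a` letters after `x` are a
number below `u`` and ``x` is not in `A``. -/
def f0 (A : Lang) (n a u : ℕ) (z : List Bool) : Prop :=
  ∃ (b : Bool) (x y p : List Bool), z = b :: (x ++ (y ++ p)) ∧ x.length = n ∧ y.length = a ∧
    (if b = true then val y < u else x ∉ A)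

open Classical in
/-- `cnt` as a number of strings -/
theorem M5_cnt0 (n : ℕ) (P : List Bool → Prop) :
    cnt n P = ((strs n).filter P).card := by
  unfold cnt
  refine Finset.card_bij (fun m _ => bits n m) ?_ ?_ ?_
  · intro m hm
    exact Finset.mem_filter.2 ⟨mem_strs.2 (length_bits n m), (Finset.mem_filter.1 hm).2⟩
  · intro m hm m' hm' h
    have := congrArg val h
    rwa [val_bits (Finset.mem_range.1 (Finset.mem_filter.1 hm).1),
      val_bits (Finset.mem_range.1 (Finset.mem_filter.1 hm').1)] at this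
  · intro x hx
    obtain ⟨h1, h2⟩ := Finset.mem_filter.1 hx
    have h3 := mem_strs.1 h1
    subst h3
    exact ⟨val x, Finset.mem_filter.2 ⟨Finset.mem_range.2 (cnt_val_lt x), by rw [bits_val]; exact h2⟩,
      bits_val x⟩

theorem M5_cnt (n : ℕ) (P : List Bool → Prop) [DecidablePred P] :
    cnt n P = ((strs n).filter P).card := by
  rw [M5_cnt0]
  congr

theorem M5_congr {n : ℕ} {P Q : List Bool → Prop} (h : ∀ x : List Bool, x.length = n → (P x ↔ Q x)) :
    cnt n P = cnt n Q := by
  classical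
  rw [M5_cnt, M5_cnt]
  congr 1
  apply Finset.filter_congr
  intro x hx
  exact h x (mem_strs.1 hx)

theorem M5_mono {n : ℕ} {P Q : List Bool → Prop} (h : ∀ x : List Bool, x.length = n → P x → Q x) :
    cnt n P ≤ cnt n Q := by
  classical
  rw [M5_cnt, M5_cnt]
  apply Finset.card_le_card
  intro x hx
  rw [Finset.mem_filter] at hx ⊢
  exact ⟨hx.1, h x (mem_strs.1 hx.1) hx.2⟩

/-- fibres over the first part -/
theorem M5_append (m n : ℕ) (P : List Bool → Prop) :
    cnt (m + n) P = ∑ x ∈ strs m, cnt n fun y => P (x ++ y) := by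
  classical
  rw [M5_cnt]
  rw [Finset.card_eq_sum_card_fiberwise (f := fun z : List Bool => z.take m) (t := strs m)]
  · refine Finset.sum_congr rfl fun x hx => ?_
    have hxm := mem_strs.1 hx
    rw [M5_cnt]
    symm
    refine Finset.card_bij (fun y _ => x ++ y) ?_ ?_ ?_
    · intro y hy
      rw [Finset.mem_filter, mem_strs] at hy
      rw [Finset.mem_filter, Finset.mem_filter, mem_strs, List.length_append, hxm, hy.1]
      refine ⟨⟨rfl, hy.2⟩, ?_⟩
      rw [← hxm, List.take_left]
    · intro y _ y' _ h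
      exact List.append_cancel_left h
    · intro z hz
      rw [Finset.mem_filter, Finset.mem_filter, mem_strs] at hz
      refine ⟨z.drop m, ?_, ?_⟩
      · rw [Finset.mem_filter, mem_strs, List.length_drop, hz.1.1]
        refine ⟨by omega, ?_⟩
        rw [← hz.2, List.take_append_drop]
        exact hz.1.2
      · rw [← hz.2, List.take_append_drop]
  · intro z hz
    rw [Finset.mem_coe, Finset.mem_filter, mem_strs] at hz
    show z.take m ∈ ((strs m : Finset (List Bool)) : Set (List Bool))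
    rw [Finset.mem_coe, mem_strs, List.length_take, hz.1]
    omega

/-- the first letter -/
theorem M5_cons (n : ℕ) (P : List Bool → Prop) :
    cnt (1 + n) P = cnt n (fun x => P (false :: x)) + cnt n fun x => P (true :: x) := by
  rw [M5_append]
  have h : strs 1 = {[false], [true]} := by
    ext x
    rw [mem_strs, List.length_eq_one_iff]
    simp only [Finset.mem_insert, Finset.mem_singleton]
    constructor
    · rintro ⟨b, rfl⟩
      cases b
      · exact Or.inl rfl
      · exact Or.inr rfl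
    · rintro (rfl | rfl)
      · exact ⟨_, rfl⟩
      · exact ⟨_, rfl⟩
  rw [h, Finset.sum_pair (by simp)]
  rfl

theorem M5_not (n : ℕ) (P : List Bool → Prop) : cnt n P + cnt n (fun x => ¬ P x) = 2 ^ n := by
  classical
  rw [M5_cnt, M5_cnt, ← card_strs n]
  exact Finset.card_filter_add_card_filter_not P

theorem M5_const (n : ℕ) (p : Prop) [Decidable p] : cnt n (fun _ => p) = if p then 2 ^ n else 0 := by
  classical
  rw [M5_cnt n (fun _ => p)]
  by_cases h : p
  · rw [if_pos h, Finset.filter_true_of_mem (s := strs n) (p := fun _ => p) (fun _ _ => h), card_strs]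
  · rw [if_neg h, Finset.filter_false_of_mem (s := strs n) (p := fun _ => p) (fun _ _ => h),
      Finset.card_empty]

theorem M5_sum (n : ℕ) (P : List Bool → Prop) [DecidablePred P] (c : ℕ) :
    ∑ x ∈ strs n, (if P x then c else 0) = cnt n P * c := by
  classical
  rw [M5_cnt, Finset.card_eq_sum_ones, Finset.sum_filter, Finset.sum_mul]
  refine Finset.sum_congr rfl fun x _ => ?_
  split_ifs <;> simp

theorem M5_val (a u : ℕ) (hu : u ≤ 2 ^ a) : cnt a (fun y => val y < u) = u := by
  rw [M5_cnt]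
  refine (Finset.card_bij (s := Finset.range u) (fun m _ => bits a m) ?_ ?_ ?_).symm.trans
    (Finset.card_range u)
  · intro m hm
    have h0 := Finset.mem_range.1 hm
    rw [Finset.mem_filter, mem_strs, val_bits (lt_of_lt_of_le h0 hu)]
    exact ⟨length_bits a m, h0⟩
  · intro m hm m' hm' h
    have h0 := Finset.mem_range.1 hm
    have h1 := Finset.mem_range.1 hm'
    have h2 := congrArg val h
    rwa [val_bits (lt_of_lt_of_le h0 hu), val_bits (lt_of_lt_of_le h1 hu)] at h2
  · intro x hx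
    rw [Finset.mem_filter, mem_strs] at hx
    obtain ⟨h1, h2⟩ := hx
    subst h1
    exact ⟨val x, Finset.mem_range.2 h2, bits_val x⟩

theorem M5_true {A : Lang} {n a u : ℕ} {x y p : List Bool} (hx : x.length = n) (hy : y.length = a) :
    f0 A n a u (true :: (x ++ (y ++ p))) ↔ val y < u := by
  constructor
  · rintro ⟨b, x', y', p', h, hx', hy', hb⟩
    obtain ⟨h1, h2⟩ := List.cons.inj h
    obtain ⟨h3, h4⟩ := List.append_inj h2 (by rw [hx, hx'])
    obtain ⟨h5, h6⟩ := List.append_inj h4 (by rw [hy, hy'])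
    rw [← h1, if_pos rfl] at hb
    rw [h5]
    exact hb
  · intro h
    exact ⟨true, x, y, p, rfl, hx, hy, by rw [if_pos rfl]; exact h⟩

theorem M5_false {A : Lang} {n a u : ℕ} {x q : List Bool} (hx : x.length = n) (hq : a ≤ q.length) :
    f0 A n a u (false :: (x ++ q)) ↔ x ∉ A := by
  constructor
  · rintro ⟨b, x', y', p', h, hx', hy', hb⟩
    obtain ⟨h1, h2⟩ := List.cons.inj h
    obtain ⟨h3, h4⟩ := List.append_inj h2 (by rw [hx, hx'])
    rw [← h1] at hb
    rw [h3]
    simpa using hb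
  · intro h
    refine ⟨false, x, q.take a, q.drop a, ?_, hx, ?_, ?_⟩
    · rw [List.take_append_drop]
    · rw [List.length_take]
      omega
    · simpa using h

theorem M5_count {A : Lang} {n a u r : ℕ} (hu : u ≤ 2 ^ a) :
    cnt (1 + (n + (a + r))) (f0 A n a u) =
      cnt n (fun x => x ∉ A) * 2 ^ (a + r) + 2 ^ n * (u * 2 ^ r) := by
  classical
  rw [M5_cons]
  congr 1
  · rw [M5_append, ← M5_sum]
    refine Finset.sum_congr rfl fun x hx => ?_
    rw [← M5_const]
    refine M5_congr fun q hq => ?_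
    exact M5_false (mem_strs.1 hx) (by omega)
  · rw [M5_append]
    have h1 : ∀ x ∈ strs n, cnt (a + r) (fun y => f0 A n a u (true :: (x ++ y))) = u * 2 ^ r := by
      intro x hx
      rw [M5_append]
      have h2 : ∀ y ∈ strs a, cnt r (fun p => f0 A n a u (true :: (x ++ (y ++ p)))) =
          if val y < u then 2 ^ r else 0 := by
        intro y hy
        rw [← M5_const]
        refine M5_congr fun p hp => ?_
        exact M5_true (mem_strs.1 hx) (mem_strs.1 hy)
      rw [Finset.sum_congr rfl h2, M5_sum, M5_val a u hu]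
    rw [Finset.sum_congr rfl h1, Finset.sum_const, card_strs, smul_eq_mul]

/-- PLAN. For `z` of length `l ≥ 1 + n + a` the decomposition exists and is unique. Count: first letter
`true`: `2 ^ n * u * 2 ^ (l - 1 - n - a)` strings (`u ≤ 2 ^ a` by `hu1`); first letter `false`:
`(2 ^ n - c) * 2 ^ (l - 1 - n)`, `c := cnt n (· ∈ A)`. So
`2 * cnt l f0 - 2 ^ l = 2 ^ (l - n - a) * (u * 2 ^ n - c * 2 ^ a)`... and
`0 ≤ c - u * 2 ^ (n - a) < 2 ^ (n - a)`. -/
theorem f0_bal {A : Lang} {n a u l : ℕ} (han : a ≤ n) (hl : 1 + n + a ≤ l)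
    (hu1 : u * 2 ^ (n - a) ≤ cnt n fun x => x ∈ A) (hu2 : (cnt n fun x => x ∈ A) < (u + 1) * 2 ^ (n - a)) :
    2 ^ a * |2 * (cnt l (f0 A n a u) : ℤ) - 2 ^ l| ≤ 2 ^ l := by
  obtain ⟨r, rfl⟩ : ∃ r, l = 1 + (n + (a + r)) := ⟨l - (1 + n + a), by omega⟩
  obtain ⟨d, rfl⟩ : ∃ d, n = a + d := ⟨n - a, by omega⟩
  have hd : a + d - a = d := by omega
  rw [hd] at hu1 hu2
  set c := cnt (a + d) fun x => x ∈ A with hc
  have hc2 : c + cnt (a + d) (fun x => x ∉ A) = 2 ^ (a + d) := M5_not _ _
  have hu : u ≤ 2 ^ a := by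
    have h1 : u * 2 ^ d ≤ 2 ^ a * 2 ^ d := by
      rw [← pow_add]
      omega
    exact Nat.le_of_mul_le_mul_right h1 (by positivity)
  rw [M5_count hu]
  have hc3 : (cnt (a + d) (fun x => x ∉ A) : ℤ) = 2 ^ a * 2 ^ d - c := by
    have : ((c + cnt (a + d) (fun x => x ∉ A) : ℕ) : ℤ) = ((2 ^ (a + d) : ℕ) : ℤ) := by rw [hc2]
    push_cast at this
    rw [pow_add] at this
    linarith
  have e1 : (2 : ℤ) * ((cnt (a + d) (fun x => x ∉ A) * 2 ^ (a + r) + 2 ^ (a + d) * (u * 2 ^ r) : ℕ) : ℤ)
      - 2 ^ (1 + (a + d + (a + r))) = 2 * 2 ^ r * 2 ^ a * (u * 2 ^ d - c) := by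
    push_cast
    rw [hc3]
    simp only [pow_add, pow_one]
    ring
  rw [e1, abs_mul, abs_of_nonneg (by positivity : (0 : ℤ) ≤ 2 * 2 ^ r * 2 ^ a)]
  have h3 : |(u * 2 ^ d - c : ℤ)| ≤ 2 ^ d := by
    have g1 : (u * 2 ^ d : ℤ) ≤ c := by exact_mod_cast hu1
    have g2 : (c : ℤ) < (u + 1) * 2 ^ d := by exact_mod_cast hu2
    rw [abs_le]
    constructor
    · linarith
    · have : (0 : ℤ) ≤ 2 ^ d := by positivity
      linarith
  have e2 : (2 : ℤ) ^ (1 + (a + d + (a + r))) = 2 ^ a * (2 * 2 ^ r * 2 ^ a) * 2 ^ d := by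
    simp only [pow_add, pow_one]
    ring
  rw [e2, ← mul_assoc]
  exact mul_le_mul_of_nonneg_left h3 (by positivity)

/-- PLAN. A misclassified `x` has at least `2 ^ (l - 1 - n) / 2` strings `q` of length `l - 1 - n` for
which `false :: (x ++ q)` is misclassified by `D`. -/
theorem bottom {A : Lang} {n a u l : ℕ} (hl : 1 + n + a ≤ l) (D : List Bool → Prop) :
    2 ^ (l - 1 - n) * cnt n (fun x => ¬ (x ∉ A ↔
      2 ^ (l - 1 - n) ≤ 2 * cnt (l - 1 - n) fun q => D (false :: (x ++ q)))) ≤
    2 * cnt l fun z => ¬ (f0 A n a u z ↔ D z) := by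
  classical
  obtain ⟨s, hs, rfl⟩ : ∃ s, a ≤ s ∧ l = 1 + (n + s) := ⟨l - (1 + n), by omega, by omega⟩
  have e1 : 1 + (n + s) - 1 - n = s := by omega
  rw [e1, M5_cons, M5_append, mul_comm, ← M5_sum]
  refine le_trans (b := 2 * ∑ x ∈ strs n, cnt s fun q =>
    ¬ (f0 A n a u (false :: (x ++ q)) ↔ D (false :: (x ++ q)))) ?_ (by omega)
  rw [Finset.mul_sum]
  refine Finset.sum_le_sum fun x hx => ?_
  have hxn := mem_strs.1 hx
  by_cases h : ¬ (x ∉ A ↔ 2 ^ s ≤ 2 * cnt s fun q => D (false :: (x ++ q)))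
  · rw [if_pos h]
    by_cases hA : x ∈ A
    · have h1 : 2 ^ s ≤ 2 * cnt s fun q => D (false :: (x ++ q)) := by
        by_contra h2
        exact h ⟨fun h3 => absurd hA h3, fun h3 => absurd h3 h2⟩
      have h3 : cnt s (fun q => D (false :: (x ++ q))) ≤ cnt s fun q =>
          ¬ (f0 A n a u (false :: (x ++ q)) ↔ D (false :: (x ++ q))) := by
        refine M5_mono fun q hq hD h4 => ?_
        exact (M5_false hxn (by omega)).1 (h4.2 hD) hA
      exact h1.trans (Nat.mul_le_mul_left 2 h3)
    · have h1 : ¬ 2 ^ s ≤ 2 * cnt s fun q => D (false :: (x ++ q)) := by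
        intro h2
        exact h ⟨fun _ => h2, fun _ => hA⟩
      have h2 := M5_not s fun q => D (false :: (x ++ q))
      have h3 : cnt s (fun q => ¬ D (false :: (x ++ q))) ≤ cnt s fun q =>
          ¬ (f0 A n a u (false :: (x ++ q)) ↔ D (false :: (x ++ q))) := by
        refine M5_mono fun q hq hD h4 => ?_
        exact hD (h4.1 ((M5_false hxn (by omega)).2 hA))
      omega
  · rw [if_neg h]
    exact Nat.zero_le _

/-- One-sided. -/
theorem bottom_sub {A : Lang} {n a u l : ℕ} (hl : 1 + n + a ≤ l) {D : List Bool → Prop}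
    (hD : ∀ z : List Bool, z.length = l → D z → f0 A n a u z) {x : List Bool} (hx : x.length = n)
    (h : 2 ^ (l - 1 - n) ≤ 2 * cnt (l - 1 - n) fun q => D (false :: (x ++ q))) : x ∉ A := by
  classical
  have h1 : 0 < cnt (l - 1 - n) fun q => D (false :: (x ++ q)) := by
    have : 0 < 2 ^ (l - 1 - n) := by positivity
    omega
  rw [M5_cnt, Finset.card_pos] at h1
  obtain ⟨q, hq⟩ := h1
  rw [Finset.mem_filter, mem_strs] at hq
  have h2 := hD (false :: (x ++ q)) (by
    rw [List.length_cons, List.length_append, hx, hq.1]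
    omega) hq.2
  exact (M5_false hx (by omega)).1 h2

end Pool.Agent.LibAV75
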