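import Pool.Agent.LibAV75.B11
import Pool.Agent.LibAV75.F2
import Pool.Agent.LibAV75.F3
import Pool.Agent.LibAV75.F4

/-!
The theorem.
-/

namespace Pool.Agent.LibAV75

open Filter Function Pool.Agent.LibNexp Pool.Agent.LibBHN
open Pool.Agent.LibDown92 (Closed)

theorem main1 {r s : ℕ → ℕ} (hr : Monotone r) (h8 : ∀ n, 8 ≤ r n) : List.TFAE [
    ∀ O, H O r → H O s,
    ∀ O, Inner O r → Inner O s,
    ∀ O, Inner O r → H O s,
    ∃ C : ℕ, ∀ n ≥ C, min (s n) (n + 1) ≤ C * (r (n ^ C) + Nat.log 2 (n + 1))] := by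
  have hIH : ∀ (O : List Bool → Bool) (t : ℕ → ℕ), Inner O t → H O t := by
    intro O t h L hL
    obtain ⟨N, hN, -, h1⟩ := h L hL
    exact ⟨N, hN, h1⟩
  have hpos : (∃ C : ℕ, ∀ n ≥ C, min (s n) (n + 1) ≤ C * (r (n ^ C) + Nat.log 2 (n + 1))) →
      ∀ (O : List Bool → Bool) (b : Prop), Ap O b r → Ap O b s := by
    rintro ⟨C, hC⟩ O b h
    refine ap_mono (ap_mul hr h8 h C) ?_
    filter_upwards [eventually_ge_atTop C] with n hn
    exact hC n hn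
  tfae_have 4 → 1 := fun h O h1 => h_iff.2 (hpos h O False (h_iff.1 h1))
  tfae_have 4 → 2 := fun h O h1 => inner_iff.2 (hpos h O True (inner_iff.1 h1))
  tfae_have 1 → 3 := fun h O h1 => h O (hIH O r h1)
  tfae_have 2 → 3 := fun h O h1 => hIH O s (h O h1)
  tfae_have 3 → 4 := by
    intro h
    by_contra hcon
    obtain ⟨O, h1, h2⟩ := negH hr (freq_of_not hr hcon)
    exact h2 (h O h1)
  tfae_finish

theorem main2 {r : ℕ → ℕ} (hr : Monotone r) (h8 : ∀ n, 8 ≤ r n) : List.TFAE [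
    ∀ O, H O r → ∀ L ∈ NEXPLang O, Lᶜ ∈ NEXPLang O,
    ∀ O, Inner O r → ∀ L ∈ NEXPLang O, Lᶜ ∈ NEXPLang O,
    ∃ C : ℕ, ∀ n ≥ C, n ≤ r (n ^ C)] := by
  have h1 := main1 (s := fun n => n + 1) hr h8
  have h2 : (∃ C : ℕ, ∀ n ≥ C, min (n + 1) (n + 1) ≤ C * (r (n ^ C) + Nat.log 2 (n + 1))) ↔
      ∃ C : ℕ, ∀ n ≥ C, n ≤ r (n ^ C) := by
    simp only [min_self]
    exact worst_iff hr
  have h3 : ∀ O : List Bool → Bool, H O (fun n => n + 1) ↔
      ∀ L ∈ NEXPLang O, Lᶜ ∈ NEXPLang O := fun O =>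
    ⟨fun h => q1_of_ap (h_iff.1 h) (Eventually.of_forall fun n => Nat.lt_succ_self n),
      fun h => h_iff.2 (ap_of_q1 h _)⟩
  have h4 : (∀ O, H O r → H O fun n => n + 1) ↔ _ := h1.out 0 3
  have h5 : (∀ O, Inner O r → H O fun n => n + 1) ↔ _ := h1.out 2 3
  have h6 : (∀ O, H O r → ∀ L ∈ NEXPLang O, Lᶜ ∈ NEXPLang O) ↔ ∀ O, H O r → H O fun n => n + 1 :=
    forall_congr' fun O => by rw [h3]
  have h7 : (∀ O, Inner O r → ∀ L ∈ NEXPLang O, Lᶜ ∈ NEXPLang O) ↔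
      ∀ O, Inner O r → H O fun n => n + 1 := forall_congr' fun O => by rw [h3]
  tfae_have 1 ↔ 3 := h6.trans (h4.trans h2)
  tfae_have 2 ↔ 3 := h7.trans (h5.trans h2)
  tfae_finish

theorem main4 (O : List Bool → Bool) : More O ↔ Closed O fun n => 2 ^ n :=
  ⟨fun h => closed_of_cert fun _ hU => p0 h hU, fun h => more_of_cert (cert_of_closed h)⟩

end Pool.Agent.LibAV75
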