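import Pool.Agent.LibAV75.M5
import Pool.Agent.LibAV75.C7

/-!
Row P1: the amplified language.
-/

namespace Pool.Agent.LibAV75

open Filter Function Pool.Agent.LibNexp Pool.Agent.LibBHN

variable {O : List Bool → Bool}

/-- The number of levels. -/
def hh (C n : ℕ) : ℕ := 9 * (C * Nat.log 2 (n + 1) + 2)

/-- The number of digits. -/
def aa (C n : ℕ) : ℕ := 4 * hh C n + 12

/-- The length of the strings of level 0. -/
def ll (K n u : ℕ) : ℕ := 15 * ((n + u) ^ 2 + n) ^ (K + 1) + 1

/-- The complement of the amplified language. -/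
def AL (A : Lang) (C K : ℕ) : Lang := {z | ∃ n u, z.length = 15 ^ hh C n * ll K n u ∧
  u ≤ 2 ^ aa C n ∧ tree (fun z => ¬ f0 A n (aa C n) u z) (ll K n u) (hh C n) z}

theorem P1_ll_inj {K n u n' u' : ℕ} (h : ll K n u = ll K n' u') : n = n' ∧ u = u' := by
  unfold ll at h
  have h1 : ((n + u) ^ 2 + n) ^ (K + 1) = ((n' + u') ^ 2 + n') ^ (K + 1) := by omega
  have h2 : (n + u) ^ 2 + n = (n' + u') ^ 2 + n' := Nat.pow_left_injective (by omega) h1
  have h3 : n + u = n' + u' := by
    rcases Nat.lt_trichotomy (n + u) (n' + u') with h4 | h4 | h4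
    · exfalso
      nlinarith
    · exact h4
    · exfalso
      nlinarith
  rw [h3] at h2
  omega

theorem P1_fac {x y a b : ℕ} (hxy : x ≤ y) (h : 15 ^ x * (15 * a + 1) = 15 ^ y * (15 * b + 1)) :
    15 * a + 1 = 15 * b + 1 := by
  obtain ⟨d, rfl⟩ := Nat.exists_eq_add_of_le hxy
  rw [pow_add, mul_assoc] at h
  have h1 := Nat.eq_of_mul_eq_mul_left (by positivity : 0 < 15 ^ x) h
  rcases Nat.eq_zero_or_pos d with h2 | h2
  · rw [h2] at h1
    omega
  · exfalso
    obtain ⟨d', rfl⟩ : ∃ d', d = d' + 1 := ⟨d - 1, by omega⟩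
    rw [pow_succ] at h1
    have : 15 ^ d' * 15 * (15 * b + 1) = 15 * (15 ^ d' * (15 * b + 1)) := by ring
    omega

/-- PLAN. `ll` is not divisible by 15, so `hh C n = hh C n'` (the number of factors 15) and
`ll K n u = ll K n' u'`, so `(n + u) ^ 2 + n = (n' + u') ^ 2 + n'`, `n + u = n' + u'`
(`n ≤ n + u`), `n = n'`. -/
theorem len_inj {C K n u n' u' : ℕ}
    (h : 15 ^ hh C n * ll K n u = 15 ^ hh C n' * ll K n' u') : n = n' ∧ u = u' := by
  apply P1_ll_inj (K := K)
  rcases Nat.le_total (hh C n) (hh C n') with h1 | h1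
  · exact P1_fac h1 h
  · exact (P1_fac h1 h.symm).symm

theorem P1_add {k : ℕ} (i j l : Fin k) :
    NEXP O fun e : Fin k → List Bool => (e l).length = (e i).length + (e j).length := by
  have h1 : NEXP O fun e : Fin 4 → List Bool => e 3 = e 0 ++ e 1 ∧
      (e 2).length = 1 * (e 3).length + 0 := (nexp_append 0 1 3).and (nexp_lin 1 0 3 2)
  have h2 : NEXP O fun e : Fin 3 → List Bool => ∃ w, w = e 0 ++ e 1 ∧
      (e 2).length = 1 * w.length + 0 := by
    refine nexp_ex (R := fun (e : Fin 3 → List Bool) w => w = e 0 ++ e 1 ∧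
      (e 2).length = 1 * w.length + 0) h1 (g := fun n => n) PolyB.id ?_
    rintro e w ⟨-, h⟩
    have := len_le_size e 2
    omega
  refine (h2.reindex ![i, j, l]).congr fun e => ?_
  simp only [Matrix.cons_val_zero, Matrix.cons_val_one, Matrix.cons_val]
  constructor
  · rintro ⟨w, rfl, h⟩
    rw [h, List.length_append]
    ring
  · intro h
    refine ⟨_, rfl, ?_⟩
    rw [h, List.length_append]
    ring

theorem P1_lam {k : ℕ} (i j l : Fin k) : NEXP O fun e : Fin k → List Bool =>
    (e l).length = ((e i).length + (e j).length) ^ 2 + (e i).length := by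
  have h1 : NEXP O fun e : Fin 5 → List Bool => ((e 3).length = (e 0).length + (e 1).length ∧
      (e 4).length = (e 3).length ^ 2 + 0) ∧ (e 2).length = (e 4).length + (e 0).length :=
    ((P1_add 0 1 3).and (nexp_powAdd 2 0 3 4)).and (P1_add 4 0 2)
  have h2 : NEXP O fun e : Fin 3 → List Bool => ∃ a b : List Bool,
      (a.length = (e 0).length + (e 1).length ∧
      b.length = a.length ^ 2 + 0) ∧ (e 2).length = b.length + (e 0).length := by
    refine nexp_ex2 (R := fun (e : Fin 3 → List Bool) a b =>
      (a.length = (e 0).length + (e 1).length ∧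
      b.length = a.length ^ 2 + 0) ∧ (e 2).length = b.length + (e 0).length) h1
      (g := fun n => n) PolyB.id monotone_id ?_
    rintro e a b ⟨⟨-, h3⟩, h4⟩
    have h5 := len_le_size e 2
    have h6 : a.length ≤ a.length ^ 2 := Nat.le_self_pow (by norm_num) _
    constructor <;> omega
  refine (h2.reindex ![i, j, l]).congr fun e => ?_
  simp only [Matrix.cons_val_zero, Matrix.cons_val_one, Matrix.cons_val]
  constructor
  · rintro ⟨a, b, ⟨h3, h4⟩, h5⟩
    rw [h5, h4, h3]
    ring
  · intro h
    refine ⟨List.replicate ((e i).length + (e j).length) true,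
      List.replicate (((e i).length + (e j).length) ^ 2) true, ⟨by simp, by simp⟩, ?_⟩
    rw [h, List.length_replicate]

theorem P1_ll (K : ℕ) {k : ℕ} (i j l : Fin k) : NEXP O fun e : Fin k → List Bool =>
    (e l).length = ll K (e i).length (e j).length := by
  have h1 : NEXP O fun e : Fin 5 → List Bool =>
      ((e 3).length = ((e 0).length + (e 1).length) ^ 2 + (e 0).length ∧
      (e 4).length = (e 3).length ^ (K + 1) + 0) ∧ (e 2).length = 15 * (e 4).length + 1 :=
    ((P1_lam 0 1 3).and (nexp_powAdd (K + 1) 0 3 4)).and (nexp_lin 15 1 4 2)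
  have h2 : NEXP O fun e : Fin 3 → List Bool => ∃ a b : List Bool,
      (a.length = ((e 0).length + (e 1).length) ^ 2 + (e 0).length ∧
      b.length = a.length ^ (K + 1) + 0) ∧ (e 2).length = 15 * b.length + 1 := by
    refine nexp_ex2 (R := fun (e : Fin 3 → List Bool) a b =>
      (a.length = ((e 0).length + (e 1).length) ^ 2 + (e 0).length ∧
      b.length = a.length ^ (K + 1) + 0) ∧ (e 2).length = 15 * b.length + 1) h1
      (g := fun n => n) PolyB.id monotone_id ?_
    rintro e a b ⟨⟨-, h3⟩, h4⟩
    have h5 := len_le_size e 2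
    have h6 : a.length ≤ a.length ^ (K + 1) := Nat.le_self_pow (by omega) _
    constructor <;> omega
  refine (h2.reindex ![i, j, l]).congr fun e => ?_
  simp only [Matrix.cons_val_zero, Matrix.cons_val_one, Matrix.cons_val]
  constructor
  · rintro ⟨a, b, ⟨h3, h4⟩, h5⟩
    unfold ll
    rw [h5, h4, h3]
    ring
  · intro h
    refine ⟨List.replicate (((e i).length + (e j).length) ^ 2 + (e i).length) true,
      List.replicate ((((e i).length + (e j).length) ^ 2 + (e i).length) ^ (K + 1)) true,
      ⟨by simp, by simp⟩, ?_⟩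
    rw [h, List.length_replicate, ll]

theorem P1_hh (C : ℕ) {k : ℕ} (i j : Fin k) : NEXP O fun e : Fin k → List Bool =>
    (e j).length = hh C (e i).length := by
  refine (Pool.Agent.LibDual85.nexp_logMul (9 * C) 18 i j).congr fun e => ?_
  unfold hh
  rw [show 9 * (C * Nat.log 2 ((e i).length + 1) + 2) = 9 * C * Nat.log 2 ((e i).length + 1) + 18
    by ring]

theorem P1_aa (C : ℕ) {k : ℕ} (i j : Fin k) : NEXP O fun e : Fin k → List Bool =>
    (e j).length = aa C (e i).length := by
  refine (Pool.Agent.LibDual85.nexp_logMul (36 * C) 84 i j).congr fun e => ?_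
  unfold aa hh
  rw [show 4 * (9 * (C * Nat.log 2 ((e i).length + 1) + 2)) + 12 =
    36 * C * Nat.log 2 ((e i).length + 1) + 84 by ring]

theorem P1_val_bits_self (n : ℕ) : val (bits n n) = n := val_bits Nat.lt_two_pow_self

theorem P1_leVal {k : ℕ} (i j : Fin k) : NEXP O fun e : Fin k → List Bool =>
    (e i).length ≤ val (e j) := by
  have h1 : NEXP O fun e : Fin 3 → List Bool => ((e 2).length = 1 * (e 0).length + 0 ∧
      val (e 2) = (e 0).length) ∧ val (e 2) ≤ val (e 1) :=
    ((nexp_lin 1 0 0 2).and (Pool.Agent.LibDual85.nexp_valLen 2 0)).and (nexp_vLe 2 1)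
  have h2 : NEXP O fun e : Fin 2 → List Bool => ∃ s : List Bool,
      (s.length = 1 * (e 0).length + 0 ∧ val s = (e 0).length) ∧ val s ≤ val (e 1) := by
    refine nexp_ex (R := fun (e : Fin 2 → List Bool) s =>
      (s.length = 1 * (e 0).length + 0 ∧ val s = (e 0).length) ∧ val s ≤ val (e 1)) h1
      (g := fun n => n) PolyB.id ?_
    rintro e s ⟨⟨h, -⟩, -⟩
    have := len_le_size e 0
    omega
  refine (h2.reindex ![i, j]).congr fun e => ?_
  simp only [Matrix.cons_val_zero, Matrix.cons_val_one]
  constructor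
  · rintro ⟨s, ⟨-, h3⟩, h4⟩
    rw [← h3]
    exact h4
  · intro h
    refine ⟨bits (e i).length (e i).length, ⟨?_, P1_val_bits_self _⟩, ?_⟩
    · rw [length_bits]
      ring
    · rw [P1_val_bits_self]
      exact h

theorem P1_le2 {k : ℕ} (i j : Fin k) : NEXP O fun e : Fin k → List Bool =>
    (e i).length ≤ 2 ^ (e j).length := by
  have h1 : NEXP O fun e : Fin 3 → List Bool => ((e 2).length = 1 * (e 1).length + 1 ∧
      val (e 2) = 2 ^ (e 1).length) ∧ (e 0).length ≤ val (e 2) :=
    ((nexp_lin 1 1 1 2).and (nexp_vPow 1 2)).and (P1_leVal 0 2)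
  have h2 : NEXP O fun e : Fin 2 → List Bool => ∃ s : List Bool,
      (s.length = 1 * (e 1).length + 1 ∧ val s = 2 ^ (e 1).length) ∧ (e 0).length ≤ val s := by
    refine nexp_ex (R := fun (e : Fin 2 → List Bool) s =>
      (s.length = 1 * (e 1).length + 1 ∧ val s = 2 ^ (e 1).length) ∧ (e 0).length ≤ val s) h1
      (g := fun n => n + 1) PolyB.id.succ ?_
    rintro e s ⟨⟨h, -⟩, -⟩
    have := len_le_size e 1
    show _ ≤ size e + 1
    omega
  refine (h2.reindex ![i, j]).congr fun e => ?_
  simp only [Matrix.cons_val_zero, Matrix.cons_val_one]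
  have hv : val (bits ((e j).length + 1) (2 ^ (e j).length)) = 2 ^ (e j).length :=
    val_bits (Nat.pow_lt_pow_right (by norm_num) (by omega))
  constructor
  · rintro ⟨s, ⟨-, h3⟩, h4⟩
    rw [← h3]
    exact h4
  · intro h
    refine ⟨bits ((e j).length + 1) (2 ^ (e j).length), ⟨?_, hv⟩, ?_⟩
    · rw [length_bits]
      ring
    · rw [hv]
      exact h

theorem P1_cons (b : Bool) {k : ℕ} (i j : Fin k) : NEXP O fun e : Fin k → List Bool =>
    e j = b :: e i := by
  refine ((nexp_subst (O := O) (fun _ => []) (fun b => [b]) [b]).reindex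
    ![i, i, j]).congr fun e => ?_
  simp [misc_flatMap_nil]

theorem P1_sub {k : ℕ} (i j l : Fin k) : NEXP O fun e : Fin k → List Bool =>
    ∃ y p : List Bool, e i = y ++ p ∧ y.length = (e j).length ∧ (e l).length ≤ val y := by
  have h1 : NEXP O fun e : Fin 5 → List Bool => (e 0 = e 3 ++ e 4 ∧
      (e 3).length = 1 * (e 1).length + 0) ∧ (e 2).length ≤ val (e 3) :=
    ((nexp_append 3 4 0).and (nexp_lin 1 0 1 3)).and (P1_leVal 2 3)
  have h2 : NEXP O fun e : Fin 3 → List Bool => ∃ a b : List Bool, (e 0 = a ++ b ∧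
      a.length = 1 * (e 1).length + 0) ∧ (e 2).length ≤ val a := by
    refine nexp_ex2 (R := fun (e : Fin 3 → List Bool) a b => (e 0 = a ++ b ∧
      a.length = 1 * (e 1).length + 0) ∧ (e 2).length ≤ val a) h1
      (g := fun n => n) PolyB.id monotone_id ?_
    rintro e a b ⟨⟨h3, -⟩, -⟩
    have h5 := len_le_size e 0
    rw [h3, List.length_append] at h5
    constructor <;> omega
  refine (h2.reindex ![i, j, l]).congr fun e => ?_
  simp only [Matrix.cons_val_zero, Matrix.cons_val_one, Matrix.cons_val, one_mul, add_zero]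
  constructor
  · rintro ⟨a, b, ⟨h3, h4⟩, h5⟩
    exact ⟨a, b, h3, h4, h5⟩
  · rintro ⟨a, b, h3, h4, h5⟩
    exact ⟨a, b, ⟨h3, h4⟩, h5⟩

theorem P1_true {A : Lang} {n a u : ℕ} {x y p : List Bool} (hx : x.length = n) (hy : y.length = a) :
    f0 A n a u (true :: (x ++ (y ++ p))) ↔ val y < u := by
  constructor
  · rintro ⟨b, x', y', p', h, hx', hy', hb⟩
    obtain ⟨h1, h2⟩ := List.cons.inj h
    obtain ⟨h3, h4⟩ := List.append_inj h2 (by rw [hx, hx'])
    obtain ⟨h5, h6⟩ := List.append_inj h4 (by rw [hy, hy'])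
    rw [← h1, if_pos rfl] at hb
    rw [h5]
    exact hb
  · intro h
    exact ⟨true, x, y, p, rfl, hx, hy, by rw [if_pos rfl]; exact h⟩

theorem P1_false {A : Lang} {n a u : ℕ} {x q : List Bool} (hx : x.length = n) (hq : a ≤ q.length) :
    f0 A n a u (false :: (x ++ q)) ↔ x ∉ A := by
  constructor
  · rintro ⟨b, x', y', p', h, hx', hy', hb⟩
    obtain ⟨h1, h2⟩ := List.cons.inj h
    obtain ⟨h3, h4⟩ := List.append_inj h2 (by rw [hx, hx'])
    rw [← h1] at hb
    rw [h3]
    simpa using hb
  · intro h
    refine ⟨false, x, q.take a, q.drop a, ?_, hx, ?_, ?_⟩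
    · rw [List.take_append_drop]
    · rw [List.length_take]
      omega
    · simpa using h

theorem P1_nf0_iff {A : Lang} {n a u : ℕ} {z : List Bool} : ¬ f0 A n a u z ↔
    (¬ n + a + 1 ≤ z.length ∨ ∃ r x q : List Bool, r = x ++ q ∧ x.length = n ∧
      ((z = true :: r ∧ ∃ y p : List Bool, q = y ++ p ∧ y.length = a ∧ u ≤ val y) ∨
        (z = false :: r ∧ a ≤ q.length ∧ x ∈ A))) := by
  constructor
  · intro h
    by_cases hl : n + a + 1 ≤ z.length
    · right
      obtain ⟨b, r, rfl⟩ : ∃ b r, z = b :: r := by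
        cases z with
        | nil => simp at hl
        | cons b r => exact ⟨b, r, rfl⟩
      rw [List.length_cons] at hl
      have hx : (r.take n).length = n := by
        rw [List.length_take]
        omega
      have hq : a ≤ (r.drop n).length := by
        rw [List.length_drop]
        omega
      refine ⟨r, r.take n, r.drop n, (List.take_append_drop n r).symm, hx, ?_⟩
      cases b
      · right
        refine ⟨rfl, hq, ?_⟩
        by_contra hA
        apply h
        rw [show r = r.take n ++ r.drop n from (List.take_append_drop n r).symm]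
        exact (P1_false hx hq).2 hA
      · left
        have hy : ((r.drop n).take a).length = a := by
          rw [List.length_take]
          omega
        refine ⟨rfl, (r.drop n).take a, (r.drop n).drop a, (List.take_append_drop a _).symm, hy, ?_⟩
        by_contra hu
        apply h
        rw [show r = r.take n ++ ((r.drop n).take a ++ (r.drop n).drop a) by
          rw [List.take_append_drop, List.take_append_drop]]
        exact (P1_true hx hy).2 (by omega)
    · exact Or.inl hl
  · rintro (h | ⟨r, x, q, rfl, hx, (⟨rfl, y, p, rfl, hy, hu⟩ | ⟨rfl, hq, hA⟩)⟩)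
    · rintro ⟨b, x, y, p, rfl, hx, hy, -⟩
      apply h
      simp only [List.length_cons, List.length_append]
      omega
    · rw [P1_true hx hy]
      omega
    · rw [P1_false hx hq]
      exact fun h => h hA

theorem P1_short {k : ℕ} (i j l : Fin k) : NEXP O fun e : Fin k → List Bool =>
    ¬ (e i).length + (e j).length + 1 ≤ (e l).length := by
  have h1 : NEXP O fun e : Fin 4 → List Bool => (e 3).length = (e 0).length + (e 1).length ∧
      (e 2).length ≤ (e 3).length := (P1_add 0 1 3).and (nexp_lenLe 2 3)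
  have h2 : NEXP O fun e : Fin 3 → List Bool => ∃ w : List Bool,
      w.length = (e 0).length + (e 1).length ∧ (e 2).length ≤ w.length := by
    refine nexp_ex (R := fun (e : Fin 3 → List Bool) w =>
      w.length = (e 0).length + (e 1).length ∧ (e 2).length ≤ w.length) h1
      (g := fun n => n + n) (PolyB.id.add PolyB.id) ?_
    rintro e w ⟨h, -⟩
    have h3 := len_le_size e 0
    have h4 := len_le_size e 1
    show _ ≤ size e + size e
    omega
  refine (h2.reindex ![i, j, l]).congr fun e => ?_
  simp only [Matrix.cons_val_zero, Matrix.cons_val_one, Matrix.cons_val]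
  constructor
  · rintro ⟨w, h3, h4⟩
    omega
  · intro h
    exact ⟨List.replicate ((e i).length + (e j).length) true, by simp, by
      rw [List.length_replicate]
      omega⟩

theorem P1_nf0 {A : Lang} (hA : A ∈ NEXPLang O) {k : ℕ} (i j l m : Fin k) :
    NEXP O fun e : Fin k → List Bool =>
      ¬ f0 A (e i).length (e j).length (e l).length (e m) := by
  have h1 : NEXP O fun e : Fin 7 → List Bool => (e 4 = e 5 ++ e 6 ∧
      (e 5).length = 1 * (e 0).length + 0) ∧
      ((e 3 = true :: e 4 ∧ ∃ y p : List Bool, e 6 = y ++ p ∧ y.length = (e 1).length ∧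
        (e 2).length ≤ val y) ∨
        (e 3 = false :: e 4 ∧ ((e 1).length ≤ (e 6).length ∧ e 5 ∈ A))) :=
    ((nexp_append 5 6 4).and (nexp_lin 1 0 0 5)).and
      (((P1_cons true 4 3).and (P1_sub 6 1 2)).or
        ((P1_cons false 4 3).and ((nexp_lenLe 1 6).and (nexp_mem hA 5))))
  have h2 : NEXP O fun e : Fin 5 → List Bool => ∃ x q : List Bool, (e 4 = x ++ q ∧
      x.length = 1 * (e 0).length + 0) ∧
      ((e 3 = true :: e 4 ∧ ∃ y p : List Bool, q = y ++ p ∧ y.length = (e 1).length ∧
        (e 2).length ≤ val y) ∨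
        (e 3 = false :: e 4 ∧ ((e 1).length ≤ q.length ∧ x ∈ A))) := by
    refine nexp_ex2 (R := fun (e : Fin 5 → List Bool) x q => (e 4 = x ++ q ∧
      x.length = 1 * (e 0).length + 0) ∧
      ((e 3 = true :: e 4 ∧ ∃ y p : List Bool, q = y ++ p ∧ y.length = (e 1).length ∧
        (e 2).length ≤ val y) ∨
        (e 3 = false :: e 4 ∧ ((e 1).length ≤ q.length ∧ x ∈ A)))) h1
      (g := fun n => n) PolyB.id monotone_id ?_
    rintro e a b ⟨⟨h3, -⟩, -⟩
    have h5 := len_le_size e 4
    rw [h3, List.length_append] at h5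
    constructor <;> omega
  have h3 : NEXP O fun e : Fin 4 → List Bool => ∃ r x q : List Bool, (r = x ++ q ∧
      x.length = 1 * (e 0).length + 0) ∧
      ((e 3 = true :: r ∧ ∃ y p : List Bool, q = y ++ p ∧ y.length = (e 1).length ∧
        (e 2).length ≤ val y) ∨
        (e 3 = false :: r ∧ ((e 1).length ≤ q.length ∧ x ∈ A))) := by
    refine nexp_ex (R := fun (e : Fin 4 → List Bool) r => ∃ x q : List Bool, (r = x ++ q ∧
      x.length = 1 * (e 0).length + 0) ∧
      ((e 3 = true :: r ∧ ∃ y p : List Bool, q = y ++ p ∧ y.length = (e 1).length ∧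
        (e 2).length ≤ val y) ∨
        (e 3 = false :: r ∧ ((e 1).length ≤ q.length ∧ x ∈ A)))) h2
      (g := fun n => n) PolyB.id ?_
    rintro e r ⟨x, q, -, (⟨h4, -⟩ | ⟨h4, -⟩)⟩
    · have h5 := len_le_size e 3
      rw [h4, List.length_cons] at h5
      omega
    · have h5 := len_le_size e 3
      rw [h4, List.length_cons] at h5
      omega
  have h4 : NEXP O fun e : Fin 4 → List Bool =>
      ¬ f0 A (e 0).length (e 1).length (e 2).length (e 3) := by
    refine ((P1_short 0 1 3).or h3).congr fun e => ?_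
    rw [P1_nf0_iff]
    simp only [one_mul, add_zero]
    constructor
    · rintro (h | ⟨r, x, q, ⟨g1, g2⟩, g3⟩)
      · exact Or.inl h
      · exact Or.inr ⟨r, x, q, g1, g2, g3⟩
    · rintro (h | ⟨r, x, q, g1, g2, g3⟩)
      · exact Or.inl h
      · exact Or.inr ⟨r, x, q, ⟨g1, g2⟩, g3⟩
  refine (h4.reindex ![i, j, l, m]).congr fun e => ?_
  simp only [Matrix.cons_val_zero, Matrix.cons_val_one, Matrix.cons_val]

/-- PLAN. `¬ f0` is in NEXP (as a predicate of `z` and strings of lengths `n`, `a`, `u`): for
`|z| ≥ 1 + n + a` (true for `z` of length `ll K n u`? not for small `n`: use the definition of `f0`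
literally: `¬ f0` iff `|z| < 1 + n + a`, or `z = b :: (x ++ (y ++ p))` with
`b = true ∧ u ≤ val y` or `b = false ∧ x ∈ A`). Then `nexp_tree`, the length relations (`nexp_logMul`
from LibDual85/Log, `nexp_lin`, `nexp_powAdd`, `nexp_powLen`), and existential quantifiers over strings
of lengths `n`, `u`, `hh C n`, `aa C n`, `ll K n u`, all polynomially bounded in `|z|`
(`n, u < ll K n u ≤ |z|`, `hh, aa` at most linear in `n`); `u ≤ 2 ^ aa C n`: `nexp_vPow`, `nexp_valLen`. -/
theorem al_mem {A : Lang} (hA : A ∈ NEXPLang O) (C K : ℕ) : AL A C K ∈ NEXPLang O := by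
  -- variables: z, n, u, h, a, l
  have ht : NEXP O fun e : Fin 6 → List Bool =>
      (e 0).length = 15 ^ (e 3).length * (e 5).length ∧
        tree (fun z => ¬ f0 A (e 1).length (e 4).length (e 2).length z) (e 5).length
          (e 3).length (e 0) := by
    refine nexp_tree (R := fun (e : Fin 6 → List Bool) z =>
      ¬ f0 A (e 1).length (e 4).length (e 2).length z) ?_ 5 3 0
    exact (P1_nf0 hA (k := 7) 1 4 2 6)
  have h1 : NEXP O fun e : Fin 6 → List Bool =>
      (((e 3).length = hh C (e 1).length ∧ (e 4).length = aa C (e 1).length) ∧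
        ((e 5).length = ll K (e 1).length (e 2).length ∧ (e 2).length ≤ 2 ^ (e 4).length)) ∧
      ((e 0).length = 15 ^ (e 3).length * (e 5).length ∧
        tree (fun z => ¬ f0 A (e 1).length (e 4).length (e 2).length z) (e 5).length
          (e 3).length (e 0)) :=
    (((P1_hh C 1 3).and (P1_aa C 1 4)).and ((P1_ll K 1 2 5).and (P1_le2 2 4))).and ht
  have hlen : ∀ h l : ℕ, 1 ≤ l → h ≤ 15 ^ h * l ∧ l ≤ 15 ^ h * l := by
    intro h l hl
    constructor
    · calc h ≤ 15 ^ h := (Nat.lt_pow_self (by norm_num)).le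
        _ = 15 ^ h * 1 := (mul_one _).symm
        _ ≤ 15 ^ h * l := Nat.mul_le_mul_left _ hl
    · exact Nat.le_mul_of_pos_left l (by positivity)
  have hll : ∀ n u : ℕ, 1 ≤ ll K n u ∧ n ≤ ll K n u ∧ u ≤ ll K n u := by
    intro n u
    have h3 : (n + u) ^ 2 + n ≤ ((n + u) ^ 2 + n) ^ (K + 1) := Nat.le_self_pow (by omega) _
    have h4 : n + u ≤ (n + u) ^ 2 := Nat.le_self_pow (by norm_num) _
    unfold ll
    refine ⟨by omega, by omega, by omega⟩
  have h2 : NEXP O fun e : Fin 4 → List Bool => ∃ a l : List Bool,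
      (((e 3).length = hh C (e 1).length ∧ a.length = aa C (e 1).length) ∧
        (l.length = ll K (e 1).length (e 2).length ∧ (e 2).length ≤ 2 ^ a.length)) ∧
      ((e 0).length = 15 ^ (e 3).length * l.length ∧
        tree (fun z => ¬ f0 A (e 1).length a.length (e 2).length z) l.length
          (e 3).length (e 0)) := by
    refine nexp_ex2 (R := fun (e : Fin 4 → List Bool) a l =>
      (((e 3).length = hh C (e 1).length ∧ a.length = aa C (e 1).length) ∧
        (l.length = ll K (e 1).length (e 2).length ∧ (e 2).length ≤ 2 ^ a.length)) ∧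
      ((e 0).length = 15 ^ (e 3).length * l.length ∧
        tree (fun z => ¬ f0 A (e 1).length a.length (e 2).length z) l.length
          (e 3).length (e 0))) h1
      (g := fun n => 4 * n + 12) (((PolyB.const 4).mul PolyB.id).add (PolyB.const 12)) ?_ ?_
    · intro a b hab
      show 4 * a + 12 ≤ 4 * b + 12
      omega
    · rintro e a l ⟨⟨⟨g1, g2⟩, g3, -⟩, g4, -⟩
      have h5 := len_le_size e 3
      have h6 := len_le_size e 0
      have h7 := (hll (e 1).length (e 2).length).1
      rw [← g3] at h7
      have h8 := (hlen (e 3).length l.length h7).2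
      rw [← g4] at h8
      unfold aa at g2
      rw [← g1] at g2
      show _ ≤ 4 * size e + 12 ∧ _ ≤ 4 * size e + 12
      constructor <;> omega
  have h3 : NEXP O fun e : Fin 2 → List Bool => ∃ u h : List Bool, ∃ a l : List Bool,
      ((h.length = hh C (e 1).length ∧ a.length = aa C (e 1).length) ∧
        (l.length = ll K (e 1).length u.length ∧ u.length ≤ 2 ^ a.length)) ∧
      ((e 0).length = 15 ^ h.length * l.length ∧
        tree (fun z => ¬ f0 A (e 1).length a.length u.length z) l.length
          h.length (e 0)) := by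
    refine nexp_ex2 (R := fun (e : Fin 2 → List Bool) u h => ∃ a l : List Bool,
      ((h.length = hh C (e 1).length ∧ a.length = aa C (e 1).length) ∧
        (l.length = ll K (e 1).length u.length ∧ u.length ≤ 2 ^ a.length)) ∧
      ((e 0).length = 15 ^ h.length * l.length ∧
        tree (fun z => ¬ f0 A (e 1).length a.length u.length z) l.length
          h.length (e 0))) h2
      (g := fun n => n) PolyB.id monotone_id ?_
    rintro e u h ⟨a, l, ⟨⟨-, -⟩, g3, -⟩, g4, -⟩
    have h6 := len_le_size e 0
    have h7 := hll (e 1).length u.length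
    rw [← g3] at h7
    have h8 := hlen h.length l.length h7.1
    rw [← g4] at h8
    constructor <;> omega
  have h4 : NEXP O fun e : Fin 1 → List Bool => ∃ n : List Bool, ∃ u h : List Bool,
      ∃ a l : List Bool,
      ((h.length = hh C n.length ∧ a.length = aa C n.length) ∧
        (l.length = ll K n.length u.length ∧ u.length ≤ 2 ^ a.length)) ∧
      ((e 0).length = 15 ^ h.length * l.length ∧
        tree (fun z => ¬ f0 A n.length a.length u.length z) l.length
          h.length (e 0)) := by
    refine nexp_ex (R := fun (e : Fin 1 → List Bool) n => ∃ u h : List Bool, ∃ a l : List Bool,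
      ((h.length = hh C n.length ∧ a.length = aa C n.length) ∧
        (l.length = ll K n.length u.length ∧ u.length ≤ 2 ^ a.length)) ∧
      ((e 0).length = 15 ^ h.length * l.length ∧
        tree (fun z => ¬ f0 A n.length a.length u.length z) l.length
          h.length (e 0))) h3
      (g := fun n => n) PolyB.id ?_
    rintro e n ⟨u, h, a, l, ⟨⟨-, -⟩, g3, -⟩, g4, -⟩
    have h6 := len_le_size e 0
    have h7 := hll n.length u.length
    rw [← g3] at h7
    have h8 := hlen h.length l.length h7.1
    rw [← g4] at h8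
    omega
  refine h4.congr fun e => ?_
  constructor
  · rintro ⟨n, u, h, a, l, ⟨⟨g1, g2⟩, g3, g4⟩, g5, g6⟩
    refine ⟨n.length, u.length, ?_, ?_, ?_⟩
    · rw [g5, g1, g3]
    · rw [← g2]
      exact g4
    · rw [← g1, ← g2, ← g3]
      exact g6
  · rintro ⟨n, u, g1, g2, g3⟩
    refine ⟨List.replicate n true, List.replicate u true, List.replicate (hh C n) true,
      List.replicate (aa C n) true, List.replicate (ll K n u) true, ?_⟩
    simp only [List.length_replicate]
    exact ⟨⟨⟨trivial, trivial⟩, trivial, g2⟩, g1, g3⟩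

end Pool.Agent.LibAV75
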