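import Pool.Agent.LibAV75.P1

/-!
Row P2: the decoder.
-/

namespace Pool.Agent.LibAV75

open Filter Function Pool.Agent.LibNexp Pool.Agent.LibBHN

variable {O : List Bool → Bool}

/-- The decoded language: `u` is the number of blocks of the census of `A`, certified. -/
def AD (A N' : Lang) (C K n₀ : ℕ) : Lang := {x | n₀ ≤ x.length ∧ ∃ u, u ≤ 2 ^ aa C x.length ∧
  u * 2 ^ (x.length - aa C x.length) ≤ cnt x.length (fun y => y ∈ A) ∧
  cnt x.length (fun y => y ∈ A) < (u + 1) * 2 ^ (x.length - aa C x.length) ∧
  2 ^ (ll K x.length u - 1 - x.length) ≤ 2 * cnt (ll K x.length u - 1 - x.length) fun q =>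
    dt (fun z => z ∈ N') (ll K x.length u) (hh C x.length) (hh C x.length)
      (false :: (x ++ q))}

theorem P2_cnt_congr {n : ℕ} {P Q : List Bool → Prop}
    (h : ∀ x : List Bool, x.length = n → (P x ↔ Q x)) : cnt n P = cnt n Q := by
  classical
  unfold cnt
  congr 1
  ext m
  simp only [Finset.mem_filter, Finset.mem_range]
  rw [h _ (length_bits _ _)]

theorem P2_sub {k : ℕ} (i j l : Fin k) : NEXP O fun e : Fin k → List Bool =>
    (e l).length = (e i).length - (e j).length := by
  refine ((P1_add l j i).or ((nexp_lenLe i j).and (nexp_const [] l))).congr fun e => ?_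
  constructor
  · rintro (h | ⟨h1, h2⟩)
    · omega
    · rw [h2, List.length_nil]
      omega
  · intro h
    by_cases h1 : (e i).length ≤ (e j).length
    · right
      refine ⟨h1, ?_⟩
      rw [← List.length_eq_zero_iff]
      omega
    · left
      omega

theorem P2_add1 {k : ℕ} (i j l : Fin k) : NEXP O fun e : Fin k → List Bool =>
    (e l).length = (e i).length + (e j).length + 1 := by
  have h1 : NEXP O fun e : Fin 4 → List Bool => (e 3).length = (e 0).length + (e 1).length ∧
      (e 2).length = 1 * (e 3).length + 1 := (P1_add 0 1 3).and (nexp_lin 1 1 3 2)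
  have h2 : NEXP O fun e : Fin 3 → List Bool => ∃ w : List Bool,
      w.length = (e 0).length + (e 1).length ∧ (e 2).length = 1 * w.length + 1 := by
    refine nexp_ex (R := fun (e : Fin 3 → List Bool) w =>
      w.length = (e 0).length + (e 1).length ∧ (e 2).length = 1 * w.length + 1) h1
      (g := fun n => n) PolyB.id ?_
    rintro e w ⟨-, h⟩
    have := len_le_size e 2
    omega
  refine (h2.reindex ![i, j, l]).congr fun e => ?_
  simp only [Matrix.cons_val_zero, Matrix.cons_val_one, Matrix.cons_val]
  constructor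
  · rintro ⟨w, h3, h4⟩
    omega
  · intro h
    exact ⟨List.replicate ((e i).length + (e j).length) true, by simp, by
      rw [List.length_replicate]
      omega⟩

theorem P2_log (n : ℕ) : Nat.log 2 (n + 1) ≤ n := by
  have h3 := Nat.log_lt_of_lt_pow (b := 2) (x := n + 1) (y := n + 1) (by omega)
    Nat.lt_two_pow_self
  omega

theorem P2_hh (C n : ℕ) : hh C n ≤ 9 * C * n + 18 := by
  unfold hh
  have h := Nat.mul_le_mul_left (9 * C) (P2_log n)
  calc 9 * (C * Nat.log 2 (n + 1) + 2) = 9 * C * Nat.log 2 (n + 1) + 18 := by ring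
    _ ≤ 9 * C * n + 18 := by omega

theorem P2_aa (C n : ℕ) : aa C n ≤ 4 * (9 * C * n + 18) + 12 := by
  unfold aa
  have := P2_hh C n
  omega

/-- A polynomial bound. -/
def P2_G (C n : ℕ) : ℕ := 2 ^ 84 * (n + 1) ^ (36 * C)

theorem P2_G_poly (C : ℕ) : PolyB (P2_G C) := (PolyB.const _).mul (PolyB.id.succ.pow _)

theorem P2_G_mono (C : ℕ) : Monotone (P2_G C) := by
  intro a b hab
  unfold P2_G
  exact Nat.mul_le_mul_left _ (Nat.pow_le_pow_left (by omega) _)

theorem P2_two (C n : ℕ) : 2 ^ aa C n ≤ P2_G C n := by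
  unfold aa hh P2_G
  rw [show 4 * (9 * (C * Nat.log 2 (n + 1) + 2)) + 12 = 84 + Nat.log 2 (n + 1) * (36 * C) by ring,
    pow_add, pow_mul]
  exact Nat.mul_le_mul_left _ (Nat.pow_le_pow_left (Nat.pow_log_le_self 2 (by omega)) _)

theorem P2_fifteen (C n : ℕ) : 15 ^ hh C n ≤ P2_G C n := by
  refine le_trans ?_ (P2_two C n)
  calc 15 ^ hh C n ≤ 16 ^ hh C n := Nat.pow_le_pow_left (by norm_num) _
    _ = 2 ^ (4 * hh C n) := by rw [pow_mul]; norm_num
    _ ≤ 2 ^ aa C n := Nat.pow_le_pow_right (by norm_num) (by unfold aa; omega)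

theorem P2_ge {A : Lang} (hA : A ∈ NEXPLang O) (C : ℕ) {k : ℕ} (i j : Fin k) :
    NEXP O fun e : Fin k → List Bool =>
      (e i).length * 2 ^ ((e j).length - aa C (e j).length) ≤
        cnt (e j).length fun y => y ∈ A := by
  -- variables: w, x, a, d, v, s, t
  have h1 : NEXP O fun e : Fin 7 → List Bool =>
      (((e 2).length = aa C (e 1).length ∧ (e 3).length = (e 1).length - (e 2).length) ∧
      ((val (e 4) = (e 0).length ∧ (e 4).length = 1 * (e 0).length + 0) ∧
        (val (e 5) = 2 ^ (e 3).length ∧ (e 5).length = 1 * (e 3).length + 1))) ∧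
      ((val (e 6) = val (e 4) * val (e 5) ∧ (e 6).length = (e 4).length + (e 5).length) ∧
        val (e 6) ≤ cnt (e 1).length fun y => y ∈ A) :=
    (((P1_aa C 1 2).and (P2_sub 1 2 3)).and
      (((Pool.Agent.LibDual85.nexp_valLen 4 0).and (nexp_lin 1 0 0 4)).and
        ((nexp_vPow 3 5).and (nexp_lin 1 1 3 5)))).and
      (((nexp_vMul 4 5 6).and (P1_add 4 5 6)).and
        (nexp_ge (R := fun _ y => y ∈ A) (nexp_mem hA (Fin.last 7)) 6 1))
  have h2 : NEXP O fun e : Fin 5 → List Bool => ∃ s t : List Bool,
      (((e 2).length = aa C (e 1).length ∧ (e 3).length = (e 1).length - (e 2).length) ∧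
      ((val (e 4) = (e 0).length ∧ (e 4).length = 1 * (e 0).length + 0) ∧
        (val s = 2 ^ (e 3).length ∧ s.length = 1 * (e 3).length + 1))) ∧
      ((val t = val (e 4) * val s ∧ t.length = (e 4).length + s.length) ∧
        val t ≤ cnt (e 1).length fun y => y ∈ A) := by
    refine nexp_ex2 (R := fun (e : Fin 5 → List Bool) s t =>
      (((e 2).length = aa C (e 1).length ∧ (e 3).length = (e 1).length - (e 2).length) ∧
      ((val (e 4) = (e 0).length ∧ (e 4).length = 1 * (e 0).length + 0) ∧
        (val s = 2 ^ (e 3).length ∧ s.length = 1 * (e 3).length + 1))) ∧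
      ((val t = val (e 4) * val s ∧ t.length = (e 4).length + s.length) ∧
        val t ≤ cnt (e 1).length fun y => y ∈ A)) h1
      (g := fun n => 2 * n + 1) (((PolyB.const 2).mul PolyB.id).add (PolyB.const 1)) ?_ ?_
    · intro a b hab
      show 2 * a + 1 ≤ 2 * b + 1
      omega
    · rintro e s t ⟨⟨-, -, -, g1⟩, ⟨-, g2⟩, -⟩
      have h5 := len_le_size e 3
      have h6 := len_le_size e 4
      show _ ≤ 2 * size e + 1 ∧ _ ≤ 2 * size e + 1
      constructor <;> omega
  have h3 : NEXP O fun e : Fin 3 → List Bool => ∃ d v : List Bool, ∃ s t : List Bool,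
      (((e 2).length = aa C (e 1).length ∧ d.length = (e 1).length - (e 2).length) ∧
      ((val v = (e 0).length ∧ v.length = 1 * (e 0).length + 0) ∧
        (val s = 2 ^ d.length ∧ s.length = 1 * d.length + 1))) ∧
      ((val t = val v * val s ∧ t.length = v.length + s.length) ∧
        val t ≤ cnt (e 1).length fun y => y ∈ A) := by
    refine nexp_ex2 (R := fun (e : Fin 3 → List Bool) d v => ∃ s t : List Bool,
      (((e 2).length = aa C (e 1).length ∧ d.length = (e 1).length - (e 2).length) ∧
      ((val v = (e 0).length ∧ v.length = 1 * (e 0).length + 0) ∧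
        (val s = 2 ^ d.length ∧ s.length = 1 * d.length + 1))) ∧
      ((val t = val v * val s ∧ t.length = v.length + s.length) ∧
        val t ≤ cnt (e 1).length fun y => y ∈ A)) h2
      (g := fun n => n) PolyB.id monotone_id ?_
    rintro e d v ⟨s, t, ⟨⟨-, g1⟩, ⟨-, g2⟩, -⟩, -⟩
    have h5 := len_le_size e 1
    have h6 := len_le_size e 0
    constructor <;> omega
  have h4 : NEXP O fun e : Fin 2 → List Bool => ∃ a : List Bool, ∃ d v : List Bool,
      ∃ s t : List Bool,
      ((a.length = aa C (e 1).length ∧ d.length = (e 1).length - a.length) ∧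
      ((val v = (e 0).length ∧ v.length = 1 * (e 0).length + 0) ∧
        (val s = 2 ^ d.length ∧ s.length = 1 * d.length + 1))) ∧
      ((val t = val v * val s ∧ t.length = v.length + s.length) ∧
        val t ≤ cnt (e 1).length fun y => y ∈ A) := by
    refine nexp_ex (R := fun (e : Fin 2 → List Bool) a => ∃ d v : List Bool,
      ∃ s t : List Bool,
      ((a.length = aa C (e 1).length ∧ d.length = (e 1).length - a.length) ∧
      ((val v = (e 0).length ∧ v.length = 1 * (e 0).length + 0) ∧
        (val s = 2 ^ d.length ∧ s.length = 1 * d.length + 1))) ∧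
      ((val t = val v * val s ∧ t.length = v.length + s.length) ∧
        val t ≤ cnt (e 1).length fun y => y ∈ A)) h3
      (g := fun n => 4 * (9 * C * n + 18) + 12)
      (((PolyB.const 4).mul (((PolyB.const (9 * C)).mul PolyB.id).add (PolyB.const 18))).add
        (PolyB.const 12)) ?_
    rintro e a ⟨d, v, s, t, ⟨⟨g1, -⟩, -⟩, -⟩
    rw [g1]
    refine (P2_aa C _).trans ?_
    have h5 := Nat.mul_le_mul_left (9 * C) (len_le_size e 1)
    show _ ≤ 4 * (9 * C * size e + 18) + 12
    omega
  refine (h4.reindex ![i, j]).congr fun e => ?_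
  simp only [Matrix.cons_val_zero, Matrix.cons_val_one]
  constructor
  · rintro ⟨a, d, v, s, t, ⟨⟨g1, g2⟩, ⟨g3, -⟩, g4, -⟩, ⟨g5, -⟩, g6⟩
    rw [g5, g3, g4, g2, g1] at g6
    exact g6
  · intro h
    set n := (e j).length with hn
    set w := (e i).length with hw
    have hvw : val (bits w w) = w := P1_val_bits_self w
    have hvs : val (bits (n - aa C n + 1) (2 ^ (n - aa C n))) = 2 ^ (n - aa C n) :=
      val_bits (Nat.pow_lt_pow_right (by norm_num) (by omega))
    have hvt : val (bits (w + (n - aa C n + 1)) (w * 2 ^ (n - aa C n))) =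
        w * 2 ^ (n - aa C n) := by
      refine val_bits ?_
      rw [pow_add]
      exact Nat.mul_lt_mul'' Nat.lt_two_pow_self (Nat.pow_lt_pow_right (by norm_num) (by omega))
    refine ⟨List.replicate (aa C n) true, List.replicate (n - aa C n) true, bits w w,
      bits (n - aa C n + 1) (2 ^ (n - aa C n)),
      bits (w + (n - aa C n + 1)) (w * 2 ^ (n - aa C n)), ⟨⟨?_, ?_⟩, ⟨hvw, ?_⟩, ?_, ?_⟩,
      ⟨?_, ?_⟩, ?_⟩
    · rw [List.length_replicate]
    · rw [List.length_replicate, List.length_replicate]
    · rw [length_bits]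
      ring
    · rw [hvs, List.length_replicate]
    · rw [length_bits, List.length_replicate]
      ring
    · rw [hvt, hvw, hvs]
    · rw [length_bits, length_bits, length_bits]
    · rw [hvt]
      exact h

theorem P2_lt (hM : More O) {A : Lang} (hA : A ∈ NEXPLang O) (C : ℕ) {k : ℕ} (i j : Fin k) :
    NEXP O fun e : Fin k → List Bool =>
      cnt (e j).length (fun y => y ∈ A) <
        ((e i).length + 1) * 2 ^ ((e j).length - aa C (e j).length) := by
  have h1 : NEXP O fun e : Fin 3 → List Bool => (e 2).length = 1 * (e 0).length + 1 ∧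
      (e 2).length * 2 ^ ((e 1).length - aa C (e 1).length) ≤
        cnt (e 1).length fun y => y ∈ A := (nexp_lin 1 1 0 2).and (P2_ge hA C 2 1)
  have h2 : NEXP O fun e : Fin 2 → List Bool => ∃ w : List Bool,
      w.length = 1 * (e 0).length + 1 ∧
      w.length * 2 ^ ((e 1).length - aa C (e 1).length) ≤
        cnt (e 1).length fun y => y ∈ A := by
    refine nexp_ex (R := fun (e : Fin 2 → List Bool) w => w.length = 1 * (e 0).length + 1 ∧
      w.length * 2 ^ ((e 1).length - aa C (e 1).length) ≤
        cnt (e 1).length fun y => y ∈ A) h1 (g := fun n => n + 1) PolyB.id.succ ?_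
    rintro e w ⟨g1, -⟩
    have h5 := len_le_size e 0
    show _ ≤ size e + 1
    omega
  have h3 : NEXP O fun e : Fin 2 → List Bool => ¬ (cnt (e 1).length (fun y => y ∈ A) <
        ((e 0).length + 1) * 2 ^ ((e 1).length - aa C (e 1).length)) := by
    refine h2.congr fun e => ?_
    rw [not_lt]
    constructor
    · rintro ⟨w, g1, g2⟩
      rw [g1, one_mul] at g2
      exact g2
    · intro h
      refine ⟨List.replicate ((e 0).length + 1) true, ?_, ?_⟩
      · rw [List.length_replicate]
        ring
      · rw [List.length_replicate]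
        exact h
  have h4 := p0 hM (U := fun u n => cnt n (fun y => y ∈ A) < (u + 1) * 2 ^ (n - aa C n)) h3
  refine (h4.reindex ![i, j]).congr fun e => ?_
  simp only [Matrix.cons_val_zero, Matrix.cons_val_one]

theorem P2_half {N' : Lang} (hN : N' ∈ NEXPLang O) : NEXP O fun e : Fin 7 → List Bool =>
    2 ^ (e 5).length ≤ 2 * cnt (e 5).length fun q =>
      (e 6).length = 15 ^ (e 3).length * (false :: (e 0 ++ q)).length ∧
        dt (fun z => z ∈ N') (false :: (e 0 ++ q)).length (e 3).length (e 3).length
          (false :: (e 0 ++ q)) := by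
  refine nexp_half (R := fun (e : Fin 7 → List Bool) q =>
      (e 6).length = 15 ^ (e 3).length * (false :: (e 0 ++ q)).length ∧
        dt (fun z => z ∈ N') (false :: (e 0 ++ q)).length (e 3).length (e 3).length
          (false :: (e 0 ++ q))) ?_ 5
  have h0 : NEXP O fun e : Fin 10 → List Bool => (e 6).length = 15 ^ (e 3).length * (e 8).length ∧
      dt (fun z => z ∈ N') (e 8).length (e 3).length (e 3).length (e 8) := by
    refine ((nexp_dt hN).reindex ![8, 3, 6]).congr fun e => ?_
    simp only [Matrix.cons_val_zero, Matrix.cons_val_one, Matrix.cons_val]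
  have h1 : NEXP O fun e : Fin 10 → List Bool => (e 9 = e 0 ++ e 7 ∧ e 8 = false :: e 9) ∧
      ((e 6).length = 15 ^ (e 3).length * (e 8).length ∧
        dt (fun z => z ∈ N') (e 8).length (e 3).length (e 3).length (e 8)) :=
    ((nexp_append 0 7 9).and (P1_cons false 9 8)).and h0
  have h2 : NEXP O fun e : Fin 8 → List Bool => ∃ X y : List Bool,
      (y = e 0 ++ e 7 ∧ X = false :: y) ∧
      ((e 6).length = 15 ^ (e 3).length * X.length ∧
        dt (fun z => z ∈ N') X.length (e 3).length (e 3).length X) := by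
    refine nexp_ex2 (R := fun (e : Fin 8 → List Bool) X y =>
      (y = e 0 ++ e 7 ∧ X = false :: y) ∧
      ((e 6).length = 15 ^ (e 3).length * X.length ∧
        dt (fun z => z ∈ N') X.length (e 3).length (e 3).length X)) h1
      (g := fun n => 2 * n + 1) (((PolyB.const 2).mul PolyB.id).add (PolyB.const 1)) ?_ ?_
    · intro a b hab
      show 2 * a + 1 ≤ 2 * b + 1
      omega
    · rintro e X y ⟨⟨rfl, rfl⟩, -⟩
      have h5 := len_le_size e 0
      have h6 := len_le_size e 7
      show _ ≤ 2 * size e + 1 ∧ _ ≤ 2 * size e + 1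
      simp only [List.length_cons, List.length_append]
      constructor <;> omega
  refine h2.congr fun e => ?_
  constructor
  · rintro ⟨X, y, ⟨rfl, rfl⟩, h⟩
    exact h
  · intro h
    exact ⟨_, _, ⟨rfl, rfl⟩, h⟩

theorem P2_const (n₀ : ℕ) {k : ℕ} (i : Fin k) : NEXP O fun e : Fin k → List Bool =>
    n₀ ≤ (e i).length := by
  have h1 : NEXP O fun e : Fin (k + 1) → List Bool => e (Fin.last k) = List.replicate n₀ true ∧
      (e (Fin.last k)).length ≤ (e i.castSucc).length :=
    (nexp_const _ _).and (nexp_lenLe _ _)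
  have h2 : NEXP O fun e : Fin k → List Bool => ∃ w : List Bool, w = List.replicate n₀ true ∧
      w.length ≤ (e i).length := by
    refine nexp_ex (R := fun (e : Fin k → List Bool) w => w = List.replicate n₀ true ∧
      w.length ≤ (e i).length) (h1.congr fun e => ?_) (g := fun n => n) PolyB.id ?_
    · have h3 : low (Nat.le_add_right k 1) e i = e i.castSucc := rfl
      rw [h3]
    · rintro e w ⟨-, h⟩
      exact h.trans (len_le_size e i)
  refine h2.congr fun e => ?_
  constructor
  · rintro ⟨w, rfl, h⟩
    rw [List.length_replicate] at h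
    exact h
  · intro h
    refine ⟨_, rfl, ?_⟩
    rw [List.length_replicate]
    exact h

theorem P2_ll (K n u : ℕ) : n + 1 ≤ ll K n u := by
  have h3 : (n + u) ^ 2 + n ≤ ((n + u) ^ 2 + n) ^ (K + 1) := Nat.le_self_pow (by omega) _
  unfold ll
  omega

theorem P2_ll_le {K n u s : ℕ} (hn : n ≤ s) (hu : u ≤ s) :
    ll K n u ≤ 15 * ((2 * s) ^ 2 + s) ^ (K + 1) + 1 := by
  unfold ll
  have h1 : (n + u) ^ 2 + n ≤ (2 * s) ^ 2 + s :=
    Nat.add_le_add (Nat.pow_le_pow_left (by omega) _) hn
  have h2 := Nat.pow_le_pow_left h1 (K + 1)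
  omega

/-- PLAN. With `U n u := cnt n (· ∈ A) < (u + 1) * 2 ^ (n - aa C n)`: `¬ U` is in NEXP (`nexp_ge`, a
string `t` with `val t = (u + 1) * 2 ^ (n - aa C n)`, `nexp_vMul`, `nexp_vPow`, `nexp_valLen`,
a string of length `n - aa C n`, `nexp_logMul`), so `U` by `p0`. Then `nexp_dt`, `nexp_half` over `q` of
length `ll K n u - 1 - n`, and the length relations as in `al_mem`; everything is polynomially bounded
in `|x|` as `u ≤ 2 ^ aa C n`. -/
theorem ad_mem (hM : More O) {A N' : Lang} (hA : A ∈ NEXPLang O) (hN : N' ∈ NEXPLang O)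
    (C K n₀ : ℕ) : AD A N' C K n₀ ∈ NEXPLang O := by
  -- variables: x, u, a, h, l, r, z
  have h1 : NEXP O fun e : Fin 7 → List Bool =>
      (((e 2).length = aa C (e 0).length ∧ (e 1).length ≤ 2 ^ (e 2).length) ∧
      ((e 3).length = hh C (e 0).length ∧ (e 4).length = ll K (e 0).length (e 1).length)) ∧
      (((e 4).length = (e 5).length + (e 0).length + 1 ∧
        (e 6).length = 15 ^ (e 3).length * (e 4).length) ∧
      2 ^ (e 5).length ≤ 2 * cnt (e 5).length fun q =>
        (e 6).length = 15 ^ (e 3).length * (false :: (e 0 ++ q)).length ∧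
          dt (fun z => z ∈ N') (false :: (e 0 ++ q)).length (e 3).length (e 3).length
            (false :: (e 0 ++ q))) :=
    (((P1_aa C 0 2).and (P1_le2 1 2)).and ((P1_hh C 0 3).and (P1_ll K 0 1 4))).and
      (((P2_add1 5 0 4).and (nexp_powLen 15 3 6 4)).and (P2_half hN))
  have h2 : NEXP O fun e : Fin 5 → List Bool => ∃ r z : List Bool,
      (((e 2).length = aa C (e 0).length ∧ (e 1).length ≤ 2 ^ (e 2).length) ∧
      ((e 3).length = hh C (e 0).length ∧ (e 4).length = ll K (e 0).length (e 1).length)) ∧
      (((e 4).length = r.length + (e 0).length + 1 ∧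
        z.length = 15 ^ (e 3).length * (e 4).length) ∧
      2 ^ r.length ≤ 2 * cnt r.length fun q =>
        z.length = 15 ^ (e 3).length * (false :: (e 0 ++ q)).length ∧
          dt (fun z => z ∈ N') (false :: (e 0 ++ q)).length (e 3).length (e 3).length
            (false :: (e 0 ++ q))) := by
    refine nexp_ex2 (R := fun (e : Fin 5 → List Bool) r z =>
      (((e 2).length = aa C (e 0).length ∧ (e 1).length ≤ 2 ^ (e 2).length) ∧
      ((e 3).length = hh C (e 0).length ∧ (e 4).length = ll K (e 0).length (e 1).length)) ∧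
      (((e 4).length = r.length + (e 0).length + 1 ∧
        z.length = 15 ^ (e 3).length * (e 4).length) ∧
      2 ^ r.length ≤ 2 * cnt r.length fun q =>
        z.length = 15 ^ (e 3).length * (false :: (e 0 ++ q)).length ∧
          dt (fun z => z ∈ N') (false :: (e 0 ++ q)).length (e 3).length (e 3).length
            (false :: (e 0 ++ q)))) h1
      (g := fun n => P2_G C n * n + n) (((P2_G_poly C).mul PolyB.id).add PolyB.id) ?_ ?_
    · intro a b hab
      exact Nat.add_le_add (Nat.mul_le_mul (P2_G_mono C hab) hab) hab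
    · rintro e r z ⟨⟨-, g1, -⟩, ⟨g2, g3⟩, -⟩
      have h5 := len_le_size e 4
      have h6 : 15 ^ (e 3).length ≤ P2_G C (size e) := by
        rw [g1]
        exact (P2_fifteen C _).trans (P2_G_mono C (len_le_size e 0))
      have h7 := Nat.mul_le_mul h6 h5
      show _ ≤ P2_G C (size e) * size e + size e ∧ _ ≤ P2_G C (size e) * size e + size e
      constructor <;> omega
  have h3 : NEXP O fun e : Fin 3 → List Bool => ∃ h l : List Bool, ∃ r z : List Bool,
      (((e 2).length = aa C (e 0).length ∧ (e 1).length ≤ 2 ^ (e 2).length) ∧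
      (h.length = hh C (e 0).length ∧ l.length = ll K (e 0).length (e 1).length)) ∧
      ((l.length = r.length + (e 0).length + 1 ∧
        z.length = 15 ^ h.length * l.length) ∧
      2 ^ r.length ≤ 2 * cnt r.length fun q =>
        z.length = 15 ^ h.length * (false :: (e 0 ++ q)).length ∧
          dt (fun z => z ∈ N') (false :: (e 0 ++ q)).length h.length h.length
            (false :: (e 0 ++ q))) := by
    refine nexp_ex2 (R := fun (e : Fin 3 → List Bool) h l => ∃ r z : List Bool,
      (((e 2).length = aa C (e 0).length ∧ (e 1).length ≤ 2 ^ (e 2).length) ∧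
      (h.length = hh C (e 0).length ∧ l.length = ll K (e 0).length (e 1).length)) ∧
      ((l.length = r.length + (e 0).length + 1 ∧
        z.length = 15 ^ h.length * l.length) ∧
      2 ^ r.length ≤ 2 * cnt r.length fun q =>
        z.length = 15 ^ h.length * (false :: (e 0 ++ q)).length ∧
          dt (fun z => z ∈ N') (false :: (e 0 ++ q)).length h.length h.length
            (false :: (e 0 ++ q)))) h2
      (g := fun n => (9 * C * n + 18) + (15 * ((2 * n) ^ 2 + n) ^ (K + 1) + 1))
      ((((PolyB.const (9 * C)).mul PolyB.id).add (PolyB.const 18)).add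
        (((PolyB.const 15).mul (((((PolyB.const 2).mul PolyB.id).pow 2).add PolyB.id).pow
          (K + 1))).add (PolyB.const 1))) ?_ ?_
    · intro a b hab
      have h5 := Nat.mul_le_mul_left (9 * C) hab
      have h6 : (2 * a) ^ 2 + a ≤ (2 * b) ^ 2 + b :=
        Nat.add_le_add (Nat.pow_le_pow_left (by omega) _) hab
      have h7 := Nat.pow_le_pow_left h6 (K + 1)
      show (9 * C * a + 18) + (15 * ((2 * a) ^ 2 + a) ^ (K + 1) + 1) ≤
        (9 * C * b + 18) + (15 * ((2 * b) ^ 2 + b) ^ (K + 1) + 1)
      omega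
    · rintro e h l ⟨r, z, ⟨-, g1, g2⟩, -⟩
      have h5 := P2_hh C (e 0).length
      have h6 := Nat.mul_le_mul_left (9 * C) (len_le_size e 0)
      have h7 := P2_ll_le (K := K) (len_le_size e 0) (len_le_size e 1)
      show _ ≤ (9 * C * size e + 18) + (15 * ((2 * size e) ^ 2 + size e) ^ (K + 1) + 1) ∧
        _ ≤ (9 * C * size e + 18) + (15 * ((2 * size e) ^ 2 + size e) ^ (K + 1) + 1)
      rw [← g1] at h5
      rw [← g2] at h7
      constructor <;> omega
  have h4 : NEXP O fun e : Fin 2 → List Bool => ∃ a : List Bool, ∃ h l : List Bool,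
      ∃ r z : List Bool,
      ((a.length = aa C (e 0).length ∧ (e 1).length ≤ 2 ^ a.length) ∧
      (h.length = hh C (e 0).length ∧ l.length = ll K (e 0).length (e 1).length)) ∧
      ((l.length = r.length + (e 0).length + 1 ∧
        z.length = 15 ^ h.length * l.length) ∧
      2 ^ r.length ≤ 2 * cnt r.length fun q =>
        z.length = 15 ^ h.length * (false :: (e 0 ++ q)).length ∧
          dt (fun z => z ∈ N') (false :: (e 0 ++ q)).length h.length h.length
            (false :: (e 0 ++ q))) := by
    refine nexp_ex (R := fun (e : Fin 2 → List Bool) a => ∃ h l : List Bool, ∃ r z : List Bool,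
      ((a.length = aa C (e 0).length ∧ (e 1).length ≤ 2 ^ a.length) ∧
      (h.length = hh C (e 0).length ∧ l.length = ll K (e 0).length (e 1).length)) ∧
      ((l.length = r.length + (e 0).length + 1 ∧
        z.length = 15 ^ h.length * l.length) ∧
      2 ^ r.length ≤ 2 * cnt r.length fun q =>
        z.length = 15 ^ h.length * (false :: (e 0 ++ q)).length ∧
          dt (fun z => z ∈ N') (false :: (e 0 ++ q)).length h.length h.length
            (false :: (e 0 ++ q)))) h3
      (g := fun n => 4 * (9 * C * n + 18) + 12)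
      (((PolyB.const 4).mul (((PolyB.const (9 * C)).mul PolyB.id).add (PolyB.const 18))).add
        (PolyB.const 12)) ?_
    rintro e a ⟨h, l, r, z, ⟨⟨g1, -⟩, -⟩, -⟩
    rw [g1]
    refine (P2_aa C _).trans ?_
    have h5 := Nat.mul_le_mul_left (9 * C) (len_le_size e 0)
    show _ ≤ 4 * (9 * C * size e + 18) + 12
    omega
  have h5 : NEXP O fun e : Fin 1 → List Bool => ∃ u : List Bool,
      ((u.length * 2 ^ ((e 0).length - aa C (e 0).length) ≤ cnt (e 0).length fun y => y ∈ A) ∧
      (cnt (e 0).length (fun y => y ∈ A) <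
        (u.length + 1) * 2 ^ ((e 0).length - aa C (e 0).length))) ∧
      ∃ a : List Bool, ∃ h l : List Bool,
      ∃ r z : List Bool,
      ((a.length = aa C (e 0).length ∧ u.length ≤ 2 ^ a.length) ∧
      (h.length = hh C (e 0).length ∧ l.length = ll K (e 0).length u.length)) ∧
      ((l.length = r.length + (e 0).length + 1 ∧
        z.length = 15 ^ h.length * l.length) ∧
      2 ^ r.length ≤ 2 * cnt r.length fun q =>
        z.length = 15 ^ h.length * (false :: (e 0 ++ q)).length ∧
          dt (fun z => z ∈ N') (false :: (e 0 ++ q)).length h.length h.length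
            (false :: (e 0 ++ q))) := by
    refine nexp_ex (R := fun (e : Fin 1 → List Bool) u =>
      ((u.length * 2 ^ ((e 0).length - aa C (e 0).length) ≤ cnt (e 0).length fun y => y ∈ A) ∧
      (cnt (e 0).length (fun y => y ∈ A) <
        (u.length + 1) * 2 ^ ((e 0).length - aa C (e 0).length))) ∧
      ∃ a : List Bool, ∃ h l : List Bool,
      ∃ r z : List Bool,
      ((a.length = aa C (e 0).length ∧ u.length ≤ 2 ^ a.length) ∧
      (h.length = hh C (e 0).length ∧ l.length = ll K (e 0).length u.length)) ∧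
      ((l.length = r.length + (e 0).length + 1 ∧
        z.length = 15 ^ h.length * l.length) ∧
      2 ^ r.length ≤ 2 * cnt r.length fun q =>
        z.length = 15 ^ h.length * (false :: (e 0 ++ q)).length ∧
          dt (fun z => z ∈ N') (false :: (e 0 ++ q)).length h.length h.length
            (false :: (e 0 ++ q)))) (((P2_ge hA C 1 0).and (P2_lt hM hA C 1 0)).and h4)
      (P2_G_poly C) ?_
    rintro e u ⟨-, a, h, l, r, z, ⟨⟨g1, g2⟩, -⟩, -⟩
    rw [g1] at g2
    exact g2.trans ((P2_two C _).trans (P2_G_mono C (len_le_size e 0)))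
  show NEXP O fun e : Fin 1 → List Bool => e 0 ∈ AD A N' C K n₀
  refine ((P2_const n₀ 0).and h5).congr fun e => ?_
  unfold AD
  simp only [Set.mem_setOf_eq]
  refine and_congr_right fun _ => ?_
  constructor
  · rintro ⟨u, ⟨g1, g2⟩, a, h, l, r, z, ⟨⟨g3, g4⟩, g5, g6⟩, ⟨g7, g8⟩, g9⟩
    refine ⟨u.length, ?_, g1, g2, ?_⟩
    · rw [← g3]
      exact g4
    · rw [← g5, ← g6, show l.length - 1 - (e 0).length = r.length by omega]
      rw [P2_cnt_congr (Q := fun q => dt (fun z => z ∈ N') l.length h.length h.length
        (false :: (e 0 ++ q)))] at g9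
      · exact g9
      · intro q hq
        have h6 : (false :: (e 0 ++ q)).length = l.length := by
          rw [List.length_cons, List.length_append]
          omega
        rw [h6]
        exact ⟨fun h => h.2, fun h => ⟨g8, h⟩⟩
  · rintro ⟨u, g1, g2, g3, g4⟩
    have hl := P2_ll K (e 0).length u
    refine ⟨List.replicate u true, ⟨?_, ?_⟩, List.replicate (aa C (e 0).length) true,
      List.replicate (hh C (e 0).length) true, List.replicate (ll K (e 0).length u) true,
      List.replicate (ll K (e 0).length u - 1 - (e 0).length) true,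
      List.replicate (15 ^ (hh C (e 0).length) * (ll K (e 0).length u)) true, ?_⟩
    · rw [List.length_replicate]
      exact g2
    · rw [List.length_replicate]
      exact g3
    · simp only [List.length_replicate]
      refine ⟨⟨⟨trivial, g1⟩, trivial, trivial⟩, ⟨by omega, trivial⟩, ?_⟩
      rw [P2_cnt_congr (Q := fun q => dt (fun z => z ∈ N') (ll K (e 0).length u)
        (hh C (e 0).length) (hh C (e 0).length) (false :: (e 0 ++ q)))]
      · exact g4
      · intro q hq
        have h6 : (false :: (e 0 ++ q)).length = ll K (e 0).length u := by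
          rw [List.length_cons, List.length_append]
          omega
        rw [h6]
        exact ⟨fun h => h.2, fun h => ⟨rfl, h⟩⟩

end Pool.Agent.LibAV75
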