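import Pool.Agent.LibAV75.P2
import Pool.Agent.LibAV75.M4

/-!
Row P3: amplification.
-/

namespace Pool.Agent.LibAV75

open Filter Function Pool.Agent.LibNexp Pool.Agent.LibBHN

variable {O : List Bool → Bool}

private theorem P3_sq (m : ℕ) (hm : 4 ≤ m) : m ^ 2 ≤ 2 ^ m := by
  induction m, hm using Nat.le_induction with
  | base => norm_num
  | succ m hm ih =>
    rw [pow_succ 2 m]
    nlinarith

private theorem P3_log (a b : ℕ) : ∃ n₀, ∀ n ≥ n₀, a * Nat.log 2 (n + 1) + b ≤ n := by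
  refine ⟨2 ^ (a + b + 5), fun n hn => ?_⟩
  set m := Nat.log 2 (n + 1) with hm
  have h1 : a + b + 5 ≤ m := by
    rw [hm]
    exact Nat.le_log_of_pow_le (by norm_num) (by omega)
  have h2 : 2 ^ m ≤ n + 1 := Nat.pow_log_le_self 2 (by omega)
  have h3 := P3_sq m (by omega)
  have h4 : a * m + b + 1 ≤ m ^ 2 := by nlinarith
  omega

private theorem P3_congr {n : ℕ} {P Q : List Bool → Prop}
    (h : ∀ x : List Bool, x.length = n → (P x ↔ Q x)) : cnt n P = cnt n Q := by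
  classical
  unfold cnt
  congr 1
  refine Finset.filter_congr fun m _ => ?_
  exact h _ (length_bits n m)

/-- PLAN. For large `n`: `aa C n ≤ n` and `1 + n + aa C n ≤ ll K n u`, `8 ≤ ll K n u`,
`n ^ K ≤ ll K n u`. -/
theorem p3_large (C K : ℕ) : ∃ n₀, ∀ n ≥ n₀, aa C n ≤ n ∧ ∀ u, 1 + n + aa C n ≤ ll K n u ∧
    8 ≤ ll K n u ∧ n ^ K ≤ ll K n u := by
  obtain ⟨n₀, h0⟩ := P3_log (36 * C) 84
  refine ⟨n₀, fun n hn => ?_⟩
  have h1 : aa C n ≤ n := by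
    have := h0 n hn
    unfold aa hh
    nlinarith
  have h2 : 1 ≤ n := by
    have : 12 ≤ aa C n := by
      unfold aa
      omega
    omega
  refine ⟨h1, fun u => ?_⟩
  have hb : n ≤ (n + u) ^ 2 + n := Nat.le_add_left _ _
  have hb1 : 1 ≤ (n + u) ^ 2 + n := by omega
  have hb2 : (n + u) ^ 2 + n ≤ ((n + u) ^ 2 + n) ^ (K + 1) :=
    Nat.le_self_pow (by omega) _
  have hb3 : n ^ K ≤ ((n + u) ^ 2 + n) ^ (K + 1) :=
    (Nat.pow_le_pow_left hb K).trans (Nat.pow_le_pow_right hb1 (by omega))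
  unfold ll
  refine ⟨by omega, by omega, by omega⟩

/-- PLAN. `15 ^ h ≤ 2 ^ (4 * h)` and `f0_bal`. -/
theorem p3_bal {A : Lang} {C K n u : ℕ} (h1 : aa C n ≤ n) (h2 : 1 + n + aa C n ≤ ll K n u)
    (hu1 : u * 2 ^ (n - aa C n) ≤ cnt n fun x => x ∈ A)
    (hu2 : (cnt n fun x => x ∈ A) < (u + 1) * 2 ^ (n - aa C n)) :
    2 ^ 12 * 15 ^ hh C n * |2 * (cnt (ll K n u) (f0 A n (aa C n) u) : ℤ) - 2 ^ ll K n u| ≤
      2 ^ ll K n u := by
  have h3 := f0_bal h1 h2 hu1 hu2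
  have h4 : (2 : ℤ) ^ 12 * 15 ^ hh C n ≤ 2 ^ aa C n := by
    unfold aa
    rw [pow_add, pow_mul]
    have h5 : (15 : ℤ) ^ hh C n ≤ (2 ^ 4) ^ hh C n := pow_le_pow_left₀ (by norm_num) (by norm_num) _
    nlinarith
  exact (mul_le_mul_of_nonneg_right h4 (abs_nonneg _)).trans h3

/-- PLAN. `13 ^ 9 ≥ 2 * 12 ^ 9`. -/
theorem p3_pow (C n : ℕ) : 2 ^ (C * Nat.log 2 (n + 1) + 2) * 12 ^ hh C n ≤ 13 ^ hh C n := by
  unfold hh
  rw [pow_mul, pow_mul, ← mul_pow]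
  exact Nat.pow_le_pow_left (by norm_num) _

private theorem P3_uniq {c d u u' : ℕ} (h1 : u * d ≤ c) (h2 : c < (u + 1) * d)
    (h1' : u' * d ≤ c) (h2' : c < (u' + 1) * d) : u = u' := by
  have hd : 0 < d := by
    rcases Nat.eq_zero_or_pos d with rfl | hd
    · omega
    · exact hd
  have e1 : u < u' + 1 := Nat.lt_of_mul_lt_mul_right (h1.trans_lt h2')
  have e2 : u' < u + 1 := Nat.lt_of_mul_lt_mul_right (h1'.trans_lt h2)
  omega

/-- the language `AL` at the length of the parameters `n`, `u` -/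
private theorem P3_al {A : Lang} {C K n u : ℕ} (hu : u ≤ 2 ^ aa C n) {z : List Bool}
    (hz : z.length = 15 ^ hh C n * ll K n u) :
    z ∈ (AL A C K)ᶜ ↔ tree (f0 A n (aa C n) u) (ll K n u) (hh C n) z := by
  have h1 : z ∈ AL A C K ↔
      tree (fun z => ¬ f0 A n (aa C n) u z) (ll K n u) (hh C n) z := by
    constructor
    · rintro ⟨n', u', h1, h2, h3⟩
      obtain ⟨rfl, rfl⟩ := len_inj (hz.symm.trans h1)
      exact h3
    · intro h
      exact ⟨n, u, hz, hu, h⟩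
  rw [Set.mem_compl_iff, h1, tree_not, not_not]

private theorem P3_arith {H m l n rm rk L e E X : ℕ} (hlm : l ≤ m) (hl : 1 + n ≤ l)
    (hbot : 2 ^ (l - 1 - n) * e ≤ 2 * X) (hchain : 13 ^ H * (2 ^ (m - l) * X) ≤ 12 ^ H * E)
    (hmm : 2 ^ rm * E ≤ 2 ^ m) (hp : 2 ^ (L + 2) * 12 ^ H ≤ 13 ^ H) (hk : rk ≤ rm) :
    2 ^ (rk + L) * e ≤ 2 ^ n := by
  have hp1 : (2 : ℕ) ^ (m - l) * 2 ^ (l - 1 - n) = 2 ^ (m - 1 - n) := by
    rw [← pow_add]
    congr 1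
    omega
  have hp2 : (2 : ℕ) ^ m = 2 ^ (m - 1 - n) * (2 * 2 ^ n) := by
    rw [← pow_succ', ← pow_add]
    congr 1
    omega
  have h1 : 13 ^ H * (2 ^ (m - 1 - n) * e) ≤ 2 * (12 ^ H * E) := by
    calc 13 ^ H * (2 ^ (m - 1 - n) * e) = 13 ^ H * (2 ^ (m - l) * (2 ^ (l - 1 - n) * e)) := by
          rw [← hp1, mul_assoc (2 ^ (m - l))]
      _ ≤ 13 ^ H * (2 ^ (m - l) * (2 * X)) :=
          Nat.mul_le_mul_left _ (Nat.mul_le_mul_left _ hbot)
      _ = 2 * (13 ^ H * (2 ^ (m - l) * X)) := by ring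
      _ ≤ 2 * (12 ^ H * E) := Nat.mul_le_mul_left _ hchain
  have h2 : 13 ^ H * (2 ^ rm * e) ≤ 12 ^ H * (4 * 2 ^ n) := by
    have h3 : 2 ^ (m - 1 - n) * (13 ^ H * (2 ^ rm * e)) ≤
        2 ^ (m - 1 - n) * (12 ^ H * (4 * 2 ^ n)) := by
      calc 2 ^ (m - 1 - n) * (13 ^ H * (2 ^ rm * e))
          = 2 ^ rm * (13 ^ H * (2 ^ (m - 1 - n) * e)) := by ring
        _ ≤ 2 ^ rm * (2 * (12 ^ H * E)) := Nat.mul_le_mul_left _ h1
        _ = 2 * 12 ^ H * (2 ^ rm * E) := by ring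
        _ ≤ 2 * 12 ^ H * 2 ^ m := Nat.mul_le_mul_left _ hmm
        _ = 2 * 12 ^ H * (2 ^ (m - 1 - n) * (2 * 2 ^ n)) := by rw [hp2]
        _ = 2 ^ (m - 1 - n) * (12 ^ H * (4 * 2 ^ n)) := by ring
    exact Nat.le_of_mul_le_mul_left h3 (pow_pos (by norm_num) _)
  have h4 : 2 ^ L * (2 ^ rm * e) ≤ 2 ^ n := by
    have h5 : (4 * 12 ^ H) * (2 ^ L * (2 ^ rm * e)) ≤ (4 * 12 ^ H) * 2 ^ n := by
      calc (4 * 12 ^ H) * (2 ^ L * (2 ^ rm * e))
          = (2 ^ (L + 2) * 12 ^ H) * (2 ^ rm * e) := by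
            rw [pow_add]
            ring
        _ ≤ 13 ^ H * (2 ^ rm * e) := Nat.mul_le_mul_right _ hp
        _ ≤ 12 ^ H * (4 * 2 ^ n) := h2
        _ = (4 * 12 ^ H) * 2 ^ n := by ring
    exact Nat.le_of_mul_le_mul_left h5 (Nat.mul_pos (by norm_num) (pow_pos (by norm_num) _))
  have h5 : 2 ^ rk ≤ 2 ^ rm := Nat.pow_le_pow_right (by norm_num) hk
  calc 2 ^ (rk + L) * e = 2 ^ L * (2 ^ rk * e) := by
        rw [pow_add]
        ring
    _ ≤ 2 ^ L * (2 ^ rm * e) := Nat.mul_le_mul_left _ (Nat.mul_le_mul_right _ h5)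
    _ ≤ 2 ^ n := h4

/-- the number of blocks of size `2 ^ (n - a)` in a census `c ≤ 2 ^ n` -/
private theorem P3_u {n a c : ℕ} (ha : a ≤ n) (hc : c ≤ 2 ^ n) :
    ∃ u, u ≤ 2 ^ a ∧ u * 2 ^ (n - a) ≤ c ∧ c < (u + 1) * 2 ^ (n - a) := by
  have hd0 : 0 < 2 ^ (n - a) := pow_pos (by norm_num) _
  refine ⟨c / 2 ^ (n - a), ?_, Nat.div_mul_le_self _ _, ?_⟩
  · refine Nat.div_le_of_le_mul ?_
    rw [← pow_add, Nat.sub_add_cancel ha]
    exact hc
  · have := Nat.lt_div_mul_add (a := c) hd0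
    rw [add_mul, one_mul]
    exact this

/-- the errors of the decoded language -/
private theorem P3_err {A N' : Lang} {C K n₀ n u : ℕ} (hnn : n₀ ≤ n) (hua : u ≤ 2 ^ aa C n)
    (hu1 : u * 2 ^ (n - aa C n) ≤ cnt n fun y => y ∈ A)
    (hu2 : (cnt n fun y => y ∈ A) < (u + 1) * 2 ^ (n - aa C n)) :
    err Aᶜ (AD A N' C K n₀) n = cnt n (fun x => ¬ (x ∉ A ↔
        2 ^ (ll K n u - 1 - n) ≤ 2 * cnt (ll K n u - 1 - n) fun q =>
          dt (fun z => z ∈ N') (ll K n u) (hh C n) (hh C n) (false :: (x ++ q)))) := by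
  unfold err
  refine P3_congr fun x hx => ?_
  have h1 : x ∈ AD A N' C K n₀ ↔ 2 ^ (ll K n u - 1 - n) ≤ 2 * cnt (ll K n u - 1 - n) fun q =>
      dt (fun z => z ∈ N') (ll K n u) (hh C n) (hh C n) (false :: (x ++ q)) := by
    subst hx
    constructor
    · rintro ⟨_, u', _, h1, h2, h3⟩
      have h4 : u' = u := P3_uniq h1 h2 hu1 hu2
      rw [h4] at h3
      exact h3
    · intro h3
      exact ⟨hnn, u, hua, hu1, hu2, h3⟩
  rw [h1]
  rfl

/-- the errors at level `h` -/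
private theorem P3_errm {A N' : Lang} {C K n u : ℕ} (hua : u ≤ 2 ^ aa C n) :
    cnt (15 ^ hh C n * ll K n u) (fun z =>
      ¬ (tree (f0 A n (aa C n) u) (ll K n u) (hh C n) z ↔ z ∈ N')) =
      err (AL A C K)ᶜ N' (15 ^ hh C n * ll K n u) := by
  unfold err
  refine P3_congr fun z hz => ?_
  rw [P3_al hua hz]

/-- PLAN. `N'` from `h` for `AL A C K` (`al_mem`), `N := AD A N' C K n₀` (`ad_mem`, `more_of_ap`),
`n₀` from `p3_large`. For `x` of length `n ≥ n₀` the `u` in `AD` is unique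
(`u = cnt / 2 ^ (n - aa C n)`), and it is `≤ 2 ^ aa C n`. Let `l := ll K n u`, `h := hh C n`,
`m := 15 ^ h * l`. For `z` of length `m`: `z ∉ AL A C K ↔ tree (f0 ...) l h z` (`len_inj`,
`tree_not`). `chain_err` with `M := (· ∈ N')` (`2 ^ 8 * err ≤ 2 ^ r m * err ≤ 2 ^ m` for `n` large) and
`bottom`:
`13 ^ h * 2 ^ r m * err Aᶜ N n ≤ 4 * 12 ^ h * 2 ^ n`; with `p3_pow` and `r m ≥ r (n ^ K)`:
`2 ^ (r (n ^ K) + C * log) * err ≤ 2 ^ n`. One-sided (`b`): `chain_sub`, `bottom_sub`. -/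
theorem amp {b : Prop} {r : ℕ → ℕ} (hr : Monotone r) (h8 : ∀ n, 8 ≤ r n) (h : Ap O b r)
    (K C : ℕ) : Ap O b fun n => r (n ^ K) + C * Nat.log 2 (n + 1) := by
  intro A hA
  obtain ⟨N', hN', hbN', hev⟩ := h (AL A C K) (al_mem hA C K)
  obtain ⟨n₀, hn₀⟩ := p3_large C K
  have hM : More O := more_of_ap (fun m => le_trans (by norm_num) (h8 m)) h
  refine ⟨AD A N' C K n₀, ad_mem hM hA hN' C K n₀, ?_, ?_⟩
  · intro hb x hx
    obtain ⟨hxn, u, hu, hu1, hu2, hdec⟩ := hx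
    obtain ⟨ha, hl⟩ := hn₀ _ hxn
    obtain ⟨hl1, hl2, hl3⟩ := hl u
    have hbal := p3_bal (K := K) ha hl1 hu1 hu2
    refine bottom_sub (u := u) (D := dt (fun z => z ∈ N') (ll K x.length u) (hh C x.length)
      (hh C x.length)) hl1 (fun z hz hD => ?_) rfl hdec
    refine chain_sub hl2 hbal (fun z' hz' hz'N => ?_) hz hD
    exact (P3_al hu hz').1 (hbN' hb hz'N)
  · rw [eventually_atTop] at hev ⊢
    obtain ⟨m₀, hm₀⟩ := hev
    refine ⟨max n₀ m₀, fun n hn => ?_⟩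
    have hnn : n₀ ≤ n := (le_max_left _ _).trans hn
    have hnm : m₀ ≤ n := (le_max_right _ _).trans hn
    obtain ⟨ha, hl⟩ := hn₀ n hnn
    obtain ⟨u, hua, hu1, hu2⟩ := P3_u ha (cnt_le n fun y => y ∈ A)
    obtain ⟨hl1, hl2, hl3⟩ := hl u
    have hbal := p3_bal (K := K) ha hl1 hu1 hu2
    have hlm : ll K n u ≤ 15 ^ hh C n * ll K n u :=
      Nat.le_mul_of_pos_left _ (pow_pos (by norm_num) _)
    have hl4 : 1 + n ≤ ll K n u := by omega
    have hnl : n ≤ 15 ^ hh C n * ll K n u := le_trans (by omega) hlm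
    have hmm := hm₀ (15 ^ hh C n * ll K n u) (hnm.trans hnl)
    have hE1 := P3_errm (A := A) (N' := N') (C := C) (K := K) hua
    have hpow8 : 2 ^ 8 ≤ 2 ^ r (15 ^ hh C n * ll K n u) :=
      Nat.pow_le_pow_right (by norm_num) (h8 _)
    have hε : 2 ^ 8 * cnt (15 ^ hh C n * ll K n u) (fun z =>
        ¬ (tree (f0 A n (aa C n) u) (ll K n u) (hh C n) z ↔ z ∈ N')) ≤
        2 ^ (15 ^ hh C n * ll K n u) := by
      rw [hE1]
      exact (Nat.mul_le_mul_right _ hpow8).trans hmm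
    have hchain := chain_err (f := f0 A n (aa C n) u) (M := fun z => z ∈ N') hl2 hbal hε
    rw [hE1] at hchain
    have hbot := bottom (A := A) (u := u) hl1
      (dt (fun z => z ∈ N') (ll K n u) (hh C n) (hh C n))
    rw [← P3_err hnn hua hu1 hu2] at hbot
    exact P3_arith hlm hl4 hbot hchain hmm (p3_pow C n) (hr (hl3.trans hlm))

end Pool.Agent.LibAV75
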