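import Pool.Agent.LibAV75.V2

/-!
Row V3: the limit oracle of the two-sided construction.
-/

namespace Pool.Agent.LibAV75

open Filter Function Pool.Agent.LibNexp Pool.Agent.LibBHN

private theorem v3_cnt_mono {m : ℕ} {P Q : List Bool → Prop}
    (h : ∀ z : List Bool, z.length = m → P z → Q z) : cnt m P ≤ cnt m Q := by
  classical
  unfold cnt
  refine Finset.card_le_card fun t ht => ?_
  rw [Finset.mem_filter] at ht ⊢
  exact ⟨ht.1, h _ (length_bits m t) ht.2⟩

private theorem v3_head {e : ℕ} {z : List Bool} (h : [true] <+: code e z) : False := by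
  obtain ⟨l, hl⟩ := code_head e z
  rw [hl] at h
  obtain ⟨t, ht⟩ := h
  simp at ht

private theorem v3_old {a b : ℕ} (h : a ≤ b) {A : Set (List Bool)} (hA : Old a A) : Old b A := by
  intro s hs
  rcases hA s hs with ⟨h1, h2⟩ | ⟨e, z, h1, h2⟩
  · have h3 : 2 ^ a ≤ 2 ^ b := Nat.pow_le_pow_right (by norm_num) h
    exact Or.inl ⟨h1, by omega⟩
  · exact Or.inr ⟨e, z, h1, h2.trans_le h⟩

/-- PLAN. As `b6` (B6.lean, proved; read it), with `v2` instead of `b5` and `GI (j i) (n i - 1)` instead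
of `G i` (`gi_local`). -/
theorem v3 {n E R D β j : ℕ → ℕ} (hn : ∀ i, 1 ≤ n i)
    (hnn : ∀ i, (lay (n i) (D i) + 1) ^ 2 ≤ n (i + 1))
    (hβ : ∀ i, E i * lay (n i) (D i) ≤ 2 ^ β i)
    (hy : ∀ i, 8 ^ D i * (R i + β i + 4) + 5 ≤ n i)
    (hsize : ∀ i, ft (n i) (E i) (D i) (8 ^ D i * (R i + β i + 4)) + 2 ^ ex (j i) (n i - 1) <
      2 ^ 2 ^ n i)
    (h1 : ∀ i, 2 ^ (ex (j i) (n i - 1) + 1) ≤ 2 ^ (lay (n i) (D i) + 1) ^ 2)
    (h2 : ∀ i, n i + 2 ^ n i < 2 ^ (lay (n i) (D i) + 1) ^ 2) :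
    ∃ A : Set (List Bool), (∀ l, false :: l ∈ A → ∃ e z, false :: l = code e z) ∧
      (∀ (i e : ℕ) (z : List Bool), lay (n i) (D i) ≤ ex e z.length →
        ex e z.length < n (i + 1) → (code e z ∈ A ↔ ¬ AccE (orc A) e z)) ∧
      (∀ i, ∀ e < E i, ∀ m, n i ≤ ex e m → ex e m < lay (n i) (D i) →
        2 ^ R i * cnt m (fun z => ¬ (code e z ∈ A ↔ ¬ AccE (orc A) e z)) ≤ 2 ^ m) ∧
      ∀ i, GI (j i) (n i - 1) A := by
  have hlay : ∀ i, n i ≤ lay (n i) (D i) := by
    intro i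
    have h1 := lay_mono (hn i) (Nat.zero_le (D i))
    have h2 : lay (n i) 0 = n i := by simp [lay]
    rwa [h2] at h1
  have hlay' : ∀ i, lay (n i) (D i) < n (i + 1) := by
    intro i
    have h1 := hnn i
    nlinarith
  have hlt : ∀ i, n i < n (i + 1) := fun i => (hlay i).trans_lt (hlay' i)
  have hmono : StrictMono n := strictMono_nat_of_lt_succ hlt
  have hL : ∀ i, Local (2 ^ (lay (n i) (D i) + 1) ^ 2) (GI (j i) (n i - 1)) := by
    intro i
    refine gi_local (h1 i) ?_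
    have h3 := h2 i
    have h4 := hn i
    rw [Nat.sub_add_cancel h4]
    exact h3
  -- one stage
  have hstep : ∀ (i : ℕ) (A : {A : Set (List Bool) // Old (n i) A}),
      ∃ A' : {A : Set (List Bool) // Old (n (i + 1)) A},
        StageT (n i) (n (i + 1)) (E i) (R i) (D i) A.1 A'.1 ∧ GI (j i) (n i - 1) A'.1 := by
    intro i A
    obtain ⟨A', h3, h4⟩ := v2 (hn i) A.2 (hβ i) (hy i) (hlay' i).le (hsize i) (h1 i) (h2 i)
    refine ⟨⟨A', fun s hs => ?_⟩, h3, h4⟩
    by_cases hsA : s ∈ A.1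
    · exact v3_old (hlt i).le A.2 s hsA
    · rcases h3.new s hs hsA with ⟨h5, h6⟩ | ⟨e, z, h5, -, h7⟩
      · have h8 : 2 ^ n i ≤ 2 ^ n (i + 1) := Nat.pow_le_pow_right (by norm_num) (hlt i).le
        have h9 := hlt i
        exact Or.inl ⟨h5, by omega⟩
      · exact Or.inr ⟨e, z, h5, h7⟩
  choose st hst1 hst2 using hstep
  have h0 : Old (n 0) (∅ : Set (List Bool)) := fun s hs => absurd hs (Set.notMem_empty s)
  set S : ∀ i, {A : Set (List Bool) // Old (n i) A} :=
    fun i => Nat.rec ⟨∅, h0⟩ (fun i prev => st i prev) i with hSdef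
  have hS1 : ∀ i, S (i + 1) = st i (S i) := fun i => rfl
  have hStage : ∀ i, StageT (n i) (n (i + 1)) (E i) (R i) (D i) (S i).1 (S (i + 1)).1 := by
    intro i
    rw [hS1]
    exact hst1 i (S i)
  have hGi : ∀ i, GI (j i) (n i - 1) (S (i + 1)).1 := by
    intro i
    rw [hS1]
    exact hst2 i (S i)
  set A : Set (List Bool) := ⋃ i, (S i).1 with hA
  have hsub : ∀ i, (S i).1 ⊆ A := fun i => Set.subset_iUnion (fun i => (S i).1) i
  -- the strings added later
  have hlate : ∀ i d, ∀ s ∈ (S (i + d)).1, s ∉ (S i).1 →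
      ([true] <+: s ∧ n i + 2 ^ n i ≤ s.length) ∨
        ∃ e z, s = code e z ∧ n i ≤ ex e z.length := by
    intro i d
    induction d with
    | zero => exact fun s hs hs' => absurd hs hs'
    | succ d ih =>
      intro s hs hs'
      by_cases h3 : s ∈ (S (i + d)).1
      · exact ih s h3 hs'
      · have h4 : n i ≤ n (i + d) := hmono.monotone (Nat.le_add_right i d)
        rcases (hStage (i + d)).new s hs h3 with ⟨h5, h6⟩ | ⟨e, z, h5, h6, -⟩
        · have h7 : 2 ^ n i ≤ 2 ^ n (i + d) := Nat.pow_le_pow_right (by norm_num) h4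
          exact Or.inl ⟨h5, by omega⟩
        · exact Or.inr ⟨e, z, h5, h4.trans h6⟩
  have hSmono : ∀ i d, (S i).1 ⊆ (S (i + d)).1 := by
    intro i d
    induction d with
    | zero => exact fun s hs => hs
    | succ d ih => exact ih.trans (hStage (i + d)).sub
  have hlateA : ∀ i, ∀ s ∈ A, s ∉ (S i).1 →
      ([true] <+: s ∧ n i + 2 ^ n i ≤ s.length) ∨
        ∃ e z, s = code e z ∧ n i ≤ ex e z.length := by
    intro i s hs hs'
    obtain ⟨k, hk⟩ := Set.mem_iUnion.1 hs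
    rcases Nat.le_total i k with h | h
    · obtain ⟨d, rfl⟩ := Nat.exists_eq_add_of_le h
      exact hlate i d s hk hs'
    · obtain ⟨d, rfl⟩ := Nat.exists_eq_add_of_le h
      exact absurd (hSmono k d hk) hs'
  -- visibility
  have hsee : ∀ (i e : ℕ) (z : List Bool), ex e z.length < n i →
      (AccE (orc A) e z ↔ AccE (orc (S i).1) e z) := by
    intro i e z hez
    refine accE_congr fun s hs => ⟨fun h => ?_, fun h => hsub i h⟩
    by_contra h3
    rcases hlateA i s h h3 with ⟨-, h4⟩ | ⟨e', z', rfl, h4⟩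
    · have h5 : 2 ^ (ex e z.length + 1) ≤ 2 ^ n i := Nat.pow_le_pow_right (by norm_num) hez
      omega
    · have h5 := code_far (e' := e') (z' := z') (e := e) (m := z.length) (hez.le.trans h4)
      omega
  have hcode : ∀ (i e : ℕ) (z : List Bool), ex e z.length < n i →
      (code e z ∈ A ↔ code e z ∈ (S i).1) := by
    intro i e z hez
    refine ⟨fun h => ?_, fun h => hsub i h⟩
    by_contra h3
    rcases hlateA i _ h h3 with ⟨h4, -⟩ | ⟨e', z', h4, h5⟩
    · exact v3_head h4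
    · obtain ⟨rfl, rfl⟩ := code_injective h4
      omega
  refine ⟨A, ?_, ?_, ?_, ?_⟩
  · intro l hl
    obtain ⟨k, hk⟩ := Set.mem_iUnion.1 hl
    rcases (S k).2 _ hk with ⟨⟨t, ht⟩, -⟩ | ⟨e, z, h3, -⟩
    · simp at ht
    · exact ⟨e, z, h3⟩
  · intro i e z h3 h4
    rw [hsee (i + 1) e z h4, hcode (i + 1) e z h4]
    exact (hStage i).exact e z h3 h4
  · intro i e he m h3 h4
    refine le_trans (Nat.mul_le_mul_left _ (v3_cnt_mono fun z hz hzz => ?_))
      ((hStage i).appr e he m h3 h4)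
    have h5 : ex e z.length < n (i + 1) := by
      rw [hz]
      exact h4.trans (hlay' i)
    rw [hsee (i + 1) e z h5, hcode (i + 1) e z h5] at hzz
    exact hzz
  · intro i
    refine hL i (S (i + 1)).1 A (fun s hs => ⟨fun h => hsub (i + 1) h, fun h => ?_⟩) (hGi i)
    by_contra h3
    have h4 : 2 ^ (lay (n i) (D i) + 1) ^ 2 ≤ 2 ^ n (i + 1) :=
      Nat.pow_le_pow_right (by norm_num) (hnn i)
    rcases hlateA (i + 1) s h h3 with ⟨-, h5⟩ | ⟨e, z, rfl, h5⟩
    · omega
    · have h6 := length_code e z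
      have h7 : 2 ^ n (i + 1) ≤ 2 ^ (ex e z.length + 1) ^ 2 :=
        Nat.pow_le_pow_right (by norm_num) (by nlinarith)
      omega

end Pool.Agent.LibAV75
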