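import Pool.Agent.LibAV75.A3

/-!
Definitions for the two-sided construction (no sorries in this file).
-/

namespace Pool.Agent.LibAV75

open Classical

variable {α ι κ γ : Type} [DecidableEq α] [DecidableEq ι] [DecidableEq κ] [DecidableEq γ]

/-- The free `x`: no string of `fib x` is in `Q`. -/
noncomputable def fr (X : Finset ι) (fib : ι → Finset α) (Q : Finset α) : Finset ι :=
  X.filter fun x => Disjoint (fib x) Q

/-- The free `x` whose strings can make the item accept (`acc` is the acceptance predicate of the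
item), whatever `M` further strings are protected. -/
noncomputable def lv (X : Finset ι) (fib : ι → Finset α) (acc : Finset α → Prop) (Q F : Finset α)
    (M : ℕ) : Finset ι :=
  (fr X fib Q).filter fun x => ¬ Dead acc Q F (fib x) M

/-- Accepting, with a protected certificate: accepting in all futures of `(Q, F)`. -/
def Dcd (acc : Finset α → Prop) (Q F : Finset α) : Prop :=
  ∀ Q' : Finset α, Q ⊆ Q' → Disjoint (Q' \ Q) F → acc Q'

/-- The undecided items of the group `c` for which more than `2 ^ (n - a)` free `x` are live. -/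
noncomputable def hi (X : Finset ι) (fib : ι → Finset α) (Z : Finset κ) (gr : κ → γ)
    (acc : κ → Finset α → Prop) (n a M : ℕ) (Q F : Finset α) (c : γ) : Finset κ :=
  Z.filter fun z => gr z = c ∧ ¬ Dcd (acc z) Q F ∧ 2 ^ n < 2 ^ a * (lv X fib (acc z) Q F M).card

/-- A controller: at the state `(Q, F)` it stops (`none`) or prescribes strings `G` to be protected and
`x ∈ Φ` to be avoided (`some (G, Φ)`). -/
abbrev Ctrl (α ι : Type) := Finset α → Finset α → Option (Finset α × Finset ι)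

/-- Paths of `t` moves under the controller `C`: every move adds a set `P` of strings about one free
`x`. The protected set grows by at most `bd` strings in each move. -/
inductive Path (X : Finset ι) (fib : ι → Finset α) (C : Ctrl α ι) (bd : ℕ) :
    ℕ → Finset α → Finset α → Finset α → Finset α → Prop
  | nil (Q F : Finset α) : Path X fib C bd 0 Q F Q F
  | step {t : ℕ} {Q F Q₁ F₁ G P F₂ : Finset α} {Φ : Finset ι} {x : ι}
      (h : Path X fib C bd t Q F Q₁ F₁) (hC : C Q₁ F₁ = some (G, Φ))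
      (hx : x ∈ fr X fib Q₁) (hΦ : x ∉ Φ) (hP : P ⊆ fib x) (hPF : Disjoint P (F₁ ∪ G))
      (hF : F₁ ∪ G ⊆ F₂) (hc : F₂.card ≤ F₁.card + bd) :
      Path X fib C bd (t + 1) Q F (Q₁ ∪ P) F₂

/-- A layered family of items. `acc K z T` : the item `z` accepts, `K` being the set of coded items and
`T` the set of the strings which are in the oracle. -/
structure Game (α ι κ γ : Type) where
  X : Finset ι
  fib : ι → Finset α
  Z : ℕ → Finset κ
  gr : κ → γ
  Gr : ℕ → Finset γ
  N : γ → ℕ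
  acc : Finset κ → κ → Finset α → Prop

/-- The hypotheses: `2 ^ n` strings `x`; certificates of size `q`; the items of layer `l` see only the
codes of lower layers; at most `zm` items and `2 ^ β` groups in every layer. -/
structure Game.Ok (g : Game α ι κ γ) (n q zm β : ℕ) : Prop where
  cardX : g.X.card = 2 ^ n
  dis : ∀ x ∈ g.X, ∀ y ∈ g.X, x ≠ y → Disjoint (g.fib x) (g.fib y)
  cert : ∀ l, ∀ z ∈ g.Z l, ∀ K, Cert q (g.acc K z)
  sees : ∀ l, ∀ z ∈ g.Z l, ∀ K K' : Finset κ, (∀ l' < l, ∀ p ∈ g.Z l', (p ∈ K ↔ p ∈ K')) →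
    ∀ T, (g.acc K z T ↔ g.acc K' z T)
  disZ : ∀ l l', l ≠ l' → Disjoint (g.Z l) (g.Z l')
  cardZ : ∀ l, (g.Z l).card ≤ zm
  grZ : ∀ l, ∀ z ∈ g.Z l, g.gr z ∈ g.Gr l
  cardG : ∀ l, (g.Gr l).card ≤ 2 ^ β
  posN : ∀ c, 0 < g.N c
  cardN : ∀ l, ∀ c ∈ g.Gr l, ((g.Z l).filter fun z => g.gr z = c).card ≤ g.N c

/-- The size of the sets in `Dead`. -/
def Mz (q zm : ℕ) : ℕ := (zm ^ 2 * q + 1) * q

/-- The number of strings protected for one layer at one state. -/
def pz (n q zm : ℕ) : ℕ := 2 ^ n * (zm * Mz q zm) + zm * q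

/-- The moves allowed at the end: nothing, or strings about one free `x` not in `Φ`. -/
def Mv (X : Finset ι) (fib : ι → Finset α) (Q : Finset α) (Φ : Finset ι) (P : Finset α) : Prop :=
  P = ∅ ∨ ∃ x ∈ fr X fib Q, x ∉ Φ ∧ P ⊆ fib x

/-- The statement about the layers `l, ..., D - 1`: whatever the codes `K₀` of the lower layers and the
controller `C`, at most `T` moves lead from `(Q, F)` to a state where `C` stops or which is good for all
layers `l, ..., D - 1`. -/
def Sp (g : Game α ι κ γ) (n q zm R D : ℕ) (a : ℕ → ℕ) (l T : ℕ) : Prop :=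
  ∀ (K₀ : Finset κ) (C : Ctrl α ι),
    (∀ Q F G Φ, C Q F = some (G, Φ) → G.card ≤ l * pz n q zm ∧ Φ.card * 2 ^ (a l + 1) ≤ 2 ^ n) →
    ∀ Q F : Finset α, ∃ t ≤ T, ∃ Q' F' : Finset α,
      Path g.X g.fib C ((D + 1) * pz n q zm) t Q F Q' F' ∧
      (C Q' F' = none ∨ ∃ G Φ, C Q' F' = some (G, Φ) ∧
        ∃ (K : Finset κ) (G' : Finset α) (Φ' : Finset ι),
          (∀ z, (∀ l', l ≤ l' → z ∉ g.Z l') → (z ∈ K ↔ z ∈ K₀)) ∧ G ⊆ G' ∧
          G'.card ≤ D * pz n q zm ∧ Φ ⊆ Φ' ∧ Φ'.card * 2 ^ (a D + 1) ≤ 2 ^ n ∧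
          ∀ P : Finset α, Mv g.X g.fib Q' Φ' P → Disjoint P (F' ∪ G') →
            ∀ l', l ≤ l' → l' < D → ∀ c ∈ g.Gr l',
              2 ^ R * ((g.Z l').filter fun z => g.gr z = c ∧
                ¬ (z ∈ K ↔ ¬ g.acc K z (Q' ∪ P))).card ≤ g.N c)

end Pool.Agent.LibAV75
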