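import Pool.Agent.LibAV75.W1

/-!
Row W2: progress at a bad group.
-/

namespace Pool.Agent.LibAV75

open Classical

variable {α ι κ γ : Type} [DecidableEq α] [DecidableEq ι] [DecidableEq κ] [DecidableEq γ]

/-- Decided items stay decided. -/
theorem Dcd.mono {acc : Finset α → Prop} {Q F Q' F' : Finset α} (h : Dcd acc Q F) (hQ : Q ⊆ Q')
    (hd : Disjoint (Q' \ Q) F) (hF : F ⊆ F') : Dcd acc Q' F' := by
  intro Q'' h1 h2
  refine h Q'' (hQ.trans h1) ?_
  rw [Finset.disjoint_left] at hd h2 ⊢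
  intro v hv hvF
  rw [Finset.mem_sdiff] at hv
  by_cases hv' : v ∈ Q'
  · exact hd (Finset.mem_sdiff.2 ⟨hv', hv.2⟩) hvF
  · exact h2 (Finset.mem_sdiff.2 ⟨hv.1, hv'⟩) (hF hvF)

/-- PLAN. `H := hi ... c` (nonempty). Double counting: every `z ∈ H` has more than `2 ^ (n - a)` live `x`,
at most `2 ^ (n - a - 1)` of them in `Φ`; so the sum over `x ∈ X` not in `Φ` of
`#{z ∈ H | x ∈ lv z}` is at least `H.card * 2 ^ n / 2 ^ (a + 1)` and some `x ∉ Φ` (free, since `lv` consists of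
free `x`) has `H.card ≤ 2 ^ (a + 1) * #Z'`, `Z' := {z ∈ H | x ∈ lv z}`. Apply `a3` to `Z'` with
`Reg := fib x`, `K := zm ^ 2 * q + 1` (`Z'.card ≤ zm`): it gives `Q' = Q ∪ P`
(`P := Q' \ Q ⊆ fib x`, disjoint from `F`) and `F'`, with `Dcd (acc z) Q' F'` for `z ∈ Z'`; these `z` were
undecided, and decided items stay decided (`Dcd.mono`). -/
theorem w2 {X : Finset ι} {fib : ι → Finset α} {Z : Finset κ} {gr : κ → γ}
    {acc : κ → Finset α → Prop} {n a b q zm : ℕ} (hX : X.card = 2 ^ n) (hZ : Z.card ≤ zm)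
    (hc : ∀ z ∈ Z, Cert q (acc z)) {Q F : Finset α} {Φ : Finset ι}
    (hΦ : Φ.card * 2 ^ (a + 1) ≤ 2 ^ n) {N : ℕ} {c : γ}
    (hbad : N < 2 ^ b * (hi X fib Z gr acc n a (Mz q zm) Q F c).card) :
    ∃ (x : ι) (P F' : Finset α), x ∈ fr X fib Q ∧ x ∉ Φ ∧ P ⊆ fib x ∧ Disjoint P F ∧ F ⊆ F' ∧
      F'.card ≤ F.card + zm * q ∧
      2 ^ (a + b + 1) * (Z.filter fun z => gr z = c ∧ Dcd (acc z) Q F).card + N <
        2 ^ (a + b + 1) * (Z.filter fun z => gr z = c ∧ Dcd (acc z) (Q ∪ P) F').card := by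
  set H := hi X fib Z gr acc n a (Mz q zm) Q F c with hH
  have hHpos : 0 < H.card := by
    rcases Nat.eq_zero_or_pos H.card with h0 | h0
    · rw [h0, Nat.mul_zero] at hbad
      exact absurd hbad (Nat.not_lt_zero _)
    · exact h0
  have hHm : ∀ z ∈ H, z ∈ Z ∧ gr z = c ∧ ¬ Dcd (acc z) Q F ∧
      2 ^ n < 2 ^ a * (lv X fib (acc z) Q F (Mz q zm)).card := by
    intro z hz
    rw [hH, hi, Finset.mem_filter] at hz
    exact hz
  have hlvX : ∀ z, lv X fib (acc z) Q F (Mz q zm) ⊆ X := by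
    intro z x hx
    exact (Finset.mem_filter.1 (Finset.mem_filter.1 hx).1).1
  -- every item of `H` has many live `x` outside `Φ`
  have hL : ∀ z ∈ H, 2 ^ n < 2 ^ (a + 1) * (lv X fib (acc z) Q F (Mz q zm) \ Φ).card := by
    intro z hz
    have h1 := (hHm z hz).2.2.2
    have h2 := Finset.le_card_sdiff Φ (lv X fib (acc z) Q F (Mz q zm))
    have h3 : (lv X fib (acc z) Q F (Mz q zm)).card ≤
        (lv X fib (acc z) Q F (Mz q zm) \ Φ).card + Φ.card := by omega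
    have h4 := Nat.mul_le_mul_left (2 ^ (a + 1)) h3
    have h5 : 2 ^ (a + 1) * (lv X fib (acc z) Q F (Mz q zm)).card =
        2 * (2 ^ a * (lv X fib (acc z) Q F (Mz q zm)).card) := by
      rw [pow_succ]; ring
    rw [h5, Nat.mul_add, Nat.mul_comm _ Φ.card] at h4
    omega
  -- double counting
  have hsum : ∑ z ∈ H, (lv X fib (acc z) Q F (Mz q zm) \ Φ).card =
      ∑ x ∈ X \ Φ, (H.filter fun z => x ∈ lv X fib (acc z) Q F (Mz q zm)).card := by
    have h1 : ∀ z ∈ H, (lv X fib (acc z) Q F (Mz q zm) \ Φ).card =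
        ∑ x ∈ X \ Φ, if x ∈ lv X fib (acc z) Q F (Mz q zm) then 1 else 0 := by
      intro z _
      rw [← Finset.card_filter]
      congr 1
      ext x
      rw [Finset.mem_sdiff, Finset.mem_filter, Finset.mem_sdiff]
      constructor
      · exact fun h => ⟨⟨hlvX z h.1, h.2⟩, h.1⟩
      · exact fun h => ⟨h.2, h.1.2⟩
    rw [Finset.sum_congr rfl h1, Finset.sum_comm]
    exact Finset.sum_congr rfl fun x _ => (Finset.card_filter _ _).symm
  obtain ⟨x, hx, hxc⟩ : ∃ x ∈ X \ Φ,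
      H.card ≤ 2 ^ (a + 1) * (H.filter fun z => x ∈ lv X fib (acc z) Q F (Mz q zm)).card := by
    by_contra hcon
    push Not at hcon
    have h1 : H.card * 2 ^ n <
        2 ^ (a + 1) * ∑ z ∈ H, (lv X fib (acc z) Q F (Mz q zm) \ Φ).card := by
      rw [Finset.mul_sum, ← smul_eq_mul, ← Finset.sum_const]
      exact Finset.sum_lt_sum_of_nonempty (Finset.card_pos.1 hHpos) hL
    have h2 : 2 ^ (a + 1) * ∑ z ∈ H, (lv X fib (acc z) Q F (Mz q zm) \ Φ).card ≤
        H.card * 2 ^ n := by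
      rw [hsum, Finset.mul_sum]
      calc ∑ x ∈ X \ Φ, 2 ^ (a + 1) *
            (H.filter fun z => x ∈ lv X fib (acc z) Q F (Mz q zm)).card
          ≤ ∑ _x ∈ X \ Φ, H.card := Finset.sum_le_sum fun x hx => (hcon x hx).le
        _ = (X \ Φ).card * H.card := by rw [Finset.sum_const, smul_eq_mul]
        _ ≤ X.card * H.card := Nat.mul_le_mul_right _ (Finset.card_le_card Finset.sdiff_subset)
        _ = H.card * 2 ^ n := by rw [hX, Nat.mul_comm]
    omega
  set Z' := H.filter fun z => x ∈ lv X fib (acc z) Q F (Mz q zm) with hZ'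
  have hZ'pos : 0 < Z'.card := by
    rcases Nat.eq_zero_or_pos Z'.card with h0 | h0
    · rw [h0, Nat.mul_zero] at hxc
      omega
    · exact h0
  have hZ'm : ∀ z ∈ Z', z ∈ H ∧ x ∈ lv X fib (acc z) Q F (Mz q zm) := fun z hz =>
    Finset.mem_filter.1 hz
  have hZ'Z : Z' ⊆ Z := fun z hz => (hHm z (hZ'm z hz).1).1
  have hZ'c : Z'.card ≤ zm := (Finset.card_le_card hZ'Z).trans hZ
  have hK : Z'.card ^ 2 * q < zm ^ 2 * q + 1 :=
    Nat.lt_succ_of_le (Nat.mul_le_mul_right _ (Nat.pow_le_pow_left hZ'c 2))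
  have hdead : ∀ z ∈ Z', ¬ Dead (acc z) Q F (fib x) ((zm ^ 2 * q + 1) * q) := by
    intro z hz
    exact (Finset.mem_filter.1 (hZ'm z hz).2).2
  obtain ⟨Q', F', hQ1, hQ2, hQ3, hF1, hF2, hacc⟩ :=
    a3 Z' acc (fun z hz => hc z (hZ'Z hz)) Q F (fib x) hK hdead
  have hxfr : x ∈ fr X fib Q := by
    obtain ⟨z, hz⟩ := Finset.card_pos.1 hZ'pos
    exact (Finset.mem_filter.1 (hZ'm z hz).2).1
  have hunion : Q ∪ (Q' \ Q) = Q' := Finset.union_sdiff_of_subset hQ1
  refine ⟨x, Q' \ Q, F', hxfr, (Finset.mem_sdiff.1 hx).2, ?_, hQ3, hF1,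
    hF2.trans (Nat.add_le_add_left (Nat.mul_le_mul_right _ hZ'c) _), ?_⟩
  · intro v hv
    rw [Finset.mem_sdiff] at hv
    rcases Finset.mem_union.1 (hQ2 hv.1) with h | h
    · exact absurd h hv.2
    · exact h
  · rw [hunion]
    have hdis : Disjoint (Z.filter fun z => gr z = c ∧ Dcd (acc z) Q F) Z' := by
      rw [Finset.disjoint_left]
      intro z hz hz'
      exact (hHm z (hZ'm z hz').1).2.2.1 (Finset.mem_filter.1 hz).2.2
    have hsub : (Z.filter fun z => gr z = c ∧ Dcd (acc z) Q F) ∪ Z' ⊆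
        Z.filter fun z => gr z = c ∧ Dcd (acc z) Q' F' := by
      intro z hz
      rw [Finset.mem_filter]
      rcases Finset.mem_union.1 hz with h | h
      · have h1 := Finset.mem_filter.1 h
        exact ⟨h1.1, h1.2.1, h1.2.2.mono hQ1 hQ3 hF1⟩
      · exact ⟨hZ'Z h, (hHm z (hZ'm z h).1).2.1, hacc z h⟩
    have h1 := Finset.card_le_card hsub
    rw [Finset.card_union_of_disjoint hdis] at h1
    have h2 := Nat.mul_le_mul_left (2 ^ (a + b + 1)) h1
    have h3 : 2 ^ b * H.card ≤ 2 ^ (a + b + 1) * Z'.card := by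
      calc 2 ^ b * H.card ≤ 2 ^ b * (2 ^ (a + 1) * Z'.card) := Nat.mul_le_mul_left _ hxc
        _ = 2 ^ (a + b + 1) * Z'.card := by ring
    rw [Nat.mul_add] at h2
    omega

end Pool.Agent.LibAV75
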