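import Pool.Agent.LibAV75.W1

/-!
Row W3: the forbidden `x` of a layer without bad groups.
-/

namespace Pool.Agent.LibAV75

open Classical

variable {α ι κ γ : Type} [DecidableEq α] [DecidableEq ι] [DecidableEq κ] [DecidableEq γ]

/-- PLAN. `G` := the union of the sets `G_{x, z}` of `Dead (acc z) Q F (fib x) M` for all `x ∈ X`,
`z ∈ Z` with `Dead` (at most `2 ^ n * (zm * Mz)` strings), and of certificates of all `z ∈ Z` with
`acc z Q` (at most `zm * q`). `Φ'` := the `x ∈ X` for which some group `c ∈ Γ` has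
`N c < 2 ^ b * #{z ∈ Z | gr z = c, z ∉ hi, ¬ Dcd, x ∈ lv z}`. For fixed `c` the number `y` of these `x`
satisfies `y * N c ≤ 2 ^ b * ∑ x, #{z ∈ group c | z not in hi, undecided, x ∈ lv z} ≤
2 ^ b * (N c * 2 ^ (n - a))` (the `z` outside `hi` have at most `2 ^ n / 2 ^ a` live `x`), so
`2 ^ a * y ≤ 2 ^ (n + b)`. Flips: if `¬ acc z Q` and `acc z (Q ∪ P)` with `P ⊆ fib x` disjoint from
`F ∪ G`, then `z` is undecided (`Dcd` would give `acc z Q`) and `¬ Dead`, i.e. `x ∈ lv z`; such `z` in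
`hi` are at most `N c / 2 ^ b` (`hgood`), those outside `hi` too (`x ∉ Φ'`). -/
theorem w3 {X : Finset ι} {fib : ι → Finset α} {Z : Finset κ} {gr : κ → γ} {Γ : Finset γ}
    {acc : κ → Finset α → Prop} {n a b q zm β : ℕ} {N : γ → ℕ} (hX : X.card = 2 ^ n)
    (hZ : Z.card ≤ zm) (hc : ∀ z ∈ Z, Cert q (acc z)) (hΓ : Γ.card ≤ 2 ^ β)
    (hN0 : ∀ c, 0 < N c) (hN : ∀ c ∈ Γ, (Z.filter fun z => gr z = c).card ≤ N c)
    (Q F : Finset α)
    (hgood : ∀ c ∈ Γ, 2 ^ b * (hi X fib Z gr acc n a (Mz q zm) Q F c).card ≤ N c) :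
    ∃ (G : Finset α) (Φ' : Finset ι), G.card ≤ pz n q zm ∧ Φ'.card * 2 ^ a ≤ 2 ^ (n + b + β) ∧
      (∀ z ∈ Z, acc z Q → Dcd (acc z) Q (F ∪ G)) ∧
      ∀ P : Finset α, Mv X fib Q Φ' P → Disjoint P (F ∪ G) → ∀ c ∈ Γ,
        2 ^ b * (Z.filter fun z => gr z = c ∧ ¬ acc z Q ∧ acc z (Q ∪ P)).card ≤ 2 * N c := by
  obtain ⟨M, hM⟩ : ∃ M, M = Mz q zm := ⟨_, rfl⟩
  rw [← hM] at hgood
  -- the protected strings
  have hG1 : ∀ x : ι, ∀ z : κ, ∃ G : Finset α, G.card ≤ M ∧ (Dead (acc z) Q F (fib x) M →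
      ∀ P : Finset α, P ⊆ fib x → Disjoint P (F ∪ G) → ¬ acc z (Q ∪ P)) := by
    intro x z
    by_cases h : Dead (acc z) Q F (fib x) M
    · obtain ⟨G, h1, h2⟩ := h
      exact ⟨G, h1, fun _ => h2⟩
    · exact ⟨∅, by simp, fun h' => absurd h' h⟩
  choose G1 hG1c hG1 using hG1
  have hG2 : ∀ z : κ, ∃ V : Finset α, V.card ≤ q ∧ (z ∈ Z → acc z Q →
      ∀ P' : Finset α, (∀ v ∈ V, (v ∈ P' ↔ v ∈ Q)) → acc z P') := by
    intro z
    by_cases h : z ∈ Z ∧ acc z Q
    · obtain ⟨V, h1, h2⟩ := hc z h.1 Q h.2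
      exact ⟨V, h1, fun _ _ => h2⟩
    · exact ⟨∅, by simp, fun h1 h2 => absurd ⟨h1, h2⟩ h⟩
  choose G2 hG2c hG2 using hG2
  let U : γ → ι → Finset κ := fun c x => Z.filter fun z => gr z = c ∧
    z ∉ hi X fib Z gr acc n a M Q F c ∧ ¬ Dcd (acc z) Q F ∧ x ∈ lv X fib (acc z) Q F M
  let Y : γ → Finset ι := fun c => X.filter fun x => N c < 2 ^ b * (U c x).card
  refine ⟨(X.biUnion fun x => Z.biUnion fun z => G1 x z) ∪ Z.biUnion G2,
    X.filter fun x => ∃ c ∈ Γ, N c < 2 ^ b * (U c x).card, ?_, ?_, ?_, ?_⟩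
  · refine (Finset.card_union_le _ _).trans (Nat.add_le_add ?_ ?_)
    · rw [← hX, ← hM]
      refine Finset.card_biUnion_le_card_mul _ _ _ fun x _ => ?_
      refine (Finset.card_biUnion_le_card_mul _ _ M fun z _ => hG1c x z).trans ?_
      exact Nat.mul_le_mul_right _ hZ
    · refine (Finset.card_biUnion_le_card_mul _ _ q fun z _ => hG2c z).trans ?_
      exact Nat.mul_le_mul_right _ hZ
  · have hlv : ∀ c : γ, ∀ z ∈ Z.filter (fun z => gr z = c ∧
        z ∉ hi X fib Z gr acc n a M Q F c ∧ ¬ Dcd (acc z) Q F),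
        2 ^ a * (lv X fib (acc z) Q F M).card ≤ 2 ^ n := by
      intro c z hz
      rw [Finset.mem_filter] at hz
      obtain ⟨hz1, hz2, hz3, hz4⟩ := hz
      by_contra hcon
      push Not at hcon
      apply hz3
      unfold hi
      rw [Finset.mem_filter]
      exact ⟨hz1, hz2, hz4, hcon⟩
    have hsum : ∀ c : γ, ∑ x ∈ X, (U c x).card ≤
        ∑ z ∈ Z.filter (fun z => gr z = c ∧
          z ∉ hi X fib Z gr acc n a M Q F c ∧ ¬ Dcd (acc z) Q F),
          (lv X fib (acc z) Q F M).card := by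
      intro c
      have h1 : ∀ x ∈ X, (U c x).card = ∑ z ∈ Z.filter (fun z => gr z = c ∧
          z ∉ hi X fib Z gr acc n a M Q F c ∧ ¬ Dcd (acc z) Q F),
          if x ∈ lv X fib (acc z) Q F M then 1 else 0 := by
        intro x _
        rw [← Finset.sum_filter, Finset.sum_const, smul_eq_mul, mul_one, Finset.filter_filter]
        congr 1
        ext z
        simp only [U, Finset.mem_filter]
        tauto
      rw [Finset.sum_congr rfl h1, Finset.sum_comm]
      refine Finset.sum_le_sum fun z _ => ?_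
      rw [← Finset.sum_filter, Finset.sum_const, smul_eq_mul, mul_one]
      refine Finset.card_le_card fun x hx => ?_
      rw [Finset.mem_filter] at hx
      exact hx.2
    have hY : ∀ c ∈ Γ, (Y c).card * 2 ^ a ≤ 2 ^ (n + b) := by
      intro c hcΓ
      have h1 : (Y c).card * N c ≤ ∑ x ∈ X, 2 ^ b * (U c x).card := by
        calc (Y c).card * N c = ∑ x ∈ Y c, N c := by
              rw [Finset.sum_const, smul_eq_mul]
          _ ≤ ∑ x ∈ Y c, 2 ^ b * (U c x).card := by
              refine Finset.sum_le_sum fun x hx => ?_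
              exact (Finset.mem_filter.1 hx).2.le
          _ ≤ ∑ x ∈ X, 2 ^ b * (U c x).card :=
              Finset.sum_le_sum_of_subset (Finset.filter_subset _ _)
      have h2 : 2 ^ a * ∑ x ∈ X, (U c x).card ≤ N c * 2 ^ n := by
        calc 2 ^ a * ∑ x ∈ X, (U c x).card
            ≤ 2 ^ a * ∑ z ∈ Z.filter (fun z => gr z = c ∧
              z ∉ hi X fib Z gr acc n a M Q F c ∧ ¬ Dcd (acc z) Q F),
              (lv X fib (acc z) Q F M).card := Nat.mul_le_mul_left _ (hsum c)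
          _ = ∑ z ∈ Z.filter (fun z => gr z = c ∧
              z ∉ hi X fib Z gr acc n a M Q F c ∧ ¬ Dcd (acc z) Q F),
              2 ^ a * (lv X fib (acc z) Q F M).card := by rw [Finset.mul_sum]
          _ ≤ ∑ z ∈ Z.filter (fun z => gr z = c ∧
              z ∉ hi X fib Z gr acc n a M Q F c ∧ ¬ Dcd (acc z) Q F), 2 ^ n :=
              Finset.sum_le_sum (hlv c)
          _ = (Z.filter (fun z => gr z = c ∧
              z ∉ hi X fib Z gr acc n a M Q F c ∧ ¬ Dcd (acc z) Q F)).card * 2 ^ n := by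
              rw [Finset.sum_const, smul_eq_mul]
          _ ≤ N c * 2 ^ n := by
              refine Nat.mul_le_mul_right _ (le_trans (Finset.card_le_card ?_) (hN c hcΓ))
              intro z hz
              rw [Finset.mem_filter] at hz ⊢
              exact ⟨hz.1, hz.2.1⟩
      have h3 : (Y c).card * 2 ^ a * N c ≤ 2 ^ (n + b) * N c := by
        calc (Y c).card * 2 ^ a * N c = 2 ^ a * ((Y c).card * N c) := by ring
          _ ≤ 2 ^ a * ∑ x ∈ X, 2 ^ b * (U c x).card := Nat.mul_le_mul_left _ h1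
          _ = 2 ^ b * (2 ^ a * ∑ x ∈ X, (U c x).card) := by
              rw [← Finset.mul_sum]; ring
          _ ≤ 2 ^ b * (N c * 2 ^ n) := Nat.mul_le_mul_left _ h2
          _ = 2 ^ (n + b) * N c := by rw [pow_add]; ring
      exact Nat.le_of_mul_le_mul_right h3 (hN0 c)
    have hsub : (X.filter fun x => ∃ c ∈ Γ, N c < 2 ^ b * (U c x).card) ⊆ Γ.biUnion Y := by
      intro x hx
      rw [Finset.mem_filter] at hx
      obtain ⟨hx1, c, hcΓ, hx2⟩ := hx
      rw [Finset.mem_biUnion]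
      exact ⟨c, hcΓ, Finset.mem_filter.2 ⟨hx1, hx2⟩⟩
    calc (X.filter fun x => ∃ c ∈ Γ, N c < 2 ^ b * (U c x).card).card * 2 ^ a
        ≤ (∑ c ∈ Γ, (Y c).card) * 2 ^ a :=
          Nat.mul_le_mul_right _ ((Finset.card_le_card hsub).trans Finset.card_biUnion_le)
      _ = ∑ c ∈ Γ, (Y c).card * 2 ^ a := by rw [Finset.sum_mul]
      _ ≤ ∑ c ∈ Γ, 2 ^ (n + b) := Finset.sum_le_sum hY
      _ = Γ.card * 2 ^ (n + b) := by rw [Finset.sum_const, smul_eq_mul]
      _ ≤ 2 ^ β * 2 ^ (n + b) := Nat.mul_le_mul_right _ hΓ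
      _ = 2 ^ (n + b + β) := by rw [← pow_add]; congr 1; ring
  · intro z hz hacc Q' hQ' hdis
    refine hG2 z hz hacc Q' fun v hv => ⟨fun hv' => ?_, fun hv' => hQ' hv'⟩
    by_contra hvQ
    have h1 : v ∈ Q' \ Q := Finset.mem_sdiff.2 ⟨hv', hvQ⟩
    refine Finset.disjoint_left.1 hdis h1 ?_
    refine Finset.mem_union_right _ (Finset.mem_union_right _ ?_)
    exact Finset.mem_biUnion.2 ⟨z, hz, hv⟩
  · intro P hP hdis c hcΓ
    rcases hP with hP | ⟨x, hx, hxΦ, hPx⟩
    · have h1 : (Z.filter fun z => gr z = c ∧ ¬ acc z Q ∧ acc z (Q ∪ P)) = ∅ := by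
        rw [Finset.filter_eq_empty_iff]
        rintro z _ ⟨_, h2, h3⟩
        rw [hP, Finset.union_empty] at h3
        exact h2 h3
      rw [h1]
      simp
    · have hxX : x ∈ X := (Finset.mem_filter.1 hx).1
      have hsub : (Z.filter fun z => gr z = c ∧ ¬ acc z Q ∧ acc z (Q ∪ P)) ⊆
          hi X fib Z gr acc n a M Q F c ∪ U c x := by
        intro z hz
        rw [Finset.mem_filter] at hz
        obtain ⟨hz1, hz2, hz3, hz4⟩ := hz
        rw [Finset.mem_union]
        by_cases h1 : z ∈ hi X fib Z gr acc n a M Q F c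
        · exact Or.inl h1
        · refine Or.inr (Finset.mem_filter.2 ⟨hz1, hz2, h1, fun h2 => hz3 ?_, ?_⟩)
          · exact h2 Q (Finset.Subset.refl _) (by simp)
          · refine Finset.mem_filter.2 ⟨hx, fun h2 => ?_⟩
            refine hG1 x z h2 P hPx ?_ hz4
            refine Finset.disjoint_of_subset_right ?_ hdis
            refine Finset.union_subset_union_right ?_
            intro v hv
            refine Finset.mem_union_left _ ?_
            exact Finset.mem_biUnion.2 ⟨x, hxX, Finset.mem_biUnion.2 ⟨z, hz1, hv⟩⟩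
      have hU : 2 ^ b * (U c x).card ≤ N c := by
        by_contra hcon
        push Not at hcon
        exact hxΦ (Finset.mem_filter.2 ⟨hxX, c, hcΓ, hcon⟩)
      have hH := hgood c hcΓ
      calc 2 ^ b * (Z.filter fun z => gr z = c ∧ ¬ acc z Q ∧ acc z (Q ∪ P)).card
          ≤ 2 ^ b * ((hi X fib Z gr acc n a M Q F c).card + (U c x).card) :=
            Nat.mul_le_mul_left _ ((Finset.card_le_card hsub).trans (Finset.card_union_le _ _))
        _ = 2 ^ b * (hi X fib Z gr acc n a M Q F c).card + 2 ^ b * (U c x).card := by ring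
        _ ≤ N c + N c := Nat.add_le_add hH hU
        _ = 2 * N c := by ring

end Pool.Agent.LibAV75
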