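import Pool.Agent.LibAV75.W1

/-!
Row W4: few items flip along a path.
-/

namespace Pool.Agent.LibAV75

open Classical

variable {α ι κ γ : Type} [DecidableEq α] [DecidableEq ι] [DecidableEq κ] [DecidableEq γ]

theorem Path.sub {X : Finset ι} {fib : ι → Finset α} {C : Ctrl α ι} {bd t : ℕ}
    {Q F Q' F' : Finset α} (h : Path X fib C bd t Q F Q' F') :
    Q ⊆ Q' ∧ F ⊆ F' ∧ Disjoint (Q' \ Q) F ∧ Q' ⊆ Q ∪ X.biUnion fib ∧
      F'.card ≤ F.card + t * bd := by
  induction h with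
  | nil Q F =>
    exact ⟨subset_rfl, subset_rfl, by rw [Finset.sdiff_self]; exact Finset.disjoint_empty_left _,
      Finset.subset_union_left, by simp⟩
  | @step t Q F Q₁ F₁ G P F₂ Φ x h hC hx hΦ hP hPF hF hc ih =>
    obtain ⟨h1, h2, h3, h4, h5⟩ := ih
    have hF1 : F₁ ⊆ F₂ := Finset.subset_union_left.trans hF
    refine ⟨h1.trans Finset.subset_union_left, h2.trans hF1, ?_, ?_, ?_⟩
    · rw [Finset.disjoint_left]
      intro s hs hsF
      obtain ⟨hs1, hs2⟩ := Finset.mem_sdiff.1 hs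
      rcases Finset.mem_union.1 hs1 with hs3 | hs3
      · exact Finset.disjoint_left.1 h3 (Finset.mem_sdiff.2 ⟨hs3, hs2⟩) hsF
      · exact Finset.disjoint_left.1 hPF hs3 (Finset.mem_union_left _ (h2 hsF))
    · refine Finset.union_subset h4 (hP.trans ?_)
      refine (Finset.subset_biUnion_of_mem fib (Finset.mem_filter.1 hx).1).trans ?_
      exact Finset.subset_union_right
    · rw [Nat.succ_mul]
      omega

theorem Path.trans {X : Finset ι} {fib : ι → Finset α} {C : Ctrl α ι} {bd t t' : ℕ}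
    {Q F Q' F' Q'' F'' : Finset α} (h : Path X fib C bd t Q F Q' F')
    (h' : Path X fib C bd t' Q' F' Q'' F'') : Path X fib C bd (t + t') Q F Q'' F'' := by
  induction h' with
  | nil Q F => exact h
  | step h' hC hx hΦ hP hPF hF hc ih => exact Path.step (ih h) hC hx hΦ hP hPF hF hc

/-- Paths for a stronger controller are paths. -/
theorem Path.weaken {X : Finset ι} {fib : ι → Finset α} {C C' : Ctrl α ι} {bd t : ℕ}
    (hCC : ∀ Q F G Φ, C' Q F = some (G, Φ) → ∃ G₀ Φ₀, C Q F = some (G₀, Φ₀) ∧ G₀ ⊆ G ∧ Φ₀ ⊆ Φ)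
    {Q F Q' F' : Finset α} (h : Path X fib C' bd t Q F Q' F') :
    Path X fib C bd t Q F Q' F' := by
  induction h with
  | nil Q F => exact Path.nil Q F
  | @step t Q F Q₁ F₁ G P F₂ Φ x h hC hx hΦ hP hPF hF hc ih =>
    obtain ⟨G₀, Φ₀, h1, h2, h3⟩ := hCC _ _ _ _ hC
    refine Path.step ih h1 hx (fun h4 => hΦ (h3 h4)) hP ?_ ?_ hc
    · exact Finset.disjoint_of_subset_right (Finset.union_subset_union_right h2) hPF
    · exact (Finset.union_subset_union_right h2).trans hF

/-- The number of `x` which are no longer free. PLAN. Every move concerns one `x` (the `fib x` are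
pairwise disjoint). -/
theorem Path.used {X : Finset ι} {fib : ι → Finset α} {C : Ctrl α ι} {bd t : ℕ}
    (hdis : ∀ x ∈ X, ∀ y ∈ X, x ≠ y → Disjoint (fib x) (fib y))
    {Q F Q' F' : Finset α} (h : Path X fib C bd t Q F Q' F') :
    (X.filter fun x => ¬ Disjoint (fib x) Q').card ≤
      (X.filter fun x => ¬ Disjoint (fib x) Q).card + t := by
  induction h with
  | nil Q F => simp
  | @step t Q F Q₁ F₁ G P F₂ Φ x h hC hx hΦ hP hPF hF hc ih =>
    have hxX : x ∈ X := (Finset.mem_filter.1 hx).1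
    have h1 : (X.filter fun y => ¬ Disjoint (fib y) (Q₁ ∪ P)) ⊆
        insert x (X.filter fun y => ¬ Disjoint (fib y) Q₁) := by
      intro y hy
      obtain ⟨hy1, hy2⟩ := Finset.mem_filter.1 hy
      by_cases hyx : y = x
      · rw [hyx]
        exact Finset.mem_insert_self _ _
      · refine Finset.mem_insert_of_mem (Finset.mem_filter.2 ⟨hy1, fun h2 => hy2 ?_⟩)
        rw [Finset.disjoint_union_right]
        exact ⟨h2, Finset.disjoint_of_subset_right hP (hdis y hy1 x hxX hyx)⟩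
    have h2 := (Finset.card_le_card h1).trans (Finset.card_insert_le _ _)
    omega

/-- PLAN. Induction on the path. `acc z Q₁` persists: the controller's `G` contains what is needed
(`hkeep`), it is protected after the move. Each step flips at most `2 * N / 2 ^ b` items of the group
(`hflip` with `P`; a move satisfies `Mv`). -/
theorem w4 {X : Finset ι} {fib : ι → Finset α} {Z : Finset κ} {gr : κ → γ} {Γ : Finset γ}
    {acc : κ → Finset α → Prop} {b : ℕ} {N : γ → ℕ} {C : Ctrl α ι} {bd t : ℕ}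
    (hkeep : ∀ Q F G Φ, C Q F = some (G, Φ) → ∀ z ∈ Z, acc z Q → Dcd (acc z) Q (F ∪ G))
    (hflip : ∀ Q F G Φ, C Q F = some (G, Φ) → ∀ P : Finset α, Mv X fib Q Φ P →
      Disjoint P (F ∪ G) → ∀ c ∈ Γ,
        2 ^ b * (Z.filter fun z => gr z = c ∧ ¬ acc z Q ∧ acc z (Q ∪ P)).card ≤ 2 * N c)
    {Q F Q' F' : Finset α} (h : Path X fib C bd t Q F Q' F') :
    (∀ z ∈ Z, acc z Q → acc z Q') ∧
    ∀ c ∈ Γ, 2 ^ b * (Z.filter fun z => gr z = c ∧ ¬ acc z Q ∧ acc z Q').card ≤ 2 * t * N c := by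
  induction h with
  | nil Q F =>
    refine ⟨fun z _ h => h, fun c _ => ?_⟩
    have h1 : (Z.filter fun z => gr z = c ∧ ¬ acc z Q ∧ acc z Q) = ∅ := by
      rw [Finset.filter_eq_empty_iff]
      rintro z _ ⟨-, h2, h3⟩
      exact h2 h3
    rw [h1]
    simp
  | @step t Q F Q₁ F₁ G P F₂ Φ x h hC hx hΦ hP hPF hF hc ih =>
    obtain ⟨ih1, ih2⟩ := ih
    refine ⟨fun z hz hzQ => ?_, fun c hcΓ => ?_⟩
    · refine hkeep _ _ _ _ hC z hz (ih1 z hz hzQ) (Q₁ ∪ P) Finset.subset_union_left ?_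
      refine Finset.disjoint_of_subset_left ?_ hPF
      intro s hs
      obtain ⟨hs1, hs2⟩ := Finset.mem_sdiff.1 hs
      rcases Finset.mem_union.1 hs1 with hs3 | hs3
      · exact absurd hs3 hs2
      · exact hs3
    · have h1 : (Z.filter fun z => gr z = c ∧ ¬ acc z Q ∧ acc z (Q₁ ∪ P)) ⊆
          (Z.filter fun z => gr z = c ∧ ¬ acc z Q ∧ acc z Q₁) ∪
          (Z.filter fun z => gr z = c ∧ ¬ acc z Q₁ ∧ acc z (Q₁ ∪ P)) := by
        intro z hz
        obtain ⟨hz1, hz2, hz3, hz4⟩ := Finset.mem_filter.1 hz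
        by_cases h2 : acc z Q₁
        · exact Finset.mem_union_left _ (Finset.mem_filter.2 ⟨hz1, hz2, hz3, h2⟩)
        · exact Finset.mem_union_right _ (Finset.mem_filter.2 ⟨hz1, hz2, h2, hz4⟩)
      have h2 := (Finset.card_le_card h1).trans (Finset.card_union_le _ _)
      have h3 := ih2 c hcΓ
      have h4 := hflip _ _ _ _ hC P (Or.inr ⟨x, hx, hΦ, hP⟩) hPF c hcΓ
      calc 2 ^ b * (Z.filter fun z => gr z = c ∧ ¬ acc z Q ∧ acc z (Q₁ ∪ P)).card
          ≤ 2 ^ b * ((Z.filter fun z => gr z = c ∧ ¬ acc z Q ∧ acc z Q₁).card +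
            (Z.filter fun z => gr z = c ∧ ¬ acc z Q₁ ∧ acc z (Q₁ ∪ P)).card) :=
            Nat.mul_le_mul_left _ h2
        _ ≤ 2 * t * N c + 2 * N c := by
            rw [Nat.mul_add]
            exact Nat.add_le_add h3 h4
        _ = 2 * (t + 1) * N c := by ring

end Pool.Agent.LibAV75
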