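import Pool.Agent.LibAV75.W2
import Pool.Agent.LibAV75.W3
import Pool.Agent.LibAV75.W4

/-!
Row W5: one more layer.
-/

namespace Pool.Agent.LibAV75

open Classical

variable {α ι κ γ : Type} [DecidableEq α] [DecidableEq ι] [DecidableEq κ] [DecidableEq γ]

/-- PLAN. Fix `K₀`, `C`. `Z := g.Z l`, `acc z := g.acc K₀ z`. Potential of a state:
`Ψ Q F := ∑ c ∈ g.Gr l, (2 ^ (a l + b + 1) * #{z ∈ Z | gr z = c, Dcd (acc z) Q F}) / N c ≤
2 ^ (a l + b + 1 + β)`; it does not decrease along paths (`Dcd.mono`, `Path.sub`). Prove by induction on `k`: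
from every state with `2 ^ (a l + b + 1 + β) ≤ Ψ Q F + k` at most `(k + 1) * (T + 1)` moves suffice.
The controller for the upper layers: `C' Q F := match C Q F with | none => none | some (G, Φ) => if some
group `c ∈ g.Gr l` is bad at `(Q, F ∪ G)` (`N c < 2 ^ b * (hi ... Q (F ∪ G) c).card`) then none else
some (G ∪ G_l, Φ ∪ Φ_l)` with `G_l`, `Φ_l` from `w3` at `(Q, F ∪ G)`. Its bounds:
`(l + 1) * pz`, and `(Φ.card + Φ_l.card) * 2 ^ (a (l + 1) + 1) ≤ 2 ^ n` as
`a (l + 1) + b + β + 2 ≤ a l`.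
Apply `hS : Sp (l + 1)` with `C'` and the codes `K₁ := (K₀ \ Z) ∪ {z ∈ Z | ¬ acc z Q}`
(`Q` the present state): a path (under `C'`, hence under `C` by `Path.weaken`) of at most `T` moves to
`(Q', F')` with one of:
* `C Q' F' = none`: done;
* `C Q' F' = some (G, Φ)` and a bad group at `(Q', F' ∪ G)`: `w2` (with `F := F' ∪ G`, `Φ`) gives one more
  move (growth of `F`: `l * pz + zm * q ≤ (D + 1) * pz`) and `Ψ` increases by at least 1: induction
  hypothesis;
* `C' Q' F' = some (G ∪ G_l, Φ ∪ Φ_l)` and the upper layers are good, with `K`, `G'`, `Φ'`. This is the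
  result: for the layer `l`, `z ∈ K ↔ z ∈ K₁` for `z ∈ Z` and `g.acc K z = g.acc K₀ z` (`sees`; `K` and `K₀`
  agree on lower layers). For a move `P`: errors are the `z ∈ Z` with `¬ (¬ acc z Q ↔ ¬ acc z (Q' ∪ P))`;
  `acc z Q` persists (`w4`, then `w3`); the `z` with `¬ acc z Q` and `acc z (Q' ∪ P)` either flipped along
  the path (`w4`: at most `2 * t * N / 2 ^ b`) or in the last move (`w3`: `2 * N / 2 ^ b`), together
  `2 ^ b * # ≤ 2 * (t + 1) * N ≤ 2 ^ (τ + 1) * N` (`T + 1 ≤ 2 ^ τ`) and `R + 1 + τ ≤ b`.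
  (For `K₁` use `z ∈ K₁ ↔ z ∈ K₀` off `Z`.) -/
theorem w5 {g : Game α ι κ γ} {n q zm β R D : ℕ} (hg : g.Ok n q zm β) {a : ℕ → ℕ}
    {b τ l T : ℕ} (hl : l < D) (hS : Sp g n q zm R D a (l + 1) T) (hT : T + 1 ≤ 2 ^ τ)
    (hb : R + 1 + τ ≤ b) (ha : a (l + 1) + b + β + 2 ≤ a l) :
    Sp g n q zm R D a l (2 ^ (a l + b + β + 2) * 2 ^ τ) := by
  intro K₀ C hC
  -- abbreviations
  set Z := g.Z l with hZdef
  have hcZ : ∀ z ∈ Z, Cert q (g.acc K₀ z) := fun z hz => hg.cert l z hz K₀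
  have hZc : Z.card ≤ zm := hg.cardZ l
  have hΓ : (g.Gr l).card ≤ 2 ^ β := hg.cardG l
  have hN : ∀ c ∈ g.Gr l, (Z.filter fun z => g.gr z = c).card ≤ g.N c := hg.cardN l
  -- the good states
  let good : Finset α → Finset α → Prop := fun Q F =>
    ∀ c ∈ g.Gr l, 2 ^ b * (hi g.X g.fib Z g.gr (g.acc K₀) n (a l) (Mz q zm) Q F c).card ≤ g.N c
  have h3 : ∀ Q F : Finset α, ∃ (G : Finset α) (Φ' : Finset ι), good Q F →
      (G.card ≤ pz n q zm ∧ Φ'.card * 2 ^ (a l) ≤ 2 ^ (n + b + β) ∧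
      (∀ z ∈ Z, g.acc K₀ z Q → Dcd (g.acc K₀ z) Q (F ∪ G)) ∧
      ∀ P : Finset α, Mv g.X g.fib Q Φ' P → Disjoint P (F ∪ G) → ∀ c ∈ g.Gr l,
        2 ^ b * (Z.filter fun z => g.gr z = c ∧ ¬ g.acc K₀ z Q ∧ g.acc K₀ z (Q ∪ P)).card
          ≤ 2 * g.N c) := by
    intro Q F
    by_cases hgd : good Q F
    · obtain ⟨G, Φ', h⟩ := w3 (X := g.X) (fib := g.fib) (Z := Z) (gr := g.gr) (Γ := g.Gr l)
        (acc := g.acc K₀) (n := n) (a := a l) (b := b) (q := q) (zm := zm) (β := β) (N := g.N)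
        hg.cardX hZc hcZ hΓ hg.posN hN Q F hgd
      exact ⟨G, Φ', fun _ => h⟩
    · exact ⟨∅, ∅, fun h => absurd h hgd⟩
  choose Gl Φl hl3 using h3
  let C' : Ctrl α ι := fun Q F =>
    match C Q F with
    | none => none
    | some (G, Φ) => if good Q (F ∪ G) then some (G ∪ Gl Q (F ∪ G), Φ ∪ Φl Q (F ∪ G)) else none
  have hC'some : ∀ Q F G Φ, C' Q F = some (G, Φ) → ∃ G₀ Φ₀, C Q F = some (G₀, Φ₀) ∧
      good Q (F ∪ G₀) ∧ G = G₀ ∪ Gl Q (F ∪ G₀) ∧ Φ = Φ₀ ∪ Φl Q (F ∪ G₀) := by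
    intro Q F G Φ h
    simp only [C'] at h
    split at h
    · exact absurd h (by simp)
    · rename_i G₀ Φ₀ hCQ
      split at h
      · rename_i hgd
        simp only [Option.some.injEq, Prod.mk.injEq] at h
        exact ⟨G₀, Φ₀, hCQ, hgd, h.1.symm, h.2.symm⟩
      · exact absurd h (by simp)
  have hC'none : ∀ Q F, C' Q F = none → C Q F = none ∨ ∃ G₀ Φ₀, C Q F = some (G₀, Φ₀) ∧
      ¬ good Q (F ∪ G₀) := by
    intro Q F h
    simp only [C'] at h
    split at h
    · rename_i hCQ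
      exact Or.inl hCQ
    · rename_i G₀ Φ₀ hCQ
      split at h
      · exact absurd h (by simp)
      · rename_i hgd
        exact Or.inr ⟨G₀, Φ₀, hCQ, hgd⟩
  -- bounds of the new controller
  have hC'bd : ∀ Q F G Φ, C' Q F = some (G, Φ) → G.card ≤ (l + 1) * pz n q zm ∧
      Φ.card * 2 ^ (a (l + 1) + 1) ≤ 2 ^ n := by
    intro Q F G Φ h
    obtain ⟨G₀, Φ₀, h1, hgd, rfl, rfl⟩ := hC'some Q F G Φ h
    obtain ⟨b1, b2, -, -⟩ := hl3 Q (F ∪ G₀) hgd
    obtain ⟨c1, c2⟩ := hC Q F G₀ Φ₀ h1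
    constructor
    · calc (G₀ ∪ Gl Q (F ∪ G₀)).card ≤ G₀.card + (Gl Q (F ∪ G₀)).card := Finset.card_union_le _ _
        _ ≤ l * pz n q zm + pz n q zm := Nat.add_le_add c1 b1
        _ = (l + 1) * pz n q zm := by ring
    · have e1 : Φ₀.card * 2 ^ (a (l + 1) + 2) ≤ 2 ^ n :=
        le_trans (Nat.mul_le_mul_left _ (Nat.pow_le_pow_right (by norm_num) (by omega))) c2
      have e2 : (Φl Q (F ∪ G₀)).card * 2 ^ (a (l + 1) + 2) ≤ 2 ^ n := by
        have h5 : (Φl Q (F ∪ G₀)).card * 2 ^ (a (l + 1) + 2) * 2 ^ (b + β) ≤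
            2 ^ n * 2 ^ (b + β) := by
          calc (Φl Q (F ∪ G₀)).card * 2 ^ (a (l + 1) + 2) * 2 ^ (b + β)
              = (Φl Q (F ∪ G₀)).card * 2 ^ (a (l + 1) + b + β + 2) := by
                rw [mul_assoc, ← pow_add]; congr 2; ring
            _ ≤ (Φl Q (F ∪ G₀)).card * 2 ^ (a l) :=
                Nat.mul_le_mul_left _ (Nat.pow_le_pow_right (by norm_num) ha)
            _ ≤ 2 ^ (n + b + β) := b2
            _ = 2 ^ n * 2 ^ (b + β) := by rw [← pow_add]; congr 1; ring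
        exact Nat.le_of_mul_le_mul_right h5 (by positivity)
      have e3 : (Φ₀ ∪ Φl Q (F ∪ G₀)).card ≤ Φ₀.card + (Φl Q (F ∪ G₀)).card :=
        Finset.card_union_le _ _
      have e4 : 2 ^ (a (l + 1) + 2) = 2 * 2 ^ (a (l + 1) + 1) := by rw [pow_succ]; ring
      have e5 : (Φ₀ ∪ Φl Q (F ∪ G₀)).card * 2 ^ (a (l + 1) + 1) ≤
          (Φ₀.card + (Φl Q (F ∪ G₀)).card) * 2 ^ (a (l + 1) + 1) := Nat.mul_le_mul_right _ e3
      rw [e4] at e1 e2
      nlinarith [e1, e2, e5]
  -- the hypotheses of `w4` for `C'`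
  have hkeep : ∀ Q F G Φ, C' Q F = some (G, Φ) → ∀ z ∈ Z, g.acc K₀ z Q →
      Dcd (g.acc K₀ z) Q (F ∪ G) := by
    intro Q F G Φ h z hz haz
    obtain ⟨G₀, Φ₀, h1, hgd, rfl, rfl⟩ := hC'some Q F G Φ h
    obtain ⟨-, -, b3, -⟩ := hl3 Q (F ∪ G₀) hgd
    have := b3 z hz haz
    rwa [Finset.union_assoc] at this
  have hMvmono : ∀ (Q : Finset α) (Φ Φ' : Finset ι) (P : Finset α), Φ ⊆ Φ' →
      Mv g.X g.fib Q Φ' P → Mv g.X g.fib Q Φ P := by
    intro Q Φ Φ' P hs hm
    rcases hm with h | ⟨x, hx, hx', hP⟩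
    · exact Or.inl h
    · exact Or.inr ⟨x, hx, fun h => hx' (hs h), hP⟩
  have hflip : ∀ Q F G Φ, C' Q F = some (G, Φ) → ∀ P : Finset α, Mv g.X g.fib Q Φ P →
      Disjoint P (F ∪ G) → ∀ c ∈ g.Gr l,
        2 ^ b * (Z.filter fun z => g.gr z = c ∧ ¬ g.acc K₀ z Q ∧ g.acc K₀ z (Q ∪ P)).card
          ≤ 2 * g.N c := by
    intro Q F G Φ h P hP hd c hc
    obtain ⟨G₀, Φ₀, h1, hgd, rfl, rfl⟩ := hC'some Q F G Φ h
    obtain ⟨-, -, -, b4⟩ := hl3 Q (F ∪ G₀) hgd
    refine b4 P (hMvmono Q _ _ P Finset.subset_union_right hP) ?_ c hc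
    rwa [Finset.union_assoc]
  -- the potential
  let cnt : Finset α → Finset α → γ → ℕ := fun Q F c =>
    (Z.filter fun z => g.gr z = c ∧ Dcd (g.acc K₀ z) Q F).card
  let Ψ : Finset α → Finset α → ℕ := fun Q F =>
    ∑ c ∈ g.Gr l, 2 ^ (a l + b + 1) * cnt Q F c / g.N c
  have hcntmono : ∀ Q F Q' F' : Finset α, Q ⊆ Q' → Disjoint (Q' \ Q) F → F ⊆ F' → ∀ c,
      cnt Q F c ≤ cnt Q' F' c := by
    intro Q F Q' F' hQ hd hF c
    apply Finset.card_le_card
    intro z hz
    simp only [Finset.mem_filter] at hz ⊢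
    exact ⟨hz.1, hz.2.1, hz.2.2.mono hQ hd hF⟩
  have hΨle : ∀ Q F, Ψ Q F ≤ 2 ^ (a l + b + 1 + β) := by
    intro Q F
    calc Ψ Q F ≤ ∑ c ∈ g.Gr l, 2 ^ (a l + b + 1) := by
          apply Finset.sum_le_sum
          intro c hc
          apply Nat.div_le_of_le_mul
          rw [mul_comm (g.N c)]
          apply Nat.mul_le_mul_left
          refine le_trans (Finset.card_le_card ?_) (hN c hc)
          intro z hz
          simp only [Finset.mem_filter] at hz ⊢
          exact ⟨hz.1, hz.2.1⟩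
      _ = (g.Gr l).card * 2 ^ (a l + b + 1) := by rw [Finset.sum_const, smul_eq_mul]
      _ ≤ 2 ^ β * 2 ^ (a l + b + 1) := Nat.mul_le_mul_right _ hΓ
      _ = 2 ^ (a l + b + 1 + β) := by rw [← pow_add]; congr 1; ring
  -- one phase
  let Done : Finset α → Finset α → Prop := fun Q' F' =>
      (C Q' F' = none ∨ ∃ G Φ, C Q' F' = some (G, Φ) ∧
        ∃ (K : Finset κ) (G' : Finset α) (Φ' : Finset ι),
          (∀ z, (∀ l', l ≤ l' → z ∉ g.Z l') → (z ∈ K ↔ z ∈ K₀)) ∧ G ⊆ G' ∧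
          G'.card ≤ D * pz n q zm ∧ Φ ⊆ Φ' ∧ Φ'.card * 2 ^ (a D + 1) ≤ 2 ^ n ∧
          ∀ P : Finset α, Mv g.X g.fib Q' Φ' P → Disjoint P (F' ∪ G') →
            ∀ l', l ≤ l' → l' < D → ∀ c ∈ g.Gr l',
              2 ^ R * ((g.Z l').filter fun z => g.gr z = c ∧
                ¬ (z ∈ K ↔ ¬ g.acc K z (Q' ∪ P))).card ≤ g.N c)
  have phase : ∀ Q F : Finset α, ∃ t ≤ T + 1, ∃ Q' F' : Finset α,
      Path g.X g.fib C ((D + 1) * pz n q zm) t Q F Q' F' ∧
      (Done Q' F' ∨ Ψ Q F + 1 ≤ Ψ Q' F') := by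
    intro Q F
    let K₁ : Finset κ := (K₀ \ Z) ∪ Z.filter (fun z => ¬ g.acc K₀ z Q)
    have hK₁Z : ∀ z ∈ Z, (z ∈ K₁ ↔ ¬ g.acc K₀ z Q) := by
      intro z hz
      simp only [K₁, Finset.mem_union, Finset.mem_sdiff, Finset.mem_filter]
      tauto
    have hK₁n : ∀ z, z ∉ Z → (z ∈ K₁ ↔ z ∈ K₀) := by
      intro z hz
      simp only [K₁, Finset.mem_union, Finset.mem_sdiff, Finset.mem_filter]
      tauto
    obtain ⟨t, ht, Q', F', hp', hcase⟩ := hS K₁ C' hC'bd Q F
    have hp : Path g.X g.fib C ((D + 1) * pz n q zm) t Q F Q' F' := by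
      refine Path.weaken ?_ hp'
      intro Q F G Φ h
      obtain ⟨G₀, Φ₀, h1, -, rfl, rfl⟩ := hC'some Q F G Φ h
      exact ⟨G₀, Φ₀, h1, Finset.subset_union_left, Finset.subset_union_left⟩
    obtain ⟨hQQ', hFF', hdQ, -, -⟩ := hp.sub
    rcases hcase with hnone | ⟨G, Φ, hsome, K, G', Φ', hK, hGG', hG'c, hΦΦ', hΦ'c, herr⟩
    · rcases hC'none Q' F' hnone with h | ⟨G₀, Φ₀, h1, hbad⟩
      · exact ⟨t, by omega, Q', F', hp, Or.inl (Or.inl h)⟩
      · -- a bad group: one more move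
        have hbad' : ∃ c ∈ g.Gr l, g.N c < 2 ^ b * (hi g.X g.fib Z g.gr (g.acc K₀) n (a l)
            (Mz q zm) Q' (F' ∪ G₀) c).card := by
          by_contra hcon
          push Not at hcon
          exact hbad hcon
        obtain ⟨c, hc, hcb⟩ := hbad'
        obtain ⟨c1, c2⟩ := hC Q' F' G₀ Φ₀ h1
        obtain ⟨x, P, F'', hx, hxΦ, hP, hPF, hFF'', hF''c, hinc⟩ :=
          w2 (X := g.X) (fib := g.fib) (Z := Z) (gr := g.gr) (acc := g.acc K₀) (n := n)
            (a := a l) (b := b) (q := q) (zm := zm) hg.cardX hZc hcZ (Q := Q') (F := F' ∪ G₀)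
            (Φ := Φ₀) c2 (N := g.N c) (c := c) hcb
        have hbd : F''.card ≤ F'.card + (D + 1) * pz n q zm := by
          have e1 : (F' ∪ G₀).card ≤ F'.card + G₀.card := Finset.card_union_le _ _
          have e2 : zm * q ≤ pz n q zm := by unfold pz; omega
          have e3 : l * pz n q zm + pz n q zm ≤ (D + 1) * pz n q zm := by
            have : (l + 1) * pz n q zm ≤ (D + 1) * pz n q zm := Nat.mul_le_mul_right _ (by omega)
            calc l * pz n q zm + pz n q zm = (l + 1) * pz n q zm := by ring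
              _ ≤ _ := this
          omega
        have hstep : Path g.X g.fib C ((D + 1) * pz n q zm) (t + 1) Q F (Q' ∪ P) F'' :=
          Path.step hp h1 hx hxΦ hP hPF hFF'' hbd
        refine ⟨t + 1, by omega, Q' ∪ P, F'', hstep, Or.inr ?_⟩
        -- the potential increases
        have hm1 : ∀ c, cnt Q F c ≤ cnt Q' (F' ∪ G₀) c := fun c =>
          (hcntmono Q F Q' F' hQQ' hdQ hFF' c).trans
            (hcntmono Q' F' Q' (F' ∪ G₀) (Finset.Subset.refl _) (by simp)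
              Finset.subset_union_left c)
        have hsd : Disjoint ((Q' ∪ P) \ Q') (F' ∪ G₀) := by
          refine Finset.disjoint_of_subset_left ?_ hPF
          intro y hy
          simp only [Finset.mem_sdiff, Finset.mem_union] at hy
          tauto
        have hm2 : ∀ c, cnt Q' (F' ∪ G₀) c ≤ cnt (Q' ∪ P) F'' c := fun c =>
          hcntmono Q' (F' ∪ G₀) (Q' ∪ P) F'' Finset.subset_union_left hsd hFF'' c
        have hlt : Ψ Q F < Ψ (Q' ∪ P) F'' := by
          apply Finset.sum_lt_sum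
          · intro c' _
            apply Nat.div_le_div_right
            exact Nat.mul_le_mul_left _ ((hm1 c').trans (hm2 c'))
          · refine ⟨c, hc, ?_⟩
            have hpos := hg.posN c
            have h1' : 2 ^ (a l + b + 1) * cnt Q F c + g.N c ≤
                2 ^ (a l + b + 1) * cnt (Q' ∪ P) F'' c := by
              have e1 : 2 ^ (a l + b + 1) * cnt Q F c ≤ 2 ^ (a l + b + 1) * cnt Q' (F' ∪ G₀) c :=
                Nat.mul_le_mul_left _ (hm1 c)
              have e2 : 2 ^ (a l + b + 1) * cnt Q' (F' ∪ G₀) c + g.N c <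
                2 ^ (a l + b + 1) * cnt (Q' ∪ P) F'' c := hinc
              omega
            calc 2 ^ (a l + b + 1) * cnt Q F c / g.N c
                < 2 ^ (a l + b + 1) * cnt Q F c / g.N c + 1 := Nat.lt_succ_self _
              _ = (2 ^ (a l + b + 1) * cnt Q F c + g.N c) / g.N c := by
                  rw [Nat.add_div_right _ hpos]
              _ ≤ _ := Nat.div_le_div_right h1'
        exact hlt
    · -- the upper layers are good
      obtain ⟨hacc, hfl⟩ := w4 hkeep hflip hp'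
      obtain ⟨G₀, Φ₀, h1, hgd, hG, hΦ⟩ := hC'some Q' F' G Φ hsome
      refine ⟨t, by omega, Q', F', hp, Or.inl (Or.inr ⟨G₀, Φ₀, h1, K, G', Φ', ?_, ?_, hG'c, ?_,
        hΦ'c, ?_⟩)⟩
      · intro z hz
        have hzZ : z ∉ Z := hz l le_rfl
        rw [hK z (fun l' hl' => hz l' (by omega)), hK₁n z hzZ]
      · exact Finset.Subset.trans (by rw [hG]; exact Finset.subset_union_left) hGG'
      · exact Finset.Subset.trans (by rw [hΦ]; exact Finset.subset_union_left) hΦΦ'
      · intro P hP hPd l' hl' hl'D c hc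
        rcases Nat.lt_or_ge l l' with hlt | hge
        · exact herr P hP hPd l' hlt hl'D c hc
        · obtain rfl : l = l' := le_antisymm hl' hge
          have hGsub : F' ∪ G ⊆ F' ∪ G' := Finset.union_subset_union_right hGG'
          have hPd' : Disjoint P (F' ∪ G) := Finset.disjoint_of_subset_right hGsub hPd
          have hP' : Mv g.X g.fib Q' Φ P := hMvmono Q' Φ Φ' P hΦΦ' hP
          have hdisjZ : ∀ z ∈ Z, ∀ l', l' ≠ l → z ∉ g.Z l' := by
            intro z hz l' hne hz'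
            exact Finset.disjoint_left.mp (hg.disZ l' l hne) hz' hz
          have hKZ : ∀ z ∈ Z, (z ∈ K ↔ ¬ g.acc K₀ z Q) := by
            intro z hz
            rw [hK z (fun l' hl' => hdisjZ z hz l' (by omega)), hK₁Z z hz]
          have haccK : ∀ z ∈ Z, ∀ S, (g.acc K z S ↔ g.acc K₀ z S) := by
            intro z hz S
            refine hg.sees l z hz K K₀ ?_ S
            intro l' hl' p hp0
            have hpn : ∀ l'', l'' ≠ l' → p ∉ g.Z l'' := by
              intro l'' hne hp1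
              exact Finset.disjoint_left.mp (hg.disZ l'' l' hne) hp1 hp0
            rw [hK p (fun l'' hl'' => hpn l'' (by omega)), hK₁n p (hpn l (by omega))]
          -- the errors
          have hsub : (Z.filter fun z => g.gr z = c ∧ ¬ (z ∈ K ↔ ¬ g.acc K z (Q' ∪ P))) ⊆
              (Z.filter fun z => g.gr z = c ∧ ¬ g.acc K₀ z Q ∧ g.acc K₀ z Q') ∪
              (Z.filter fun z => g.gr z = c ∧ ¬ g.acc K₀ z Q' ∧ g.acc K₀ z (Q' ∪ P)) := by
            intro z hz
            simp only [Finset.mem_filter, Finset.mem_union] at hz ⊢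
            obtain ⟨hzZ, hzc, hze⟩ := hz
            rw [hKZ z hzZ, haccK z hzZ] at hze
            have hkeepz : g.acc K₀ z Q → g.acc K₀ z (Q' ∪ P) := by
              intro hzQ
              have h5 := hkeep Q' F' G Φ hsome z hzZ (hacc z hzZ hzQ)
              refine h5 (Q' ∪ P) Finset.subset_union_left ?_
              refine Finset.disjoint_of_subset_left ?_ hPd'
              intro y hy
              simp only [Finset.mem_sdiff, Finset.mem_union] at hy
              tauto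
            tauto
          have hcard := (Finset.card_le_card hsub).trans (Finset.card_union_le _ _)
          have hA := hfl c hc
          have hB := hflip Q' F' G Φ hsome P hP' hPd' c hc
          set E := (Z.filter fun z => g.gr z = c ∧ ¬ (z ∈ K ↔ ¬ g.acc K z (Q' ∪ P))).card with hE
          have hmul : 2 ^ b * E ≤ 2 * (t + 1) * g.N c := by
            calc 2 ^ b * E ≤ 2 ^ b * ((Z.filter fun z => g.gr z = c ∧ ¬ g.acc K₀ z Q ∧
                  g.acc K₀ z Q').card + (Z.filter fun z => g.gr z = c ∧ ¬ g.acc K₀ z Q' ∧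
                  g.acc K₀ z (Q' ∪ P)).card) := Nat.mul_le_mul_left _ hcard
              _ ≤ 2 * t * g.N c + 2 * g.N c := by rw [mul_add]; exact Nat.add_le_add hA hB
              _ = 2 * (t + 1) * g.N c := by ring
          have h6 : 2 ^ (τ + 1) * (2 ^ R * E) ≤ 2 ^ (τ + 1) * g.N c := by
            calc 2 ^ (τ + 1) * (2 ^ R * E) = 2 ^ (R + 1 + τ) * E := by
                  rw [← mul_assoc, ← pow_add]; congr 2; ring
              _ ≤ 2 ^ b * E := Nat.mul_le_mul_right _ (Nat.pow_le_pow_right (by norm_num) hb)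
              _ ≤ 2 * (t + 1) * g.N c := hmul
              _ ≤ 2 ^ (τ + 1) * g.N c := by
                  apply Nat.mul_le_mul_right
                  rw [pow_succ]
                  omega
          exact Nat.le_of_mul_le_mul_left h6 (by positivity)
  have key : ∀ k : ℕ, ∀ Q F : Finset α, 2 ^ (a l + b + 1 + β) ≤ Ψ Q F + k →
      ∃ t ≤ (k + 1) * (T + 1), ∃ Q' F' : Finset α,
      Path g.X g.fib C ((D + 1) * pz n q zm) t Q F Q' F' ∧ Done Q' F' := by
    intro k
    induction k with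
    | zero =>
      intro Q F hk
      obtain ⟨t, ht, Q', F', hp, h⟩ := phase Q F
      rcases h with h | h
      · exact ⟨t, by simpa using ht, Q', F', hp, h⟩
      · have := hΨle Q' F'
        omega
    | succ k ih =>
      intro Q F hk
      obtain ⟨t, ht, Q', F', hp, h⟩ := phase Q F
      rcases h with h | h
      · refine ⟨t, ?_, Q', F', hp, h⟩
        calc t ≤ T + 1 := ht
          _ ≤ (k + 1 + 1) * (T + 1) := Nat.le_mul_of_pos_left _ (by omega)
      · obtain ⟨t', ht', Q'', F'', hp'', h''⟩ := ih Q' F' (by omega)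
        refine ⟨t + t', ?_, Q'', F'', hp.trans hp'', h''⟩
        calc t + t' ≤ (T + 1) + (k + 1) * (T + 1) := Nat.add_le_add ht ht'
          _ = (k + 1 + 1) * (T + 1) := by ring
  intro Q F
  obtain ⟨t, ht, Q', F', h⟩ := key (2 ^ (a l + b + 1 + β)) Q F (Nat.le_add_left _ _)
  refine ⟨t, le_trans ht ?_, Q', F', h⟩
  have h1 : 1 ≤ 2 ^ (a l + b + 1 + β) := Nat.one_le_two_pow
  have h2 : 2 ^ (a l + b + β + 2) = 2 * 2 ^ (a l + b + 1 + β) := by
    rw [← pow_succ']; congr 1; ring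
  rw [h2]
  exact Nat.mul_le_mul (by omega) hT

end Pool.Agent.LibAV75
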