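import Pool.Agent.LibAV75.C6

/-!
Row Z1: linear hashing: universality.
-/

namespace Pool.Agent.LibAV75

open Filter Function Pool.Agent.LibNexp Pool.Agent.LibBHN

open Classical in
/-- The strings of length `n`. -/
noncomputable def Z1_L (n : ℕ) : Finset (List Bool) := (Finset.range (2 ^ n)).image (bits n)

theorem Z1_mem {n : ℕ} {x : List Bool} : x ∈ Z1_L n ↔ x.length = n := by
  classical
  unfold Z1_L
  rw [Finset.mem_image]
  constructor
  · rintro ⟨m, -, rfl⟩
    exact length_bits n m
  · rintro rfl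
    exact ⟨val x, Finset.mem_range.2 (cnt_val_lt x), bits_val x⟩

open Classical in
theorem Z1_cnt (n : ℕ) (P : List Bool → Prop) : cnt n P = ((Z1_L n).filter P).card := by
  have h1 : (Z1_L n).filter P =
      ((Finset.range (2 ^ n)).filter fun m => P (bits n m)).image (bits n) := by
    unfold Z1_L
    rw [Finset.filter_image]
  rw [h1, Finset.card_image_of_injOn]
  · unfold cnt
    congr 1
  · intro a ha b hb hab
    rw [Finset.coe_filter, Set.mem_ofPred_eq, Finset.mem_range] at ha hb
    rw [← val_bits ha.1, ← val_bits hb.1, hab]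

theorem Z1_card (n : ℕ) : (Z1_L n).card = 2 ^ n := by
  classical
  have h := Z1_cnt n fun _ => True
  have h2 : cnt n (fun _ => True) = 2 ^ n := by
    unfold cnt
    simp
  rw [h2] at h
  rw [h]
  congr 1
  ext x
  simp

theorem Z1_congr {n : ℕ} {P Q : List Bool → Prop} (h : ∀ x : List Bool, x.length = n → (P x ↔ Q x)) :
    cnt n P = cnt n Q := by
  classical
  rw [Z1_cnt, Z1_cnt]
  congr 1
  ext x
  rw [Finset.mem_filter, Finset.mem_filter]
  constructor
  · rintro ⟨h1, h2⟩
    exact ⟨h1, (h x (Z1_mem.1 h1)).1 h2⟩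
  · rintro ⟨h1, h2⟩
    exact ⟨h1, (h x (Z1_mem.1 h1)).2 h2⟩

theorem Z1_not (n : ℕ) (P : List Bool → Prop) : cnt n P + cnt n (fun x => ¬ P x) = 2 ^ n := by
  classical
  rw [Z1_cnt, Z1_cnt, ← Z1_card n]
  have h := Finset.card_filter_add_card_filter_not (s := Z1_L n) P
  convert h

theorem Z1_zero (P : List Bool → Prop) [Decidable (P [])] : cnt 0 P = if P [] then 1 else 0 := by
  classical
  have h1 : Z1_L 0 = {[]} := by
    ext x
    rw [Z1_mem, Finset.mem_singleton, List.length_eq_zero_iff]
  rw [Z1_cnt, h1, Finset.filter_singleton]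
  split_ifs <;> rfl

theorem Z1_succ (n : ℕ) (P : List Bool → Prop) :
    cnt (n + 1) P = cnt n (fun x => P (false :: x)) + cnt n (fun x => P (true :: x)) := by
  classical
  rw [Z1_cnt, Z1_cnt, Z1_cnt]
  have h1 : (Z1_L (n + 1)).filter P =
      ((Z1_L n).filter fun x => P (false :: x)).image (fun x => false :: x) ∪
      ((Z1_L n).filter fun x => P (true :: x)).image (fun x => true :: x) := by
    ext x
    simp only [Finset.mem_filter, Finset.mem_union, Finset.mem_image, Z1_mem]
    constructor
    · rintro ⟨h2, h3⟩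
      cases x with
      | nil => simp at h2
      | cons a x =>
        have h4 : x.length = n := by simpa using h2
        cases a
        · exact Or.inl ⟨x, ⟨h4, h3⟩, rfl⟩
        · exact Or.inr ⟨x, ⟨h4, h3⟩, rfl⟩
    · rintro (⟨y, ⟨h2, h3⟩, rfl⟩ | ⟨y, ⟨h2, h3⟩, rfl⟩)
      · exact ⟨by simp [h2], h3⟩
      · exact ⟨by simp [h2], h3⟩
  rw [h1, Finset.card_union_of_disjoint, Finset.card_image_of_injective,
    Finset.card_image_of_injective]
  · intro a b hab
    simpa using hab
  · intro a b hab
    simpa using hab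
  · rw [Finset.disjoint_left]
    intro x hx hx'
    obtain ⟨y, -, rfl⟩ := Finset.mem_image.1 hx
    obtain ⟨z, -, hz⟩ := Finset.mem_image.1 hx'
    simp at hz

theorem Z1_prod (n T : ℕ) (P Q : List Bool → Prop) :
    cnt (n + T) (fun s => P (s.take n) ∧ Q (s.drop n)) = cnt n P * cnt T Q := by
  classical
  induction n generalizing P with
  | zero =>
    rw [Z1_zero, Nat.zero_add]
    simp only [List.take_zero, List.drop_zero]
    by_cases h : P []
    · simp [h]
    · simp only [h, false_and, if_false, zero_mul]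
      rw [Z1_cnt]
      simp
  | succ n ih =>
    rw [show n + 1 + T = (n + T) + 1 by omega, Z1_succ, Z1_succ]
    simp only [List.take_succ_cons, List.drop_succ_cons]
    rw [ih (fun x => P (false :: x)), ih (fun x => P (true :: x))]
    ring

/-- The number of strings `a` of length `n` with `dot a x = dot a y` is half. -/
theorem dot_univ {n : ℕ} {x y : List Bool} (hx : x.length = n) (hy : y.length = n) (hne : x ≠ y) :
    2 * cnt n (fun a => dot a x = dot a y) = 2 ^ n := by
  induction n generalizing x y with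
  | zero =>
    exfalso
    apply hne
    rw [List.length_eq_zero_iff.1 hx, List.length_eq_zero_iff.1 hy]
  | succ n ih =>
    cases x with
    | nil => simp at hx
    | cons b x =>
      cases y with
      | nil => simp at hy
      | cons c y =>
        have hx' : x.length = n := by simpa using hx
        have hy' : y.length = n := by simpa using hy
        rw [Z1_succ]
        have e1 : cnt n (fun a => dot (false :: a) (b :: x) = dot (false :: a) (c :: y)) =
            cnt n (fun a => dot a x = dot a y) := Z1_congr fun a _ => by simp [dot]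
        rw [e1]
        by_cases hbc : b = c
        · subst hbc
          have hxy : x ≠ y := fun h => hne (by rw [h])
          have e2 : cnt n (fun a => dot (true :: a) (b :: x) = dot (true :: a) (b :: y)) =
              cnt n (fun a => dot a x = dot a y) := Z1_congr fun a _ => by simp [dot]
          rw [e2]
          have := ih hx' hy' hxy
          rw [pow_succ]
          omega
        · have e2 : cnt n (fun a => dot (true :: a) (b :: x) = dot (true :: a) (c :: y)) =
              cnt n (fun a => ¬ (dot a x = dot a y)) := Z1_congr fun a _ => by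
                cases b <;> cases c <;> simp [dot] at hbc ⊢ <;>
                  cases dot a x <;> cases dot a y <;> simp
          rw [e2, Z1_not, pow_succ]
          omega

/-- PLAN. Induction on `b`: the strings of length `n + T'` are the pairs `a ++ s'` (a product formula for
`cnt`: `cnt (n + T') (fun s => P (s.take n) ∧ Q (s.drop n)) = cnt n P * cnt T' Q`, and
`bits` lists the least significant bit first, so `val (a ++ s') = val a + 2 ^ n * val s'`,
`val_app` in LibDown92/Ge.lean). -/
theorem hsh_univ {n b T : ℕ} (hT : b * n ≤ T) {x y : List Bool} (hx : x.length = n)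
    (hy : y.length = n) (hne : x ≠ y) :
    2 ^ b * cnt T (fun s => hsh b s x = hsh b s y) = 2 ^ T := by
  induction b generalizing T with
  | zero =>
    have h1 : cnt T (fun s => hsh 0 s x = hsh 0 s y) = 2 ^ T := by
      have h2 : cnt T (fun s => hsh 0 s x = hsh 0 s y) = cnt T (fun _ => True) :=
        Z1_congr fun s _ => iff_true_intro rfl
      rw [h2]
      unfold cnt
      simp
    rw [h1, pow_zero, one_mul]
  | succ b ih =>
    obtain ⟨T', rfl⟩ : ∃ T', T = n + T' := ⟨T - n, by
      have : n ≤ (b + 1) * n := Nat.le_mul_of_pos_left n (Nat.succ_pos b)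
      omega⟩
    have hT' : b * n ≤ T' := by
      rw [Nat.add_mul, one_mul] at hT
      omega
    have h1 : cnt (n + T') (fun s => hsh (b + 1) s x = hsh (b + 1) s y) =
        cnt (n + T') (fun s => (dot (s.take n) x = dot (s.take n) y) ∧
          hsh b (s.drop n) x = hsh b (s.drop n) y) := Z1_congr fun s _ => by
      simp only [hsh, hx, hy, List.cons.injEq]
    rw [h1, Z1_prod n T' (fun a => dot a x = dot a y) (fun s => hsh b s x = hsh b s y)]
    have h2 := ih hT'
    have h3 := dot_univ hx hy hne
    calc 2 ^ (b + 1) * (cnt n (fun a => dot a x = dot a y) *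
          cnt T' (fun s => hsh b s x = hsh b s y)) =
          (2 * cnt n (fun a => dot a x = dot a y)) *
            (2 ^ b * cnt T' (fun s => hsh b s x = hsh b s y)) := by ring
      _ = 2 ^ (n + T') := by rw [h2, h3, pow_add]

/-- PLAN. Union bound over the `y` with `S y` (all different from `x`). -/
theorem hash_few {n b T : ℕ} (hT : b * n ≤ T) (S : List Bool → Prop) (hS : 4 * cnt n S ≤ 2 ^ b)
    {x : List Bool} (hx : x.length = n) (hxS : ¬ S x) :
    4 * cnt T (fun s => ∃ y : List Bool, y.length = n ∧ S y ∧ hsh b s y = hsh b s x) ≤ 2 ^ T := by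
  classical
  have h1 : cnt T (fun s => ∃ y : List Bool, y.length = n ∧ S y ∧ hsh b s y = hsh b s x) ≤
      ∑ y ∈ (Z1_L n).filter S, cnt T (fun s => hsh b s y = hsh b s x) := by
    rw [Z1_cnt]
    have h2 : (Z1_L T).filter (fun s => ∃ y : List Bool, y.length = n ∧ S y ∧
        hsh b s y = hsh b s x) = ((Z1_L n).filter S).biUnion fun y =>
        (Z1_L T).filter fun s => hsh b s y = hsh b s x := by
      ext s
      simp only [Finset.mem_filter, Finset.mem_biUnion, Z1_mem]
      constructor
      · rintro ⟨h3, y, h4, h5, h6⟩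
        exact ⟨y, ⟨h4, h5⟩, h3, h6⟩
      · rintro ⟨y, ⟨h4, h5⟩, h3, h6⟩
        exact ⟨h3, y, h4, h5, h6⟩
    rw [h2]
    refine Finset.card_biUnion_le.trans (Finset.sum_le_sum fun y _ => ?_)
    rw [Z1_cnt]
    apply le_of_eq
    congr
  have h2 : 2 ^ b * ∑ y ∈ (Z1_L n).filter S, cnt T (fun s => hsh b s y = hsh b s x) =
      cnt n S * 2 ^ T := by
    rw [Finset.mul_sum]
    have h3 : ∀ y ∈ (Z1_L n).filter S, 2 ^ b * cnt T (fun s => hsh b s y = hsh b s x) = 2 ^ T := by
      intro y hy
      rw [Finset.mem_filter, Z1_mem] at hy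
      exact hsh_univ hT hy.1 hx (fun h => hxS (h ▸ hy.2))
    rw [Finset.sum_congr rfl h3, Finset.sum_const, smul_eq_mul, ← Z1_cnt]
  have h3 : 2 ^ b * (4 * cnt T (fun s => ∃ y : List Bool, y.length = n ∧ S y ∧
      hsh b s y = hsh b s x)) ≤ 2 ^ b * 2 ^ T := by
    calc 2 ^ b * (4 * cnt T (fun s => ∃ y : List Bool, y.length = n ∧ S y ∧
          hsh b s y = hsh b s x)) ≤ 2 ^ b * (4 * ∑ y ∈ (Z1_L n).filter S,
            cnt T (fun s => hsh b s y = hsh b s x)) :=
          Nat.mul_le_mul_left _ (Nat.mul_le_mul_left _ h1)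
      _ = 4 * (2 ^ b * ∑ y ∈ (Z1_L n).filter S, cnt T (fun s => hsh b s y = hsh b s x)) := by ring
      _ = (4 * cnt n S) * 2 ^ T := by rw [h2]; ring
      _ ≤ 2 ^ b * 2 ^ T := Nat.mul_le_mul_right _ hS
  exact Nat.le_of_mul_le_mul_left h3 (by positivity)

/-- Collisions and the number of values. -/
theorem Z1_coll {α β : Type} [DecidableEq α] [DecidableEq β] (f : α → β) (G : Finset α) :
    2 * G.card ≤ 2 * (G.image f).card + (G.offDiag.filter fun z => f z.1 = f z.2).card := by
  induction G using Finset.induction_on with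
  | empty => simp
  | insert a G ha ih =>
    rw [Finset.card_insert_of_notMem ha, Finset.image_insert]
    have hsub : (G.offDiag.filter fun z => f z.1 = f z.2) ⊆
        ((insert a G).offDiag.filter fun z => f z.1 = f z.2) := by
      apply Finset.filter_subset_filter
      exact Finset.offDiag_mono (Finset.subset_insert _ _)
    by_cases hf : f a ∈ G.image f
    · rw [Finset.insert_eq_of_mem hf]
      obtain ⟨y, hy, hya⟩ := Finset.mem_image.1 hf
      have hne : a ≠ y := fun h => ha (h ▸ hy)
      have h1 : (G.offDiag.filter fun z => f z.1 = f z.2) ∪ {(a, y), (y, a)} ⊆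
          ((insert a G).offDiag.filter fun z => f z.1 = f z.2) := by
        apply Finset.union_subset hsub
        intro z hz
        rw [Finset.mem_insert, Finset.mem_singleton] at hz
        rw [Finset.mem_filter, Finset.mem_offDiag]
        rcases hz with rfl | rfl
        · exact ⟨⟨Finset.mem_insert_self _ _, Finset.mem_insert_of_mem hy, hne⟩, hya.symm⟩
        · exact ⟨⟨Finset.mem_insert_of_mem hy, Finset.mem_insert_self _ _, hne.symm⟩, hya⟩
      have h2 : Disjoint (G.offDiag.filter fun z => f z.1 = f z.2) {(a, y), (y, a)} := by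
        rw [Finset.disjoint_left]
        intro z hz hz'
        rw [Finset.mem_filter, Finset.mem_offDiag] at hz
        rw [Finset.mem_insert, Finset.mem_singleton] at hz'
        rcases hz' with rfl | rfl
        · exact ha hz.1.1
        · exact ha hz.1.2.1
      have h3 := Finset.card_le_card h1
      rw [Finset.card_union_of_disjoint h2, Finset.card_pair (by
        intro h
        exact hne (Prod.ext_iff.1 h).1)] at h3
      omega
    · rw [Finset.card_insert_of_notMem hf]
      have h3 := Finset.card_le_card hsub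
      omega

theorem Z1_app (T b : ℕ) (E : List Bool → Prop) :
    cnt (T + b) E = ∑ s ∈ Z1_L T, cnt b fun v => E (s ++ v) := by
  classical
  induction T generalizing E with
  | zero =>
    have h1 : Z1_L 0 = {[]} := by
      ext x
      rw [Z1_mem, Finset.mem_singleton, List.length_eq_zero_iff]
    rw [h1, Finset.sum_singleton, Nat.zero_add]
    rfl
  | succ T ih =>
    rw [show T + 1 + b = (T + b) + 1 by omega, Z1_succ, ih, ih]
    have h1 : Z1_L (T + 1) = (Z1_L T).image (fun x => false :: x) ∪
        (Z1_L T).image (fun x => true :: x) := by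
      ext x
      simp only [Finset.mem_union, Finset.mem_image, Z1_mem]
      constructor
      · intro h2
        cases x with
        | nil => simp at h2
        | cons a x =>
          have h4 : x.length = T := by simpa using h2
          cases a
          · exact Or.inl ⟨x, h4, rfl⟩
          · exact Or.inr ⟨x, h4, rfl⟩
      · rintro (⟨y, h2, rfl⟩ | ⟨y, h2, rfl⟩) <;> simp [h2]
    rw [h1, Finset.sum_union, Finset.sum_image, Finset.sum_image]
    · rfl
    · intro a _ b _ hab
      simpa using hab
    · intro a _ b _ hab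
      simpa using hab
    · rw [Finset.disjoint_left]
      intro x hx hx'
      obtain ⟨y, -, rfl⟩ := Finset.mem_image.1 hx
      obtain ⟨z, -, hz⟩ := Finset.mem_image.1 hx'
      simp at hz

theorem Z1_main {n b T : ℕ} (hT : b * n ≤ T) (hb : 2 ≤ b) (E : List Bool → Prop)
    (B' : Finset (List Bool)) (hn : ∀ x ∈ B', x.length = n) (hM : B'.card ≤ 2 ^ (b - 2))
    (hB : ∀ x ∈ B', 2 ^ T ≤ 4 * cnt T fun s => E (s ++ hsh b s x)) :
    B'.card * 2 ^ T ≤ 8 * cnt (T + b) E := by
  classical
  set G : List Bool → Finset (List Bool) := fun s => B'.filter fun x => E (s ++ hsh b s x) with hG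
  set p : List Bool → ℕ := fun s => (B'.offDiag.filter fun z => hsh b s z.1 = hsh b s z.2).card
    with hp
  have h1 : ∀ s ∈ Z1_L T, 2 * (G s).card ≤ 2 * (cnt b fun v => E (s ++ v)) + p s := by
    intro s _
    have h2 := Z1_coll (hsh b s) (G s)
    have h3 : ((G s).image (hsh b s)).card ≤ cnt b fun v => E (s ++ v) := by
      rw [Z1_cnt]
      apply Finset.card_le_card
      intro v hv
      obtain ⟨x, hx, rfl⟩ := Finset.mem_image.1 hv
      rw [Finset.mem_filter, Z1_mem]
      exact ⟨length_hsh _ _ _, (Finset.mem_filter.1 hx).2⟩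
    have h4 : ((G s).offDiag.filter fun z => hsh b s z.1 = hsh b s z.2).card ≤ p s := by
      apply Finset.card_le_card
      apply Finset.filter_subset_filter
      exact Finset.offDiag_mono (Finset.filter_subset _ _)
    omega
  have h2 := Finset.sum_le_sum h1
  rw [← Finset.mul_sum, Finset.sum_add_distrib, ← Finset.mul_sum, ← Z1_app] at h2
  -- the total number of the elements of G
  have h3 : ∑ s ∈ Z1_L T, (G s).card = ∑ x ∈ B', cnt T fun s => E (s ++ hsh b s x) := by
    have e1 : ∀ s, (G s).card = ∑ x ∈ B', if E (s ++ hsh b s x) then 1 else 0 := fun s => by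
      rw [hG]
      simp only
      rw [Finset.card_filter]
    have e2 : ∀ x, (cnt T fun s => E (s ++ hsh b s x)) =
        ∑ s ∈ Z1_L T, if E (s ++ hsh b s x) then 1 else 0 := fun x => by
      rw [Z1_cnt, Finset.card_filter]
    rw [Finset.sum_congr rfl fun s _ => e1 s, Finset.sum_comm]
    exact (Finset.sum_congr rfl fun x _ => e2 x).symm
  have h4 : B'.card * 2 ^ T ≤ 4 * ∑ s ∈ Z1_L T, (G s).card := by
    rw [h3, Finset.mul_sum, ← smul_eq_mul, ← Finset.sum_const]
    exact Finset.sum_le_sum hB
  -- the total number of the collisions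
  have h5 : ∑ s ∈ Z1_L T, p s = ∑ z ∈ B'.offDiag, cnt T fun s => hsh b s z.1 = hsh b s z.2 := by
    have e1 : ∀ s, p s = ∑ z ∈ B'.offDiag, if hsh b s z.1 = hsh b s z.2 then 1 else 0 := fun s => by
      rw [hp]
      simp only
      rw [Finset.card_filter]
    have e2 : ∀ z : List Bool × List Bool, (cnt T fun s => hsh b s z.1 = hsh b s z.2) =
        ∑ s ∈ Z1_L T, if hsh b s z.1 = hsh b s z.2 then 1 else 0 := fun z => by
      rw [Z1_cnt, Finset.card_filter]
      refine Finset.sum_congr rfl fun s _ => ?_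
      congr
    rw [Finset.sum_congr rfl fun s _ => e1 s, Finset.sum_comm]
    exact (Finset.sum_congr rfl fun z _ => e2 z).symm
  have h6 : 2 ^ b * ∑ s ∈ Z1_L T, p s = B'.offDiag.card * 2 ^ T := by
    rw [h5, Finset.mul_sum]
    have e1 : ∀ z ∈ B'.offDiag, 2 ^ b * (cnt T fun s => hsh b s z.1 = hsh b s z.2) = 2 ^ T := by
      intro z hz
      rw [Finset.mem_offDiag] at hz
      exact hsh_univ hT (hn _ hz.1) (hn _ hz.2.1) hz.2.2
    rw [Finset.sum_congr rfl e1, Finset.sum_const, smul_eq_mul]
  have h7 : B'.offDiag.card ≤ B'.card * 2 ^ (b - 2) := by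
    rw [Finset.offDiag_card]
    exact (Nat.sub_le _ _).trans (Nat.mul_le_mul_left _ hM)
  have h8 : 4 * ∑ s ∈ Z1_L T, p s ≤ B'.card * 2 ^ T := by
    have e1 : 2 ^ b = 2 ^ (b - 2) * 4 := by
      obtain ⟨c, rfl⟩ : ∃ c, b = c + 2 := ⟨b - 2, by omega⟩
      rw [Nat.add_sub_cancel, pow_add]
      norm_num
    have e2 : 2 ^ (b - 2) * (4 * ∑ s ∈ Z1_L T, p s) ≤ 2 ^ (b - 2) * (B'.card * 2 ^ T) := by
      calc 2 ^ (b - 2) * (4 * ∑ s ∈ Z1_L T, p s) = 2 ^ b * ∑ s ∈ Z1_L T, p s := by rw [e1]; ring
        _ = B'.offDiag.card * 2 ^ T := h6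
        _ ≤ (B'.card * 2 ^ (b - 2)) * 2 ^ T := Nat.mul_le_mul_right _ h7
        _ = 2 ^ (b - 2) * (B'.card * 2 ^ T) := by ring
    exact Nat.le_of_mul_le_mul_left e2 (by positivity)
  omega

/-- PLAN. Let `B'` be a set of `x` with `B x`, `B'.card ≤ 2 ^ (b - 2)`. For a seed `s` the number of `v` of
length `b` with `E (s ++ v)` is at least the number of `x ∈ B'` with `E (s ++ hsh b s x)` minus the number
of pairs `{x, y} ⊆ B'` with `hsh b s x = hsh b s y`. Sum over `s`:
`cnt (T + b) E ≥ B'.card * 2 ^ T / 4 - (B'.card ^ 2 / 2) * 2 ^ (T - b) ≥ B'.card * 2 ^ T / 8`, so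
`2 ^ r * B'.card ≤ 2 ^ (b + 3)`. If `B` has at least `2 ^ (b - 2)` elements, take `B'` of exactly this
size: `r + b - 2 ≤ b + 3`, contradiction with `6 ≤ r`. So `B' = B` is allowed. -/
theorem hash_err {n b T r : ℕ} (hT : b * n ≤ T) (hr : 6 ≤ r) (hb : 2 ≤ b) (E : List Bool → Prop)
    (hE : 2 ^ r * cnt (T + b) E ≤ 2 ^ (T + b)) (B : List Bool → Prop)
    (hB : ∀ x : List Bool, x.length = n → B x →
      2 ^ T ≤ 4 * cnt T fun s => E (s ++ hsh b s x)) :
    2 ^ r * cnt n B ≤ 2 ^ (b + 3) := by
  classical
  have key : ∀ B' : Finset (List Bool), B' ⊆ (Z1_L n).filter B → B'.card ≤ 2 ^ (b - 2) →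
      2 ^ r * B'.card ≤ 2 ^ (b + 3) := by
    intro B' hB' hM
    have h1 := Z1_main hT hb E B'
      (fun x hx => Z1_mem.1 (Finset.mem_filter.1 (hB' hx)).1) hM
      (fun x hx => hB x (Z1_mem.1 (Finset.mem_filter.1 (hB' hx)).1) (Finset.mem_filter.1 (hB' hx)).2)
    have h2 : 2 ^ T * (2 ^ r * B'.card) ≤ 2 ^ T * 2 ^ (b + 3) := by
      calc 2 ^ T * (2 ^ r * B'.card) = 2 ^ r * (B'.card * 2 ^ T) := by ring
        _ ≤ 2 ^ r * (8 * cnt (T + b) E) := Nat.mul_le_mul_left _ h1
        _ = 8 * (2 ^ r * cnt (T + b) E) := by ring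
        _ ≤ 8 * 2 ^ (T + b) := Nat.mul_le_mul_left _ hE
        _ = 2 ^ T * 2 ^ (b + 3) := by rw [pow_add, pow_add]; ring
    exact Nat.le_of_mul_le_mul_left h2 (by positivity)
  rw [Z1_cnt]
  by_cases hc : ((Z1_L n).filter B).card ≤ 2 ^ (b - 2)
  · exact key _ (Finset.Subset.refl _) hc
  · exfalso
    obtain ⟨B', hB', hcard⟩ := Finset.exists_subset_card_eq (not_le.1 hc).le
    have h1 := key B' hB' hcard.le
    rw [hcard, ← pow_add] at h1
    have h2 := (Nat.pow_le_pow_iff_right (by norm_num : 1 < 2)).1 h1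
    omega

end Pool.Agent.LibAV75
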