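import Pool.Agent.LibAV75.Z1
import Pool.Agent.LibAV75.Z2

/-!
Row Z3: approximation of languages with few exceptions (complements of few strings).
-/

namespace Pool.Agent.LibAV75

open Filter Function Pool.Agent.LibNexp Pool.Agent.LibBHN

variable {O : List Bool → Bool}

theorem Z3_cnt_mono {n : ℕ} {P Q : List Bool → Prop}
    (h : ∀ x : List Bool, x.length = n → P x → Q x) : cnt n P ≤ cnt n Q := by
  classical
  unfold cnt
  refine Finset.card_le_card fun m hm => ?_
  rw [Finset.mem_filter] at hm ⊢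
  exact ⟨hm.1, h _ (length_bits n m) hm.2⟩

theorem Z3_cnt_or {n : ℕ} (P Q : List Bool → Prop) :
    cnt n (fun x => P x ∨ Q x) ≤ cnt n P + cnt n Q := by
  let hdec : ∀ p : Prop, Decidable p := fun p => Classical.propDecidable p
  unfold cnt
  refine le_trans (Finset.card_le_card fun m hm => ?_) (Finset.card_union_le _ _)
  have h1 := Finset.mem_filter.1 hm
  rcases h1.2 with h2 | h2
  · exact Finset.mem_union_left _ (Finset.mem_filter.2 ⟨h1.1, h2⟩)
  · exact Finset.mem_union_right _ (Finset.mem_filter.2 ⟨h1.1, h2⟩)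

theorem Z3_cnt_all {n : ℕ} {P : List Bool → Prop} (h : ∀ x : List Bool, x.length = n → P x) :
    2 ^ n ≤ cnt n P := by
  classical
  unfold cnt
  rw [Finset.filter_true_of_mem fun m _ => h _ (length_bits n m), Finset.card_range]

theorem Z3_cnt_none {n : ℕ} {P : List Bool → Prop} (h : ∀ x : List Bool, x.length = n → ¬ P x) :
    cnt n P = 0 := by
  classical
  unfold cnt
  rw [Finset.filter_false_of_mem fun m _ => h _ (length_bits n m), Finset.card_empty]

theorem Z3_cnt_zero {n : ℕ} {P : List Bool → Prop} (h : cnt n P = 0) {x : List Bool}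
    (hx : x.length = n) : ¬ P x := by
  subst hx
  intro hP
  have := cnt_mem hP
  omega

/-- A lower bound for the number of elements. -/
theorem Z3_lt {A : Lang} (hA : A ∈ NEXPLang O) : NEXP O fun e : Fin 2 → List Bool =>
    2 ^ (e 0).length < 2 ^ (e 1).length * cnt (e 0).length (fun x => x ∈ A) := by
  -- z 0 = p, z 1 = q, z 2 = u, z 3 = q ++ u, z 4 = w
  have h1 : NEXP O fun e : Fin 2 → List Bool => ∃ z : Fin 5 → List Bool,
      ((val (z 0) = 2 ^ (e 0).length ∧ (z 0).length = 1 * (e 0).length + 1) ∧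
        (val (z 1) = 2 ^ (e 1).length ∧ (z 1).length = 1 * (e 1).length + 1)) ∧
      (((val (z 2) ≤ cnt (e 0).length (fun x => x ∈ A)) ∧ (z 2).length = 1 * (e 0).length + 1) ∧
        ((val (z 4) = val (z 1) * val (z 2) ∧ val (z 0) < val (z 4)) ∧
          (z 3 = z 1 ++ z 2 ∧ (z 4).length = 1 * (z 3).length + 0))) := by
    refine Z2_exN 5 (g := fun n => n + 2) (R := fun e z =>
      ((val (z 0) = 2 ^ (e 0).length ∧ (z 0).length = 1 * (e 0).length + 1) ∧
        (val (z 1) = 2 ^ (e 1).length ∧ (z 1).length = 1 * (e 1).length + 1)) ∧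
      (((val (z 2) ≤ cnt (e 0).length (fun x => x ∈ A)) ∧ (z 2).length = 1 * (e 0).length + 1) ∧
        ((val (z 4) = val (z 1) * val (z 2) ∧ val (z 0) < val (z 4)) ∧
          (z 3 = z 1 ++ z 2 ∧ (z 4).length = 1 * (z 3).length + 0)))) ?_
      (PolyB.id.add (PolyB.const 2)) ?_ ?_
    · refine (((nexp_vPow _ _).and (nexp_lin 1 1 _ _)).and ((nexp_vPow _ _).and
        (nexp_lin 1 1 _ _))).and ((NEXP.and ?_ (nexp_lin 1 1 _ _)).and
          (((nexp_vMul _ _ _).and (nexp_vLt _ _)).and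
            ((nexp_append _ _ _).and (nexp_lin 1 0 _ _))))
      exact nexp_ge (R := fun _ x => x ∈ A) (nexp_mem hA _) _ _
    · intro a b hab
      exact Nat.add_le_add_right hab 2
    · rintro e z ⟨⟨⟨-, h1⟩, -, h2⟩, ⟨-, h3⟩, -, h4, h5⟩ j
      have e4 := congrArg List.length h4
      rw [List.length_append] at e4
      have h13 : size e = (e 0).length + (e 1).length := by
        simp [size, Fin.sum_univ_succ]
      show (z j).length ≤ size e + 2
      fin_cases j <;> simp only [Fin.mk_zero, Fin.mk_one, Fin.reduceFinMk] <;> omega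
  refine NEXP.congr h1 fun e => ?_
  set n := (e 0).length with hn
  set g := (e 1).length with hg
  set c := cnt n (fun x => x ∈ A) with hc
  constructor
  · rintro ⟨z, ⟨⟨h1, -⟩, h2, -⟩, ⟨h3, -⟩, ⟨h4, h5⟩, -, -⟩
    rw [h1, h4, h2] at h5
    exact h5.trans_le (Nat.mul_le_mul_left _ h3)
  · intro h
    have hcn : c ≤ 2 ^ n := cnt_le _ _
    have hp : (2 : ℕ) ^ n < 2 ^ (n + 1) := Nat.pow_lt_pow_right (by norm_num) (by omega)
    have hq : (2 : ℕ) ^ g < 2 ^ (g + 1) := Nat.pow_lt_pow_right (by norm_num) (by omega)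
    have hw : 2 ^ g * c < 2 ^ (g + 1 + (n + 1)) := by
      rw [pow_add 2 (g + 1) (n + 1)]
      exact Nat.mul_lt_mul_of_lt_of_le hq (hcn.trans hp.le) (by positivity)
    refine ⟨![bits (n + 1) (2 ^ n), bits (g + 1) (2 ^ g), bits (n + 1) c,
      bits (g + 1) (2 ^ g) ++ bits (n + 1) c, bits (g + 1 + (n + 1)) (2 ^ g * c)], ?_⟩
    simp only [Matrix.cons_val_zero, Matrix.cons_val_one, Matrix.cons_val, List.length_append,
      length_bits, val_bits hp, val_bits hq, val_bits hw, val_bits (hcn.trans_lt hp), one_mul,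
      add_zero, true_and, and_true, le_refl]
    exact h

theorem Z3_log {c n : ℕ} (h0 : c ≠ 0) (h1 : c ≤ 2 ^ n) :
    ∃ g ≤ n, 2 ^ g * c ≤ 2 ^ n ∧ 2 ^ n < 2 ^ (g + 1) * c := by
  have hq : 2 ^ n / c ≠ 0 := by
    have := Nat.div_pos h1 (Nat.pos_of_ne_zero h0)
    omega
  have h2 : 2 ^ Nat.log 2 (2 ^ n / c) * c ≤ 2 ^ n :=
    (Nat.mul_le_mul_right c (Nat.pow_log_le_self 2 hq)).trans (Nat.div_mul_le_self _ _)
  refine ⟨Nat.log 2 (2 ^ n / c), ?_, h2, ?_⟩
  · refine (Nat.pow_le_pow_iff_right (by norm_num : 1 < 2)).1 (le_trans ?_ h2)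
    exact Nat.le_mul_of_pos_right _ (Nat.pos_of_ne_zero h0)
  · exact (Nat.div_lt_iff_lt_mul (Nat.pos_of_ne_zero h0)).1
      (Nat.lt_pow_succ_log_self (by norm_num) _)

theorem Z3_uniq {c n g g' : ℕ} (h0 : c ≠ 0) (h1 : 2 ^ g * c ≤ 2 ^ n)
    (h2 : 2 ^ n < 2 ^ (g' + 1) * c) : g ≤ g' := by
  have h3 : 2 ^ g * c < 2 ^ (g' + 1) * c := h1.trans_lt h2
  have h4 := (Nat.mul_lt_mul_right (Nat.pos_of_ne_zero h0)).1 h3
  have h5 := (Nat.pow_lt_pow_iff_right (by norm_num : 1 < 2)).1 h4
  omega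

/-- PLAN. `N'` from `h` for `VV A` (`vv_mem`). With `c := cnt n (· ∈ A)`:
`N := {x | c = 0} ∪ {x | ∃ g ≤ n, 2 ^ n < 2 ^ (g + 1) * c ∧ 2 ^ g * c ≤ 2 ^ n ∧ Dc N' n g x}`, `n = |x|`.
In NEXP: `c = 0` and `2 ^ g * c ≤ 2 ^ n` are facts `U n g` whose negations are in NEXP (`nexp_ge` with
`nexp_vPow`, `nexp_vMul`...), so `p0` (`more_of_ap`); `dc_mem`.
If `c = 0` no error. Otherwise exactly one `g ≤ n` satisfies the two inequalities, and `ρ ≤ g`. With
`b := hb n g = n + 2 - g`, `T := hT n g`, `m := T + b`, `E z := ¬ (z ∉ VV A ↔ z ∈ N')`: for `x` of length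
`n`, `x ∈ A`: all `s ++ hsh b s x` are in `VV A`; `x ∉ A`: at most a quarter of them (`hash_few`,
`4 * c ≤ 2 ^ b`; use `ht_inj` and that `s ++ v` determines `s`, `v`). So misclassified `x` have
`2 ^ T ≤ 4 * cnt T (E (s ++ hsh b s x))`, and `hash_err` with `r m` gives
`2 ^ r m * err ≤ 2 ^ (b + 3) = 2 ^ (n + 5 - g)`. Multiply by `2 ^ g`; `r n ≤ r m`. -/
theorem cosparse {b : Prop} {r : ℕ → ℕ} (hr : Monotone r) (h8 : ∀ n, 8 ≤ r n) (h : Ap O b r)
    {A : Lang} (hA : A ∈ NEXPLang O) : ∃ N ∈ NEXPLang O, ∀ᶠ n in atTop, ∀ ρ : ℕ,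
      2 ^ ρ * cnt n (fun x => x ∈ A) ≤ 2 ^ n → 2 ^ (ρ + r n) * err Aᶜ N n ≤ 2 ^ (n + 5) := by
  have hM : More O := more_of_ap (fun m => le_trans (by norm_num) (h8 m)) h
  obtain ⟨N', hN', -, hev⟩ := h (VV A) (vv_mem hA)
  -- the negated inequality
  have hU : NEXP O fun e : Fin 2 → List Bool =>
      2 ^ (e 1).length * cnt (e 0).length (fun x => x ∈ A) ≤ 2 ^ (e 0).length := by
    refine p0 hM (U := fun a b => 2 ^ b * cnt a (fun x => x ∈ A) ≤ 2 ^ a) ?_
    refine NEXP.congr (Z3_lt hA) fun e => ?_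
    exact not_le.symm
  -- `z 0` of length `n + 1`
  have hz : NEXP O fun e : Fin 1 → List Bool => ∃ z : Fin 1 → List Bool,
      (z 0).length = 1 * (e 0).length + 1 ∧
        2 ^ (z 0).length * cnt (e 0).length (fun x => x ∈ A) ≤ 2 ^ (e 0).length := by
    refine Z2_exN 1 (g := fun n => n + 1) (R := fun e z => (z 0).length = 1 * (e 0).length + 1 ∧
        2 ^ (z 0).length * cnt (e 0).length (fun x => x ∈ A) ≤ 2 ^ (e 0).length) ?_
      (PolyB.id.add (PolyB.const 1)) (fun a b hab => Nat.add_le_add_right hab 1) ?_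
    · exact (nexp_lin 1 1 _ _).and (NEXP.congr (NEXP.reindex hU ![Fin.castAdd 1 0, Fin.natAdd 1 0])
        fun e => Iff.rfl)
    · rintro e z ⟨h1, -⟩ j
      rw [Subsingleton.elim j 0, Z2_size1]
      show (z 0).length ≤ (e 0).length + 1
      omega
  -- z 0 = G, z 1 of length `|G| + 1`
  have hg : NEXP O fun e : Fin 1 → List Bool => ∃ z : Fin 2 → List Bool,
      (((z 0).length ≤ (e 0).length ∧ Dc N' (e 0).length (z 0).length (e 0)) ∧
        (z 1).length = 1 * (z 0).length + 1) ∧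
      (2 ^ (e 0).length < 2 ^ (z 1).length * cnt (e 0).length (fun x => x ∈ A) ∧
        2 ^ (z 0).length * cnt (e 0).length (fun x => x ∈ A) ≤ 2 ^ (e 0).length) := by
    refine Z2_exN 2 (g := fun n => n + 1) (R := fun e z =>
      (((z 0).length ≤ (e 0).length ∧ Dc N' (e 0).length (z 0).length (e 0)) ∧
        (z 1).length = 1 * (z 0).length + 1) ∧
      (2 ^ (e 0).length < 2 ^ (z 1).length * cnt (e 0).length (fun x => x ∈ A) ∧
        2 ^ (z 0).length * cnt (e 0).length (fun x => x ∈ A) ≤ 2 ^ (e 0).length)) ?_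
      (PolyB.id.add (PolyB.const 1)) (fun a b hab => Nat.add_le_add_right hab 1) ?_
    · exact ((NEXP.congr (NEXP.reindex (dc_mem hN') ![Fin.castAdd 2 0, Fin.natAdd 1 0])
        fun e => Iff.rfl).and (nexp_lin 1 1 _ _)).and
          ((NEXP.congr (NEXP.reindex (Z3_lt hA) ![Fin.castAdd 2 0, Fin.natAdd 1 1])
            fun e => Iff.rfl).and
            (NEXP.congr (NEXP.reindex hU ![Fin.castAdd 2 0, Fin.natAdd 1 0]) fun e => Iff.rfl))
    · rintro e z ⟨⟨⟨h1, -⟩, h2⟩, -⟩ j
      rw [Z2_size1]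
      show (z j).length ≤ (e 0).length + 1
      fin_cases j <;> simp only [Fin.mk_zero, Fin.mk_one] <;> omega
  refine ⟨{x | cnt x.length (fun x => x ∈ A) = 0 ∨ ∃ g ≤ x.length, Dc N' x.length g x ∧
    2 ^ x.length < 2 ^ (g + 1) * cnt x.length (fun x => x ∈ A) ∧
      2 ^ g * cnt x.length (fun x => x ∈ A) ≤ 2 ^ x.length}, ?_, ?_⟩
  · refine NEXP.congr (hz.or hg) fun e => ?_
    show _ ↔ (cnt (e 0).length (fun x => x ∈ A) = 0 ∨ ∃ g ≤ (e 0).length,
      Dc N' (e 0).length g (e 0) ∧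
      2 ^ (e 0).length < 2 ^ (g + 1) * cnt (e 0).length (fun x => x ∈ A) ∧
      2 ^ g * cnt (e 0).length (fun x => x ∈ A) ≤ 2 ^ (e 0).length)
    set n := (e 0).length with hn
    set c := cnt n (fun x => x ∈ A) with hc
    refine or_congr ?_ ?_
    · constructor
      · rintro ⟨z, h1, h2⟩
        by_contra h3
        rw [h1, one_mul] at h2
        have h4 := Nat.le_mul_of_pos_right (2 ^ (n + 1)) (Nat.pos_of_ne_zero h3)
        have h5 := (Nat.pow_le_pow_iff_right (by norm_num : 1 < 2)).1 (h4.trans h2)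
        omega
      · intro h1
        refine ⟨fun _ => List.replicate (n + 1) true, ?_, ?_⟩
        · rw [List.length_replicate, one_mul]
        · rw [h1, mul_zero]
          exact Nat.zero_le _
    · constructor
      · rintro ⟨z, ⟨⟨h1, h2⟩, h3⟩, h4, h5⟩
        rw [h3, one_mul] at h4
        exact ⟨_, h1, h2, h4, h5⟩
      · rintro ⟨g, h1, h2, h3, h4⟩
        refine ⟨![List.replicate g true, List.replicate (g + 1) true], ?_⟩
        simp only [Matrix.cons_val_zero, Matrix.cons_val_one, List.length_replicate, one_mul]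
        exact ⟨⟨⟨h1, h2⟩, trivial⟩, h3, h4⟩
  · obtain ⟨M, hM'⟩ := eventually_atTop.1 hev
    refine eventually_atTop.2 ⟨M, fun n hn ρ hρ => ?_⟩
    rcases eq_or_ne (cnt n (fun x => x ∈ A)) 0 with h0 | h0
    · -- no elements of length `n`
      have h1 : err Aᶜ {x | cnt x.length (fun x => x ∈ A) = 0 ∨ ∃ g ≤ x.length,
          Dc N' x.length g x ∧ 2 ^ x.length < 2 ^ (g + 1) * cnt x.length (fun x => x ∈ A) ∧
          2 ^ g * cnt x.length (fun x => x ∈ A) ≤ 2 ^ x.length} n = 0 := by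
        refine Z3_cnt_none fun x hx h2 => h2 ?_
        constructor
        · intro _
          refine Or.inl ?_
          rw [hx]
          exact h0
        · intro _
          exact Z3_cnt_zero h0 hx
      rw [h1, mul_zero]
      exact Nat.zero_le _
    · obtain ⟨g, hgn, hg1, hg2⟩ := Z3_log h0 (cnt_le n _)
      have hρg : ρ ≤ g := Z3_uniq h0 hρ hg2
      obtain ⟨hl1, hl2, hl3⟩ := ht_len hgn
      have hnm : n ≤ hT n g + hb n g := by
        rw [hl1]
        have : n + 2 ≤ (n + 2) ^ 3 := Nat.le_self_pow (by norm_num) _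
        omega
      have hE := hM' (hT n g + hb n g) (hn.trans hnm)
      have h6 : 6 ≤ r (hT n g + hb n g) := le_trans (by norm_num) (h8 _)
      have h4c : 4 * cnt n (fun x => x ∈ A) ≤ 2 ^ hb n g := by
        have h1 : 2 ^ hb n g * 2 ^ g = 4 * 2 ^ n := by
          rw [← pow_add, show hb n g + g = n + 2 by unfold hb; omega, pow_add]
          ring
        have h2 : 4 * cnt n (fun x => x ∈ A) * 2 ^ g ≤ 2 ^ hb n g * 2 ^ g := by
          rw [h1]
          calc 4 * cnt n (fun x => x ∈ A) * 2 ^ g = 4 * (2 ^ g * cnt n (fun x => x ∈ A)) := by ring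
            _ ≤ 4 * 2 ^ n := Nat.mul_le_mul_left _ hg1
        exact Nat.le_of_mul_le_mul_right h2 (by positivity)
      have hB := hash_err hl2 h6 hl3 (fun z => ¬ (z ∈ (VV A)ᶜ ↔ z ∈ N')) hE
        (fun x => ¬ (x ∈ Aᶜ ↔ Dc N' n g x)) (by
          intro x hx hBx
          by_cases hxA : x ∈ A
          · have h1 : Dc N' n g x := by
              by_contra h2
              exact hBx ⟨fun h3 => absurd hxA h3, fun h3 => absurd h3 h2⟩
            have h2 : (cnt (hT n g) fun s => s ++ hsh (hb n g) s x ∈ N') ≤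
                cnt (hT n g) fun s => ¬ (s ++ hsh (hb n g) s x ∈ (VV A)ᶜ ↔
                  s ++ hsh (hb n g) s x ∈ N') := by
              refine Z3_cnt_mono fun s hs h3 h4 => ?_
              exact h4.2 h3 ⟨n, g, s, _, x, hgn, rfl, hs, length_hsh _ _ _, hx, hxA, rfl⟩
            unfold Dc at h1
            omega
          · have h1 : ¬ Dc N' n g x := by
              intro h2
              exact hBx ⟨fun _ => h2, fun _ => hxA⟩
            have h2 := hash_few hl2 (fun x => x ∈ A) h4c hx hxA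
            have h3 : 2 ^ hT n g ≤ cnt (hT n g) fun s =>
                (s ++ hsh (hb n g) s x ∈ N' ∨
                (∃ y : List Bool, y.length = n ∧ y ∈ A ∧ hsh (hb n g) s y = hsh (hb n g) s x)) ∨
                ¬ (s ++ hsh (hb n g) s x ∈ (VV A)ᶜ ↔ s ++ hsh (hb n g) s x ∈ N') := by
              refine Z3_cnt_all fun s hs => ?_
              by_cases h4 : s ++ hsh (hb n g) s x ∈ N'
              · exact Or.inl (Or.inl h4)
              · by_cases h5 : s ++ hsh (hb n g) s x ∈ VV A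
                · refine Or.inl (Or.inr ?_)
                  obtain ⟨n', g', s', v', y, hg', e1, e2, e3, e4, e5, e6⟩ := h5
                  have e7 := congrArg List.length e1
                  rw [List.length_append, List.length_append, e2, e3, hs, length_hsh] at e7
                  obtain ⟨e8, e9⟩ := ht_inj hgn hg' e7
                  subst e8 e9
                  obtain ⟨e10, e11⟩ := List.append_inj e1 (hs.trans e2.symm)
                  subst e10
                  exact ⟨y, e4, e5, e6.trans e11.symm⟩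
                · refine Or.inr fun h6 => h4 (h6.1 h5)
            have h4 := h3.trans ((Z3_cnt_or _ _).trans (Nat.add_le_add_right (Z3_cnt_or _ _) _))
            unfold Dc at h1
            omega)
      have h7 : err Aᶜ {x | cnt x.length (fun x => x ∈ A) = 0 ∨ ∃ g ≤ x.length,
          Dc N' x.length g x ∧ 2 ^ x.length < 2 ^ (g + 1) * cnt x.length (fun x => x ∈ A) ∧
          2 ^ g * cnt x.length (fun x => x ∈ A) ≤ 2 ^ x.length} n =
          cnt n (fun x => ¬ (x ∈ Aᶜ ↔ Dc N' n g x)) := by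
        refine Z2_cnt_congr fun x hx => not_congr (iff_congr Iff.rfl ?_)
        show (cnt x.length (fun x => x ∈ A) = 0 ∨ ∃ g ≤ x.length,
          Dc N' x.length g x ∧ 2 ^ x.length < 2 ^ (g + 1) * cnt x.length (fun x => x ∈ A) ∧
          2 ^ g * cnt x.length (fun x => x ∈ A) ≤ 2 ^ x.length) ↔ _
        rw [hx]
        constructor
        · rintro (h1 | ⟨g', h1, h2, h3, h4⟩)
          · exact absurd h1 h0
          · have h5 : g' = g := le_antisymm (Z3_uniq h0 h4 hg2) (Z3_uniq h0 hg1 h3)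
            rw [← h5]
            exact h2
        · intro h1
          exact Or.inr ⟨g, hgn, h1, hg2, hg1⟩
      rw [h7]
      have h9 : r n ≤ r (hT n g + hb n g) := hr hnm
      generalize cnt n (fun x => ¬ (x ∈ Aᶜ ↔ Dc N' n g x)) = E at *
      generalize r (hT n g + hb n g) = R at *
      calc 2 ^ (ρ + r n) * E ≤ 2 ^ (g + R) * E :=
            Nat.mul_le_mul_right _ (Nat.pow_le_pow_right (by norm_num) (by omega))
        _ = 2 ^ g * (2 ^ R * E) := by rw [pow_add]; ring
        _ ≤ 2 ^ g * 2 ^ (hb n g + 3) := Nat.mul_le_mul_left _ hB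
        _ = 2 ^ (n + 5) := by
            rw [← pow_add]
            congr 1
            unfold hb
            omega

end Pool.Agent.LibAV75
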